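import Pool.Agent.P.MP_0ad054_nt.PS.StT
import Pool.Agent.P.MP_0ad054_nt.Clu.AP

/-! The model has the same sums in arithmetic progressions. -/

namespace Pool.Agent.P.MP_0ad054_nt.PS

open Finset Pool.Agent.Lib.H9 Pool.Agent.P.MP_0ad054_nt.Sun Pool.Agent.P.MP_0ad054_nt.Sun.SphereP
  Pool.Agent.P.MP_0ad054_nt.Clu Pool.Agent.P.MP_0ad054_nt.Clu.APP

namespace APVP

/-- the local factor, with the value one at the exponent zero -/
noncomputable def cc (p k : ℕ) (d : ℤ) : ℝ := if k = 0 then 1 else cq p k d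

lemma cq_eq (p k : ℕ) (d : ℤ) :
    cq p k d = (p : ℝ) ^ k * ind (p ^ k) d - (p : ℝ) ^ (k - 1) * ind (p ^ (k - 1)) d := by
  rw [cq, ph_eq, ph_eq]; push_cast; ring

lemma fac_zero {q p : ℕ} (h : p ∉ q.primeFactors) : q.factorization p = 0 := by
  rw [← Finsupp.notMem_support_iff, Nat.support_factorization]; exact h

lemma prod_cc {q : ℕ} {T : Finset ℕ} (h : q.primeFactors ⊆ T) (d : ℤ) :
    ∏ p ∈ T, cc p (q.factorization p) d = cr q d := by
  rw [← prod_subset h fun p _ hp => by rw [fac_zero hp, cc, if_pos rfl]]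
  refine prod_congr rfl fun p hp => if_neg ?_
  rwa [← Ne, ← Finsupp.mem_support_iff, Nat.support_factorization]

lemma prod_pw {q : ℕ} (hq : q ≠ 0) {T : Finset ℕ} (h : q.primeFactors ⊆ T) :
    ∏ p ∈ T, (p : ℝ) ^ q.factorization p = q := by
  rw [← prod_subset h fun p _ hp => by rw [fac_zero hp, pow_zero]]
  exact_mod_cast Nat.prod_factorization_pow_eq_self hq

lemma ind_neg (m : ℕ) (t b : ℤ) : ind m (b - t) = ind m (t - b) := by
  unfold ind; simp only [dvd_sub_comm]

lemma two {p e k v : ℕ} (hp : 0 < p) (hk : k ≤ v) (hv : v ≤ e) (t b : ℤ) :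
    ∑ d ∈ Ico (0 : ℤ) ((p : ℤ) ^ e), ind (p ^ k) (d - t) * ind (p ^ v) (d - b) =
      ind (p ^ k) (t - b) * ((p : ℝ) ^ e / (p : ℝ) ^ v) := by
  rw [← sum_ind_pow hp hv b, mul_sum]
  refine sum_congr rfl fun d _ => ?_
  by_cases h : ((p ^ v : ℕ) : ℤ) ∣ d - b
  · rw [← ind_neg (p ^ k) t b, ind_congr (d := d - t) (d' := b - t)
      (dvd_trans (Int.natCast_dvd_natCast.2 (pow_dvd_pow p hk)) (by simpa using h))]
  · rw [show ind (p ^ v) (d - b) = 0 from if_neg h, mul_zero, mul_zero]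

lemma mean {p e k v : ℕ} (hp : 0 < p) (hk : k ≤ e) (hv : v ≤ e) (t b : ℤ) :
    (∑ d ∈ Ico (0 : ℤ) ((p : ℤ) ^ e), cc p k (d - t) * ind (p ^ v) (d - b)) / (p : ℝ) ^ e =
      if k ≤ v then cc p k (t - b) / (p : ℝ) ^ v else 0 := by
  have hp' : (0 : ℝ) < p := by exact_mod_cast hp
  rcases Nat.eq_zero_or_pos k with rfl | h0
  · simp only [cc, if_true, one_mul, Nat.zero_le]; exact mean_not hp hv b
  simp only [cc, if_neg h0.ne', cq_eq, sub_mul, mul_assoc, sum_sub_distrib, ← mul_sum]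
  split_ifs with h
  · rw [two hp h hv, two hp ((Nat.sub_le _ _).trans h) hv]; field_simp
  · simp only [mul_comm _ (ind (p ^ v) _)]
    rw [two hp (by omega) hk, two hp (by omega) ((Nat.sub_le _ _).trans hk)]
    field_simp
    rw [sub_self, mul_zero]

lemma one_T (hPerV : S_PerV) (hXX : S_XX) {q q' : ℕ} (hq : q ≠ 0) (hq' : q' ≠ 0) (a c t b : ℤ) :
    |∑ d ∈ Ico a c, ind q (d - b) * cr q' (d - t) -
      ((Ico a c).card : ℝ) * (if q' ∣ q then cr q' (t - b) / q else 0)| ≤ 2 * (q * q') * q' := by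
  have hpr : ∀ p ∈ (q * q').primeFactors, p.Prime := fun p => Nat.prime_of_mem_primeFactors
  have s1 : q.primeFactors ⊆ (q * q').primeFactors :=
    Nat.primeFactors_mono (dvd_mul_right _ _) (mul_ne_zero hq hq')
  have s2 : q'.primeFactors ⊆ (q * q').primeFactors :=
    Nat.primeFactors_mono (dvd_mul_left _ _) (mul_ne_zero hq hq')
  have f1 : ∀ p, q.factorization p ≤ (q * q').factorization p := fun p => by
    rw [Nat.factorization_mul hq hq']; exact Nat.le_add_right _ _
  have f2 : ∀ p, q'.factorization p ≤ (q * q').factorization p := fun p => by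
    rw [Nat.factorization_mul hq hq']; exact Nat.le_add_left _ _
  have h := hPerV (q * q').primeFactors (q * q').factorization
    (fun p d => cc p (q'.factorization p) (d - t) * ind (p ^ q.factorization p) (d - b))
    (fun p => (p : ℝ) ^ q'.factorization p) a c hpr ?_ ?_
  · have e1 : ∀ d : ℤ, ∏ p ∈ (q * q').primeFactors, cc p (q'.factorization p) (d - t) *
        ind (p ^ q.factorization p) (d - b) = ind q (d - b) * cr q' (d - t) := fun d => by
      rw [prod_mul_distrib, prod_cc s2, mul_comm, ← prod_ind hq (d - b),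
        prod_subset s1 fun p _ hp => by rw [fac_zero hp, pow_zero, ind_one]]
    rw [prod_congr rfl fun p hp => mean (hpr p hp).pos (f2 p) (f1 p) t b, prod_pw hq' s2,
      prod_pw (mul_ne_zero hq hq') Subset.rfl] at h
    simp only [e1] at h
    push_cast at h
    convert h using 4
    split_ifs with hd
    · rw [prod_congr rfl fun p _ => if_pos ((Nat.factorization_le_iff_dvd hq' hq).2 hd p),
        prod_div_distrib, prod_cc s2, prod_pw hq s1]
    · rw [← Nat.factorization_prime_le_iff_dvd hq' hq] at hd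
      push Not at hd
      obtain ⟨p, -, hp⟩ := hd
      refine (prod_eq_zero (i := p) (s2 ?_) (if_neg hp.not_ge)).symm
      by_contra h0
      rw [fac_zero h0] at hp
      omega
  · intro p _ d d' hd
    have c : ∀ (k : ℕ) (x : ℤ), k ≤ (q * q').factorization p →
        ind (p ^ k) (d - x) = ind (p ^ k) (d' - x) := fun k x hk =>
      ind_congr (dvd_trans (Int.natCast_dvd_natCast.2 (pow_dvd_pow p hk)) (by simpa using hd))
    simp only [cc, cq_eq, c _ _ (f1 p), c _ _ (f2 p), c _ _ ((Nat.sub_le _ 1).trans (f2 p))]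
  · intro p hp d
    rw [abs_mul, abs_of_nonneg (ind_nonneg _ _)]
    refine le_trans (mul_le_of_le_one_right (abs_nonneg _) (ind_le _ _)) ?_
    unfold cc
    split_ifs with h0
    · simp [h0]
    · exact (hXX p _ 0 (hpr p hp) (Nat.pos_of_ne_zero h0)).2.1 _

lemma tele {p : ℕ} (hp : p.Prime) (x : ℤ) (k : ℕ) :
    ∑ i ∈ range (k + 1), cr (p ^ i) x = (p : ℝ) ^ k * ind (p ^ k) x := by
  induction k with
  | zero => simp [cr, ind_one]
  | succ k ih =>
    rw [sum_range_succ, ih, cr, Nat.primeFactors_prime_pow k.succ_ne_zero hp, prod_singleton,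
      Nat.factorization_pow_self hp, cq_eq, Nat.add_sub_cancel]
    ring

lemma sum_cr {q : ℕ} (hq : q ≠ 0) (x : ℤ) : ∑ q' ∈ q.divisors, cr q' x = q * ind q x := by
  let f : ArithmeticFunction ℝ := ⟨fun n => if n = 0 then 0 else cr n x, if_pos rfl⟩
  have hf : ∀ n, n ≠ 0 → f n = cr n x := fun n hn => if_neg hn
  have hm : f.IsMultiplicative := by
    refine ArithmeticFunction.IsMultiplicative.iff_ne_zero.2 ⟨by rw [hf 1 one_ne_zero]; simp [cr],
      fun {m n} hm hn h => ?_⟩
    rw [hf _ hm, hf _ hn, hf _ (mul_ne_zero hm hn)]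
    show (m * n).factorization.prod (fun p k => cq p k x) =
      m.factorization.prod (fun p k => cq p k x) * n.factorization.prod fun p k => cq p k x
    rw [Nat.factorization_mul hm hn,
      Finsupp.prod_add_index_of_disjoint (by simpa using h.disjoint_primeFactors)]
  have h1 := (ArithmeticFunction.isMultiplicative_zeta.natCast.mul hm).multiplicative_factorization
    _ hq
  rw [ArithmeticFunction.coe_zeta_mul_apply,
    sum_congr rfl fun i hi => hf i (Nat.pos_of_mem_divisors hi).ne'] at h1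
  rw [h1, ← prod_ind hq, ← prod_pw hq Subset.rfl, ← prod_mul_distrib]
  refine prod_congr rfl fun p hp => ?_
  have hp' := Nat.prime_of_mem_primeFactors hp
  beta_reduce
  rw [ArithmeticFunction.coe_zeta_mul_apply, Nat.sum_divisors_prime_pow hp', ← tele hp']
  exact sum_congr rfl fun i _ => hf _ (pow_ne_zero _ hp'.ne_zero)

lemma one_I (hPerV : S_PerV) (hXX : S_XX) {Y q : ℕ} (hq : 1 ≤ q) (hqy : q ≤ Y) (a c t b : ℤ) :
    |∑ d ∈ Ico a c, ind q (d - b) * KY Y (d - t) - ((Ico a c).card : ℝ) * ind q (t - b)| ≤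
      2 * (Y : ℝ) ^ 4 := by
  have h0 : q ≠ 0 := by omega
  have e : ∑ q' ∈ Icc 1 Y, (if q' ∣ q then cr q' (t - b) / q else 0) = ind q (t - b) := by
    have e1 : (Icc 1 Y).filter (· ∣ q) = q.divisors := by
      ext x
      simp only [mem_filter, mem_Icc, Nat.mem_divisors]
      exact ⟨fun h => ⟨h.2, h0⟩, fun h =>
        ⟨⟨Nat.pos_of_dvd_of_pos h.1 hq, (Nat.le_of_dvd hq h.1).trans hqy⟩, h.1⟩⟩
    rw [← sum_filter, e1, ← sum_div, sum_cr h0,
      mul_div_cancel_left₀ _ (by exact_mod_cast h0 : (q : ℝ) ≠ 0)]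
  rw [← e]
  unfold KY
  simp_rw [mul_sum]
  rw [sum_comm, ← sum_sub_distrib]
  refine (abs_sum_le_sum_abs _ _).trans
    ((sum_le_card_nsmul _ _ (2 * (Y * Y) * Y : ℝ) fun q' hq' => ?_).trans (le_of_eq ?_))
  · obtain ⟨a1, a2⟩ := mem_Icc.1 hq'
    refine (one_T hPerV hXX h0 (by omega) a c t b).trans ?_
    gcongr
  · rw [Nat.card_Icc, nsmul_eq_mul, Nat.add_sub_cancel]; ring

end APVP

open APVP in
theorem pAPV (hPerV : S_PerV) (hXX : S_XX) : S_APV := by
  intro Y r q X S b hr hq hqy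
  have hr' : (0 : ℝ) < r := by exact_mod_cast hr
  set Q : ℝ := 2 * (Y : ℝ) ^ 4 with hQ
  have e1 : ∑ m ∈ (Icc 3 X).filter (fun m : ℕ => (q : ℤ) ∣ m - b),
      ((if m ∈ S then (1 : ℝ) else 0) - gY Y r S m) =
      ∑ t ∈ S, ((if t ∈ Icc 3 X then (1 : ℝ) else 0) * ind q (t - b) -
        (∑ j ∈ range r, ∑ d ∈ APP.JJ X r t j, ind q (d - b) * KY Y (d - t)) / (r : ℝ) ^ 2) := by
    rw [sum_sub_distrib, sum_sub_distrib]
    congr 1
    · rw [sum_filter]
      simp_rw [ite_mul, one_mul, zero_mul]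
      rw [sum_ite_mem, inter_comm, ← sum_ite_mem]
      refine sum_congr rfl fun m _ => ?_
      unfold ind
      split_ifs <;> rfl
    · simp_rw [← swap]
      rw [sum_comm, sum_filter]
      refine sum_congr rfl fun m _ => ?_
      unfold gY ind
      split_ifs
      · simp
      · simp
  rw [e1]
  have e2 : ∀ t ∈ S, |(if t ∈ Icc 3 X then (1 : ℝ) else 0) * ind q (t - b) -
      (∑ j ∈ range r, ∑ d ∈ APP.JJ X r t j, ind q (d - b) * KY Y (d - t)) / (r : ℝ) ^ 2| ≤
      (if t ∈ range (r + 3) ∪ Ico (X + 1 - r) (X + r) then 1 else 0) + Q / r := by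
    intro t _
    have c1 := weight X r t hr
    have c2 : |∑ j ∈ range r, (∑ d ∈ APP.JJ X r t j, ind q (d - b) * KY Y (d - t) -
        ((APP.JJ X r t j).card : ℝ) * ind q (t - b))| ≤ r * Q := by
      refine (abs_sum_le_sum_abs _ _).trans ((sum_le_card_nsmul _ _ Q fun j _ => ?_).trans (by simp))
      exact APVP.one_I hPerV hXX hq hqy _ _ t b
    rw [sum_sub_distrib, ← sum_mul] at c2
    set A := ∑ j ∈ range r, ∑ d ∈ APP.JJ X r t j, ind q (d - b) * KY Y (d - t)
    set w := ∑ j ∈ range r, ((APP.JJ X r t j).card : ℝ)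
    set u := if t ∈ Icc 3 X then (1 : ℝ) else 0
    have c3 : u * ind q (t - b) - A / (r : ℝ) ^ 2 =
        (u - w / (r : ℝ) ^ 2) * ind q (t - b) - (A - w * ind q (t - b)) / (r : ℝ) ^ 2 := by ring
    rw [c3]
    refine (abs_sub _ _).trans (add_le_add ?_ ?_)
    · rw [abs_mul, abs_of_nonneg (ind_nonneg _ _)]
      exact (mul_le_of_le_one_right (abs_nonneg _) (ind_le _ _)).trans c1
    · rw [abs_div, abs_of_pos (by positivity : (0 : ℝ) < (r : ℝ) ^ 2), div_le_div_iff₀ (by positivity) hr']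
      nlinarith
  refine (abs_sum_le_sum_abs _ _).trans ((sum_le_sum e2).trans ?_)
  rw [sum_add_distrib, sum_const, nsmul_eq_mul, ← mul_div_assoc, sum_ite_mem, sum_const, nsmul_eq_mul,
    mul_one]
  have c1 : (S ∩ (range (r + 3) ∪ Ico (X + 1 - r) (X + r))).card ≤ 4 * r + 4 := by
    refine (card_le_card inter_subset_right).trans ((card_union_le _ _).trans ?_)
    rw [card_range, Nat.card_Ico]; omega
  have c2 : ((S ∩ (range (r + 3) ∪ Ico (X + 1 - r) (X + r))).card : ℝ) ≤ 4 * r + 4 := by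
    exact_mod_cast c1
  linarith

end Pool.Agent.P.MP_0ad054_nt.PS
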