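import Pool.Agent.P.MP_0ad054_nt.PS.Base

/-! The vectors and the pairs that are left out. -/

namespace Pool.Agent.P.MP_0ad054_nt.PS

open Finset Pool.Agent.Lib.H9 Pool.Agent.P.MP_0ad054_nt.Sun Pool.Agent.P.MP_0ad054_nt.Sun.SphereP
  Pool.Agent.P.MP_0ad054_nt.Clu
open scoped Real ComplexConjugate

namespace BADP

lemma sum_bx (H : ℕ) (f : V → ℝ) : ∑ b ∈ bx H, f b =
    ∑ w ∈ iv H, ∑ y ∈ iv H, ∑ z ∈ iv H, ∑ x ∈ iv H, f ![x, y, z, w] := by
  simp only [← sum_product']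
  refine sum_nbij' (fun b => (b 3, b 1, b 2, b 0)) (fun p => ![p.2.2.2, p.2.1, p.2.2.1, p.1])
    (fun b hb => ?_) (fun p hp => ?_) (fun b _ => ?_) (fun p _ => rfl) fun b _ => ?_
  · simp only [bx, Fintype.mem_piFinset] at hb
    simp [hb]
  · simp only [mem_product] at hp
    refine Fintype.mem_piFinset.2 fun j => ?_
    fin_cases j <;> simp [hp]
  · funext j; fin_cases j <;> rfl
  · congr 1; funext j; fin_cases j <;> rfl

lemma card_iv {H : ℕ} (h : 1 ≤ H) : ((iv H).card : ℝ) ≤ 3 * H := by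
  have : (iv H).card ≤ 3 * H := by rw [Base.card_iv]; omega
  exact_mod_cast this

lemma card_bx {H : ℕ} (h : 1 ≤ H) : ((bx H).card : ℝ) ≤ 81 * H ^ 4 := by
  have : (bx H).card ≤ (3 * H) ^ 4 := by rw [Base.card_bx]; gcongr; omega
  calc _ ≤ (((3 * H) ^ 4 : ℕ) : ℝ) := by exact_mod_cast this
    _ = _ := by push_cast; ring

lemma zero {H : ℕ} (hH : 1 ≤ H) {f : ℤ → ℤ → ℝ} (hf : ∀ x y, 0 ≤ f x y) (i j k l : Fin 4)
    (h : ∀ m, m = i ∨ m = j ∨ m = k ∨ m = l) :
    ∑ b ∈ bx H, (if b k = 0 then f (b i) (b j) else 0) ≤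
      3 * H * ∑ x ∈ iv H, ∑ y ∈ iv H, f x y := by
  rw [← sum_filter, ← sum_image (g := fun b : V => (b l, b i, b j))
    (f := fun p => f p.2.1 p.2.2) fun a ha b hb e => ?_]
  · refine (sum_le_sum_of_subset_of_nonneg (t := iv H ×ˢ iv H ×ˢ iv H) (fun p hp => ?_)
      fun _ _ _ => hf _ _).trans ?_
    · obtain ⟨b, hb, rfl⟩ := mem_image.1 hp
      have := Fintype.mem_piFinset.1 (mem_filter.1 hb).1
      simp [this]
    · rw [sum_product]
      simp only [sum_product, sum_const, nsmul_eq_mul]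
      exact mul_le_mul_of_nonneg_right (card_iv hH)
        (sum_nonneg fun _ _ => sum_nonneg fun _ _ => hf _ _)
  · have h1 := (mem_filter.1 ha).2
    have h2 := (mem_filter.1 hb).2
    simp only [Prod.mk.injEq] at e
    funext m
    rcases h m with rfl | rfl | rfl | rfl
    exacts [e.2.1, e.2.2, h1.trans h2.symm, e.1]

lemma mem_K {J S : ℕ} {b b' : V} (h : bad S b b') (hJ : Ga b b' ≤ J) : (ka b b').natAbs ∈
    (Icc 1 J ×ˢ (Icc 1 S).biUnion fun s => (105 * s ^ 2).divisors).image fun p => p.1 * p.2 := by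
  obtain ⟨k0, s, s0, s1, hd⟩ := h
  have g0 : 0 < Ga b b' := Int.gcd_pos_of_ne_zero_right _ k0
  obtain ⟨D, k, co, e1, e2⟩ := Int.exists_gcd_one g0
  change _ = _ * (Ga b b' : ℤ) at e1 e2
  have d1 : k ∣ 105 * s ^ 2 := by
    rw [e1, e2, show 105 * (D * (Ga b b' : ℤ)) * s ^ 2 = D * (105 * s ^ 2) * (Ga b b' : ℤ) by ring,
      mul_dvd_mul_iff_right (by positivity)] at hd
    exact (Int.isCoprime_iff_gcd_eq_one.2 co).symm.dvd_of_dvd_mul_left hd
  have s2 : s.natAbs ≠ 0 := Int.natAbs_ne_zero.2 s0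
  refine mem_image.2 ⟨(Ga b b', k.natAbs), mem_product.2 ⟨mem_Icc.2 ⟨g0, hJ⟩,
    mem_biUnion.2 ⟨s.natAbs, mem_Icc.2 ⟨by omega, by have := abs_le.1 s1; omega⟩,
      Nat.mem_divisors.2 ⟨?_, by positivity⟩⟩⟩, ?_⟩
  · simpa [Int.natAbs_mul, Int.natAbs_pow] using Int.natAbs_dvd_natAbs.2 d1
  · conv_rhs => rw [e2, Int.natAbs_mul, Int.natAbs_natCast, mul_comm]

end BADP

theorem pBAD (hGA : S_GA) (hNU : S_NU) : S_BAD := by
  intro ε hε
  obtain ⟨C₁, c1, h1⟩ := hGA (ε / 2) (by positivity)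
  obtain ⟨C₂, c2, h2⟩ := one_add_log_le (show 0 < ε / 4 by positivity)
  obtain ⟨n0, ⟨C₃, c3, h3⟩, h4⟩ := hNU
  refine ⟨729 + 54 * (C₃ * C₂ ^ 2) * (C₁ + 4), by positivity, fun N R H G hH hN hR hG => ?_⟩
  have H1 : (1 : ℝ) ≤ H := by exact_mod_cast hH
  have R1 : (1 : ℝ) ≤ R := by exact_mod_cast hR
  have HN : (H : ℝ) ≤ N := by exact_mod_cast hN
  have G0 : 0 < Real.sqrt G := Real.sqrt_pos.2 (by exact_mod_cast hG)
  set E := (N : ℝ) ^ (ε / 2) with hE
  have E1 : 1 ≤ E := Real.one_le_rpow (H1.trans HN) (by positivity)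
  have eE : (N : ℝ) ^ ε = E ^ 2 := by
    rw [hE, ← Real.rpow_natCast, ← Real.rpow_mul (by positivity)]; congr 1; push_cast; ring
  have hS : ∑ x ∈ iv H, ∑ y ∈ iv H, nu x y ≤ C₃ * C₂ ^ 2 * E * H := by
    have a1 : LL H ≤ C₂ * (N : ℝ) ^ (ε / 4) := (h2 H H1).trans (by gcongr)
    have a2 : ((N : ℝ) ^ (ε / 4)) ^ 2 = E := by
      rw [hE, ← Real.rpow_natCast, ← Real.rpow_mul (by positivity)]; congr 1; push_cast; ring
    have a3 : 0 ≤ LL H := add_nonneg zero_le_one (Real.log_nonneg H1)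
    calc _ ≤ C₃ * H * LL H ^ 2 := h3 H hH
      _ ≤ C₃ * H * (C₂ * (N : ℝ) ^ (ε / 4)) ^ 2 := by gcongr
      _ = _ := by rw [mul_pow, a2]; ring
  generalize C₃ * C₂ ^ 2 = K at *
  have nn : ∀ x y, 0 ≤ nu x y := fun x y => (n0 x y).1
  set Sg := ∑ x ∈ iv H, ∑ y ∈ iv H, nu x y with hSg
  have S0 : 0 ≤ Sg := sum_nonneg fun _ _ => sum_nonneg fun _ _ => nn _ _
  have K0 : 0 ≤ K := by
    by_contra h
    have : K * E * H < 0 := mul_neg_of_neg_of_pos (mul_neg_of_neg_of_pos (not_le.1 h)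
      (by linarith)) (by linarith)
    linarith
  set w : V → ℝ := fun b => (if b 1 ≠ 0 then nu (b 1) (b 2) * Real.sqrt (gb b) else 0) /
    Real.sqrt G + (if b 0 = 0 then nu (b 1) (b 2) else 0) + (if b 1 = 0 then nu (b 2) (b 3) else 0)
      + (if b 2 = 0 then nu (b 1) (b 3) else 0) + if b 3 = 0 then nu (b 1) (b 2) else 0 with hw
  have p : ∀ (c : Prop) [Decidable c] (x y : ℤ), 0 ≤ if c then nu x y else 0 := fun c _ x y => by
    have := nn x y
    positivity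
  have p' : ∀ b : V, 0 ≤ (if b 1 ≠ 0 then nu (b 1) (b 2) * Real.sqrt (gb b) else 0) /
      Real.sqrt G := fun b => by
    have := nn (b 1) (b 2)
    positivity
  have w0 : ∀ b, 0 ≤ w b := fun b =>
    add_nonneg (add_nonneg (add_nonneg (add_nonneg (p' b) (p _ _ _)) (p _ _ _)) (p _ _ _)) (p _ _ _)
  have pt : ∀ b ∈ (bx H).filter (fun b => b ≠ 0 ∧ b ∉ good H G),
      (((bx R).filter (fun a => dot a b = 0)).card : ℝ) ≤ 9 * R ^ 2 + 18 * R ^ 3 * w b := by
    intro b hb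
    obtain ⟨b1, b2, b3⟩ := mem_filter.1 hb
    obtain ⟨i, j, ij, e⟩ : ∃ i j : Fin 4, i ≠ j ∧ nu (b i) (b j) ≤ w b := by
      have q := p' b
      have q0 := p (b 0 = 0) (b 1) (b 2)
      have q1 := p (b 1 = 0) (b 2) (b 3)
      have q2 := p (b 2 = 0) (b 1) (b 3)
      have q3 := p (b 3 = 0) (b 1) (b 2)
      simp only [hw]
      by_cases z0 : b 0 = 0
      · exact ⟨1, 2, by decide, by rw [if_pos z0]; linarith⟩
      by_cases z1 : b 1 = 0
      · exact ⟨2, 3, by decide, by rw [if_pos z1]; linarith⟩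
      by_cases z2 : b 2 = 0
      · exact ⟨1, 3, by decide, by rw [if_pos z2]; linarith⟩
      by_cases z3 : b 3 = 0
      · exact ⟨1, 2, by decide, by rw [if_pos z3]; linarith⟩
      refine ⟨1, 2, by decide, ?_⟩
      have g : G ≤ gb b := le_of_not_ge fun h => b3 (mem_filter.2 ⟨mem_filter.2 ⟨b1, fun j => by
        fin_cases j <;> assumption⟩, h⟩)
      have : nu (b 1) (b 2) ≤ nu (b 1) (b 2) * Real.sqrt (gb b) / Real.sqrt G := by
        rw [le_div_iff₀ G0]
        exact mul_le_mul_of_nonneg_left (Real.sqrt_le_sqrt (by exact_mod_cast g)) (nn _ _)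
      rw [if_pos z1]
      linarith
    have := nn (b i) (b j)
    calc _ ≤ _ := h4 R b i j b2 ij
      _ ≤ (3 * R : ℝ) ^ 2 * (1 + 2 * R * w b) := by gcongr; linarith
      _ = _ := by ring
  have sA : ∑ b ∈ bx H, (if b 1 ≠ 0 then nu (b 1) (b 2) * Real.sqrt (gb b) else 0) ≤
      3 * H * (Sg * (C₁ * E * H)) := by
    rw [BADP.sum_bx]
    refine (sum_le_card_nsmul _ _ (Sg * (C₁ * E * H)) fun t ht => ?_).trans ?_
    · simp only [hSg, sum_mul]
      refine sum_le_sum fun y hy => sum_le_sum fun z hz => ?_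
      have := nn y z
      by_cases y0 : y = 0
      · simp only [y0, Matrix.cons_val_one, Matrix.cons_val_zero, ne_eq, not_true, if_false,
          sum_const_zero]
        have := nn 0 z
        positivity
      have u := h1 N H ![0, y, z, t] hH hN (Fintype.mem_piFinset.2 fun j => by
        fin_cases j; exacts [by simp [iv], hy, hz, ht]) y0
      refine le_trans (le_of_eq ?_) (mul_le_mul_of_nonneg_left u this)
      rw [mul_sum]
      refine sum_congr rfl fun x _ => ?_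
      rw [if_pos (by simpa using y0), show Function.update ![0, y, z, t] 0 x = ![x, y, z, t] by
        funext j; fin_cases j <;> rfl]
      rfl
    · rw [nsmul_eq_mul]
      exact mul_le_mul_of_nonneg_right (BADP.card_iv hH) (by positivity)
  have sw : ∑ b ∈ bx H, w b ≤ 3 * H * (Sg * (C₁ * E * H)) / Real.sqrt G + 4 * (3 * H * Sg) := by
    simp only [hw, sum_add_distrib, ← sum_div]
    linarith [div_le_div_of_nonneg_right sA G0.le, BADP.zero hH nn 1 2 0 3 (by decide),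
      BADP.zero hH nn 2 3 1 0 (by decide), BADP.zero hH nn 1 3 2 0 (by decide),
      BADP.zero hH nn 1 2 3 0 (by decide)]
  refine (sum_le_sum pt).trans ((sum_le_sum_of_subset_of_nonneg (filter_subset _ _)
    fun b _ _ => by have := w0 b; positivity).trans ?_)
  rw [sum_add_distrib, sum_const, nsmul_eq_mul, ← mul_sum, eE]
  have cb := BADP.card_bx hH
  set a := (R : ℝ) ^ 3 * H ^ 3 / Real.sqrt G with ha
  have a0 : 0 ≤ a := by positivity
  have E2 : E ≤ E ^ 2 := by nlinarith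
  calc _ ≤ 81 * (H : ℝ) ^ 4 * (9 * R ^ 2) + 18 * R ^ 3 * (3 * H * (K * E * H * (C₁ * E * H)) /
        Real.sqrt G + 4 * (3 * H * (K * E * H))) := by
        gcongr
        exact sw.trans (by gcongr)
    _ = 729 * 1 * (R ^ 2 * H ^ 4) + 54 * K * (C₁ * E ^ 2 * a + 4 * E * (R ^ 3 * H ^ 2)) := by
        rw [ha]; ring
    _ ≤ 729 * E ^ 2 * (a + R ^ 3 * H ^ 2 + R ^ 2 * H ^ 4) + 54 * K * (C₁ * E ^ 2 *
        (a + R ^ 3 * H ^ 2 + R ^ 2 * H ^ 4) + 4 * E ^ 2 * (a + R ^ 3 * H ^ 2 + R ^ 2 * H ^ 4)) := by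
        have : (0 : ℝ) ≤ R ^ 3 * H ^ 2 := by positivity
        have : (0 : ℝ) ≤ R ^ 2 * H ^ 4 := by positivity
        gcongr <;> linarith
    _ = _ := by ring

theorem pBADP (hGG : S_GG) (hFIB : S_FIB) : S_BADP := by
  classical
  intro ε hε
  obtain ⟨C₁, c1, h1⟩ := hGG ε hε
  obtain ⟨C₂, c2, h2⟩ := hFIB (ε / 2) (by positivity)
  obtain ⟨C₃, c3, h3⟩ := tau_le (show 0 < ε / 4 by positivity)
  refine ⟨C₁ + 162 * C₂ * (C₃ * (105 : ℝ) ^ (ε / 4)), by positivity,
    fun N H S J hH hN hS hJ => ?_⟩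
  have J0 : 0 < Real.sqrt J := Real.sqrt_pos.2 (by exact_mod_cast hJ)
  set E := (N : ℝ) ^ (ε / 2) with hE
  have E0 : 0 ≤ E := by positivity
  have eE : (N : ℝ) ^ ε = E ^ 2 := by
    rw [hE, ← Real.rpow_natCast, ← Real.rpow_mul (by positivity)]; congr 1; push_cast; ring
  have tK : ∀ s ≤ S, tau (105 * s ^ 2) ≤ C₃ * (105 : ℝ) ^ (ε / 4) * E := fun s hs => by
    have : (s : ℝ) ≤ N := by exact_mod_cast hs.trans hS
    calc _ ≤ _ := h3 _
      _ ≤ C₃ * (105 * (N : ℝ) ^ 2) ^ (ε / 4) := by push_cast; gcongr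
      _ = _ := by
        rw [Real.mul_rpow (by norm_num) (by positivity), ← Real.rpow_natCast,
          ← Real.rpow_mul (by positivity), mul_assoc, hE]
        congr 3
        push_cast
        ring
  have t0 : 0 ≤ C₃ * (105 : ℝ) ^ (ε / 4) := by positivity
  generalize C₃ * (105 : ℝ) ^ (ε / 4) = T at *
  set K := (Icc 1 J ×ˢ (Icc 1 S).biUnion fun s => (105 * s ^ 2).divisors).image
    fun p => p.1 * p.2 with hK
  have cK : (K.card : ℝ) ≤ J * (S * (T * E)) := by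
    have a1 : K.card ≤ J * ∑ s ∈ Icc 1 S, (105 * s ^ 2).divisors.card :=
      card_image_le.trans (by
        rw [card_product, Nat.card_Icc, Nat.add_sub_cancel]
        exact Nat.mul_le_mul_left _ card_biUnion_le)
    have a2 : ∑ s ∈ Icc 1 S, tau (105 * s ^ 2) ≤ S * (T * E) := by
      have := sum_le_card_nsmul _ _ _ fun s hs => tK s (mem_Icc.1 (hs : s ∈ Icc 1 S)).2
      rwa [Nat.card_Icc, Nat.add_sub_cancel, nsmul_eq_mul] at this
    calc _ ≤ (J : ℝ) * ∑ s ∈ Icc 1 S, tau (105 * s ^ 2) := by unfold tau; exact_mod_cast a1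
      _ ≤ _ := by gcongr
  have pt : ∀ b : V, (((nzb H).filter (fun b' => bad S b b')).card : ℝ) ≤
      (∑ b' ∈ (nzb H).filter (fun b' => ka b b' ≠ 0), Real.sqrt (Ga b b')) / Real.sqrt J +
        J * (S * (T * E)) * (2 * (C₂ * E * H ^ 2)) := fun b => by
    rw [← card_filter_add_card_filter_not (fun b' => J ≤ Ga b b'), Nat.cast_add]
    refine add_le_add ?_ ?_
    · rw [le_div_iff₀ J0, ← nsmul_eq_mul, ← sum_const]
      refine (sum_le_sum fun b' hb => Real.sqrt_le_sqrt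
        (show (J : ℝ) ≤ Ga b b' by exact_mod_cast (mem_filter.1 hb).2)).trans
        (sum_le_sum_of_subset_of_nonneg (fun b' hb => ?_) fun _ _ _ => by positivity)
      have := mem_filter.1 (mem_filter.1 hb).1
      exact mem_filter.2 ⟨this.1, this.2.1⟩
    · have s : ((nzb H).filter (fun b' => bad S b b')).filter (fun b' => ¬J ≤ Ga b b') ⊆
          K.biUnion fun n => (bx H).filter (fun b' => Q2 b' = Q2 b - n) ∪
            (bx H).filter (fun b' => Q2 b' = Q2 b + n) := fun b' hb => by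
        obtain ⟨u, v⟩ := mem_filter.1 hb
        obtain ⟨u1, u2⟩ := mem_filter.1 u
        refine mem_biUnion.2 ⟨_, BADP.mem_K u2 (not_le.1 v).le, ?_⟩
        have u3 := (mem_filter.1 u1).1
        rcases Int.natAbs_eq (ka b b') with e | e
        · exact mem_union_left _ (mem_filter.2 ⟨u3, by rw [← e, ka]; ring⟩)
        · exact mem_union_right _ (mem_filter.2 ⟨u3, by rw [← neg_eq_iff_eq_neg.2 e, ka]; ring⟩)
      refine (Nat.cast_le.2 ((card_le_card s).trans card_biUnion_le)).trans ?_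
      rw [Nat.cast_sum]
      refine (sum_le_card_nsmul _ _ (2 * (C₂ * E * H ^ 2)) fun n _ => ?_).trans ?_
      · refine (Nat.cast_le.2 (card_union_le _ _)).trans ?_
        rw [Nat.cast_add]
        linarith [(h2 N H hH hN).1 (Q2 b - n), (h2 N H hH hN).1 (Q2 b + n)]
      · rw [nsmul_eq_mul]
        gcongr
  refine (sum_le_sum fun b _ => pt b).trans ?_
  rw [sum_add_distrib, ← sum_div, sum_const, nsmul_eq_mul]
  have cb : ((nzb H).card : ℝ) ≤ 81 * H ^ 4 :=
    (Nat.cast_le.2 (card_filter_le _ _)).trans (BADP.card_bx hH)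
  have g := h1 N H hH hN
  rw [eE] at g ⊢
  set a := (H : ℝ) ^ 8 / Real.sqrt J with ha
  have a0 : 0 ≤ a := by positivity
  calc _ ≤ C₁ * E ^ 2 * H ^ 8 / Real.sqrt J +
        81 * H ^ 4 * (J * (S * (T * E)) * (2 * (C₂ * E * H ^ 2))) := by gcongr
    _ = C₁ * E ^ 2 * a + 162 * C₂ * T * E ^ 2 * (S * J * H ^ 6) := by rw [ha]; ring
    _ ≤ C₁ * E ^ 2 * (a + S * J * H ^ 6) + 162 * C₂ * T * E ^ 2 * (a + S * J * H ^ 6) := by
        have : (0 : ℝ) ≤ S * J * H ^ 6 := by positivity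
        gcongr <;> linarith
    _ = _ := by ring

end Pool.Agent.P.MP_0ad054_nt.PS
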