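import Pool.Agent.P.MP_0ad054_nt.PS.Base

/-! One block in dual form. -/

namespace Pool.Agent.P.MP_0ad054_nt.PS

open Finset Pool.Agent.Lib.H9 Pool.Agent.P.MP_0ad054_nt.Sun Pool.Agent.P.MP_0ad054_nt.Sun.SphereP
  Pool.Agent.P.MP_0ad054_nt.Clu MeasureTheory Base
open scoped Real ComplexConjugate

namespace BLKP

noncomputable def ww (N : ℕ) (η : ℝ) : ℂ := 1 / N - Complex.I * η

theorem ww_re (N : ℕ) (η : ℝ) : (ww N η).re = 1 / N := by simp [ww]

theorem ww_im (N : ℕ) (η : ℝ) : (ww N η).im = -η := by simp [ww]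

theorem norm_ww {N : ℕ} (hN : 1 ≤ N) (η : ℝ) : ‖ww N η‖ = Om N η / N := by
  have h0 : (0 : ℝ) < N := by exact_mod_cast hN
  have h1 := one_le_Om N η
  refine (sq_eq_sq₀ (norm_nonneg _) (by positivity)).1 ?_
  rw [Complex.sq_norm, Complex.normSq_apply, ww_re, ww_im, div_pow, Om_sq]
  field_simp

theorem re_div {N : ℕ} (hN : 1 ≤ N) (η s : ℝ) : ((s : ℂ) / ww N η).re = s * N / Om N η ^ 2 := by
  have h0 : (0 : ℝ) < N := by exact_mod_cast hN
  have h1 := one_le_Om N η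
  rw [div_eq_mul_inv, Complex.re_ofReal_mul, Complex.inv_re, ← Complex.sq_norm, norm_ww hN, ww_re]
  field_simp

noncomputable def b0 (N : ℕ) (η a : ℝ) : ℂ := ((((Om N η ^ 2 + 1) / N : ℝ) : ℂ) - ww N η) / a

noncomputable def hh (N : ℕ) (η a y : ℝ) : ℂ :=
  1 / b0 N η a ^ (1 / 2 : ℂ) * Complex.exp (-(π * y ^ 2 / b0 N η a))

theorem b0_re {N : ℕ} (hN : 1 ≤ N) (η : ℝ) {a : ℝ} (ha : 0 < a) : 0 < (b0 N η a).re := by
  have h0 : (0 : ℝ) < N := by exact_mod_cast hN
  have h1 := one_le_Om N η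
  unfold b0
  rw [Complex.div_ofReal_re, Complex.sub_re, Complex.ofReal_re, ww_re, ← sub_div,
    add_sub_cancel_right]
  positivity

theorem b1_re {N : ℕ} (hN : 1 ≤ N) (η : ℝ) {a : ℝ} (ha : 0 < a) : 0 < (ww N η / a).re := by
  have h0 : (0 : ℝ) < N := by exact_mod_cast hN
  rw [Complex.div_ofReal_re, ww_re]; positivity

theorem hh_int {N : ℕ} (hN : 1 ≤ N) (η : ℝ) {a : ℝ} (ha : 0 < a) : Integrable (hh N η a) := by
  have h := b0_re hN η ha
  have h1 : 0 < (π / b0 N η a : ℂ).re := by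
    rw [div_eq_mul_inv, Complex.re_ofReal_mul, Complex.inv_re]
    have : 0 < Complex.normSq (b0 N η a) := Complex.normSq_pos.2 fun h0 => by simp [h0] at h
    have := Real.pi_pos
    positivity
  refine ((integrable_cexp_neg_mul_sq h1).const_mul (1 / b0 N η a ^ (1 / 2 : ℂ))).congr
    (Filter.Eventually.of_forall fun y => ?_)
  unfold hh
  beta_reduce
  congr 2; ring

theorem conv_bd (hC : S_CONV) {N : ℕ} (hN : 1 ≤ N) (η : ℝ) {a D q : ℝ} (x0 : ℝ) (ha : 0 < a)
    (hD : 0 ≤ D) (hq : 0 < q) :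
    ‖∫ y : ℝ, hh N η a y *
      Complex.exp (-(π * ((D + a * q ^ 2 * (x0 - y) ^ 2 : ℝ) : ℂ) / (q ^ 2 * ww N η)))‖ ≤
      1 / Real.sqrt (Om N η) *
        Real.exp (-(π * (N * (D + a * q ^ 2 * x0 ^ 2) / (2 * (q * Om N η) ^ 2)))) := by
  have h0 : (0 : ℝ) < N := by exact_mod_cast hN
  have h1 := one_le_Om N η
  have hw : ww N η ≠ 0 := fun h => by
    have := b1_re hN η ha
    simp [h] at this
  have hq' : (q : ℂ) ≠ 0 := by exact_mod_cast hq.ne'
  have ha' : (a : ℂ) ≠ 0 := by exact_mod_cast ha.ne'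
  have e1 : ∀ y : ℝ, hh N η a y *
      Complex.exp (-(π * ((D + a * q ^ 2 * (x0 - y) ^ 2 : ℝ) : ℂ) / (q ^ 2 * ww N η))) =
      Complex.exp (((-(π * D / q ^ 2) : ℝ) : ℂ) / ww N η) *
        (hh N η a y * Complex.exp (-(π * (x0 - y) ^ 2 / (ww N η / a)))) := fun y => by
    rw [mul_left_comm, ← Complex.exp_add]
    congr 2; push_cast; field_simp; ring
  simp only [e1]
  have e2 : b0 N η a + ww N η / a = (((Om N η ^ 2 + 1) / N / a : ℝ) : ℂ) := by
    unfold b0; push_cast; ring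
  rw [integral_const_mul, norm_mul, Complex.norm_exp, re_div hN]
  unfold hh
  rw [(hC _ _ x0 (b0_re hN η ha) (b1_re hN η ha)).2, e2, norm_div, norm_ww hN, Complex.norm_real,
    Complex.norm_real, Real.norm_of_nonneg ha.le, Real.norm_of_nonneg (by positivity),
    ← Complex.ofReal_one, ← Complex.ofReal_div, Complex.ofReal_re, mul_left_comm, ← Real.exp_add]
  set O := Om N η
  have hp := Real.pi_pos
  refine mul_le_mul ?_ (Real.exp_le_exp.2 ?_) (Real.exp_pos _).le (by positivity)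
  · rw [one_div, ← Real.sqrt_inv]
    refine Real.sqrt_le_sqrt ?_
    rw [show O / N / a / ((O ^ 2 + 1) / N / a) = O / (O ^ 2 + 1) by field_simp, ← one_div,
      div_le_div_iff₀ (by positivity) (by positivity)]
    nlinarith
  · have a1 : 1 / (2 * O ^ 2) ≤ 1 / (O ^ 2 + 1) := by
      gcongr; nlinarith
    have a2 : 1 / (2 * O ^ 2) ≤ 1 / O ^ 2 := by
      gcongr; nlinarith
    calc _ = -(π * N * (D / q ^ 2) * (1 / O ^ 2) + π * N * (a * x0 ^ 2) * (1 / (O ^ 2 + 1))) := by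
          field_simp; ring
      _ ≤ -(π * N * (D / q ^ 2) * (1 / (2 * O ^ 2)) + π * N * (a * x0 ^ 2) * (1 / (2 * O ^ 2))) := by
          gcongr
      _ = _ := by field_simp

/-- the quadratic expression in the dual weight -/
noncomputable def SQ (b k : V) (θ x : ℝ) : ℝ :=
  ∑ j, ((k j : ℝ) - (x + cz j * θ) * b j) ^ 2 / (2 * cz j)

noncomputable def GK (N q : ℕ) (η : ℝ) (b k : V) (θ x : ℝ) : ℂ :=
  Complex.exp (-(π * (SQ b k θ x : ℂ) / (q ^ 2 * ww N η)))

noncomputable def gk (r : ℝ) (b k : V) (θ x : ℝ) : ℝ :=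
  Real.exp (-(π * (∑ j, ((k j : ℝ) - (x + cz j * θ) * b j) ^ 2) / r ^ 2))

noncomputable def ab (b : V) : ℝ := ∑ j, (b j : ℝ) ^ 2 / (2 * cz j)

theorem cz_real (j : Fin 4) : (1 : ℝ) ≤ cz j ∧ (cz j : ℝ) ≤ 7 := by exact_mod_cast cz_pos j

theorem ab_pos {b : V} (hb : b ≠ 0) : 0 < ab b := by
  obtain ⟨j, hj⟩ := Function.ne_iff.1 hb
  refine sum_pos' (fun i _ => ?_) ⟨j, mem_univ _, ?_⟩
  · have := (cz_real i).1; positivity
  · have := (cz_real j).1
    have h2 : (b j : ℝ) ≠ 0 := by exact_mod_cast hj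
    positivity

theorem SQ_ge (b k : V) (θ x : ℝ) :
    (∑ j, ((k j : ℝ) - (x + cz j * θ) * b j) ^ 2) / 14 ≤ SQ b k θ x := by
  rw [sum_div]
  refine sum_le_sum fun j _ => ?_
  have := cz_real j
  gcongr <;> linarith

theorem gk_ge {N : ℕ} {q O r : ℝ} (hq : 0 < q) (hO : 1 ≤ O) (hr : 0 < r)
    (h : 28 * (q * O) ^ 2 ≤ r ^ 2 * N) (b k : V) (θ x : ℝ) :
    Real.exp (-(π * (N * SQ b k θ x / (2 * (q * O) ^ 2)))) ≤ gk r b k θ x := by
  have h1 := SQ_ge b k θ x
  unfold gk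
  set s := ∑ j, ((k j : ℝ) - (x + cz j * θ) * b j) ^ 2
  have h2 : 0 ≤ s := sum_nonneg fun _ _ => sq_nonneg _
  have hp := Real.pi_pos
  rw [Real.exp_le_exp, neg_le_neg_iff, mul_div_assoc π s]
  refine mul_le_mul_of_nonneg_left ?_ hp.le
  rw [div_le_div_iff₀ (by positivity) (by positivity)]
  calc _ = s / 14 * (28 * (q * O) ^ 2) := by ring
    _ ≤ SQ b k θ x * (r ^ 2 * N) := by gcongr; exact le_trans (by positivity) h1
    _ = _ := by ring

theorem norm_GK {N q : ℕ} {η r : ℝ} (hN : 1 ≤ N) (hq : 1 ≤ q) (hr : 0 < r)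
    (h : 28 * (q * Om N η) ^ 2 ≤ r ^ 2 * N) (b k : V) (θ x : ℝ) :
    ‖GK N q η b k θ x‖ ≤ gk r b k θ x := by
  have hq0 : (0 : ℝ) < q := by exact_mod_cast hq
  have h1 := one_le_Om N η
  refine le_trans ?_ (gk_ge hq0 h1 hr h b k θ x)
  have h2 : 0 ≤ SQ b k θ x := le_trans (div_nonneg (sum_nonneg fun _ _ => sq_nonneg _)
    (by norm_num)) (SQ_ge b k θ x)
  have e1 : -(π * (SQ b k θ x : ℂ) / (q ^ 2 * ww N η)) =
      ((-(π * SQ b k θ x / q ^ 2) : ℝ) : ℂ) / ww N η := by push_cast; ring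
  unfold GK
  rw [e1, Complex.norm_exp, re_div hN, Real.exp_le_exp]
  have h3 : 0 ≤ π * (N * SQ b k θ x / (2 * (q * Om N η) ^ 2)) := by
    have := Real.pi_pos; positivity
  have h4 : -(π * SQ b k θ x / q ^ 2) * N / Om N η ^ 2 =
      -(2 * (π * (N * SQ b k θ x / (2 * (q * Om N η) ^ 2)))) := by field_simp
  linarith

theorem SQ_shift {b : V} (hb : b ≠ 0) (k : V) (θ t : ℝ) {q : ℝ} (hq : 0 < q) :
    ∃ D x0 : ℝ, 0 ≤ D ∧ ∀ y, SQ b k θ (t + q * y) = D + ab b * q ^ 2 * (x0 - y) ^ 2 := by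
  have ha := ab_pos hb
  set B := ∑ j, ((k j : ℝ) - (t + cz j * θ) * b j) * b j / (2 * cz j) with hB
  have e1 : ∀ y, SQ b k θ (t + q * y) = SQ b k θ t - 2 * q * y * B + q ^ 2 * y ^ 2 * ab b := by
    intro y
    simp only [hB, SQ, ab, mul_sum, ← sum_sub_distrib, ← sum_add_distrib]
    exact sum_congr rfl fun j _ => by ring
  refine ⟨SQ b k θ (t + q * (B / (ab b * q))), B / (ab b * q), le_trans (div_nonneg
    (sum_nonneg fun _ _ => sq_nonneg _) (by norm_num)) (SQ_ge b k θ _), fun y => ?_⟩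
  rw [e1, e1]; field_simp; ring

theorem inner_bd (hC : S_CONV) {N q : ℕ} {η r : ℝ} (hN : 1 ≤ N) (hq : 1 ≤ q) (hr : 0 < r)
    (h : 28 * (q * Om N η) ^ 2 ≤ r ^ 2 * N) {b : V} (hb : b ≠ 0) (k : V) (θ t : ℝ) :
    ‖∫ y : ℝ, hh N η (ab b) y * GK N q η b k θ (t + q * y)‖ ≤
      1 / Real.sqrt (Om N η) * gk r b k θ t := by
  have hq0 : (0 : ℝ) < q := by exact_mod_cast hq
  obtain ⟨D, x0, hD, hs⟩ := SQ_shift hb k θ t hq0
  have h1 := conv_bd hC hN η x0 (ab_pos hb) hD hq0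
  have h2 := hs 0
  rw [mul_zero, add_zero, sub_zero] at h2
  rw [← h2] at h1
  simp only [← hs] at h1
  exact h1.trans (mul_le_mul_of_nonneg_left (gk_ge hq0 (one_le_Om N η) hr h b k θ t)
    (by positivity))

/-- detection of `m = 0` -/
theorem detect {q : ℕ} (hq : 1 ≤ q) (m : ℤ) (y : ℝ) :
    (∫ t in (0 : ℝ)..1, ∑ n ∈ Ico (0 : ℤ) q, e ((n + (t + q * y)) / q * m)) =
      if m = 0 then (q : ℂ) else 0 := by
  have hq0 : (q : ℝ) ≠ 0 := by positivity
  have hc : ∀ a c : ℝ, IntervalIntegrable (fun t : ℝ => e ((t + q * y) / q * m)) volume a c :=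
    fun a c => Continuous.intervalIntegrable (by fun_prop) _ _
  rw [intervalIntegral.integral_finsetSum fun n _ => Continuous.intervalIntegrable
    (by fun_prop) _ _]
  have e1 : ∀ n : ℤ, (∫ t in (0 : ℝ)..1, e ((n + (t + q * y)) / q * m)) =
      ∫ t in (n : ℝ)..(n + 1), e ((t + q * y) / q * m) := fun n => by
    have := intervalIntegral.integral_comp_add_left (a := 0) (b := 1)
      (fun t : ℝ => e ((t + q * y) / q * m)) (n : ℝ)
    simpa only [add_zero, add_assoc] using this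
  have e2 : ∑ n ∈ Ico (0 : ℤ) q, ∫ t in (n : ℝ)..(n + 1), e ((t + q * y) / q * m) =
      ∫ t in (0 : ℝ)..q, e ((t + q * y) / q * m) := by
    have := intervalIntegral.sum_integral_adjacent_intervals (a := fun k : ℕ => (k : ℝ)) (n := q)
      (fun k _ => hc _ _)
    rw [Nat.cast_zero] at this
    rw [← this, Int.Ico_eq_finset_map, sum_map]
    simp
  simp only [e1]
  rw [e2]
  have e4 := intervalIntegral.smul_integral_comp_mul_left (a := 0) (b := 1)
    (fun t : ℝ => e ((t + q * y) / q * m)) (q : ℝ)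
  rw [mul_zero, mul_one] at e4
  rw [← e4]
  have e5 : ∀ x : ℝ, e ((q * x + q * y) / q * m) = e (m * x) * e (y * m) := fun x => by
    rw [← e_add]; congr 1; field_simp
  simp only [e5]
  rw [intervalIntegral.integral_mul_const, int_e]
  split_ifs with h <;> simp [h, e_zero]

noncomputable def FA (N q : ℕ) (b : V) (η θ : ℝ) (i : ℤ × ℤ) (a : V) : ℂ :=
  EE N (i.1 / q + η) (Q2 a) * e ((i.2 + θ) / q * QB b a)

theorem norm_FA (N q : ℕ) (b : V) (η θ : ℝ) (i : ℤ × ℤ) (a : V) :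
    ‖FA N q b η θ i a‖ = Real.exp (-(2 * π * (Q2 a : ℤ) / N)) := by
  rw [FA, norm_mul, norm_e, mul_one, norm_EE]

variable {N q : ℕ} (b : V) (η θ : ℝ) (S : Finset (ℤ × ℤ)) (c : ℤ × ℤ → ℂ)

noncomputable def TA (N q : ℕ) (b : V) (η θ : ℝ) (S : Finset (ℤ × ℤ)) (c : ℤ × ℤ → ℂ) (x : ℝ)
    (a : V) : ℂ :=
  (∑ i ∈ S, c i * FA N q b η θ i a) * ∑ n ∈ Ico (0 : ℤ) q, e ((n + x) / q * dot a b)

theorem norm_TA (x : ℝ) (a : V) : ‖TA N q b η θ S c x a‖ ≤
    (∑ i ∈ S, ‖c i‖) * q * Real.exp (-(2 * π * (Q2 a : ℤ) / N)) := by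
  rw [TA, norm_mul, mul_right_comm]
  gcongr
  · rw [sum_mul]
    exact (norm_sum_le _ _).trans (le_of_eq (sum_congr rfl fun i _ => by rw [norm_mul, norm_FA]))
  · refine (norm_sum_le _ _).trans ?_
    simp [norm_e]

theorem cont_TA (a : V) : Continuous (fun x => TA N q b η θ S c x a) := by
  unfold TA; fun_prop

theorem int_TA (hN : 1 ≤ N) (hq : 1 ≤ q) (y : ℝ) :
    (∫ t in Set.Ioc (0 : ℝ) 1, ∑' a, TA N q b η θ S c (t + q * y) a) =
      q * ∑ i ∈ S, c i * Th N b (i.1 / q + η) ((i.2 + θ) / q) := by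
  have hs := (sum_Q2 hN).mul_left ((∑ i ∈ S, ‖c i‖) * q)
  rw [← integral_tsum_of_summable_integral_norm (F := fun a t => TA N q b η θ S c (t + q * y) a)
    (fun a => ((cont_TA b η θ S c a).comp (by fun_prop)).integrableOn_Ioc)
    (hs.of_nonneg_of_le (fun _ => integral_nonneg fun _ => norm_nonneg _) fun a => ?_)]
  · have e1 : ∀ a : V, (∫ t in Set.Ioc (0 : ℝ) 1, TA N q b η θ S c (t + q * y) a) =
        ∑ i ∈ S, q * (c i * if dot a b = 0 then FA N q b η θ i a else 0) := fun a => by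
      rw [← intervalIntegral.integral_of_le zero_le_one]
      unfold TA
      rw [intervalIntegral.integral_const_mul, detect hq, sum_mul]
      refine sum_congr rfl fun i _ => ?_
      split_ifs <;> ring
    simp only [e1]
    rw [Summable.tsum_finsetSum fun i _ => ?_, mul_sum]
    · refine sum_congr rfl fun i _ => ?_
      rw [tsum_mul_left, tsum_mul_left]; rfl
    · refine Summable.mul_left _ (Summable.mul_left _
        (Summable.of_norm_bounded (sum_Q2 hN) fun a => ?_))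
      split_ifs
      · exact (norm_FA ..).le
      · simpa using (Real.exp_pos _).le
  · refine (integral_mono_of_nonneg (Filter.Eventually.of_forall fun _ => norm_nonneg _)
      (integrable_const _) (Filter.Eventually.of_forall fun t => norm_TA b η θ S c _ a)).trans ?_
    simp

theorem sum_gk {r : ℝ} (hr : 0 < r) (x : ℝ) : Summable (fun k => gk r b k θ x) :=
  (gauss4 hr fun j => (x + cz j * θ) * b j).summable

theorem dual (hP : S_P4) {r : ℝ} (hN : 1 ≤ N) (hq : 1 ≤ q) (hr : 0 < r)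
    (h : 28 * (q * Om N η) ^ 2 ≤ r ^ 2 * N) (x : ℝ) :
    ∑' a, TA N q b η θ S c x a =
      1 / (q : ℂ) ^ 4 * (∏ j, 1 / (2 * cz j * ww N η) ^ (1 / 2 : ℂ)) *
        ∑' k : V, (∑ i ∈ S, c i * GB q b i.1 i.2 k) * GK N q η b k θ x := by
  have e1 : ∀ a, TA N q b η θ S c x a = ∑ p ∈ S ×ˢ Ico (0 : ℤ) q,
      c p.1 * (FA N q b η θ p.1 a * e ((p.2 + x) / q * dot a b)) := fun a => by
    rw [TA, sum_mul_sum, sum_product]
    simp only [mul_assoc]
  have e2 : ∀ k, (∑ i ∈ S, c i * GB q b i.1 i.2 k) * GK N q η b k θ x =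
      ∑ p ∈ S ×ˢ Ico (0 : ℤ) q, c p.1 * ((∑ v ∈ res q,
        ex q (p.1.1 * Q2 v + p.2 * dot b v + p.1.2 * QB b v + dot k v)) * GK N q η b k θ x) :=
    fun k => by
      rw [sum_product, sum_mul]
      refine sum_congr rfl fun i _ => ?_
      rw [GB, mul_assoc, sum_mul, mul_sum]
  simp only [e1, e2]
  rw [Summable.tsum_finsetSum fun p _ => ?_, Summable.tsum_finsetSum fun p _ => ?_, mul_sum]
  · refine sum_congr rfl fun p _ => ?_
    rw [tsum_mul_left, tsum_mul_left, mul_left_comm]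
    congr 1
    have := hP N q b p.1.1 p.1.2 p.2 η θ x hN hq
    simpa only [FA, GK, SQ, ww, Complex.ofReal_sum, Complex.ofReal_div, Complex.ofReal_pow,
      Complex.ofReal_mul, Complex.ofReal_ofNat, Complex.ofReal_intCast] using this
  · refine Summable.mul_left _ (Summable.of_norm_bounded
      ((sum_gk b θ hr x).mul_left ((q : ℝ) ^ 4)) fun k => ?_)
    rw [norm_mul]
    gcongr
    · refine (norm_sum_le _ _).trans ?_
      simp [norm_ex, Base.card_res]
    · exact norm_GK hN hq hr h b k θ x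
  · refine Summable.mul_left _ (Summable.of_norm_bounded (sum_Q2 hN) fun a => ?_)
    rw [norm_mul, norm_e, mul_one, norm_FA]

theorem pref (hN : 1 ≤ N) :
    ‖∏ j, 1 / (2 * cz j * ww N η) ^ (1 / 2 : ℂ)‖ ≤ (N : ℝ) ^ 2 / Om N η ^ 2 := by
  have h0 : (0 : ℝ) < N := by exact_mod_cast hN
  have h1 := one_le_Om N η
  have h2 : ∀ j, ‖1 / (2 * cz j * ww N η) ^ (1 / 2 : ℂ)‖ ≤ Real.sqrt (N / Om N η) := fun j => by
    have := (cz_real j).1
    rw [norm_div, norm_one, show (1 / 2 : ℂ) = ((1 / 2 : ℝ) : ℂ) by push_cast; rfl,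
      Complex.norm_cpow_real, ← Real.sqrt_eq_rpow, norm_mul, norm_mul, norm_ww hN,
      Complex.norm_intCast, abs_of_nonneg (zero_le_one.trans this), Complex.norm_ofNat, one_div,
      ← Real.sqrt_inv, ← inv_div (Om N η)]
    refine Real.sqrt_le_sqrt (inv_anti₀ (by positivity) ?_)
    exact le_mul_of_one_le_left (by positivity) (by linarith)
  rw [norm_prod]
  refine (prod_le_prod (fun _ _ => norm_nonneg _) fun j _ => h2 j).trans (le_of_eq ?_)
  rw [prod_const, card_univ, Fintype.card_fin, show 4 = 2 * 2 from rfl, pow_mul,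
    Real.sq_sqrt (by positivity), div_pow]

end BLKP

open BLKP in
theorem pBLK (hP4 : S_P4) (hCONV : S_CONV) (hMJ : S_MJ) (hVT : S_VT) : S_BLK := by
  refine ⟨1, one_pos, fun N q b η θ r S c hN hq hb h hr => ?_⟩
  have hq0 : (0 : ℝ) < q := by exact_mod_cast hq
  have hO := one_le_Om N η
  have ha := ab_pos hb
  set μ : Measure (ℝ × ℝ) := (volume.restrict (Set.Ioc (0 : ℝ) 1)).prod volume
  set H : V → ℂ := fun k => ∑ i ∈ S, c i * GB q b i.1 i.2 k with hH
  set B : ℝ := (∑ i ∈ S, ‖c i‖) * (q : ℝ) ^ 5 with hB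
  have hB0 : 0 ≤ B := mul_nonneg (sum_nonneg fun _ _ => norm_nonneg _) (by positivity)
  have hHB : ∀ k, ‖H k‖ ≤ B := fun k => by
    rw [hB, sum_mul]
    refine (norm_sum_le _ _).trans (sum_le_sum fun i _ => ?_)
    rw [norm_mul]; gcongr; exact norm_GB ..
  have hi : Integrable (fun p : ℝ × ℝ => ‖hh N η (ab b) p.2‖) μ := by
    simpa using (integrable_const (μ := volume.restrict (Set.Ioc (0 : ℝ) 1)) (1 : ℝ)).mul_prod
      (hh_int hN η ha).norm
  have hc : Continuous (hh N η (ab b)) := by unfold hh; fun_prop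
  have dom : ∀ (F : ℝ → ℂ) (M : ℝ), Continuous F → (∀ x, ‖F x‖ ≤ M) →
      Integrable (fun p : ℝ × ℝ => hh N η (ab b) p.2 * F (p.1 + q * p.2)) μ := fun F M h1 h2 =>
    (hi.mul_const M).mono' (Continuous.aestronglyMeasurable (by fun_prop))
      (Filter.Eventually.of_forall fun p => by rw [norm_mul]; gcongr; exact h2 _)
  have hGc : ∀ k, Continuous (fun x => H k * GK N q η b k θ x) := fun k => by
    unfold GK SQ; fun_prop
  have hg1 : ∀ k x, gk r b k θ x ≤ 1 := fun k x => Real.exp_le_one_iff.2 (neg_nonpos.2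
    (div_nonneg (mul_nonneg Real.pi_pos.le (sum_nonneg fun _ _ => sq_nonneg _)) (sq_nonneg _)))
  have hG : ∀ k x, ‖H k * GK N q η b k θ x‖ ≤ B * gk r b k θ x := fun k x => by
    rw [norm_mul]; gcongr
    · exact hHB k
    · exact norm_GK hN hq hr h b k θ x
  have hf := fun k => dom _ B (hGc k) fun x => (hG k x).trans (mul_le_of_le_one_right hB0 (hg1 k x))
  have hs : Summable fun k => ∫ p, ‖hh N η (ab b) p.2 * (H k * GK N q η b k θ (p.1 + q * p.2))‖ ∂μ := by
    refine summable_of_sum_le (c := ∫ p, ‖hh N η (ab b) p.2‖ * (B * (1 + r) ^ 4) ∂μ)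
      (fun _ => integral_nonneg fun _ => norm_nonneg _) fun K => ?_
    rw [← integral_finsetSum K fun k _ => (hf k).norm]
    refine integral_mono (integrable_finsetSum K fun k _ => (hf k).norm) (hi.mul_const _)
      fun p => ?_
    simp only [norm_mul (hh N η (ab b) p.2), ← mul_sum]
    gcongr
    refine (sum_le_sum fun k _ => hG k _).trans ?_
    rw [← mul_sum]
    gcongr
    refine (fin_gauss4 hr _ K).trans ((prod_le_prod (fun _ _ => vth_nonneg _ _)
      fun j _ => ((hVT r hr).2.1 _).2).trans (le_of_eq (by simp)))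
  have e1 := integral_tsum_of_summable_integral_norm hf hs
  have hsQ := (sum_Q2 hN).mul_left ((∑ i ∈ S, ‖c i‖) * q)
  have e2 := integral_prod_symm _ (dom (fun x => ∑' a, TA N q b η θ S c x a) _
    (continuous_tsum (cont_TA b η θ S c) hsQ fun a x => norm_TA b η θ S c x a)
    fun x => tsum_of_norm_bounded hsQ.hasSum (norm_TA b η θ S c x))
  simp only [integral_const_mul, int_TA b η θ S c hN hq, integral_mul_const] at e2
  rw [show (∫ y, hh N η (ab b) y) = 1 from (hCONV _ _ 0 (b0_re hN η ha) (b1_re hN η ha)).1,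
    one_mul] at e2
  simp only [dual b η θ S c hP4 hN hq hr h, mul_left_comm (hh N η (ab b) _),
    integral_const_mul] at e2
  simp only [tsum_mul_left] at e1
  rw [← e1] at e2
  have hm := hMJ r b hr
  have hs2 : Summable fun k => mb r b k θ * ‖H k‖ :=
    ((summable_of_sum_le (fun k => (hm.2.2.1 k θ).1) fun K => hm.2.2.2.2.2.1 K θ).mul_right
      B).of_nonneg_of_le (fun k => mul_nonneg (hm.2.2.1 k θ).1 (norm_nonneg _))
      fun k => mul_le_mul_of_nonneg_left (hHB k) (hm.2.2.1 k θ).1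
  have e3 : ‖∑' k, ∫ p, hh N η (ab b) p.2 * (H k * GK N q η b k θ (p.1 + q * p.2)) ∂μ‖ ≤
      1 / Real.sqrt (Om N η) * ∑' k, mb r b k θ * ‖H k‖ := by
    refine tsum_of_norm_bounded (hs2.hasSum.mul_left _) fun k => ?_
    rw [integral_prod _ (hf k)]
    have a1 : Continuous (fun t => gk r b k θ t) := by unfold gk; fun_prop
    refine (norm_integral_le_of_norm_le (g := fun t => 1 / Real.sqrt (Om N η) * gk r b k θ t *
      ‖H k‖) (Continuous.integrableOn_Ioc (by fun_prop))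
      (Filter.Eventually.of_forall fun t => ?_)).trans (le_of_eq ?_)
    · simp only [mul_left_comm (hh N η (ab b) _), integral_const_mul]
      rw [norm_mul, mul_comm]
      gcongr
      exact inner_bd hCONV hN hq hr h hb k θ t
    · rw [integral_mul_const, integral_const_mul, mul_assoc,
        ← intervalIntegral.integral_of_le zero_le_one]
      rfl
  have e4 := congrArg norm e2
  rw [norm_mul, norm_mul, norm_mul, Complex.norm_natCast, norm_div, norm_one, norm_pow,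
    Complex.norm_natCast] at e4
  refine le_of_mul_le_mul_left ?_ hq0
  rw [← e4]
  have e5 := pref η hN
  calc _ ≤ 1 / (q : ℝ) ^ 4 * ((N : ℝ) ^ 2 / Om N η ^ 2) *
        (1 / Real.sqrt (Om N η) * ∑' k, mb r b k θ * ‖H k‖) := by gcongr
    _ = _ := by simp only [hH]; field_simp

end Pool.Agent.P.MP_0ad054_nt.PS
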