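import Pool.Agent.P.MP_0ad054_nt.PS.St

/-! Small facts shared by several parts. -/

namespace Pool.Agent.P.MP_0ad054_nt.PS.Base

open Finset Pool.Agent.Lib.H9 Pool.Agent.P.MP_0ad054_nt.Sun Pool.Agent.P.MP_0ad054_nt.Sun.SphereP
  Pool.Agent.P.MP_0ad054_nt.Clu
open scoped Real ComplexConjugate

@[fun_prop]
theorem cont_e : Continuous e := by unfold e; fun_prop

theorem int_e (m : ℤ) : (∫ x in (0 : ℝ)..1, e (m * x)) = if m = 0 then 1 else 0 := by
  split_ifs with h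
  · simp [h, e_zero]
  · have h1 : (2 * π * Complex.I * m : ℂ) ≠ 0 := by
      exact mul_ne_zero Complex.two_pi_I_ne_zero (by exact_mod_cast h)
    have h2 : ∀ x : ℝ, e (m * x) = Complex.exp ((2 * π * Complex.I * m) * x) := fun x => by
      unfold e; congr 1; push_cast; ring
    simp only [h2]
    rw [integral_exp_mul_complex h1, ← h2, ← h2, mul_one, mul_zero, e_int, e_zero, sub_self,
      zero_div]

theorem norm_ex (q : ℕ) (a : ℤ) : ‖ex q a‖ = 1 := norm_e _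

theorem ex_add (q : ℕ) (a b : ℤ) : ex q (a + b) = ex q a * ex q b := by
  unfold ex; rw [← e_add]; congr 1; push_cast; ring

theorem ex_zero (q : ℕ) : ex q 0 = 1 := by simp [ex, e_zero]

theorem conj_ex (q : ℕ) (a : ℤ) : conj (ex q a) = ex q (-a) := by
  unfold ex; rw [conj_e]; congr 1; push_cast; ring

theorem ex_congr {q : ℕ} (hq : 1 ≤ q) {a b : ℤ} (h : (q : ℤ) ∣ a - b) : ex q a = ex q b := by
  obtain ⟨c, hc⟩ := h
  have h0 : (q : ℝ) ≠ 0 := by positivity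
  unfold ex
  rw [← e_add_int ((b : ℝ) / q) c, show a = b + q * c by linarith]
  congr 1; push_cast; field_simp

theorem norm_EE (N : ℕ) (lam : ℝ) (m : ℤ) : ‖EE N lam m‖ = Real.exp (-(2 * π * m / N)) := by
  unfold EE
  rw [norm_mul, norm_e, one_mul, Complex.norm_real, Real.norm_of_nonneg (Real.exp_pos _).le]

theorem one_le_Om (N : ℕ) (η : ℝ) : 1 ≤ Om N η :=
  Real.le_sqrt_of_sq_le (by nlinarith [sq_nonneg (N * η)])

theorem Om_sq (N : ℕ) (η : ℝ) : Om N η ^ 2 = 1 + (N * η) ^ 2 := Real.sq_sqrt (by positivity)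

theorem Om_le (N : ℕ) (η : ℝ) : Om N η ≤ 1 + N * |η| :=
  Real.sqrt_le_iff.2 ⟨by positivity, by
    rw [mul_pow, ← sq_abs η]; nlinarith [mul_nonneg (Nat.cast_nonneg (α := ℝ) N) (abs_nonneg η)]⟩

theorem le_Om (N : ℕ) (η : ℝ) : 1 + N * |η| ≤ 2 * Om N η := by
  have h1 := one_le_Om N η
  have h2 : N * |η| ≤ Om N η := Real.le_sqrt_of_sq_le (by rw [mul_pow, sq_abs, mul_pow]; linarith)
  linarith

theorem cz_pos (j : Fin 4) : 1 ≤ cz j ∧ cz j ≤ 7 := by fin_cases j <;> simp [cz]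

theorem Q2_eq (a : V) : Q2 a = ∑ j, cz j * a j ^ 2 := by simp [Q2, cz, Fin.sum_univ_four]

theorem nsq_le_Q2 (a : V) : nsq a ≤ Q2 a ∧ Q2 a ≤ 7 * nsq a := by
  rw [nsq_eq']; unfold Q2
  constructor <;> nlinarith [sq_nonneg (a 0), sq_nonneg (a 1), sq_nonneg (a 2), sq_nonneg (a 3)]

theorem sum_gauss {r : ℝ} (hr : 0 < r) (x : ℝ) :
    Summable (fun n : ℤ => Real.exp (-(π * (x - n) ^ 2 / r ^ 2))) := by
  have h := (summable_jacobiTheta₂_term_iff (-(Complex.I * x / r ^ 2)) (Complex.I / r ^ 2)).2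
    (by rw [← Complex.ofReal_pow, Complex.div_ofReal_im]; simp; positivity)
  rw [← summable_norm_iff] at h
  refine (h.mul_left (Real.exp (-(π * x ^ 2 / r ^ 2)))).congr fun n => ?_
  have e1 : jacobiTheta₂_term n (-(Complex.I * x / r ^ 2)) (Complex.I / r ^ 2) =
      Complex.exp ((π * (2 * n * x - n ^ 2) / r ^ 2 : ℝ) : ℂ) := by
    unfold jacobiTheta₂_term
    congr 1; push_cast
    linear_combination (π * (n ^ 2 - 2 * n * x) / r ^ 2 : ℂ) * Complex.I_sq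
  rw [e1, Complex.norm_exp_ofReal, ← Real.exp_add]
  congr 1; ring

theorem vth_nonneg (r x : ℝ) : 0 ≤ vth r x := tsum_nonneg fun _ => (Real.exp_pos _).le

/-- Gaussians on the lattice -/
theorem gauss4 {r : ℝ} (hr : 0 < r) (y : Fin 4 → ℝ) :
    HasSum (fun k : V => Real.exp (-(π * (∑ j, ((k j : ℝ) - y j) ^ 2) / r ^ 2)))
      (∏ j, vth r (y j)) := by
  obtain ⟨h1, h2⟩ := pi_prod_summable
    (fun j (n : ℤ) => ((Real.exp (-(π * (y j - n) ^ 2 / r ^ 2)) : ℝ) : ℂ))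
    (fun j => (sum_gauss hr (y j)).congr fun n => by
      rw [Complex.norm_real, Real.norm_of_nonneg (Real.exp_pos _).le])
  have e1 : ∀ k : V, ∏ j, ((Real.exp (-(π * (y j - k j) ^ 2 / r ^ 2)) : ℝ) : ℂ) =
      ((Real.exp (-(π * (∑ j, ((k j : ℝ) - y j) ^ 2) / r ^ 2)) : ℝ) : ℂ) := fun k => by
    rw [← Complex.ofReal_prod, ← Real.exp_sum]
    congr 2
    simp only [Fin.sum_univ_four]; ring
  simp only [e1] at h1 h2
  have h3 := h1.of_norm.hasSum
  rw [h2] at h3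
  rw [← Complex.hasSum_ofReal, Complex.ofReal_prod]
  simpa only [vth, Complex.ofReal_tsum] using h3

theorem fin_gauss4 {r : ℝ} (hr : 0 < r) (y : Fin 4 → ℝ) (K : Finset V) :
    ∑ k ∈ K, Real.exp (-(π * (∑ j, ((k j : ℝ) - y j) ^ 2) / r ^ 2)) ≤ ∏ j, vth r (y j) :=
  sum_le_hasSum K (fun _ _ => (Real.exp_pos _).le) (gauss4 hr y)

theorem sum_Q2 {N : ℕ} (hN : 1 ≤ N) :
    Summable (fun a : V => Real.exp (-(2 * π * (Q2 a : ℤ) / N))) := by
  have h0 : (0 : ℝ) < N := by exact_mod_cast hN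
  refine (gauss4 (Real.sqrt_pos.2 h0) 0).summable.of_nonneg_of_le
    (fun _ => (Real.exp_pos _).le) fun a => ?_
  rw [Real.sq_sqrt h0.le]
  have h1 : ((nsq a : ℤ) : ℝ) ≤ (Q2 a : ℤ) := by exact_mod_cast (nsq_le_Q2 a).1
  have h2 : (0 : ℝ) ≤ (nsq a : ℤ) := by exact_mod_cast nsq_nonneg a
  have h3 : ∑ j, ((a j : ℝ) - (0 : Fin 4 → ℝ) j) ^ 2 = (nsq a : ℤ) := by simp [nsq]
  have := Real.pi_pos
  rw [h3, Real.exp_le_exp, neg_le_neg_iff]
  gcongr ?_ / _
  nlinarith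

theorem card_iv (H : ℕ) : (iv H).card = 2 * H + 1 := by
  unfold iv; rw [Int.card_Icc]; omega

theorem card_bx (H : ℕ) : (bx H).card = (2 * H + 1) ^ 4 := by
  simp [bx, Fintype.card_piFinset, card_iv]

theorem mem_bx {H : ℕ} {b : V} : b ∈ bx H ↔ ∀ j, |b j| ≤ H := by
  simp [bx, iv, Fintype.mem_piFinset, abs_le]

theorem card_res (q : ℕ) : (res q).card = q ^ 4 := by simp [res, Fintype.card_piFinset]

theorem norm_GB (q : ℕ) (b : V) (r n : ℤ) (k : V) : ‖GB q b r n k‖ ≤ (q : ℝ) ^ 5 := by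
  unfold GB
  refine (norm_sum_le _ _).trans ((sum_le_card_nsmul _ _ ((q : ℝ) ^ 4) fun _ _ => ?_).trans ?_)
  · refine (norm_sum_le _ _).trans ?_
    simp [norm_ex, card_res]
  · simp [pow_succ']

end Pool.Agent.P.MP_0ad054_nt.PS.Base
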