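import Pool.Agent.P.MP_0ad054_nt.PS.St

/-! Cauchy-Schwarz over cells. -/

namespace Pool.Agent.P.MP_0ad054_nt.PS

open Finset Pool.Agent.Lib.H9 Pool.Agent.P.MP_0ad054_nt.Sun Pool.Agent.P.MP_0ad054_nt.Sun.SphereP
  Pool.Agent.P.MP_0ad054_nt.Clu
open scoped Real ComplexConjugate

namespace CELLP

theorem mem_bx {R : ℕ} {v : V} : v ∈ bx R ↔ ∀ j, |v j| ≤ R := by
  simp [bx, iv, abs_le]

theorem mem_of_nsq {R : ℕ} {v : V} (h : nsq v ≤ (R : ℤ) ^ 2) : v ∈ bx R :=
  mem_bx.2 fun j => abs_le_of_sq_le_sq' ((single_le_sum (f := fun j => v j ^ 2)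
    (fun i _ => sq_nonneg _) (mem_univ j)).trans h) (by positivity) |> abs_le.2

theorem nsq_le (v : V) : 0 ≤ nsq v ∧ nsq v ≤ Q2 v := by
  rw [nsq_eq', Q2]
  exact ⟨by positivity, by nlinarith [sq_nonneg (v 1), sq_nonneg (v 2), sq_nonneg (v 3)]⟩

/-- the cell of a point -/
def key (m : ℕ) (v : V) : ℤ × V := (nsq v, fun j => v j % m)

/-- the cells -/
noncomputable def cel (N m : ℕ) : Finset (ℤ × V) :=
  (Icc (0 : ℤ) N ×ˢ res m).filter fun κ => (m : ℤ) ∣ κ.1 - nsq κ.2

theorem key_mem {N m : ℕ} (hm : m ≠ 0) (v : V) : key m v ∈ cel N m ↔ nsq v ∈ Icc (0 : ℤ) N := by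
  rw [cel, mem_filter, mem_product]
  refine ⟨fun h => h.1.1, fun h => ⟨⟨h, emod_mem_res hm v⟩, ?_⟩⟩
  simp only [key, nsq, ← sum_sub_distrib]
  exact dvd_sum fun j _ => (Int.dvd_self_sub_emod).trans (sub_dvd_pow_sub_pow _ _ 2)

theorem card_cel {N m : ℕ} (hm : 0 < m) : (cel N m).card ≤ m ^ 4 * (N / m + 1) := by
  have h0 : (0 : ℤ) < m := by exact_mod_cast hm
  have : (cel N m).card ≤ (res m ×ˢ Icc (0 : ℤ) (N / m : ℕ)).card := by
    refine card_le_card_of_injOn (fun κ => (κ.2, κ.1 / m)) (fun κ h => ?_) fun κ h κ' h' e => ?_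
    · obtain ⟨h1, h2⟩ := mem_product.1 (mem_filter.1 h).1
      rw [mem_Icc] at h1
      refine mem_coe.2 (mem_product.2 ⟨h2, mem_Icc.2 ⟨Int.ediv_nonneg h1.1 h0.le, ?_⟩⟩)
      push_cast
      exact Int.ediv_le_ediv h0 h1.2
    · obtain ⟨e1, e2⟩ := Prod.ext_iff.1 e
      simp only at e1 e2
      have h1 := (mem_filter.1 h).2
      have h2 := (mem_filter.1 h').2
      rw [← e1] at h2
      have h3 : κ.1 % m = κ'.1 % m :=
        Int.emod_eq_emod_iff_emod_sub_eq_zero.2 (Int.emod_eq_zero_of_dvd (by simpa using h1.sub h2))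
      refine Prod.ext ?_ e1
      rw [← Int.mul_ediv_add_emod κ.1 m, ← Int.mul_ediv_add_emod κ'.1 m, e2, h3]
  rwa [card_product, card_res, Int.card_Icc, sub_zero, ← Nat.cast_succ, Int.toNat_natCast] at this

theorem sq_sum {ι κ : Type} [DecidableEq κ] (A : Finset ι) (K : Finset κ) (g : ι → κ) (F : ι → ℂ) :
    ∑ c ∈ K, ‖∑ v ∈ A with g v = c, F v‖ ^ 2 ≤
      (∑ p ∈ A ×ˢ A with g p.2 = g p.1, F p.1 * conj (F p.2)).re := by
  refine (sum_le_sum_of_subset_of_nonneg (subset_union_left (s₂ := A.image g))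
    fun _ _ _ => by positivity).trans (le_of_eq ?_)
  rw [← Complex.ofReal_re (∑ c ∈ K ∪ A.image g, _), sum_filter, sum_product,
    ← sum_fiberwise_of_maps_to (s := A) (t := K ∪ A.image g) (g := g)
      fun v hv => mem_union_right _ (mem_image_of_mem g hv), Complex.ofReal_sum]
  congr 1
  refine sum_congr rfl fun c _ => ?_
  rw [Complex.ofReal_pow, ← Complex.mul_conj', sum_mul]
  refine sum_congr rfl fun v hv => ?_
  rw [← sum_filter, map_sum, mul_sum, ← (mem_filter.1 hv).2]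

end CELLP

open CELLP

theorem pCELL : S_CELL := by
  intro N R H t γ f ht hN hR hH hγ hf
  have hm : 2 * t ≠ 0 := by omega
  have hR' : 7 * (N : ℤ) ≤ (R : ℤ) ^ 2 := by exact_mod_cast hR
  have hH' : (R : ℤ) ≤ t * H := by exact_mod_cast hH
  have ht' : (0 : ℤ) < t := by exact_mod_cast ht
  have e1 : BB N γ f = ∑ κ ∈ cel N (2 * t), γ κ.1 * ∑ v ∈ bx R with key (2 * t) v = κ, f (Q2 v) := by
    have a1 : ∀ κ : ℤ × V, γ κ.1 * ∑ v ∈ bx R with key (2 * t) v = κ, f (Q2 v) =
        ∑ v ∈ bx R with key (2 * t) v = κ, γ (nsq v) * f (Q2 v) := fun κ => by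
      rw [mul_sum]
      exact sum_congr rfl fun v hv => by rw [← (mem_filter.1 hv).2, key]
    simp only [a1, sum_fiberwise_eq_sum_filter, key_mem hm]
    rw [← sum_fiberwise_eq_sum_filter, BB]
    refine sum_congr rfl fun n hn => ?_
    rw [mem_Icc] at hn
    rw [mul_sum]
    refine sum_congr (ext fun v => ?_) fun v hv => by rw [(mem_filter.1 hv).2]
    rw [mem_sphere, mem_filter]
    exact ⟨fun h => ⟨mem_of_nsq (by omega), h⟩, fun h => h.2⟩
  have e2 : ∑ b ∈ bx H, Pb R f t b = ∑ p ∈ bx R ×ˢ bx R with key (2 * t) p.2 = key (2 * t) p.1,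
      f (Q2 p.1) * conj (f (Q2 p.2)) := by
    simp only [Pb, sum_filter (fun a => dot a _ = 0)]
    rw [← sum_product', ← sum_filter]
    refine sum_bij_ne_zero (fun p _ _ => (p.2 + (t : ℤ) • p.1, p.2 - (t : ℤ) • p.1))
      (fun p h1 h2 => ?_) (fun p _ _ p' _ _ e => ?_) (fun p h1 h0 => ?_) fun _ _ _ => rfl
    · have b1 := hf _ (left_ne_zero_of_mul h2)
      have b2 := hf _ ((map_ne_zero _).1 (right_ne_zero_of_mul h2))
      have b3 := (mem_filter.1 h1).2
      refine mem_filter.2 ⟨mem_product.2 ⟨mem_of_nsq (((nsq_le _).2.trans b1).trans hR'),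
        mem_of_nsq (((nsq_le _).2.trans b2).trans hR')⟩, Prod.ext ?_ (funext fun j => ?_)⟩
      · simp only [key, nsq, dot, Fin.sum_univ_four, Pi.add_apply, Pi.sub_apply, Pi.smul_apply,
          smul_eq_mul] at b3 ⊢
        linear_combination -4 * (t : ℤ) * b3
      · simp only [key, Pi.add_apply, Pi.sub_apply, Pi.smul_apply, smul_eq_mul]
        rw [Int.emod_eq_emod_iff_emod_sub_eq_zero]
        exact Int.emod_eq_zero_of_dvd ⟨-p.1 j, by push_cast; ring⟩
    · obtain ⟨e1, e2⟩ := Prod.ext_iff.1 e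
      refine Prod.ext (funext fun j => ?_) (funext fun j => ?_) <;>
      · have c1 := congrFun e1 j
        have c2 := congrFun e2 j
        simp only [Pi.add_apply, Pi.sub_apply, Pi.smul_apply, smul_eq_mul] at c1 c2
        nlinarith
    · obtain ⟨h2, h3⟩ := mem_filter.1 h1
      obtain ⟨h4, h5⟩ := mem_product.1 h2
      obtain ⟨h6, h7⟩ := Prod.ext_iff.1 h3
      have h8 : ∀ j, ∃ c : ℤ, p.1 j - p.2 j = 2 * t * c := fun j => by
        have := congrFun h7 j
        simp only [key] at this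
        exact_mod_cast Int.dvd_of_emod_eq_zero (Int.emod_eq_emod_iff_emod_sub_eq_zero.1 this.symm)
      choose b hb using h8
      have e3 : p.2 + (t : ℤ) • b + (t : ℤ) • b = p.1 := funext fun j => by
        simp only [Pi.add_apply, Pi.smul_apply, smul_eq_mul]; linarith [hb j]
      rw [mem_bx] at h4 h5
      refine ⟨(b, p.2 + (t : ℤ) • b), mem_filter.2 ⟨mem_product.2 ⟨mem_bx.2 fun j => ?_,
        mem_bx.2 fun j => ?_⟩, ?_⟩, by simpa only [e3, add_sub_cancel_right] using h0,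
        by simp only [e3, add_sub_cancel_right]⟩
      · have c1 := abs_le.1 (h4 j)
        have c2 := abs_le.1 (h5 j)
        have c3 := hb j
        rw [abs_le]
        constructor <;> nlinarith
      · have c1 := abs_le.1 (h4 j)
        have c2 := abs_le.1 (h5 j)
        have c3 := hb j
        simp only [Pi.add_apply, Pi.smul_apply, smul_eq_mul]
        rw [abs_le]
        constructor <;> linarith
      · simp only [key, ← e3, nsq, dot, Fin.sum_univ_four, Pi.add_apply, Pi.smul_apply,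
          smul_eq_mul] at h6 ⊢
        refine mul_left_cancel₀ (a := 4 * (t : ℤ)) (by positivity) ?_
        linear_combination -h6
  have e3 : ((cel N (2 * t)).card : ℝ) ≤ 16 * N * (t : ℝ) ^ 3 := by
    have a1 : ((cel N (2 * t)).card : ℝ) ≤ (2 * t) ^ 4 * ((N / (2 * t) : ℕ) + 1) := by
      exact_mod_cast card_cel (N := N) (Nat.pos_of_ne_zero hm)
    have a2 : (2 * t : ℝ) * (N / (2 * t) : ℕ) ≤ N := by exact_mod_cast Nat.mul_div_le N (2 * t)
    have a3 : (2 * t : ℝ) ≤ N := by exact_mod_cast hN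
    have a4 : (0 : ℝ) ≤ (t : ℝ) ^ 3 := by positivity
    nlinarith [mul_le_mul_of_nonneg_left a2 a4, mul_le_mul_of_nonneg_left a3 a4]
  rw [e1, e2]
  refine (cs_norm _ _ _).trans (mul_le_mul (le_trans ?_ e3) (sq_sum _ _ _ fun v => f (Q2 v))
    (by positivity) (by positivity))
  simpa using sum_le_card_nsmul _ _ (1 : ℝ) fun κ _ => pow_le_one₀ (norm_nonneg _) (hγ κ.1)

end Pool.Agent.P.MP_0ad054_nt.PS
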