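import Pool.Agent.P.MP_0ad054_nt.PS.St

/-! Major and minor arcs. -/

namespace Pool.Agent.P.MP_0ad054_nt.PS

open Finset Pool.Agent.Lib.H9 Pool.Agent.P.MP_0ad054_nt.Sun Pool.Agent.P.MP_0ad054_nt.Sun.SphereP
  Pool.Agent.P.MP_0ad054_nt.Clu
open scoped Real ComplexConjugate

namespace COVP

open MeasureTheory

lemma intOn (U : Set ℝ) (hU : U ⊆ Set.Ioc 0 1) (f : ℝ → ℝ) (hf : Continuous f) :
    IntegrableOn f U volume :=
  (hf.continuousOn.integrableOn_compact (isCompact_Icc (a := (0 : ℝ)) (b := 1))).mono_set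
    (hU.trans Set.Ioc_subset_Icc_self)

/-- Cauchy-Schwarz on a subset of the unit interval -/
lemma cs (U : Set ℝ) (hU : U ⊆ Set.Ioc 0 1) (f g : ℝ → ℝ) (hf : Continuous f)
    (hg : Continuous g) :
    (∫ x in U, f x * g x) ≤ Real.sqrt (∫ x in U, f x ^ 2) * Real.sqrt (∫ x in U, g x ^ 2) := by
  have i1 := intOn U hU (fun x => f x ^ 2) (hf.pow 2)
  have i2 := intOn U hU (fun x => f x * g x) (hf.mul hg)
  have i3 := intOn U hU (fun x => g x ^ 2) (hg.pow 2)
  have key : ∀ t : ℝ, 0 ≤ (∫ x in U, f x ^ 2) * (t * t) + (-2 * ∫ x in U, f x * g x) * t +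
      ∫ x in U, g x ^ 2 := by
    intro t
    have h0 : 0 ≤ ∫ x in U, (t * f x - g x) ^ 2 := integral_nonneg fun x => sq_nonneg _
    have e1 : (∫ x in U, (t * f x - g x) ^ 2) =
        ∫ x in U, ((t * t) * f x ^ 2 + (-2 * t) * (f x * g x) + g x ^ 2) := by
      congr 1; funext x; ring
    have i4 : IntegrableOn (fun x => (t * t) * f x ^ 2 + (-2 * t) * (f x * g x)) U volume :=
      intOn U hU _ (by fun_prop)
    rw [e1, integral_add i4 i3,
      integral_add (i1.const_mul _) (i2.const_mul _), integral_const_mul, integral_const_mul] at h0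
    linarith
  have hd := discrim_le_zero key
  have ha : 0 ≤ ∫ x in U, f x ^ 2 := integral_nonneg fun x => sq_nonneg _
  rw [← Real.sqrt_mul ha]
  apply Real.le_sqrt_of_sq_le
  unfold discrim at hd
  nlinarith

lemma one_le_Om (N : ℕ) (η : ℝ) : 1 ≤ Om N η := by
  unfold Om
  apply Real.le_sqrt_of_sq_le
  nlinarith [sq_nonneg ((N : ℝ) * η)]

lemma abs_le_Om (N : ℕ) (η : ℝ) : (N : ℝ) * |η| ≤ Om N η := by
  unfold Om
  apply Real.le_sqrt_of_sq_le
  rw [mul_pow, sq_abs, mul_pow]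
  linarith

lemma cont_Om (N : ℕ) : Continuous (Om N) := by
  unfold Om
  fun_prop

/-- the major arcs -/
def UM (N : ℕ) (Q1 : ℝ) : Set ℝ :=
  Set.Ioc 0 1 ∩ ⋃ a : ℤ, ⋃ q : ℕ, {x : ℝ | 1 ≤ q ∧ q * Om N (x - a / q) < Q1}

lemma UM_meas (N : ℕ) (Q1 : ℝ) : MeasurableSet (UM N Q1) := by
  refine measurableSet_Ioc.inter (MeasurableSet.iUnion fun a => MeasurableSet.iUnion fun q => ?_)
  by_cases hq : 1 ≤ q
  · have : {x : ℝ | 1 ≤ q ∧ q * Om N (x - a / q) < Q1} =
        {x : ℝ | q * Om N (x - a / q) < Q1} := by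
      ext x; simp [hq]
    rw [this]
    have hc : Continuous (fun x : ℝ => (q : ℝ) * Om N (x - a / q)) :=
      continuous_const.mul ((cont_Om N).comp (continuous_id.sub continuous_const))
    exact (isOpen_lt hc continuous_const).measurableSet
  · have : {x : ℝ | 1 ≤ q ∧ q * Om N (x - a / q) < Q1} = ∅ := by
      ext x; simp [hq]
    rw [this]; exact MeasurableSet.empty

lemma UM_vol (N : ℕ) (Q1 : ℝ) (hN : 1 ≤ N) (hQ : 1 ≤ Q1) :
    volume.real (UM N Q1) ≤ 4 * (Q1 ^ 3 / N) := by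
  have hN0 : (0 : ℝ) < N := by exact_mod_cast hN
  by_cases h : (N : ℝ) ≤ Q1
  · have h1 : volume.real (UM N Q1) ≤ volume.real (Set.Ioc (0 : ℝ) 1) :=
      measureReal_mono Set.inter_subset_left (by simp)
    rw [Real.volume_real_Ioc] at h1
    have h2 : 1 ≤ Q1 ^ 3 / N := by
      rw [le_div_iff₀ hN0]
      have : Q1 ≤ Q1 ^ 3 := le_self_pow₀ hQ (by norm_num)
      linarith
    norm_num at h1
    linarith
  · push Not at h
    obtain ⟨K, hK⟩ : ∃ K : ℕ, K = ⌊Q1⌋₊ := ⟨_, rfl⟩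
    have hK1 : (K : ℝ) ≤ Q1 := by rw [hK]; exact Nat.floor_le (by linarith)
    have hsub : UM N Q1 ⊆ ⋃ p ∈ (Icc 1 K ×ˢ range (K + 1) : Finset (ℕ × ℕ)),
        Set.Ioo ((p.2 : ℝ) / p.1 - Q1 / N) ((p.2 : ℝ) / p.1 + Q1 / N) := by
      rintro x ⟨hx, hx2⟩
      simp only [Set.mem_iUnion, Set.mem_ofPred_eq] at hx2
      obtain ⟨a, q, hq, hlt⟩ := hx2
      have hq1 : (1 : ℝ) ≤ q := by exact_mod_cast hq
      have hq0 : (0 : ℝ) < q := by linarith
      have o1 := one_le_Om N (x - a / q)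
      have o2 := abs_le_Om N (x - a / q)
      have hqQ : (q : ℝ) ≤ Q1 := by nlinarith
      have hqK : q ≤ K := by rw [hK]; exact Nat.le_floor hqQ
      have h3 : (q : ℝ) * ((N : ℝ) * |x - a / q|) < Q1 :=
        lt_of_le_of_lt (mul_le_mul_of_nonneg_left o2 hq0.le) hlt
      have h4 : (q : ℝ) * |x - a / q| < 1 := by
        have : (N : ℝ) * ((q : ℝ) * |x - a / q|) < N * 1 := by linarith
        exact lt_of_mul_lt_mul_left this hN0.le
      have h5 : |(q : ℝ) * x - a| < 1 := by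
        have : (q : ℝ) * x - a = q * (x - a / q) := by field_simp
        rw [this, abs_mul, abs_of_pos hq0]; exact h4
      have h6 := abs_lt.1 h5
      have ha0 : 0 ≤ a := by
        have : (-1 : ℝ) < a := by nlinarith [hx.1]
        have : (-1 : ℤ) < a := by exact_mod_cast this
        omega
      have ha1 : a ≤ q := by
        have : (a : ℝ) < q + 1 := by nlinarith [hx.2]
        have : a < (q : ℤ) + 1 := by exact_mod_cast this
        omega
      have h7 : |x - a / q| < Q1 / N := by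
        rw [lt_div_iff₀ hN0]
        have : 0 ≤ (N : ℝ) * |x - a / q| := by positivity
        nlinarith
      obtain ⟨n, rfl⟩ := Int.eq_ofNat_of_zero_le ha0
      simp only [Set.mem_iUnion]
      refine ⟨(q, n), ?_, ?_⟩
      · simp only [mem_product, mem_Icc, mem_range]
        omega
      · have h8 := abs_lt.1 h7
        simp only [Int.cast_natCast] at h8
        constructor <;> linarith [h8.1, h8.2]
    have h1 := measureReal_mono (μ := volume) hsub
      (measure_biUnion_ne_top (Finset.finite_toSet _) (fun p _ => by simp))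
    have h2 := measureReal_biUnion_finset_le (μ := volume) (Icc 1 K ×ˢ range (K + 1) : Finset (ℕ × ℕ))
      (fun p => Set.Ioo ((p.2 : ℝ) / p.1 - Q1 / N) ((p.2 : ℝ) / p.1 + Q1 / N))
    have hd : 0 ≤ Q1 / N := by positivity
    have h3 : ∑ p ∈ (Icc 1 K ×ˢ range (K + 1) : Finset (ℕ × ℕ)),
        volume.real (Set.Ioo ((p.2 : ℝ) / p.1 - Q1 / N) ((p.2 : ℝ) / p.1 + Q1 / N)) =
        K * (K + 1) * (2 * (Q1 / N)) := by
      rw [sum_congr rfl (g := fun _ => 2 * (Q1 / N))]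
      · simp
      · intro p _
        rw [Real.volume_real_Ioo, max_eq_left (by linarith)]
        ring
    have h4 : (K : ℝ) * (K + 1) ≤ Q1 * (2 * Q1) :=
      mul_le_mul hK1 (by linarith) (by positivity) (by linarith)
    calc volume.real (UM N Q1) ≤ K * (K + 1) * (2 * (Q1 / N)) := by linarith
      _ ≤ Q1 * (2 * Q1) * (2 * (Q1 / N)) := mul_le_mul_of_nonneg_right h4 (by positivity)
      _ = 4 * (Q1 ^ 3 / N) := by ring

end COVP

open MeasureTheory in
theorem pCOV (hCOV1 : S_COV1) : S_COV := by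
  obtain ⟨C, hC, H⟩ := hCOV1
  refine ⟨2 * Real.sqrt (2 * C), by positivity, ?_⟩
  intro N Q0 Q1 A s F0 F2 X F hN hQ1 hQ0 hQN hA hs hs1 hX hF hX0 hXp hF0 hF2 harc
  have hN1 : (1 : ℝ) ≤ N := by exact_mod_cast hN
  have hN0 : (0 : ℝ) < N := by linarith
  have hL : 0 ≤ LL N := by
    unfold LL
    have := Real.log_nonneg hN1
    linarith
  have hF00 : 0 ≤ F0 := (hF0 0).1.trans (hF0 0).2
  have hsq : Continuous (fun x => Real.sqrt (X x)) := hX.sqrt
  have hU := COVP.UM_meas N Q1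
  have hUs : COVP.UM N Q1 ⊆ Set.Ioc 0 1 := Set.inter_subset_left
  have hV : MeasurableSet (Set.Ioc 0 1 \ COVP.UM N Q1) := measurableSet_Ioc.diff hU
  have hVs : Set.Ioc 0 1 \ COVP.UM N Q1 ⊆ Set.Ioc (0 : ℝ) 1 := Set.sdiff_subset
  have hsplit : (∫ x in (0 : ℝ)..1, F x * Real.sqrt (X x)) =
      (∫ x in COVP.UM N Q1, F x * Real.sqrt (X x)) +
        ∫ x in Set.Ioc 0 1 \ COVP.UM N Q1, F x * Real.sqrt (X x) := by
    rw [intervalIntegral.integral_of_le zero_le_one,
      ← integral_inter_add_sdiff hU (COVP.intOn _ subset_rfl (fun x => F x * Real.sqrt (X x))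
        (hF.mul hsq)),
      Set.inter_eq_right.2 hUs]
  have hXX : ∀ U : Set ℝ, (∫ x in U, Real.sqrt (X x) ^ 2) = ∫ x in U, X x := by
    intro U
    congr 1; funext x; exact Real.sq_sqrt (hX0 x)
  have c1 := COVP.cs _ hUs F _ hF hsq
  have c2 := COVP.cs _ hVs F _ hF hsq
  rw [hXX] at c1 c2
  have a1 := H N Q0 1 A s X _ hN le_rfl hQ0 hQN hA hs hX hX0 hXp hU hUs (by
    intro x _ a q hq
    have hq1 : (1 : ℝ) ≤ q := by exact_mod_cast hq
    have := COVP.one_le_Om N (x - a / q)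
    nlinarith) harc
  have a2 := H N Q0 Q1 A s X _ hN hQ1 hQ0 hQN hA hs hX hX0 hXp hV hVs (by
    intro x hx a q hq
    by_contra hlt
    push Not at hlt
    apply hx.2
    refine ⟨hx.1, ?_⟩
    simp only [Set.mem_iUnion, Set.mem_ofPred_eq]
    exact ⟨a, q, hq, hlt⟩) harc
  have hAN : 0 ≤ A / N := by positivity
  have hQN3 : 0 ≤ Q1 ^ 3 / N := by positivity
  have hs2 : 0 ≤ s + 1 / Q1 := by positivity
  have b1 : (∫ x in COVP.UM N Q1, F x ^ 2) ≤ (2 * F0) ^ 2 * (Q1 ^ 3 / N) := by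
    have h1 : (∫ x in COVP.UM N Q1, F x ^ 2) ≤ ∫ x in COVP.UM N Q1, F0 ^ 2 :=
      setIntegral_mono_on (COVP.intOn _ hUs _ (hF.pow 2)) (COVP.intOn _ hUs _ continuous_const) hU
        (fun x _ => pow_le_pow_left₀ (hF0 x).1 (hF0 x).2 2)
    rw [setIntegral_const, smul_eq_mul] at h1
    have h2 := COVP.UM_vol N Q1 hN hQ1
    nlinarith [sq_nonneg F0, mul_le_mul_of_nonneg_right h2 (sq_nonneg F0)]
  have b2 : (∫ x in Set.Ioc 0 1 \ COVP.UM N Q1, F x ^ 2) ≤ F2 := by
    refine le_trans ?_ hF2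
    rw [intervalIntegral.integral_of_le zero_le_one]
    exact setIntegral_mono_set (COVP.intOn _ subset_rfl _ (hF.pow 2))
      (Filter.Eventually.of_forall fun x => sq_nonneg _) hVs.eventuallyLE
  have hF20 : 0 ≤ F2 := le_trans (integral_nonneg fun x => sq_nonneg _) b2
  have d1 : Real.sqrt (∫ x in COVP.UM N Q1, F x ^ 2) ≤ 2 * F0 * Real.sqrt (Q1 ^ 3 / N) := by
    refine (Real.sqrt_le_sqrt b1).trans_eq ?_
    rw [Real.sqrt_mul (sq_nonneg _), Real.sqrt_sq (by positivity)]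
  have d2 : Real.sqrt (∫ x in COVP.UM N Q1, X x) ≤
      Real.sqrt (2 * C) * LL N * Real.sqrt (A / N) := by
    have h1 : (∫ x in COVP.UM N Q1, X x) ≤ 2 * C * LL N ^ 2 * (A / N) := by
      refine a1.trans ?_
      have : 0 ≤ C * LL N ^ 2 * (A / N) := by positivity
      nlinarith
    refine (Real.sqrt_le_sqrt h1).trans_eq ?_
    rw [Real.sqrt_mul (by positivity), Real.sqrt_mul (by positivity), Real.sqrt_sq hL]
  have d3 : Real.sqrt (∫ x in Set.Ioc 0 1 \ COVP.UM N Q1, X x) ≤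
      Real.sqrt (2 * C) * LL N * Real.sqrt (A / N) * Real.sqrt (s + 1 / Q1) := by
    have h1 : (∫ x in Set.Ioc 0 1 \ COVP.UM N Q1, X x) ≤
        2 * C * LL N ^ 2 * (A / N) * (s + 1 / Q1) := by
      refine a2.trans ?_
      have : 0 ≤ C * LL N ^ 2 * (A / N) * (s + 1 / Q1) := by positivity
      nlinarith
    refine (Real.sqrt_le_sqrt h1).trans_eq ?_
    rw [Real.sqrt_mul (by positivity), Real.sqrt_mul (by positivity),
      Real.sqrt_mul (by positivity), Real.sqrt_sq hL]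
  have d4 := Real.sqrt_le_sqrt b2
  obtain ⟨W, hW⟩ : ∃ W, W = Real.sqrt (2 * C) * LL N * Real.sqrt (A / N) := ⟨_, rfl⟩
  have hW0 : 0 ≤ W := by rw [hW]; positivity
  rw [← hW] at d2 d3
  have e1 := mul_le_mul d1 d2 (Real.sqrt_nonneg _) (by positivity)
  have e2 := mul_le_mul d4 d3 (Real.sqrt_nonneg _) (Real.sqrt_nonneg _)
  have e3 : 2 * Real.sqrt (2 * C) * LL N * Real.sqrt (A / N) = 2 * W := by rw [hW]; ring
  rw [hsplit, e3, Real.sqrt_mul hF20]
  have e4 : 0 ≤ Real.sqrt F2 * (W * Real.sqrt (s + 1 / Q1)) := by positivity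
  nlinarith

end Pool.Agent.P.MP_0ad054_nt.PS
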