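import Pool.Agent.P.MP_0ad054_nt.PS.St

/-! Covering a set by arcs. -/

namespace Pool.Agent.P.MP_0ad054_nt.PS

open Finset Pool.Agent.Lib.H9 Pool.Agent.P.MP_0ad054_nt.Sun Pool.Agent.P.MP_0ad054_nt.Sun.SphereP
  Pool.Agent.P.MP_0ad054_nt.Clu MeasureTheory
open scoped Real ComplexConjugate

namespace COV1P

lemma one_le_Om (N : ℕ) (η : ℝ) : 1 ≤ Om N η :=
  Real.one_le_sqrt.2 (le_add_of_nonneg_right (sq_nonneg _))

lemma cont_Om (N : ℕ) : Continuous (Om N) := by unfold Om; fun_prop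

lemma int_Om {N : ℕ} (hN : 1 ≤ N) : (∫ η in (-1 : ℝ)..1, (Om N η)⁻¹) ≤ 6 * LL N / N := by
  have h1 : (1 : ℝ) ≤ N := by exact_mod_cast hN
  have h0 : (0 : ℝ) < N := by linarith
  have hd : ∀ η ∈ Set.uIcc (-1 : ℝ) 1,
      HasDerivAt (fun η : ℝ => Real.arsinh (N * η) / N) (Om N η)⁻¹ η := fun η _ => by
    have := ((Real.hasDerivAt_arsinh (N * η)).comp η
      ((hasDerivAt_id η).const_mul (N : ℝ))).div_const (N : ℝ)
    refine this.congr_deriv ?_
    rw [Om]
    field_simp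
  have hc : Continuous fun η => (Om N η)⁻¹ :=
    (cont_Om N).inv₀ fun η => (one_pos.trans_le (one_le_Om N η)).ne'
  rw [intervalIntegral.integral_eq_sub_of_hasDerivAt hd (hc.intervalIntegrable _ _), mul_one,
    mul_neg_one, Real.arsinh_neg, ← sub_div, sub_neg_eq_add]
  gcongr
  have h2 : √(1 + (N : ℝ) ^ 2) ≤ 2 * N := Real.sqrt_le_iff.2 ⟨by positivity, by nlinarith⟩
  have h3 : Real.arsinh N ≤ Real.log (3 * N) := by
    rw [Real.arsinh]
    exact Real.log_le_log (by positivity) (by linarith)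
  rw [Real.log_mul (by norm_num) h0.ne'] at h3
  have h4 : Real.log 3 ≤ 3 - 1 := Real.log_le_sub_one_of_pos (by norm_num)
  have h5 : 0 ≤ Real.log N := Real.log_nonneg h1
  unfold LL
  linarith

lemma log_le {N : ℕ} (hN : 1 ≤ N) : ((Nat.log 2 N + 1 : ℕ) : ℝ) ≤ 2 * LL N := by
  have h1 : ((2 ^ Nat.log 2 N : ℕ) : ℝ) ≤ N := by
    exact_mod_cast Nat.pow_log_le_self 2 (by omega)
  have h2 := Real.log_le_log (by positivity) h1
  rw [Nat.cast_pow, Real.log_pow] at h2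
  have h3 := Real.log_two_gt_d9
  have h4 : (0 : ℝ) ≤ Nat.log 2 N := Nat.cast_nonneg _
  push_cast at h2 ⊢
  unfold LL
  nlinarith

/-- the admissible offsets of a block -/
def Ei (N : ℕ) (Q0 Y : ℝ) (q0 : ℕ) : Set ℝ := {η | |η| * (q0 * Q0) ≤ 1 ∧ Y ≤ 2 * q0 * Om N η}

lemma closed_Ei (N : ℕ) (Q0 Y : ℝ) (q0 : ℕ) : IsClosed (Ei N Q0 Y q0) :=
  (isClosed_le (f := fun η : ℝ => |η| * (q0 * Q0)) (g := fun _ => 1) (by fun_prop)
    continuous_const).inter (isClosed_le (f := fun _ => Y) (g := fun η => 2 * q0 * Om N η)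
      continuous_const (continuous_const.mul (cont_Om N)))

lemma Ei_sub (N : ℕ) {Q0 : ℝ} (Y : ℝ) {q0 : ℕ} (hQ : 1 ≤ Q0) (hq : 1 ≤ q0) :
    Ei N Q0 Y q0 ⊆ Set.Icc (-1) 1 := fun η h => by
  have h1 : (1 : ℝ) ≤ q0 := by exact_mod_cast hq
  have h2 : 1 ≤ q0 * Q0 := one_le_mul_of_one_le_of_one_le h1 hQ
  exact abs_le.1 ((le_mul_of_one_le_right (abs_nonneg η) h2).trans h.1)

lemma per_int {X : ℝ → ℝ} (h : ∀ x, X (x + 1) = X x) (x : ℝ) (j : ℤ) : X (x + j) = X x := by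
  simpa using (show Function.Periodic X 1 from h).int_mul j x

/-- every point lies on an arc -/
lemma cover {N : ℕ} {Q0 Y x : ℝ} (hQ : 1 ≤ Q0) (hQN : Q0 ≤ N) (hx : x ∈ Set.Ioc (0 : ℝ) 1)
    (h : ∀ (a : ℤ) (q : ℕ), 1 ≤ q → Y ≤ q * Om N (x - a / q)) :
    ∃ i ∈ (range (Nat.log 2 N + 1)).filter (fun i => ((2 ^ i : ℕ) : ℝ) ≤ Q0),
      ∃ q ∈ Ico (2 ^ i) (2 * 2 ^ i), ∃ r ∈ un q, ∃ j ∈ Icc (-1 : ℤ) 2,
        x - (r / q + j) ∈ Ei N Q0 Y (2 ^ i) := by
  obtain ⟨c, h1, h2⟩ := Real.exists_rat_abs_sub_le_and_den_le x (Nat.floor_pos.2 hQ)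
  have hQ0 : 0 < Q0 := by linarith
  have hq : 1 ≤ c.den := c.pos
  have hq1 : (1 : ℝ) ≤ c.den := by exact_mod_cast hq
  have hq0 : (0 : ℝ) < c.den := by linarith
  have hqz : (0 : ℤ) < c.den := by exact_mod_cast c.pos
  have hqQ : (c.den : ℝ) ≤ Q0 := le_trans (by exact_mod_cast h2) (Nat.floor_le hQ0.le)
  have l1 : 2 ^ Nat.log 2 c.den ≤ c.den := Nat.pow_log_le_self 2 c.den_nz
  have l1' : ((2 ^ Nat.log 2 c.den : ℕ) : ℝ) ≤ c.den := by exact_mod_cast l1
  have l2 : c.den < 2 * 2 ^ Nat.log 2 c.den := by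
    rw [← pow_succ']; exact Nat.lt_pow_succ_log_self one_lt_two _
  have l2' : (c.den : ℝ) ≤ 2 * ((2 ^ Nat.log 2 c.den : ℕ) : ℝ) := by exact_mod_cast l2.le
  have e : ((c.num % c.den : ℤ) : ℝ) / c.den + (c.num / c.den : ℤ) = c := by
    rw [Rat.cast_def]
    have := congrArg (Int.cast : ℤ → ℝ) (Int.emod_add_mul_ediv c.num c.den)
    push_cast at this
    rw [← this]
    field_simp
  have h3 : |x - c| * (c.den * Q0) ≤ 1 := by
    have h4 := (Nat.lt_floor_add_one Q0).le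
    rw [le_div_iff₀ (by positivity)] at h1
    refine le_trans ?_ h1
    rw [mul_comm (c.den : ℝ)]
    gcongr
  have h5 : |x - c| ≤ 1 :=
    (le_mul_of_one_le_right (abs_nonneg _) (one_le_mul_of_one_le_of_one_le hq1 hQ)).trans h3
  have r0 : (0 : ℤ) ≤ c.num % c.den := Int.emod_nonneg _ hqz.ne'
  have r1 : c.num % c.den < c.den := Int.emod_lt_of_pos _ hqz
  have r2 : (0 : ℝ) ≤ ((c.num % c.den : ℤ) : ℝ) / c.den := by
    have : (0 : ℝ) ≤ (c.num % c.den : ℤ) := by exact_mod_cast r0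
    positivity
  have r3 : ((c.num % c.den : ℤ) : ℝ) / c.den ≤ 1 := by
    rw [div_le_one hq0]; exact_mod_cast r1.le
  obtain ⟨h6, h7⟩ := abs_le.1 h5
  refine ⟨Nat.log 2 c.den, mem_filter.2 ⟨mem_range.2 (Nat.lt_succ_of_le (Nat.log_mono_right ?_)),
    l1'.trans hqQ⟩, c.den, mem_Ico.2 ⟨l1, l2⟩, c.num % c.den,
    mem_filter.2 ⟨mem_Ico.2 ⟨r0, r1⟩, ?_⟩, c.num / c.den, mem_Icc.2 ⟨?_, ?_⟩, ?_⟩
  · exact_mod_cast hqQ.trans hQN
  · rw [Int.gcd_emod]
    exact c.reduced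
  · have : ((-2 : ℤ) : ℝ) < (c.num / c.den : ℤ) := by
      push_cast
      linarith [hx.1]
    have := Int.cast_lt.1 this
    omega
  · have : ((c.num / c.den : ℤ) : ℝ) ≤ (2 : ℤ) := by
      push_cast
      linarith [hx.2]
    exact Int.cast_le.1 this
  · rw [e]
    refine ⟨le_trans (by gcongr) h3, ?_⟩
    have h8 := h c.num c.den hq
    rw [← Rat.cast_def] at h8
    have := one_le_Om N (x - c)
    exact h8.trans (by gcongr)

end COV1P

open COV1P

theorem pCOV1 : S_COV1 := by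
  refine ⟨96, by norm_num, fun N Q0 Y A s X U hN hY hQ hQN hA hs hX h0 hp hU hU1 hY' hB => ?_⟩
  have hN0 : (0 : ℝ) < N := by exact_mod_cast hN
  have hY0 : 0 < Y := by linarith
  set I := (range (Nat.log 2 N + 1)).filter (fun i => ((2 ^ i : ℕ) : ℝ) ≤ Q0) with hI
  set g : ℕ → ℕ → ℤ → ℝ → ℝ := fun i q r =>
    (Ei N Q0 Y (2 ^ i)).indicator fun η => X (r / q + η) with hg
  have hm : ∀ i, MeasurableSet (Ei N Q0 Y (2 ^ i)) := fun i => (closed_Ei N Q0 Y _).measurableSet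
  have hsub : ∀ i, Ei N Q0 Y (2 ^ i) ⊆ Set.Icc (-1) 1 := fun i => Ei_sub N Y hQ Nat.one_le_two_pow
  have on : ∀ (i : ℕ) (c : ℝ), IntegrableOn (fun η => X (c + η)) (Ei N Q0 Y (2 ^ i)) := fun i c =>
    ((hX.comp (continuous_const.add continuous_id)).integrableOn_Icc).mono_set (hsub i)
  have gi : ∀ i q r, Integrable (g i q r) := fun i q r => (integrable_indicator_iff (hm i)).2 (on i _)
  have g0 : ∀ i q r η, 0 ≤ g i q r η := fun i q r η => Set.indicator_nonneg (fun _ _ => h0 _) η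
  have pt : ∀ x, U.indicator X x ≤ ∑ i ∈ I, ∑ q ∈ Ico (2 ^ i) (2 * 2 ^ i), ∑ r ∈ un q,
      ∑ j ∈ Icc (-1 : ℤ) 2, g i q r (x - (r / q + j)) := by
    intro x
    by_cases hx : x ∈ U
    · obtain ⟨i, hi, q, hq, r, hr, j, hj, h⟩ := cover hQ hQN (hU1 hx) (hY' x hx)
      rw [Set.indicator_of_mem hx]
      refine le_trans ?_ (single_le_sum (fun _ _ => sum_nonneg fun _ _ => sum_nonneg fun _ _ =>
        sum_nonneg fun _ _ => g0 _ _ _ _) hi)
      refine le_trans ?_ (single_le_sum (fun _ _ => sum_nonneg fun _ _ =>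
        sum_nonneg fun _ _ => g0 _ _ _ _) hq)
      refine le_trans ?_ (single_le_sum (fun _ _ => sum_nonneg fun _ _ => g0 _ _ _ _) hr)
      refine le_trans ?_ (single_le_sum (fun _ _ => g0 _ _ _ _) hj)
      simp only [hg]
      rw [Set.indicator_of_mem h, ← per_int hp (r / q + (x - (r / q + j))) j]
      exact le_of_eq (congrArg X (by ring))
    · rw [Set.indicator_of_notMem hx]
      exact sum_nonneg fun _ _ => sum_nonneg fun _ _ => sum_nonneg fun _ _ =>
        sum_nonneg fun _ _ => g0 _ _ _ _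
  have i4 : ∀ i q r, Integrable fun x => ∑ j ∈ Icc (-1 : ℤ) 2, g i q r (x - (r / q + j)) :=
    fun i q r => integrable_finsetSum _ fun j _ => (gi i q r).comp_sub_right _
  have i3 : ∀ i q, Integrable fun x => ∑ r ∈ un q, ∑ j ∈ Icc (-1 : ℤ) 2,
      g i q r (x - (r / q + j)) := fun i q => integrable_finsetSum _ fun r _ => i4 i q r
  have i2 : ∀ i, Integrable fun x => ∑ q ∈ Ico (2 ^ i) (2 * 2 ^ i), ∑ r ∈ un q,
      ∑ j ∈ Icc (-1 : ℤ) 2, g i q r (x - (r / q + j)) :=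
    fun i => integrable_finsetSum _ fun q _ => i3 i q
  have hc : Continuous fun η => (Om N η)⁻¹ :=
    (cont_Om N).inv₀ fun η => (one_pos.trans_le (one_le_Om N η)).ne'
  have blk : ∀ i ∈ I, (∫ x, ∑ q ∈ Ico (2 ^ i) (2 * 2 ^ i), ∑ r ∈ un q,
      ∑ j ∈ Icc (-1 : ℤ) 2, g i q r (x - (r / q + j))) ≤
      4 * (A * (2 * (s + 1 / Y)) * (6 * LL N / N)) := by
    intro i hi
    have e1 : (∫ x, ∑ q ∈ Ico (2 ^ i) (2 * 2 ^ i), ∑ r ∈ un q,
        ∑ j ∈ Icc (-1 : ℤ) 2, g i q r (x - (r / q + j))) = 4 * ∫ η in Ei N Q0 Y (2 ^ i),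
          ∑ q ∈ Ico (2 ^ i) (2 * 2 ^ i), ∑ r ∈ un q, X (r / q + η) := by
      rw [integral_finsetSum _ fun q _ => i3 i q,
        integral_finsetSum _ fun q _ => integrable_finsetSum _ fun r _ => on i _, mul_sum]
      refine sum_congr rfl fun q _ => ?_
      rw [integral_finsetSum _ fun r _ => i4 i q r, integral_finsetSum _ fun r _ => on i _, mul_sum]
      refine sum_congr rfl fun r _ => ?_
      rw [integral_finsetSum _ fun j _ => (gi i q r).comp_sub_right _]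
      rw [sum_congr rfl fun (j : ℤ) _ => integral_sub_right_eq_self (g i q r) (r / q + j),
        sum_const, hg, integral_indicator (hm i)]
      simp
    rw [e1]
    gcongr
    have hk : 0 ≤ A * (2 * (s + 1 / Y)) := by positivity
    calc _ ≤ ∫ η in Ei N Q0 Y (2 ^ i), A * (2 * (s + 1 / Y)) * (Om N η)⁻¹ := by
          refine setIntegral_mono_on
            (integrable_finsetSum _ fun q _ => integrable_finsetSum _ fun r _ => on i _)
            (((continuous_const.mul hc).integrableOn_Icc).mono_set (hsub i)) (hm i) fun η hη => ?_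
          refine (hB _ η Nat.one_le_two_pow (mem_filter.1 hi).2 hη.1).trans ?_
          have h1 := one_le_Om N η
          have h2 : 1 / (((2 ^ i : ℕ) : ℝ) * Om N η) ≤ 2 * (1 / Y) := by
            rw [mul_one_div, div_le_div_iff₀ (by positivity) hY0]
            linarith [hη.2]
          calc _ ≤ A / Om N η * (2 * s + 2 * (1 / Y)) := by gcongr; linarith
            _ = _ := by ring
      _ ≤ ∫ η in Set.Icc (-1 : ℝ) 1, A * (2 * (s + 1 / Y)) * (Om N η)⁻¹ :=
          setIntegral_mono_set (continuous_const.mul hc).integrableOn_Icc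
            (.of_forall fun η => mul_nonneg hk (inv_nonneg.2 (Real.sqrt_nonneg _)))
            (hsub i).eventuallyLE
      _ ≤ _ := by
          rw [integral_Icc_eq_integral_Ioc, ← intervalIntegral.integral_of_le (by norm_num),
            intervalIntegral.integral_const_mul]
          exact mul_le_mul_of_nonneg_left (int_Om hN) hk
  have hL : 0 ≤ LL N := by
    have := Real.log_natCast_nonneg N
    unfold LL
    linarith
  have hcard : (I.card : ℝ) ≤ 2 * LL N := by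
    refine le_trans ?_ (log_le hN)
    exact_mod_cast (card_filter_le _ _).trans (card_range _).le
  rw [← integral_indicator hU]
  calc _ ≤ _ := integral_mono_of_nonneg
        (.of_forall fun x => Set.indicator_nonneg (fun _ _ => h0 _) x)
        (integrable_finsetSum _ fun i _ => i2 i) (.of_forall pt)
    _ ≤ I.card * (4 * (A * (2 * (s + 1 / Y)) * (6 * LL N / N))) := by
        rw [integral_finsetSum _ fun i _ => i2 i, ← nsmul_eq_mul]
        exact sum_le_card_nsmul _ _ _ blk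
    _ ≤ 2 * LL N * (4 * (A * (2 * (s + 1 / Y)) * (6 * LL N / N))) := by gcongr
    _ = _ := by ring

end Pool.Agent.P.MP_0ad054_nt.PS
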