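import Pool.Agent.P.MP_0ad054_nt.PS.StT
import Pool.Agent.P.MP_0ad054_nt.Chen.All
import Pool.Agent.P.MP_0ad054_nt.Chen.FinA

/-! Chen primes in a class and a dyadic range are dense. -/

namespace Pool.Agent.P.MP_0ad054_nt.PS

open Finset Pool.Agent.Lib.H9 Pool.Agent.P.MP_0ad054_nt.Sun Pool.Agent.P.MP_0ad054_nt.Sun.SphereP
  Pool.Agent.P.MP_0ad054_nt.Clu

namespace CntP

theorem card_div (L : List ℕ) (h : ∀ p ∈ L, p.Prime) :
    L.prod.divisors.card ≤ 2 ^ L.length := by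
  induction L with
  | nil => simp
  | cons p L ih =>
    rw [List.prod_cons, Nat.divisors_mul, List.length_cons, pow_succ']
    refine card_mul_le.trans (Nat.mul_le_mul ?_ (ih fun q hq => h q (List.mem_cons_of_mem _ hq)))
    rw [(h p List.mem_cons_self).divisors]
    exact card_le_two

theorem tau_four {a : ℕ} (ha : a ≠ 0) (h : a.primeFactorsList.length ≤ 2) : tau a ≤ 4 := by
  have h1 := card_div a.primeFactorsList fun p => Nat.prime_of_mem_primeFactorsList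
  rw [Nat.prod_primeFactorsList ha] at h1
  have h2 := h1.trans (Nat.pow_le_pow_right two_pos h)
  unfold tau
  exact_mod_cast h2

theorem split (f : ℕ → ℝ) (P : ℕ → Prop) [DecidablePred P] {a b : ℕ} (ha : 2 ≤ a) (hab : a ≤ b) :
    ∑ m ∈ (Ioc a b).filter P, f m =
      ∑ m ∈ (Icc 3 b).filter P, f m - ∑ m ∈ (Icc 3 a).filter P, f m := by
  rw [eq_sub_iff_add_eq, ← sum_union (disjoint_filter_filter (disjoint_left.2 fun m h1 h2 => by
    rw [mem_Ioc] at h1; rw [mem_Icc] at h2; omega)), ← filter_union]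
  congr 2
  ext m
  simp only [mem_union, mem_Ioc, mem_Icc]
  omega

theorem abs_le_sq {T : ℝ} (hT : 0 < T) (x : ℝ) : |x| ≤ T * x ^ 2 + 1 / T := by
  rw [← sq_abs x, ← sub_nonneg, show T * |x| ^ 2 + 1 / T - |x| =
    ((T * |x| - 1 / 2) ^ 2 + 3 / 4) / T by field_simp; ring]
  positivity

theorem fin {N L κ K n : ℝ} {j : ℕ} (hN : 0 < N) (hL : 1 ≤ L) (hκ : 0 < κ) (hK : 0 ≤ K)
    (h1 : (4 * K + 192) / κ ≤ L)
    (h : κ * N / (2 * L ^ (j + 1)) ≤ K * N / L ^ (j + 2) + 48 * L * n) : N / L ^ (j + 3) ≤ n := by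
  rw [div_le_iff₀ hκ] at h1
  have h2 : K * N / L ^ (j + 2) ≤ κ * N / (4 * L ^ (j + 1)) := by
    rw [div_le_div_iff₀ (by positivity) (by positivity)]
    calc _ = 4 * K * (N * L ^ (j + 1)) := by ring
      _ ≤ L * κ * (N * L ^ (j + 1)) := by gcongr ?_ * _; linarith
      _ = _ := by ring
  have h3 : 48 * L * (N / L ^ (j + 3)) ≤ κ * N / (4 * L ^ (j + 1)) := by
    rw [le_div_iff₀ (by positivity)]
    calc _ = 192 * (N / L) := by field_simp; ring
      _ ≤ L * κ * (N / L) := by gcongr ?_ * _; linarith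
      _ = _ := by field_simp
  have h4 : κ * N / (2 * L ^ (j + 1)) = 2 * (κ * N / (4 * L ^ (j + 1))) := by field_simp; ring
  exact le_of_mul_le_mul_left (by linarith) (by positivity : 0 < 48 * L)

end CntP

open CntP Chen Sun.FinP Chen.FinP in
theorem pCnt (hMd0 : S_Md0) : S_Cnt := by
  classical
  intro W hW h2W
  obtain ⟨c, j, hc, hM⟩ := hMd0 W hW h2W
  obtain ⟨cκ, y0, N1, hcκ, hCh⟩ := chen_all
  obtain ⟨N2, hSg⟩ := Chen.sign
  obtain ⟨C2, k2, hC2, hM2⟩ := mom2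
  obtain ⟨CA, kA, hCA0, hCA⟩ := cenA_all (j + 2) 1
  obtain ⟨CB, kB, hCB0, hCB⟩ := cenB_all (j + 3) 1
  obtain ⟨K, hK⟩ : ∃ K, K = 4 * (CA + CB) + (3 * C2 + 7) := ⟨_, rfl⟩
  have hK0 : 0 ≤ K := by rw [hK]; positivity
  obtain ⟨N0, hN0⟩ := params (ε := 1 / 10000) (by positivity) (kA + kB + k2 + 2 * j + 5)
    (y0 + W + 51 + ⌈(4 * K + 192) / (cκ * c) + 4 * W / c⌉₊)
  refine ⟨j + 3, N0 + N1 + N2 + 7, fun N a hN ha => ?_⟩
  obtain ⟨l, hl0, hlL, hLl, hG⟩ := hN0 N (by omega)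
  have hN1 : (1 : ℝ) ≤ N := by exact_mod_cast (by omega : 1 ≤ N)
  have hN' : (0 : ℝ) < N := by linarith
  have hL := Sun.FinP.one_le_LL N
  have hcst : (4 * K + 192) / (cκ * c) + 4 * W / c ≤ l :=
    (Nat.le_ceil _).trans (Nat.cast_le.2 (by omega))
  have q1 : 0 ≤ (4 * K + 192) / (cκ * c) := by positivity
  have q2 : 0 ≤ 4 * W / c := by positivity
  obtain ⟨hl70, hl7⟩ := log7 N (by omega)
  have hM := hM N l (l ^ 2) a (by omega) ha
  set L := LL N with hLd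
  set lam : ℝ := 2 ^ l with hlam
  set G : ℝ := 2 ^ (2 * l ^ 4) with hGd
  have hl4 : l ≤ l ^ 4 := Nat.le_self_pow (by norm_num) _
  have hlG : lam ≤ G := pow_le_pow_right₀ one_le_two (by omega)
  have hGa : ∀ a : ℝ, 1 / 10000 ≤ a → G ≤ (N : ℝ) ^ a := fun a ha =>
    hG.trans (Real.rpow_le_rpow_of_exponent_le hN1 ha)
  have hGz : G ≤ zz N := hGa _ (by norm_num)
  have hGN : G ≤ N := (hGa 1 (by norm_num)).trans_eq (Real.rpow_one _)
  have hLa : ∀ a ≤ kA + kB + k2 + 2 * j + 5, L ^ a ≤ lam := fun a ha =>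
    (pow_le_pow_right₀ hL ha).trans hLl
  have hlam1 : (2 : ℝ) ≤ lam := le_self_pow₀ one_le_two (by omega)
  have hk : lam ≤ (2 : ℝ) ^ l ^ 2 := pow_le_pow_right₀ one_le_two (Nat.le_self_pow (by norm_num) _)
  have sy : ((2 ^ l : ℕ) : ℝ) = lam := by simp [hlam]
  have hy2 : 2 ≤ 2 ^ l := Nat.le_self_pow (by omega) 2
  have hll : l ≤ 2 ^ l := (Nat.lt_two_pow_self (n := l)).le
  have hyN : 2 ^ l ≤ N := by exact_mod_cast sy.trans_le (hlG.trans hGN)
  have hDD : lam ^ (4 * l ^ 2 + 2) ≤ G := by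
    rw [hlam, ← pow_mul]
    refine pow_le_pow_right₀ one_le_two ?_
    have h1 : 1 ≤ l ^ 2 := Nat.one_le_pow _ _ (by omega)
    calc l * (4 * l ^ 2 + 2) ≤ l * (4 * l ^ 2 + 2 * l ^ 2) := by gcongr; omega
      _ = 6 * l ^ 3 := by ring
      _ ≤ (2 * l) * l ^ 3 := by gcongr; omega
      _ = _ := by ring
  have hD1 : ((2 ^ l : ℕ) : ℝ) ^ (2 * l ^ 2 + 1) ≤ (N : ℝ) ^ (1 / 10000 : ℝ) := by
    rw [sy]
    exact ((pow_le_pow_right₀ (by linarith) (by omega)).trans hDD).trans hG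
  obtain ⟨μ1, μ3, hIs, hκ⟩ := hCh N (2 ^ l) (Nat.primeFactors 1) (by omega) (by omega)
    (sy.trans_le (hlG.trans hGz)) (by simp)
  obtain ⟨hck, hck1, hSg⟩ := hSg N (by omega)
  obtain ⟨-, -, n3⟩ := hM2 N (2 ^ l) (l ^ 2) 1 (zz N) μ1 μ3 (ck N) hy2 hyN
    (by linarith) (fun d => (hIs.1 d).1) (fun d => (hIs.2.1 d).1) (fun d => (hck d).1)
  rw [← hLd] at n3 hκ
  have hlog := aux3 (l := l) (by omega)
  have hWL : (W : ℝ) ≤ L ^ 1 := by
    rw [pow_one]; exact le_trans (by exact_mod_cast (by omega)) hlL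
  have h7 : ∀ i b, i + b ≤ kA + kB + k2 + 2 * j + 5 → L ^ i / 2 ^ l ^ 2 ≤ 1 / L ^ b := fun i b h => by
    rw [div_le_div_iff₀ (by positivity) (by positivity), one_mul, ← pow_add]
    exact (hLa _ h).trans hk
  have cen : ∀ X ≤ 7 * N, |∑ m ∈ (Icc 3 X).filter (fun m : ℕ => (W : ℤ) ∣ m - a),
      (Chen.FF N (2 ^ l) (l ^ 2) μ1 μ3 m - kk N μ1 μ3 * md0 (2 ^ l) (l ^ 2) m)| ≤
      2 * (CA + CB) * N / L ^ (j + 2) := fun X hX => by
    have h5 := hCA N (2 ^ l) (l ^ 2) W X a μ1 hy2 hD1 hlog hIs.1 hW (by omega) hWL hX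
    have h6 := hCB N (2 ^ l) (l ^ 2) W X a μ3 (ck N) hy2 hD1 hlog hIs.2.1 hck hck1 hW (by omega)
      hWL hX
    rw [← hLd] at h5 h6
    have h8 := (abs_sub _ _).trans (add_le_add h5 ((abs_mul (Real.log (7 * N) / 2) _).trans_le
      (mul_le_mul ((abs_of_nonneg hl70).trans_le hl7) h6 (abs_nonneg _) (by linarith))))
    rw [mul_sum, ← sum_sub_distrib] at h8
    refine (le_of_eq ?_).trans (h8.trans ?_)
    · congr 1
      exact sum_congr rfl fun m _ => by simp only [Chen.FF, kk]; ring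
    · calc _ ≤ CA * N * (1 / L ^ (j + 2) + 1 / L ^ (j + 2)) +
            L * (CB * N * (1 / L ^ (j + 3) + 1 / L ^ (j + 3))) := by
            gcongr CA * N * (_ + ?_) + L * (CB * N * (_ + ?_))
            · exact h7 kA (j + 2) (by omega)
            · exact h7 kB (j + 3) (by omega)
        _ = _ := by field_simp; ring
  have hmain : c * N / (2 * L ^ j) ≤ ∑ m ∈ (Ioc (2 * N) (3 * N)).filter
      (fun m : ℕ => (W : ℤ) ∣ m - a), md0 (2 ^ l) (l ^ 2) m := by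
    refine le_trans ?_ hM
    have h1 : c * N / L ^ j ≤ c * N / (l : ℝ) ^ j := by
      have : (0 : ℝ) < l := by exact_mod_cast (by omega : 0 < l)
      gcongr
    have h2 : 2 * W * lam ^ (4 * l ^ 2 + 2) ≤ c * N / (2 * L ^ j) := by
      rw [le_div_iff₀ (by positivity)]
      calc _ = c * ((4 * W / c * L ^ j) * lam ^ (4 * l ^ 2 + 2)) := by field_simp; ring
        _ ≤ c * ((L * L ^ j) * G) := by gcongr; linarith
        _ ≤ c * ((N : ℝ) ^ (1 / 2 : ℝ) * (N : ℝ) ^ (1 / 2 : ℝ)) := by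
            gcongr
            · rw [← pow_succ']
              exact (hLa _ (by omega)).trans (hlG.trans (hGa _ (by norm_num)))
            · exact hGa _ (by norm_num)
        _ = _ := by rw [← Real.rpow_add hN']; norm_num
    have h3 : c * N / L ^ j = 2 * (c * N / (2 * L ^ j)) := by field_simp
    linarith
  have hNl : Nl N ≤ N := (Real.rpow_le_rpow_of_exponent_le hN1 (by norm_num)).trans_eq
    (Real.rpow_one _)
  have up : ∀ m ∈ (Ioc (2 * N) (3 * N)).filter (fun m : ℕ => (W : ℤ) ∣ m - a),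
      Chen.FF N (2 ^ l) (l ^ 2) μ1 μ3 m ≤
        (if B2 (2 ^ l) (l ^ 2) 1 (zz N) m then L ^ (j + 2) * FA (2 ^ l) (l ^ 2) μ1 m ^ 2 else 0) +
        1 / L ^ (j + 2) + if m ∈ chen W N a then 48 * L else 0 := fun m hm => by
    obtain ⟨h1, h2⟩ := mem_filter.1 hm
    obtain ⟨h3, h4⟩ := mem_Ioc.1 h1
    have h5 : (N : ℝ) + 2 ≤ m := by exact_mod_cast (by omega : N + 2 ≤ m)
    obtain ⟨s1, s2⟩ := hSg (2 ^ l) (l ^ 2) 1 m μ1 μ3 hIs (sy.trans_le (hlG.trans hGz))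
      (by linarith) (by omega)
    have p1 : 0 ≤ 1 / L ^ (j + 2) := by positivity
    have p2 : 0 ≤ if m ∈ chen W N a then 48 * L else 0 := by positivity
    by_cases hb : B2 (2 ^ l) (l ^ 2) 1 (zz N) m
    · rw [if_pos hb]
      linarith [abs_le_sq (T := L ^ (j + 2)) (by positivity) (FA (2 ^ l) (l ^ 2) μ1 m)]
    rw [if_neg hb]
    rcases le_or_gt (Chen.FF N (2 ^ l) (l ^ 2) μ1 μ3 m) 0 with h6 | h6
    · linarith
    obtain ⟨s3, s4⟩ := s2 hb h6
    have hc' : m ∈ chen W N a := by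
      simp only [chen, mem_filter]
      exact ⟨mem_Icc.2 ⟨h3.le, h4⟩, by_contra fun h9 => hb (Or.inl h9), h2, s3,
        fun q hq => s4 q (Nat.prime_of_mem_primeFactors hq) (Nat.dvd_of_mem_primeFactors hq)⟩
    rw [if_pos hc']
    have h8 := Mom2P.FA_sq (fun d => (hIs.1 d).1) (N := N) (by omega) (2 ^ l) (l ^ 2) (m := m)
      (mem_Icc.2 ⟨by omega, by omega⟩)
    have h9 : |FA (2 ^ l) (l ^ 2) μ1 m| ≤ 48 * L := by
      refine abs_le_of_sq_le_sq (h8.trans ?_) (by positivity)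
      calc _ ≤ 9 * L ^ 2 * 4 ^ 4 := by
            gcongr
            · exact tau_nonneg _
            · exact tau_four (by omega) s3
        _ = _ := by ring
    linarith
  have h1 := sum_le_sum up
  rw [sum_add_distrib, sum_add_distrib, ← sum_filter, ← sum_filter, ← mul_sum, sum_const,
    sum_const, nsmul_eq_mul, nsmul_eq_mul] at h1
  have h2 : ∑ m ∈ ((Ioc (2 * N) (3 * N)).filter (fun m : ℕ => (W : ℤ) ∣ m - a)).filter
      (B2 (2 ^ l) (l ^ 2) 1 (zz N)), FA (2 ^ l) (l ^ 2) μ1 m ^ 2 ≤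
      3 * C2 * N / L ^ (2 * j + 4) := by
    refine (sum_le_sum_of_subset_of_nonneg (filter_subset_filter _ fun m hm => ?_)
      fun _ _ _ => sq_nonneg _).trans (n3.trans ?_)
    · have := mem_Ioc.1 (mem_filter.1 hm).1
      exact mem_Icc.2 ⟨by omega, by omega⟩
    · have e1 : (N : ℝ) ^ (-(1 / 4) : ℝ) ≤ 1 / lam := by
        rw [Real.rpow_neg hN'.le, ← one_div]; gcongr; exact hlG.trans (hGa _ (by norm_num))
      have e2 : 1 / zz N ≤ 1 / lam := by gcongr; exact hlG.trans hGz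
      have e3 : 1 / lam ≤ 1 / L ^ (k2 + (2 * j + 4)) := by gcongr; exact hLa _ (by omega)
      have e4 : 1 / (2 : ℝ) ^ l ^ 2 ≤ 1 / lam := by gcongr
      rw [Nat.primeFactors_one, sum_empty]
      calc _ ≤ C2 * N * L ^ k2 * (3 * (1 / L ^ (k2 + (2 * j + 4)))) := by gcongr; linarith
        _ = _ := by field_simp; ring
  have h3 : (((Ioc (2 * N) (3 * N)).filter (fun m : ℕ => (W : ℤ) ∣ m - a)).card : ℝ) ≤ 7 * N := by
    have := card_filter_le (Ioc (2 * N) (3 * N)) fun m : ℕ => (W : ℤ) ∣ m - a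
    rw [Nat.card_Ioc] at this
    exact_mod_cast this.trans (by omega)
  have h4 : ((((Ioc (2 * N) (3 * N)).filter (fun m : ℕ => (W : ℤ) ∣ m - a)).filter
      (· ∈ chen W N a)).card : ℝ) ≤ (chen W N a).card := by
    exact_mod_cast card_le_card fun m hm => (mem_filter.1 hm).2
  have h5 := split (fun m => Chen.FF N (2 ^ l) (l ^ 2) μ1 μ3 m - kk N μ1 μ3 * md0 (2 ^ l) (l ^ 2) m)
    (fun m : ℕ => (W : ℤ) ∣ m - a) (a := 2 * N) (b := 3 * N) (by omega) (by omega)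
  have h6 := abs_le.1 (cen (3 * N) (by omega))
  have h8 := abs_le.1 (cen (2 * N) (by omega))
  rw [sum_sub_distrib, ← mul_sum] at h5
  have h9 := mul_le_mul hκ hmain (by positivity) (le_trans (by positivity) hκ)
  refine fin (κ := cκ * c) (K := K) hN' hL (by positivity) hK0 (by linarith) ?_
  have e1 := mul_le_mul_of_nonneg_left h2 (by positivity : 0 ≤ L ^ (j + 2))
  have e2 := mul_le_mul_of_nonneg_right h3 (by positivity : 0 ≤ 1 / L ^ (j + 2))
  have e3 := mul_le_mul_of_nonneg_right h4 (by positivity : 0 ≤ 48 * L)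
  have e4 : cκ * c * N / (2 * L ^ (j + 1)) = cκ / L * (c * N / (2 * L ^ j)) := by
    field_simp; ring
  have e5 : K * N / L ^ (j + 2) = 2 * (2 * (CA + CB) * N / L ^ (j + 2)) +
      L ^ (j + 2) * (3 * C2 * N / L ^ (2 * j + 4)) + 7 * N * (1 / L ^ (j + 2)) := by
    rw [hK]; field_simp; ring
  linarith

end Pool.Agent.P.MP_0ad054_nt.PS
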