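import Pool.Agent.P.MP_0ad054_nt.PS.StT
import Pool.Agent.P.MP_0ad054_nt.Clu.Om
import Pool.Agent.P.MP_0ad054_nt.Sun.FinA

/-! The engine with a power saving. -/

namespace Pool.Agent.P.MP_0ad054_nt.PS

open Finset Pool.Agent.Lib.H9 Pool.Agent.P.MP_0ad054_nt.Sun Pool.Agent.P.MP_0ad054_nt.Sun.SphereP
  Pool.Agent.P.MP_0ad054_nt.Clu

namespace CorePP

theorem cont_sq {v : V} {n : ℕ} (h : nsq v = n) : cont v ^ 2 ∣ n := by
  have h1 : ((cont v : ℤ)) ^ 2 ∣ nsq v :=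
    dvd_sum fun j _ => pow_dvd_pow_of_dvd (dvd_cont.1 dvd_rfl j) 2
  rw [h] at h1
  exact_mod_cast h1

/-- one point of a sphere -/
theorem pt {S : Finset ℕ} {o a b P : ℕ → ℝ} {k : ℕ} {c τ w : ℝ} (hτ : 0 ≤ τ)
    (o0 : ∀ t, 0 ≤ o t) (o1 : ∑ t ∈ S, o t ≤ 1)
    (h1 : ∀ t, a t = (if k = 1 then P t else 0) + b t) (h2 : k = 1 → ∀ t ∈ S, c - τ ≤ P t)
    (h3 : ∑ t ∈ S, o t * |b t| ≤ k * w) :
    c * (if k = 1 then ∑ t ∈ S, o t else 0) ≤ ∑ t ∈ S, o t * a t + k * (w + τ) := by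
  have a1 : -∑ t ∈ S, o t * |b t| ≤ ∑ t ∈ S, o t * b t := by
    rw [← sum_neg_distrib]
    exact sum_le_sum fun t _ => by
      rw [← mul_neg]; exact mul_le_mul_of_nonneg_left (neg_abs_le _) (o0 t)
  simp only [h1, mul_add, sum_add_distrib]
  split_ifs with hk
  · have a2 : ∑ t ∈ S, o t * (c - τ) ≤ ∑ t ∈ S, o t * P t :=
      sum_le_sum fun t ht => mul_le_mul_of_nonneg_left (h2 hk t ht) (o0 t)
    have a3 := mul_le_mul_of_nonneg_right o1 hτ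
    rw [← sum_mul] at a2
    rw [hk, Nat.cast_one] at h3 ⊢
    linarith
  · have a2 : 0 ≤ (k : ℝ) * τ := by positivity
    simp only [mul_zero, sum_const_zero]
    linarith

theorem num {C L lam l u y : ℝ} {j a : ℕ} (hC : 0 < C) (hL : 1 ≤ L) (l0 : 0 ≤ l) (hl : l ≤ L)
    (h : L ^ (j + 1 + 2 * a) ≤ lam) (hu : u ≤ C * l ^ j * L / lam) (hy : y ≤ 4 / lam) :
    Real.sqrt (2 * u + y) + 1 / lam ^ 2 ≤ (Real.sqrt (2 * C + 4) + 1) / L ^ a := by
  have a0 : 1 ≤ L ^ (j + 1) := one_le_pow₀ hL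
  have a1 : L ^ a ≤ lam := (pow_le_pow_right₀ hL (by omega)).trans h
  have a2 : 1 ≤ lam := (one_le_pow₀ hL).trans a1
  have a3 : 1 / lam ^ 2 ≤ 1 / L ^ a := by
    gcongr
    exact a1.trans (le_self_pow₀ a2 two_ne_zero)
  have a4 : 2 * u + y ≤ (2 * C + 4) / (L ^ a) ^ 2 := by
    have b1 : C * l ^ j * L / lam ≤ C * L ^ (j + 1) / lam := by
      rw [pow_succ, ← mul_assoc]; gcongr
    have b2 : 4 / lam ≤ 4 * L ^ (j + 1) / lam := by gcongr; linarith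
    calc 2 * u + y ≤ 2 * (C * L ^ (j + 1) / lam) + 4 * L ^ (j + 1) / lam := by linarith
      _ = (2 * C + 4) * L ^ (j + 1) / lam := by ring
      _ ≤ (2 * C + 4) * L ^ (j + 1) / L ^ (j + 1 + 2 * a) := by gcongr
      _ = _ := by field_simp; ring
  have a5 := Real.sqrt_le_sqrt a4
  rw [Real.sqrt_div (by positivity), Real.sqrt_sq (by positivity)] at a5
  rw [add_div]
  linarith

end CorePP

open CorePP in
theorem pCoreP (hMod : S_Mod) (hRep : S_Rep) (hSplit : S_Split) (hOrth : S_Orth) (hTail : S_Tail)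
    (hR4 : S_R4) (hLowP : S_LowP) : S_CoreP := by
  classical
  obtain ⟨W, c, κ, l0, hW0, hW2, hc, hLow⟩ := hLowP
  choose! cl hcl hLow using hLow
  obtain ⟨η0, hη0, hMod⟩ := hMod
  obtain ⟨δ, hδ, d1, d2⟩ : ∃ δ : ℝ, 0 < δ ∧ 32 * δ ≤ η0 ∧ 32 * δ ≤ 1 / 20000 :=
    ⟨min η0 (1 / 20000) / 32, by positivity, by linarith [min_le_left η0 (1 / 20000)],
      by linarith [min_le_right η0 (1 / 20000)]⟩
  obtain ⟨CM, hCM, hMod⟩ := hMod (32 * δ) (by positivity) d1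
  obtain ⟨CR, hCR, hRep⟩ := hRep
  obtain ⟨CT, jT, hCT, hTail⟩ := hTail
  obtain ⟨C4, k4, hC4, hR4⟩ := hR4
  refine ⟨W, cl, δ, hW0, hW2, hδ, by linarith, hcl, fun j => ?_⟩
  obtain ⟨a, ha⟩ : ∃ a, a = j + k4 + κ := ⟨_, rfl⟩
  obtain ⟨N0, hN0⟩ := FinP.params hδ (jT + 1 + 2 * a) (l0 + 4)
  obtain ⟨s, hs⟩ : ∃ s, s = Real.sqrt (2 * CT + 4) + 1 := ⟨_, rfl⟩
  have s0 : 0 < s := by rw [hs]; positivity
  refine ⟨(CM + CR + s * C4) / c, N0 + 2, by positivity,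
    fun N r n0 S E hN hn0 hr1 hr2 hS hE => ?_⟩
  obtain ⟨l, hl0, hlL, hLl, hG⟩ := hN0 N (by omega)
  have hN1 : (1 : ℝ) < N := by exact_mod_cast (by omega : 1 < N)
  have hN' : (0 : ℝ) < N := by linarith
  have hL := FinP.one_le_LL N
  have mono : ∀ x y : ℝ, x ≤ y → (N : ℝ) ^ x ≤ (N : ℝ) ^ y := fun x y h =>
    Real.rpow_le_rpow_of_exponent_le hN1.le h
  have lt : ∀ x : ℝ, x < 1 → (N : ℝ) ^ x < N := fun x h => by
    simpa using Real.rpow_lt_rpow_of_exponent_lt hN1 h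
  have hl4 : l ≤ l ^ 4 := Nat.le_self_pow (by norm_num) _
  have hlam : (2 : ℝ) ^ l ≤ (N : ℝ) ^ δ := (pow_le_pow_right₀ one_le_two (by omega)).trans hG
  have hLa : ∀ b ≤ jT + 1 + 2 * a, LL N ^ b ≤ 2 ^ l := fun b hb =>
    (pow_le_pow_right₀ hL hb).trans hLl
  obtain ⟨Y, hY⟩ : ∃ Y, Y = ⌊(N : ℝ) ^ (32 * δ)⌋₊ := ⟨_, rfl⟩
  have y0 : 1 ≤ (N : ℝ) ^ (32 * δ) := Real.one_le_rpow hN1.le (by positivity)
  have y1 : (Y : ℝ) ≤ (N : ℝ) ^ (32 * δ) := hY ▸ Nat.floor_le (by positivity)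
  have y2 : (N : ℝ) ^ (32 * δ) ≤ 2 * Y := by
    have b1 : (1 : ℝ) ≤ Y := by exact_mod_cast hY ▸ (Nat.one_le_floor_iff _).2 y0
    have b2 := hY ▸ Nat.lt_floor_add_one ((N : ℝ) ^ (32 * δ))
    linarith
  have y3 : (Y : ℝ) ≤ (N : ℝ) ^ (1 / 20000 : ℝ) := y1.trans (mono _ _ d2)
  have r0 : (0 : ℝ) < r := by
    have := Real.rpow_pos_of_pos hN' (1 - 1 / 20000 : ℝ)
    linarith
  have r1 : 1 ≤ r := by exact_mod_cast r0
  have r2 : r ≤ N := by exact_mod_cast (hr2.trans_lt (lt _ (by norm_num))).le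
  have y4 : 2 * (Y : ℝ) ^ 6 / r ≤ 4 / 2 ^ l := by
    rw [div_le_div_iff₀ r0 (by positivity)]
    have b1 : (Y : ℝ) ^ 6 * 2 ^ l ≤ ((N : ℝ) ^ (1 / 20000 : ℝ)) ^ 6 * (N : ℝ) ^ δ := by gcongr
    rw [← Real.rpow_natCast ((N : ℝ) ^ _), ← Real.rpow_mul hN'.le, ← Real.rpow_add hN'] at b1
    have b2 := b1.trans (mono _ (1 - 1 / 20000) (by push_cast; linarith))
    linarith
  have m1 := hMod N Y r S E (by omega) y2 y1 hr1 hr2 (fun t ht => (hS t ht).2.2.1)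
    fun n hn => ⟨(hE n hn).1, (hE n hn).2.1, (hE n hn).2.2.2.2⟩
  have m2 := hRep N Y r S E (by omega) y3 hr1 r2 (fun t ht => ⟨(hS t ht).1, by
      have : Y < N := by exact_mod_cast y3.trans_lt (lt _ (by norm_num))
      exact this.trans_le (hS t ht).2.1, (hS t ht).2.2.1⟩) fun n hn => (hE n hn).2.1
  have m3 : ∑ n ∈ E, ∑ v ∈ sphere n, ∑ t ∈ S, om r (Q2 v - t) * ∑ q ∈ Icc 1 Y, AV q t v ≤
      (CM + CR) * (N : ℝ) ^ (2 - 2 * δ) := by
    have b1 := mul_le_mul_of_nonneg_left (mono (2 - 32 * δ / 16) (2 - 2 * δ) (by linarith)) hCM.le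
    have b2 := mul_le_mul_of_nonneg_left (mono (2 - 1 / 100) (2 - 2 * δ) (by linarith)) hCR.le
    linarith [(abs_le.1 m2).1]
  have key : ∀ n ∈ E, c / (l : ℝ) ^ κ * ∑ v ∈ psphere n, ∑ t ∈ S, om r (Q2 v - t) ≤
      ∑ v ∈ sphere n, ∑ t ∈ S, om r (Q2 v - t) * ∑ q ∈ Icc 1 Y, AV q t v +
        C4 * N * LL N ^ k4 * (s / LL N ^ a) := by
    intro n hn
    obtain ⟨n1, n2, n3, n4, -⟩ := hE n hn
    have b1 := num (a := a) hCT hL (Nat.cast_nonneg l) hlL hLl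
      (hTail N l Y n (by omega) (by omega) n2 (by simpa using hLa 1 (by omega))) y4
    rw [← hs] at b1
    have b2 : ∑ v ∈ sphere n, (cont v : ℝ) ≤ C4 * N * LL N ^ k4 :=
      (hR4 N n (by omega) n2).trans (by gcongr)
    refine le_trans ?_ (add_le_add_right (mul_le_mul_of_nonneg_right b2 (by positivity)) _)
    rw [psphere, sum_filter, mul_sum, sum_mul, ← sum_add_distrib]
    refine sum_le_sum fun v hv => ?_
    have hv' : nsq v = n := mem_sphere.1 hv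
    have v0 : v ≠ 0 := by
      rintro rfl
      simp [nsq] at hv'
      omega
    have v1 : (cont v : ℝ) ≤ (N : ℝ) ^ δ := not_lt.1 fun h => n4 _ h (cont_sq hv')
    have v2 : cont v * (2 ^ l) ^ (l * l ^ 2) ≤ Y := by
      rw [hY]
      refine Nat.le_floor ?_
      have b3 : ((2 : ℝ) ^ l) ^ (l * l ^ 2) ≤ (N : ℝ) ^ δ := by
        rw [← pow_mul]
        exact (pow_le_pow_right₀ one_le_two (by nlinarith)).trans hG
      push_cast
      refine (mul_le_mul v1 b3 (by positivity) (by positivity)).trans ?_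
      rw [← Real.rpow_add hN']
      exact mono _ _ (by linarith)
    obtain ⟨μ, μ1, μ2⟩ := hSplit l Y v (by omega) v0 v2
    have b4 := hOrth Y r _ S μ (cont v) (nsq v) (Q2 v) r1
      (filter_subset (fun q => ¬ old l q) (Icc 1 Y)) μ1
    refine (pt (τ := 1 / (2 ^ l) ^ 2) (by positivity) (fun t => pOm.1 r _) (pOm.2.1 r S _)
      (fun t : ℕ => μ2 t) (fun h t ht => hLow n0 hn0 l n t v (by omega) n3 (hS t ht).2.2.2
        (hS t ht).1 ?_ hv' h) b4).trans ?_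
    · have : 2 ^ l < N := by exact_mod_cast hlam.trans_lt (lt _ (by linarith))
      exact this.trans_le (hS t ht).2.1
    · rw [hv']
      gcongr
  have fin := sum_le_sum key
  rw [← mul_sum, sum_add_distrib, sum_const, nsmul_eq_mul] at fin
  generalize ∑ n ∈ E, ∑ v ∈ psphere n, ∑ t ∈ S, om r (Q2 v - t) = X at fin ⊢
  have hl' : (0 : ℝ) < l := by exact_mod_cast (by omega : 0 < l)
  have f1 := fin.trans (add_le_add_left m3 _)
  rw [div_mul_eq_mul_div, div_le_iff₀ (by positivity), ← le_div_iff₀' hc] at f1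
  refine f1.trans ?_
  rw [div_mul_eq_mul_div]
  refine div_le_div_of_nonneg_right ?_ hc.le
  have g1 : (l : ℝ) ^ κ ≤ LL N ^ κ := by gcongr
  have g2 : (N : ℝ) ^ (2 - 2 * δ) * LL N ^ κ ≤ (N : ℝ) ^ (2 - δ) := by
    refine (mul_le_mul_of_nonneg_left ((hLa κ (by omega)).trans hlam) (by positivity)).trans ?_
    rw [← Real.rpow_add hN']
    exact mono _ _ (by linarith)
  have g3 : E.card * (C4 * N * LL N ^ k4 * (s / LL N ^ a)) * LL N ^ κ =
      s * C4 * (E.card * N / LL N ^ j) := by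
    rw [ha]; field_simp; ring
  have g4 := mul_le_mul_of_nonneg_left g2 (add_pos hCM hCR).le
  have g5 : 0 ≤ (CM + CR) * (E.card * N / LL N ^ j) := by positivity
  have g6 : 0 ≤ s * C4 * (N : ℝ) ^ (2 - δ) := by positivity
  refine (mul_le_mul_of_nonneg_left g1 (by positivity)).trans ?_
  rw [add_mul, g3]
  linarith

end Pool.Agent.P.MP_0ad054_nt.PS
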