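import Pool.Agent.P.MP_0ad054_nt.PS.Base

/-! Dyadic sums of the complete exponential sums. -/

namespace Pool.Agent.P.MP_0ad054_nt.PS

open Finset Pool.Agent.Lib.H9 Pool.Agent.P.MP_0ad054_nt.Sun Pool.Agent.P.MP_0ad054_nt.Sun.SphereP
  Pool.Agent.P.MP_0ad054_nt.Clu
open scoped Real ComplexConjugate

namespace DRP

open Base

/-- covering by multiples -/
lemma cover {ι : Type} (X : ℕ) (s : Finset ℕ) (T : Finset ι) (c : ι → ℕ) (w : ι → ℝ) (G : ℕ → ℝ)
    (hs : s ⊆ Ioc 0 X) (hw : ∀ t ∈ T, 0 ≤ w t) (h : ∀ q ∈ s, ∃ t ∈ T, c t ∣ q ∧ G q ≤ w t) :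
    ∑ q ∈ s, G q ≤ X * ∑ t ∈ T, w t / c t := by
  have h0 : ∀ q, ∀ t ∈ T, 0 ≤ if c t ∣ q then w t else 0 := fun q t ht => by
    split_ifs; exacts [hw t ht, le_rfl]
  calc _ ≤ ∑ q ∈ s, ∑ t ∈ T, if c t ∣ q then w t else 0 := sum_le_sum fun q hq => by
        obtain ⟨t, ht, h1, h2⟩ := h q hq
        exact (h2.trans (if_pos h1).ge).trans (single_le_sum (h0 q) ht)
    _ ≤ ∑ q ∈ Ioc 0 X, ∑ t ∈ T, if c t ∣ q then w t else 0 :=
        sum_le_sum_of_subset_of_nonneg hs fun q _ _ => sum_nonneg (h0 q)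
    _ ≤ _ := by
        rw [sum_comm, mul_sum]
        refine sum_le_sum fun t ht => ?_
        rw [← sum_filter, sum_const, Nat.Ioc_filter_dvd_card_eq_div, nsmul_eq_mul]
        exact (mul_le_mul_of_nonneg_right Nat.cast_div_le (hw t ht)).trans (le_of_eq (by ring))

lemma sum_self (n : ℕ) : ∑ d ∈ n.divisors, (d : ℝ) / d = tau n := by
  rw [tau, card_eq_sum_ones, Nat.cast_sum]
  exact sum_congr rfl fun d hd => by
    rw [div_self (by exact_mod_cast (Nat.pos_of_mem_divisors hd).ne'), Nat.cast_one]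

lemma gcd_mem (q : ℕ) {a : ℤ} (ha : a ≠ 0) : Int.gcd q a ∈ a.natAbs.divisors :=
  Nat.mem_divisors.2 ⟨Nat.gcd_dvd_right _ _, Int.natAbs_ne_zero.2 ha⟩

lemma gcd_dvd (q : ℕ) (a : ℤ) : Int.gcd q a ∣ q := Nat.gcd_dvd_left _ _

lemma dt1 (X : ℕ) (s : Finset ℕ) (hs : s ⊆ Ioc 0 X) {a : ℤ} (ha : a ≠ 0) :
    ∑ q ∈ s, (Int.gcd q a : ℝ) ≤ X * tau a.natAbs := by
  rw [← sum_self]
  exact cover X s _ (fun d => d) (fun d => d) _ hs (fun _ _ => Nat.cast_nonneg _)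
    fun q _ => ⟨_, gcd_mem q ha, gcd_dvd q a, le_rfl⟩

lemma tau_mono {a b : ℕ} (h : a ∣ b) (hb : b ≠ 0) : tau a ≤ tau b := by
  unfold tau; exact_mod_cast card_le_card (Nat.divisors_subset_of_dvd hb h)

/-- the part of `q` on the primes of `n` -/
lemma split (n : ℕ) (q : ℕ) : q ≠ 0 →
    ∃ q1 q2, q = q1 * q2 ∧ q1.Coprime n ∧ ∀ p, p.Prime → p ∣ q2 → p ∣ n := by
  induction q using Nat.strong_induction_on with
  | _ q ih =>
  intro hq
  by_cases h : q.Coprime n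
  · exact ⟨q, 1, by simp, h, fun p hp e => absurd (Nat.dvd_one.1 e) hp.ne_one⟩
  obtain ⟨p, hp, ⟨c, rfl⟩, h2⟩ := Nat.Prime.not_coprime_iff_dvd.1 h
  have hc : c ≠ 0 := right_ne_zero_of_mul hq
  obtain ⟨q1, q2, rfl, h3, h4⟩ := ih c (lt_mul_of_one_lt_left (Nat.pos_of_ne_zero hc) hp.one_lt) hc
  refine ⟨q1, p * q2, by ring, h3, fun l hl e => ?_⟩
  rcases (Nat.Prime.dvd_mul hl).1 e with e | e
  · rwa [(Nat.prime_dvd_prime_iff_eq hl hp).1 e]
  · exact h4 l hl e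

/-- numbers composed of the primes of `n` -/
lemma smooth {n : ℕ} (hn : n ≠ 0) (M : Finset ℕ) (hM : ∀ m ∈ M, ∀ p, p.Prime → p ∣ m → p ∣ n) :
    ∑ m ∈ M, (Real.sqrt m)⁻¹ ≤ tau n ^ 2 := by
  let f : ℕ →* ℝ := ⟨⟨fun m => (Real.sqrt m)⁻¹, by simp⟩, fun a b => by
    simp [Real.sqrt_mul, mul_comm]⟩
  have h1 : ∀ {p : ℕ}, p.Prime → (Real.sqrt p)⁻¹ ≤ 3 / 4 := fun {p} hp => by
    have : (2 : ℝ) ≤ p := by exact_mod_cast hp.two_le
    exact inv_le_of_inv_le₀ (by norm_num) (Real.le_sqrt_of_sq_le (by norm_num; linarith))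
  have h2 := (EulerProduct.summable_and_hasSum_factoredNumbers_prod_filter_prime_geometric (f := f)
    (fun {p} hp => by
      rw [Real.norm_of_nonneg (show 0 ≤ f p from inv_nonneg.2 (Real.sqrt_nonneg _))]
      exact (h1 hp).trans_lt (by norm_num)) n.primeFactors).2
  have h3 := sum_le_hasSum (M.subtype (· ∈ Nat.factoredNumbers n.primeFactors))
    (fun m _ => show 0 ≤ f m from inv_nonneg.2 (Real.sqrt_nonneg _)) h2
  rw [sum_subtype_of_mem (fun m => f m) fun m hm => Nat.mem_factoredNumbers'.2 fun p hp e =>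
    Nat.mem_primeFactors.2 ⟨hp, hM m hm p hp e, hn⟩] at h3
  refine h3.trans ?_
  rw [filter_true_of_mem fun p hp => Nat.prime_of_mem_primeFactors hp]
  have h4 : ∀ p ∈ n.primeFactors, 1 / 4 ≤ 1 - f p := fun p hp => by
    have : f p ≤ 3 / 4 := h1 (Nat.prime_of_mem_primeFactors hp)
    linarith
  refine (prod_le_prod (g := fun _ => (2 : ℝ) ^ 2) (fun p hp => by have := h4 p hp; positivity)
    fun p hp => inv_le_of_inv_le₀ (by norm_num) (le_trans (by norm_num) (h4 p hp))).trans ?_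
  rw [prod_const, ← pow_mul, mul_comm, pow_mul]
  exact pow_le_pow_left₀ (by positivity) (two_pow_le_tau hn) 2

/-! polynomial size of the invariants -/

/-- the range of the variables -/
structure X where
  N : ℕ
  b : V
  b' : V
  k : V
  k' : V
  s : ℤ
  h : 1 ≤ N ∧ b ∈ bx N ∧ b' ∈ bx N ∧ k ∈ bx N ∧ k' ∈ bx N ∧ s ∈ iv N

/-- polynomially bounded -/
def PB (f : X → ℤ) : Prop := ∃ j : ℕ, ∀ x, |f x| ≤ (2 * x.N) ^ j

lemma two_le (x : X) : (2 : ℤ) ≤ 2 * x.N := by have := x.h.1; omega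

lemma PB.const (c : ℤ) : PB fun _ => c := ⟨c.natAbs, fun x => by
  refine le_trans ?_ (pow_le_pow_left₀ (by norm_num) (two_le x) _)
  rw [← Int.natCast_natAbs]
  exact_mod_cast Nat.lt_two_pow_self.le⟩

lemma PB.mul {f g : X → ℤ} (hf : PB f) (hg : PB g) : PB fun x => f x * g x := by
  obtain ⟨⟨i, hi⟩, j, hj⟩ := And.intro hf hg
  exact ⟨i + j, fun x => by
    rw [abs_mul, pow_add]; exact mul_le_mul (hi x) (hj x) (abs_nonneg _) (by positivity)⟩

lemma PB.add {f g : X → ℤ} (hf : PB f) (hg : PB g) : PB fun x => f x + g x := by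
  obtain ⟨⟨i, hi⟩, j, hj⟩ := And.intro hf hg
  refine ⟨i + j + 1, fun x => (abs_add_le _ _).trans ?_⟩
  have h := two_le x
  have h1 := (hi x).trans (pow_le_pow_right₀ (by omega) (Nat.le_add_right i j))
  have h2 := (hj x).trans (pow_le_pow_right₀ (by omega) (Nat.le_add_left j i))
  have h3 : (0 : ℤ) ≤ (2 * x.N) ^ (i + j) := by positivity
  rw [pow_succ]; nlinarith

lemma PB.neg {f : X → ℤ} (hf : PB f) : PB fun x => -f x := by simpa [PB] using hf

lemma PB.sub {f g : X → ℤ} (hf : PB f) (hg : PB g) : PB fun x => f x - g x := by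
  simpa only [sub_eq_add_neg] using hf.add hg.neg

lemma PB.sq {f : X → ℤ} (hf : PB f) : PB fun x => f x ^ 2 := by
  simpa only [pow_two] using hf.mul hf

lemma PB.sum {f : Fin 4 → X → ℤ} (hf : ∀ j, PB (f j)) : PB fun x => ∑ j, f j x := by
  simpa only [Fin.sum_univ_four] using (((hf 0).add (hf 1)).add (hf 2)).add (hf 3)

/-- a vector with polynomially bounded coordinates -/
def PV (v : X → V) : Prop := ∀ j, PB fun x => v x j

lemma pv {v : X → V} (h : ∀ x, v x ∈ bx x.N) : PV v := fun j =>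
  ⟨1, fun x => (mem_bx.1 (h x) j).trans (by simp; omega)⟩

lemma PV.QS {u v : X → V} (hu : PV u) (hv : PV v) : PB fun x => QS (u x) (v x) :=
  PB.sum fun j => ((PB.const _).mul (hu j)).mul (hv j)

lemma PV.dot {u v : X → V} (hu : PV u) (hv : PV v) : PB fun x => dot (u x) (v x) :=
  PB.sum fun j => (hu j).mul (hv j)

lemma PV.nsq {u : X → V} (hu : PV u) : PB fun x => nsq (u x) := PB.sum fun j => (hu j).sq

lemma PV.Q2 {u : X → V} (hu : PV u) : PB fun x => Q2 (u x) := by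
  simp only [Q2_eq]; exact PB.sum fun j => (PB.const _).mul (hu j).sq

lemma pb_all : PB (fun x => 210 * ka x.b x.b' * De x.b x.b') ∧
    PB fun x => Phi x.b x.b' x.k x.k' x.s := by
  have b := pv (v := X.b) fun x => x.h.2.1
  have b' := pv (v := X.b') fun x => x.h.2.2.1
  have k := pv (v := X.k) fun x => x.h.2.2.2.1
  have k' := pv (v := X.k') fun x => x.h.2.2.2.2.1
  have s : PB X.s := ⟨1, fun x => by
    have := x.h.2.2.2.2.2
    rw [iv, mem_Icc, ← abs_le] at this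
    exact this.trans (by simp; omega)⟩
  have c := PB.const 105
  have a : PB fun x => al x.b := b.QS b
  have a' : PB fun x => al x.b' := b'.QS b'
  have n := b.nsq
  have n' := b'.nsq
  have u := b.QS k
  have u' := b'.QS k'
  have κ : PB fun x => ka x.b x.b' := b.Q2.sub b'.Q2
  have y : PB fun x => y3 x.b x.b' x.k x.k' := (b.dot k).sub (b'.dot k')
  have D : PB fun x => De x.b x.b' := (a'.mul ((a.mul b.Q2).sub (c.mul n.sq))).sub
    (a.mul ((a'.mul b'.Q2).sub (c.mul n'.sq)))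
  have h1 : PB fun x => m1 x.b x.b' x.k x.k' := ((((a'.mul κ).add (c.mul n'.sq)).mul u).sub
    (((c.mul n).mul n').mul u')).sub (((c.mul a').mul n).mul y)
  have h2 : PB fun x => m2 x.b x.b' x.k x.k' := ((((c.mul n).mul n').mul u).add
    (((a.mul κ).sub (c.mul n.sq)).mul u')).sub (((c.mul a).mul n').mul y)
  have h3 : PB fun x => m3 x.b x.b' x.k x.k' :=
    (((a'.mul n).neg.mul u).add ((a.mul n').mul u')).add ((a.mul a').mul y)
  exact ⟨((PB.const _).mul κ).mul D, (κ.mul ((D.mul ((k.QS k).sub (k'.QS k'))).sub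
    (((h1.mul u).sub (h2.mul u')).add ((c.mul h3).mul y)))).add ((c.mul D).mul s.sq)⟩

lemma PB.tau_le {f : X → ℤ} (hf : PB f) {ε : ℝ} (hε : 0 < ε) :
    ∃ C : ℝ, 0 < C ∧ ∀ x, tau (f x).natAbs ≤ C * (x.N : ℝ) ^ ε := by
  obtain ⟨j, hj⟩ := hf
  obtain ⟨C, hC, h⟩ := MP_0ad054_nt.tau_le (ε := ε / (j + 1)) (by positivity)
  refine ⟨C * 2 ^ ε, by positivity, fun x => (h _).trans ?_⟩
  have h1 : (((f x).natAbs : ℕ) : ℝ) ≤ (2 * x.N) ^ (j + 1) := by
    have := (hj x).trans (pow_le_pow_right₀ (by have := two_le x; omega) (Nat.le_succ j))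
    rw [← Int.natCast_natAbs] at this
    exact_mod_cast this
  rw [mul_assoc, ← Real.mul_rpow (by norm_num) (Nat.cast_nonneg _)]
  refine mul_le_mul_of_nonneg_left ((Real.rpow_le_rpow (Nat.cast_nonneg _) h1
    (by positivity)).trans (le_of_eq ?_)) hC.le
  rw [← Real.rpow_natCast, ← Real.rpow_mul (by positivity)]
  congr 1; push_cast; field_simp

lemma nz {H N : ℕ} {b : V} (h : H ≤ N) (hb : b ∈ nzb H) : b ≠ 0 ∧ 1 ≤ N ∧ b ∈ bx N := by
  obtain ⟨h1, h2⟩ := mem_filter.1 hb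
  have h3 := mem_bx.1 h1
  refine ⟨fun e => h2 0 (by simp [e]), ?_, mem_bx.2 fun j => (h3 j).trans (by exact_mod_cast h)⟩
  have := h3 0
  have := abs_pos.2 (h2 0)
  omega

lemma gb_pos {b : V} (hb : b ≠ 0) : 0 < gb b := by
  refine Int.gcd_pos_of_ne_zero_right _ (mul_ne_zero (by norm_num) fun h => hb (funext fun j => ?_))
  exact pow_eq_zero_iff two_ne_zero |>.1
    ((sum_eq_zero_iff_of_nonneg fun _ _ => sq_nonneg _).1 h j (mem_univ j))

/-- the trivial bound -/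
lemma triv (hK11 : S_K11) (hG1 : S_G1) {q : ℕ} {b b' : V} (k k' : V) (s : ℤ) (hq : 1 ≤ q)
    (hb : b ≠ 0) (hb' : b' ≠ 0) : ‖SS q b b' k k' s‖ ^ 2 ≤ 210 ^ 8 * (q : ℝ) ^ 14 *
      (gb b * gb b') * (Int.gcd q (2 * ka b b') * Int.gcd q (De b b')) := by
  set Y : ℝ := 210 ^ 8 * (q : ℝ) ^ 12 * (gb b * gb b') *
    (Int.gcd q (2 * ka b b') * Int.gcd q (De b b')) with hY
  have h1 : ∀ r ∈ un q, ‖G1 q (r * ka b b') s * G11 q b b' r k k'‖ ≤ Real.sqrt Y := by
    intro r hr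
    have hr1 := (mem_filter.1 hr).2
    have a1 := hG1.1 q (r * ka b b') s hq
    have a2 := hK11 q b b' k k' r hq hb hb' (Int.isCoprime_iff_gcd_eq_one.2 hr1)
    rw [show 2 * (r * ka b b') = r * (2 * ka b b') by ring,
      Int.gcd_mul_right_right_of_gcd_eq_one (by rwa [Int.gcd_comm])] at a1
    have a3 : (Nat.gcd q 210 : ℝ) ≤ 210 := by exact_mod_cast Nat.gcd_le_right _ (by norm_num)
    have a4 : (Nat.gcd q (gb b) : ℝ) ≤ gb b := by exact_mod_cast Nat.gcd_le_right _ (gb_pos hb)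
    have a5 : (Nat.gcd q (gb b') : ℝ) ≤ gb b' := by exact_mod_cast Nat.gcd_le_right _ (gb_pos hb')
    refine Real.le_sqrt_of_sq_le ?_
    rw [norm_mul, mul_pow]
    refine (mul_le_mul a1 a2 (by positivity) (by positivity)).trans ?_
    push_cast
    calc _ ≤ q * (Int.gcd q (2 * ka b b') : ℝ) * ((q : ℝ) ^ 11 * (210 ^ 8 *
          (gb b * gb b' * Int.gcd q (De b b')))) := by gcongr
      _ = _ := by rw [hY]; ring
  have h2 : ((un q).card : ℝ) ≤ q := by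
    exact_mod_cast (card_filter_le _ _).trans (by simp)
  have h3 : ‖SS q b b' k k' s‖ ≤ q * Real.sqrt Y :=
    (norm_sum_le _ _).trans ((sum_le_card_nsmul _ _ _ h1).trans (by rw [nsmul_eq_mul]; gcongr))
  refine (pow_le_pow_left₀ (norm_nonneg _) h3 2).trans (le_of_eq ?_)
  rw [mul_pow, Real.sq_sqrt (by positivity), hY]; ring

lemma sub_Ioc {q0 : ℕ} (_h : 1 ≤ q0) : Ico q0 (2 * q0) ⊆ Ioc 0 (2 * q0) := fun q hq => by
  rw [mem_Ico] at hq; rw [mem_Ioc]; omega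

end DRP

open DRP Base

theorem pDT (hK11 : S_K11) (hG1 : S_G1) : S_DT := by
  refine ⟨fun X a ha => dt1 X _ (fun q hq => by rw [mem_Icc] at hq; rw [mem_Ioc]; omega) ha,
    fun ε hε => ?_⟩
  obtain ⟨C, hC, h⟩ := pb_all.1.tau_le hε
  refine ⟨210 ^ 4 * 2 ^ 9 * C, by positivity, fun N H q0 b b' k k' s hH hq hb hb' hk hD => ?_⟩
  obtain ⟨b0, hN, b1⟩ := nz hH hb
  obtain ⟨b0', -, b1'⟩ := nz hH hb'
  have h0 : (0 : V) ∈ bx N := mem_bx.2 (by simp)
  have h1 := h ⟨N, b, b', 0, 0, 0, hN, b1, b1', h0, h0, by simp [iv]⟩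
  have hn : (210 * ka b b' * De b b').natAbs ≠ 0 := by simp [hk, hD]
  have t1 := (dt1 _ _ (sub_Ioc hq) (mul_ne_zero two_ne_zero hk)).trans (mul_le_mul_of_nonneg_left
    ((tau_mono (Int.natAbs_dvd_natAbs.2 ⟨105 * De b b', by ring⟩) hn).trans h1) (by positivity))
  have t2 := (dt1 _ _ (sub_Ioc hq) hD).trans (mul_le_mul_of_nonneg_left
    ((tau_mono (Int.natAbs_dvd_natAbs.2 (Dvd.intro_left _ rfl)) hn).trans h1) (by positivity))
  have t3 : ∀ q ∈ Ico q0 (2 * q0), ‖SS q b b' k k' s‖ ≤ 210 ^ 4 * (2 * q0 : ℝ) ^ 7 *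
      Real.sqrt (gb b * gb b') * (Int.gcd q (2 * ka b b') + Int.gcd q (De b b')) := by
    intro q hq'
    rw [mem_Ico] at hq'
    have : (q : ℝ) ≤ 2 * q0 := by exact_mod_cast hq'.2.le
    refine (sq_le_sq₀ (norm_nonneg _) (by positivity)).1
      ((triv hK11 hG1 k k' s (by omega) b0 b0').trans ?_)
    rw [mul_pow, mul_pow, mul_pow, Real.sq_sqrt (by positivity), ← pow_mul, ← pow_mul]
    gcongr
    nlinarith [sq_nonneg ((Int.gcd q (2 * ka b b') : ℝ) - Int.gcd q (De b b'))]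
  refine (sum_le_sum t3).trans ?_
  rw [← mul_sum, sum_add_distrib]
  refine (mul_le_mul_of_nonneg_left (add_le_add t1 t2) (by positivity)).trans (le_of_eq ?_)
  push_cast; ring

theorem pDR (hK11 : S_K11) (hG1 : S_G1) (hMUL : S_MUL) (hSQ : S_SQ) (_hDT : S_DT) : S_DR := by
  classical
  intro ε hε
  have hε' : 0 < ε / 5 := by positivity
  obtain ⟨C1, hC1, h1⟩ := pb_all.1.tau_le hε'
  obtain ⟨C2, hC2, h2⟩ := pb_all.2.tau_le hε'
  obtain ⟨C3, hC3, h3⟩ := tau_le hε'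
  refine ⟨210 ^ 4 * 2 ^ 8 * (C1 ^ 3 * C2 * (C3 * 2 ^ (ε / 5))), by positivity,
    fun N H q0 b b' k k' s hH hq hqN hb hb' hk hk' hs hκ hD hP => ?_⟩
  obtain ⟨b0, hN, b1⟩ := nz hH hb
  obtain ⟨b0', -, b1'⟩ := nz hH hb'
  replace h1 := h1 ⟨N, b, b', k, k', s, hN, b1, b1', hk, hk', hs⟩
  replace h2 := h2 ⟨N, b, b', k, k', s, hN, b1, b1', hk, hk', hs⟩
  dsimp only at h1 h2
  set n := (210 * ka b b' * De b b').natAbs with hn'
  have hn : n ≠ 0 := by simp [hn', hκ, hD]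
  set E : ℝ := (N : ℝ) ^ (ε / 5) with hE
  have hE0 : 0 ≤ E := by positivity
  set τ : ℝ := C3 * 2 ^ (ε / 5) * E with hτ
  set A : ℝ := τ * 210 ^ 4 * (2 ^ 7 * q0 ^ 6 * Real.sqrt q0) *
    Real.sqrt (gb b * gb b' * Ga b b') with hA
  set M := (Ioc 0 (2 * q0)).filter fun m => ∀ p, p.Prime → p ∣ m → p ∣ n with hM
  have key := cover (2 * q0) (Ico q0 (2 * q0))
    (n.divisors ×ˢ (Phi b b' k k' s).natAbs.divisors ×ˢ M) (fun t => t.1 * t.2.1 * t.2.2)
    (fun t => A * (t.1 * t.2.1 * Real.sqrt t.2.2)) (fun q => ‖SS q b b' k k' s‖) (sub_Ioc hq)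
    (fun _ _ => by positivity) fun q hq' => by
      rw [mem_Ico] at hq'
      obtain ⟨q1, q2, rfl, c1, c2⟩ := split n q (by omega)
      have p1 : 0 < q1 := Nat.pos_of_mul_pos_right (by omega : 0 < q1 * q2)
      have p2 : 0 < q2 := Nat.pos_of_mul_pos_left (by omega : 0 < q1 * q2)
      have c3 : q1.Coprime q2 := by_contra fun hc => by
        obtain ⟨p, hp, e1, e2⟩ := Nat.Prime.not_coprime_iff_dvd.1 hc
        exact Nat.Prime.not_coprime_iff_dvd.2 ⟨p, hp, e1, c2 p hp e2⟩ c1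
      set u := Int.gcd q2 (2 * ka b b')
      set v := Int.gcd q2 (De b b')
      set e := Int.gcd q1 (Phi b b' k k' s)
      have u1 : u ∣ (2 * ka b b').natAbs := Nat.gcd_dvd_right _ _
      have v1 : v ∣ (De b b').natAbs := Nat.gcd_dvd_right _ _
      obtain ⟨m, hm⟩ : Nat.lcm u v ∣ q2 := Nat.lcm_dvd (gcd_dvd _ _) (gcd_dvd _ _)
      have d1 : Nat.lcm u v ∣ n := Nat.lcm_dvd
        (u1.trans (Int.natAbs_dvd_natAbs.2 ⟨105 * De b b', by ring⟩))
        (v1.trans (Int.natAbs_dvd_natAbs.2 (Dvd.intro_left _ rfl)))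
      have g1 : Nat.gcd u v ≤ 2 * Ga b b' := by
        refine Nat.le_of_dvd (mul_pos two_pos (Int.gcd_pos_of_ne_zero_left _ hD)) ?_
        rw [Ga, Int.gcd, ← Nat.gcd_mul_left]
        exact Nat.dvd_gcd (((Nat.gcd_dvd_right u v).trans v1).mul_left 2)
          ((Nat.gcd_dvd_left u v).trans (by simpa [Int.natAbs_mul] using u1))
      have m1 : m ∣ q2 := Dvd.intro_left _ hm.symm
      refine ⟨(Nat.lcm u v, e, m), mem_product.2 ⟨Nat.mem_divisors.2 ⟨d1, hn⟩, mem_product.2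
        ⟨gcd_mem _ hP, mem_filter.2 ⟨mem_Ioc.2 ⟨Nat.pos_of_dvd_of_pos m1 p2, (Nat.le_of_dvd p2
          m1).trans ((Nat.le_mul_of_pos_left _ p1).trans hq'.2.le)⟩,
          fun p hp h => c2 p hp (h.trans m1)⟩⟩⟩, ?_, ?_⟩
      · obtain ⟨c, hc⟩ := gcd_dvd q1 (Phi b b' k k' s)
        exact ⟨c, by rw [hm]; nth_rewrite 1 [hc]; ring⟩
      have a1 := hSQ q1 b b' k k' s p1 b0 b0' (Int.isCoprime_iff_gcd_eq_one.2 c1.symm)
      have a2 := triv hK11 hG1 k k' s p2 b0 b0'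
      have a3 : tau q1 ≤ τ := by
        refine (h3 q1).trans ?_
        rw [hτ, mul_assoc, hE, ← Real.mul_rpow (by norm_num) (Nat.cast_nonneg _)]
        have : q1 ≤ 2 * N := (Nat.le_mul_of_pos_right _ p2).trans (by omega)
        have : (q1 : ℝ) ≤ 2 * N := by exact_mod_cast this
        gcongr
      have a4 : (u : ℝ) * v ≤ 2 * Ga b b' * Nat.lcm u v := by
        have := Nat.mul_le_mul_right (Nat.lcm u v) g1
        rw [Nat.gcd_mul_lcm] at this
        exact_mod_cast this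
      have a5 : (q1 : ℝ) * q2 ≤ 2 * q0 := by exact_mod_cast hq'.2.le
      have a6 : (q2 : ℝ) = Nat.lcm u v * m := by exact_mod_cast hm
      have a7 : (e : ℝ) ≤ e ^ 2 := by exact_mod_cast Nat.le_self_pow two_ne_zero e
      have a8 : ‖SS q1 b b' k k' s‖ ^ 2 ≤ τ ^ 2 * (q1 : ℝ) ^ 13 * e ^ 2 := by
        refine (pow_le_pow_left₀ (norm_nonneg _) a1 2).trans ?_
        have := tau_nonneg q1
        rw [mul_pow, mul_pow, Real.sq_sqrt (by positivity)]
        calc _ ≤ τ ^ 2 * ((q1 : ℝ) ^ 6) ^ 2 * (q1 * e ^ 2) := by gcongr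
          _ = _ := by ring
      refine (sq_le_sq₀ (norm_nonneg _) (by positivity)).1 ?_
      rw [hMUL q1 q2 b b' k k' s p1 p2 c3, norm_mul, mul_pow]
      calc _ ≤ τ ^ 2 * (q1 : ℝ) ^ 13 * e ^ 2 * (210 ^ 8 * (q2 : ℝ) ^ 14 * (gb b * gb b') *
            (2 * Ga b b' * Nat.lcm u v)) :=
            mul_le_mul a8 (a2.trans (by gcongr)) (by positivity) (by positivity)
        _ = ((q1 : ℝ) * q2) ^ 13 * (τ ^ 2 * e ^ 2 * 210 ^ 8 * (gb b * gb b') * (2 * Ga b b') *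
            (Nat.lcm u v * q2)) := by ring
        _ ≤ (2 * q0) ^ 13 * (τ ^ 2 * e ^ 2 * 210 ^ 8 * (gb b * gb b') * (2 * Ga b b') *
            (Nat.lcm u v * q2)) := by gcongr
        _ = _ := by
          simp only [hA, mul_pow]
          rw [Real.sq_sqrt (by positivity), Real.sq_sqrt (by positivity),
            Real.sq_sqrt (by positivity), a6]
          ring
  refine key.trans ?_
  have e1 : ∑ t ∈ n.divisors ×ˢ (Phi b b' k k' s).natAbs.divisors ×ˢ M,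
      A * (t.1 * t.2.1 * Real.sqrt t.2.2) / ((t.1 * t.2.1 * t.2.2 : ℕ) : ℝ) =
      A * (tau n * (tau (Phi b b' k k' s).natAbs * ∑ m ∈ M, (Real.sqrt m)⁻¹)) := by
    rw [← sum_self, ← sum_self, sum_mul_sum, ← sum_product', sum_mul_sum, ← sum_product', mul_sum]
    refine sum_congr rfl fun t _ => ?_
    rw [← Real.sqrt_div_self]
    push_cast; ring
  have e2 := smooth hn M fun m hm => (mem_filter.1 hm).2
  have e3 : (N : ℝ) ^ ε = E ^ 5 := by
    rw [hE, ← Real.rpow_natCast, ← Real.rpow_mul (Nat.cast_nonneg _)]; congr 1; push_cast; ring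
  have := tau_nonneg n
  have := tau_nonneg (Phi b b' k k' s).natAbs
  rw [e1, e3]
  calc _ ≤ ((2 * q0 : ℕ) : ℝ) * (A * (C1 * E * (C2 * E * (C1 * E) ^ 2))) := by
        gcongr
        exact e2.trans (by gcongr)
    _ = _ := by rw [hA, hτ]; push_cast; ring

end Pool.Agent.P.MP_0ad054_nt.PS
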