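import Pool.Agent.P.MP_0ad054_nt.PS.StT
import Pool.Agent.P.MP_0ad054_nt.Clu.Sq
import Pool.Agent.P.MP_0ad054_nt.Clu.Sing

/-! The local factors of higher level have bounded mean square. -/

namespace Pool.Agent.P.MP_0ad054_nt.PS

open Finset Pool.Agent.Lib.H9 Pool.Agent.P.MP_0ad054_nt.Sun Pool.Agent.P.MP_0ad054_nt.Sun.SphereP
  Pool.Agent.P.MP_0ad054_nt.Clu

namespace DecP

theorem unit_le {p e : ℕ} (hp : p.Prime) (a : ℕ) (c : ℤ) (j : Fin 4)
    (v : Fin 4 → ℤ) (P : ℤ → Prop) [DecidablePred P]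
    (hP : ∀ x, P x → ¬ (p : ℤ) ∣ x ∧ (nm p e : ℤ) ∣ nsq (Function.update v j x) - c) :
    ((SingP.box p e a j j).filter P).card ≤ 2 := by
  have h7 : ∀ x, nsq (Function.update v j x) = 1 * x ^ 2 + ∑ l ∈ univ.erase j, 1 * v l ^ 2 := by
    intro x
    rw [← SingP.sum_update (fun _ => 1) v j x]; simp [nsq]
  by_cases h2p : p = 2
  · subst h2p
    refine le_trans (card_le_card ?_) (pSq.2.2.2.1 e (c - ∑ l ∈ univ.erase j, 1 * v l ^ 2))
    intro x hx
    rw [mem_filter] at hx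
    obtain ⟨h3, h4⟩ := hP x hx.2
    rw [h7] at h4
    have h8 : x ∈ Ico (0 : ℤ) (2 ^ e) := by simpa [SingP.box] using hx.1
    simp only [mem_filter]
    refine ⟨h8, by simpa using h3, ?_⟩
    have h9 : ((nm 2 e : ℕ) : ℤ) = 2 ^ (e + 1) := by simp [nm]
    rw [h9] at h4
    convert h4 using 1
    ring
  · have h2 := pSq.2.1 p e 0 1 (c - ∑ l ∈ univ.erase j, 1 * v l ^ 2) hp h2p (Nat.zero_le _)
      (fun hd => by
        have h1 := Int.le_of_dvd (by norm_num) hd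
        have := hp.two_le
        omega)
    rw [pow_zero p, mul_one] at h2
    refine le_trans (card_le_card ?_) h2
    intro x hx
    rw [mem_filter] at hx
    obtain ⟨h3, h4⟩ := hP x hx.2
    rw [h7] at h4
    have h8 : x ∈ Ico (0 : ℤ) ((p : ℤ) ^ e) := by simpa [SingP.box] using hx.1
    simp only [mem_filter]
    refine ⟨h8, by simp, by simpa using h3, ?_⟩
    have h9 : ((nm p e : ℕ) : ℤ) = (p : ℤ) ^ e := by simp [nm, h2p]
    rw [h9] at h4
    convert h4 using 1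
    ring

theorem one_box {p k m : ℕ} (hp : p.Prime) (hm : m ≤ k) (c : ℤ) (j : Fin 4) :
    ((Fintype.piFinset (SingP.box p k m j)).filter
      (fun v => ¬ (p : ℤ) ∣ v j ∧ (nm p k : ℤ) ∣ nsq v - c)).card ≤ 2 * p ^ (3 * (k - m)) := by
  have h1 := SingP.avg pSq (SingP.box p k m j) j
    (fun v => ¬ (p : ℤ) ∣ v j ∧ (nm p k : ℤ) ∣ nsq v - c)
    (fun _ => True) 2 (fun _ _ _ => trivial)
    (fun v => unit_le hp m c j v _ (fun x hx => by simpa using hx))
  rw [filter_true, SingP.card_pi pSq hp hm, SingP.card_box_self] at h1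
  refine Nat.le_of_mul_le_mul_left (c := p ^ k) (h1.trans (le_of_eq ?_)) (pow_pos hp.pos _)
  rw [← pow_mul]
  ring

theorem cnt (A : Finset V) (f : V → ℤ) (M d : ℕ) (hM : M ≠ 0) (hd : d ∣ M) :
    ∑ t ∈ Ico (0 : ℤ) M, (A.filter (fun v => (d : ℤ) ∣ f v - t)).card = A.card * (M / d) := by
  simp_rw [card_filter]
  rw [sum_comm, card_eq_sum_ones, sum_mul]
  refine sum_congr rfl fun v _ => ?_
  rw [one_mul, ← pSq.1 M d (f v) hM hd, card_filter]
  refine sum_congr rfl fun t _ => ?_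
  simp only [dvd_sub_comm (b := f v)]

theorem lift (A : Finset V) (f : V → ℤ) (M d : ℕ) (hM : M ≠ 0) (hd : d ∣ M) (t : ℤ) :
    ∑ t' ∈ (Ico (0 : ℤ) M).filter (fun t' => (d : ℤ) ∣ t' - t),
      (A.filter (fun v => (M : ℤ) ∣ f v - t')).card =
      (A.filter (fun v => (d : ℤ) ∣ f v - t)).card := by
  have hd' : (d : ℤ) ∣ M := Int.natCast_dvd_natCast.mpr hd
  simp_rw [card_filter]
  rw [sum_comm]
  refine sum_congr rfl fun v _ => ?_
  rw [← card_filter, filter_filter]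
  by_cases h : (d : ℤ) ∣ f v - t
  · rw [if_pos h]
    have h1 := pSq.1 M M (f v) hM dvd_rfl
    rw [Nat.div_self (Nat.pos_of_ne_zero hM)] at h1
    rw [← h1]
    congr 1
    refine filter_congr fun x _ => ⟨fun hx => dvd_sub_comm.mp hx.2, fun hx => ⟨?_, dvd_sub_comm.mp hx⟩⟩
    have := dvd_add (hd'.trans hx) h
    rwa [show x - f v + (f v - t) = x - t by ring] at this
  · rw [if_neg h, card_eq_zero, filter_eq_empty_iff]
    intro x _ hx
    apply h
    have := dvd_add (hd'.trans hx.2) hx.1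
    rwa [show f v - x + (x - t) = f v - t by ring] at this

theorem sq_sum (A : Finset V) (f : V → ℤ) (M d : ℕ) (hM : M ≠ 0) (hd : d ∣ M) :
    ∑ t ∈ Ico (0 : ℤ) M, ((A.filter (fun v => (d : ℤ) ∣ f v - t)).card : ℝ) ^ 2 ≤
      (A.card : ℝ) ^ 2 * ((M / d : ℕ) : ℝ) := by
  have h1 : ∑ t ∈ Ico (0 : ℤ) M, ((A.filter (fun v => (d : ℤ) ∣ f v - t)).card : ℝ) =
      A.card * ((M / d : ℕ) : ℝ) := by exact_mod_cast cnt A f M d hM hd
  calc _ ≤ ∑ t ∈ Ico (0 : ℤ) M, (A.card : ℝ) * ((A.filter (fun v => (d : ℤ) ∣ f v - t)).card : ℝ) := by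
        refine sum_le_sum fun t _ => ?_
        rw [sq]
        exact mul_le_mul_of_nonneg_right (by exact_mod_cast card_filter_le _ _) (by positivity)
    _ = _ := by rw [← mul_sum, h1]; ring

open Classical in
theorem xx_eq (hInv : S_Inv) {p k m : ℕ} (hp : p.Prime) (hk : 2 ≤ k)
    (hm : if p ≤ 3 then 2 * m + 8 ≤ k else 2 * m ≤ k) (c t : ℤ) :
    xx p k c t = (p : ℝ) ^ k / (P0 p k c).card *
      ((((P0 p k c).filter (sg p m)).filter (fun v => ((p ^ k : ℕ) : ℤ) ∣ Q2 v - t)).card -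
        (((P0 p k c).filter (sg p m)).filter
          (fun v => ((p ^ (k - 1) : ℕ) : ℤ) ∣ Q2 v - t)).card / p) := by
  have hp0 : (p : ℝ) ≠ 0 := by exact_mod_cast hp.ne_zero
  have hsplit : ∀ D : ℤ, (((P0 p k c).filter (fun v => D ∣ Q2 v - t)).card : ℝ) =
      (((P0 p k c).filter (sg p m)).filter (fun v => D ∣ Q2 v - t)).card +
      (((P0 p k c).filter (fun v => ¬ sg p m v)).filter (fun v => D ∣ Q2 v - t)).card := by
    intro D
    rw [filter_comm, filter_comm (fun v => ¬ sg p m v)]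
    exact_mod_cast (card_filter_add_card_filter_not (sg p m)).symm
  have hl := lift ((P0 p k c).filter (fun v => ¬ sg p m v)) Q2 (p ^ k) (p ^ (k - 1))
    (pow_ne_zero _ hp.ne_zero) (pow_dvd_pow _ (Nat.sub_le _ _)) t
  have hc : ∀ t' ∈ (Ico (0 : ℤ) ((p ^ k : ℕ) : ℤ)).filter
      (fun t' => ((p ^ (k - 1) : ℕ) : ℤ) ∣ t' - t),
      (((P0 p k c).filter (fun v => ¬ sg p m v)).filter
        (fun v => ((p ^ k : ℕ) : ℤ) ∣ Q2 v - t')).card =
      (((P0 p k c).filter (fun v => ¬ sg p m v)).filter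
        (fun v => ((p ^ k : ℕ) : ℤ) ∣ Q2 v - t)).card := by
    intro t' ht'
    rw [mem_filter] at ht'
    have := hInv p k m c t' t hp hk hm (by simpa using ht'.2)
    rw [filter_filter, filter_filter]
    simpa using this
  rw [sum_congr rfl hc, sum_const, pSq.1 (p ^ k) (p ^ (k - 1)) t (pow_ne_zero _ hp.ne_zero)
    (pow_dvd_pow _ (Nat.sub_le _ _)), Nat.pow_div (Nat.sub_le _ _) hp.pos,
    show k - (k - 1) = 1 by omega, pow_one, smul_eq_mul] at hl
  have hl' : (p : ℝ) * (((P0 p k c).filter (fun v => ¬ sg p m v)).filter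
        (fun v => ((p ^ k : ℕ) : ℤ) ∣ Q2 v - t)).card =
      (((P0 p k c).filter (fun v => ¬ sg p m v)).filter
        (fun v => ((p ^ (k - 1) : ℕ) : ℤ) ∣ Q2 v - t)).card := by exact_mod_cast hl
  have hpk : (p : ℝ) ^ k = p * (p : ℝ) ^ (k - 1) := by
    rw [← pow_succ']; congr 1; omega
  rw [xx, max_eq_left hk, rk, rk, hsplit, hsplit]
  simp only [Nat.cast_pow] at hl' ⊢
  rw [← hl', hpk]
  field_simp
  ring

open Classical in
theorem main (hInv : S_Inv) (hSg : S_Sg) {c0 : ℝ} (hc0 : 0 < c0) {p k m : ℕ} (hp : p.Prime)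
    (hk : 2 ≤ k) (hm : if p ≤ 3 then 2 * m + 8 ≤ k else 2 * m ≤ k) (hm1 : 1 ≤ m) (hm3 : k ≤ 3 * m)
    (c : ℤ) (hP : (P0 p k c).Nonempty → c0 * (p : ℝ) ^ (3 * k) ≤ (P0 p k c).card) :
    ∑ t ∈ Ico (0 : ℤ) ((p : ℤ) ^ k), xx p k c t ^ 2 ≤ 128 / c0 ^ 2 := by
  have hp1 : (1 : ℝ) ≤ p := by exact_mod_cast hp.one_le
  have hp0 : (0 : ℝ) < p := by linarith
  have hmk : m ≤ k := by split_ifs at hm <;> omega
  simp_rw [xx_eq hInv hp hk hm c]
  rcases (P0 p k c).eq_empty_or_nonempty with h0 | h0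
  · rw [h0]
    simp only [card_empty, Nat.cast_zero, div_zero, zero_mul]
    simp only [ne_eq, OfNat.ofNat_ne_zero, not_false_eq_true, zero_pow, sum_const_zero]
    positivity
  have hP' := hP h0
  set A := (P0 p k c).filter (sg p m) with hA
  have hS : (A.card : ℝ) ≤ 8 * (p : ℝ) ^ (3 * (k - m)) := by
    exact_mod_cast hSg p k m c hp hm1 hmk
  have h1 := sq_sum A Q2 (p ^ k) (p ^ k) (pow_ne_zero _ hp.ne_zero) dvd_rfl
  have h2 := sq_sum A Q2 (p ^ k) (p ^ (k - 1)) (pow_ne_zero _ hp.ne_zero)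
    (pow_dvd_pow _ (Nat.sub_le _ _))
  rw [Nat.div_self (pow_pos hp.pos _), Nat.cast_one, mul_one] at h1
  rw [Nat.pow_div (Nat.sub_le _ _) hp.pos, show k - (k - 1) = 1 by omega, pow_one] at h2
  have hI : Ico (0 : ℤ) ((p : ℤ) ^ k) = Ico (0 : ℤ) ((p ^ k : ℕ) : ℤ) := by simp
  rw [hI]
  have hN : (0 : ℝ) < (P0 p k c).card := by exact_mod_cast h0.card_pos
  have hw : (p : ℝ) ^ k / (P0 p k c).card * A.card ≤ 8 / c0 := by
    rw [div_mul_eq_mul_div, div_le_div_iff₀ hN hc0]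
    have h3 : (p : ℝ) ^ k * (p : ℝ) ^ (3 * (k - m)) ≤ (p : ℝ) ^ (3 * k) := by
      rw [← pow_add]
      exact pow_le_pow_right₀ hp1 (by omega)
    calc (p : ℝ) ^ k * A.card * c0 ≤ (p : ℝ) ^ k * (8 * (p : ℝ) ^ (3 * (k - m))) * c0 := by gcongr
      _ = 8 * (c0 * ((p : ℝ) ^ k * (p : ℝ) ^ (3 * (k - m)))) := by ring
      _ ≤ 8 * (c0 * (p : ℝ) ^ (3 * k)) := by gcongr
      _ ≤ _ := by linarith
  calc _ ≤ ∑ t ∈ Ico (0 : ℤ) ((p ^ k : ℕ) : ℤ), ((p : ℝ) ^ k / (P0 p k c).card) ^ 2 *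
        (((A.filter (fun v => ((p ^ k : ℕ) : ℤ) ∣ Q2 v - t)).card : ℝ) ^ 2 +
          ((A.filter (fun v => ((p ^ (k - 1) : ℕ) : ℤ) ∣ Q2 v - t)).card : ℝ) ^ 2 / p ^ 2) := by
        refine sum_le_sum fun t _ => ?_
        rw [mul_pow]
        refine mul_le_mul_of_nonneg_left ?_ (sq_nonneg _)
        rw [← div_pow]
        have h5 : (0 : ℝ) ≤ ((A.filter (fun v => ((p ^ k : ℕ) : ℤ) ∣ Q2 v - t)).card : ℝ) *
            (((A.filter (fun v => ((p ^ (k - 1) : ℕ) : ℤ) ∣ Q2 v - t)).card : ℝ) / p) := by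
          positivity
        nlinarith
    _ ≤ ((p : ℝ) ^ k / (P0 p k c).card) ^ 2 * (2 * (A.card : ℝ) ^ 2) := by
        rw [← mul_sum, sum_add_distrib, ← sum_div]
        refine mul_le_mul_of_nonneg_left ?_ (sq_nonneg _)
        have h6 : (A.card : ℝ) ^ 2 * p / p ^ 2 ≤ (A.card : ℝ) ^ 2 := by
          rw [div_le_iff₀ (by positivity)]
          refine mul_le_mul_of_nonneg_left ?_ (sq_nonneg _)
          nlinarith
        have h7 := div_le_div_of_nonneg_right h2 (sq_nonneg (p : ℝ))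
        linarith
    _ = 2 * ((p : ℝ) ^ k / (P0 p k c).card * A.card) ^ 2 := by ring
    _ ≤ 2 * (8 / c0) ^ 2 := by gcongr
    _ = 128 / c0 ^ 2 := by field_simp; norm_num

theorem triv (hXX : S_XX) {p k : ℕ} (hp : p.Prime) (h3 : p ≤ 3) (hk : 1 ≤ k) (hk2 : k ≤ 27)
    (c : ℤ) : ∑ t ∈ Ico (0 : ℤ) ((p : ℤ) ^ k), xx p k c t ^ 2 ≤ 3 ^ 81 := by
  have h1 : (p : ℝ) ^ k ≤ 3 ^ 27 := by
    have h4 : (p : ℝ) ≤ 3 := by exact_mod_cast h3
    exact (pow_le_pow_left₀ (by positivity) h4 k).trans (pow_le_pow_right₀ (by norm_num) hk2)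
  calc _ ≤ ∑ _t ∈ Ico (0 : ℤ) ((p : ℤ) ^ k), ((3 : ℝ) ^ 27) ^ 2 := by
        refine sum_le_sum fun t _ => ?_
        rw [← sq_abs]
        exact pow_le_pow_left₀ (abs_nonneg _) (((hXX p k c hp hk).1 t).trans h1) 2
    _ = (p : ℝ) ^ k * ((3 : ℝ) ^ 27) ^ 2 := by
        rw [sum_const, Int.card_Ico, sub_zero, ← Nat.cast_pow, Int.toNat_natCast, nsmul_eq_mul,
          Nat.cast_pow]
    _ ≤ 3 ^ 27 * ((3 : ℝ) ^ 27) ^ 2 := by gcongr
    _ = 3 ^ 81 := by rw [← pow_mul, ← pow_add]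

end DecP

open Classical in
theorem pSg : S_Sg := by
  intro p k m c hp hm1 hm
  have hsub : (P0 p k c).filter (sg p m) ⊆ univ.biUnion (fun j : Fin 4 =>
      (Fintype.piFinset (SingP.box p k m j)).filter
        (fun v => ¬ (p : ℤ) ∣ v j ∧ (nm p k : ℤ) ∣ nsq v - c)) := by
    intro v hv
    rw [mem_filter, P0, mem_filter] at hv
    obtain ⟨⟨h1, h2, h3⟩, j, hj⟩ := hv
    rw [mem_biUnion]
    refine ⟨j, mem_univ _, mem_filter.mpr ⟨?_, ?_, h3⟩⟩
    · rw [Fintype.mem_piFinset]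
      intro l
      have h4 : v l ∈ Ico (0 : ℤ) ((p : ℤ) ^ k) := by
        have := Fintype.mem_piFinset.mp h1 l
        simpa using this
      by_cases hl : l = j
      · rw [SingP.box, if_pos hl]; exact h4
      · rw [SingP.box, if_neg hl]; exact mem_filter.mpr ⟨h4, hj l hl⟩
    · intro hd
      apply h2
      intro i
      by_cases hi : i = j
      · rw [hi]; exact hd
      · exact (dvd_pow_self _ (by omega)).trans (hj i hi)
  refine (card_le_card hsub).trans (card_biUnion_le.trans ?_)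
  refine (sum_le_sum fun j _ => DecP.one_box hp hm c j).trans (le_of_eq ?_)
  simp only [sum_const, card_univ, Fintype.card_fin, smul_eq_mul]
  ring

theorem pDec (hXX : S_XX) (hP0 : S_P0) (hInv : S_Inv) (hSg : S_Sg) : S_Dec := by
  obtain ⟨c0, hc0, hP⟩ := hP0
  refine ⟨128 / c0 ^ 2 + 3 ^ 81, by positivity, fun p k c hp hk => ?_⟩
  have hp0 : (0 : ℝ) < p := by exact_mod_cast hp.pos
  rw [uu]
  refine div_le_div_of_nonneg_right ?_ (by positivity)
  have hA : (0 : ℝ) ≤ 128 / c0 ^ 2 := by positivity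
  have hB : (0 : ℝ) ≤ 3 ^ 81 := by positivity
  by_cases h3 : p ≤ 3
  · by_cases hk2 : k ≤ 27
    · exact (DecP.triv hXX hp h3 (by omega) hk2 c).trans (le_add_of_nonneg_left hA)
    · exact (DecP.main hInv hSg hc0 (m := (k - 8) / 2) hp hk (by rw [if_pos h3]; omega) (by omega)
        (by omega) c (hP p k c hp hk)).trans (le_add_of_nonneg_right hB)
  · exact (DecP.main hInv hSg hc0 (m := k / 2) hp hk (by rw [if_neg h3]; omega) (by omega)
      (by omega) c (hP p k c hp hk)).trans (le_add_of_nonneg_right hB)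

end Pool.Agent.P.MP_0ad054_nt.PS
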