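import Pool.Agent.P.MP_0ad054_nt.PS.Base

/-! Equidistribution of the dual vectors modulo `p`. -/

namespace Pool.Agent.P.MP_0ad054_nt.PS

open Finset Pool.Agent.Lib.H9 Pool.Agent.P.MP_0ad054_nt.Sun Pool.Agent.P.MP_0ad054_nt.Sun.SphereP
  Pool.Agent.P.MP_0ad054_nt.Clu
open scoped Real ComplexConjugate

namespace EQP

/-- periodic modulo `p` -/
def Pr (p : ℕ) (w : V → ℝ) : Prop := ∀ k l : V, (∀ j, (p : ℤ) ∣ k j - l j) → w k = w l

/-- the Gaussian summed over a residue class -/
noncomputable def PP (p : ℕ) (R : ℝ) (b c : V) (θ x : ℝ) : ℝ :=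
  ∏ j, vth (R / p) (((x + cz j * θ) * b j - c j) / p)

noncomputable def AA (p : ℕ) (R : ℝ) (b c : V) (θ : ℝ) : ℝ := ∫ x in (0 : ℝ)..1, PP p R b c θ x

noncomputable def AS (p : ℕ) (R : ℝ) (b c : V) (θ : ℝ) : ℝ :=
  ∫ x in (0 : ℝ)..1, PP p R b c θ (p * x)

variable {p : ℕ} {R : ℝ}

lemma Pr.mul {u w : V → ℝ} (hu : Pr p u) (hw : Pr p w) : Pr p fun c => u c * w c :=
  fun k l e => congrArg₂ (· * ·) (hu k l e) (hw k l e)

lemma per_int (hp : 1 ≤ p) {f : ℝ → ℝ} (hf : Continuous f) (h : Function.Periodic f 1) :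
    ∫ x in (0 : ℝ)..1, f (p * x) = ∫ x in (0 : ℝ)..1, f x := by
  have h0 : (p : ℝ) ≠ 0 := by positivity
  have h1 := h.intervalIntegral_add_zsmul_eq (p : ℤ) 0 fun _ _ => hf.intervalIntegrable _ _
  simp only [zero_add, zsmul_eq_mul, Int.cast_natCast, mul_one] at h1
  rw [intervalIntegral.integral_comp_mul_left _ h0, mul_zero, mul_one, h1, smul_eq_mul,
    inv_mul_cancel_left₀ h0]

lemma red_dvd (p : ℕ) (k : V) (j : Fin 4) : (p : ℤ) ∣ k j % p - k j :=
  ⟨-(k j / p), by linear_combination Int.emod_add_mul_ediv (k j) p⟩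

lemma shift (hp : 1 ≤ p) {w : V → ℝ} (hw : Pr p w) (v : V) :
    ∑ c ∈ res p, w (c + v) = ∑ c ∈ res p, w c := by
  have h0 : p ≠ 0 := by omega
  refine sum_nbij' (fun c j => (c + v) j % p) (fun c j => (c - v) j % p)
    (fun c _ => emod_mem_res h0 _) (fun c _ => emod_mem_res h0 _) (fun c hc => ?_) (fun c hc => ?_)
    fun c _ => (hw _ _ (red_dvd p _)).symm
  · refine eq_of_mem_res (emod_mem_res h0 _) hc fun j => ?_
    have := dvd_add (red_dvd p ((fun j => (c + v) j % p) - v) j) (red_dvd p (c + v) j)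
    simp only [Pi.sub_apply, Pi.add_apply] at this ⊢
    exact this.trans (dvd_of_eq (by ring))
  · refine eq_of_mem_res (emod_mem_res h0 _) hc fun j => ?_
    have := dvd_add (red_dvd p ((fun j => (c - v) j % p) + v) j) (red_dvd p (c - v) j)
    simp only [Pi.sub_apply, Pi.add_apply] at this ⊢
    exact this.trans (dvd_of_eq (by ring))

lemma PP_per (hVT : S_VT) (hp : 1 ≤ p) (hR : 0 < R) (b : V) (θ x : ℝ) :
    Pr p fun c => PP p R b c θ x := fun k l h => by
  have h0 : (p : ℝ) ≠ 0 := by positivity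
  refine prod_congr rfl fun j _ => ?_
  obtain ⟨m, hm⟩ := h j
  rw [← (hVT (R / p) (by positivity)).2.2.1 _ m]
  congr 1
  have : (k j : ℝ) = l j + p * m := by exact_mod_cast eq_add_of_sub_eq' hm
  rw [this]
  field_simp
  ring

lemma PP_x (b c : V) (θ x : ℝ) : PP p R b (c + b) θ (x + 1) = PP p R b c θ x :=
  prod_congr rfl fun j _ => by
    congr 2
    simp only [Pi.add_apply]
    push_cast
    ring

lemma PP_th (b c : V) (θ x : ℝ) : PP p R b (c + Cm b) (θ + 1) x = PP p R b c θ x :=
  prod_congr rfl fun j _ => by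
    congr 2
    simp only [Pi.add_apply, Cm]
    push_cast
    ring

lemma PP_nonneg (b c : V) (θ x : ℝ) : 0 ≤ PP p R b c θ x :=
  prod_nonneg fun _ _ => Base.vth_nonneg _ _

lemma PP_cont (hVT : S_VT) (hp : 1 ≤ p) (hR : 0 < R) (b c : V) :
    Continuous fun z : ℝ × ℝ => PP p R b c z.1 z.2 := by
  have := (hVT (R / p) (by positivity)).1
  unfold PP
  fun_prop

lemma AA_cont (hVT : S_VT) (hp : 1 ≤ p) (hR : 0 < R) (b c : V) : Continuous (AA p R b c) :=
  intervalIntegral.continuous_parametric_intervalIntegral_of_continuous'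
    (f := fun θ x => PP p R b c θ x) (PP_cont hVT hp hR b c) 0 1

lemma AS_cont (hVT : S_VT) (hp : 1 ≤ p) (hR : 0 < R) (b c : V) : Continuous (AS p R b c) :=
  intervalIntegral.continuous_parametric_intervalIntegral_of_continuous'
    (f := fun θ x => PP p R b c θ (p * x))
    ((PP_cont hVT hp hR b c).comp (f := fun z : ℝ × ℝ => (z.1, p * z.2)) (by fun_prop)) 0 1

lemma AA_nonneg (b c : V) (θ : ℝ) : 0 ≤ AA p R b c θ :=
  intervalIntegral.integral_nonneg zero_le_one fun _ _ => PP_nonneg _ _ _ _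

lemma AA_per (hVT : S_VT) (hp : 1 ≤ p) (hR : 0 < R) (b : V) (θ : ℝ) :
    Pr p fun c => AA p R b c θ := fun k l h =>
  intervalIntegral.integral_congr fun x _ => PP_per hVT hp hR b θ x k l h

lemma AA_th (b c : V) (θ : ℝ) : AA p R b (c + Cm b) (θ + 1) = AA p R b c θ :=
  intervalIntegral.integral_congr fun x _ => PP_th b c θ x

/-- dilation of the inner variable -/
lemma sc (hVT : S_VT) (hp : 1 ≤ p) (hR : 0 < R) (b : V) (θ : ℝ) {w : V → ℝ} (hw : Pr p w)
    (h : ∀ c, w (c + b) = w c) :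
    ∑ c ∈ res p, w c * AS p R b c θ = ∑ c ∈ res p, w c * AA p R b c θ := by
  have hc : ∀ c, Continuous fun x => w c * PP p R b c θ x := fun c =>
    continuous_const.mul ((PP_cont hVT hp hR b c).comp (f := fun x : ℝ => (θ, x)) (by fun_prop))
  have key := per_int hp (f := fun x => ∑ c ∈ res p, w c * PP p R b c θ x)
    (continuous_finsetSum _ fun c _ => hc c) fun x => by
      beta_reduce
      rw [← shift hp (w := fun c => w c * PP p R b c θ (x + 1))
        (hw.mul (PP_per hVT hp hR b θ _)) b]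
      simp only [h, PP_x]
  rw [intervalIntegral.integral_finsetSum fun c _ => (hc c).intervalIntegrable _ _,
    intervalIntegral.integral_finsetSum (f := fun c x => w c * PP p R b c θ (p * x)) fun c _ =>
      ((hc c).comp (f := fun x : ℝ => p * x) (by fun_prop)).intervalIntegrable _ _] at key
  simpa only [intervalIntegral.integral_const_mul, AS, AA] using key

/-- grouping into residue classes -/
lemma cl (hVT : S_VT) (hp : 1 ≤ p) (hR : 0 < R) (b : V) (θ : ℝ) (K : Finset V) {w : V → ℝ}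
    (hw : Pr p w) (h : ∀ c, 0 ≤ w c) :
    ∑ k ∈ K, w k * mb R b k θ ≤ ∑ c ∈ res p, w c * AA p R b c θ := by
  classical
  have h0 : (p : ℝ) ≠ 0 := by positivity
  rw [← sum_fiberwise_of_maps_to (g := fun (k : V) j => k j % p) (t := res p)
    fun k _ => emod_mem_res (by omega) k]
  refine sum_le_sum fun c _ => ?_
  rw [sum_congr rfl (g := fun k => w c * mb R b k θ) fun k hk => by
    rw [← (mem_filter.1 hk).2, hw _ _ (red_dvd p k)], ← mul_sum]
  refine mul_le_mul_of_nonneg_left ?_ (h c)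
  simp only [mb, AA]
  rw [← intervalIntegral.integral_finsetSum fun k _ =>
    Continuous.intervalIntegrable (by fun_prop) _ _]
  refine intervalIntegral.integral_mono_on zero_le_one
    (Continuous.intervalIntegrable (by fun_prop) _ _) (((PP_cont hVT hp hR b c).comp
      (f := fun x : ℝ => (θ, x)) (by fun_prop)).intervalIntegrable _ _) fun x _ => ?_
  have e : ∀ k ∈ K.filter (fun k : V => (fun j => k j % p) = c), ∀ j, k j = c j + p * (k j / p) :=
    fun k hk j => by
      rw [← (mem_filter.1 hk).2]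
      exact (Int.emod_add_mul_ediv _ _).symm
  refine le_trans (le_of_eq ?_) (Base.fin_gauss4 (r := R / p) (by positivity)
    (fun j => ((x + cz j * θ) * b j - c j) / p)
    ((K.filter fun k : V => (fun j => k j % p) = c).image fun k j => k j / p))
  rw [sum_image fun k hk l hl h => funext fun j => by rw [e k hk j, e l hl j, congrFun h j]]
  refine sum_congr rfl fun k hk => ?_
  congr 2
  rw [mul_sum, mul_sum, sum_div, sum_div]
  refine sum_congr rfl fun j _ => ?_
  have : (k j : ℝ) = c j + p * (k j / p : ℤ) := by exact_mod_cast e k hk j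
  generalize ((k j / p : ℤ) : ℝ) = m at this ⊢
  rw [this]
  field_simp
  ring

end EQP

open EQP Classical in
theorem pEQ (hEQ1 : S_EQ1) (hVT : S_VT) (hMJ : S_MJ) : S_EQ := by
  intro p R b b' φ K K' hp hR h1 h2
  have h0 : (p : ℝ) ≠ 0 := by positivity
  obtain ⟨I, hI⟩ : ∃ I : V → V → ℝ, I = fun k k' => if φ k k' then 1 else 0 := ⟨_, rfl⟩
  have i0 : ∀ k k', 0 ≤ I k k' := fun k k' => by rw [hI]; beta_reduce; split_ifs <;> norm_num
  have i1 : ∀ k k' l l' : V, (∀ j, (p : ℤ) ∣ k j - l j) → (∀ j, (p : ℤ) ∣ k' j - l' j) →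
      I k k' = I l l' := fun k k' l l' e e' => by
    rw [hI]
    exact if_congr ⟨h1 k k' l l' e e', h1 l l' k k' (fun j => dvd_sub_comm.1 (e j))
      fun j => dvd_sub_comm.1 (e' j)⟩ rfl rfl
  have p1 : ∀ θ, Pr p fun c => ∑ c' ∈ res p, I c c' * AA p R b' c' θ := fun θ k l e =>
    sum_congr rfl fun c' _ => by rw [i1 k c' l c' e fun j => by simp]
  have p2 : ∀ k, Pr p (I k) := fun k k' l' e => i1 _ _ _ _ (fun j => by simp) e
  obtain ⟨S, hS⟩ : ∃ S : ℝ → ℝ, S = fun θ =>
      ∑ c ∈ res p, (∑ c' ∈ res p, I c c' * AA p R b' c' θ) * AA p R b c θ := ⟨_, rfl⟩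
  have cS : Continuous S := by
    rw [hS]
    exact continuous_finsetSum _ fun c _ => (continuous_finsetSum _ fun c' _ =>
      continuous_const.mul (AA_cont hVT hp hR b' c')).mul (AA_cont hVT hp hR b c)
  have pS : Function.Periodic S 1 := fun θ => by
    rw [hS]
    beta_reduce
    rw [← shift hp ((p1 (θ + 1)).mul (AA_per hVT hp hR b (θ + 1))) (Cm b)]
    refine sum_congr rfl fun c _ => ?_
    rw [← shift hp ((p2 (c + Cm b)).mul (AA_per hVT hp hR b' (θ + 1))) (Cm b'), AA_th]
    simp only [AA_th, hI, (h2 _ _).2.2]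
  have m1 := (hMJ R b hR).1
  have m2 := (hMJ R b' hR).1
  have s1 : ∑ k ∈ K, ∑ k' ∈ K', (if φ k k' then mm R b b' k k' else 0) ≤
      ∫ θ in (0 : ℝ)..1, S θ := by
    have e : ∀ k k', (if φ k k' then mm R b b' k k' else 0) =
        ∫ θ in (0 : ℝ)..1, I k k' * mb R b' k' θ * mb R b k θ := fun k k' => by
      rw [hI]
      beta_reduce
      split_ifs
      · simp only [mm, one_mul, mul_comm]
      · simp
    have c : ∀ k k', Continuous fun θ => I k k' * mb R b' k' θ * mb R b k θ := fun k k' =>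
      (continuous_const.mul (m2 k')).mul (m1 k)
    simp only [e]
    rw [sum_congr rfl fun k _ => (intervalIntegral.integral_finsetSum fun k' _ =>
      (c k k').intervalIntegrable _ _).symm, ← intervalIntegral.integral_finsetSum fun k _ =>
      (continuous_finsetSum _ fun k' _ => c k k').intervalIntegrable _ _]
    refine intervalIntegral.integral_mono_on zero_le_one ((continuous_finsetSum _ fun k _ =>
      continuous_finsetSum _ fun k' _ => c k k').intervalIntegrable _ _)
      (cS.intervalIntegrable _ _) fun θ _ => ?_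
    rw [hS]
    refine le_trans (sum_le_sum fun k _ => ?_) (cl hVT hp hR b θ K (p1 θ)
      fun c => sum_nonneg fun c' _ => mul_nonneg (i0 _ _) (AA_nonneg _ _ _))
    rw [← sum_mul]
    exact mul_le_mul_of_nonneg_right (cl hVT hp hR b' θ K' (p2 k) (i0 k))
      ((hMJ R b hR).2.2.1 k θ).1
  have s2 : ∀ θ, S θ = ∑ c ∈ res p, ∑ c' ∈ res p, I c c' * (AS p R b c θ * AS p R b' c' θ) := by
    intro θ
    rw [hS]
    beta_reduce
    rw [← sc hVT hp hR b θ (p1 θ) fun c => by simp only [hI, (h2 _ _).1]]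
    refine sum_congr rfl fun c _ => ?_
    rw [← sc hVT hp hR b' θ (p2 c) fun c' => by simp only [hI, (h2 _ _).2.1], sum_mul]
    exact sum_congr rfl fun c' _ => by ring
  have c3 : ∀ c c', Continuous fun θ : ℝ =>
      I c c' * (AS p R b c (p * θ) * AS p R b' c' (p * θ)) := fun c c' =>
    continuous_const.mul (((AS_cont hVT hp hR b c).comp (by fun_prop)).mul
      ((AS_cont hVT hp hR b' c').comp (by fun_prop)))
  have e3 : ∀ (b c : V) (θ : ℝ), AS p R b c (p * θ) =
      ∫ x in (0 : ℝ)..1, ∏ j, vth (R / p) ((x + cz j * θ) * b j + -(c j : ℝ) / p) :=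
    fun b c θ => intervalIntegral.integral_congr fun x _ => prod_congr rfl fun j _ => by
      congr 1
      field_simp
      ring
  refine s1.trans ?_
  rw [← per_int hp cS pS]
  simp only [s2]
  rw [intervalIntegral.integral_finsetSum fun c _ =>
    (continuous_finsetSum _ fun c' _ => c3 c c').intervalIntegrable _ _,
    sum_congr rfl fun c _ => intervalIntegral.integral_finsetSum fun c' _ =>
      (c3 c c').intervalIntegrable _ _, card_filter, Nat.cast_sum, sum_product, mul_assoc, sum_mul]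
  refine sum_le_sum fun c _ => ?_
  rw [sum_mul]
  refine sum_le_sum fun c' _ => ?_
  rw [intervalIntegral.integral_const_mul, Nat.cast_ite, Nat.cast_one, Nat.cast_zero]
  refine le_trans (mul_le_mul_of_nonneg_left ?_ (i0 c c')) (le_of_eq (by rw [hI]))
  simp only [e3]
  simpa only [one_div_div] using hEQ1 (R / p) b b' (fun j => -(c j : ℝ) / p)
    (fun j => -(c' j : ℝ) / p) (by positivity)

end Pool.Agent.P.MP_0ad054_nt.PS
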