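import Pool.Agent.P.MP_0ad054_nt.PS.St

/-! The Fourier expansion of products of periodic Gaussians on the torus. -/

namespace Pool.Agent.P.MP_0ad054_nt.PS

open Finset Pool.Agent.Lib.H9 Pool.Agent.P.MP_0ad054_nt.Sun Pool.Agent.P.MP_0ad054_nt.Sun.SphereP
  Pool.Agent.P.MP_0ad054_nt.Clu
open scoped Real ComplexConjugate

namespace EQ1P

theorem cont (m : ℤ) : Continuous fun x : ℝ => e (x * m) := by
  unfold e
  fun_prop

theorem orth (m : ℤ) : ∫ x in (0 : ℝ)..1, e (x * m) = if m = 0 then 1 else 0 := by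
  split_ifs with h
  · simp [h, e_zero]
  · have hc : (2 * π * Complex.I * m : ℂ) ≠ 0 := by
      simp [h, Real.pi_ne_zero]
    have h1 : ∀ x : ℝ, e (x * m) = Complex.exp (2 * π * Complex.I * m * x) := fun x => by
      unfold e
      congr 1
      push_cast
      ring
    simp only [h1]
    rw [integral_exp_mul_complex hc, ← h1, ← h1, one_mul, zero_mul, e_int, e_zero, sub_self,
      zero_div]

theorem int_tsum {ι : Type} [Countable ι] {c : ι → ℂ} (hc : Summable fun i => ‖c i‖)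
    (m : ι → ℤ) :
    ∫ x in (0 : ℝ)..1, ∑' i, c i * e (x * m i) = ∑' i, if m i = 0 then c i else 0 := by
  have h := MeasureTheory.integral_tsum_of_summable_integral_norm
    (μ := MeasureTheory.volume.restrict (Set.Ioc (0 : ℝ) 1))
    (F := fun i (x : ℝ) => c i * e (x * m i))
    (fun i => (continuous_const.mul (cont (m i))).integrableOn_Ioc)
    (by simpa [norm_e] using hc)
  rw [intervalIntegral.integral_of_le zero_le_one, ← h]
  refine tsum_congr fun i => ?_
  rw [← intervalIntegral.integral_of_le zero_le_one, intervalIntegral.integral_const_mul, orth]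
  split_ifs <;> simp

/-- the Fourier coefficients -/
noncomputable def g (r : ℝ) (h : ℤ) : ℝ := r * Real.exp (-(π * r ^ 2 * h ^ 2))

theorem g_nonneg {r : ℝ} (hr : 0 < r) (h : ℤ) : 0 ≤ g r h := by
  unfold g
  positivity

theorem summable_g {r : ℝ} (hr : 0 < r) : Summable (g r) := by
  have h := summable_norm_ee_sq (τ := Complex.I * (r ^ 2 / 2 : ℝ)) (by
    simp only [Complex.mul_im, Complex.I_re, Complex.I_im, Complex.ofReal_re, Complex.ofReal_im]
    positivity)
  refine (h.mul_left r).congr fun x => ?_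
  have : 2 * π * Complex.I * (Complex.I * (r ^ 2 / 2 : ℝ) * (x : ℂ) ^ 2) =
      ((-(π * r ^ 2 * x ^ 2) : ℝ) : ℂ) := by
    push_cast
    linear_combination (π * r ^ 2 * x ^ 2 : ℂ) * Complex.I_mul_I
  rw [ee, this, Complex.norm_exp_ofReal, g]

theorem poisson {r : ℝ} (hr : 0 < r) (y : ℝ) :
    (vth r y : ℂ) = ∑' h : ℤ, (g r h : ℂ) * e (h * y) := by
  have h := Complex.tsum_exp_neg_quadratic (a := ((r ^ 2 : ℝ) : ℂ))
    (by rw [Complex.ofReal_re]; positivity) (Complex.I * y)
  have h1 : ((r ^ 2 : ℝ) : ℂ) ^ (1 / 2 : ℂ) = r := by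
    rw [show (1 / 2 : ℂ) = ((1 / 2 : ℝ) : ℂ) by norm_num, ← Complex.ofReal_cpow (by positivity),
      ← Real.sqrt_eq_rpow, Real.sqrt_sq hr.le]
  have h0 : (r : ℂ) ≠ 0 := Complex.ofReal_ne_zero.2 hr.ne'
  have h2 : ∑' n : ℤ, Complex.exp (-π / ((r ^ 2 : ℝ) : ℂ) *
      (n + Complex.I * (Complex.I * y)) ^ 2) = vth r y := by
    rw [vth, Complex.ofReal_tsum]
    refine tsum_congr fun n => ?_
    rw [← mul_assoc Complex.I, Complex.I_mul_I]
    push_cast
    congr 1
    ring
  rw [h1, h2] at h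
  calc _ = (r : ℂ) * (1 / r * vth r y) := by field_simp
    _ = _ := by
      rw [← h, ← tsum_mul_left]
      refine tsum_congr fun n => ?_
      rw [g, e, Complex.exp_add]
      push_cast
      rw [mul_assoc (r : ℂ)]
      congr 3 <;> ring

/-- the coefficients in four variables -/
noncomputable def c (r : ℝ) (a : Fin 4 → ℝ) (h : V) : ℂ := ∏ j, (g r (h j) : ℂ) * e (h j * a j)

theorem norm_c {r : ℝ} (hr : 0 < r) (a : Fin 4 → ℝ) (h : V) :
    ‖c r a h‖ = r ^ 4 * Real.exp (-(π * r ^ 2 * nsq h)) := by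
  simp only [c, norm_prod, norm_mul, norm_e, mul_one, Complex.norm_real,
    Real.norm_of_nonneg (g_nonneg hr _)]
  simp only [g, Fin.prod_univ_four, nsq_eq']
  push_cast
  rw [show -(π * r ^ 2 * ((h 0 : ℝ) ^ 2 + h 1 ^ 2 + h 2 ^ 2 + h 3 ^ 2)) =
    -(π * r ^ 2 * h 0 ^ 2) + -(π * r ^ 2 * h 1 ^ 2) + -(π * r ^ 2 * h 2 ^ 2) +
      -(π * r ^ 2 * h 3 ^ 2) by ring, Real.exp_add, Real.exp_add, Real.exp_add]
  ring

theorem prod_eq {r : ℝ} (hr : 0 < r) (a : Fin 4 → ℝ) :
    (Summable fun h => ‖c r a h‖) ∧ ((∏ j, vth r (a j) : ℝ) : ℂ) = ∑' h, c r a h := by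
  have h := pi_prod_summable (fun j (x : ℤ) => (g r x : ℂ) * e (x * a j)) fun j => by
    simpa [norm_e, abs_of_nonneg (g_nonneg hr _)] using summable_g hr
  refine ⟨h.1, ?_⟩
  rw [Complex.ofReal_prod]
  simp only [poisson hr]
  exact h.2.symm

theorem c_shift (r : ℝ) (a : Fin 4 → ℝ) (b h : V) (x θ : ℝ) :
    c r (fun j => (x + cz j * θ) * b j + a j) h =
      c r a h * e (θ * QB b h) * e (x * dot h b) := by
  have k : ∀ a : Fin 4 → ℝ, c r a h = (∏ j, (g r (h j) : ℂ)) * e (∑ j, h j * a j) := fun a => by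
    simp only [c, Fin.prod_univ_four, Fin.sum_univ_four, e_add]
    ring
  rw [k, k, mul_assoc, mul_assoc, ← e_add, ← e_add]
  congr 2
  simp only [QB, dot, Fin.sum_univ_four]
  push_cast
  ring

/-- the coefficients on the lattice orthogonal to `b` -/
noncomputable def d (r : ℝ) (a : Fin 4 → ℝ) (b h : V) : ℂ := if dot h b = 0 then c r a h else 0

theorem summable_d {r : ℝ} (hr : 0 < r) (a : Fin 4 → ℝ) (b : V) :
    Summable fun h => ‖d r a b h‖ :=
  Summable.of_nonneg_of_le (fun _ => norm_nonneg _) (fun h => by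
    unfold d
    split_ifs <;> simp) (prod_eq hr a).1

theorem inner {r : ℝ} (hr : 0 < r) (a : Fin 4 → ℝ) (b : V) (θ : ℝ) :
    ((∫ x in (0 : ℝ)..1, ∏ j, vth r ((x + cz j * θ) * b j + a j) : ℝ) : ℂ) =
      ∑' h, d r a b h * e (θ * QB b h) := by
  rw [← intervalIntegral.integral_ofReal]
  simp only [(prod_eq hr _).2, c_shift]
  rw [int_tsum (c := fun h => c r a h * e (θ * QB b h))
    (by simpa [norm_e] using (prod_eq hr a).1) fun h => dot h b]
  refine tsum_congr fun h => ?_
  unfold d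
  split_ifs <;> simp

end EQ1P

open EQ1P in
theorem pEQ1 (_hVT : S_VT) : S_EQ1 := by
  intro r b b' a a' hr
  have s1 := summable_d hr a b
  have s2 := summable_d hr a' b'
  have s3 : Summable fun h : V × V => ‖d r a b h.1 * d r a' b' h.2‖ := s1.mul_norm s2
  have key : ((∫ θ in (0 : ℝ)..1, (∫ x in (0 : ℝ)..1, ∏ j, vth r ((x + cz j * θ) * b j + a j)) *
      ∫ x in (0 : ℝ)..1, ∏ j, vth r ((x + cz j * θ) * b' j + a' j) : ℝ) : ℂ) =
      ∑' h : V × V, if QB b h.1 + QB b' h.2 = 0 then d r a b h.1 * d r a' b' h.2 else 0 := by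
    rw [← intervalIntegral.integral_ofReal, ← int_tsum s3 fun h => QB b h.1 + QB b' h.2]
    refine intervalIntegral.integral_congr fun θ _ => ?_
    rw [Complex.ofReal_mul, inner hr, inner hr, tsum_mul_tsum_of_summable_norm
      (by simpa [norm_e] using s1) (by simpa [norm_e] using s2)]
    refine tsum_congr fun h => ?_
    push_cast
    rw [mul_add, e_add]
    ring
  set u : V × V → ℝ := fun h =>
    ‖if QB b h.1 + QB b' h.2 = 0 then d r a b h.1 * d r a' b' h.2 else 0‖ with hu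
  have s4 : Summable u := Summable.of_nonneg_of_le (fun _ => norm_nonneg _) (fun h => by
    simp only [hu]
    split_ifs
    exacts [le_rfl, by rw [norm_zero]; exact norm_nonneg _]) s3
  have e1 : ∀ h : V × V, u h = if dot h.1 b = 0 ∧ dot h.2 b' = 0 ∧ QB b h.1 + QB b' h.2 = 0 then
      r ^ 8 * Real.exp (-(π * ((nsq h.1 + nsq h.2 : ℤ) : ℝ) / (1 / r) ^ 2)) else 0 := fun h => by
    simp only [hu, d]
    by_cases h1 : dot h.1 b = 0 <;> by_cases h2 : dot h.2 b' = 0 <;>
      by_cases h3 : QB b h.1 + QB b' h.2 = 0 <;> simp only [h1, h2, h3, if_true, if_false,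
        and_self, and_true, and_false, mul_zero, zero_mul, norm_zero]
    rw [norm_mul, norm_c hr, norm_c hr, mul_mul_mul_comm, ← Real.exp_add, ← pow_add]
    congr 2
    push_cast
    field_simp
    ring
  refine (le_abs_self _).trans ?_
  rw [← Real.norm_eq_abs, ← Complex.norm_real, key]
  refine (norm_tsum_le_tsum_norm s4).trans (le_of_eq ?_)
  rw [s4.tsum_eq_add_tsum_ite 0, mul_add, L8, ← tsum_mul_left]
  congr 1
  · rw [e1]
    simp [dot, QB, nsq]
  · refine tsum_congr fun h => ?_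
    rw [e1]
    by_cases h0 : h = 0
    · simp [h0]
    · simp only [h0, if_false, ne_eq, not_false_eq_true, true_and]
      split_ifs <;> simp

end Pool.Agent.P.MP_0ad054_nt.PS
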