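import Pool.Agent.P.MP_0ad054_nt.PS.PARS

/-! Bounds for the shifted correlation sums. -/

namespace Pool.Agent.P.MP_0ad054_nt.PS

open Finset Pool.Agent.Lib.H9 Pool.Agent.P.MP_0ad054_nt.Sun Pool.Agent.P.MP_0ad054_nt.Sun.SphereP
  Pool.Agent.P.MP_0ad054_nt.Clu
open scoped Real ComplexConjugate

namespace FBP

open PARSP

theorem count {ε : ℝ} (hε : 0 < ε) : ∃ C : ℝ, 0 < C ∧ ∀ (N T : ℕ) (h : ℤ → ℝ), T ≤ N →
    (∀ k, 0 ≤ h k) → ∑ t ∈ Ioc (T : ℤ) (2 * T), ∑ τ ∈ iv (4 * N), h (2 * t * τ) ≤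
      C * (N : ℝ) ^ ε * ∑ k ∈ iv (16 * N ^ 2), h k + T * h 0 := by
  obtain ⟨C, hC, H⟩ := tau_le (ε := ε / 2) (by positivity)
  refine ⟨C * 16 ^ (ε / 2), by positivity, fun N T h hT h0 => ?_⟩
  have hT' : (T : ℤ) ≤ N := by exact_mod_cast hT
  have a0 : (0 : ℤ) ∈ iv (4 * N) := mem_Icc.2 ⟨by omega, by omega⟩
  have a1 : ∀ p ∈ Ioc (T : ℤ) (2 * T) ×ˢ (iv (4 * N)).erase 0,
      2 * p.1 * p.2 ∈ (iv (16 * N ^ 2)).erase 0 := fun p hp => by
    obtain ⟨b1, b2⟩ := mem_product.1 hp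
    obtain ⟨b3, b4⟩ := mem_Ioc.1 b1
    obtain ⟨b5, b6⟩ := mem_erase.1 b2
    refine mem_erase.2 ⟨mul_ne_zero (by omega) b5, mem_Icc.2 (abs_le.1 ?_)⟩
    have b7 : |p.2| ≤ 4 * N := by simpa using abs_le.2 (mem_Icc.1 b6)
    rw [abs_mul, abs_of_nonneg (by omega : 0 ≤ 2 * p.1)]
    refine (mul_le_mul (by omega : 2 * p.1 ≤ 4 * N) b7 (abs_nonneg _) (by omega)).trans (le_of_eq ?_)
    push_cast
    ring
  simp only [← sum_erase_add _ _ a0, sum_add_distrib, mul_zero, sum_const, nsmul_eq_mul]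
  refine add_le_add ?_ (le_of_eq ?_)
  · rw [← sum_product' _ _ fun t τ => h (2 * t * τ), ← sum_fiberwise_of_maps_to a1, mul_sum]
    refine (sum_le_sum fun k hk => ?_).trans (sum_le_sum_of_subset_of_nonneg (erase_subset 0 _)
      fun k _ _ => mul_nonneg (by positivity) (h0 k))
    obtain ⟨k0, k1⟩ := mem_erase.1 hk
    rw [sum_congr rfl fun p hp => congrArg h (mem_filter.1 hp).2, sum_const, nsmul_eq_mul]
    refine mul_le_mul_of_nonneg_right (le_trans ?_ ((H k.natAbs).trans ?_)) (h0 k)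
    · refine Nat.cast_le.2 (card_le_card_of_injOn (fun p => p.1.natAbs) (fun p hp => ?_)
        fun p hp q hq e => ?_)
      · refine Nat.mem_divisors.2 ⟨Int.natAbs_dvd_natAbs.2 ?_, Int.natAbs_ne_zero.2 k0⟩
        rw [← (mem_filter.1 hp).2]
        exact (dvd_mul_left _ _).mul_right _
      · obtain ⟨b1, b2⟩ := mem_filter.1 hp
        obtain ⟨b3, b4⟩ := mem_filter.1 hq
        have b5 := (mem_Ioc.1 (mem_product.1 b1).1).1
        have b6 := (mem_Ioc.1 (mem_product.1 b3).1).1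
        have b7 : p.1 = q.1 := by
          simp only at e
          omega
        refine Prod.ext b7 (mul_left_cancel₀ (a := 2 * p.1) (by omega) ?_)
        rw [b2, b7, b4]
    · have b1 : k.natAbs ≤ 16 * N ^ 2 := by
        have := mem_Icc.1 k1
        omega
      have b2 : (k.natAbs : ℝ) ≤ 16 * (N : ℝ) ^ (2 : ℝ) := by
        rw [Real.rpow_two]
        exact_mod_cast b1
      rw [mul_assoc]
      refine mul_le_mul_of_nonneg_left
        ((Real.rpow_le_rpow (by positivity) b2 (by positivity)).trans (le_of_eq ?_)) hC.le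
      rw [Real.mul_rpow (by norm_num) (by positivity), ← Real.rpow_mul (by positivity)]
      congr 2
      ring
  · congr 1
    rw [Int.card_Ioc, show 2 * (T : ℤ) - T = T by ring, Int.toNat_natCast]

theorem bes {ι : Type} (P : Finset ι) (a : ι → ℂ) (n : ι → ℤ) (K : Finset ℤ) :
    ∑ j ∈ K, ‖∑ p ∈ P with n p = j, a p‖ ^ 2 ≤
      ∫ x in (0 : ℝ)..1, ‖∑ p ∈ P, a p * e (-(x * n p))‖ ^ 2 := by
  have h1 : ∀ x : ℝ, ∑ p ∈ P, a p * e (-(x * n p)) =
      ∑ j ∈ K ∪ P.image n, (∑ p ∈ P with n p = j, a p) * e (-(x * j)) := fun x => by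
    rw [← sum_fiberwise_of_maps_to (g := n) (t := K ∪ P.image n)
      fun p hp => mem_union_right _ (mem_image_of_mem _ hp)]
    refine sum_congr rfl fun j _ => ?_
    rw [sum_mul]
    exact sum_congr rfl fun p hp => by rw [(mem_filter.1 hp).2]
  simp only [h1, pars]
  exact sum_le_sum_of_subset_of_nonneg subset_union_left fun _ _ _ => by positivity

variable {N : ℕ} {g : ℤ → ℂ}

theorem coef (hg : ∀ m, g m ≠ 0 → 0 ≤ m ∧ m ≤ 7 * N) (x : ℝ) (k : ℤ) :
    ∑ p ∈ Icc (0 : ℤ) (7 * N) ×ˢ Icc (0 : ℤ) (7 * N) with p.1 - p.2 = 2 * k,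
      g p.1 * e (-(x / 2 * p.1)) * conj (g p.2 * e (x / 2 * p.2)) = Dh N g k x := by
  refine sum_of_injOn (fun p => p.1 - k) (fun p hp q hq e => ?_) (fun p hp => ?_)
    (fun M hM h => ?_) fun p hp => ?_
  · have a := (mem_filter.1 hp).2
    have b := (mem_filter.1 hq).2
    simp only at e
    exact Prod.ext (by omega) (by omega)
  · obtain ⟨a, b⟩ := mem_filter.1 hp
    have c := mem_Icc.1 (mem_product.1 a).1
    have d := mem_Icc.1 (mem_product.1 a).2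
    exact mem_coe.2 (mem_Icc.2 (by simp only; omega))
  · by_contra e
    have h3 := left_ne_zero_of_mul e
    have a1 := hg _ (left_ne_zero_of_mul h3)
    have a2 := hg _ fun e => right_ne_zero_of_mul h3 (by rw [e, map_zero])
    exact h ⟨(M + k, M - k), mem_coe.2 (mem_filter.2 ⟨mem_product.2 ⟨mem_Icc.2 a1, mem_Icc.2 a2⟩,
      by ring⟩), by ring⟩
  · have a : p.2 = p.1 - k - k := by
      have := (mem_filter.1 hp).2
      omega
    rw [sub_add_cancel, ← a, map_mul, conj_e, mul_mul_mul_comm, ← e_add, a]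
    congr 2
    push_cast
    ring

theorem sum_Dh (hg : ∀ m, g m ≠ 0 → 0 ≤ m ∧ m ≤ 7 * N) {S E : ℝ}
    (hE : ∑ m ∈ Icc (0 : ℤ) (7 * N), ‖g m‖ ^ 2 ≤ E)
    (hS : ∀ β : ℝ, ‖∑ m ∈ Icc (0 : ℤ) (7 * N), g m * e (β * m)‖ ≤ S) (x : ℝ) (K : Finset ℤ) :
    ∑ k ∈ K, ‖Dh N g k x‖ ^ 2 ≤ S ^ 2 * E := by
  have ce := cont_e
  have h1 := bes (Icc (0 : ℤ) (7 * N) ×ˢ Icc (0 : ℤ) (7 * N))
    (fun p => g p.1 * e (-(x / 2 * p.1)) * conj (g p.2 * e (x / 2 * p.2))) (fun p => p.1 - p.2)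
    (K.image fun k => 2 * k)
  rw [sum_image fun a _ b _ e => by omega] at h1
  simp only [coef hg] at h1
  have h2 : ∀ β : ℝ, ∑ p ∈ Icc (0 : ℤ) (7 * N) ×ˢ Icc (0 : ℤ) (7 * N),
      g p.1 * e (-(x / 2 * p.1)) * conj (g p.2 * e (x / 2 * p.2)) * e (-(β * (p.1 - p.2 : ℤ))) =
      (∑ m ∈ Icc (0 : ℤ) (7 * N), g m * e ((-(x / 2) - β) * m)) *
        conj (∑ m ∈ Icc (0 : ℤ) (7 * N), g m * e (x / 2 * m) * e (-(β * m))) := fun β => by
    rw [map_sum, sum_mul_sum, sum_product]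
    refine sum_congr rfl fun m _ => sum_congr rfl fun m' _ => ?_
    rw [map_mul _ (g m' * e _), conj_e (-(β * m')), show (-(x / 2) - β) * m = -(x / 2 * m) + -(β * m) by ring,
      show -(β * (m - m' : ℤ)) = -(β * m) + - -(β * m') by push_cast; ring, e_add, e_add]
    ring
  simp only [h2, norm_mul, Complex.norm_conj, mul_pow] at h1
  have h3 := pars (Icc (0 : ℤ) (7 * N)) fun m => g m * e (x / 2 * m)
  simp only [norm_mul, norm_e, mul_one] at h3
  refine h1.trans (le_trans ?_ (mul_le_mul_of_nonneg_left (h3.le.trans hE) (sq_nonneg S)))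
  rw [← intervalIntegral.integral_const_mul]
  exact intervalIntegral.integral_mono_on zero_le_one
    (Continuous.intervalIntegrable (by fun_prop) _ _) (Continuous.intervalIntegrable (by fun_prop) _ _)
    fun β _ => mul_le_mul_of_nonneg_right (pow_le_pow_left₀ (norm_nonneg _) (hS _) 2) (by positivity)

theorem sum_sq (hg : ∀ m, g m ≠ 0 → 0 ≤ m ∧ m ≤ 7 * N) (K : Finset ℤ) :
    ∑ k ∈ K, ∑ M ∈ Icc (0 : ℤ) (7 * N), ‖g (M + k) * conj (g (M - k))‖ ^ 2 ≤
      (∑ m ∈ Icc (0 : ℤ) (7 * N), ‖g m‖ ^ 2) ^ 2 := by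
  simp only [norm_mul, Complex.norm_conj, mul_pow]
  rw [sq (∑ m ∈ Icc (0 : ℤ) (7 * N), _), sum_mul_sum, ← sum_product', ← sum_product',
    ← sum_image (g := fun p : ℤ × ℤ => (p.2 + p.1, p.2 - p.1))
      (f := fun q : ℤ × ℤ => ‖g q.1‖ ^ 2 * ‖g q.2‖ ^ 2) fun p _ q _ e => by
        obtain ⟨a, b⟩ := Prod.ext_iff.1 e
        simp only at a b
        exact Prod.ext (by omega) (by omega),
    ← sum_filter_of_ne (p := fun q => q ∈ Icc (0 : ℤ) (7 * N) ×ˢ Icc (0 : ℤ) (7 * N))]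
  · exact sum_le_sum_of_subset_of_nonneg (fun q hq => (mem_filter.1 hq).2) fun _ _ _ => by
      positivity
  · intro q _ h
    exact mem_product.2 ⟨mem_Icc.2 (hg _ fun e => h (by simp [e])),
      mem_Icc.2 (hg _ fun e => h (by simp [e]))⟩

end FBP

open PARSP FBP in
theorem pFB : S_FB := by
  intro ε hε
  obtain ⟨C, hC, H⟩ := count hε
  refine ⟨C, hC, fun N T g S E B _ hT hg hB hE hS => ?_⟩
  have e0 : 0 ≤ ∑ m ∈ Icc (0 : ℤ) (7 * N), ‖g m‖ ^ 2 := by positivity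
  have e1 : ∀ x, FF N T g x ^ 2 =
      ∑ t ∈ Ioc (T : ℤ) (2 * T), ∑ τ ∈ iv (4 * N), ‖Dh N g (2 * t * τ) x‖ ^ 2 := fun x =>
    Real.sq_sqrt (sum_nonneg fun _ _ => sum_nonneg fun _ _ => sq_nonneg _)
  refine ⟨cont_FF N T g, fun x => ?_, ?_⟩
  · rw [e1]
    refine (H N T (fun k => ‖Dh N g k x‖ ^ 2) hT fun _ => by positivity).trans (add_le_add
      (mul_le_mul_of_nonneg_left (sum_Dh hg hE hS x _) (by positivity))
      (mul_le_mul_of_nonneg_left (pow_le_pow_left₀ (norm_nonneg _) ?_ 2) (by positivity)))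
    refine (norm_poly _ (fun M => g (M + 0) * conj (g (M - 0))) x).trans (le_trans (le_of_eq ?_) hE)
    simp [sq]
  · have cD := cont_Dh N g
    have e2 : ∀ k, ∫ x in (0 : ℝ)..1, ‖Dh N g k x‖ ^ 2 =
        ∑ M ∈ Icc (0 : ℤ) (7 * N), ‖g (M + k) * conj (g (M - k))‖ ^ 2 := fun k =>
      pars _ fun M => g (M + k) * conj (g (M - k))
    have e3 : ∀ t : ℤ, ∫ x in (0 : ℝ)..1, ∑ τ ∈ iv (4 * N), ‖Dh N g (2 * t * τ) x‖ ^ 2 =
        ∑ τ ∈ iv (4 * N), ∑ M ∈ Icc (0 : ℤ) (7 * N),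
          ‖g (M + 2 * t * τ) * conj (g (M - 2 * t * τ))‖ ^ 2 := fun t => by
      rw [intervalIntegral.integral_finsetSum fun τ _ =>
        Continuous.intervalIntegrable (by fun_prop) _ _]
      simp only [e2]
    simp only [e1]
    rw [intervalIntegral.integral_finsetSum fun t _ =>
      Continuous.intervalIntegrable (by fun_prop) _ _]
    simp only [e3]
    refine (H N T (fun k => ∑ M ∈ Icc (0 : ℤ) (7 * N), ‖g (M + k) * conj (g (M - k))‖ ^ 2) hT
      fun _ => by positivity).trans (add_le_add (mul_le_mul_of_nonneg_left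
        ((sum_sq hg _).trans (pow_le_pow_left₀ e0 hE 2)) (by positivity)) ?_)
    rw [mul_assoc]
    refine mul_le_mul_of_nonneg_left (le_trans ?_ (mul_le_mul_of_nonneg_left hE (sq_nonneg B)))
      (by positivity)
    rw [mul_sum]
    refine sum_le_sum fun M _ => ?_
    rw [add_zero, sub_zero, norm_mul, Complex.norm_conj, mul_pow]
    exact mul_le_mul_of_nonneg_right (pow_le_pow_left₀ (norm_nonneg _) (hB M) 2) (by positivity)

end Pool.Agent.P.MP_0ad054_nt.PS
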