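import Pool.Agent.P.MP_0ad054_nt.PS.St
import Pool.Agent.P.MP_0ad054_nt.Sun.RG

/-! Fibres of the quadratic forms, and the pairs with vanishing determinant. -/

namespace Pool.Agent.P.MP_0ad054_nt.PS

open Finset Pool.Agent.Lib.H9 Pool.Agent.P.MP_0ad054_nt.Sun Pool.Agent.P.MP_0ad054_nt.Sun.SphereP
  Pool.Agent.P.MP_0ad054_nt.Clu
open scoped Real ComplexConjugate

namespace FIBP

theorem fib {α β : Type*} [DecidableEq β] (s : Finset α) (t : Finset β) (f : α → β) (B : ℝ)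
    (hB0 : 0 ≤ B) (hf : ∀ a ∈ s, f a ∈ t)
    (hB : ∀ a ∈ s, ((s.filter (fun a' => f a' = f a)).card : ℝ) ≤ B) :
    (s.card : ℝ) ≤ t.card * B := by
  rw [Finset.card_eq_sum_card_fiberwise (f := f) (t := t) (fun a ha => hf a ha)]
  push_cast
  rw [← nsmul_eq_mul]
  refine Finset.sum_le_card_nsmul _ _ _ (fun y _ => ?_)
  rcases (s.filter (fun a => f a = y)).eq_empty_or_nonempty with h | ⟨a, ha⟩
  · rw [h]; simpa using hB0
  · obtain ⟨ha1, rfl⟩ := Finset.mem_filter.1 ha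
    exact hB a ha1

theorem tauN {ε : ℝ} (hε : 0 < ε) : ∃ C : ℝ, 0 < C ∧ ∀ N n : ℕ, n ≤ 176 * N ^ 2 →
    tau n ≤ C * (N : ℝ) ^ ε := by
  obtain ⟨C, hC, h⟩ := tau_le (ε := ε / 2) (by positivity)
  refine ⟨C * 176 ^ (ε / 2), by positivity, fun N n hn => (h n).trans ?_⟩
  have h1 : (n : ℝ) ≤ 176 * (N : ℝ) ^ 2 := by exact_mod_cast hn
  have h2 : (n : ℝ) ^ (ε / 2) ≤ (176 * (N : ℝ) ^ 2) ^ (ε / 2) :=
    Real.rpow_le_rpow (Nat.cast_nonneg _) h1 (by positivity)
  have h3 : ((N : ℝ) ^ 2) ^ (ε / 2) = (N : ℝ) ^ ε := by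
    rw [← Real.rpow_natCast, ← Real.rpow_mul (Nat.cast_nonneg _)]; congr 1; push_cast; ring
  rw [Real.mul_rpow (by norm_num) (by positivity), h3] at h2
  rw [mul_assoc]
  exact mul_le_mul_of_nonneg_left h2 hC.le

theorem rep {ε : ℝ} (hε : 0 < ε) : ∃ C : ℝ, 0 < C ∧ ∀ (N : ℕ) (g : ℤ) (S : Finset (ℤ × ℤ)),
    1 ≤ N → (∀ ξ ∈ S, ξ.1 ^ 2 + 7 * ξ.2 ^ 2 = g ∧ ξ.1 ^ 2 ≤ (N : ℤ) ^ 2 ∧ ξ.2 ^ 2 ≤ (N : ℤ) ^ 2) →
    (S.card : ℝ) ≤ C * (N : ℝ) ^ ε := by
  obtain ⟨C, hC, h⟩ := tauN (ε := ε / 2) (by positivity)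
  refine ⟨1 + 2 * C ^ 2, by positivity, fun N g S hN hS => ?_⟩
  have hN1 : (1 : ℝ) ≤ (N : ℝ) ^ ε := Real.one_le_rpow (by exact_mod_cast hN) hε.le
  have hNe : ((N : ℝ) ^ (ε / 2)) ^ 2 = (N : ℝ) ^ ε := by
    rw [← Real.rpow_natCast, ← Real.rpow_mul (Nat.cast_nonneg _)]; congr 1; push_cast; ring
  rcases S.eq_empty_or_nonempty with rfl | ⟨ξ, hξ⟩
  · simp only [Finset.card_empty, Nat.cast_zero]; positivity
  obtain ⟨h1, h2, h3⟩ := hS ξ hξ
  have hg0 : 0 ≤ g := by rw [← h1]; positivity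
  obtain ⟨n, rfl⟩ := Int.eq_ofNat_of_zero_le hg0
  rcases Nat.eq_zero_or_pos n with rfl | hn
  · have : S.card ≤ 1 := by
      refine le_trans (Finset.card_le_card (t := {(0, 0)}) ?_) (by simp)
      rintro ⟨x, w⟩ hx
      have e : x ^ 2 + 7 * w ^ 2 = 0 := (hS _ hx).1
      have a : x = 0 := by nlinarith [sq_nonneg x, sq_nonneg w]
      have b : w = 0 := by nlinarith [sq_nonneg x, sq_nonneg w]
      simp [a, b]
    have h' : (S.card : ℝ) ≤ 1 := by exact_mod_cast this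
    nlinarith [sq_nonneg C]
  · have a1 := RGP.all n hn S (fun ξ hξ => (hS ξ hξ).1)
    have a2 : (S.card : ℝ) ≤ 2 * tau n ^ 2 := by
      unfold tau; rw [sq, ← mul_assoc]; exact_mod_cast a1
    have a3 : n ≤ 176 * N ^ 2 := by
      have : (n : ℤ) ≤ 176 * (N : ℤ) ^ 2 := by nlinarith [sq_nonneg (N : ℤ)]
      exact_mod_cast this
    have a4 : tau n ^ 2 ≤ (C * (N : ℝ) ^ (ε / 2)) ^ 2 :=
      pow_le_pow_left₀ (tau_nonneg n) (h N n a3) 2
    rw [mul_pow, hNe] at a4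
    nlinarith

theorem sq_le {H N : ℕ} (hN : H ≤ N) {b : V} (hb : b ∈ bx H) (j : Fin 4) :
    b j ^ 2 ≤ (N : ℤ) ^ 2 := by
  have h := Fintype.mem_piFinset.1 hb j
  simp only [iv, Finset.mem_Icc] at h
  have : (H : ℤ) ≤ N := by exact_mod_cast hN
  exact sq_le_sq' (by linarith) (by linarith)

theorem al_eq (b : V) : al b = 105 * b 0 ^ 2 + 35 * b 1 ^ 2 + 21 * b 2 ^ 2 + 15 * b 3 ^ 2 := by
  simp only [al, QS, Fin.sum_univ_four]
  have e0 : cs 0 = 105 := rfl
  have e1 : cs 1 = 35 := rfl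
  have e2 : cs 2 = 21 := rfl
  have e3 : cs 3 = 15 := rfl
  rw [e0, e1, e2, e3]; ring

theorem ext4 {b b' : V} (h0 : b 0 = b' 0) (h1 : b 1 = b' 1) (h2 : b 2 = b' 2) (h3 : b 3 = b' 3) :
    b = b' := by
  funext j; fin_cases j
  exacts [h0, h1, h2, h3]

theorem al_pos {b : V} (hb : b ≠ 0) : 0 < al b := by
  rw [al_eq]
  by_contra h
  have := sq_nonneg (b 0); have := sq_nonneg (b 1); have := sq_nonneg (b 2)
  have := sq_nonneg (b 3)
  refine hb (ext4 ?_ ?_ ?_ ?_) <;> refine pow_eq_zero_iff (n := 2) (by norm_num) |>.1 ?_ <;>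
    linarith

theorem card_iv (H : ℕ) : (iv H).card = 2 * H + 1 := by
  simp only [iv, Int.card_Icc]; omega

/-- the common factor of `al` and `ep` -/
def cm (b : V) : ℕ := Int.gcd (al b) (ep b)

theorem cm_le {b : V} (hb : b ≠ 0) : 1 ≤ cm b ∧ cm b ≤ gb b ^ 2 := by
  have ha := al_pos hb
  refine ⟨Int.gcd_pos_of_ne_zero_left _ ha.ne', Nat.le_of_dvd
    (pow_pos (Int.gcd_pos_of_ne_zero_left _ ha.ne') 2) ?_⟩
  have d1 : (cm b : ℤ) ∣ al b := Int.gcd_dvd_left ..
  have d2 : (cm b : ℤ) ∣ ep b := Int.gcd_dvd_right ..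
  have d3 : (cm b : ℤ) ∣ (105 * nsq b) ^ 2 := by
    have : (105 * nsq b) ^ 2 = al b * (105 * Q2 b) - ep b * 105 := by unfold ep; ring
    rw [this]
    exact dvd_sub (d1.mul_right _) (d2.mul_right _)
  have e := Int.gcd_eq_gcd_ab (al b) (105 * nsq b)
  rw [← Int.natCast_dvd_natCast]
  push_cast
  unfold gb
  rw [e]
  have : (al b * Int.gcdA (al b) (105 * nsq b) + 105 * nsq b * Int.gcdB (al b) (105 * nsq b)) ^ 2 =
      al b * (al b * Int.gcdA (al b) (105 * nsq b) ^ 2 +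
        2 * Int.gcdA (al b) (105 * nsq b) * (105 * nsq b) * Int.gcdB (al b) (105 * nsq b)) +
      (105 * nsq b) ^ 2 * Int.gcdB (al b) (105 * nsq b) ^ 2 := by ring
  rw [this]
  exact dvd_add (d1.mul_right _) (d3.mul_right _)

theorem same {b b1 b2 : V} (hb : b ≠ 0) (h1 : b1 ≠ 0) (h2 : b2 ≠ 0) (d1 : De b b1 = 0)
    (d2 : De b b2 = 0) (hc : cm b2 = cm b1) : al b2 = al b1 ∧ ep b2 = ep b1 := by
  have a0 := al_pos hb
  have a1 := al_pos h1
  have a2 := al_pos h2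
  unfold De at d1 d2
  have e : al b1 * ep b2 = al b2 * ep b1 :=
    mul_left_cancel₀ a0.ne' (by linear_combination al b2 * d1 - al b1 * d2)
  have g1 := Int.gcd_mul_left (al b2) (al b1) (ep b1)
  have g2 := Int.gcd_mul_left (al b1) (al b2) (ep b2)
  rw [e, mul_comm (al b1) (al b2), g1] at g2
  have c1 := (cm_le h1).1
  unfold cm at hc c1
  rw [hc] at g2
  have g3 : (al b2).natAbs = (al b1).natAbs := Nat.eq_of_mul_eq_mul_right c1 g2
  have g4 : al b2 = al b1 := by omega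
  refine ⟨g4, ?_⟩
  rw [g4] at e
  exact mul_left_cancel₀ a1.ne' e

end FIBP

theorem pFIB : S_FIB := by
  classical
  intro ε hε
  obtain ⟨C, hC, h⟩ := FIBP.rep hε
  refine ⟨9 * C, by positivity, fun N H hH hN => ⟨fun m => ?_, fun x y z => ?_⟩⟩
  · have hH' : (1 : ℝ) ≤ H := by exact_mod_cast hH
    have k := FIBP.fib ((bx H).filter (fun b => Q2 b = m)) (iv H ×ˢ iv H) (fun b => (b 1, b 2))
      (C * (N : ℝ) ^ ε) (by positivity)
      (fun a ha => Finset.mem_product.2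
        ⟨Fintype.mem_piFinset.1 (Finset.mem_filter.1 ha).1 1,
          Fintype.mem_piFinset.1 (Finset.mem_filter.1 ha).1 2⟩)
      (fun a ha => by
        rw [← Finset.card_image_of_injOn (f := fun b : V => (b 0, b 3))]
        · refine h N (a 0 ^ 2 + 7 * a 3 ^ 2) _ (hH.trans hN) (fun ξ hξ => ?_)
          obtain ⟨b, hb, rfl⟩ := Finset.mem_image.1 hξ
          simp only [Finset.mem_filter, Prod.mk.injEq] at hb ha
          refine ⟨?_, FIBP.sq_le hN hb.1.1 0, FIBP.sq_le hN hb.1.1 3⟩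
          have e1 := hb.1.2
          have e2 := ha.2
          unfold Q2 at e1 e2
          rw [hb.2.1, hb.2.2] at e1
          linarith
        · intro b hb b' hb' e
          simp only [Finset.coe_filter, Set.mem_ofPred_eq, Prod.mk.injEq] at hb hb' e
          exact FIBP.ext4 e.1 (hb.2.1.trans hb'.2.1.symm) (hb.2.2.trans hb'.2.2.symm) e.2)
    rw [Finset.card_product, FIBP.card_iv] at k
    push_cast at k
    refine k.trans ?_
    have : (2 * (H : ℝ) + 1) * (2 * H + 1) ≤ 9 * H ^ 2 := by nlinarith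
    calc _ ≤ 9 * (H : ℝ) ^ 2 * (C * (N : ℝ) ^ ε) := by gcongr
      _ = _ := by ring
  · set s := (bx H).filter (fun b => al b = x ∧ nsq b = y ∧ Q2 b = z) with hs
    have key : ∀ a ∈ s, ∀ b ∈ s, b 3 ^ 2 + 7 * b 0 ^ 2 = a 3 ^ 2 + 7 * a 0 ^ 2 ∧
        b 1 ^ 2 + 9 * b 0 ^ 2 = a 1 ^ 2 + 9 * a 0 ^ 2 ∧
        b 2 ^ 2 - 15 * b 0 ^ 2 = a 2 ^ 2 - 15 * a 0 ^ 2 := by
      intro a ha b hb
      obtain ⟨-, a1, a2, a3⟩ := Finset.mem_filter.1 ha
      obtain ⟨-, b1, b2, b3⟩ := Finset.mem_filter.1 hb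
      rw [FIBP.al_eq] at a1 b1
      rw [nsq_eq'] at a2 b2
      unfold Q2 at a3 b3
      refine ⟨?_, ?_, ?_⟩ <;> linarith
    rcases s.eq_empty_or_nonempty with h0 | ⟨a, ha⟩
    · rw [h0]; simp only [Finset.card_empty, Nat.cast_zero]; positivity
    have k := FIBP.fib s (s.image (fun b => (b 3, b 0))) (fun b => (b 3, b 0)) 4 (by norm_num)
      (fun a ha => Finset.mem_image_of_mem _ ha)
      (fun c hc => by
        have : (s.filter (fun b => (b 3, b 0) = (c 3, c 0))).card ≤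
            (({c 1, -c 1} : Finset ℤ) ×ˢ ({c 2, -c 2} : Finset ℤ)).card := by
          refine Finset.card_le_card_of_injOn (fun b : V => (b 1, b 2)) (fun b hb => ?_) ?_
          · simp only [Finset.coe_filter, Set.mem_ofPred_eq, Prod.mk.injEq] at hb
            obtain ⟨-, k1, k2⟩ := key c hc b hb.1
            rw [hb.2.2] at k1 k2
            simp only [Finset.coe_product, Set.mem_prod, Finset.coe_insert, Finset.coe_singleton,
              Set.mem_insert_iff, Set.mem_singleton_iff]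
            exact ⟨sq_eq_sq_iff_eq_or_eq_neg.1 (by linarith),
              sq_eq_sq_iff_eq_or_eq_neg.1 (by linarith)⟩
          · intro b hb b' hb' e
            simp only [Finset.coe_filter, Set.mem_ofPred_eq, Prod.mk.injEq] at hb hb' e
            exact FIBP.ext4 (hb.2.2.trans hb'.2.2.symm) e.1 e.2 (hb.2.1.trans hb'.2.1.symm)
        rw [Finset.card_product] at this
        have h4 := this.trans (Nat.mul_le_mul Finset.card_le_two Finset.card_le_two)
        exact_mod_cast h4)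
    have k2 := h N (a 3 ^ 2 + 7 * a 0 ^ 2) (s.image (fun b => (b 3, b 0))) (hH.trans hN)
      (fun ξ hξ => by
        obtain ⟨b, hb, rfl⟩ := Finset.mem_image.1 hξ
        exact ⟨(key a ha b hb).1, FIBP.sq_le hN (Finset.mem_filter.1 hb).1 3,
          FIBP.sq_le hN (Finset.mem_filter.1 hb).1 0⟩)
    have : 0 ≤ C * (N : ℝ) ^ ε := by positivity
    nlinarith

theorem pDEG (hRT : S_RT) (hFIB : S_FIB) : S_DEG := by
  classical
  intro ε hε
  obtain ⟨C1, hC1, h1⟩ := hFIB (ε / 2) (by positivity)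
  obtain ⟨C2, hC2, h2⟩ := FIBP.tauN (ε := ε / 2) (by positivity)
  refine ⟨15 * C2 * C1, by positivity, fun N H G b hH hN hG hb => ?_⟩
  have hG' : (1 : ℝ) ≤ G := by exact_mod_cast hG
  set P : ℝ := (N : ℝ) ^ (ε / 2) with hP
  have hP0 : 0 ≤ P := by positivity
  have hNe : P ^ 2 = (N : ℝ) ^ ε := by
    rw [hP, ← Real.rpow_natCast, ← Real.rpow_mul (Nat.cast_nonneg _)]; congr 1; push_cast; ring
  set s := (good H G).filter (fun b' => De b b' = 0) with hs
  have mem : ∀ a ∈ s, a ∈ bx H ∧ a ≠ 0 ∧ gb a ≤ G ∧ De b a = 0 := by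
    intro a ha
    simp only [hs, good, nzb, Finset.mem_filter] at ha
    exact ⟨ha.1.1.1, fun h0 => ha.1.1.2 0 (by rw [h0]; rfl), ha.1.2, ha.2⟩
  have k := FIBP.fib s (Icc 1 (G ^ 2)) FIBP.cm (C2 * P * (15 * G) * (C1 * P)) (by positivity)
    (fun a ha => Finset.mem_Icc.2 ⟨(FIBP.cm_le (mem a ha).2.1).1,
      (FIBP.cm_le (mem a ha).2.1).2.trans (Nat.pow_le_pow_left (mem a ha).2.2.1 2)⟩)
    (fun a ha => by
      obtain ⟨a1, a2, a3, a4⟩ := mem a ha
      have a0 := FIBP.al_pos a2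
      obtain ⟨d, hd⟩ := Int.eq_ofNat_of_zero_le a0.le
      have hd1 : 1 ≤ d := by omega
      have hd2 : d ≤ 176 * N ^ 2 := by
        have : (d : ℤ) ≤ 176 * (N : ℤ) ^ 2 := by
          rw [← hd, FIBP.al_eq]
          linarith [FIBP.sq_le hN a1 0, FIBP.sq_le hN a1 1, FIBP.sq_le hN a1 2, FIBP.sq_le hN a1 3]
        exact_mod_cast this
      have sm : ∀ c ∈ s.filter (fun c => FIBP.cm c = FIBP.cm a), al c = al a ∧ ep c = ep a :=
        fun c hc => FIBP.same hb a2 (mem c (Finset.mem_filter.1 hc).1).2.1 a4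
          (mem c (Finset.mem_filter.1 hc).1).2.2.2 (Finset.mem_filter.1 hc).2
      have r := (hRT d (7 * d) G (-105 * ep a) 0 hd1).2
      have k2 := FIBP.fib (s.filter (fun c => FIBP.cm c = FIBP.cm a))
        ((Icc (0 : ℤ) (0 + ((7 * d : ℕ) : ℤ))).filter
          (fun x => (d : ℤ) ∣ x ^ 2 - -105 * ep a ∧ Int.gcd x d ≤ G))
        (fun c => 105 * nsq c) (C1 * P) (by positivity)
        (fun c hc => by
          obtain ⟨s1, s2⟩ := sm c hc
          have m := mem c (Finset.mem_filter.1 hc).1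
          refine Finset.mem_filter.2 ⟨Finset.mem_Icc.2 ⟨?_, ?_⟩, ?_, ?_⟩
          · rw [nsq_eq']; positivity
          · push_cast
            rw [← hd, ← s1, FIBP.al_eq, nsq_eq']
            linarith [sq_nonneg (c 0), sq_nonneg (c 1), sq_nonneg (c 2)]
          · rw [← hd, ← s1, ← s2]
            exact ⟨105 * Q2 c, by unfold ep; ring⟩
          · rw [← hd, ← s1, Int.gcd_comm]
            exact m.2.2.1)
        (fun c hc => by
          refine le_trans ?_ ((h1 N H hH hN).2 (al c) (nsq c) (Q2 c))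
          refine Nat.cast_le.2 (Finset.card_le_card (fun c' hc' => ?_))
          obtain ⟨t1, t2⟩ := Finset.mem_filter.1 hc'
          obtain ⟨s1, s2⟩ := sm c hc
          obtain ⟨s3, s4⟩ := sm c' t1
          have n1 : nsq c' = nsq c := by linarith
          refine Finset.mem_filter.2 ⟨(mem c' (Finset.mem_filter.1 t1).1).1,
            s3.trans s1.symm, n1, ?_⟩
          have e := s4.trans s2.symm
          unfold ep at e
          rw [s3, s1, n1] at e
          exact mul_left_cancel₀ a0.ne' (by linarith))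
      refine k2.trans (mul_le_mul_of_nonneg_right (r.trans ?_) (by positivity))
      have hd0 : (0 : ℝ) < d := by exact_mod_cast hd1
      have e : (2 * G * ((7 * d : ℕ) : ℝ) / d + 1 : ℝ) = 14 * G + 1 := by
        push_cast; field_simp; ring
      rw [e]
      exact mul_le_mul (h2 N d hd2) (by linarith) (by positivity) (by positivity))
  rw [Nat.card_Icc, Nat.add_sub_cancel] at k
  push_cast at k
  refine k.trans (le_of_eq ?_)
  rw [← hNe]; ring

end Pool.Agent.P.MP_0ad054_nt.PS
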