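import Pool.Agent.P.MP_0ad054_nt.PS.StT
import Pool.Agent.P.MP_0ad054_nt.BG.Fin
import Pool.Agent.P.MP_0ad054_nt.BG.Dense
import Pool.Agent.P.MP_0ad054_nt.BG.Ramsey
import Pool.Agent.P.MP_0ad054_nt.Clu.Tup

/-! The final steps: dyadic blocks, Chen primes, clusters and prime pairs. -/

namespace Pool.Agent.P.MP_0ad054_nt.PS

open Finset Pool.Agent.Lib.H9 Pool.Agent.P.MP_0ad054_nt.Sun Pool.Agent.P.MP_0ad054_nt.Sun.SphereP
  Pool.Agent.P.MP_0ad054_nt.Clu

namespace FinP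

/-- an odd number lies in one of `W` odd classes -/
theorem cls (W n : ℕ) (hn : Odd n) : (W : ℤ) ∣ n - (2 * (n / 2 % W : ℕ) + 1) := by
  obtain ⟨t, ht⟩ := hn
  have e1 : n / 2 = t := by omega
  have e2 := Nat.div_add_mod t W
  refine ⟨2 * (t / W : ℕ), ?_⟩
  simp only [e1]
  have e3 : ((W * (t / W) + t % W : ℕ) : ℤ) = t := by rw [e2]
  have e4 : (n : ℤ) = 2 * t + 1 := by exact_mod_cast ht
  rw [Nat.cast_add, Nat.cast_mul] at e3
  linear_combination e4 - 2 * e3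

theorem exp_le {δ : ℝ} (hδ : 0 < δ) : 1 - δ ≤ 1 - δ / (1 + δ) ∧ 0 < 1 - δ / (1 + δ) := by
  have h1 : δ / (1 + δ) ≤ δ := div_le_self hδ.le (by linarith)
  have h2 : δ / (1 + δ) < 1 := by rw [div_lt_one (by linarith)]; linarith
  constructor <;> linarith

theorem mem_chen {W N p : ℕ} {a : ℤ} (h : p ∈ chen W N a) : p ∈ Icc (2 * N) (3 * N) ∧ p.Prime ∧
    (W : ℤ) ∣ p - a ∧ (p - 2).primeFactorsList.length ≤ 2 ∧
    ∀ q ∈ (p - 2).primeFactors, Chen.zz N < q := by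
  unfold chen at h
  simpa only [mem_filter] using h

theorem two_all : BG.S_Two := by
  obtain ⟨k, K, hk, h⟩ := MW.mayN 1
  refine ⟨k, K, hk, fun a b v hN => ?_⟩
  obtain ⟨j, h⟩ := h a b v hN
  obtain ⟨N0, h⟩ := h 1
  exact ⟨j, N0, fun N hN x X h1 h2 h3 =>
    h N hN x X (by rwa [pow_one]) (by rwa [pow_one]) (by omega)⟩

end FinP

open FinP in
theorem pDy : S_Dy := by
  classical
  intro W N0 C δ P hW _ hC hδ h
  obtain ⟨g1, g2⟩ := exp_le hδ
  set γ := 1 - δ / (1 + δ) with hγ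
  have hq : (1 / 2 : ℝ) ^ γ < 1 := Real.rpow_lt_one (by norm_num) (by norm_num) g2
  set q := (1 / 2 : ℝ) ^ γ with hqd
  have hq1 : 0 < 1 - q := by linarith
  set C' : ℝ := W * C / (1 - q) + N0 with hC'
  have hA : 0 ≤ W * C / (1 - q) := by positivity
  have hN0 : (0 : ℝ) ≤ N0 := Nat.cast_nonneg _
  have hC0 : 0 ≤ C' := by positivity
  have hrec : C' * q + W * C ≤ C' := by
    have e : W * C / (1 - q) * (1 - q) = W * C := div_mul_cancel₀ _ hq1.ne'
    nlinarith [mul_nonneg hN0 hq1.le]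
  have key : ∀ N : ℕ, (((range (N + 1)).filter (fun n => Odd n ∧ P n)).card : ℝ) ≤
      C' * (N : ℝ) ^ γ := by
    intro N
    induction N using Nat.strong_induction_on with
    | _ N ih =>
      rcases Nat.eq_zero_or_pos N with h0 | h0
      · subst h0
        have : (range (0 + 1)).filter (fun n => Odd n ∧ P n) = ∅ := by
          refine filter_eq_empty_iff.2 fun n hn hh => ?_
          obtain ⟨t, ht⟩ := hh.1
          have := mem_range.1 hn
          omega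
        rw [this]
        simp only [card_empty, Nat.cast_zero]
        positivity
      have hN1 : (1 : ℝ) ≤ N := by exact_mod_cast h0
      have hp1 : (1 : ℝ) ≤ (N : ℝ) ^ γ := Real.one_le_rpow hN1 g2.le
      by_cases hb : N0 ≤ N
      · let E : ℕ → Finset ℕ := fun j => (range (N + 1)).filter (fun n => N ≤ 2 * n ∧
          (W : ℤ) ∣ n - (2 * (j : ℕ) + 1) ∧ P n)
        have hE : ∀ j, ((E j).card : ℝ) ≤ C * (N : ℝ) ^ γ := by
          intro j
          refine (h N hb (2 * (j : ℕ) + 1) (E j) ⟨j, rfl⟩ fun n hn => ?_).trans ?_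
          · obtain ⟨t1, t2, t3, t4⟩ := mem_filter.1 hn
            exact ⟨t2, Nat.lt_succ_iff.1 (mem_range.1 t1), t3, t4⟩
          · exact mul_le_mul_of_nonneg_left (Real.rpow_le_rpow_of_exponent_le hN1 g1) hC.le
        have hsub : (range (N + 1)).filter (fun n => Odd n ∧ P n) ⊆
            (range (N / 2 + 1)).filter (fun n => Odd n ∧ P n) ∪ (range W).biUnion E := by
          intro n hn
          obtain ⟨t1, t2, t3⟩ := mem_filter.1 hn
          by_cases hh : n < N / 2 + 1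
          · exact mem_union_left _ (mem_filter.2 ⟨mem_range.2 hh, t2, t3⟩)
          · refine mem_union_right _ (mem_biUnion.2 ⟨n / 2 % W, mem_range.2 (Nat.mod_lt _ hW),
              mem_filter.2 ⟨t1, by omega, cls W n t2, t3⟩⟩)
        have c1 : (((range (N + 1)).filter (fun n => Odd n ∧ P n)).card : ℝ) ≤
            ((range (N / 2 + 1)).filter (fun n => Odd n ∧ P n)).card +
              ∑ j ∈ range W, ((E j).card : ℝ) := by
          exact_mod_cast (card_le_card hsub).trans ((card_union_le _ _).trans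
            (Nat.add_le_add_left card_biUnion_le _))
        have c2 : ∑ j ∈ range W, ((E j).card : ℝ) ≤ W * (C * (N : ℝ) ^ γ) := by
          refine (sum_le_sum fun j _ => hE j).trans ?_
          simp
        have c3 := ih (N / 2) (by omega)
        have c4 : ((N / 2 : ℕ) : ℝ) ^ γ ≤ q * (N : ℝ) ^ γ := by
          rw [hqd, ← Real.mul_rpow (by norm_num) (by positivity)]
          refine Real.rpow_le_rpow (Nat.cast_nonneg _) ?_ g2.le
          have := Nat.cast_div_le (α := ℝ) (m := N) (n := 2)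
          push_cast at this
          linarith
        have c5 := mul_le_mul_of_nonneg_left c4 hC0
        have c6 := mul_le_mul_of_nonneg_right hrec (zero_le_one.trans hp1)
        nlinarith
      · have c1 : (range (N + 1)).filter (fun n => Odd n ∧ P n) ⊆ Icc 1 N := by
          intro n hn
          obtain ⟨t1, ⟨t, t2⟩, -⟩ := mem_filter.1 hn
          have := mem_range.1 t1
          exact mem_Icc.2 ⟨by omega, by omega⟩
        have c2 := card_le_card c1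
        rw [Nat.card_Icc, Nat.add_sub_cancel] at c2
        have c3 : (((range (N + 1)).filter (fun n => Odd n ∧ P n)).card : ℝ) ≤ N0 := by
          exact_mod_cast c2.trans (by omega)
        have c4 : C' ≤ C' * (N : ℝ) ^ γ := le_mul_of_one_le_right hC0 hp1
        linarith
  refine ⟨C', fun N _ => ?_⟩
  have e : {n : ℕ | n ≤ N ∧ Odd n ∧ P n} =
      ↑((range (N + 1)).filter (fun n => Odd n ∧ P n)) := by
    ext n
    simp only [Set.mem_ofPred_eq, coe_filter, mem_range, Nat.lt_succ_iff]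
  rw [e, Set.ncard_coe_finset]
  exact key N

theorem pChenP (hTP : S_TP) (hCnt : S_Cnt) (hDy : S_Dy) : S_ChenP := by
  classical
  obtain ⟨W, cl, δ, hW, h2, hδ, hcl, hT⟩ := hTP
  obtain ⟨k, N1, hk⟩ := hCnt W hW h2
  obtain ⟨C, N0, hC, hT⟩ := hT k
  refine ⟨δ / (1 + δ), by positivity, hDy W (N0 + N1 + 2) C δ _ hW h2 hC hδ ?_⟩
  intro N hN n0 E hn0 hE
  refine hT N (by omega) n0 (chen W N (cl n0)) E hn0 (fun t ht => ?_)
    (hk N _ (by omega) (hcl n0 hn0)) (fun n hn => ?_)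
  · obtain ⟨t1, t2, t3, -⟩ := FinP.mem_chen ht
    exact ⟨t2, (mem_Icc.1 t1).1, (mem_Icc.1 t1).2, t3⟩
  · obtain ⟨n1, n2, n3, n4⟩ := hE n hn
    refine ⟨n1, n2, n3, ?_⟩
    rintro ⟨x, y, z, w, p, p1, p2, p3⟩
    obtain ⟨t1, t2, -, t4, t5⟩ := FinP.mem_chen (Finset.mem_coe.1 p3)
    refine n4 ⟨x, y, z, w, p, p1, p2, t2, t4, fun q hq hd => ?_⟩
    have h0 : p - 2 ≠ 0 := by
      have := (mem_Icc.1 t1).1
      omega
    refine le_trans ?_ (t5 q (Nat.mem_primeFactors.2 ⟨hq, hd, h0⟩)).le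
    have hN1 : (1 : ℝ) ≤ N := by exact_mod_cast (show 1 ≤ N by omega)
    unfold Chen.zz
    exact (Real.rpow_le_rpow (Nat.cast_nonneg _) (by exact_mod_cast n2) (by norm_num)).trans
      (Real.rpow_le_rpow_of_exponent_le hN1 (by norm_num))

theorem pTupP (hTP : S_TP) (hDy : S_Dy) : S_TupP := by
  classical
  obtain ⟨W, cl, δ, hW, h2, hδ, hcl, hT⟩ := hTP
  refine ⟨δ / (1 + δ), by positivity, fun m => ?_⟩
  obtain ⟨k, hk⟩ := tup m W hW
  refine ⟨k, fun H hH hA => ?_⟩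
  obtain ⟨j, hj⟩ := hk H hH hA
  obtain ⟨N1, hj⟩ := hj 0
  obtain ⟨C, N0, hC, hT⟩ := hT j
  refine hDy W (N0 + N1) C δ _ hW h2 hC hδ ?_
  intro N hN n0 E hn0 hE
  refine hT N (by omega) n0 _ E hn0 (fun t ht => ?_)
    (hj N (by omega) (cl n0) (hcl n0 hn0).of_mul_left_left (2 * N) N (by simp) (by omega)
      (by omega)) (fun n hn => ?_)
  · obtain ⟨t1, ⟨u, h, -, -, t2, -⟩, t3⟩ := mem_filter.1 ht
    have := mem_Ico.1 t1
    exact ⟨t2, this.1, by omega, t3⟩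
  · obtain ⟨n1, n2, n3, n4⟩ := hE n hn
    refine ⟨n1, n2, n3, ?_⟩
    rintro ⟨x, y, z, w, p, p1, p2, p3⟩
    obtain ⟨-, t2, -⟩ := mem_filter.1 (Finset.mem_coe.1 p3)
    exact n4 ⟨x, y, z, w, p, p1, p2, t2⟩

open FinP BG.FinP in
theorem pGapP (hTP : S_TP) : S_GapP := by
  classical
  obtain ⟨W, cl, δ, hW, -, hδ, hcl, hT⟩ := hTP
  obtain ⟨g1, g2⟩ := exp_le hδ
  refine ⟨δ / (1 + δ), by positivity, fun ε hε => ?_⟩
  set γ := 1 - δ / (1 + δ) with hγ
  obtain ⟨K, hD⟩ := BG.pDense two_all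
  obtain ⟨r, hr⟩ := exists_pow_lt_of_lt_one hε (show (1 / 2 : ℝ) < 1 by norm_num)
  obtain ⟨R, hR⟩ := BG.pRamsey (Fin W × Fin (r + 1)) K
  refine ⟨W * R + 2, fun H hH hadm => ?_⟩
  obtain ⟨c0, -, hc0⟩ := Finset.exists_lt_card_fiber_of_mul_lt_card_of_maps_to
    (s := H) (t := range W) (f := fun h => h % W) (n := R)
    (fun a _ => mem_range.2 (Nat.mod_lt a hW)) (by rw [card_range]; omega)
  set S0 := H.filter (fun h => h % W = c0) with hS0
  have hsub : S0 ⊆ H := filter_subset _ _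
  obtain ⟨m, hm⟩ := unif W K cl S0 (by
    intro S hS hK j
    refine hD W S _ hW hK ?_ ?_ (hcl _ ⟨(j : ℕ), rfl⟩).of_mul_left_left
    · intro p hp
      obtain ⟨t, ht⟩ := hadm p hp
      exact ⟨t, fun h hh => ht h (hsub (hS hh))⟩
    · intro h hh h' hh'
      have e1 := (mem_filter.1 (hS hh)).2
      have e2 := (mem_filter.1 (hS hh')).2
      exact e1.trans e2.symm)
  obtain ⟨C, N0, hC, hT⟩ := hT m
  set N1 : ℕ := (m + N0 + 1) * 2 ^ r with hN1
  refine ⟨W * (r + 1) * C + (N1 : ℝ), fun N hN => ?_⟩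
  have hN0 : (1 : ℝ) ≤ N := by exact_mod_cast hN
  have hp1 : (1 : ℝ) ≤ (N : ℝ) ^ γ := Real.one_le_rpow hN0 g2.le
  by_cases hbig : N1 ≤ N
  · have hblk : ∀ i : Fin (r + 1), m + N0 + 1 ≤ N / 2 ^ (i : ℕ) := by
      intro i
      rw [Nat.le_div_iff_mul_le (by positivity)]
      refine le_trans (Nat.mul_le_mul_left _ ?_) hbig
      exact Nat.pow_le_pow_right (by norm_num) (by have := i.2; omega)
    have : Nonempty (Fin W × Fin (r + 1)) := ⟨(⟨0, hW⟩, 0)⟩
    obtain ⟨a, ha, b, hb, hab, hg⟩ := BG.FinP.good K R S0 hc0.le hR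
      (fun c x y => ((N / 2 ^ (c.2 : ℕ) : ℕ) : ℝ) / LL (N / 2 ^ (c.2 : ℕ)) ^ m ≤
        (BG.pairs W (N / 2 ^ (c.2 : ℕ)) (cl (2 * (c.1 : ℕ) + 1)) (y - x)).card)
      (fun S hS hK c => hm S hS hK c.1 _ (by have := hblk c.2; omega))
    refine ⟨a, hsub ha, b, hsub hb, hab, ?_⟩
    let E : Fin W × Fin (r + 1) → Finset ℕ := fun c =>
      (Icc 0 (N / 2 ^ (c.2 : ℕ))).filter (fun n => N / 2 ^ (c.2 : ℕ) ≤ 2 * n ∧
        (W : ℤ) ∣ n - (2 * (c.1 : ℕ) + 1) ∧
        ¬ RepS (BG.pairs W (N / 2 ^ (c.2 : ℕ)) (cl (2 * (c.1 : ℕ) + 1)) (b - a)) n)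
    have hE : ∀ c, ((E c).card : ℝ) ≤ C * (N : ℝ) ^ γ := by
      intro c
      have hc := hblk c.2
      refine le_trans (hT _ (by omega) (2 * (c.1 : ℕ) + 1) _ (E c) ⟨(c.1 : ℕ), rfl⟩ ?_ (hg c) ?_) ?_
      · intro t ht
        obtain ⟨t1, t2, t3, -⟩ := mem_filter.1 ht
        exact ⟨t2, (mem_Icc.1 t1).1, (mem_Icc.1 t1).2, t3⟩
      · intro n hn
        obtain ⟨t1, t2, t3, t4⟩ := mem_filter.1 hn
        exact ⟨t2, (mem_Icc.1 t1).2, t3, t4⟩
      · refine mul_le_mul_of_nonneg_left ?_ hC.le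
        refine (Real.rpow_le_rpow_of_exponent_le ?_ g1).trans
          (Real.rpow_le_rpow (Nat.cast_nonneg _) ?_ g2.le)
        · exact_mod_cast (show 1 ≤ N / 2 ^ (c.2 : ℕ) by omega)
        · exact_mod_cast Nat.div_le_self _ _
    have hcov : {n : ℕ | ε * N ≤ n ∧ n ≤ N ∧ Odd n ∧ ¬ ∃ x y z w : ℤ, ∃ p : ℕ,
        x ^ 2 + y ^ 2 + z ^ 2 + w ^ 2 = (n : ℤ) ∧
        (p : ℤ) = x ^ 2 + 3 * y ^ 2 + 5 * z ^ 2 + 7 * w ^ 2 ∧ p.Prime ∧ (p - (b - a)).Prime} ⊆
        ↑(univ.biUnion E) := by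
      rintro n ⟨n1, n2, n3, n4⟩
      have hlt : N / 2 ^ (r + 1) < n := by
        rw [Nat.div_lt_iff_lt_mul (by positivity)]
        have e1 : (1 : ℝ) < ε * 2 ^ r := by
          rw [one_div, inv_pow, inv_lt_iff_one_lt_mul₀ (by positivity)] at hr
          exact hr
        have e2 : (N : ℝ) < n * 2 ^ (r + 1) := by
          have e3 : (0 : ℝ) < 2 ^ r := by positivity
          have e4 : (0 : ℝ) ≤ n := Nat.cast_nonneg n
          rw [pow_succ]
          nlinarith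
        exact_mod_cast e2
      obtain ⟨i, hi, i1, i2⟩ := block N n n2 r hlt
      rw [Finset.mem_coe, mem_biUnion]
      refine ⟨(⟨n / 2 % W, Nat.mod_lt _ hW⟩, ⟨i, hi⟩), mem_univ _, ?_⟩
      refine mem_filter.2 ⟨mem_Icc.2 ⟨Nat.zero_le _, i1⟩, i2, cls W n n3, ?_⟩
      rintro ⟨x, y, z, w, p, p1, p2, p3⟩
      obtain ⟨-, t2, -, t4⟩ := mem_filter.1 (Finset.mem_coe.1 p3)
      exact n4 ⟨x, y, z, w, p, p1, p2, t2, t4⟩
    have hc1 := Set.ncard_le_ncard hcov (Finset.finite_toSet _)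
    rw [Set.ncard_coe_finset] at hc1
    have hc2 : ((univ.biUnion E).card : ℝ) ≤ ∑ c, ((E c).card : ℝ) := by
      exact_mod_cast card_biUnion_le
    have hc3 : ∑ c, ((E c).card : ℝ) ≤ W * (r + 1) * (C * (N : ℝ) ^ γ) := by
      refine le_trans (sum_le_sum fun c _ => hE c) ?_
      simp [Fintype.card_prod]
    refine le_trans (by exact_mod_cast hc1) (hc2.trans (hc3.trans ?_))
    have : (0 : ℝ) ≤ (N1 : ℝ) * (N : ℝ) ^ γ := by positivity
    nlinarith
  · obtain ⟨a, ha, b, hb, hab⟩ : ∃ a ∈ H, ∃ b ∈ H, a < b := by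
      obtain ⟨a, ha, b, hb, hab⟩ := one_lt_card.1 (show 1 < H.card by omega)
      rcases lt_or_gt_of_ne hab with h | h
      · exact ⟨a, ha, b, hb, h⟩
      · exact ⟨b, hb, a, ha, h⟩
    refine ⟨a, ha, b, hb, hab, ?_⟩
    refine le_trans (b := (N : ℝ)) (Nat.cast_le.2 (small _ N fun n hn => ⟨hn.2.1, hn.2.2.1⟩)) ?_
    have e2 : (N : ℝ) ≤ N1 := by exact_mod_cast (show N ≤ N1 by omega)
    have e3 : (0 : ℝ) ≤ W * (r + 1) * C := by positivity
    refine le_trans ?_ (le_mul_of_one_le_right (by positivity) hp1)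
    linarith

end Pool.Agent.P.MP_0ad054_nt.PS
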