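import Pool.Agent.P.MP_0ad054_nt.PS.St

/-! Complete quadratic sums in one variable. -/

namespace Pool.Agent.P.MP_0ad054_nt.PS

open Finset Pool.Agent.Lib.H9 Pool.Agent.P.MP_0ad054_nt.Sun Pool.Agent.P.MP_0ad054_nt.Sun.SphereP
  Pool.Agent.P.MP_0ad054_nt.Clu
open scoped Real ComplexConjugate

namespace G1P

lemma ex_eq (q : ℕ) (a : ℤ) : ex q a = ee (a / q) := by
  unfold ex e ee
  push_cast
  rfl

lemma one (q : ℕ) (a s : ℤ) (hq : 1 ≤ q) : ‖G1 q a s‖ ^ 2 ≤ q * (Int.gcd q (2 * a) : ℝ) := by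
  have : NeZero q := ⟨by omega⟩
  unfold G1
  simp_rw [ex_eq, ee_div_eq_stdAddChar]
  have h1 := sum_Ico_eq_sum_zmod (q := q)
    (fun y => (ZMod.stdAddChar ((a : ZMod q) * y ^ 2 + (s : ZMod q) * y) : ℂ))
  push_cast
  rw [h1]
  refine (gauss_general_zmod _ _).trans (mul_le_mul_of_nonneg_left ?_ (by positivity))
  have hg : 0 < Int.gcd q (2 * a) := Int.gcd_pos_of_ne_zero_left _ (by omega)
  have h3 : (univ.filter (fun h : ZMod q => 2 * (a : ZMod q) * h = 0)).card ≤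
      Int.gcd q (2 * a) := by
    refine le_trans (card_le_card ?_) (IsAddCyclic.card_nsmul_eq_zero_le (α := ZMod q) hg)
    intro h hh
    simp only [mem_filter, mem_univ, true_and, nsmul_eq_mul] at hh ⊢
    have e1 := congrArg (Int.cast : ℤ → ZMod q) (Int.gcd_eq_gcd_ab q (2 * a))
    push_cast at e1
    rw [ZMod.natCast_self, zero_mul, zero_add] at e1
    rw [e1]
    linear_combination ((Int.gcdB q (2 * a) : ℤ) : ZMod q) * hh
  exact_mod_cast h3

lemma ind (q : ℕ) (hq : q ≠ 0) (u : ℤ) : (if Int.gcd u q = 1 then (1 : ℂ) else 0) =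
    ∑ d ∈ q.divisors, (ArithmeticFunction.moebius d : ℂ) * if (d : ℤ) ∣ u then 1 else 0 := by
  have hg : Int.gcd u q ≠ 0 := (Int.gcd_pos_of_ne_zero_right _ (by omega)).ne'
  have h1 := congrArg (fun f : ArithmeticFunction ℤ => ((f (Int.gcd u q) : ℤ) : ℂ))
    ArithmeticFunction.moebius_mul_coe_zeta
  simp only [ArithmeticFunction.coe_mul_zeta_apply, ArithmeticFunction.one_apply] at h1
  push_cast at h1
  rw [← h1]
  simp_rw [mul_ite, mul_one, mul_zero]
  rw [← sum_filter]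
  refine sum_congr ?_ fun _ _ => rfl
  ext d
  simp only [Nat.mem_divisors, mem_filter, ← Int.natCast_dvd_natCast (m := d), Int.dvd_coe_gcd_iff]
  tauto

lemma two (q : ℕ) (a : ℤ) (hq : Odd q) :
    ‖∑ u ∈ un q, ex q (a * u ^ 2)‖ ≤ tau q * Real.sqrt (q * (Int.gcd q a : ℝ)) := by
  have h0 : q ≠ 0 := hq.pos.ne'
  have hg : Int.gcd q (2 * a) = Int.gcd q a := by
    have : Nat.Coprime 2 q := Nat.coprime_two_left.2 hq
    rw [Int.gcd, Int.gcd, Int.natAbs_mul]
    exact Nat.Coprime.gcd_mul_left_cancel_right _ (by simpa using this)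
  have hG : ∀ s, ‖G1 q a s‖ ≤ Real.sqrt (q * (Int.gcd q a : ℝ)) := fun s =>
    Real.le_sqrt_of_sq_le (hg ▸ one q a s hq.pos)
  have e1 : ∑ u ∈ un q, ex q (a * u ^ 2) = ∑ d ∈ q.divisors, (ArithmeticFunction.moebius d : ℂ) *
      ((d : ℂ)⁻¹ * ∑ x ∈ Ico (0 : ℤ) d, G1 q a ((q / d : ℕ) * x)) := by
    have e2 : ∀ u : ℤ, (if Int.gcd u q = 1 then ex q (a * u ^ 2) else 0) =
        ∑ d ∈ q.divisors, (ArithmeticFunction.moebius d : ℂ) *
          ((d : ℂ)⁻¹ * ∑ x ∈ Ico (0 : ℤ) d, ex q (a * u ^ 2 + (q / d : ℕ) * x * u)) := fun u => by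
      rw [← boole_mul, ind q h0, sum_mul]
      refine sum_congr rfl fun d hd => ?_
      obtain ⟨c, hc⟩ := Nat.dvd_of_mem_divisors hd
      have d0 : d ≠ 0 := (Nat.pos_of_mem_divisors hd).ne'
      have c0 : c ≠ 0 := by rintro rfl; exact h0 (by simpa using hc)
      have d1 : (d : ℂ) ≠ 0 := by exact_mod_cast d0
      have c1 : (c : ℂ) ≠ 0 := by exact_mod_cast c0
      have e3 : ∀ x : ℤ, ex q (a * u ^ 2 + (q / d : ℕ) * x * u) =
          ex q (a * u ^ 2) * ee ((u * x : ℤ) / d) := fun x => by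
        rw [ex_eq, ex_eq, ← ee_add]
        congr 1
        rw [hc, Nat.mul_div_cancel_left _ (Nat.pos_of_ne_zero d0)]
        push_cast
        field_simp
      simp_rw [e3]
      rw [← mul_sum, sum_ee_orth d0, mul_assoc]
      congr 1
      split_ifs
      · field_simp
      · simp
    rw [un, sum_filter, sum_congr rfl fun u _ => e2 u, sum_comm]
    refine sum_congr rfl fun d _ => ?_
    rw [← mul_sum, ← mul_sum, sum_comm]
    rfl
  rw [e1, tau, ← nsmul_eq_mul, ← sum_const]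
  refine norm_sum_le_of_le _ fun d hd => ?_
  have d0 : (0 : ℝ) < d := by exact_mod_cast Nat.pos_of_mem_divisors hd
  have hm : ‖(ArithmeticFunction.moebius d : ℂ)‖ ≤ 1 := by
    rw [Complex.norm_intCast]
    exact_mod_cast ArithmeticFunction.abs_moebius_le_one
  rw [norm_mul, norm_mul, norm_inv, Complex.norm_natCast]
  refine (mul_le_of_le_one_left (by positivity) hm).trans ?_
  have h2 := norm_sum_le_of_le (Ico (0 : ℤ) d) fun x _ => hG ((q / d : ℕ) * x)
  rw [sum_const, Int.card_Ico, nsmul_eq_mul] at h2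
  rw [inv_mul_le_iff₀ d0]
  simpa using h2

end G1P

theorem pG1 : S_G1 := ⟨G1P.one, G1P.two⟩

end Pool.Agent.P.MP_0ad054_nt.PS
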