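import Pool.Agent.P.MP_0ad054_nt.PS.St

/-! The mean of the square root of the common divisor of the two determinants. -/

namespace Pool.Agent.P.MP_0ad054_nt.PS

open Finset Pool.Agent.Lib.H9 Pool.Agent.P.MP_0ad054_nt.Sun Pool.Agent.P.MP_0ad054_nt.Sun.SphereP
  Pool.Agent.P.MP_0ad054_nt.Clu
open scoped Real ComplexConjugate

namespace GGP

lemma sum_bx (H : ℕ) (f : V → ℝ) : ∑ b ∈ bx H, f b =
    ∑ z ∈ iv H, ∑ w ∈ iv H, ∑ y ∈ iv H, ∑ x ∈ iv H, f ![x, y, z, w] := by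
  simp only [← sum_product']
  refine sum_nbij' (fun b => (b 2, b 3, b 1, b 0)) (fun p => ![p.2.2.2, p.2.2.1, p.1, p.2.1])
    (fun b hb => ?_) (fun p hp => ?_) (fun b _ => ?_) (fun p _ => rfl) fun b _ => ?_
  · simp only [bx, Fintype.mem_piFinset] at hb
    simp [hb]
  · simp only [mem_product] at hp
    refine Fintype.mem_piFinset.2 fun j => ?_
    fin_cases j <;> simp [hp]
  · funext j; fin_cases j <;> rfl
  · congr 1; funext j; fin_cases j <;> rfl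

lemma card_iv {H : ℕ} (h : 1 ≤ H) : ((iv H).card : ℝ) ≤ 3 * H := by
  have : (iv H).card ≤ 3 * H := by rw [iv, Int.card_Icc]; omega
  exact_mod_cast this

lemma sq_le {H : ℕ} {x : ℤ} (h : x ∈ iv H) : x ^ 2 ≤ (H : ℤ) ^ 2 :=
  sq_le_sq' (mem_Icc.1 h).1 (mem_Icc.1 h).2

lemma al_eq (b : V) : al b = 105 * b 0 ^ 2 + 35 * b 1 ^ 2 + 21 * b 2 ^ 2 + 15 * b 3 ^ 2 := by
  simp [al, QS, cs, Fin.sum_univ_four]; ring

/-- the resultant -/
def RR (b' : V) (y z w : ℤ) : ℤ := al b' * (Q2 b' - 2 * y ^ 2 - 4 * z ^ 2 - 6 * w ^ 2) ^ 2 -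
  (105 * Q2 b' - 280 * y ^ 2 - 504 * z ^ 2 - 720 * w ^ 2) * nsq b' ^ 2

lemma ka_eq (b' : V) (x y z w : ℤ) :
    ka ![x, y, z, w] b' = x ^ 2 - (Q2 b' - 3 * y ^ 2 - 5 * z ^ 2 - 7 * w ^ 2) := by
  simp [ka, Q2]; ring

lemma dvd_RR (b' : V) (x y z w : ℤ) : (Ga ![x, y, z, w] b' : ℤ) ∣ 105 * RR b' y z w := by
  have h1 : (Ga ![x, y, z, w] b' : ℤ) ∣ De ![x, y, z, w] b' := Int.gcd_dvd_left _ _
  have h2 : (Ga ![x, y, z, w] b' : ℤ) ∣ ka ![x, y, z, w] b' := Int.gcd_dvd_right _ _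
  have e : 105 * RR b' y z w = ka ![x, y, z, w] b' * (al b' * al ![x, y, z, w] -
      105 * (al b' * (nsq ![x, y, z, w] + Q2 b' - 2 * y ^ 2 - 4 * z ^ 2 - 6 * w ^ 2) -
        105 * nsq b' ^ 2)) - De ![x, y, z, w] b' := by
    rw [De, ep, ep, RR, ka, al_eq ![x, y, z, w], nsq_eq' ![x, y, z, w]]
    generalize Q2 b' = q
    simp [Q2]
    ring
  rw [e]
  exact (h2.mul_right _).sub h1

lemma roots {b' : V} (h : al b' ≠ 0) (z w : ℤ) (s : Finset ℤ) :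
    (s.filter fun y => RR b' y z w = 0).card ≤ 4 := by
  obtain ⟨p, q, e⟩ : ∃ p q : ℤ, ∀ y, RR b' y z w = 4 * al b' * y ^ 4 + p * y ^ 2 + q :=
    ⟨280 * nsq b' ^ 2 - 4 * al b' * (Q2 b' - 4 * z ^ 2 - 6 * w ^ 2), RR b' 0 z w, fun y => by
      unfold RR; ring⟩
  let P : Polynomial ℤ :=
    Polynomial.C (4 * al b') * Polynomial.X ^ 4 + Polynomial.C p * Polynomial.X ^ 2 + Polynomial.C q
  have d : P.natDegree = 4 := by
    simp only [P]
    compute_degree!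
  have P0 : P ≠ 0 := fun e => by simp [e] at d
  rw [← d]
  refine Polynomial.card_le_degree_of_subset_roots fun y hy => ?_
  rw [Polynomial.mem_roots P0, Polynomial.IsRoot]
  have := (mem_filter.1 hy).2
  rw [e] at this
  simpa [P] using this

lemma sizes {H : ℕ} {b : V} (h : b ∈ bx H) : 0 ≤ Q2 b ∧ Q2 b ≤ 16 * (H : ℤ) ^ 2 ∧ 0 ≤ al b ∧
    al b ≤ 176 * (H : ℤ) ^ 2 ∧ 0 ≤ nsq b ∧ nsq b ≤ 4 * (H : ℤ) ^ 2 := by
  have h' := fun j => sq_le (Fintype.mem_piFinset.1 h j)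
  rw [al_eq, nsq_eq', Q2]
  refine ⟨by positivity, ?_, by positivity, ?_, by positivity, ?_⟩ <;>
    linarith [h' 0, h' 1, h' 2, h' 3]

lemma Ga_le {H : ℕ} {b' : V} (h : b' ∈ bx H) {x y z w : ℤ} (hx : x ∈ iv H) (hy : y ∈ iv H)
    (hz : z ∈ iv H) (hw : w ∈ iv H) (k : ka ![x, y, z, w] b' ≠ 0) :
    Ga ![x, y, z, w] b' ≤ 16 * H ^ 2 := by
  have h1 : (Ga ![x, y, z, w] b' : ℤ) ≤ |ka ![x, y, z, w] b'| :=
    Int.le_of_dvd (abs_pos.2 k) ((dvd_abs _ _).2 (Int.gcd_dvd_right _ _))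
  obtain ⟨a, b, -⟩ := sizes h
  have h2 : |ka ![x, y, z, w] b'| ≤ 16 * (H : ℤ) ^ 2 := by
    rw [ka_eq, abs_le]
    constructor <;> nlinarith [sq_le hx, sq_le hy, sq_le hz, sq_le hw, sq_nonneg x, sq_nonneg y,
      sq_nonneg z, sq_nonneg w]
  exact_mod_cast h1.trans h2

lemma RR_le {H : ℕ} {b' : V} (h : b' ∈ bx H) {y z w : ℤ} (hy : y ∈ iv H)
    (hz : z ∈ iv H) (hw : w ∈ iv H) : (105 * RR b' y z w).natAbs ≤ 10 ^ 7 * H ^ 6 := by
  obtain ⟨a1, a2, a3, a4, a5, a6⟩ := sizes h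
  have := sq_le hy
  have := sq_le hz
  have := sq_le hw
  have := sq_nonneg y
  have := sq_nonneg z
  have := sq_nonneg w
  have b1 : |Q2 b' - 2 * y ^ 2 - 4 * z ^ 2 - 6 * w ^ 2| ≤ 16 * (H : ℤ) ^ 2 :=
    abs_le.2 ⟨by linarith, by linarith⟩
  have b2 : |105 * Q2 b' - 280 * y ^ 2 - 504 * z ^ 2 - 720 * w ^ 2| ≤ 1680 * (H : ℤ) ^ 2 :=
    abs_le.2 ⟨by linarith, by linarith⟩
  have b3 : |RR b' y z w| ≤ 176 * (H : ℤ) ^ 2 * (16 * (H : ℤ) ^ 2) ^ 2 +
      1680 * (H : ℤ) ^ 2 * (4 * (H : ℤ) ^ 2) ^ 2 := by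
    refine (abs_sub _ _).trans ?_
    rw [abs_mul, abs_mul, abs_pow, abs_pow, abs_of_nonneg a3, abs_of_nonneg a5]
    gcongr
  have b4 : (((105 * RR b' y z w).natAbs : ℕ) : ℤ) ≤ 10 ^ 7 * (H : ℤ) ^ 6 := by
    rw [Int.natCast_natAbs, abs_mul]
    have : 0 ≤ (H : ℤ) ^ 6 := by positivity
    norm_num
    nlinarith
  exact_mod_cast b4

lemma sqrt_le {H d : ℕ} (h : d ≤ 16 * H ^ 2) : Real.sqrt d ≤ 4 * H :=
  Real.sqrt_le_iff.2 ⟨by positivity, by exact_mod_cast (by nlinarith : d ≤ (4 * H) ^ 2)⟩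

lemma inner (hRT : S_RT) {H : ℕ} (hH : 1 ≤ H) {K : ℝ} (hK : ∀ n ≤ 10 ^ 7 * H ^ 6, tau n ≤ K)
    {b' : V} (h : b' ∈ bx H) {y z w : ℤ} (hy : y ∈ iv H) (hz : z ∈ iv H) (hw : w ∈ iv H) :
    ∑ x ∈ iv H, (if ka ![x, y, z, w] b' ≠ 0 then Real.sqrt (Ga ![x, y, z, w] b') else 0) ≤
      6 * K ^ 2 * H + if RR b' y z w = 0 then 12 * (H : ℝ) ^ 2 else 0 := by
  by_cases hR : RR b' y z w = 0
  · rw [if_pos hR]
    refine (sum_le_card_nsmul _ _ (4 * H : ℝ) fun x hx => ?_).trans ?_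
    · split_ifs with k
      · exact sqrt_le (Ga_le h hx hy hz hw k)
      · positivity
    · rw [nsmul_eq_mul]
      have := card_iv hH
      have : 0 ≤ 6 * K ^ 2 * H := by positivity
      nlinarith
  rw [if_neg hR, add_zero]
  set m := (105 * RR b' y z w).natAbs with hm
  have m0 : m ≠ 0 := Int.natAbs_ne_zero.2 (mul_ne_zero (by norm_num) hR)
  have m1 : m ≤ 10 ^ 7 * H ^ 6 := RR_le h hy hz hw
  have K0 : 0 ≤ K := (tau_nonneg m).trans (hK m m1)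
  set c := Q2 b' - 3 * y ^ 2 - 5 * z ^ 2 - 7 * w ^ 2
  calc _ ≤ ∑ x ∈ iv H, ∑ d ∈ m.divisors.filter (· ≤ 16 * H ^ 2),
        if (d : ℤ) ∣ x ^ 2 - c then Real.sqrt d else 0 := by
        refine sum_le_sum fun x hx => ?_
        split_ifs with k
        · refine le_trans (le_of_eq ?_) (single_le_sum (a := Ga ![x, y, z, w] b')
            (fun d _ => by positivity) (mem_filter.2 ⟨Nat.mem_divisors.2
              ⟨Int.natCast_dvd.1 (dvd_RR b' x y z w), m0⟩, Ga_le h hx hy hz hw k⟩))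
          rw [if_pos]
          rw [← ka_eq]
          exact Int.gcd_dvd_right _ _
        · exact sum_nonneg fun d _ => by positivity
    _ ≤ ∑ _d ∈ m.divisors.filter (· ≤ 16 * H ^ 2), K * (6 * H) := by
        rw [sum_comm]
        refine sum_le_sum fun d hd => ?_
        obtain ⟨h1, h2⟩ := mem_filter.1 hd
        have d1 : 1 ≤ d := Nat.pos_of_mem_divisors h1
        have r := (hRT d (2 * H) 0 c (-H) d1).1
        rw [show -(H : ℤ) + (2 * H : ℕ) = H by push_cast; ring] at r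
        have s0 : 0 < Real.sqrt d := Real.sqrt_pos.2 (by exact_mod_cast d1)
        have t := hK d ((Nat.divisor_le h1).trans m1)
        rw [← sum_filter, sum_const, nsmul_eq_mul]
        calc _ ≤ tau d * ((2 * H : ℕ) / Real.sqrt d + 1) * Real.sqrt d :=
              mul_le_mul_of_nonneg_right r s0.le
          _ = tau d * (2 * H + Real.sqrt d) := by push_cast; field_simp
          _ ≤ _ := mul_le_mul t (by linarith [sqrt_le h2]) (by positivity) K0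
    _ ≤ _ := by
        rw [sum_const, nsmul_eq_mul]
        have : ((m.divisors.filter (· ≤ 16 * H ^ 2)).card : ℝ) ≤ K :=
          le_trans (Nat.cast_le.2 (card_filter_le _ _)) (hK m m1)
        calc _ ≤ K * (K * (6 * H)) := by gcongr
          _ = _ := by ring

end GGP

theorem pGG (hRT : S_RT) : S_GG := by
  intro ε hε
  obtain ⟨C, hC, hτ⟩ := tau_le (show 0 < ε / 12 by positivity)
  refine ⟨729 * (18 * (C * (10 ^ 7 : ℝ) ^ (ε / 12)) ^ 2 + 48), by positivity, fun N H hH hN => ?_⟩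
  have H1 : (1 : ℝ) ≤ H := by exact_mod_cast hH
  have HN : (H : ℝ) ≤ N := by exact_mod_cast hN
  have N1 : 1 ≤ (N : ℝ) ^ ε := Real.one_le_rpow (H1.trans HN) hε.le
  set K := C * (10 ^ 7 * (N : ℝ) ^ 6) ^ (ε / 12) with hK
  have eK : K ^ 2 = (C * (10 ^ 7 : ℝ) ^ (ε / 12)) ^ 2 * (N : ℝ) ^ ε := by
    rw [hK, Real.mul_rpow (by positivity) (by positivity), ← mul_assoc, mul_pow,
      ← Real.rpow_natCast (N : ℝ), ← Real.rpow_mul (by positivity), ← Real.rpow_natCast (_ ^ (_ * _)),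
      ← Real.rpow_mul (by positivity)]
    congr 2
    push_cast
    ring
  have tK : ∀ n ≤ 10 ^ 7 * H ^ 6, tau n ≤ K := fun n hn => (hτ n).trans (by
    have : (n : ℝ) ≤ 10 ^ 7 * (H : ℝ) ^ 6 := by exact_mod_cast hn
    rw [hK]
    gcongr
    exact this.trans (by gcongr))
  have ci := GGP.card_iv hH
  have cst : ∀ (f : ℤ → ℝ) (B : ℝ), 0 ≤ B → (∀ x ∈ iv H, f x ≤ B) →
      ∑ x ∈ iv H, f x ≤ 3 * H * B := fun f B hB h =>
    (sum_le_card_nsmul _ _ B h).trans (by rw [nsmul_eq_mul]; gcongr)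
  set B := (18 * K ^ 2 + 48) * (H : ℝ) ^ 2
  have B0 : 0 ≤ B := by positivity
  simp only [sum_filter]
  rw [sum_comm]
  calc _ ≤ ∑ _b' ∈ nzb H, 3 * H * (3 * H * B) := by
        refine sum_le_sum fun b' hb' => ?_
        obtain ⟨h1, h2⟩ := mem_filter.1 hb'
        refine (sum_le_sum_of_subset_of_nonneg (filter_subset _ _) fun _ _ _ => by
          positivity).trans ?_
        rw [GGP.sum_bx]
        refine cst _ _ (by positivity) fun z hz => cst _ _ B0 fun w hw => ?_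
        refine (sum_le_sum fun y hy => GGP.inner hRT hH tK h1 hy hz hw).trans ?_
        have a0 : al b' ≠ 0 := by
          have := h2 0
          rw [GGP.al_eq]
          positivity
        have r : (((iv H).filter fun y => GGP.RR b' y z w = 0).card : ℝ) ≤ 4 := by
          exact_mod_cast GGP.roots a0 z w _
        have u := cst (fun _ => 6 * K ^ 2 * H) _ (by positivity) fun _ _ => le_rfl
        rw [sum_add_distrib, ← sum_filter, sum_const (s := filter _ _), nsmul_eq_mul]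
        calc _ ≤ 3 * H * (6 * K ^ 2 * H) + 4 * (12 * (H : ℝ) ^ 2) := by gcongr
          _ = _ := by ring
    _ ≤ ∑ _b' ∈ bx H, 3 * H * (3 * H * B) :=
        sum_le_sum_of_subset_of_nonneg (filter_subset _ _) fun _ _ _ => by positivity
    _ ≤ (3 * H) ^ 4 * (3 * H * (3 * H * B)) := by
        rw [sum_const, nsmul_eq_mul, bx, Fintype.card_piFinset_const, Nat.cast_pow]
        gcongr
    _ = 729 * (18 * K ^ 2 + 48 * 1) * H ^ 8 := by ring
    _ ≤ 729 * (18 * K ^ 2 + 48 * (N : ℝ) ^ ε) * H ^ 8 := by gcongr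
    _ = _ := by rw [eK]; ring

end Pool.Agent.P.MP_0ad054_nt.PS
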