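import Pool.Agent.P.MP_0ad054_nt.PS.StT
import Pool.Agent.P.MP_0ad054_nt.Clu.Big
import Pool.Agent.P.MP_0ad054_nt.Clu.Fib
import Pool.Agent.P.MP_0ad054_nt.Clu.Sq
import Pool.Agent.P.MP_0ad054_nt.Clu.L2
import Pool.Agent.P.MP_0ad054_nt.Clu.Prod

/-! Lifting points of the sphere, and the size of the sphere modulo a prime power. -/

namespace Pool.Agent.P.MP_0ad054_nt.PS

open Finset Pool.Agent.Lib.H9 Pool.Agent.P.MP_0ad054_nt.Sun Pool.Agent.P.MP_0ad054_nt.Sun.SphereP
  Pool.Agent.P.MP_0ad054_nt.Clu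

namespace HenP

theorem lin1 {p : ℕ} (hp : p.Prime) {u : ℤ} (hu : ¬ (p : ℤ) ∣ u) (a : ℤ) :
    ((Ico (0 : ℤ) p).filter fun x => (p : ℤ) ∣ a + u * x).card = 1 := by
  have hp' : Prime (p : ℤ) := Nat.prime_iff_prime_int.1 hp
  obtain ⟨s, t, h⟩ := hp'.irreducible.coprime_iff_not_dvd.2 hu
  rw [← L2P.card_cls p hp.pos (-(a * t))]
  congr 1
  refine filter_congr fun x _ => ⟨fun ⟨y, hy⟩ => ⟨t * y + s * x, ?_⟩,
    fun ⟨y, hy⟩ => ⟨u * y + a * s, ?_⟩⟩
  · linear_combination t * hy - x * h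
  · linear_combination u * hy - a * h

theorem lin {p : ℕ} (hp : p.Prime) {u : V} {j : Fin 4} (hu : ¬ (p : ℤ) ∣ u j) (a : ℤ) :
    ((res p).filter fun w => (p : ℤ) ∣ a + dot u w).card = p ^ 3 := by
  classical
  have h := FibP.step pSq (fun _ => Ico (0 : ℤ) p) j (fun _ => True)
    (fun w => (p : ℤ) ∣ a + dot u w) (fun _ _ => Iff.rfl) (fun v _ => by
      rw [← lin1 hp hu (a + ∑ l ∈ univ.erase j, u l * v l)]
      congr 1
      ext x
      have e : a + dot u (Function.update v j x) = a + ∑ l ∈ univ.erase j, u l * v l + u j * x := by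
        rw [dot, ← add_sum_erase _ _ (mem_univ j), Function.update_self,
          sum_congr rfl fun l hl => by rw [Function.update_of_ne (ne_of_mem_erase hl)]]
        ring
      simp only [mem_filter, e])
  simp only [true_and, filter_true, L2P.card_Ico0] at h
  refine Nat.eq_of_mul_eq_mul_left hp.pos ?_
  rw [← pow_succ', ← card_res p]
  convert h <;> rfl

theorem nm_split {p e : ℕ} (hp : p.Prime) (he : 2 ≤ e) :
    (nm p (e + 1) : ℤ) = nm p e * p ∧ (nm p e : ℤ) ≠ 0 ∧ ∃ δ κ : ℤ, ¬ (p : ℤ) ∣ δ ∧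
      2 * (p : ℤ) ^ e = nm p e * δ ∧ ((p : ℤ) ^ e) ^ 2 = nm p e * p * κ := by
  obtain ⟨f, rfl⟩ : ∃ f, e = f + 2 := ⟨e - 2, by omega⟩
  by_cases h : p = 2
  · subst h
    refine ⟨by simp [nm, pow_succ], by simp [nm], 1, 2 ^ f, by norm_num, ?_, ?_⟩ <;>
      simp only [nm, if_true] <;> push_cast <;> ring
  · refine ⟨by simp [nm, h, pow_succ], by simp [nm, h, hp.ne_zero], 2, (p : ℤ) ^ (f + 1),
      fun h2 => h ((Nat.prime_dvd_prime_iff_eq hp Nat.prime_two).1 (by exact_mod_cast h2)),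
      ?_, ?_⟩ <;> simp only [nm, if_neg h] <;> push_cast <;> ring

theorem cnt {p e : ℕ} (hp : p.Prime) (he : 2 ≤ e) (c : ℤ) (A : V → Prop) [DecidablePred A]
    (hA : ∀ v w : V, (∀ i, ((p ^ e : ℕ) : ℤ) ∣ v i - w i) → (A v ↔ A w)) :
    ((P0 p (e + 1) c).filter A).card = p ^ 3 * ((P0 p e c).filter A).card := by
  classical
  obtain ⟨n1, n2, δ, κ, d1, d2, d3⟩ := nm_split hp he
  have he1 : 1 ≤ e := by omega
  have hq : p ^ e ≠ 0 := pow_ne_zero _ hp.ne_zero
  have hq0 : (0 : ℤ) < (p : ℤ) ^ e := by have := hp.pos; positivity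
  have hp' : Prime (p : ℤ) := Nat.prime_iff_prime_int.1 hp
  refine BigP.fib (p ^ e) _ _ _ (fun v hv => ?_) fun v0 h0 => ?_
  · simp only [P0, mem_filter] at hv ⊢
    have h := BigP.dvd_rd (p ^ e) v
    refine ⟨⟨emod_mem_res hq v, (ProdP.pr_cong he1 h).1 hv.1.2.1, ?_⟩, (hA _ _ h).1 hv.2⟩
    have h1 : (nm p e : ℤ) ∣ nsq v - c := (n1 ▸ dvd_mul_right _ _ : _ ∣ (nm p (e + 1) : ℤ)).trans
      hv.1.2.2
    simpa using dvd_sub h1 (ProdP.nsq_cong he1 h)
  · simp only [P0, mem_filter] at h0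
    obtain ⟨⟨r0, p0, a, ha⟩, a0⟩ := h0
    obtain ⟨j, hj⟩ := not_forall.1 p0
    have hu : ¬ (p : ℤ) ∣ (fun i => δ * v0 i) j := fun h => (hp'.dvd_or_dvd h).elim d1 hj
    have key : ∀ w : V, (nm p (e + 1) : ℤ) ∣ nsq (fun i => v0 i + (p : ℤ) ^ e * w i) - c ↔
        (p : ℤ) ∣ a + dot (fun i => δ * v0 i) w := fun w => by
      have e1 : nsq (fun i => v0 i + (p : ℤ) ^ e * w i) - c =
          nm p e * (a + dot (fun i => δ * v0 i) w + p * (κ * nsq w)) := by
        simp only [nsq_eq', dot, Fin.sum_univ_four] at ha ⊢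
        linear_combination ha + (v0 0 * w 0 + v0 1 * w 1 + v0 2 * w 2 + v0 3 * w 3) * d2 +
          (w 0 ^ 2 + w 1 ^ 2 + w 2 ^ 2 + w 3 ^ 2) * d3
      rw [e1, n1, mul_dvd_mul_iff_left n2, dvd_add_left (dvd_mul_right _ _)]
    refine ⟨((res p).filter fun w => (p : ℤ) ∣ a + dot (fun i => δ * v0 i) w).image
      fun (w : V) (i : Fin 4) => v0 i + (p : ℤ) ^ e * w i, ?_, fun v => ?_⟩
    · have inj : Function.Injective fun (w : V) (i : Fin 4) => v0 i + (p : ℤ) ^ e * w i :=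
        fun w w' h => funext fun i => mul_left_cancel₀ hq0.ne' (add_left_cancel (congrFun h i))
      rw [card_image_of_injective _ inj, lin hp hu]
    · simp only [mem_image, mem_filter, P0, BigP.rd_eq_iff hq r0]
      rw [mem_res] at r0
      constructor
      · rintro ⟨w, ⟨w1, w2⟩, rfl⟩
        have h : ∀ i, ((p ^ e : ℕ) : ℤ) ∣ v0 i + (p : ℤ) ^ e * w i - v0 i := fun i => by simp
        rw [mem_res] at w1
        refine ⟨⟨⟨mem_res.2 fun i => ?_, (ProdP.pr_cong he1 h).2 p0, (key w).2 w2⟩,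
          (hA _ _ h).2 a0⟩, h⟩
        have b1 := r0 i
        have b2 := w1 i
        push_cast at b1 ⊢
        rw [pow_succ]
        constructor <;> nlinarith [b1.1, b1.2, b2.1, b2.2]
      · rintro ⟨⟨⟨v1, -, v2⟩, -⟩, h⟩
        choose w hw using h
        have e1 : (fun i => v0 i + (p : ℤ) ^ e * w i) = v := funext fun i => by
          have := hw i
          push_cast at this
          linarith
        refine ⟨w, ⟨mem_res.2 fun i => ?_, (key w).1 (e1.symm ▸ v2)⟩, e1⟩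
        have b1 := r0 i
        have b2 := mem_res.1 v1 i
        have b3 := hw i
        push_cast at b1 b2 b3
        rw [pow_succ] at b2
        constructor
        · by_contra hc
          have : w i ≤ -1 := by omega
          nlinarith [b1.2, b2.1]
        · by_contra hc
          have : (p : ℤ) ≤ w i := by omega
          nlinarith [b1.1, b2.2]

end HenP

theorem pHen : S_Hen := by
  intro p e c hp he
  have h1 : (P0 p (e + 1) c).card = p ^ 3 * (P0 p e c).card := by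
    simpa using HenP.cnt hp he c (fun _ => True) fun _ _ _ => Iff.rfl
  refine ⟨h1, fun k t hk => ?_⟩
  have h2 := HenP.cnt hp he c (fun v => (p : ℤ) ^ k ∣ Q2 v - t) fun v w h => by
    have h3 : ∀ i, (p : ℤ) ^ k ∣ v i - w i := fun i =>
      (pow_dvd_pow _ hk).trans (by exact_mod_cast h i)
    exact ⟨BigP.Q2_congr h3, BigP.Q2_congr fun i => dvd_sub_comm.1 (h3 i)⟩
  have h4 : ((p : ℝ) ^ 3) ≠ 0 := pow_ne_zero _ (Nat.cast_ne_zero.2 hp.ne_zero)
  unfold rk
  rw [h1, h2]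
  push_cast
  rw [mul_left_comm, mul_div_mul_left _ _ h4]

theorem pP0 (hHen : S_Hen) : S_P0 := by
  refine ⟨1 / 729, by norm_num, fun p e c hp he hne => ?_⟩
  by_cases h5 : 5 ≤ p
  · have : Fact p.Prime := ⟨hp⟩
    obtain ⟨f, rfl⟩ : ∃ f, e = f + 1 := ⟨e - 1, by omega⟩
    have h1 := card_lev_ge p (by omega) (c : ZMod p)
    have hp5 : (5 : ℝ) ≤ p := by exact_mod_cast h5
    rw [BigP.card_P0 (pFib pSq) h5 (by omega), Nat.add_sub_cancel, mul_add, pow_add]
    push_cast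
    rw [mul_left_comm]
    refine mul_le_mul_of_nonneg_left (le_trans ?_ h1) (by positivity)
    nlinarith [mul_nonneg (sub_nonneg.2 hp5) (sq_nonneg (p : ℝ))]
  · obtain ⟨f, rfl⟩ : ∃ f, e = 2 + f := ⟨e - 2, by omega⟩
    have h1 : ∀ f : ℕ, (P0 p (2 + f) c).card = p ^ (3 * f) * (P0 p 2 c).card := fun f => by
      induction f with
      | zero => simp
      | succ f ih => rw [← add_assoc, (hHen p _ c hp (by omega)).1, ih]; ring
    have h2 : 1 ≤ (P0 p 2 c).card := by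
      have := hne.card_pos
      rw [h1] at this
      exact Nat.pos_of_mul_pos_left this
    have h3 : p ≤ 3 := by
      by_contra h
      have : p = 4 := by omega
      exact absurd (this ▸ hp) (by norm_num)
    have h4 : (p : ℝ) ^ 6 ≤ 3 ^ 6 := pow_le_pow_left₀ (by positivity) (by exact_mod_cast h3) 6
    have h6 : (1 : ℝ) ≤ (P0 p 2 c).card := by exact_mod_cast h2
    rw [h1, mul_add, pow_add]
    push_cast
    rw [mul_comm ((p : ℝ) ^ (3 * f)), ← mul_assoc]
    refine mul_le_mul_of_nonneg_right ?_ (by positivity)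
    norm_num at h4 ⊢
    linarith

end Pool.Agent.P.MP_0ad054_nt.PS
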