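import Pool.Agent.P.MP_0ad054_nt.PS.St

/-! The mass of the zeros of the dual form. -/

namespace Pool.Agent.P.MP_0ad054_nt.PS

open Finset Pool.Agent.Lib.H9 Pool.Agent.P.MP_0ad054_nt.Sun Pool.Agent.P.MP_0ad054_nt.Sun.SphereP
  Pool.Agent.P.MP_0ad054_nt.Clu
open scoped Real ComplexConjugate

namespace ISOP

lemma sq_le {H : ℕ} {b : V} (hb : b ∈ nzb H) (j : Fin 4) : b j ^ 2 ≤ (H : ℤ) ^ 2 := by
  have := mem_Icc.1 (Fintype.mem_piFinset.1 (mem_filter.1 hb).1 j)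
  exact sq_le_sq' this.1 this.2

lemma al_eq (b : V) : al b = 105 * b 0 ^ 2 + 35 * b 1 ^ 2 + 21 * b 2 ^ 2 + 15 * b 3 ^ 2 := by
  simp only [al, QS, cs, Fin.sum_univ_four, Matrix.cons_val]
  ring

lemma bd {H : ℕ} {b : V} (hb : b ∈ nzb H) :
    |al b| ≤ 176 * (H : ℤ) ^ 2 ∧ |ep b| ≤ 2816 * (H : ℤ) ^ 4 := by
  have h0 := sq_le hb 0
  have h1 := sq_le hb 1
  have h2 := sq_le hb 2
  have h3 := sq_le hb 3
  have a0 : 0 ≤ al b := by rw [al_eq]; positivity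
  have a1 : al b ≤ 176 * (H : ℤ) ^ 2 := by rw [al_eq]; linarith
  have q0 : 0 ≤ Q2 b := by unfold Q2; positivity
  have q1 : Q2 b ≤ 16 * (H : ℤ) ^ 2 := by unfold Q2; linarith
  have n1 : nsq b ≤ 4 * (H : ℤ) ^ 2 := by rw [nsq_eq']; linarith
  have e1 := mul_le_mul a1 q1 q0 (by positivity)
  have e2 := pow_le_pow_left₀ (nsq_nonneg b) n1 2
  have e3 := mul_nonneg a0 q0
  have e4 := sq_nonneg (nsq b)
  have e5 : 0 ≤ (H : ℤ) ^ 4 := by positivity
  refine ⟨by rwa [abs_of_nonneg a0], abs_le.2 ⟨?_, ?_⟩⟩ <;> unfold ep <;> linarith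

lemma Q2_h0 (b : V) :
    Q2 (h0 b) = 3 * (b 2 ^ 2 * b 3 ^ 2) + 20 * (b 1 ^ 2 * b 3 ^ 2) + 7 * (b 1 ^ 2 * b 2 ^ 2) := by
  simp only [Q2, h0, Matrix.cons_val]
  ring

lemma mbd {H : ℕ} {b b' : V} (hb : b ∈ nzb H) (hb' : b' ∈ nzb H) (hD : De b b' ≠ 0) :
    105 * De b b' * Q2 (h0 b) ≠ 0 ∧ |105 * De b b' * Q2 (h0 b)| ≤ 10 ^ 12 * (H : ℤ) ^ 10 := by
  have n1 := (mem_filter.1 hb).2 1
  have n2 := (mem_filter.1 hb).2 2
  have n3 := (mem_filter.1 hb).2 3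
  have q0 : 0 < Q2 (h0 b) := by rw [Q2_h0]; positivity
  have m : ∀ i j, b i ^ 2 * b j ^ 2 ≤ (H : ℤ) ^ 2 * (H : ℤ) ^ 2 := fun i j =>
    mul_le_mul (sq_le hb i) (sq_le hb j) (sq_nonneg _) (sq_nonneg _)
  have q1 : Q2 (h0 b) ≤ 30 * (H : ℤ) ^ 4 := by rw [Q2_h0]; linarith [m 2 3, m 1 3, m 1 2]
  have d1 : |De b b'| ≤ 10 ^ 6 * (H : ℤ) ^ 6 := by
    have e1 := mul_le_mul (bd hb').1 (bd hb).2 (abs_nonneg _) (by positivity)
    have e2 := mul_le_mul (bd hb).1 (bd hb').2 (abs_nonneg _) (by positivity)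
    have e3 : 0 ≤ (H : ℤ) ^ 6 := by positivity
    refine (abs_sub _ _).trans ?_
    rw [abs_mul, abs_mul]
    linarith
  refine ⟨mul_ne_zero (mul_ne_zero (by norm_num) hD) q0.ne', ?_⟩
  have e := mul_le_mul d1 q1 q0.le (by positivity)
  have e3 : 0 ≤ (H : ℤ) ^ 10 := by positivity
  rw [abs_mul, abs_mul, abs_of_pos q0, abs_of_pos (by norm_num : (0 : ℤ) < 105)]
  linarith

lemma mm_nonneg (r : ℝ) (b b' k k' : V) : 0 ≤ mm r b b' k k' := by
  have : ∀ b k θ, 0 ≤ mb r b k θ := fun _ _ _ =>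
    intervalIntegral.integral_nonneg zero_le_one fun _ _ => (Real.exp_pos _).le
  exact intervalIntegral.integral_nonneg zero_le_one fun _ _ => mul_nonneg (this _ _ _) (this _ _ _)

lemma card_nzb {H : ℕ} (hH : 1 ≤ H) : ((nzb H).card : ℝ) ≤ 81 * (H : ℝ) ^ 4 := by
  have h1 : (iv H).card = 2 * H + 1 := by unfold iv; rw [Int.card_Icc]; omega
  have h2 : (nzb H).card ≤ (3 * H) ^ 4 := by
    refine (card_filter_le _ _).trans ?_
    simp only [bx, Fintype.card_piFinset, h1, prod_const, card_univ, Fintype.card_fin]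
    exact Nat.pow_le_pow_left (by omega) 4
  have h3 : ((nzb H).card : ℝ) ≤ (3 * H) ^ 4 := by exact_mod_cast h2
  linarith

end ISOP

theorem pISO (hEQ : S_EQ) (hLAM : S_LAM) (hZER : S_ZER) (hPRM : S_PRM) : S_ISO := by
  obtain ⟨C, c0, hL⟩ := hLAM
  obtain ⟨D, hD⟩ : ∃ D : ℝ, D = 2 ^ 60 := ⟨_, rfl⟩
  have D1 : 1 ≤ D := by rw [hD]; norm_num
  refine ⟨2 * (6561 + C * (2 * D) ^ 8), by positivity, fun H P R K hH hP hR hHP => ?_⟩
  have P0 : (2 : ℝ) ≤ P := by exact_mod_cast hP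
  have R0 : 0 < R := by linarith
  have A0 : 0 < D * P := by positivity
  obtain ⟨l1, l2⟩ := hL H (D * P) hH A0
  have pair : ∀ b ∈ nzb H, ∀ b' ∈ (nzb H).filter (fun b' => De b b' ≠ 0), ∑ k ∈ K, ∑ k' ∈ K,
      (if Psi b b' k k' = 0 then mm R b b' k k' else 0) ≤
      2 * R ^ 8 / P * (1 + L8 (D * P) b b') := fun b hb b' hb' => by
    obtain ⟨m0, m1⟩ := ISOP.mbd hb (mem_filter.1 hb').1 (mem_filter.1 hb').2
    obtain ⟨p, hp, p1, p2, p3⟩ := hPRM P _ hP m0 (m1.trans (by exact_mod_cast hHP))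
    obtain ⟨z1, z2, z3⟩ := hZER b b'
    have q1 : (P : ℝ) ≤ p := by exact_mod_cast p1
    have q2 : (p : ℝ) ≤ D * P := by rw [hD]; exact_mod_cast p2
    have q0 : (0 : ℝ) < p := by linarith
    have h := hEQ p R b b' (fun k k' => (p : ℤ) ∣ Psi b b' k k') K K hp.one_le R0
      (fun k k' l l' e e' h => by simpa using h.sub (z2 p k k' l l' e e'))
      fun k k' => by simp only [z1 k k', and_self]
    obtain ⟨u0, u1⟩ := l1 b b' (p / R) (by positivity) ((div_le_self q0.le hR).trans q2)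
    have c : (((res p ×ˢ res p).filter fun c => (p : ℤ) ∣ Psi b b' c.1 c.2).card : ℝ) ≤
        2 * (p : ℝ) ^ 7 := by exact_mod_cast z3 p hp p3
    refine le_trans (sum_le_sum fun k _ => sum_le_sum fun k' _ => ?_) (h.trans ?_)
    · by_cases e : Psi b b' k k' = 0
      · rw [if_pos e, if_pos (e ▸ dvd_zero _)]
      · rw [if_neg e]
        split_ifs
        exacts [ISOP.mm_nonneg _ _ _ _ _, le_rfl]
    · refine mul_le_mul ?_ (by linarith) (by linarith) (by positivity)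
      calc _ ≤ 2 * (p : ℝ) ^ 7 * (R / p) ^ 8 :=
            mul_le_mul_of_nonneg_right (le_of_eq_of_le (by congr!) c) (by positivity)
        _ = 2 * R ^ 8 / p := by field_simp
        _ ≤ _ := by gcongr
  have l0 : ∀ b b', 0 ≤ L8 (D * P) b b' := fun b b' => (l1 b b' _ A0 le_rfl).1
  have c1 := ISOP.card_nzb hH
  have a1 : (1 + D * P) ^ 8 ≤ (2 * D * P) ^ 8 :=
    pow_le_pow_left₀ (by positivity) (by nlinarith) 8
  calc _ ≤ ∑ b ∈ nzb H, ∑ b' ∈ nzb H, 2 * R ^ 8 / P * (1 + L8 (D * P) b b') :=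
        sum_le_sum fun b hb => (sum_le_sum (pair b hb)).trans
          (sum_le_sum_of_subset_of_nonneg (filter_subset _ _) fun b' _ _ => by
            have := l0 b b'
            positivity)
    _ = 2 * R ^ 8 / P * ((nzb H).card * (nzb H).card +
          ∑ b ∈ nzb H, ∑ b' ∈ nzb H, L8 (D * P) b b') := by
        simp only [← mul_sum, sum_add_distrib, sum_const, nsmul_eq_mul, mul_one]
    _ ≤ 2 * R ^ 8 / P * (81 * (H : ℝ) ^ 4 * (81 * (H : ℝ) ^ 4) + C * (2 * D * P) ^ 8 * H ^ 6) := by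
        gcongr
        exact l2.trans (by gcongr)
    _ = 2 * R ^ 8 * (6561 * ((H : ℝ) ^ 8 / P) + C * (2 * D) ^ 8 * ((P : ℝ) ^ 7 * H ^ 6)) := by
        field_simp
        ring
    _ ≤ 2 * R ^ 8 * ((6561 + C * (2 * D) ^ 8) * ((H : ℝ) ^ 8 / P) +
          (6561 + C * (2 * D) ^ 8) * ((P : ℝ) ^ 7 * H ^ 6)) := by
        gcongr
        · exact le_add_of_nonneg_right (by positivity)
        · exact le_add_of_nonneg_left (by norm_num)
    _ = _ := by ring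

end Pool.Agent.P.MP_0ad054_nt.PS
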