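import Pool.Agent.P.MP_0ad054_nt.PS.StT

/-! Only the singular points distinguish the lifts of a class. -/

namespace Pool.Agent.P.MP_0ad054_nt.PS

open Finset Pool.Agent.Lib.H9 Pool.Agent.P.MP_0ad054_nt.Sun Pool.Agent.P.MP_0ad054_nt.Sun.SphereP
  Pool.Agent.P.MP_0ad054_nt.Clu

namespace InvP

theorem nsq_cong {p e : ℕ} (he : 1 ≤ e) {v w : V}
    (h : ∀ j, (p : ℤ) ^ e ∣ v j - w j) : (nm p e : ℤ) ∣ nsq v - nsq w := by
  unfold nsq
  rw [← sum_sub_distrib]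
  refine dvd_sum fun j _ => ?_
  obtain ⟨x, hx⟩ := h j
  have hv : v j = w j + (p : ℤ) ^ e * x := by linarith
  unfold nm
  split_ifs with h2
  · subst h2
    obtain ⟨f, rfl⟩ := Nat.exists_eq_add_of_le' he
    rw [hv]
    exact ⟨x * (w j + 2 ^ f * x), by push_cast; ring⟩
  · rw [hv]
    exact ⟨x * (2 * w j + (p : ℤ) ^ e * x), by push_cast; ring⟩

theorem Q2_cong {M : ℤ} {v w : V} (h : ∀ j, M ∣ v j - w j) : M ∣ Q2 v - Q2 w := by
  have e : Q2 v - Q2 w = (v 0 - w 0) * (v 0 + w 0) + (v 1 - w 1) * (3 * (v 1 + w 1)) +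
      (v 2 - w 2) * (5 * (v 2 + w 2)) + (v 3 - w 3) * (7 * (v 3 + w 3)) := by
    unfold Q2; ring
  rw [e]
  exact dvd_add (dvd_add (dvd_add ((h 0).mul_right _) ((h 1).mul_right _)) ((h 2).mul_right _))
    ((h 3).mul_right _)

/-- the rotation in the plane of two coordinates -/
def rt (i j : Fin 4) (μ : ℤ) (v : V) : V :=
  fun l => v l + μ * (if l = i then v j else if l = j then -v i else 0)

theorem nsq_rt {i j : Fin 4} (h : i ≠ j) (μ : ℤ) (v : V) :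
    nsq (rt i j μ v) = nsq v + μ ^ 2 * (v i ^ 2 + v j ^ 2) := by
  fin_cases i <;> fin_cases j <;> first
    | exact absurd rfl h
    | (simp [nsq_eq', rt]; ring)

theorem Q2_rt {i j : Fin 4} (h : i ≠ j) (μ : ℤ) (v : V) :
    Q2 (rt i j μ v) = Q2 v + μ * (2 * (cz i - cz j)) * (v i * v j) +
      μ ^ 2 * (cz i * v j ^ 2 + cz j * v i ^ 2) := by
  fin_cases i <;> fin_cases j <;> first
    | exact absurd rfl h
    | (simp [Q2, rt, cz]; ring)

theorem dif {i j : Fin 4} (h : i ≠ j) :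
    2 * (cz i - cz j) ≠ 0 ∧ |2 * (cz i - cz j)| ≤ 12 ∧ 2 * (cz i - cz j) ∣ 24 := by
  fin_cases i <;> fin_cases j <;> first
    | exact absurd rfl h
    | (simp [cz]; try norm_num)

theorem rt_inj {i j : Fin 4} (h : i ≠ j) {μ M : ℤ} (hμ : M ∣ μ ^ 2) {v w : V}
    (hd : ∀ l, M ∣ rt i j μ v l - rt i j μ w l) (l : Fin 4) : M ∣ v l - w l := by
  have h1 := hd i
  have h2 := hd j
  have h3 := hd l
  simp only [rt, if_true, if_neg h.symm] at h1 h2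
  have hi : M ∣ v i - w i := by
    have e : v i - w i = (v i + μ * v j - (w i + μ * w j)) -
        μ * (v j + μ * -v i - (w j + μ * -w i)) - μ ^ 2 * (v i - w i) := by ring
    rw [e]
    exact dvd_sub (dvd_sub h1 (h2.mul_left _)) (hμ.mul_right _)
  by_cases a : l = i
  · rw [a]; exact hi
  by_cases b : l = j
  · have e : v j - w j = (v j + μ * -v i - (w j + μ * -w i)) + μ * (v i - w i) := by ring
    rw [b, e]
    exact dvd_add h2 (hi.mul_left _)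
  · simpa [rt, a, b] using h3

/-- the choice of the rotation for a class -/
theorem ex_rot {p k m : ℕ} {τ : ℤ} (hp : p.Prime) (hk : 2 ≤ k)
    (hm : if p ≤ 3 then 2 * m + 8 ≤ k else 2 * m ≤ k) (r : V) :
    ∃ z : Fin 4 × Fin 4 × ℤ, pr p r → ¬ sg p m r → z.1 ≠ z.2.1 ∧ (p : ℤ) ^ m ∣ z.2.2 ∧
      (p : ℤ) ^ k ∣ z.2.2 ^ 2 ∧ (nm p k : ℤ) ∣ z.2.2 ^ 2 ∧
      (p : ℤ) ^ k ∣ z.2.2 * (2 * (cz z.1 - cz z.2.1)) * (p : ℤ) ^ m ∧
      (p : ℤ) ^ k ∣ z.2.2 * (2 * (cz z.1 - cz z.2.1)) * (r z.1 * r z.2.1) -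
        (p : ℤ) ^ (k - 1) * τ := by
  by_cases h : pr p r ∧ ¬ sg p m r
  swap
  · exact ⟨(0, 0, 0), fun a b => absurd ⟨a, b⟩ h⟩
  obtain ⟨h1, h2⟩ := h
  unfold pr at h1
  unfold sg at h2
  push Not at h1 h2
  obtain ⟨j, hj⟩ := h1
  obtain ⟨i, hij, hi⟩ := h2 j
  have hP : Prime (p : ℤ) := Nat.prime_iff_prime_int.1 hp
  have hi0 : r i ≠ 0 := fun e => hi (e ▸ dvd_zero _)
  obtain ⟨d0, d1, d2⟩ := dif hij
  obtain ⟨a, u1, hu1, ha⟩ := WfDvdMonoid.max_power_factor' hi0 hP.not_isUnit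
  obtain ⟨δ, u2, hu2, hδ⟩ := WfDvdMonoid.max_power_factor' d0 hP.not_isUnit
  have ham : a < m := by
    by_contra hc
    exact hi (ha ▸ (pow_dvd_pow _ (not_lt.1 hc)).mul_right _)
  have hp2 : (2 : ℤ) ≤ p := by exact_mod_cast hp.two_le
  have hδ3 : δ ≤ 3 := by
    by_contra hc
    have a1 : (p : ℤ) ^ δ ≤ |2 * (cz i - cz j)| :=
      Int.le_of_dvd (abs_pos.2 d0) ((dvd_abs _ _).2 ⟨u2, hδ⟩)
    have a2 : (2 : ℤ) ^ 4 ≤ 2 ^ δ := pow_le_pow_right₀ (by norm_num) (by omega)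
    have a3 : (2 : ℤ) ^ δ ≤ (p : ℤ) ^ δ := pow_le_pow_left₀ (by norm_num) hp2 _
    norm_num at a2
    linarith
  have hδ0 : ¬ p ≤ 3 → δ = 0 := by
    intro h3
    by_contra hc
    have a1 : (p : ℤ) ∣ 24 := ((dvd_pow_self _ hc).trans ⟨u2, hδ⟩).trans d2
    have a2 : p ∣ 2 ^ 3 * 3 := by exact_mod_cast a1
    rcases (Nat.Prime.dvd_mul hp).1 a2 with a3 | a3
    · have := Nat.le_of_dvd (by norm_num) (hp.dvd_of_dvd_pow a3)
      omega
    · have := Nat.le_of_dvd (by norm_num) a3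
      omega
  have hs : ∃ s, k = s + a + δ + 1 ∧ m ≤ s ∧ k ≤ 2 * s ∧ (p = 2 → k + 1 ≤ 2 * s) := by
    refine ⟨k - 1 - a - δ, ?_⟩
    split_ifs at hm with h3
    · omega
    · have := hδ0 h3
      omega
  obtain ⟨s, hks, hms, h2s, h2s'⟩ := hs
  have hu : ¬ (p : ℤ) ∣ u1 * r j * u2 := by
    intro hc
    rcases hP.dvd_or_dvd hc with b | b
    · rcases hP.dvd_or_dvd b with b | b
      · exact hu1 b
      · exact hj b
    · exact hu2 b
  obtain ⟨x, y, hxy⟩ := (hP.irreducible.coprime_iff_not_dvd).2 hu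
  have sq : ∀ n, n ≤ 2 * s → (p : ℤ) ^ n ∣ ((p : ℤ) ^ s * (y * τ)) ^ 2 := fun n hn => by
    rw [mul_pow, ← pow_mul, mul_comm s 2]
    exact (pow_dvd_pow _ hn).mul_right _
  refine ⟨(i, j, (p : ℤ) ^ s * (y * τ)), fun _ _ => ⟨hij, (pow_dvd_pow _ hms).mul_right _,
    sq _ h2s, ?_, ?_, ?_⟩⟩
  · unfold nm
    split_ifs with b
    · have := sq _ (h2s' b)
      subst b
      exact_mod_cast this
    · exact_mod_cast sq _ h2s
  · obtain ⟨n, rfl⟩ := Nat.exists_eq_add_of_lt ham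
    simp only [hδ]
    rw [hks]
    exact ⟨y * τ * u2 * (p : ℤ) ^ n, by ring⟩
  · simp only [hδ, ha]
    rw [hks, Nat.add_sub_cancel]
    refine ⟨-(x * τ), ?_⟩
    have e : y * (u1 * r j * u2) = 1 - x * p := by linarith
    calc (p : ℤ) ^ s * (y * τ) * ((p : ℤ) ^ δ * u2) * ((p : ℤ) ^ a * u1 * r j) -
          (p : ℤ) ^ (s + a + δ) * τ
        = (p : ℤ) ^ (s + a + δ) * τ * (y * (u1 * r j * u2) - 1) := by ring
      _ = _ := by rw [e]; ring

open Classical in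
theorem le_one {p k m : ℕ} {c t t' : ℤ} (hp : p.Prime) (hk : 2 ≤ k)
    (hm : if p ≤ 3 then 2 * m + 8 ≤ k else 2 * m ≤ k) (ht : (p : ℤ) ^ (k - 1) ∣ t' - t) :
    ((P0 p k c).filter (fun v => ¬ sg p m v ∧ (p : ℤ) ^ k ∣ Q2 v - t)).card ≤
      ((P0 p k c).filter (fun v => ¬ sg p m v ∧ (p : ℤ) ^ k ∣ Q2 v - t')).card := by
  obtain ⟨τ, hτ⟩ := ht
  choose z hz using fun r => ex_rot (τ := τ) hp hk hm r
  have hmk : m ≤ k := by split_ifs at hm <;> omega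
  have hpk : p ^ k ≠ 0 := pow_ne_zero _ hp.ne_zero
  have red : ∀ (x M : ℤ), M ∣ x % M - x := fun x M => by
    rw [Int.emod_def]; exact ⟨-(x / M), by ring⟩
  have tr : ∀ v w : V, (∀ l, (p : ℤ) ^ m ∣ v l - w l) → pr p w → ¬ sg p m w →
      pr p v ∧ ¬ sg p m v := by
    intro v w h h1 h2
    have m0 : m ≠ 0 := by
      rintro rfl
      exact h2 ⟨0, fun i _ => by simp⟩
    refine ⟨fun b => h1 fun l => ?_, fun ⟨j, b⟩ => h2 ⟨j, fun i hi => ?_⟩⟩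
    · have := dvd_sub (b l) ((dvd_pow_self _ m0).trans (h l))
      simpa using this
    · have := dvd_sub (b i hi) (h i)
      simpa using this
  set cl : V → V := fun v l => v l % (p : ℤ) ^ m with hcl
  set ψ : V → V := fun v => rt (z (cl v)).1 (z (cl v)).2.1 (z (cl v)).2.2 v with hψ
  set φ : V → V := fun v l => ψ v l % ((p ^ k : ℕ) : ℤ) with hφ
  have c1 : ∀ v l, (p : ℤ) ^ k ∣ φ v l - ψ v l := fun v l => by
    rw [← Nat.cast_pow]
    exact red (ψ v l) ((p ^ k : ℕ) : ℤ)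
  have c0 : ∀ v l, (p : ℤ) ^ m ∣ cl v l - v l := fun v l => red _ _
  have c2 : ∀ v, pr p v → ¬ sg p m v → ∀ l, (p : ℤ) ^ m ∣ φ v l - v l := by
    intro v h1 h2 l
    obtain ⟨a1, a2⟩ := tr _ _ (c0 v) h1 h2
    have b := (hz _ a1 a2).2.1
    have e : φ v l - v l = (φ v l - ψ v l) + (ψ v l - v l) := by ring
    rw [e]
    refine dvd_add ((pow_dvd_pow _ hmk).trans (c1 v l)) ?_
    simp only [hψ, rt, add_sub_cancel_left]
    exact b.mul_right _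
  refine card_le_card_of_injOn φ ?_ ?_
  · intro v hv
    simp only [P0, coe_filter, mem_filter, Set.mem_ofPred_eq] at hv ⊢
    obtain ⟨⟨-, h1, h3⟩, h2, h4⟩ := hv
    obtain ⟨a1, a2⟩ := tr _ _ (c0 v) h1 h2
    obtain ⟨b0, -, b2, b3, b4, b5⟩ := hz _ a1 a2
    obtain ⟨d1, d2⟩ := tr _ _ (c2 v h1 h2) h1 h2
    refine ⟨⟨emod_mem_res hpk _, d1, ?_⟩, d2, ?_⟩
    · have e : nsq (φ v) - c = (nsq (φ v) - nsq (ψ v)) + (nsq v - c) +
          (z (cl v)).2.2 ^ 2 * (v (z (cl v)).1 ^ 2 + v (z (cl v)).2.1 ^ 2) := by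
        simp only [hψ]; rw [nsq_rt b0]; ring
      rw [e]
      exact dvd_add (dvd_add (nsq_cong (by omega) (c1 v)) h3) (b3.mul_right _)
    · obtain ⟨x, hx⟩ := c0 v (z (cl v)).1
      obtain ⟨y, hy⟩ := c0 v (z (cl v)).2.1
      have hx' : cl v (z (cl v)).1 = v (z (cl v)).1 + (p : ℤ) ^ m * x := by linarith
      have hy' : cl v (z (cl v)).2.1 = v (z (cl v)).2.1 + (p : ℤ) ^ m * y := by linarith
      rw [hx', hy'] at b5
      have e : Q2 (φ v) - t' = (Q2 (φ v) - Q2 (ψ v)) + (Q2 v - t) +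
          (z (cl v)).2.2 ^ 2 * (cz (z (cl v)).1 * v (z (cl v)).2.1 ^ 2 +
            cz (z (cl v)).2.1 * v (z (cl v)).1 ^ 2) +
          ((z (cl v)).2.2 * (2 * (cz (z (cl v)).1 - cz (z (cl v)).2.1)) *
            ((v (z (cl v)).1 + (p : ℤ) ^ m * x) * (v (z (cl v)).2.1 + (p : ℤ) ^ m * y)) -
            (p : ℤ) ^ (k - 1) * τ) -
          (z (cl v)).2.2 * (2 * (cz (z (cl v)).1 - cz (z (cl v)).2.1)) * (p : ℤ) ^ m *
            (x * v (z (cl v)).2.1 + y * v (z (cl v)).1 + (p : ℤ) ^ m * x * y) := by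
        simp only [hψ]; rw [Q2_rt b0, ← hτ]; ring
      rw [e]
      exact dvd_sub (dvd_add (dvd_add (dvd_add (Q2_cong (c1 v)) h4) (b2.mul_right _)) b5)
        (b4.mul_right _)
  · intro v hv w hw hvw
    simp only [P0, coe_filter, mem_filter, Set.mem_ofPred_eq] at hv hw
    obtain ⟨⟨r1, h1, -⟩, h2, -⟩ := hv
    obtain ⟨⟨r2, g1, -⟩, g2, -⟩ := hw
    have e : cl v = cl w := by
      funext l
      have a := dvd_sub (c2 v h1 h2 l) (c2 w g1 g2 l)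
      rw [hvw] at a
      have a' : (p : ℤ) ^ m ∣ w l - v l := by
        have e : φ w l - v l - (φ w l - w l) = w l - v l := by ring
        rwa [e] at a
      exact (Int.modEq_iff_dvd.2 a')
    obtain ⟨a1, a2⟩ := tr _ _ (c0 v) h1 h2
    obtain ⟨b0, -, b2, -⟩ := hz _ a1 a2
    refine eq_of_mem_res r1 r2 fun l => ?_
    rw [Nat.cast_pow]
    refine rt_inj b0 b2 (fun n => ?_) l
    have a := dvd_sub (c1 w n) (c1 v n)
    rw [hvw] at a
    have e2 : φ w n - ψ w n - (φ w n - ψ v n) = ψ v n - ψ w n := by ring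
    rw [e2] at a
    simp only [hψ] at a
    rwa [← e] at a

end InvP

theorem pInv : S_Inv := by
  intro p k m c t t' hp hk hm ht
  exact le_antisymm (InvP.le_one hp hk hm (dvd_sub_comm.1 ht)) (InvP.le_one hp hk hm ht)

end Pool.Agent.P.MP_0ad054_nt.PS
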