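import Pool.Agent.P.MP_0ad054_nt.PS.St
import Pool.Agent.Lib.helper9.Cusp
import Pool.Agent.Lib.helper9.Equi

/-! The complete sum in eleven variables. -/

namespace Pool.Agent.P.MP_0ad054_nt.PS

open Finset Pool.Agent.Lib.H9 Pool.Agent.P.MP_0ad054_nt.Sun Pool.Agent.P.MP_0ad054_nt.Sun.SphereP
  Pool.Agent.P.MP_0ad054_nt.Clu
open scoped Real ComplexConjugate

namespace K11P

open Classical in
theorem weyl {q : ℕ} [NeZero q] {A : Type*} [AddCommGroup A] [Fintype A] (F : A → ZMod q)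
    (P : A → A → ZMod q) (hF : ∀ z h, F (h + z) = F h + F z + P h z)
    (hP : ∀ h z w, P h (z + w) = P h z + P h w) :
    ‖∑ z, (ZMod.stdAddChar (F z) : ℂ)‖ ^ 2 ≤
      Fintype.card A * ((univ.filter fun h => ∀ z, P h z = 0).card : ℝ) := by
  set χ : AddChar (ZMod q) ℂ := ZMod.stdAddChar with hχ
  have key : ((‖∑ z, χ (F z)‖ ^ 2 : ℝ) : ℂ) = ∑ h, χ (F h) * ∑ z, χ (P h z) := by
    rw [norm_sq_eq_mul_conj, map_sum, sum_mul_sum, sum_comm]
    simp_rw [mul_sum]
    rw [sum_comm (s := univ) (t := univ) (f := fun h z => χ (F h) * χ (P h z))]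
    refine sum_congr rfl fun t _ => ?_
    rw [← Equiv.sum_comp (Equiv.addRight t)]
    refine sum_congr rfl fun h _ => ?_
    rw [← AddChar.map_neg_eq_conj, ← AddChar.map_add_eq_mul, ← AddChar.map_add_eq_mul]
    congr 1
    simp only [Equiv.coe_addRight, hF]; ring
  have h2 := congrArg norm key
  rw [Complex.norm_real, Real.norm_of_nonneg (by positivity)] at h2
  rw [h2]
  refine (norm_sum_le _ _).trans ?_
  rw [card_filter]
  push_cast
  rw [mul_sum]
  refine sum_le_sum fun h _ => ?_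
  rw [norm_mul, norm_stdAddChar, one_mul]
  split_ifs with hz
  · simp [hz]
  · obtain ⟨w, hw⟩ := not_forall.1 hz
    have e : ∑ z, χ (P h z) = (∑ z, χ (P h z)) * χ (P h w) := by
      rw [sum_mul, ← Equiv.sum_comp (Equiv.addRight w)]
      exact sum_congr rfl fun z _ => by rw [Equiv.coe_addRight, hP, AddChar.map_add_eq_mul]
    have h1 : χ (P h w) ≠ 1 := fun k =>
      hw (ZMod.injective_stdAddChar (k.trans (AddChar.map_zero_eq_one _).symm))
    rw [eq_zero_of_mul_eq_self_right h1 e.symm]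
    simp

variable {q : ℕ}

/-- the phase of one factor -/
def ff (b k : V) (r : ℤ) (n : ZMod q) (y : ZMod q × (Fin 4 → ZMod q)) : ZMod q :=
  ∑ j, (r * cz j * y.2 j ^ 2 + y.1 * b j * y.2 j + n * cz j * b j * y.2 j + k j * y.2 j)

/-- its polar form -/
def pf (b : V) (r : ℤ) (n m : ZMod q) (x y : ZMod q × (Fin 4 → ZMod q)) : ZMod q :=
  ∑ j, ((2 * r * cz j * x.2 j + x.1 * b j + n * cz j * b j) * y.2 j +
    y.1 * (b j * x.2 j) + m * (cz j * b j * x.2 j))

theorem ff_add (b k : V) (r : ℤ) (n m : ZMod q) (x y : ZMod q × (Fin 4 → ZMod q)) :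
    ff b k r (n + m) (x + y) = ff b k r n x + ff b k r m y + pf b r n m x y := by
  simp only [ff, pf, ← sum_add_distrib, Prod.fst_add, Prod.snd_add, Pi.add_apply]
  exact sum_congr rfl fun j _ => by ring

theorem pf_add (b : V) (r : ℤ) (n m l : ZMod q) (x y z : ZMod q × (Fin 4 → ZMod q)) :
    pf b r n (m + l) x (y + z) = pf b r n m x y + pf b r n l x z := by
  simp only [pf, ← sum_add_distrib, Prod.fst_add, Prod.snd_add, Pi.add_apply]
  exact sum_congr rfl fun j _ => by ring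

theorem GB_eq [NeZero q] (b k : V) (r n : ℤ) :
    GB q b r n k = ∑ y : ZMod q × (Fin 4 → ZMod q), (ZMod.stdAddChar (ff b k r n y) : ℂ) := by
  rw [Fintype.sum_prod_type, ← sum_Ico_eq_sum_zmod, GB]
  refine sum_congr rfl fun n1 _ => ?_
  rw [← sum_res_eq_sum_zmod]
  refine sum_congr rfl fun x _ => ?_
  have : ∀ a : ℤ, ex q a = ZMod.stdAddChar (a : ZMod q) := fun a => by
    rw [← ee_div_eq_stdAddChar, ex, e, ee]; push_cast; rfl
  rw [this]
  congr 1
  simp [ff, Q2, dot, QB, cz, Fin.sum_univ_four]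
  ring

theorem ker {b : V} {r : ℤ} {n : ZMod q} {x : ZMod q × (Fin 4 → ZMod q)}
    (h : ∀ y, pf b r n 0 x y = 0) :
    (∀ j, 2 * r * cz j * x.2 j + x.1 * b j + n * cz j * b j = 0) ∧
      (al b : ZMod q) * x.1 + 105 * nsq b * n = 0 ∧
      2 * r * pf b r n 1 x 0 + (nsq b * x.1 + Q2 b * n) = 0 := by
  have h1 : ∀ j, 2 * r * cz j * x.2 j + x.1 * b j + n * cz j * b j = 0 := fun j => by
    simpa [pf, Pi.single_apply] using h (0, Pi.single j 1)
  have h2 := h (1, 0)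
  have k0 := h1 0
  have k1 := h1 1
  have k2 := h1 2
  have k3 := h1 3
  simp [pf, cz, Fin.sum_univ_four] at h2 k0 k1 k2 k3
  refine ⟨h1, ?_, ?_⟩
  · simp [al, QS, cs, nsq, Fin.sum_univ_four]
    linear_combination 105 * b 0 * k0 + 35 * b 1 * k1 + 21 * b 2 * k2 + 15 * b 3 * k3 - 210 * r * h2
  · simp [pf, cz, Q2, nsq, Fin.sum_univ_four]
    linear_combination b 0 * k0 + b 1 * k1 + b 2 * k2 + b 3 * k3

theorem gcd_smul {r : ℤ} (hr : IsCoprime r q) {a : ZMod q} (j : Fin 4) (h : 2 * r * cz j * a = 0) :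
    Nat.gcd q 210 • a = 0 := by
  have hu : IsUnit (r : ZMod q) := (ZMod.coe_int_isUnit_iff_isCoprime r q).2 hr.symm
  have h1 : (cz j : ZMod q) * cs j = 105 := by fin_cases j <;> simp [cz, cs] <;> norm_num
  have h2 : (210 : ZMod q) * a = 0 := hu.mul_left_cancel (by
    linear_combination cs j * h - 2 * r * a * h1)
  have h3 := congrArg (Int.cast : ℤ → ZMod q) (Nat.gcd_eq_gcd_ab q 210)
  push_cast at h3
  rw [nsmul_eq_mul, h3, ZMod.natCast_self]
  linear_combination (Nat.gcdB q 210 : ZMod q) * h2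

end K11P

open K11P in
theorem pK11 (hKE : S_KE) : S_K11 := by
  classical
  intro q b b' k k' r hq hb hb' hr
  have : NeZero q := ⟨by omega⟩
  have h := weyl (A := ZMod q × (ZMod q × (Fin 4 → ZMod q)) × (ZMod q × (Fin 4 → ZMod q)))
    (fun z => ff b k r z.1 z.2.1 - ff b' k' r z.1 z.2.2)
    (fun h z => pf b r h.1 z.1 h.2.1 z.2.1 - pf b' r h.1 z.1 h.2.2 z.2.2)
    (fun z h => by simp only [Prod.fst_add, Prod.snd_add, ff_add]; ring)
    (fun h z w => by simp only [Prod.fst_add, Prod.snd_add, pf_add]; ring)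
  have e : G11 q b b' r k k' = ∑ z : ZMod q × (ZMod q × (Fin 4 → ZMod q)) ×
      (ZMod q × (Fin 4 → ZMod q)),
      (ZMod.stdAddChar (ff b k r z.1 z.2.1 - ff b' k' r z.1 z.2.2) : ℂ) := by
    rw [Fintype.sum_prod_type, ← sum_Ico_eq_sum_zmod, G11]
    refine sum_congr rfl fun n _ => ?_
    rw [GB_eq, GB_eq, map_sum, sum_mul_sum, ← Fintype.sum_prod_type']
    refine sum_congr rfl fun x _ => ?_
    rw [← AddChar.map_neg_eq_conj, ← AddChar.map_add_eq_mul, sub_eq_add_neg]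
  rw [e]
  refine h.trans (mul_le_mul (le_of_eq (by simp; ring)) ?_ (by positivity) (by positivity))
  have p0 : ∀ (b : V) (n : ZMod q) x, pf b r n 0 x 0 = 0 := fun b n x => by simp [pf]
  have k1 : ∀ h : ZMod q × (ZMod q × (Fin 4 → ZMod q)) × (ZMod q × (Fin 4 → ZMod q)),
      (∀ z : ZMod q × (ZMod q × (Fin 4 → ZMod q)) × (ZMod q × (Fin 4 → ZMod q)),
        pf b r h.1 z.1 h.2.1 z.2.1 - pf b' r h.1 z.1 h.2.2 z.2.2 = 0) →
      (∀ y, pf b r h.1 0 h.2.1 y = 0) ∧ ∀ y, pf b' r h.1 0 h.2.2 y = 0 := fun h hh =>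
    ⟨fun y => by simpa [p0] using hh (0, y, 0), fun y => by simpa [p0] using hh (0, 0, y)⟩
  refine le_trans (Nat.cast_le.2 ((card_le_mul_card_image_of_maps_to
    (f := fun h => (((h.2.1.1.val : ℤ), (h.2.2.1.val : ℤ), (h.1.val : ℤ)) : ℤ × ℤ × ℤ))
    (fun h hh => ?_) (Nat.gcd q 210 ^ 8) fun c _ => ?_).trans
    (Nat.mul_le_mul_left _ (hKE q b b' hq hb hb')))) (le_of_eq (by push_cast; ring))
  · have hh := (mem_filter.1 hh).2
    obtain ⟨-, a1, a2⟩ := ker (k1 h hh).1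
    obtain ⟨-, a3, a4⟩ := ker (k1 h hh).2
    have a5 := hh (1, 0, 0)
    have v : ∀ a : ZMod q, (a.val : ℤ) ∈ Ico (0 : ℤ) q := fun a =>
      mem_Ico.2 ⟨by positivity, by exact_mod_cast ZMod.val_lt a⟩
    simp only [mem_filter, mem_product, v, true_and, ← ZMod.intCast_zmod_eq_zero_iff_dvd, ka]
    push_cast
    simp only [ZMod.natCast_zmod_val]
    exact ⟨a1, a3, by linear_combination a2 - a4 - 2 * r * a5⟩
  · refine (Nat.eq_zero_or_pos _).elim (fun h => h.trans_le (Nat.zero_le _)) fun hp => ?_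
    obtain ⟨g, hg⟩ := card_pos.1 hp
    set T := Fintype.piFinset fun _ : Fin 4 => univ.filter fun a : ZMod q => Nat.gcd q 210 • a = 0
    have c1 : T.card ≤ Nat.gcd q 210 ^ 4 := by
      rw [Fintype.card_piFinset, prod_const, card_univ, Fintype.card_fin]
      exact Nat.pow_le_pow_left (IsAddCyclic.card_nsmul_eq_zero_le (Nat.gcd_pos_of_pos_left _ hq)) 4
    have same : ∀ x y : ZMod q × (ZMod q × (Fin 4 → ZMod q)) × (ZMod q × (Fin 4 → ZMod q)),
        (((x.2.1.1.val : ℤ), (x.2.2.1.val : ℤ), (x.1.val : ℤ)) : ℤ × ℤ × ℤ) = c →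
        (((y.2.1.1.val : ℤ), (y.2.2.1.val : ℤ), (y.1.val : ℤ)) : ℤ × ℤ × ℤ) = c →
        x.2.1.1 = y.2.1.1 ∧ x.2.2.1 = y.2.2.1 ∧ x.1 = y.1 := fun x y h1 h2 => by
      simpa only [Prod.mk.injEq, Nat.cast_inj, (ZMod.val_injective q).eq_iff]
        using h1.trans h2.symm
    refine (card_le_card_of_injOn (t := T ×ˢ T) (fun h => (h.2.1.2 - g.2.1.2, h.2.2.2 - g.2.2.2))
      (fun h hh => ?_) fun x hx y hy hxy => ?_).trans ?_
    · obtain ⟨a1, a2⟩ := mem_filter.1 hg
      obtain ⟨a3, a4⟩ := mem_filter.1 (mem_coe.1 hh)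
      obtain ⟨e1, e2, e3⟩ := same _ _ a4 a2
      have b1 := k1 g (mem_filter.1 a1).2
      have b2 := k1 h (mem_filter.1 a3).2
      simp only [T, coe_product, Set.mem_prod, mem_coe, Fintype.mem_piFinset, mem_filter, mem_univ,
        true_and, Pi.sub_apply]
      refine ⟨fun j => gcd_smul hr j ?_, fun j => gcd_smul hr j ?_⟩
      · have := (ker b2.1).1 j
        rw [e1, e3] at this
        linear_combination this - (ker b1.1).1 j
      · have := (ker b2.2).1 j
        rw [e2, e3] at this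
        linear_combination this - (ker b1.2).1 j
    · obtain ⟨e1, e2, e3⟩ := same _ _ (mem_filter.1 (mem_coe.1 hx)).2 (mem_filter.1 (mem_coe.1 hy)).2
      obtain ⟨e4, e5⟩ := Prod.mk.inj hxy
      exact Prod.ext e3 (Prod.ext (Prod.ext e1 (sub_left_injective e4))
        (Prod.ext e2 (sub_left_injective e5)))
    · rw [card_product, show 8 = 4 + 4 by rfl, pow_add]
      exact Nat.mul_le_mul c1 c1

end Pool.Agent.P.MP_0ad054_nt.PS
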