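import Pool.Agent.P.MP_0ad054_nt.PS.St

/-! The choice of the parameters and the bound for a block. -/

namespace Pool.Agent.P.MP_0ad054_nt.PS

open Finset Pool.Agent.Lib.H9 Pool.Agent.P.MP_0ad054_nt.Sun Pool.Agent.P.MP_0ad054_nt.Sun.SphereP
  Pool.Agent.P.MP_0ad054_nt.Clu
open scoped Real ComplexConjugate

namespace KAP

lemma one_le_Om (N : ℕ) (η : ℝ) : 1 ≤ Om N η :=
  Real.one_le_sqrt.2 (le_add_of_nonneg_right (sq_nonneg _))

lemma Om_le (N : ℕ) (η : ℝ) : Om N η ≤ 1 + N * |η| := by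
  have h : (0 : ℝ) ≤ N * |η| := by positivity
  refine Real.sqrt_le_iff.2 ⟨by positivity, ?_⟩
  have : ((N : ℝ) * η) ^ 2 = (N * |η|) ^ 2 := by rw [mul_pow, mul_pow, sq_abs]
  rw [this]
  nlinarith

lemma card_good (H G : ℕ) : (good H G).card ≤ (2 * H + 1) ^ 4 := by
  refine ((card_filter_le _ _).trans (card_filter_le _ _)).trans (le_of_eq ?_)
  rw [bx, Fintype.card_piFinset, prod_const, card_univ, Fintype.card_fin, iv, Int.card_Icc]
  congr 1
  omega

lemma cmul {u c : ℝ} (hu : 100 ≤ u) {k a b : ℕ} (hc : c ≤ 100 ^ k) (h : k + a ≤ b) :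
    c * u ^ a ≤ u ^ b := by
  have h0 : (0 : ℝ) ≤ u := by linarith
  calc c * u ^ a ≤ u ^ k * u ^ a :=
        mul_le_mul_of_nonneg_right (hc.trans (pow_le_pow_left₀ (by norm_num) hu k)) (pow_nonneg h0 a)
    _ ≤ u ^ b := by rw [← pow_add]; exact pow_le_pow_right₀ (by linarith) h

end KAP

open KAP in
theorem pPAR : S_PAR := by
  intro u N T H G q0 η ⟨hu, hN, hT1, hT2, hH1, hH2, _, hG2, hq1, hq2, hη⟩
  have h0 : (0 : ℝ) < u := by linarith
  have hO := one_le_Om N η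
  have hq : (1 : ℝ) ≤ q0 := by exact_mod_cast hq1
  have hqO : q0 * Om N η ≤ q0 + u ^ 2998 := by
    have h1 : (q0 : ℝ) * (N * |η|) = |η| * (q0 * u ^ 3002) * u ^ 2998 := by rw [← hN]; ring
    have h2 := mul_le_of_le_one_left (pow_nonneg h0.le 2998) hη
    have h3 := mul_le_mul_of_nonneg_left (Om_le N η) (show (0 : ℝ) ≤ q0 by positivity)
    rw [mul_add, h1] at h3
    linarith
  have hY : q0 * Om N η ≤ 2 * u ^ 3002 := by
    have : u ^ 2998 ≤ u ^ 3002 := pow_le_pow_right₀ (by linarith) (by norm_num)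
    linarith
  have hY0 : 0 < q0 * Om N η := by positivity
  have hH : (16 : ℝ) * H ≤ N := by
    have := cmul (c := 160) (k := 2) (a := 1001) (b := 6000) hu (by norm_num) (by norm_num)
    linarith
  have hH' : 16 * H ≤ N := by exact_mod_cast hH
  have hTg : u ^ 22003 / Om N η ≤ Tg u N q0 η := by
    have h1 : u ^ 22003 / Om N η = u ^ 22004 / Om N η * (1 / u) := by
      rw [show u ^ 22004 = u ^ 22003 * u from pow_succ u 22003]; field_simp
    rw [h1, Tg]
    exact mul_le_mul_of_nonneg_left (le_add_of_nonneg_right (by positivity)) (by positivity)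
  refine ⟨⟨?_, ?_, hH1, hH', ?_, hq1, ?_, ?_, ?_, by positivity, ?_⟩, hO, hqO, by omega, ?_, hTg,
    fun b hb => ⟨(mem_filter.1 hb).1, le_trans (by exact_mod_cast (mem_filter.1 hb).2) hG2⟩⟩
  · have : (0 : ℝ) < T := by have := pow_pos h0 1999; linarith
    exact_mod_cast this
  · have : (T : ℝ) ≤ N := hT2.trans (hN ▸ pow_le_pow_right₀ (by linarith) (by norm_num))
    exact_mod_cast this
  · calc ((T : ℝ) * H) ^ 2 ≤ (u ^ 1999 * (10 * u ^ 1001)) ^ 2 := by gcongr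
      _ = 100 * (N : ℝ) := by rw [← hN]; ring
  · have := cmul (c := 2) (k := 1) (a := 3002) (b := 6000) hu (by norm_num) (by norm_num)
    have : (2 : ℝ) * q0 ≤ N := by linarith
    exact_mod_cast this
  · calc (q0 * Om N η) ^ 4 ≤ (2 * u ^ 3002) ^ 4 := by gcongr
      _ = 16 * u ^ 12008 := by ring
      _ ≤ u ^ 18000 := cmul (k := 1) hu (by norm_num) (by norm_num)
      _ = _ := by rw [← hN, ← pow_mul]
  · have : (11 * (q0 * Om N η) / u ^ 3000) ^ 2 * N = 121 * (q0 * Om N η) ^ 2 := by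
      rw [← hN, show u ^ 6000 = (u ^ 3000) ^ 2 by rw [← pow_mul], ← mul_pow,
        div_mul_cancel₀ _ (pow_pos h0 3000).ne']
      ring
    rw [this]
    nlinarith [sq_nonneg (q0 * Om N η)]
  · have h1 : 11 * (q0 * Om N η) / u ^ 3000 ≤ 22 * u ^ 2 := by
      rw [div_le_iff₀ (pow_pos h0 3000)]
      have : 22 * u ^ 2 * u ^ 3000 = 11 * (2 * u ^ 3002) := by ring
      linarith
    calc _ ≤ (22 * u ^ 2) ^ 2 := by gcongr
      _ = 484 * u ^ 4 := by ring
      _ ≤ u ^ 6000 := cmul (k := 2) hu (by norm_num) (by norm_num)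
      _ = _ := hN
  · refine le_trans ?_ hTg
    have h1 : ((good H G).card : ℝ) ≤ (2 * H + 1) ^ 4 := by exact_mod_cast card_good H G
    have h2 : (1 : ℝ) ≤ H := by exact_mod_cast hH1
    have h3 : (2 * H + 1 : ℝ) ≤ 30 * u ^ 1001 := by linarith
    have h4 : Om N η ≤ 2 * u ^ 3002 := (le_mul_of_one_le_left (by linarith) hq).trans hY
    rw [le_div_iff₀ (by linarith)]
    calc _ ≤ ((30 * u ^ 1001) ^ 4) ^ 2 * (2 * u ^ 3002) := by
          have := h1.trans (pow_le_pow_left₀ (by positivity) h3 4)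
          gcongr
      _ = 2 * 30 ^ 8 * u ^ 11010 := by ring
      _ ≤ _ := cmul (k := 9) hu (by norm_num) (by norm_num)

theorem pKA (hXI : S_XI) (hKA0 : S_KA0) (hKA1 : S_KA1) (hKA2 : S_KA2) (hKA3 : S_KA3) : S_KA := by
  intro ε hε
  obtain ⟨C, -, hX⟩ := hXI
  obtain ⟨C0, h0, k0⟩ := hKA0 ε hε
  obtain ⟨C1, h1, k1⟩ := hKA1 ε hε
  obtain ⟨C2, h2, k2⟩ := hKA2 ε hε
  obtain ⟨C3, h3, k3⟩ := hKA3 ε hε
  refine ⟨C0 + C1 + C2 + C3, by positivity, fun u N T H G q0 η hP => ?_⟩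
  obtain ⟨hR, -, -, -, hc, -⟩ := pPAR u N T H G q0 η hP
  have hX' := ((hX N (hR.1.trans hR.2.1)).2 T (good H G) hR.1).2.1
  have hE : 0 ≤ (N : ℝ) ^ ε * Tg u N q0 η := mul_nonneg (by positivity) ((sq_nonneg _).trans hc)
  have e1 : ∑ q ∈ Ico q0 (2 * q0), ∑ r ∈ un q, Xi N T (good H G) (r / q + η) ≤
      ∑ b ∈ good H G, ∑ b' ∈ good H G, XP N T q0 η b b' := by
    have e2 : ∀ q : ℕ, ∑ r ∈ un q, Xi N T (good H G) (r / q + η) ≤ ∑ b ∈ good H G,
        ∑ b' ∈ good H G, ‖∑ r ∈ un q, th N T b b' (r / q + η) * TH N b b' (r / q + η)‖ := by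
      intro q
      have e3 : ((∑ r ∈ un q, Xi N T (good H G) (r / q + η) : ℝ) : ℂ) = ∑ b ∈ good H G,
          ∑ b' ∈ good H G, ∑ r ∈ un q, th N T b b' (r / q + η) * TH N b b' (r / q + η) := by
        rw [Complex.ofReal_sum, sum_congr rfl fun r _ => (hX' _).2.2, sum_comm]
        exact sum_congr rfl fun b _ => sum_comm
      refine (le_abs_self _).trans ?_
      rw [← Real.norm_eq_abs, ← Complex.norm_real, e3]
      exact (norm_sum_le _ _).trans (sum_le_sum fun b _ => norm_sum_le _ _)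
    refine (sum_le_sum fun q _ => e2 q).trans (le_of_eq ?_)
    rw [sum_comm]
    exact sum_congr rfl fun b _ => sum_comm
  have e4 : ∑ b ∈ good H G, ∑ b' ∈ (good H G).filter (fun b' => ka b b' ≠ 0 ∧ De b b' ≠ 0),
      XP N T q0 η b b' ≤ (C0 + C1 + C2) * ((N : ℝ) ^ ε * Tg u N q0 η) := by
    have m0 := mul_nonneg h0.le hE
    have m1 := mul_nonneg h1.le hE
    have m2 := mul_nonneg h2.le hE
    by_cases hA : q0 * Om N η ≤ u ^ 2250 ∨ q0 * Real.sqrt (Om N η) ≤ T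
    · have := k0 u N T H G q0 η hP hA
      linarith
    · rw [not_or, not_le, not_le] at hA
      rcases le_total (q0 : ℝ) (u ^ 2998) with hq | hq
      · have := k1 u N T H G q0 η hP hA.1.le hA.2.le hq
        linarith
      · have := k2 u N T H G q0 η hP hq
        linarith
  have e5 := k3 u N T H G q0 η hP
  refine e1.trans ?_
  rw [sum_congr rfl fun b _ => (sum_filter_add_sum_filter_not (good H G)
    (fun b' => ka b b' ≠ 0 ∧ De b b' ≠ 0) (XP N T q0 η b)).symm, sum_add_distrib]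
  linarith

end Pool.Agent.P.MP_0ad054_nt.PS
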