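import Pool.Agent.P.MP_0ad054_nt.PS.St

/-! Non-degenerate pairs: small and middle blocks. -/

namespace Pool.Agent.P.MP_0ad054_nt.PS

open Finset Pool.Agent.Lib.H9 Pool.Agent.P.MP_0ad054_nt.Sun Pool.Agent.P.MP_0ad054_nt.Sun.SphereP
  Pool.Agent.P.MP_0ad054_nt.Clu
open scoped Real ComplexConjugate

namespace KA0P

theorem I8_nonneg (r : ℝ) (b b' : V) : 0 ≤ I8 r b b' := by
  have hJ : ∀ (c : V) (θ : ℝ), 0 ≤ JJ r c θ := fun c θ =>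
    intervalIntegral.integral_nonneg zero_le_one fun x _ =>
      prod_nonneg fun j _ => tsum_nonneg fun n => (Real.exp_pos _).le
  exact intervalIntegral.integral_nonneg zero_le_one fun θ _ => mul_nonneg (hJ b θ) (hJ b' θ)

theorem good_sub (H G : ℕ) : good H G ⊆ nzb H := filter_subset _ _

theorem sum_sub {A B : Finset V} (hAB : A ⊆ B) (p p' : V → V → Prop) [∀ b, DecidablePred (p b)]
    [∀ b, DecidablePred (p' b)] (hp : ∀ b b', p b b' → p' b b') (F : V → V → ℝ)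
    (hF : ∀ b b', 0 ≤ F b b') :
    ∑ b ∈ A, ∑ b' ∈ A.filter (p b), F b b' ≤ ∑ b ∈ B, ∑ b' ∈ B.filter (p' b), F b b' := by
  calc ∑ b ∈ A, ∑ b' ∈ A.filter (p b), F b b' ≤ ∑ b ∈ A, ∑ b' ∈ B.filter (p' b), F b b' := by
        refine sum_le_sum fun b _ => sum_le_sum_of_subset_of_nonneg ?_ fun _ _ _ => hF _ _
        intro x hx
        rw [mem_filter] at hx ⊢
        exact ⟨hAB hx.1, hp _ _ hx.2⟩
    _ ≤ _ := sum_le_sum_of_subset_of_nonneg hAB fun _ _ _ => sum_nonneg fun _ _ => hF _ _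

theorem sum_sub' {A B : Finset V} (hAB : A ⊆ B) (p : V → V → Prop) [∀ b, DecidablePred (p b)]
    (F : V → V → ℝ) (hF : ∀ b b', 0 ≤ F b b') :
    ∑ b ∈ A, ∑ b' ∈ A.filter (p b), F b b' ≤ ∑ b ∈ B, ∑ b' ∈ B, F b b' := by
  have := sum_sub hAB p (fun _ _ => True) (fun _ _ _ => trivial) F hF
  simpa only [filter_true] using this

theorem sum_cst (A : Finset V) (p : V → V → Prop) [∀ b, DecidablePred (p b)] (C : ℝ)
    (hC : 0 ≤ C) : ∑ b ∈ A, ∑ _b' ∈ A.filter (p b), C ≤ C * (A.card : ℝ) ^ 2 := by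
  have := sum_sub' (subset_refl A) p (fun _ _ => C) (fun _ _ => hC)
  refine this.trans (le_of_eq ?_)
  simp only [sum_const, nsmul_eq_mul]
  ring

theorem cube (a b : ℝ) (ha : 0 ≤ a) (hb : 0 ≤ b) : (a + b) ^ 3 ≤ 4 * (a ^ 3 + b ^ 3) := by
  have : 0 ≤ (a + b) * (a - b) ^ 2 := by positivity
  nlinarith

theorem mass (hM1 : S_M1) (hI2 : S_I2) (ε : ℝ) (hε : 0 < ε) :
    ∃ C : ℝ, 0 < C ∧ ∀ (N H : ℕ) (ρ v : ℝ), 1 ≤ H → H ≤ N → 0 < ρ → ρ ≤ 2 → (H : ℝ) ≤ 10 * v →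
      ∑ b ∈ nzb H, ∑ b' ∈ nzb H, Real.sqrt (gb b * gb b') * I8 (11 * ρ) b b' ≤
        C * (N : ℝ) ^ ε * (v ^ 8 * ρ ^ 6 + v ^ 5 * ρ ^ 3) := by
  obtain ⟨C1, hC1, h1⟩ := hM1 (ε / 2) (by positivity)
  obtain ⟨C2, hC2, h2⟩ := hI2
  obtain ⟨C3, hC3, h3⟩ := one_add_log_le (ε := ε / 12) (by positivity)
  refine ⟨C1 * (529 * (C2 ^ 3 * (4 * (C3 ^ 6 * (10 ^ 8 * 11 ^ 6))))), by positivity, ?_⟩
  intro N H ρ v hH hHN hρ hρ2 hHv
  have hH1 : (1 : ℝ) ≤ H := by exact_mod_cast hH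
  have hHN' : (H : ℝ) ≤ N := by exact_mod_cast hHN
  have hN1 : (1 : ℝ) ≤ N := hH1.trans hHN'
  have hv : 0 < v := by linarith
  have hL1 : 1 ≤ LL H := by
    have := Real.log_nonneg hH1
    unfold LL; linarith
  have hL : LL H ^ 6 ≤ C3 ^ 6 * (N : ℝ) ^ (ε / 2) := by
    have e1 : LL H ≤ C3 * (N : ℝ) ^ (ε / 12) := by
      refine (h3 H hH1).trans ?_
      gcongr
    calc LL H ^ 6 ≤ (C3 * (N : ℝ) ^ (ε / 12)) ^ 6 := by gcongr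
      _ = C3 ^ 6 * (N : ℝ) ^ (ε / 2) := by
        rw [mul_pow, ← Real.rpow_natCast ((N : ℝ) ^ (ε / 12)), ← Real.rpow_mul (by positivity)]
        congr 2
        push_cast
        ring
  obtain ⟨h20, h21⟩ := h2 (11 * ρ) H (by positivity) hH
  have hI : I2 (11 * ρ) H ^ 3 ≤
      C2 ^ 3 * (4 * (LL H ^ 6 * ((H : ℝ) ^ 6 * (11 * ρ) ^ 6 + H ^ 3 * (11 * ρ) ^ 3))) := by
    calc I2 (11 * ρ) H ^ 3
        ≤ (C2 * ((H : ℝ) ^ 2 * (11 * ρ) ^ 2 + H * (11 * ρ) * LL H ^ 2)) ^ 3 := by gcongr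
      _ = C2 ^ 3 * ((H : ℝ) ^ 2 * (11 * ρ) ^ 2 + H * (11 * ρ) * LL H ^ 2) ^ 3 := by ring
      _ ≤ C2 ^ 3 * (4 * (((H : ℝ) ^ 2 * (11 * ρ) ^ 2) ^ 3 + (H * (11 * ρ) * LL H ^ 2) ^ 3)) := by
        gcongr
        exact cube _ _ (by positivity) (by positivity)
      _ = C2 ^ 3 * (4 * (1 * ((H : ℝ) ^ 6 * (11 * ρ) ^ 6) +
            LL H ^ 6 * (H ^ 3 * (11 * ρ) ^ 3))) := by ring
      _ ≤ C2 ^ 3 * (4 * (LL H ^ 6 * ((H : ℝ) ^ 6 * (11 * ρ) ^ 6) +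
            LL H ^ 6 * (H ^ 3 * (11 * ρ) ^ 3))) := by
        gcongr
        exact one_le_pow₀ hL1
      _ = _ := by ring
  have hX : (H : ℝ) ^ 2 * ((H : ℝ) ^ 6 * (11 * ρ) ^ 6 + H ^ 3 * (11 * ρ) ^ 3) ≤
      10 ^ 8 * 11 ^ 6 * (v ^ 8 * ρ ^ 6 + v ^ 5 * ρ ^ 3) := by
    calc (H : ℝ) ^ 2 * ((H : ℝ) ^ 6 * (11 * ρ) ^ 6 + H ^ 3 * (11 * ρ) ^ 3)
        ≤ (10 * v) ^ 2 * ((10 * v) ^ 6 * (11 * ρ) ^ 6 + (10 * v) ^ 3 * (11 * ρ) ^ 3) := by gcongr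
      _ = 10 ^ 8 * 11 ^ 6 * (v ^ 8 * ρ ^ 6) + 10 ^ 5 * 11 ^ 3 * (v ^ 5 * ρ ^ 3) := by ring
      _ ≤ 10 ^ 8 * 11 ^ 6 * (v ^ 8 * ρ ^ 6) + 10 ^ 8 * 11 ^ 6 * (v ^ 5 * ρ ^ 3) := by
        gcongr <;> norm_num
      _ = _ := by ring
  have hNe : (N : ℝ) ^ ε = (N : ℝ) ^ (ε / 2) * (N : ℝ) ^ (ε / 2) := by
    rw [← Real.rpow_add (by positivity)]; congr 1; ring
  calc _ ≤ C1 * (N : ℝ) ^ (ε / 2) * ((1 + 11 * ρ) ^ 2 * H ^ 2 * I2 (11 * ρ) H ^ 3) :=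
        h1 N H (11 * ρ) hH hHN (by positivity)
    _ ≤ C1 * (N : ℝ) ^ (ε / 2) * ((23 : ℝ) ^ 2 * H ^ 2 *
          (C2 ^ 3 * (4 * (LL H ^ 6 * ((H : ℝ) ^ 6 * (11 * ρ) ^ 6 + H ^ 3 * (11 * ρ) ^ 3))))) := by
        gcongr
        linarith
    _ = C1 * (N : ℝ) ^ (ε / 2) * (529 * (C2 ^ 3 * (4 * (LL H ^ 6 *
          ((H : ℝ) ^ 2 * ((H : ℝ) ^ 6 * (11 * ρ) ^ 6 + H ^ 3 * (11 * ρ) ^ 3)))))) := by ring
    _ ≤ C1 * (N : ℝ) ^ (ε / 2) * (529 * (C2 ^ 3 * (4 * ((C3 ^ 6 * (N : ℝ) ^ (ε / 2)) *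
          (10 ^ 8 * 11 ^ 6 * (v ^ 8 * ρ ^ 6 + v ^ 5 * ρ ^ 3)))))) := by gcongr
    _ = _ := by rw [hNe]; ring

/-- the prefactor -/
theorem pref (u q O ρ : ℝ) (hu : 0 < u) (hq : 0 < q) (hO : 0 < O) (hρ : ρ = q * O / u ^ 3000) :
    (u ^ 6000) ^ 4 / (q ^ 4 * O ^ 5) = u ^ 12000 / (O * ρ ^ 4) := by
  rw [hρ]
  have e1 : (u ^ 6000) ^ 4 = (u ^ 3000) ^ 8 := by ring
  have e2 : u ^ 12000 = (u ^ 3000) ^ 4 := by ring
  rw [e1, e2]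
  have hw : 0 < u ^ 3000 := by positivity
  generalize u ^ 3000 = w at hw ⊢
  field_simp

theorem targ (u q O ρ : ℝ) (hu : 0 < u) (hq : 0 < q) (hO : 0 < O) (hρ : ρ = q * O / u ^ 3000) :
    u ^ 22004 / O * (1 / u + 1 / (q * O)) = (u ^ 22003 + u ^ 19004 / ρ) / O := by
  rw [hρ]
  have e1 : u ^ 22004 = u ^ 19003 * u ^ 3000 * u := by ring
  have e2 : u ^ 22003 = u ^ 19003 * u ^ 3000 := by ring
  have e3 : u ^ 19004 = u ^ 19003 * u := by ring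
  rw [e1, e2, e3]
  have hw : 0 < u ^ 3000 := by positivity
  generalize u ^ 3000 = w at hw ⊢
  generalize u ^ 19003 = z
  field_simp

theorem expand (u O ρ W : ℝ) (hO : 0 < O) (hρ : 0 < ρ) :
    u ^ 12000 / (O * ρ ^ 4) * (W * ((u ^ 1001) ^ 8 * ρ ^ 6 + (u ^ 1001) ^ 5 * ρ ^ 3)) =
      (W * u ^ 20008 * ρ ^ 2 + W * u ^ 17005 / ρ) / O := by
  have e1 : u ^ 20008 = u ^ 12000 * (u ^ 1001) ^ 8 := by ring
  have e2 : u ^ 17005 = u ^ 12000 * (u ^ 1001) ^ 5 := by ring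
  rw [e1, e2]
  generalize u ^ 12000 = w
  generalize u ^ 1001 = z
  field_simp

theorem numT (u ρ W : ℝ) (hu : 0 < u) (hρ : 0 < ρ) (hρ2 : ρ * u ^ 2 ≤ 2) (hW : W ≤ u ^ 1999) :
    W * u ^ 20008 * ρ ^ 2 + W * u ^ 17005 / ρ ≤ 4 * (u ^ 22003 + u ^ 19004 / ρ) := by
  have h1 : W * u ^ 20008 * ρ ^ 2 ≤ 4 * u ^ 22003 := by
    calc W * u ^ 20008 * ρ ^ 2 ≤ u ^ 1999 * u ^ 20008 * ρ ^ 2 := by gcongr
      _ = u ^ 22003 * (ρ * u ^ 2) ^ 2 := by ring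
      _ ≤ u ^ 22003 * 2 ^ 2 := by gcongr
      _ = 4 * u ^ 22003 := by ring
  have h2 : W * u ^ 17005 / ρ ≤ u ^ 19004 / ρ := by
    calc W * u ^ 17005 / ρ ≤ u ^ 1999 * u ^ 17005 / ρ := by gcongr
      _ = u ^ 19004 / ρ := by rw [← pow_add]
  have h3 : 0 ≤ u ^ 19004 / ρ := by positivity
  linarith

theorem numQ (u ρ W : ℝ) (hu : 1 ≤ u) (hρ : 0 < ρ) (hρ2 : ρ * u ^ 750 ≤ 1)
    (hW : W ≤ ρ * u ^ 3000) :
    W * u ^ 20008 * ρ ^ 2 + W * u ^ 17005 / ρ ≤ 4 * (u ^ 22003 + u ^ 19004 / ρ) := by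
  have hu0 : 0 < u := by linarith
  have h1 : W * u ^ 20008 * ρ ^ 2 ≤ u ^ 22003 := by
    calc W * u ^ 20008 * ρ ^ 2 ≤ ρ * u ^ 3000 * u ^ 20008 * ρ ^ 2 := by gcongr
      _ = u ^ 20758 * (ρ * u ^ 750) ^ 3 := by ring
      _ ≤ u ^ 22003 * 1 ^ 3 := by
        gcongr
        norm_num
      _ = u ^ 22003 := by ring
  have h2 : W * u ^ 17005 / ρ ≤ u ^ 22003 := by
    calc W * u ^ 17005 / ρ ≤ ρ * u ^ 3000 * u ^ 17005 / ρ := by gcongr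
      _ = u ^ 20005 := by
        rw [mul_assoc, ← pow_add, mul_div_cancel_left₀ _ hρ.ne']
      _ ≤ u ^ 22003 := pow_le_pow_right₀ hu (by norm_num)
  have h3 : 0 ≤ u ^ 19004 / ρ := by positivity
  have h4 : 0 ≤ u ^ 22003 := by positivity
  linarith

theorem rho_le (u q O ρ : ℝ) (hu : 0 < u) (hρ : ρ = q * O / u ^ 3000) (hq : q ≤ u ^ 2998)
    (hqO : q * O ≤ q + u ^ 2998) : ρ * u ^ 2 ≤ 2 := by
  rw [hρ, div_mul_eq_mul_div, div_le_iff₀ (by positivity)]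
  calc q * O * u ^ 2 ≤ (2 * u ^ 2998) * u ^ 2 :=
        mul_le_mul_of_nonneg_right (by linarith) (by positivity)
    _ = 2 * u ^ 3000 := by ring

theorem num1 (u q O ρ W : ℝ) (hu : 1 ≤ u) (hq : 0 < q) (hO : 0 < O) (hρ : ρ = q * O / u ^ 3000)
    (hlo : u ^ 2250 ≤ q * O) (hW : W ≤ q * Real.sqrt O) :
    u ^ 12000 / (O * ρ ^ 4) * ((W + q * Real.sqrt O) / Real.sqrt q *
      (u ^ 100 * ρ ^ 3 * (u ^ 1001) ^ 8)) ≤ 2 * (u ^ 22003 / O) := by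
  have hu0 : 0 < u := by linarith
  have hρ0 : 0 < ρ := by rw [hρ]; positivity
  have hsq : 0 < Real.sqrt q := Real.sqrt_pos.mpr hq
  have hs : 0 < Real.sqrt (q * O) := Real.sqrt_pos.mpr (by positivity)
  have h1 : (W + q * Real.sqrt O) / Real.sqrt q ≤ 2 * Real.sqrt (q * O) := by
    rw [div_le_iff₀ hsq, Real.sqrt_mul hq.le]
    have : Real.sqrt q * Real.sqrt q = q := Real.mul_self_sqrt hq.le
    calc W + q * Real.sqrt O ≤ 2 * (q * Real.sqrt O) := by linarith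
      _ = 2 * ((Real.sqrt q * Real.sqrt q) * Real.sqrt O) := by rw [this]
      _ = _ := by ring
  have h2 : u ^ 1125 ≤ Real.sqrt (q * O) := by
    apply Real.le_sqrt_of_sq_le
    calc (u ^ 1125) ^ 2 = u ^ 2250 := by ring
      _ ≤ _ := hlo
  have h3 : Real.sqrt (q * O) * u ^ 1125 ≤ ρ * u ^ 3000 := by
    rw [hρ, div_mul_cancel₀ _ (by positivity)]
    calc Real.sqrt (q * O) * u ^ 1125 ≤ Real.sqrt (q * O) * Real.sqrt (q * O) := by gcongr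
      _ = q * O := Real.mul_self_sqrt (by positivity)
  have h4 : Real.sqrt (q * O) ≤ ρ * u ^ 1875 := by
    have e : ρ * u ^ 3000 = ρ * u ^ 1875 * u ^ 1125 := by ring
    rw [e] at h3
    exact le_of_mul_le_mul_right h3 (by positivity)
  calc _ ≤ u ^ 12000 / (O * ρ ^ 4) * (2 * (ρ * u ^ 1875) * (u ^ 100 * ρ ^ 3 * (u ^ 1001) ^ 8)) := by
        gcongr
        exact h1.trans (by gcongr)
    _ = 2 * (u ^ 21983 / O) := by
        have e1 : u ^ 21983 = u ^ 12000 * u ^ 1875 * u ^ 100 * (u ^ 1001) ^ 8 := by ring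
        rw [e1]
        generalize u ^ 12000 = a
        generalize u ^ 1875 = b
        generalize u ^ 100 = c
        generalize u ^ 1001 = d
        field_simp
    _ ≤ 2 * (u ^ 22003 / O) := by
        gcongr
        norm_num

end KA0P

open KA0P

theorem pKA0 (hPAR : S_PAR) (hKP0 : S_KP0) (hM1 : S_M1) (hI2 : S_I2) : S_KA0 := by
  intro ε hε
  obtain ⟨C1, hC1, h1⟩ := hKP0 (ε / 2) (by positivity)
  obtain ⟨C2, hC2, h2⟩ := mass hM1 hI2 (ε / 2) (by positivity)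
  refine ⟨C1 * C2 * 8 + C1, by positivity, ?_⟩
  intro u N T H G q0 η hP hcase
  obtain ⟨hR, hO1, hqO, hHN, hcard, hTg, -⟩ := hPAR u N T H G q0 η hP
  obtain ⟨hu, hN, -, hT, hH, hHu, -, -, hq, -, -⟩ := hP
  have hu1 : (1 : ℝ) ≤ u := by linarith
  have hu0 : 0 < u := by linarith
  have hq1 : (1 : ℝ) ≤ q0 := by exact_mod_cast hq
  have hN1 : (1 : ℝ) ≤ N := by exact_mod_cast hH.trans hHN
  obtain ⟨O, hOdef⟩ : ∃ O, O = Om N η := ⟨_, rfl⟩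
  obtain ⟨ρ, hρ⟩ : ∃ ρ, ρ = q0 * O / u ^ 3000 := ⟨_, rfl⟩
  have hr : 11 * (q0 * Om N η) / u ^ 3000 = 11 * ρ := by rw [hρ, hOdef, mul_div_assoc]
  rw [hr] at hR
  rw [← hOdef] at hO1 hqO hcase
  have hO0 : 0 < O := by linarith
  have hρ0 : 0 < ρ := by rw [hρ]; positivity
  have hs1 : 1 ≤ Real.sqrt O := Real.one_le_sqrt.mpr hO1
  have hsO : Real.sqrt O ≤ O := by
    have := Real.mul_self_sqrt hO0.le
    nlinarith
  have hq2 : (q0 : ℝ) ≤ u ^ 2998 := by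
    rcases hcase with h | h
    · calc (q0 : ℝ) ≤ q0 * O := le_mul_of_one_le_right (by positivity) hO1
        _ ≤ u ^ 2250 := h
        _ ≤ u ^ 2998 := pow_le_pow_right₀ hu1 (by norm_num)
    · calc (q0 : ℝ) ≤ q0 * Real.sqrt O := le_mul_of_one_le_right (by positivity) hs1
        _ ≤ T := h
        _ ≤ u ^ 1999 := hT
        _ ≤ u ^ 2998 := pow_le_pow_right₀ hu1 (by norm_num)
  have hρ2 : ρ * u ^ 2 ≤ 2 := rho_le u q0 O ρ hu0 hρ hq2 hqO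
  have hρ3 : ρ ≤ 2 := (le_mul_of_one_le_right hρ0.le (one_le_pow₀ hu1)).trans hρ2
  have hTgE : Tg u N q0 η = (u ^ 22003 + u ^ 19004 / ρ) / O := by
    unfold Tg
    rw [← hOdef]
    exact targ u q0 O ρ hu0 (by linarith) hO0 hρ
  have hPE : (N : ℝ) ^ 4 / ((q0 : ℝ) ^ 4 * O ^ 5) = u ^ 12000 / (O * ρ ^ 4) := by
    rw [← hN]
    exact pref u q0 O ρ hu0 (by linarith) hO0 hρ
  have hA := numT u ρ T hu0 hρ0 hρ2 hT
  have hB : q0 * Real.sqrt O * u ^ 20008 * ρ ^ 2 + q0 * Real.sqrt O * u ^ 17005 / ρ ≤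
      4 * (u ^ 22003 + u ^ 19004 / ρ) := by
    rcases hcase with h | h
    · refine numQ u ρ _ hu1 hρ0 ?_ ?_
      · rw [hρ, div_mul_eq_mul_div, div_le_one (by positivity)]
        calc q0 * O * u ^ 750 ≤ u ^ 2250 * u ^ 750 := by gcongr
          _ = u ^ 3000 := by rw [← pow_add]
      · rw [hρ, div_mul_cancel₀ _ (by positivity)]
        gcongr
    · exact numT u ρ _ hu0 hρ0 hρ2 (h.trans hT)
  have hnum : u ^ 12000 / (O * ρ ^ 4) * ((T + q0 * Real.sqrt O) *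
      ((u ^ 1001) ^ 8 * ρ ^ 6 + (u ^ 1001) ^ 5 * ρ ^ 3)) ≤ 8 * Tg u N q0 η := by
    rw [expand u O ρ _ hO0 hρ0, hTgE, ← mul_div_assoc]
    gcongr
    have e : (T + q0 * Real.sqrt O) * u ^ 20008 * ρ ^ 2 + (T + q0 * Real.sqrt O) * u ^ 17005 / ρ =
        (T * u ^ 20008 * ρ ^ 2 + T * u ^ 17005 / ρ) +
        (q0 * Real.sqrt O * u ^ 20008 * ρ ^ 2 + q0 * Real.sqrt O * u ^ 17005 / ρ) := by
      generalize u ^ 20008 = a
      generalize u ^ 17005 = b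
      ring
    rw [e]
    linarith
  have hmass := (sum_sub' (good_sub H G) (fun b b' => ka b b' ≠ 0 ∧ De b b' ≠ 0)
    (fun b b' => Real.sqrt (gb b * gb b') * I8 (11 * ρ) b b')
    (fun b b' => mul_nonneg (Real.sqrt_nonneg _) (I8_nonneg _ _ _))).trans
    (h2 N H ρ (u ^ 1001) hH hHN hρ0 hρ3 hHu)
  have hNe : (N : ℝ) ^ ε = (N : ℝ) ^ (ε / 2) * (N : ℝ) ^ (ε / 2) := by
    rw [← Real.rpow_add (by positivity)]; congr 1; ring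
  have hNe1 : 1 ≤ (N : ℝ) ^ ε := Real.one_le_rpow hN1 hε.le
  have hTg0 : 0 ≤ Tg u N q0 η := le_trans (by positivity) hcard
  obtain ⟨P, hPd⟩ : ∃ P, P = u ^ 12000 / (O * ρ ^ 4) := ⟨_, rfl⟩
  obtain ⟨W, hWd⟩ : ∃ W, W = T + q0 * Real.sqrt O := ⟨_, rfl⟩
  obtain ⟨M, hMd⟩ : ∃ M, M = (u ^ 1001) ^ 8 * ρ ^ 6 + (u ^ 1001) ^ 5 * ρ ^ 3 := ⟨_, rfl⟩
  have hP0 : 0 ≤ P := by rw [hPd]; positivity
  have hW0 : 0 ≤ W := by rw [hWd]; positivity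
  rw [← hPd, ← hWd, ← hMd] at hnum
  rw [← hMd] at hmass
  calc _ ≤ ∑ b ∈ good H G, ∑ b' ∈ (good H G).filter (fun b' => ka b b' ≠ 0 ∧ De b b' ≠ 0),
        (C1 * (N : ℝ) ^ (ε / 2) * P * W * (Real.sqrt (gb b * gb b') * I8 (11 * ρ) b b') + C1) := by
        refine sum_le_sum fun b hb => sum_le_sum fun b' hb' => ?_
        rw [mem_filter] at hb'
        have := (h1 N T H q0 1 η (11 * ρ) b b' hR le_rfl (good_sub H G hb) (good_sub H G hb'.1)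
          hb'.2.1 hb'.2.2).1
        rw [← hOdef, hPE, ← hPd, ← hWd] at this
        refine this.trans (le_of_eq ?_)
        ring
    _ = C1 * (N : ℝ) ^ (ε / 2) * P * W *
          ∑ b ∈ good H G, ∑ b' ∈ (good H G).filter (fun b' => ka b b' ≠ 0 ∧ De b b' ≠ 0),
            Real.sqrt (gb b * gb b') * I8 (11 * ρ) b b' +
        ∑ b ∈ good H G, ∑ _b' ∈ (good H G).filter (fun b' => ka b b' ≠ 0 ∧ De b b' ≠ 0), C1 := by
        simp only [sum_add_distrib, mul_sum]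
    _ ≤ C1 * (N : ℝ) ^ (ε / 2) * P * W * (C2 * (N : ℝ) ^ (ε / 2) * M) +
        C1 * ((good H G).card : ℝ) ^ 2 := by
        gcongr
        exact sum_cst (good H G) (fun b b' => ka b b' ≠ 0 ∧ De b b' ≠ 0) C1 hC1.le
    _ = C1 * C2 * (N : ℝ) ^ ε * (P * (W * M)) + C1 * (1 * ((good H G).card : ℝ) ^ 2) := by
        rw [hNe]; ring
    _ ≤ C1 * C2 * (N : ℝ) ^ ε * (8 * Tg u N q0 η) + C1 * ((N : ℝ) ^ ε * Tg u N q0 η) := by
        gcongr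
    _ = _ := by ring

theorem pKA1 (hPAR : S_PAR) (hKP0 : S_KP0) (hM1 : S_M1) (hI2 : S_I2) (hMS : S_MS) (hGG : S_GG) :
    S_KA1 := by
  intro ε hε
  obtain ⟨C1, hC1, h1⟩ := hKP0 (ε / 2) (by positivity)
  obtain ⟨C2, hC2, h2⟩ := mass hM1 hI2 (ε / 2) (by positivity)
  obtain ⟨C3, hC3, h3⟩ := hGG (ε / 2) (by positivity)
  refine ⟨C1 * (C3 * (11 ^ 3 * 23 ^ 5 * 10 ^ 8) * 2 + C2 * 4) + C1, by positivity, ?_⟩
  intro u N T H G q0 η hP hlo hTq hq2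
  obtain ⟨hR, hO1, hqO, hHN, hcard, hTg, hgb⟩ := hPAR u N T H G q0 η hP
  obtain ⟨hu, hN, -, hT, hH, hHu, -, -, hq, -, -⟩ := hP
  have hu1 : (1 : ℝ) ≤ u := by linarith
  have hu0 : 0 < u := by linarith
  have hq1 : (1 : ℝ) ≤ q0 := by exact_mod_cast hq
  have hN1 : (1 : ℝ) ≤ N := by exact_mod_cast hH.trans hHN
  obtain ⟨O, hOdef⟩ : ∃ O, O = Om N η := ⟨_, rfl⟩
  obtain ⟨ρ, hρ⟩ : ∃ ρ, ρ = q0 * O / u ^ 3000 := ⟨_, rfl⟩
  have hr : 11 * (q0 * Om N η) / u ^ 3000 = 11 * ρ := by rw [hρ, hOdef, mul_div_assoc]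
  rw [hr] at hR
  rw [← hOdef] at hO1 hqO hlo hTq hTg
  have hO0 : 0 < O := by linarith
  have hρ0 : 0 < ρ := by rw [hρ]; positivity
  have hρ2 : ρ * u ^ 2 ≤ 2 := rho_le u q0 O ρ hu0 hρ hq2 hqO
  have hρ3 : ρ ≤ 2 := (le_mul_of_one_le_right hρ0.le (one_le_pow₀ hu1)).trans hρ2
  have hTgE : Tg u N q0 η = (u ^ 22003 + u ^ 19004 / ρ) / O := by
    unfold Tg
    rw [← hOdef]
    exact targ u q0 O ρ hu0 (by linarith) hO0 hρ
  have hPE : (N : ℝ) ^ 4 / ((q0 : ℝ) ^ 4 * O ^ 5) = u ^ 12000 / (O * ρ ^ 4) := by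
    rw [← hN]
    exact pref u q0 O ρ hu0 (by linarith) hO0 hρ
  have hA := numT u ρ T hu0 hρ0 hρ2 hT
  have hnum : u ^ 12000 / (O * ρ ^ 4) * (T *
      ((u ^ 1001) ^ 8 * ρ ^ 6 + (u ^ 1001) ^ 5 * ρ ^ 3)) ≤ 4 * Tg u N q0 η := by
    rw [expand u O ρ _ hO0 hρ0, hTgE, ← mul_div_assoc]
    gcongr
  have hnum1 : u ^ 12000 / (O * ρ ^ 4) * ((T + q0 * Real.sqrt O) / Real.sqrt q0 *
      (u ^ 100 * ρ ^ 3 * (u ^ 1001) ^ 8)) ≤ 2 * Tg u N q0 η :=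
    (num1 u q0 O ρ T hu1 (by linarith) hO0 hρ hlo hTq).trans (by linarith)
  have hmass := (sum_sub' (good_sub H G) (fun b b' => ka b b' ≠ 0 ∧ De b b' ≠ 0)
    (fun b b' => Real.sqrt (gb b * gb b') * I8 (11 * ρ) b b')
    (fun b b' => mul_nonneg (Real.sqrt_nonneg _) (I8_nonneg _ _ _))).trans
    (h2 N H ρ (u ^ 1001) hH hHN hρ0 hρ3 hHu)
  have hGa := (sum_sub (good_sub H G) (fun b b' => ka b b' ≠ 0 ∧ De b b' ≠ 0)
    (fun b b' => ka b b' ≠ 0) (fun _ _ h => h.1) (fun b b' => Real.sqrt (Ga b b'))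
    (fun b b' => Real.sqrt_nonneg _)).trans (h3 N H hH hHN)
  have hNe : (N : ℝ) ^ ε = (N : ℝ) ^ (ε / 2) * (N : ℝ) ^ (ε / 2) := by
    rw [← Real.rpow_add (by positivity)]; congr 1; ring
  have hNe1 : 1 ≤ (N : ℝ) ^ ε := Real.one_le_rpow hN1 hε.le
  have hTg0 : 0 ≤ Tg u N q0 η := le_trans (by positivity) hcard
  obtain ⟨P, hPd⟩ : ∃ P, P = u ^ 12000 / (O * ρ ^ 4) := ⟨_, rfl⟩
  obtain ⟨W, hWd⟩ : ∃ W, W = (T + q0 * Real.sqrt O) / Real.sqrt q0 := ⟨_, rfl⟩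
  obtain ⟨M, hMd⟩ : ∃ M, M = (u ^ 1001) ^ 8 * ρ ^ 6 + (u ^ 1001) ^ 5 * ρ ^ 3 := ⟨_, rfl⟩
  obtain ⟨g, hgd⟩ : ∃ g, g = u ^ 100 := ⟨_, rfl⟩
  have hP0 : 0 ≤ P := by rw [hPd]; positivity
  have hW0 : 0 ≤ W := by rw [hWd]; positivity
  have hg0 : 0 ≤ g := by rw [hgd]; positivity
  rw [← hPd, ← hMd] at hnum
  rw [← hPd, ← hWd, ← hgd] at hnum1
  rw [← hMd] at hmass
  rw [← hgd] at hgb
  obtain ⟨v, hvd⟩ : ∃ v, v = u ^ 1001 := ⟨_, rfl⟩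
  rw [← hvd] at hnum1 hHu
  calc _ ≤ ∑ b ∈ good H G, ∑ b' ∈ (good H G).filter (fun b' => ka b b' ≠ 0 ∧ De b b' ≠ 0),
        (C1 * (N : ℝ) ^ (ε / 2) * P * (W * (g * (11 * ρ) ^ 3 * 23 ^ 5)) * Real.sqrt (Ga b b') +
          C1 * (N : ℝ) ^ (ε / 2) * P * T * (Real.sqrt (gb b * gb b') * I8 (11 * ρ) b b') +
          C1) := by
        refine sum_le_sum fun b hb => sum_le_sum fun b' hb' => ?_
        rw [mem_filter] at hb'
        have := (h1 N T H q0 1 η (11 * ρ) b b' hR le_rfl (good_sub H G hb) (good_sub H G hb'.1)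
          hb'.2.1 hb'.2.2).2.1
        rw [← hOdef, hPE, ← hPd, ← hWd] at this
        refine this.trans ?_
        have e1 : Real.sqrt (gb b * gb b' * Ga b b') ≤ g * Real.sqrt (Ga b b') := by
          rw [Real.sqrt_mul (by positivity)]
          gcongr
          apply Real.sqrt_le_iff.mpr
          refine ⟨hg0, ?_⟩
          rw [sq]
          exact mul_le_mul (hgb b hb).2 (hgb b' hb'.1).2 (by positivity) hg0
        have e2 : I8 (11 * ρ) b b' ≤ (11 * ρ) ^ 3 * 23 ^ 5 := by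
          refine (hMS (11 * ρ) b b' (by positivity) (mem_filter.mp (good_sub H G hb)).2
            (mem_filter.mp (good_sub H G hb'.1)).2).2.trans ?_
          gcongr
          linarith
        have e3 := I8_nonneg (11 * ρ) b b'
        calc _ ≤ C1 * (N : ℝ) ^ (ε / 2) * P *
              (W * (g * Real.sqrt (Ga b b') * ((11 * ρ) ^ 3 * 23 ^ 5)) +
                T * (Real.sqrt (gb b * gb b') * I8 (11 * ρ) b b')) + C1 := by gcongr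
          _ = _ := by ring
    _ = C1 * (N : ℝ) ^ (ε / 2) * P * (W * (g * (11 * ρ) ^ 3 * 23 ^ 5)) *
          ∑ b ∈ good H G, ∑ b' ∈ (good H G).filter (fun b' => ka b b' ≠ 0 ∧ De b b' ≠ 0),
            Real.sqrt (Ga b b') +
        C1 * (N : ℝ) ^ (ε / 2) * P * T *
          ∑ b ∈ good H G, ∑ b' ∈ (good H G).filter (fun b' => ka b b' ≠ 0 ∧ De b b' ≠ 0),
            Real.sqrt (gb b * gb b') * I8 (11 * ρ) b b' +
        ∑ b ∈ good H G, ∑ _b' ∈ (good H G).filter (fun b' => ka b b' ≠ 0 ∧ De b b' ≠ 0), C1 := by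
        simp only [sum_add_distrib, mul_sum]
    _ ≤ C1 * (N : ℝ) ^ (ε / 2) * P * (W * (g * (11 * ρ) ^ 3 * 23 ^ 5)) *
          (C3 * (N : ℝ) ^ (ε / 2) * (10 * v) ^ 8) +
        C1 * (N : ℝ) ^ (ε / 2) * P * T * (C2 * (N : ℝ) ^ (ε / 2) * M) +
        C1 * ((good H G).card : ℝ) ^ 2 := by
        gcongr
        · exact hGa.trans (by gcongr)
        · exact sum_cst (good H G) (fun b b' => ka b b' ≠ 0 ∧ De b b' ≠ 0) C1 hC1.le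
    _ = C1 * (C3 * (11 ^ 3 * 23 ^ 5 * 10 ^ 8)) * (N : ℝ) ^ ε * (P * (W * (g * ρ ^ 3 * v ^ 8))) +
        C1 * C2 * (N : ℝ) ^ ε * (P * (T * M)) + C1 * (1 * ((good H G).card : ℝ) ^ 2) := by
        rw [hNe]; ring
    _ ≤ C1 * (C3 * (11 ^ 3 * 23 ^ 5 * 10 ^ 8)) * (N : ℝ) ^ ε * (2 * Tg u N q0 η) +
        C1 * C2 * (N : ℝ) ^ ε * (4 * Tg u N q0 η) + C1 * ((N : ℝ) ^ ε * Tg u N q0 η) := by
        gcongr
    _ = _ := by ring

end Pool.Agent.P.MP_0ad054_nt.PS
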