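import Pool.Agent.P.MP_0ad054_nt.PS.St

/-! The key estimate for non-degenerate pairs and large blocks. -/

namespace Pool.Agent.P.MP_0ad054_nt.PS

open Finset Pool.Agent.Lib.H9 Pool.Agent.P.MP_0ad054_nt.Sun Pool.Agent.P.MP_0ad054_nt.Sun.SphereP
  Pool.Agent.P.MP_0ad054_nt.Clu
open scoped Real ComplexConjugate

namespace KA2P

theorem ex_nat {u : ℝ} (hu : 2 ≤ u) (k : ℕ) : ∃ n : ℕ, u ^ k ≤ n ∧ (n : ℝ) ≤ u ^ (k + 1) := by
  have h1 : 1 ≤ u ^ k := one_le_pow₀ (by linarith)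
  refine ⟨⌈u ^ k⌉₊, Nat.le_ceil _, (Nat.ceil_lt_add_one (by linarith)).le.trans ?_⟩
  rw [pow_succ]
  nlinarith

theorem dbl {s s' : Finset V} {t t' : V → Finset V} {f : V → V → ℝ} (hs : s ⊆ s')
    (ht : ∀ b, t b ⊆ t' b) (hf : ∀ b b', 0 ≤ f b b') :
    ∑ b ∈ s, ∑ b' ∈ t b, f b b' ≤ ∑ b ∈ s', ∑ b' ∈ t' b, f b b' :=
  (sum_le_sum fun b _ => sum_le_sum_of_subset_of_nonneg (ht b) fun _ _ _ => hf _ _).trans
    (sum_le_sum_of_subset_of_nonneg hs fun _ _ _ => sum_nonneg fun _ _ => hf _ _)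

theorem card_good (H G : ℕ) : ((good H G).card : ℝ) ≤ (2 * H + 1) ^ 4 := by
  have h1 : (good H G).card ≤ (bx H).card :=
    card_le_card ((filter_subset _ _).trans (filter_subset _ _))
  have h2 : (iv H).card = 2 * H + 1 := by rw [iv, Int.card_Icc]; omega
  rw [bx, Fintype.card_piFinset, prod_const, h2, card_univ, Fintype.card_fin] at h1
  exact_mod_cast h1

theorem cst {u c : ℝ} (h : c ≤ u) (hu : 0 ≤ u) (k : ℕ) : c * u ^ k ≤ u ^ (k + 1) := by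
  rw [pow_succ']
  exact mul_le_mul_of_nonneg_right h (pow_nonneg hu k)

theorem pair {u c C1 O PF W g y I T z Z x D : ℝ} (hu : 0 < u) (hc : 0 ≤ c) (hO : 0 < O)
    (h1 : PF ≤ u ^ 12008 / O) (h2 : W ≤ u ^ 1502) (h3 : g ≤ u ^ 100) (h4 : I ≤ u ^ 24)
    (h5 : T ≤ u ^ 1999) (h6 : z ≤ Z) (h7 : D ≤ 1 / u ^ 388) (g0 : 0 ≤ g) (y0 : 0 ≤ y) (I0 : 0 ≤ I)
    (z0 : 0 ≤ z) (x0 : 0 ≤ x) (D0 : 0 ≤ D) (T0 : 0 ≤ T) (W0 : 0 ≤ W) :
    c * PF * (W * (g * y * I) + T * g * (z + (x + D) * I)) + C1 ≤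
      c * (u ^ 12008 / O) * (u ^ 1626 * y + u ^ 2099 * (Z + u ^ 24 * x + u ^ 24 / u ^ 388 * 1)) +
        C1 * 1 := by
  have q : ∀ k : ℕ, 0 ≤ u ^ k := fun k => pow_nonneg hu.le k
  have a1 : W * (g * y * I) ≤ u ^ 1502 * (u ^ 100 * y * u ^ 24) :=
    mul_le_mul h2 (mul_le_mul (mul_le_mul_of_nonneg_right h3 y0) h4 I0 (mul_nonneg (q _) y0))
      (mul_nonneg (mul_nonneg g0 y0) I0) (q _)
  have a0 := add_nonneg z0 (mul_nonneg (add_nonneg x0 D0) I0)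
  have a2 : T * g * (z + (x + D) * I) ≤ u ^ 1999 * u ^ 100 * (Z + (x + 1 / u ^ 388) * u ^ 24) :=
    mul_le_mul (mul_le_mul h5 h3 g0 (q _))
      (add_le_add h6 (mul_le_mul (add_le_add le_rfl h7) h4 I0 (add_nonneg x0 (D0.trans h7)))) a0
      (mul_nonneg (q _) (q _))
  refine (add_le_add (mul_le_mul (mul_le_mul_of_nonneg_left h1 hc) (add_le_add a1 a2)
    (add_nonneg (mul_nonneg W0 (mul_nonneg (mul_nonneg g0 y0) I0))
      (mul_nonneg (mul_nonneg T0 g0) a0)) (mul_nonneg hc (div_nonneg (q _) hO.le)))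
    (le_refl C1)).trans_eq ?_
  ring

theorem fin {u n C1 C2 C3 C4 A Z B K O Tg : ℝ} (hu : 1 ≤ u) (hn : 1 ≤ n) (h1 : 0 < C1) (h2 : 0 < C2)
    (h3 : 0 < C3) (h4 : 0 < C4) (hO : 0 < O) (hA : A ≤ C2 * n * u ^ 8016)
    (hZ : Z ≤ C4 * (2 * u ^ 7896)) (hB : B ≤ C3 * n * (2 * u ^ 7872)) (hK : K ≤ u ^ 8016)
    (hK' : K ≤ Tg) (hT : u ^ 22003 / O ≤ Tg) :
    C1 * n * (u ^ 12008 / O) * (u ^ 1626 * A + u ^ 2099 * (Z + u ^ 24 * B + u ^ 24 / u ^ 388 * K)) +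
      C1 * K ≤ C1 * (C2 + 2 * C4 + 2 * C3 + 2) * (n * n) * Tg := by
  have u0 : 0 < u := by linarith
  have T0 : 0 ≤ Tg := le_trans (by positivity) hT
  have a1 : u ^ 1626 * A ≤ C2 * n * u ^ 9995 :=
    calc u ^ 1626 * A ≤ u ^ 1979 * (C2 * n * u ^ 8016) :=
          (mul_le_mul_of_nonneg_left hA (by positivity)).trans (by gcongr; norm_num)
      _ = _ := by ring
  have a2 : u ^ 24 / u ^ 388 * K ≤ n * u ^ 7896 :=
    calc u ^ 24 / u ^ 388 * K ≤ u ^ 24 / u ^ 388 * u ^ 8016 := by gcongr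
      _ = 1 * u ^ 7652 := by field_simp
      _ ≤ _ := by gcongr; norm_num
  have a3 : Z ≤ 2 * C4 * n * u ^ 7896 :=
    calc Z ≤ 2 * C4 * 1 * u ^ 7896 := by linarith
      _ ≤ _ := by gcongr
  have a4 : u ^ 24 * B ≤ 2 * C3 * n * u ^ 7896 :=
    (mul_le_mul_of_nonneg_left hB (by positivity)).trans (le_of_eq (by ring))
  have a5 : u ^ 1626 * A + u ^ 2099 * (Z + u ^ 24 * B + u ^ 24 / u ^ 388 * K) ≤
      (C2 + 2 * C4 + 2 * C3 + 1) * n * u ^ 9995 :=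
    calc _ ≤ C2 * n * u ^ 9995 +
          u ^ 2099 * (2 * C4 * n * u ^ 7896 + 2 * C3 * n * u ^ 7896 + n * u ^ 7896) := by gcongr
      _ = _ := by ring
  have a6 : C1 * K ≤ C1 * (n * n) * Tg := by
    rw [mul_assoc]
    exact mul_le_mul_of_nonneg_left (hK'.trans (le_mul_of_one_le_left T0 (by nlinarith))) h1.le
  calc _ ≤ C1 * n * (u ^ 12008 / O) * ((C2 + 2 * C4 + 2 * C3 + 1) * n * u ^ 9995) +
        C1 * (n * n) * Tg := by gcongr
    _ = C1 * (C2 + 2 * C4 + 2 * C3 + 1) * (n * n) * (u ^ 22003 / O) + C1 * (n * n) * Tg := by ring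
    _ ≤ C1 * (C2 + 2 * C4 + 2 * C3 + 1) * (n * n) * Tg + C1 * (n * n) * Tg := by gcongr
    _ = _ := by ring

end KA2P

open KA2P Classical in
theorem pKA2 (hPAR : S_PAR) (hKP0 : S_KP0) (hMS : S_MS) (hGG : S_GG) (hBADP : S_BADP)
    (hISO : S_ISO) (hMJ : S_MJ) : S_KA2 := by
  intro ε hε
  obtain ⟨C1, c1, h1⟩ := hKP0 (ε / 2) (by positivity)
  obtain ⟨C2, c2, h2⟩ := hGG (ε / 2) (by positivity)
  obtain ⟨C3, c3, h3⟩ := hBADP (ε / 2) (by positivity)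
  obtain ⟨C4, c4, h4⟩ := hISO
  refine ⟨C1 * (C2 + 2 * C4 + 2 * C3 + 2), by positivity, fun u N T H G q0 η hp hq => ?_⟩
  obtain ⟨rg, o1, o2, HN, cT, tT, gd⟩ := hPAR u N T H G q0 η hp
  obtain ⟨hu, hN, t1, t2, H1, H2, -, -, q1, q2, -⟩ := hp
  have u1 : 1 ≤ u := by linarith
  have u0 : 0 < u := by linarith
  have pw : ∀ {a b : ℕ}, a ≤ b → u ^ a ≤ u ^ b := fun h => pow_le_pow_right₀ u1 h
  obtain ⟨S, s1, s2⟩ := ex_nat (by linarith : 2 ≤ u) 1199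
  obtain ⟨J, j1, j2⟩ := ex_nat (by linarith : 2 ≤ u) 332
  obtain ⟨P, p1, p2⟩ := ex_nat (by linarith : 2 ≤ u) 199
  have S1 : 1 ≤ S := by exact_mod_cast (one_le_pow₀ u1).trans s1
  have J1 : 1 ≤ J := by exact_mod_cast (one_le_pow₀ u1).trans j1
  have P2 : 2 ≤ P := by
    exact_mod_cast le_trans (by linarith : (2 : ℝ) ≤ u) ((le_self_pow₀ u1 (by norm_num)).trans p1)
  have SN : S ≤ N := by exact_mod_cast s2.trans ((pw (by norm_num)).trans hN.le)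
  have N1 : (1 : ℝ) ≤ N := hN ▸ one_le_pow₀ u1
  have n1 : 1 ≤ (N : ℝ) ^ (ε / 2) := Real.one_le_rpow N1 (by positivity)
  have en : (N : ℝ) ^ ε = (N : ℝ) ^ (ε / 2) * (N : ℝ) ^ (ε / 2) := by
    rw [← Real.rpow_add (by linarith), add_halves]
  have q0p : (0 : ℝ) < q0 := by exact_mod_cast q1
  have H3 : (H : ℝ) ≤ u ^ 1002 := H2.trans (cst (by linarith) u0.le _)
  have H8 : (H : ℝ) ^ 8 ≤ u ^ 8016 := (pow_le_pow_left₀ (by positivity) H3 8).trans_eq (by ring)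
  have H6 : (H : ℝ) ^ 6 ≤ u ^ 6012 := (pow_le_pow_left₀ (by positivity) H3 6).trans_eq (by ring)
  have T3 : u ^ 1998 ≤ T :=
    le_of_mul_le_mul_left ((cst (by linarith : 2 ≤ u) u0.le 1998).trans t1) two_pos
  have HP : 10 ^ 12 * H ^ 10 ≤ P ^ 59 := by
    have : (10 : ℝ) ^ 12 * (H : ℝ) ^ 10 ≤ (P : ℝ) ^ 59 :=
      calc (10 : ℝ) ^ 12 * (H : ℝ) ^ 10 ≤ u ^ 12 * (u ^ 1002) ^ 10 := by gcongr; linarith
        _ = u ^ 10032 := by ring
        _ ≤ u ^ (199 * 59) := pw (by norm_num)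
        _ ≤ _ := by rw [pow_mul]; gcongr
    exact_mod_cast this
  generalize hO : Om N η = O at *
  set r := 11 * (q0 * O) / u ^ 3000 with hr
  have O0 : 0 < O := by linarith
  have O2 : O ≤ 2 := le_of_mul_le_mul_left (by linarith : q0 * O ≤ q0 * 2) q0p
  have r0 : 0 < r := by positivity
  have r3 : 1 + r ≤ u ^ 3 := by
    have : r ≤ 22 * u ^ 2 := by
      rw [hr, div_le_iff₀ (by positivity)]
      calc 11 * (q0 * O) ≤ 11 * (u ^ 3002 * 2) := by gcongr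
        _ = _ := by ring
    refine le_trans ?_ (cst (by linarith : 23 ≤ u) u0.le 2)
    linarith [one_le_pow₀ (n := 2) u1]
  have hPF : (N : ℝ) ^ 4 / ((q0 : ℝ) ^ 4 * O ^ 5) ≤ u ^ 12008 / O := by
    rw [← hN]
    calc (u ^ 6000) ^ 4 / ((q0 : ℝ) ^ 4 * O ^ 5) ≤ (u ^ 6000) ^ 4 / ((u ^ 2998) ^ 4 * O ^ 1) := by
          gcongr; norm_num
      _ = _ := by field_simp
  have hW : (T + q0 * √O) / √q0 ≤ u ^ 1502 := by
    have a1 : √O ≤ 2 := Real.sqrt_le_iff.2 ⟨by norm_num, by linarith⟩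
    have a2 : √(q0 : ℝ) ≤ u ^ 1501 := Real.sqrt_le_iff.2 ⟨by positivity, q2.trans_eq (by ring)⟩
    have a3 : (T : ℝ) ≤ q0 := t2.trans ((pw (by norm_num)).trans hq)
    rw [div_le_iff₀ (Real.sqrt_pos.2 q0p)]
    calc T + q0 * √O ≤ q0 + q0 * 2 := by gcongr
      _ = 3 * √q0 * √q0 := by rw [mul_assoc, Real.mul_self_sqrt q0p.le]; ring
      _ ≤ 3 * u ^ 1501 * √q0 := by gcongr
      _ ≤ _ := by gcongr; exact cst (by linarith) u0.le _
  have hD : (q0 * O / (T * S)) ^ 2 ≤ 1 / u ^ 388 :=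
    calc (q0 * O / (T * S)) ^ 2 ≤ (u ^ 3002 * u / (u ^ 1998 * u ^ 1199)) ^ 2 := by
          gcongr; linarith
      _ = _ := by field_simp
  set Z : V → V → ℝ := fun b b' => ∑ k ∈ bx N, ∑ k' ∈ bx N,
    if Psi b b' k k' = 0 then mm (u ^ 3) b b' k k' else 0 with hZ
  have Z0 : ∀ b b', 0 ≤ Z b b' := fun b b' => sum_nonneg fun k _ => sum_nonneg fun k' _ => by
    split_ifs
    · exact ((hMJ _ b (by positivity)).2.2.2.2.2.2 b').1 k k'
    · exact le_rfl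
  have sub : good H G ⊆ nzb H := filter_subset _ _
  have key : ∀ b ∈ good H G, ∀ b' ∈ (good H G).filter (fun b' => ka b b' ≠ 0 ∧ De b b' ≠ 0),
      XP N T q0 η b b' ≤ C1 * (N : ℝ) ^ (ε / 2) * (u ^ 12008 / O) * (u ^ 1626 * √(Ga b b') +
        u ^ 2099 * (Z b b' + u ^ 24 * (if bad S b b' then 1 else 0) + u ^ 24 / u ^ 388 * 1)) +
        C1 * 1 := by
    intro b hb b' hb'
    obtain ⟨hb', k0, d0⟩ := mem_filter.1 hb'
    obtain ⟨g1, g2⟩ := gd b hb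
    obtain ⟨g1', g2'⟩ := gd b' hb'
    obtain ⟨i0, i1⟩ := hMS r b b' r0 (mem_filter.1 g1).2 (mem_filter.1 g1').2
    have i2 : I8 r b b' ≤ u ^ 24 :=
      calc I8 r b b' ≤ r ^ 3 * (1 + r) ^ 5 := i1
        _ ≤ (u ^ 3) ^ 3 * (u ^ 3) ^ 5 := by gcongr; linarith
        _ = _ := by ring
    have gg : √((gb b : ℝ) * gb b') ≤ u ^ 100 :=
      Real.sqrt_le_iff.2 ⟨by positivity, by rw [sq]; gcongr⟩
    have zz : (∑ k ∈ bx N, ∑ k' ∈ bx N, if Psi b b' k k' = 0 then mm r b b' k k' else 0) ≤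
        Z b b' := sum_le_sum fun k _ => sum_le_sum fun k' _ => by
      split_ifs
      · exact ((hMJ _ b r0).2.2.2.2.2.2 b').2.1 _ k k' (by linarith)
      · exact le_rfl
    have z0 : 0 ≤ ∑ k ∈ bx N, ∑ k' ∈ bx N, if Psi b b' k k' = 0 then mm r b b' k k' else 0 :=
      sum_nonneg fun k _ => sum_nonneg fun k' _ => by
        split_ifs
        · exact ((hMJ _ b r0).2.2.2.2.2.2 b').1 k k'
        · exact le_rfl
    have b0 : (0 : ℝ) ≤ if bad S b b' then 1 else 0 := by split_ifs <;> norm_num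
    have e := (h1 N T H q0 S η r b b' rg S1 g1 g1' k0 d0).2.2
    rw [hO, Real.sqrt_mul (by positivity) (Ga b b' : ℝ)] at e
    exact e.trans (pair u0 (by positivity) O0 hPF hW gg i2 t2 zz hD (Real.sqrt_nonneg _)
      (Real.sqrt_nonneg _) i0 z0 b0 (sq_nonneg _) (Nat.cast_nonneg _) (by positivity))
  refine (sum_le_sum fun b hb => sum_le_sum (key b hb)).trans ?_
  simp only [sum_add_distrib, ← mul_sum]
  have cK : ∑ b ∈ good H G, ∑ b' ∈ (good H G).filter (fun b' => ka b b' ≠ 0 ∧ De b b' ≠ 0),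
      (1 : ℝ) ≤ ((good H G).card : ℝ) ^ 2 :=
    (dbl Subset.rfl (fun _ => filter_subset _ _) fun _ _ => zero_le_one).trans_eq (by simp [sq])
  rw [en]
  refine fin u1 n1 c1 c2 c3 c4 O0 ?_ ?_ ?_ (cK.trans ?_) (cK.trans cT) tT
  · refine (dbl sub (fun b => filter_subset_filter _ sub |>.trans (monotone_filter_right _
      fun _ _ h => h.1)) fun _ _ => Real.sqrt_nonneg _).trans ((h2 N H H1 HN).trans ?_)
    gcongr
  · refine (dbl sub (fun b => filter_subset_filter _ sub |>.trans (monotone_filter_right _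
      fun _ _ h => h.2)) Z0).trans
      ((h4 H P (u ^ 3) (bx N) H1 P2 (one_le_pow₀ u1) HP).trans ?_)
    calc C4 * (u ^ 3) ^ 8 * ((H : ℝ) ^ 8 / P + (P : ℝ) ^ 7 * H ^ 6)
        ≤ C4 * (u ^ 3) ^ 8 * (u ^ 8016 / u ^ 199 + (u ^ (199 + 1)) ^ 7 * u ^ 6012) := by gcongr
      _ = C4 * (u ^ 7841 + u ^ 7436) := by field_simp; ring
      _ ≤ C4 * (u ^ 7896 + u ^ 7896) := by gcongr <;> norm_num
      _ = _ := by ring
  · refine (dbl (t' := fun _ => nzb H) sub (fun b => (filter_subset _ _).trans sub)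
      fun b b' => by split_ifs <;> norm_num).trans ?_
    simp only [sum_boole]
    refine (h3 N H S J H1 HN SN J1).trans ?_
    have a1 : u ^ 166 ≤ √(J : ℝ) := Real.le_sqrt_of_sq_le ((le_of_eq (by ring)).trans j1)
    calc C3 * (N : ℝ) ^ (ε / 2) * ((H : ℝ) ^ 8 / √(J : ℝ) + (S : ℝ) * J * H ^ 6)
        ≤ C3 * (N : ℝ) ^ (ε / 2) *
          (u ^ 8016 / u ^ 166 + u ^ (1199 + 1) * u ^ (332 + 1) * u ^ 6012) := by gcongr
      _ = C3 * (N : ℝ) ^ (ε / 2) * (u ^ 7850 + u ^ 7545) := by field_simp; ring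
      _ ≤ C3 * (N : ℝ) ^ (ε / 2) * (u ^ 7872 + u ^ 7872) := by gcongr <;> norm_num
      _ = _ := by ring
  · have a1 : (2 * H + 1 : ℝ) ≤ u ^ 1002 := by
      refine le_trans ?_ (cst (by linarith : 21 ≤ u) u0.le 1001)
      linarith [one_le_pow₀ (n := 1001) u1]
    calc ((good H G).card : ℝ) ^ 2 ≤ ((u ^ 1002) ^ 4) ^ 2 := by
          gcongr
          exact (card_good H G).trans (by gcongr)
      _ = _ := by ring

end Pool.Agent.P.MP_0ad054_nt.PS
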