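import Pool.Agent.P.MP_0ad054_nt.PS.St

/-! The contribution of the degenerate pairs. -/

namespace Pool.Agent.P.MP_0ad054_nt.PS

open Finset Pool.Agent.Lib.H9 Pool.Agent.P.MP_0ad054_nt.Sun Pool.Agent.P.MP_0ad054_nt.Sun.SphereP
  Pool.Agent.P.MP_0ad054_nt.Clu
open scoped Real ComplexConjugate

namespace KA3P

theorem I8_nonneg (r : ℝ) (b b' : V) : 0 ≤ I8 r b b' := by
  have h : ∀ (b : V) (θ : ℝ), 0 ≤ JJ r b θ := fun b θ =>
    intervalIntegral.integral_nonneg zero_le_one fun x _ =>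
      prod_nonneg fun j _ => tsum_nonneg fun n => (Real.exp_pos _).le
  exact intervalIntegral.integral_nonneg zero_le_one fun θ _ => mul_nonneg (h b θ) (h b' θ)

/-- the mass of a symmetric set of pairs of bounded degree -/
theorem mass (hM3 : S_M3) {H : ℕ} {A : Finset V} (hA : ∀ b ∈ A, b ∈ nzb H) (φ : V → V → Prop)
    [DecidableRel φ] (hs : ∀ b b', φ b b' → φ b' b) {r D : ℝ} (hr : 0 < r) (hD : 0 ≤ D)
    (h1 : ∀ b ∈ A, ((A.filter (fun b' => φ b b')).card : ℝ) ≤ D) :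
    ∑ b ∈ A, ∑ b' ∈ A, (if φ b b' then I8 r b b' else 0) ≤
      D * (r * (1 + r) ^ 3 * I2 r H ^ 2) := by
  have h := hM3 H r D ((A ×ˢ A).filter fun p => φ p.1 p.2) hr hD
    (fun p hp => by
      have := mem_product.1 (mem_filter.1 hp).1
      exact ⟨hA _ this.1, hA _ this.2⟩)
    (fun b => by
      by_cases hb : b ∈ A
      · refine le_trans ?_ (h1 b hb)
        refine Nat.cast_le.2 (card_le_card_of_injOn Prod.snd (fun p hp => ?_) fun p hp q hq e => ?_)
        · simp only [coe_filter, mem_filter, mem_product, Set.mem_ofPred_eq] at hp ⊢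
          exact ⟨hp.1.1.2, hp.2 ▸ hp.1.2⟩
        · simp only [coe_filter, mem_filter, mem_product, Set.mem_ofPred_eq] at hp hq
          exact Prod.ext (hp.2.trans hq.2.symm) e
      · rw [filter_false_of_mem, card_empty, Nat.cast_zero]
        · exact hD
        · intro p hp e
          exact hb (e ▸ (mem_product.1 (mem_filter.1 hp).1).1))
    (fun b => by
      by_cases hb : b ∈ A
      · refine le_trans ?_ (h1 b hb)
        refine Nat.cast_le.2 (card_le_card_of_injOn Prod.fst (fun p hp => ?_) fun p hp q hq e => ?_)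
        · simp only [coe_filter, mem_filter, mem_product, Set.mem_ofPred_eq] at hp ⊢
          exact ⟨hp.1.1.1, hp.2 ▸ hs _ _ hp.1.2⟩
        · simp only [coe_filter, mem_filter, mem_product, Set.mem_ofPred_eq] at hp hq
          exact Prod.ext e (hp.2.trans hq.2.symm)
      · rw [filter_false_of_mem, card_empty, Nat.cast_zero]
        · exact hD
        · intro p hp e
          exact hb (e ▸ (mem_product.1 (mem_filter.1 hp).1).2))
  rwa [sum_filter, sum_product] at h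

/-- the numerical inequality -/
theorem num {u Ω q r T H L F : ℝ} (hu : 1 ≤ u) (hΩ : 1 ≤ Ω) (hq : 1 ≤ q)
    (hr : r = 11 * (q * Ω) / u ^ 3000) (hr2 : r ≤ 22 * u ^ 2) (T0 : 0 ≤ T) (hT : T ≤ u ^ 1999)
    (H0 : 0 ≤ H) (hH : H ≤ 10 * u ^ 1001) (L0 : 0 ≤ L) (hL : L ≤ 1003 * u) (F0 : 0 ≤ F)
    (hF : F ≤ 100 * u ^ 3503) (hF' : F ≤ 100 * q * u ^ 2002) :
    (u ^ 6000) ^ 4 / (q ^ 4 * Ω ^ 5) * (T * u ^ 100) *
      (F * (r * (1 + r) ^ 3 * (H ^ 2 * r ^ 2 + H * r * L ^ 2) ^ 2)) ≤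
      10 ^ 26 * (u ^ 22003 / Ω) := by
  have u0 : 0 < u := by linarith
  have Ω0 : 0 < Ω := by linarith
  have q0 : 0 < q := by linarith
  have r0 : 0 < r := by rw [hr]; positivity
  have e1 : (u ^ 6000) ^ 4 / (q ^ 4 * Ω ^ 5) = 11 ^ 4 * u ^ 12000 / (r ^ 4 * Ω) := by
    rw [hr]
    field_simp
  have hq' : q ≤ r * u ^ 3000 := by
    rw [hr, div_mul_cancel₀ _ (by positivity)]
    nlinarith
  have f1 : F / r ≤ 100 * u ^ 5002 := by
    rw [div_le_iff₀ r0]
    calc F ≤ 100 * (r * u ^ 3000) * u ^ 2002 := hF'.trans (by gcongr)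
      _ = _ := by ring
  have r1 : 1 + r ≤ 23 * u ^ 2 := by
    have : 1 ≤ u ^ 2 := one_le_pow₀ hu
    linarith
  have s1 : (H ^ 2 * r ^ 2 + H * r * L ^ 2) ^ 2 ≤ 2 * r ^ 2 * (H ^ 4 * r ^ 2 + H ^ 2 * L ^ 4) := by
    nlinarith [sq_nonneg (H ^ 2 * r ^ 2 - H * r * L ^ 2)]
  have s2 : F * r * H ^ 4 + F / r * (H ^ 2 * L ^ 4) ≤ 2 * 10 ^ 16 * u ^ 7509 := by
    have a1 : F * r * H ^ 4 ≤ 100 * u ^ 3503 * (22 * u ^ 2) * (10 * u ^ 1001) ^ 4 := by gcongr
    have a2 : F / r * (H ^ 2 * L ^ 4) ≤ 100 * u ^ 5002 * ((10 * u ^ 1001) ^ 2 * (1003 * u) ^ 4) := by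
      gcongr
    have a3 : u ^ 7008 ≤ u ^ 7509 := pow_le_pow_right₀ hu (by norm_num)
    have a4 : 100 * u ^ 3503 * (22 * u ^ 2) * (10 * u ^ 1001) ^ 4 = 22000000 * u ^ 7509 := by ring
    have a5 : 100 * u ^ 5002 * ((10 * u ^ 1001) ^ 2 * (1003 * u) ^ 4) =
        10000 * 1003 ^ 4 * u ^ 7008 := by ring
    have a6 : 0 ≤ u ^ 7008 := by positivity
    rw [a4] at a1
    rw [a5] at a2
    generalize u ^ 7008 = x at *
    generalize u ^ 7509 = y at *
    linarith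
  have a7 : u ^ 21614 ≤ u ^ 22003 := pow_le_pow_right₀ hu (by norm_num)
  calc _ ≤ 11 ^ 4 * u ^ 12000 / (r ^ 4 * Ω) * (T * u ^ 100) *
        (F * (r * (1 + r) ^ 3 * (2 * r ^ 2 * (H ^ 4 * r ^ 2 + H ^ 2 * L ^ 4)))) := by
        rw [e1]
        gcongr
    _ = 2 * 11 ^ 4 * u ^ 12100 * T * (1 + r) ^ 3 *
        (F * r * H ^ 4 + F / r * (H ^ 2 * L ^ 4)) / Ω := by
        field_simp
    _ ≤ 2 * 11 ^ 4 * u ^ 12100 * u ^ 1999 * (23 * u ^ 2) ^ 3 * (2 * 10 ^ 16 * u ^ 7509) / Ω := by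
        gcongr
    _ = 4 * 11 ^ 4 * 23 ^ 3 * 10 ^ 16 * (u ^ 21614 / Ω) := by ring
    _ ≤ _ := by
        gcongr
        norm_num

theorem LL_le {u : ℝ} {H : ℕ} (hu : 100 ≤ u) (h1 : 1 ≤ H) (hH : (H : ℝ) ≤ 10 * u ^ 1001) :
    0 ≤ LL H ∧ LL H ≤ 1003 * u := by
  have u0 : 0 < u := by linarith
  have H1 : (1 : ℝ) ≤ H := by exact_mod_cast h1
  refine ⟨add_nonneg zero_le_one (Real.log_nonneg H1), ?_⟩
  have a : (H : ℝ) ≤ u ^ 1002 := by
    refine hH.trans ?_
    rw [pow_succ' u 1001]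
    exact mul_le_mul_of_nonneg_right (by linarith) (by positivity)
  have b := Real.log_le_log (by linarith) a
  rw [Real.log_pow] at b
  have c := Real.log_le_sub_one_of_pos u0
  simp only [LL]
  push_cast at b
  linarith

end KA3P

theorem pKA3 (hPAR : S_PAR) (hKP1 : S_KP1) (hM3 : S_M3) (hI2 : S_I2) (hFIB : S_FIB)
    (hDEG : S_DEG) : S_KA3 := by
  intro ε hε
  obtain ⟨C1, c1, hK⟩ := hKP1 (ε / 2) (by linarith)
  obtain ⟨C2, c2, hI⟩ := hI2
  obtain ⟨C3, c3, hF⟩ := hFIB (ε / 2) (by linarith)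
  obtain ⟨C4, c4, hD⟩ := hDEG (ε / 2) (by linarith)
  refine ⟨C1 * (C3 + C4) * C2 ^ 2 * 10 ^ 26 + C1, by positivity, fun u N T H G q0 η hP => ?_⟩
  obtain ⟨hR, hΩ, hqΩ, hHN, hc, hTg, hg⟩ := hPAR u N T H G q0 η hP
  obtain ⟨hu, hN, -, hT, H1, hH, G1, hG, q1, hq, -⟩ := hP
  have u1 : 1 ≤ u := by linarith
  have u0 : 0 < u := by linarith
  have N1 : (1 : ℝ) ≤ N := hN ▸ one_le_pow₀ u1
  have Q1 : (1 : ℝ) ≤ q0 := by exact_mod_cast q1
  set Ω := Om N η with hΩd
  set r := 11 * (q0 * Ω) / u ^ 3000 with hr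
  have r0 : 0 < r := by positivity
  have hr2 : r ≤ 22 * u ^ 2 := by
    rw [hr, div_le_iff₀ (by positivity)]
    have a : u ^ 2998 ≤ u ^ 3002 := pow_le_pow_right₀ u1 (by norm_num)
    have b : 22 * u ^ 2 * u ^ 3000 = 22 * u ^ 3002 := by ring
    rw [b]
    linarith
  set A := good H G with hA
  set M := (N : ℝ) ^ (ε / 2) with hM
  have M1 : 1 ≤ M := Real.one_le_rpow N1 (by linarith)
  have MM : M * M = (N : ℝ) ^ ε := by
    rw [hM, ← Real.rpow_add (by linarith), add_halves]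
  set W := (N : ℝ) ^ 4 / ((q0 : ℝ) ^ 4 * Ω ^ 5) with hW
  have W0 : 0 ≤ W := by positivity
  obtain ⟨i0, i1⟩ := hI r H r0 H1
  obtain ⟨L0, L1⟩ := KA3P.LL_le hu H1 hH
  have m1 := KA3P.mass hM3 (fun b hb => (hg b hb).1) (fun b b' => De b b' = 0)
    (fun b b' h => by simp only [De] at h ⊢; linarith) r0
    (show 0 ≤ C4 * M * (G : ℝ) ^ 3 by positivity) fun b hb => hD N H G b H1 hHN G1 fun e =>
      (mem_filter.1 (hg b hb).1).2 0 (by rw [e]; rfl)
  have m2 := KA3P.mass hM3 (fun b hb => (hg b hb).1) (fun b b' => ka b b' = 0)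
    (fun b b' h => by simp only [ka] at h ⊢; linarith) r0
    (show 0 ≤ C3 * M * (H : ℝ) ^ 2 by positivity) fun b hb =>
      le_trans (Nat.cast_le.2 (card_le_card fun b' hb' => by
        obtain ⟨h1, h2⟩ := mem_filter.1 hb'
        simp only [ka] at h2
        exact mem_filter.2 ⟨(mem_filter.1 (hg b' h1).1).1, by linarith⟩))
        ((hF N H H1 hHN).1 (Q2 b))
  set Y := r * (1 + r) ^ 3 * ((H : ℝ) ^ 2 * r ^ 2 + H * r * LL H ^ 2) ^ 2 with hY
  have hYY : r * (1 + r) ^ 3 * I2 r H ^ 2 ≤ C2 ^ 2 * Y := by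
    calc _ ≤ r * (1 + r) ^ 3 * (C2 * ((H : ℝ) ^ 2 * r ^ 2 + H * r * LL H ^ 2)) ^ 2 := by gcongr
      _ = _ := by rw [hY]; ring
  have sq1 : Real.sqrt q0 ≤ q0 := by
    rw [Real.sqrt_le_left (by linarith)]
    nlinarith
  have sq2 : Real.sqrt q0 ≤ u ^ 1501 := by
    rw [Real.sqrt_le_left (by positivity), ← pow_mul]
    exact hq
  have G3 : (G : ℝ) ^ 3 ≤ u ^ 300 := by
    rw [show 300 = 100 * 3 by norm_num, pow_mul]
    gcongr
  have H2 : (H : ℝ) ^ 2 ≤ 100 * u ^ 2002 := by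
    calc _ ≤ (10 * u ^ 1001) ^ 2 := by gcongr
      _ = _ := by ring
  have n1 := KA3P.num (F := q0 * (G : ℝ) ^ 3) u1 hΩ Q1 hr hr2 (Nat.cast_nonneg T) hT
    (Nat.cast_nonneg H) hH L0 L1 (by positivity)
    (by
      have a : u ^ 3302 ≤ u ^ 3503 := pow_le_pow_right₀ u1 (by norm_num)
      have b : 0 ≤ u ^ 3503 := by positivity
      calc _ ≤ u ^ 3002 * u ^ 300 := by gcongr
        _ = u ^ 3302 := by ring
        _ ≤ _ := by linarith)
    (by
      have a : u ^ 300 ≤ u ^ 2002 := pow_le_pow_right₀ u1 (by norm_num)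
      have b : 0 ≤ u ^ 2002 := by positivity
      calc _ ≤ q0 * (100 * u ^ 2002) := by
            gcongr
            linarith
        _ = _ := by ring)
  have n2 := KA3P.num (F := Real.sqrt q0 * (H : ℝ) ^ 2) u1 hΩ Q1 hr hr2 (Nat.cast_nonneg T) hT
    (Nat.cast_nonneg H) hH L0 L1 (by positivity)
    (by
      calc _ ≤ u ^ 1501 * (100 * u ^ 2002) := by gcongr
        _ = _ := by ring)
    (by
      calc _ ≤ q0 * (100 * u ^ 2002) := by gcongr
        _ = _ := by ring)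
  rw [hN, ← hW, ← hY] at n1 n2
  have T0 : 0 ≤ Tg u N q0 η := (sq_nonneg _).trans hc
  set c := C1 * M * (W * (T * u ^ 100)) with hcd
  have c0 : 0 ≤ c := by positivity
  have pt : ∀ b ∈ A, ∑ b' ∈ A.filter (fun b' => ¬ (ka b b' ≠ 0 ∧ De b b' ≠ 0)),
      XP N T q0 η b b' ≤ ∑ b' ∈ A, (c * (q0 * (if De b b' = 0 then I8 r b b' else 0) +
        Real.sqrt q0 * (if ka b b' = 0 then I8 r b b' else 0)) + C1) := fun b hb => by
    have nn : ∀ b' (p : Prop) [Decidable p], 0 ≤ (if p then I8 r b b' else 0) := fun b' p _ => by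
      split_ifs
      exacts [KA3P.I8_nonneg _ _ _, le_rfl]
    refine (sum_le_sum fun b' hb' => ?_).trans (sum_le_sum_of_subset_of_nonneg (filter_subset _ _)
      fun b' _ _ => by
        have := nn b' (De b b' = 0)
        have := nn b' (ka b b' = 0)
        positivity)
    obtain ⟨h1, h2⟩ := mem_filter.1 hb'
    refine (hK N T H q0 η r b b' hR (hg b hb).1 (hg b' h1).1).trans (add_le_add_left ?_ _)
    have i8 := KA3P.I8_nonneg r b b'
    have s : Real.sqrt (gb b * gb b') ≤ u ^ 100 := by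
      rw [Real.sqrt_le_left (by positivity), sq]
      exact mul_le_mul (hg b hb).2 (hg b' h1).2 (Nat.cast_nonneg _) (by positivity)
    have f : (if De b b' = 0 then (q0 : ℝ) else Real.sqrt q0) * I8 r b b' ≤
        q0 * (if De b b' = 0 then I8 r b b' else 0) +
        Real.sqrt q0 * (if ka b b' = 0 then I8 r b b' else 0) := by
      by_cases e : De b b' = 0
      · rw [if_pos e, if_pos e]
        exact le_add_of_nonneg_right (mul_nonneg (Real.sqrt_nonneg _) (nn _ _))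
      · have e' : ka b b' = 0 := by
          by_contra e'
          exact h2 ⟨e', e⟩
        rw [if_neg e, if_neg e, if_pos e', mul_zero, zero_add]
    have f0 : 0 ≤ (if De b b' = 0 then (q0 : ℝ) else Real.sqrt q0) := by
      split_ifs <;> positivity
    generalize (if De b b' = 0 then (q0 : ℝ) else Real.sqrt q0) = x at *
    calc _ ≤ C1 * M * W * (T * x * (u ^ 100 * I8 r b b')) := by gcongr
      _ = c * (x * I8 r b b') := by rw [hcd]; ring
      _ ≤ _ := mul_le_mul_of_nonneg_left f c0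
  refine (sum_le_sum pt).trans ?_
  simp only [sum_add_distrib, ← mul_sum, sum_const, nsmul_eq_mul]
  calc _ ≤ c * (q0 * (C4 * M * (G : ℝ) ^ 3 * (C2 ^ 2 * Y)) +
        Real.sqrt q0 * (C3 * M * (H : ℝ) ^ 2 * (C2 ^ 2 * Y))) + C1 * (A.card : ℝ) ^ 2 := by
        refine add_le_add (mul_le_mul_of_nonneg_left (add_le_add ?_ ?_) c0) (le_of_eq (by ring))
        · exact mul_le_mul_of_nonneg_left (m1.trans (by gcongr)) (by positivity)
        · exact mul_le_mul_of_nonneg_left (m2.trans (by gcongr)) (by positivity)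
    _ = C1 * (M * M) * C2 ^ 2 * (C4 * (W * (T * u ^ 100) * (q0 * (G : ℝ) ^ 3 * Y)) +
        C3 * (W * (T * u ^ 100) * (Real.sqrt q0 * (H : ℝ) ^ 2 * Y))) +
        C1 * (1 * (A.card : ℝ) ^ 2) := by rw [hcd]; ring
    _ ≤ C1 * (M * M) * C2 ^ 2 * (C4 * (10 ^ 26 * Tg u N q0 η) + C3 * (10 ^ 26 * Tg u N q0 η)) +
        C1 * (M * M * Tg u N q0 η) := by
        have t := mul_le_mul_of_nonneg_left hTg (show (0 : ℝ) ≤ 10 ^ 26 by positivity)
        exact add_le_add (mul_le_mul_of_nonneg_left (add_le_add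
          (mul_le_mul_of_nonneg_left (n1.trans t) c4.le)
          (mul_le_mul_of_nonneg_left (n2.trans t) c3.le)) (by positivity))
          (mul_le_mul_of_nonneg_left (mul_le_mul (one_le_mul_of_one_le_of_one_le M1 M1) hc
            (sq_nonneg _) (by positivity)) c1.le)
    _ = _ := by rw [MM]; ring

end Pool.Agent.P.MP_0ad054_nt.PS
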