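import Pool.Agent.P.MP_0ad054_nt.PS.St

/-! The kernel of the three by three matrix modulo `q`. -/

namespace Pool.Agent.P.MP_0ad054_nt.PS

open Finset Pool.Agent.Lib.H9 Pool.Agent.P.MP_0ad054_nt.Sun Pool.Agent.P.MP_0ad054_nt.Sun.SphereP
  Pool.Agent.P.MP_0ad054_nt.Clu
open scoped Real ComplexConjugate

namespace KEP

lemma fib {G H : Type*} [AddCommGroup G] [AddCommGroup H] [DecidableEq H] {S : Finset G}
    {T : Finset H} (φ : G → H) (hφ : ∀ x y, φ (x - y) = φ x - φ y)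
    (hS : ∀ x ∈ S, ∀ y ∈ S, x - y ∈ S) (hT : ∀ x ∈ S, φ x ∈ T) :
    #S ≤ #(S.filter fun x => φ x = 0) * #T := by
  refine card_le_mul_card_image_of_maps_to hT _ fun b _ => ?_
  rcases (S.filter fun x => φ x = b).eq_empty_or_nonempty with h | ⟨a, ha⟩
  · simp [h]
  · refine card_le_card_of_injOn (· - a) (fun x hx => ?_) fun x _ y _ h => sub_left_injective h
    simp only [coe_filter, Set.mem_ofPred_eq, mem_filter] at hx ha ⊢
    exact ⟨hS x hx.1 a ha.1, by rw [hφ, hx.2, ha.2, sub_self]⟩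

lemma ann (q : ℕ) [NeZero q] (a : ℤ) :
    #(univ.filter fun x : ZMod q => (a : ZMod q) * x = 0) ≤ Int.gcd q a := by
  refine le_trans (card_le_card fun x hx => ?_) (IsAddCyclic.card_nsmul_eq_zero_le
    (Int.gcd_pos_of_ne_zero_left a (by exact_mod_cast NeZero.ne q)))
  have h := congrArg (Int.cast : ℤ → ZMod q) (Int.gcd_eq_gcd_ab q a)
  push_cast at h
  simp only [mem_filter, mem_univ, true_and, nsmul_eq_mul] at hx ⊢
  rw [h, ZMod.natCast_self]
  linear_combination (Int.gcdB q a : ZMod q) * hx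

lemma core (q : ℕ) [NeZero q] (g g' a₀ b₀ u v A n A' n' k s t D : ℤ) (h1 : A = a₀ * g)
    (h2 : 105 * n = b₀ * g) (h3 : u * a₀ + v * b₀ = 1) (h4 : g' = A' * s + 105 * n' * t)
    (h5 : D = A * A' * k - 105 * A' * n ^ 2 + 105 * A * n' ^ 2) :
    #(univ.filter fun x : ZMod q × ZMod q × ZMod q => A * x.1 + 105 * n * x.2.2 = 0 ∧
      A' * x.2.1 + 105 * n' * x.2.2 = 0 ∧ n * x.1 - n' * x.2.1 + k * x.2.2 = 0) ≤
      Int.gcd q g * Int.gcd q g' * Int.gcd q D := by
  have e1 := congrArg (Int.cast : ℤ → ZMod q) h1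
  have e2 := congrArg (Int.cast : ℤ → ZMod q) h2
  have e3 := congrArg (Int.cast : ℤ → ZMod q) h3
  have e4 := congrArg (Int.cast : ℤ → ZMod q) h4
  have e5 := congrArg (Int.cast : ℤ → ZMod q) h5
  push_cast at e1 e2 e3 e4 e5
  refine (fib (T := univ.filter fun x : ZMod q => (g : ZMod q) * x = 0)
    (fun x => (a₀ : ZMod q) * x.1 + b₀ * x.2.2) (fun x y => by simp; ring) (fun x hx y hy => ?_)
    fun x hx => ?_).trans ?_
  · simp only [mem_filter, mem_univ, true_and, Prod.fst_sub, Prod.snd_sub] at hx hy ⊢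
    exact ⟨by linear_combination hx.1 - hy.1, by linear_combination hx.2.1 - hy.2.1,
      by linear_combination hx.2.2 - hy.2.2⟩
  · simp only [mem_filter, mem_univ, true_and] at hx ⊢
    linear_combination hx.1 - x.1 * e1 - x.2.2 * e2
  rw [mul_assoc, mul_comm (Int.gcd q g)]
  refine Nat.mul_le_mul ((fib (T := univ.filter fun x : ZMod q => (D : ZMod q) * x = 0)
    (fun x => -(v : ZMod q) * x.1 + u * x.2.2) (fun x y => by simp; ring) (fun x hx y hy => ?_)
    fun x hx => ?_).trans (Nat.mul_le_mul (le_trans ?_ (ann q g')) (ann q D))) (ann q g)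
  · simp only [mem_filter, mem_univ, true_and, Prod.fst_sub, Prod.snd_sub] at hx hy ⊢
    exact ⟨⟨by linear_combination hx.1.1 - hy.1.1, by linear_combination hx.1.2.1 - hy.1.2.1,
      by linear_combination hx.1.2.2 - hy.1.2.2⟩, by linear_combination hx.2 - hy.2⟩
  · simp only [mem_filter, mem_univ, true_and] at hx ⊢
    obtain ⟨⟨-, f2, f3⟩, f4⟩ := hx
    obtain ⟨m, hm⟩ : ∃ m, m = -(v : ZMod q) * x.1 + u * x.2.2 := ⟨_, rfl⟩
    have x1 : x.1 = -(b₀ * m) := by rw [hm]; linear_combination u * f4 - x.1 * e3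
    have x3 : x.2.2 = a₀ * m := by rw [hm]; linear_combination v * f4 - x.2.2 * e3
    rw [x1, x3] at f3
    rw [x3] at f2
    rw [← hm, e5]
    linear_combination (g * n' : ZMod q) * f2 + (g * A' : ZMod q) * f3 +
      (A' * k + 105 * n' ^ 2 : ZMod q) * m * e1 - (A' * n : ZMod q) * m * e2
  · have key : ∀ x : ZMod q × ZMod q × ZMod q, (a₀ : ZMod q) * x.1 + b₀ * x.2.2 = 0 →
        -(v : ZMod q) * x.1 + u * x.2.2 = 0 → x.1 = 0 ∧ x.2.2 = 0 := fun x f4 f5 =>
      ⟨by linear_combination u * f4 - b₀ * f5 - x.1 * e3,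
        by linear_combination v * f4 + a₀ * f5 - x.2.2 * e3⟩
    refine card_le_card_of_injOn (·.2.1) (fun x hx => ?_) fun x hx y hy h => ?_
    · simp only [coe_filter, Set.mem_ofPred_eq, mem_filter, mem_univ, true_and] at hx ⊢
      obtain ⟨⟨⟨-, f2, f3⟩, f4⟩, f5⟩ := hx
      obtain ⟨x1, x3⟩ := key x f4 f5
      rw [x1, x3] at f3
      rw [x3] at f2
      rw [e4]
      linear_combination (s : ZMod q) * f2 - (105 * t : ZMod q) * f3
    · simp only [coe_filter, Set.mem_ofPred_eq, mem_filter, mem_univ, true_and] at hx hy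
      obtain ⟨x1, x3⟩ := key x hx.1.2 hx.2
      obtain ⟨y1, y3⟩ := key y hy.1.2 hy.2
      exact Prod.ext (x1.trans y1.symm) (Prod.ext h (x3.trans y3.symm))

lemma cast_inj {q : ℕ} {x y : ℤ} (hx : x ∈ Ico (0 : ℤ) q) (hy : y ∈ Ico (0 : ℤ) q)
    (h : (x : ZMod q) = y) : x = y := by
  rw [mem_Ico] at hx hy
  rw [ZMod.intCast_eq_intCast_iff', Int.emod_eq_of_lt hx.1 hx.2, Int.emod_eq_of_lt hy.1 hy.2] at h
  exact h

end KEP

open KEP in
theorem pKE : S_KE := by
  intro q b b' hq _ _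
  have : NeZero q := ⟨by omega⟩
  obtain ⟨a₀, b₀, h1, h2, hc⟩ := extract_gcd (al b) (105 * nsq b)
  obtain ⟨u, v, h3⟩ := (gcd_isUnit_iff a₀ b₀).1 hc
  rw [← Int.coe_gcd] at h1 h2
  have h := core q (gb b) (gb b') a₀ b₀ u v (al b) (nsq b) (al b') (nsq b') (ka b b') _ _ (De b b')
    (h1.trans (mul_comm _ _)) (h2.trans (mul_comm _ _)) h3 (Int.gcd_eq_gcd_ab _ _)
    (by rw [De, ep, ep, ka]; ring)
  rw [Int.gcd_natCast_natCast, Int.gcd_natCast_natCast] at h
  refine le_trans (card_le_card_of_injOn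
    (fun n => ((n.1 : ZMod q), (n.2.1 : ZMod q), (n.2.2 : ZMod q))) (fun n hn => ?_)
    fun x hx y hy e => ?_) h
  · simp only [coe_filter, Set.mem_ofPred_eq, mem_univ, true_and,
      ← ZMod.intCast_zmod_eq_zero_iff_dvd] at hn ⊢
    exact_mod_cast hn.2
  · simp only [coe_filter, Set.mem_ofPred_eq, mem_product, Prod.mk.injEq] at hx hy e
    exact Prod.ext (cast_inj hx.1.1 hy.1.1 e.1) (Prod.ext (cast_inj hx.1.2.1 hy.1.2.1 e.2.1)
      (cast_inj hx.1.2.2 hy.1.2.2 e.2.2))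

end Pool.Agent.P.MP_0ad054_nt.PS
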