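import Pool.Agent.P.MP_0ad054_nt.PS.St

/-! The contribution of a non-degenerate pair. -/

namespace Pool.Agent.P.MP_0ad054_nt.PS

open Finset Pool.Agent.Lib.H9 Pool.Agent.P.MP_0ad054_nt.Sun Pool.Agent.P.MP_0ad054_nt.Sun.SphereP
  Pool.Agent.P.MP_0ad054_nt.Clu
open scoped Real ComplexConjugate

namespace KP0P

lemma two {b b' k k' : V} (hDe : De b b' ≠ 0) (K : Finset ℤ) :
    (K.filter fun s => Phi b b' k k' s = 0).card ≤ 2 := by
  rcases (K.filter fun s => Phi b b' k k' s = 0).eq_empty_or_nonempty with h | ⟨s, hs⟩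
  · simp [h]
  · refine (card_le_card (t := {s, -s}) fun t ht => ?_).trans card_le_two
    have h1 := (mem_filter.1 hs).2
    have h2 := (mem_filter.1 ht).2
    unfold Phi at h1 h2
    have h3 : De b b' * (t ^ 2 - s ^ 2) = 0 := by linarith
    have h4 := sub_eq_zero.1 ((mul_eq_zero.1 h3).resolve_left hDe)
    simpa using sq_eq_sq_iff_eq_or_eq_neg.1 h4

lemma split {K : Finset ℤ} {w D : ℤ → ℝ} {p : ℤ → Prop} [DecidablePred p] {W a c m : ℝ}
    (hw : ∀ s, 0 ≤ w s) (hW : ∑ s ∈ K, w s ≤ W) (ha : 0 ≤ a) (hc : 0 ≤ c) (hm : 0 ≤ m)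
    (h1 : ∀ s, D s ≤ a) (h2 : ∀ s ∈ K, ¬ p s → D s ≤ c) (h3 : ∀ s, p s → w s ≤ m)
    (h4 : (K.filter p).card ≤ 2) : ∑ s ∈ K, w s * D s ≤ W * c + 2 * m * a := by
  have h5 : ((K.filter p).card : ℝ) ≤ 2 := by exact_mod_cast h4
  calc _ ≤ ∑ s ∈ K, (w s * c + if p s then m * a else 0) := sum_le_sum fun s hs => by
        split_ifs with h
        · exact le_add_of_nonneg_of_le (mul_nonneg (hw s) hc)
            ((mul_le_mul_of_nonneg_left (h1 s) (hw s)).trans
              (mul_le_mul_of_nonneg_right (h3 s h) ha))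
        · rw [add_zero]; exact mul_le_mul_of_nonneg_left (h2 s hs h) (hw s)
    _ = (∑ s ∈ K, w s) * c + (K.filter p).card * (m * a) := by
        rw [sum_add_distrib, ← sum_mul, ← sum_filter, sum_const, nsmul_eq_mul]
    _ ≤ W * c + 2 * (m * a) := by gcongr
    _ = _ := by ring

lemma fin {X C L P u x y : ℝ} (h : X ≤ C * P * u + C) (hC : 0 < C) (hL : 1 ≤ L) (hP : 0 ≤ P)
    (hu : u ≤ L * x * y) : X ≤ C * L * x * P * y + C * L := by
  have := mul_le_mul_of_nonneg_left hu (mul_nonneg hC.le hP)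
  have := le_mul_of_one_le_right hC.le hL
  linarith

end KP0P

open Classical in
theorem pKP0 (hKPM : S_KPM) (hDT : S_DT) (hDR : S_DR) (hMJ : S_MJ) : S_KP0 := by
  intro ε hε
  obtain ⟨C1, c1, h1⟩ := hKPM
  obtain ⟨C2, c2, h2⟩ := hDT.2 ε hε
  obtain ⟨C3, c3, h3⟩ := hDR ε hε
  obtain ⟨L, hL⟩ : ∃ L, L = 1 + C1 * C2 + C1 * C3 + 2 * C2 * (1 + C1) := ⟨_, rfl⟩
  have p1 := mul_pos c1 c2
  have p2 := mul_pos c1 c3
  have L0 : 1 ≤ L := by nlinarith
  have L1 : C1 * C2 ≤ L := by nlinarith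
  have L2 : C1 * C3 ≤ L := by nlinarith
  have L3 : 2 * C2 * (1 + C1) ≤ L := by nlinarith
  have L4 : 2 * C2 ≤ L := by nlinarith
  refine ⟨C1 * L, by positivity, fun N T H q0 S η r b b' hR hS hb hb' hka hDe => ?_⟩
  obtain ⟨w, hw, hw1, hX⟩ := h1 N T H q0 η r b b' hR hb hb'
  obtain ⟨T1, -, -, HN, -, q1, qN, -, -, r0, -⟩ := hR
  obtain ⟨m0, -, mI⟩ := (hMJ r b r0).2.2.2.2.2.2 b'
  have mI' := mI (bx N) (bx N)
  have I0 : 0 ≤ I8 r b b' := by simpa using mI ∅ ∅
  have d2 := fun k k' s => h2 N H q0 b b' k k' s (by omega) q1 hb hb' hka hDe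
  have d3 := fun k k' s hk hk' hs => h3 N H q0 b b' k k' s (by omega) q1 (by omega) hb hb' hk hk' hs
    hka hDe
  have O0 : 0 ≤ Om N η := Real.sqrt_nonneg _
  have Q0 : (0 : ℝ) < q0 := by exact_mod_cast q1
  have T0 : (0 : ℝ) < T := by exact_mod_cast T1
  have S0 : (0 : ℝ) < S := by exact_mod_cast hS
  have x0 : 0 ≤ (N : ℝ) ^ ε := by positivity
  have A0 := Real.sqrt_nonneg ((gb b : ℝ) * gb b')
  have B0 := Real.sqrt_nonneg ((gb b : ℝ) * gb b' * Ga b b')
  have W0 : 0 ≤ (T : ℝ) + q0 * √(Om N η) := by positivity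
  have P0 : 0 ≤ (N : ℝ) ^ 4 / ((q0 : ℝ) ^ 4 * Om N η ^ 5) := by positivity
  have e12 : (N : ℝ) ^ 4 / ((q0 : ℝ) ^ 12 * Om N η ^ 5) =
      (N : ℝ) ^ 4 / ((q0 : ℝ) ^ 4 * Om N η ^ 5) * ((q0 : ℝ) ^ 8)⁻¹ := by
    rw [← div_eq_mul_inv, div_div]; congr 1; ring
  have e7 : (q0 : ℝ) ^ 7 * √q0 = (q0 : ℝ) ^ 8 / √q0 := by
    rw [eq_div_iff (Real.sqrt_pos.2 Q0).ne', mul_assoc, Real.mul_self_sqrt Q0.le]; ring
  rw [e12] at hX
  rw [e7] at d3
  generalize (N : ℝ) ^ 4 / ((q0 : ℝ) ^ 4 * Om N η ^ 5) = P at *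
  generalize (N : ℝ) ^ ε = x at *
  generalize √((gb b : ℝ) * gb b') = A at *
  generalize √((gb b : ℝ) * gb b' * Ga b b') = B at *
  generalize (T : ℝ) + q0 * √(Om N η) = W at *
  have key : ∀ U : V → V → ℝ, (∀ k ∈ bx N, ∀ k' ∈ bx N, ∑ s ∈ iv N, w s *
      ∑ q ∈ Ico q0 (2 * q0), ‖SS q b b' k k' s‖ ≤ (q0 : ℝ) ^ 8 * U k k') →
      XP N T q0 η b b' ≤ C1 * P * (∑ k ∈ bx N, ∑ k' ∈ bx N, mm r b b' k k' * U k k') + C1 := by
    intro U hU
    refine hX.trans (add_le_add_left ?_ _)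
    rw [← mul_assoc, mul_assoc (C1 * P)]
    refine mul_le_mul_of_nonneg_left ?_ (by positivity)
    rw [inv_mul_le_iff₀ (by positivity), mul_sum]
    refine sum_le_sum fun k hk => ?_
    rw [mul_sum]
    refine sum_le_sum fun k' hk' => ?_
    rw [mul_left_comm]
    exact mul_le_mul_of_nonneg_left (hU k hk k' hk') (m0 k k')
  have key2 : ∀ (M : V → V → ℝ) (Z : ℝ), (∀ k k', 0 ≤ M k k') →
      (∀ k k' s, Phi b b' k k' s = 0 → w s ≤ T * M k k') →
      2 * C2 * ∑ k ∈ bx N, ∑ k' ∈ bx N, mm r b b' k k' * M k k' ≤ L * Z →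
      XP N T q0 η b b' ≤ C1 * L * x * P * (W / √q0 * (B * I8 r b b') + T * A * Z) + C1 * L := by
    intro M Z M0 hM hZ
    refine KP0P.fin (key (fun k k' => C1 * C3 * (x * (W / √q0 * B)) + x * T * A * (2 * C2 * M k k'))
      fun k hk k' hk' => ?_) c1 L0 P0 ?_
    · refine (KP0P.split (fun s => (hw s).1) hw1 (by positivity) (by positivity)
        (mul_nonneg T0.le (M0 k k')) (d2 k k') (fun s hs h => d3 k k' s hk hk' hs h) (hM k k')
        (KP0P.two hDe _)).trans (le_of_eq ?_)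
      ring
    · have e : ∑ k ∈ bx N, ∑ k' ∈ bx N, mm r b b' k k' *
          (C1 * C3 * (x * (W / √q0 * B)) + x * T * A * (2 * C2 * M k k')) =
          C1 * C3 * (x * (W / √q0 * B)) * (∑ k ∈ bx N, ∑ k' ∈ bx N, mm r b b' k k') +
          x * T * A * (2 * C2 * ∑ k ∈ bx N, ∑ k' ∈ bx N, mm r b b' k k' * M k k') := by
        simp only [mul_sum, ← sum_add_distrib]
        exact sum_congr rfl fun _ _ => sum_congr rfl fun _ _ => by ring
      rw [e]
      exact (add_le_add (mul_le_mul (mul_le_mul_of_nonneg_right L2 (by positivity)) mI'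
        (sum_nonneg fun _ _ => sum_nonneg fun _ _ => m0 _ _) (by positivity))
        (mul_le_mul_of_nonneg_left hZ (by positivity))).trans (le_of_eq (by ring))
  refine ⟨KP0P.fin (key (fun _ _ => C1 * C2 * (x * W * A)) fun k _ k' _ => ?_) c1 L0 P0 ?_, ?_, ?_⟩
  · refine (sum_le_sum fun s _ => mul_le_mul_of_nonneg_left (d2 k k' s) (hw s).1).trans ?_
    rw [← sum_mul]
    exact (mul_le_mul_of_nonneg_right hw1 (by positivity)).trans (le_of_eq (by ring))
  · simp only [← sum_mul]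
    exact (mul_le_mul mI' (mul_le_mul_of_nonneg_right L1 (by positivity)) (by positivity) I0).trans
      (le_of_eq (by ring))
  · rw [← mul_assoc (T : ℝ)]
    refine key2 (fun _ _ => 1) _ (fun _ _ => zero_le_one)
      (fun _ _ s _ => by simpa using (hw s).2.1) ?_
    simp only [mul_one]
    exact mul_le_mul L4 mI' (sum_nonneg fun _ _ => sum_nonneg fun _ _ => m0 _ _) (by positivity)
  · obtain ⟨ρ, hρ⟩ : ∃ ρ : ℝ, ρ = (if bad S b b' then 1 else 0) + (q0 * Om N η / (T * S)) ^ 2 :=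
      ⟨_, rfl⟩
    have b0 : (0 : ℝ) ≤ if bad S b b' then 1 else 0 := by positivity
    have ρ1 : (q0 * Om N η / (T * S)) ^ 2 ≤ ρ := by linarith
    have ρ0 : 0 ≤ ρ := (sq_nonneg _).trans ρ1
    rw [← hρ]
    refine key2 (fun k k' => (1 + C1) * ((if Psi b b' k k' = 0 then 1 else 0) + ρ)) _
      (fun _ _ => by positivity) (fun k k' s hs => ?_) ?_
    · have z0 : (0 : ℝ) ≤ if Psi b b' k k' = 0 then 1 else 0 := by positivity
      have one : 1 ≤ (if Psi b b' k k' = 0 then 1 else 0) + ρ →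
          w s ≤ T * ((1 + C1) * ((if Psi b b' k k' = 0 then 1 else 0) + ρ)) := fun h =>
        (hw s).2.1.trans (le_mul_of_one_le_right T0.le
          (one_le_mul_of_one_le_of_one_le (by linarith) h))
      unfold Phi at hs
      by_cases s0 : s = 0
      · have : Psi b b' k k' = 0 := by simpa [s0, hka] using hs
        exact one (by rw [if_pos this]; linarith)
      by_cases s1 : |s| ≤ S
      · have : bad S b b' := ⟨hka, s, s0, s1, -Psi b b' k k', by linarith⟩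
        refine one ?_
        rw [hρ, if_pos this]
        linarith [sq_nonneg (q0 * Om N η / (T * S))]
      · have h5 : (S : ℝ) ^ 2 ≤ (s : ℝ) ^ 2 := by
          rw [← sq_abs (s : ℝ)]
          exact pow_le_pow_left₀ S0.le (by exact_mod_cast (not_le.1 s1).le) 2
        have h6 : w s * ((T : ℝ) * S) ^ 2 ≤ C1 * T * (q0 * Om N η) ^ 2 := by
          refine le_trans (mul_le_mul_of_nonneg_left ?_ (hw s).1) (hw s).2.2
          rw [mul_pow, mul_pow]; gcongr
        rw [← le_div_iff₀ (by positivity), mul_div_assoc, ← div_pow, mul_comm C1, mul_assoc] at h6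
        refine h6.trans (mul_le_mul_of_nonneg_left ?_ T0.le)
        exact mul_le_mul (by linarith) (by linarith) (sq_nonneg _) (by linarith)
    · have e : ∑ k ∈ bx N, ∑ k' ∈ bx N, mm r b b' k k' *
          ((1 + C1) * ((if Psi b b' k k' = 0 then 1 else 0) + ρ)) = (1 + C1) *
          ((∑ k ∈ bx N, ∑ k' ∈ bx N, if Psi b b' k k' = 0 then mm r b b' k k' else 0) +
            ρ * ∑ k ∈ bx N, ∑ k' ∈ bx N, mm r b b' k k') := by
        simp only [mul_sum, ← sum_add_distrib]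
        exact sum_congr rfl fun _ _ => sum_congr rfl fun _ _ => by split_ifs <;> ring
      rw [e, ← mul_assoc]
      have z0 : 0 ≤ ∑ k ∈ bx N, ∑ k' ∈ bx N, if Psi b b' k k' = 0 then mm r b b' k k' else 0 :=
        sum_nonneg fun _ _ => sum_nonneg fun _ _ => by split_ifs; exacts [m0 _ _, le_rfl]
      exact mul_le_mul L3 (add_le_add_right (mul_le_mul_of_nonneg_left mI' ρ0) _)
        (add_nonneg z0 (mul_nonneg ρ0 (sum_nonneg fun _ _ => sum_nonneg fun _ _ => m0 _ _)))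
        (by positivity)

end Pool.Agent.P.MP_0ad054_nt.PS
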