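import Pool.Agent.P.MP_0ad054_nt.PS.St

/-! The master inequality for a pair of vectors, and the bound for a degenerate pair. -/

namespace Pool.Agent.P.MP_0ad054_nt.PS

open Finset Pool.Agent.Lib.H9 Pool.Agent.P.MP_0ad054_nt.Sun Pool.Agent.P.MP_0ad054_nt.Sun.SphereP
  Pool.Agent.P.MP_0ad054_nt.Clu
open scoped Real ComplexConjugate

namespace KPMP

theorem norm_ex (q : ℕ) (a : ℤ) : ‖ex q a‖ = 1 := by
  unfold ex
  exact norm_e _

theorem norm_G1 (q : ℕ) (a s : ℤ) : ‖G1 q a s‖ ≤ q := by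
  unfold G1
  refine (norm_sum_le _ _).trans ?_
  simp [norm_ex]

theorem card_un (q : ℕ) : ((un q).card : ℝ) ≤ q := by
  have : (un q).card ≤ q := by
    unfold un
    refine (card_filter_le _ _).trans ?_
    simp
  exact_mod_cast this

theorem cop_un {q : ℕ} {r : ℤ} (h : r ∈ un q) : IsCoprime r q := by
  unfold un at h
  exact Int.isCoprime_iff_gcd_eq_one.2 (mem_filter.1 h).2

theorem Om_ge (N : ℕ) (η : ℝ) : 1 ≤ Om N η := by
  unfold Om
  exact Real.one_le_sqrt.2 (by nlinarith [sq_nonneg ((N : ℝ) * η)])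

theorem card_iv (N : ℕ) : ((iv N).card : ℝ) = 2 * N + 1 := by
  have : (iv N).card = 2 * N + 1 := by
    unfold iv
    rw [Int.card_Icc]
    omega
  rw [this]
  push_cast
  ring

theorem norm_TH {B : ℝ} {N : ℕ} (h : ∀ (b : V) (lam ν : ℝ), ‖Th N b lam ν‖ ≤ B) (b b' : V)
    (lam : ℝ) : ‖TH N b b' lam‖ ≤ B ^ 2 := by
  unfold TH
  have := intervalIntegral.norm_integral_le_of_norm_le_const (a := 0) (b := 1) (C := B ^ 2)
    (f := fun ν => Th N b lam ν * conj (Th N b' lam ν)) (fun ν _ => by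
      rw [norm_mul, Complex.norm_conj, sq]
      exact mul_le_mul (h b lam ν) (h b' lam ν) (norm_nonneg _)
        ((norm_nonneg _).trans (h b lam ν)))
  simpa using this

theorem mem_bx {H : ℕ} {b : V} (hb : b ∈ nzb H) : b ∈ bx H := (mem_filter.1 hb).1

theorem ne_zero {H : ℕ} {b : V} (hb : b ∈ nzb H) : b ≠ 0 := fun h =>
  (mem_filter.1 hb).2 0 (by rw [h]; rfl)

theorem sq_le {H : ℕ} {b : V} (hb : b ∈ nzb H) (j : Fin 4) : b j ^ 2 ≤ (H : ℤ) ^ 2 := by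
  have h := Fintype.mem_piFinset.1 (mem_bx hb) j
  unfold iv at h
  rw [mem_Icc] at h
  exact sq_le_sq' h.1 h.2

theorem al_eq (b : V) : al b = 105 * b 0 ^ 2 + 35 * b 1 ^ 2 + 21 * b 2 ^ 2 + 15 * b 3 ^ 2 := by
  simp [al, QS, cs, Fin.sum_univ_four]
  ring

theorem nsq_eq (b : V) : nsq b = b 0 ^ 2 + b 1 ^ 2 + b 2 ^ 2 + b 3 ^ 2 := by
  simp [nsq, Fin.sum_univ_four]

theorem gb_pos {H : ℕ} {b : V} (hb : b ∈ nzb H) : 0 < gb b := by
  unfold gb
  refine Int.gcd_pos_of_ne_zero_left _ ?_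
  have h0 : b 0 ≠ 0 := (mem_filter.1 hb).2 0
  have : 0 < b 0 ^ 2 := by positivity
  rw [al_eq]
  positivity

theorem al_bd {H : ℕ} {b : V} (hb : b ∈ nzb H) : |al b| ≤ 176 * (H : ℤ) ^ 2 := by
  have h0 := sq_le hb 0
  have h1 := sq_le hb 1
  have h2 := sq_le hb 2
  have h3 := sq_le hb 3
  rw [al_eq, abs_of_nonneg (by positivity)]
  linarith

theorem ep_bd {H : ℕ} {b : V} (hb : b ∈ nzb H) : |ep b| ≤ 4496 * (H : ℤ) ^ 4 := by
  have h0 := sq_le hb 0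
  have h1 := sq_le hb 1
  have h2 := sq_le hb 2
  have h3 := sq_le hb 3
  have ha := al_bd hb
  have hq : |Q2 b| ≤ 16 * (H : ℤ) ^ 2 := by
    unfold Q2
    rw [abs_of_nonneg (by positivity)]
    linarith
  have hn : |nsq b| ≤ 4 * (H : ℤ) ^ 2 := by
    rw [nsq_eq, abs_of_nonneg (by positivity)]
    linarith
  unfold ep
  refine (abs_sub _ _).trans ?_
  rw [abs_mul, abs_mul, abs_pow]
  have e1 : |al b| * |Q2 b| ≤ 176 * (H : ℤ) ^ 2 * (16 * (H : ℤ) ^ 2) :=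
    mul_le_mul ha hq (abs_nonneg _) (by positivity)
  have e2 : |nsq b| ^ 2 ≤ (4 * (H : ℤ) ^ 2) ^ 2 := pow_le_pow_left₀ (abs_nonneg _) hn 2
  have e3 : |(105 : ℤ)| = 105 := rfl
  rw [e3]
  nlinarith

theorem De_bd {H N : ℕ} {b b' : V} (hb : b ∈ nzb H) (hb' : b' ∈ nzb H) (hN : 16 * H ≤ N) :
    (De b b').natAbs ≤ N ^ 6 := by
  have e1 : |al b'| * |ep b| ≤ 176 * (H : ℤ) ^ 2 * (4496 * (H : ℤ) ^ 4) :=
    mul_le_mul (al_bd hb') (ep_bd hb) (abs_nonneg _) (by positivity)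
  have e2 : |al b| * |ep b'| ≤ 176 * (H : ℤ) ^ 2 * (4496 * (H : ℤ) ^ 4) :=
    mul_le_mul (al_bd hb) (ep_bd hb') (abs_nonneg _) (by positivity)
  have e3 : |De b b'| ≤ (16 * (H : ℤ)) ^ 6 := by
    unfold De
    refine (abs_sub _ _).trans ?_
    rw [abs_mul, abs_mul]
    have : (0 : ℤ) ≤ (H : ℤ) ^ 6 := by positivity
    nlinarith
  have e4 : (16 * (H : ℤ)) ^ 6 ≤ (N : ℤ) ^ 6 :=
    pow_le_pow_left₀ (by positivity) (by exact_mod_cast hN) 6
  have e5 : (((De b b').natAbs : ℕ) : ℤ) ≤ ((N ^ 6 : ℕ) : ℤ) := by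
    rw [Int.natCast_natAbs]
    push_cast
    exact e3.trans e4
  exact_mod_cast e5

/-- the hypotheses of the two-block estimate hold on a dyadic range -/
theorem rng_q {N T H q0 q : ℕ} {η r : ℝ} (h : Rng N T H q0 η r) (hq : q ∈ Ico q0 (2 * q0)) :
    1 ≤ q ∧ q ≤ N ∧ 28 * (q * Om N η) ^ 2 ≤ r ^ 2 * N := by
  obtain ⟨-, -, -, -, -, h6, h7, -, h9, -, -⟩ := h
  rw [mem_Ico] at hq
  refine ⟨by omega, by omega, le_trans ?_ h9⟩
  have h1 : (q : ℝ) ≤ 2 * q0 := by exact_mod_cast hq.2.le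
  have h2 := Om_ge N η
  have h3 : (q * Om N η) ^ 2 ≤ (2 * q0 * Om N η) ^ 2 :=
    pow_le_pow_left₀ (by positivity) (by gcongr) 2
  nlinarith

theorem err1 {C N q w : ℝ} (hC : 0 ≤ C) (hN : 1 ≤ N) (hq : 1 ≤ q) (hqN : q ≤ N)
    (hwN : w ≤ N) : 1 / q * (w * (C / N ^ 30 * (q * q))) ≤ C / N ^ 2 := by
  have e1 : 1 / q * (w * (C / N ^ 30 * (q * q))) = C * (w * q) / N ^ 30 := by
    field_simp
  rw [e1, div_le_div_iff₀ (by positivity) (by positivity)]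
  have e2 : w * q ≤ N * N := mul_le_mul hwN hqN (by positivity) (by positivity)
  have e3 : N ^ 4 ≤ N ^ 30 := pow_le_pow_right₀ hN (by norm_num)
  calc C * (w * q) * N ^ 2 ≤ C * (N * N) * N ^ 2 := by gcongr
    _ = C * N ^ 4 := by ring
    _ ≤ C * N ^ 30 := by gcongr

theorem err2 {C D N q : ℝ} (hC : 0 ≤ C) (hN : 1 ≤ N) (hqN : q ≤ N) :
    C / N ^ 50 * (q * (D * N ^ 2) ^ 2) ≤ C * D ^ 2 / N := by
  have e1 : C / N ^ 50 * (q * (D * N ^ 2) ^ 2) = C * D ^ 2 * (q * N ^ 4) / N ^ 50 := by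
    field_simp
  rw [e1, div_le_div_iff₀ (by positivity) (by positivity)]
  have e3 : N ^ 6 ≤ N ^ 50 := pow_le_pow_right₀ hN (by norm_num)
  calc C * D ^ 2 * (q * N ^ 4) * N ≤ C * D ^ 2 * (N * N ^ 4) * N := by gcongr
    _ = C * D ^ 2 * N ^ 6 := by ring
    _ ≤ C * D ^ 2 * N ^ 50 := by gcongr

theorem main1 {C N q q0 O w M : ℝ} (hC : 0 ≤ C) (hq0 : 0 < q0) (hq : q0 ≤ q) (hO : 0 < O)
    (hw : 0 ≤ w) (hM : 0 ≤ M) :
    1 / q * (w * (C * (N ^ 4 / (q ^ 11 * O ^ 5)) * M)) ≤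
      C * (N ^ 4 / (q0 ^ 12 * O ^ 5)) * (w * M) := by
  have hq1 : 0 < q := hq0.trans_le hq
  have e1 : 1 / q * (w * (C * (N ^ 4 / (q ^ 11 * O ^ 5)) * M)) =
      C * (N ^ 4 / (q ^ 12 * O ^ 5)) * (w * M) := by
    field_simp
  rw [e1]
  gcongr

theorem G11_le (hK11 : S_K11) {H q : ℕ} {b b' : V} (hb : b ∈ nzb H) (hb' : b' ∈ nzb H)
    (hq : 1 ≤ q) {i : ℤ} (hi : i ∈ un q) (k k' : V) :
    ‖G11 q b b' i k k'‖ ≤ (q : ℝ) ^ 5 * 210 ^ 4 * Real.sqrt (gb b * gb b') *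
      Real.sqrt (q * (Int.gcd q (De b b') : ℝ)) := by
  refine (pow_le_pow_iff_left₀ (norm_nonneg _) (by positivity) two_ne_zero).1 ?_
  refine (hK11 q b b' k k' i hq (ne_zero hb) (ne_zero hb') (cop_un hi)).trans ?_
  rw [mul_pow, mul_pow, Real.sq_sqrt (by positivity), Real.sq_sqrt (by positivity)]
  have e1 : (Nat.gcd q 210 : ℝ) ≤ 210 := by exact_mod_cast Nat.gcd_le_right q (by norm_num)
  have e2 : (Nat.gcd q (gb b) : ℝ) ≤ gb b := by exact_mod_cast Nat.gcd_le_right q (gb_pos hb)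
  have e3 : (Nat.gcd q (gb b') : ℝ) ≤ gb b' := by exact_mod_cast Nat.gcd_le_right q (gb_pos hb')
  push_cast
  calc (q : ℝ) ^ 11 * ((Nat.gcd q 210 : ℝ) ^ 8 *
        ((Nat.gcd q (gb b) : ℝ) * (Nat.gcd q (gb b') : ℝ) * (Int.gcd q (De b b') : ℝ))) ≤
        (q : ℝ) ^ 11 * (210 ^ 8 * ((gb b : ℝ) * (gb b' : ℝ) * (Int.gcd q (De b b') : ℝ))) := by
        gcongr
    _ = _ := by ring

/-- the sum of the weights over a dyadic range -/
theorem sum_gcd (hDT : S_DT) {q0 : ℕ} (hq0 : 1 ≤ q0) (a : ℤ) {A : ℝ} (hA : 1 ≤ A)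
    (ha : tau a.natAbs ≤ A) :
    ∑ q ∈ Ico q0 (2 * q0), Real.sqrt (q * (Int.gcd q a : ℝ)) / (q : ℝ) ^ 5 ≤
      2 * A * (if a = 0 then (q0 : ℝ) else Real.sqrt q0) / (q0 : ℝ) ^ 4 := by
  have h0 : (0 : ℝ) < q0 := by exact_mod_cast hq0
  split_ifs with h
  · subst h
    have e1 : ∀ q ∈ Ico q0 (2 * q0), Real.sqrt (q * (Int.gcd q 0 : ℝ)) / (q : ℝ) ^ 5 ≤
        1 / (q0 : ℝ) ^ 4 := by
      intro q hq
      have hqq : (q0 : ℝ) ≤ q := by exact_mod_cast (mem_Ico.1 hq).1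
      have hq1 : (0 : ℝ) < q := h0.trans_le hqq
      have e2 : (Int.gcd q 0 : ℝ) = q := by simp
      rw [e2, Real.sqrt_mul_self hq1.le]
      calc (q : ℝ) / (q : ℝ) ^ 5 = 1 / (q : ℝ) ^ 4 := by field_simp
        _ ≤ 1 / (q0 : ℝ) ^ 4 := by gcongr
    refine (sum_le_card_nsmul _ _ _ e1).trans ?_
    rw [nsmul_eq_mul, Nat.card_Ico, show 2 * q0 - q0 = q0 by omega, mul_one_div]
    gcongr
    nlinarith
  · have hs : 0 < Real.sqrt q0 := Real.sqrt_pos.2 h0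
    have e1 : ∀ q ∈ Ico q0 (2 * q0), Real.sqrt (q * (Int.gcd q a : ℝ)) / (q : ℝ) ^ 5 ≤
        (Int.gcd q a : ℝ) * (1 / ((q0 : ℝ) ^ 4 * Real.sqrt q0)) := by
      intro q hq
      have hqq : (q0 : ℝ) ≤ q := by exact_mod_cast (mem_Ico.1 hq).1
      have hq1 : (0 : ℝ) < q := h0.trans_le hqq
      have hs1 : 0 < Real.sqrt q := Real.sqrt_pos.2 hq1
      have hg : (1 : ℝ) ≤ (Int.gcd q a : ℝ) := by
        exact_mod_cast Int.gcd_pos_of_ne_zero_right _ h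
      have e2 : Real.sqrt (Int.gcd q a : ℝ) ≤ (Int.gcd q a : ℝ) :=
        Real.sqrt_le_iff.2 ⟨by positivity, by nlinarith⟩
      have e3 : (q : ℝ) ^ 5 = (q : ℝ) ^ 4 * Real.sqrt q * Real.sqrt q := by
        rw [mul_assoc, Real.mul_self_sqrt hq1.le]
        ring
      rw [Real.sqrt_mul hq1.le, e3]
      calc Real.sqrt q * Real.sqrt (Int.gcd q a : ℝ) / ((q : ℝ) ^ 4 * Real.sqrt q * Real.sqrt q) =
            Real.sqrt (Int.gcd q a : ℝ) * (1 / ((q : ℝ) ^ 4 * Real.sqrt q)) := by field_simp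
        _ ≤ (Int.gcd q a : ℝ) * (1 / ((q0 : ℝ) ^ 4 * Real.sqrt q0)) := by gcongr
    refine (sum_le_sum e1).trans ?_
    rw [← sum_mul]
    have e4 : ∑ q ∈ Ico q0 (2 * q0), (Int.gcd q a : ℝ) ≤ 2 * q0 * A := by
      refine le_trans (sum_le_sum_of_subset_of_nonneg ?_ fun _ _ _ => by positivity)
        ((hDT.1 (2 * q0) a h).trans ?_)
      · intro q hq
        rw [mem_Ico] at hq
        rw [mem_Icc]
        omega
      · push_cast
        gcongr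
    have e5 : 2 * A * Real.sqrt q0 / (q0 : ℝ) ^ 4 =
        2 * q0 * A * (1 / ((q0 : ℝ) ^ 4 * Real.sqrt q0)) := by
      have := Real.mul_self_sqrt h0.le
      field_simp
      nlinarith
    rw [e5]
    gcongr

end KPMP

open KPMP

theorem pKPM (hMAS : S_MAS) (hTB : S_TB) (hXI : S_XI) (hMJ : S_MJ) : S_KPM := by
  obtain ⟨C1, hC1, h1⟩ := hMAS
  obtain ⟨C2, hC2, h2⟩ := hTB
  obtain ⟨C3, hC3, h3⟩ := hXI
  refine ⟨C2 + 3 * C1 + C2 * C3 ^ 2, by positivity, fun N T H q0 η r b b' hR hb hb' => ?_⟩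
  have hR' := hR
  obtain ⟨r1, r2, r3, r4, r5, r6, r7, r8, r9, r10, r11⟩ := hR'
  obtain ⟨-, w, hw, hws, hth⟩ := h2 N T H q0 b b' η r1 r2 r5 r6 r8 (mem_bx hb) (mem_bx hb')
  have hN : 1 ≤ N := r1.trans r2
  have hNr : (1 : ℝ) ≤ N := by exact_mod_cast hN
  have hO := Om_ge N η
  have hq0 : (0 : ℝ) < q0 := by exact_mod_cast r6
  have hCC : C2 ≤ C2 + 3 * C1 + C2 * C3 ^ 2 := by
    have : 0 ≤ C2 * C3 ^ 2 := by positivity
    linarith
  have hmm : ∀ k k', 0 ≤ mm r b b' k k' := ((hMJ r b r10).2.2.2.2.2.2 b').1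
  have hTh : ∀ (b : V) (lam ν : ℝ), ‖Th N b lam ν‖ ≤ C3 * (N : ℝ) ^ 2 :=
    fun b => ((h3 N hN).1 b).2
  refine ⟨w, fun s => ⟨(hw s).1, (hw s).2.1, (hw s).2.2.trans (by gcongr)⟩,
    hws.trans (by gcongr), ?_⟩
  set P : ℝ := (N : ℝ) ^ 4 / ((q0 : ℝ) ^ 12 * Om N η ^ 5) with hP
  have hP0 : 0 ≤ P := by positivity
  have key : ∀ q ∈ Ico q0 (2 * q0),
      ‖∑ i ∈ un q, th N T b b' (i / q + η) * TH N b b' (i / q + η)‖ ≤
        C1 * P * ∑ s ∈ iv N, w s * ∑ k ∈ bx N, ∑ k' ∈ bx N,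
          mm r b b' k k' * ‖SS q b b' k k' s‖ + (3 * C1 + C2 * C3 ^ 2) / N := by
    intro q hq
    obtain ⟨q1, q2, q3⟩ := rng_q hR hq
    have hqr : (1 : ℝ) ≤ q := by exact_mod_cast q1
    have hqN : (q : ℝ) ≤ N := by exact_mod_cast q2
    have hqq : (q0 : ℝ) ≤ q := by exact_mod_cast (mem_Ico.1 hq).1
    have e1 := hth q (un q) (fun i => TH N b b' (i / q + η)) (mem_Ico.1 hq).1 (mem_Ico.1 hq).2
    have e0 : ∑ i ∈ un q, th N T b b' (i / q + η) * TH N b b' (i / q + η) =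
        ∑ i ∈ un q, TH N b b' (i / q + η) * th N T b b' (i / q + η) :=
      sum_congr rfl fun _ _ => mul_comm _ _
    rw [e0]
    refine e1.trans ?_
    have e2 : C2 / (N : ℝ) ^ 50 * ∑ i ∈ un q, ‖TH N b b' (i / q + η)‖ ≤ C2 * C3 ^ 2 / N := by
      refine le_trans ?_ (err2 (D := C3) hC2.le hNr hqN)
      refine mul_le_mul_of_nonneg_left ?_ (by positivity)
      refine (sum_le_card_nsmul _ _ _ fun i _ => norm_TH hTh b b' _).trans ?_
      rw [nsmul_eq_mul]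
      exact mul_le_mul_of_nonneg_right (card_un q) (by positivity)
    have e3 : ∀ s ∈ iv N,
        1 / (q : ℝ) * (w s * ‖∑ i ∈ un q, TH N b b' (i / q + η) * G1 q (i * ka b b') s‖) ≤
          C1 * P * (w s * ∑ k ∈ bx N, ∑ k' ∈ bx N, mm r b b' k k' * ‖SS q b b' k k' s‖) +
            C1 / (N : ℝ) ^ 2 := by
      intro s _
      have e4 := h1 N H q b b' η r (un q) (fun i => G1 q (i * ka b b') s) r3 r4 q1 q2 hb hb' q3
        r10 r11
      have e5 : ∑ i ∈ un q, TH N b b' (i / q + η) * G1 q (i * ka b b') s =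
          ∑ i ∈ un q, G1 q (i * ka b b') s * TH N b b' (i / q + η) :=
        sum_congr rfl fun _ _ => mul_comm _ _
      have e6 : ∑ i ∈ un q, ‖G1 q (i * ka b b') s‖ ≤ (q : ℝ) * q := by
        refine (sum_le_card_nsmul _ _ _ fun i _ => norm_G1 q _ s).trans ?_
        rw [nsmul_eq_mul]
        exact mul_le_mul_of_nonneg_right (card_un q) (by positivity)
      have hM : 0 ≤ ∑ k ∈ bx N, ∑ k' ∈ bx N, mm r b b' k k' * ‖SS q b b' k k' s‖ :=
        sum_nonneg fun k _ => sum_nonneg fun k' _ => mul_nonneg (hmm k k') (norm_nonneg _)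
      have e7 := main1 (C := C1) (N := N) hC1.le hq0 hqq (by linarith : 0 < Om N η) (hw s).1 hM
      have hwN : w s ≤ N := (hw s).2.1.trans (by exact_mod_cast r2)
      have e8 := err1 hC1.le hNr hqr hqN hwN
      have e9 : ‖∑ i ∈ un q, G1 q (i * ka b b') s * TH N b b' (i / q + η)‖ ≤
          C1 * ((N : ℝ) ^ 4 / ((q : ℝ) ^ 11 * Om N η ^ 5)) *
            (∑ k ∈ bx N, ∑ k' ∈ bx N, mm r b b' k k' * ‖SS q b b' k k' s‖) +
          C1 / (N : ℝ) ^ 30 * ((q : ℝ) * q) :=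
        e4.trans (add_le_add le_rfl (mul_le_mul_of_nonneg_left e6 (by positivity)))
      rw [e5]
      have hw0 := (hw s).1
      refine le_trans (mul_le_mul_of_nonneg_left (mul_le_mul_of_nonneg_left e9 hw0)
        (by positivity)) ?_
      rw [mul_add, mul_add]
      exact add_le_add e7 e8
    have e10 : 1 / (q : ℝ) * ∑ s ∈ iv N,
        w s * ‖∑ i ∈ un q, TH N b b' (i / q + η) * G1 q (i * ka b b') s‖ ≤
          C1 * P * (∑ s ∈ iv N,
            w s * ∑ k ∈ bx N, ∑ k' ∈ bx N, mm r b b' k k' * ‖SS q b b' k k' s‖) + 3 * C1 / N := by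
      rw [mul_sum, mul_sum]
      refine (sum_le_sum e3).trans ?_
      rw [sum_add_distrib, sum_const, nsmul_eq_mul, card_iv]
      refine add_le_add le_rfl ?_
      rw [← mul_div_assoc, div_le_div_iff₀ (by positivity) (by positivity)]
      have : (2 * (N : ℝ) + 1) ≤ 3 * N := by linarith
      calc (2 * (N : ℝ) + 1) * C1 * N ≤ 3 * N * C1 * N := by gcongr
        _ = 3 * C1 * (N : ℝ) ^ 2 := by ring
    rw [add_div, ← add_assoc]
    exact add_le_add e10 e2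
  unfold XP
  refine (sum_le_sum key).trans ?_
  rw [sum_add_distrib, ← mul_sum]
  have f1 : ∑ q ∈ Ico q0 (2 * q0), ∑ s ∈ iv N, w s * ∑ k ∈ bx N, ∑ k' ∈ bx N,
      mm r b b' k k' * ‖SS q b b' k k' s‖ = ∑ k ∈ bx N, ∑ k' ∈ bx N, mm r b b' k k' *
          ∑ s ∈ iv N, w s * ∑ q ∈ Ico q0 (2 * q0), ‖SS q b b' k k' s‖ := by
    simp only [mul_sum]
    rw [sum_comm]
    rw [sum_congr rfl fun s _ => sum_comm]
    rw [sum_comm]
    refine sum_congr rfl fun k _ => ?_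
    rw [sum_congr rfl fun s _ => sum_comm]
    rw [sum_comm]
    refine sum_congr rfl fun k' _ => sum_congr rfl fun s _ => sum_congr rfl fun q _ => ?_
    ring
  rw [f1]
  have f2 : 0 ≤ ∑ k ∈ bx N, ∑ k' ∈ bx N, mm r b b' k k' *
      ∑ s ∈ iv N, w s * ∑ q ∈ Ico q0 (2 * q0), ‖SS q b b' k k' s‖ :=
    sum_nonneg fun k _ => sum_nonneg fun k' _ => mul_nonneg (hmm k k')
      (sum_nonneg fun s _ => mul_nonneg (hw s).1 (sum_nonneg fun _ _ => norm_nonneg _))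
  have hC1' : C1 ≤ C2 + 3 * C1 + C2 * C3 ^ 2 := by
    have : 0 ≤ C2 * C3 ^ 2 := by positivity
    linarith
  refine add_le_add (by gcongr) ?_
  rw [sum_const, nsmul_eq_mul, Nat.card_Ico]
  have f3 : ((2 * q0 - q0 : ℕ) : ℝ) ≤ N := by exact_mod_cast (by omega : 2 * q0 - q0 ≤ N)
  calc ((2 * q0 - q0 : ℕ) : ℝ) * ((3 * C1 + C2 * C3 ^ 2) / N) ≤
        N * ((3 * C1 + C2 * C3 ^ 2) / N) := by gcongr
    _ = 3 * C1 + C2 * C3 ^ 2 := by field_simp
    _ ≤ C2 + 3 * C1 + C2 * C3 ^ 2 := by linarith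

theorem pKP1 (hMAS : S_MAS) (hTB : S_TB) (hK11 : S_K11) (hDT : S_DT) (hMJ : S_MJ) : S_KP1 := by
  obtain ⟨C1, hC1, h1⟩ := hMAS
  obtain ⟨C2, hC2, h2⟩ := hTB
  intro ε hε
  obtain ⟨D, hD, hτ⟩ := tau_le (ε := ε / 6) (by positivity)
  refine ⟨C1 * C2 * 210 ^ 4 * (2 * (1 + D)), by positivity,
    fun N T H q0 η r b b' hR hb hb' => ?_⟩
  have hR' := hR
  obtain ⟨r1, r2, r3, r4, r5, r6, r7, r8, r9, r10, r11⟩ := hR'
  obtain ⟨hth, -⟩ := h2 N T H q0 b b' η r1 r2 r5 r6 r8 (mem_bx hb) (mem_bx hb')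
  have hN : 1 ≤ N := r1.trans r2
  have hNr : (1 : ℝ) ≤ N := by exact_mod_cast hN
  have hTN : (T : ℝ) ≤ N := by exact_mod_cast r2
  have hO := Om_ge N η
  have hq0 : (0 : ℝ) < q0 := by exact_mod_cast r6
  have hmm : ∀ k k', 0 ≤ mm r b b' k k' := ((hMJ r b r10).2.2.2.2.2.2 b').1
  have hI : ∑ k ∈ bx N, ∑ k' ∈ bx N, mm r b b' k k' ≤ I8 r b b' :=
    ((hMJ r b r10).2.2.2.2.2.2 b').2.2 _ _
  have hI0 : 0 ≤ I8 r b b' :=
    (sum_nonneg fun k _ => sum_nonneg fun k' _ => hmm k k').trans hI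
  have hε1 : 1 ≤ (N : ℝ) ^ ε := Real.one_le_rpow hNr hε.le
  have hA : tau (De b b').natAbs ≤ (1 + D) * (N : ℝ) ^ ε := by
    refine (hτ _).trans ?_
    have e1 : (((De b b').natAbs : ℕ) : ℝ) ≤ (N : ℝ) ^ 6 := by exact_mod_cast De_bd hb hb' r4
    have e2 : ((N : ℝ) ^ 6) ^ (ε / 6) = (N : ℝ) ^ ε := by
      rw [← Real.rpow_natCast, ← Real.rpow_mul (by positivity)]
      congr 1
      push_cast
      ring
    calc D * (((De b b').natAbs : ℕ) : ℝ) ^ (ε / 6) ≤ D * ((N : ℝ) ^ 6) ^ (ε / 6) := by gcongr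
      _ = D * (N : ℝ) ^ ε := by rw [e2]
      _ ≤ (1 + D) * (N : ℝ) ^ ε := by gcongr; linarith
  have hA1 : 1 ≤ (1 + D) * (N : ℝ) ^ ε := by nlinarith
  have hsum := sum_gcd hDT r6 (De b b') hA1 hA
  set g : ℝ := Real.sqrt (gb b * gb b') with hg
  have hg0 : 0 ≤ g := Real.sqrt_nonneg _
  set B : ℝ := C1 * C2 * 210 ^ 4 * ((N : ℝ) ^ 4 / Om N η ^ 5) * (T * (g * I8 r b b')) with hB
  have hB0 : 0 ≤ B := by positivity
  have key : ∀ q ∈ Ico q0 (2 * q0),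
      ‖∑ i ∈ un q, th N T b b' (i / q + η) * TH N b b' (i / q + η)‖ ≤
        B * (Real.sqrt (q * (Int.gcd q (De b b') : ℝ)) / (q : ℝ) ^ 5) + C1 * C2 / N := by
    intro q hq
    obtain ⟨q1, q2, q3⟩ := rng_q hR hq
    have hqr : (1 : ℝ) ≤ q := by exact_mod_cast q1
    have hqN : (q : ℝ) ≤ N := by exact_mod_cast q2
    set y : ℝ := Real.sqrt (q * (Int.gcd q (De b b') : ℝ)) with hy
    have hy0 : 0 ≤ y := Real.sqrt_nonneg _
    have e1 : ∀ i ∈ un q, ‖th N T b b' (i / q + η) * TH N b b' (i / q + η)‖ ≤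
        C2 * T * (C1 * ((N : ℝ) ^ 4 / ((q : ℝ) ^ 11 * Om N η ^ 5)) *
          (I8 r b b' * ((q : ℝ) ^ 5 * 210 ^ 4 * g * y)) + C1 / (N : ℝ) ^ 30) := by
      intro i hi
      rw [norm_mul]
      refine mul_le_mul (hth _) ?_ (norm_nonneg _) (by positivity)
      have e2 := h1 N H q b b' η r {i} (fun _ => 1) r3 r4 q1 q2 hb hb' q3 r10 r11
      simp only [sum_singleton, one_mul, norm_one, mul_one] at e2
      refine e2.trans (add_le_add (mul_le_mul_of_nonneg_left ?_ (by positivity)) le_rfl)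
      refine le_trans ?_ (mul_le_mul_of_nonneg_right hI (by positivity))
      rw [sum_mul]
      refine sum_le_sum fun k _ => ?_
      rw [sum_mul]
      exact sum_le_sum fun k' _ =>
        mul_le_mul_of_nonneg_left (G11_le hK11 hb hb' q1 hi k k') (hmm k k')
    refine (norm_sum_le _ _).trans ((sum_le_card_nsmul _ _ _ e1).trans ?_)
    rw [nsmul_eq_mul]
    refine (mul_le_mul_of_nonneg_right (card_un q) (by positivity)).trans ?_
    rw [mul_add, mul_add]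
    refine add_le_add (le_of_eq ?_) ?_
    · rw [hB]
      field_simp
    · have e3 : (q : ℝ) * (C2 * T * (C1 / (N : ℝ) ^ 30)) = C1 * C2 * (q * T) / (N : ℝ) ^ 30 := by
        ring
      rw [e3, div_le_div_iff₀ (by positivity) (by positivity)]
      have e4 : (N : ℝ) ^ 3 ≤ (N : ℝ) ^ 30 := pow_le_pow_right₀ hNr (by norm_num)
      calc C1 * C2 * (q * T) * N ≤ C1 * C2 * (N * N) * N := by gcongr
        _ = C1 * C2 * (N : ℝ) ^ 3 := by ring
        _ ≤ C1 * C2 * (N : ℝ) ^ 30 := by gcongr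
  unfold XP
  refine (sum_le_sum key).trans ?_
  rw [sum_add_distrib, ← mul_sum]
  refine add_le_add ((mul_le_mul_of_nonneg_left hsum hB0).trans (le_of_eq ?_)) ?_
  · rw [hB]
    field_simp
  · rw [sum_const, nsmul_eq_mul, Nat.card_Ico]
    have f3 : ((2 * q0 - q0 : ℕ) : ℝ) ≤ N := by exact_mod_cast (by omega : 2 * q0 - q0 ≤ N)
    have f4 : 0 < C1 * C2 := by positivity
    calc ((2 * q0 - q0 : ℕ) : ℝ) * (C1 * C2 / N) ≤ N * (C1 * C2 / N) := by gcongr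
      _ = C1 * C2 * 1 * 1 := by field_simp
      _ ≤ C1 * C2 * 210 ^ 4 * (2 * (1 + D)) := by
        gcongr
        · norm_num
        · linarith

end Pool.Agent.P.MP_0ad054_nt.PS
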