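import Pool.Agent.P.MP_0ad054_nt.PS.StT

/-! The mean square of the model. -/

namespace Pool.Agent.P.MP_0ad054_nt.PS

open Finset Pool.Agent.Lib.H9 Pool.Agent.P.MP_0ad054_nt.Sun Pool.Agent.P.MP_0ad054_nt.Sun.SphereP
  Pool.Agent.P.MP_0ad054_nt.Clu

namespace L2VP

/-- the normalised indicator of divisibility -/
noncomputable def I (m : ℕ) (d : ℤ) : ℝ := if (m : ℤ) ∣ d then (m : ℝ) else 0

lemma sum_I {m c : ℕ} (hm : 0 < m) (u : ℤ) :
    ∑ d ∈ Ico (0 : ℤ) ((m * c : ℕ) : ℤ), I m (d - u) = (m * c : ℕ) := by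
  have hm' : (0 : ℤ) < m := by exact_mod_cast hm
  have hq : (m : ℚ) ≠ 0 := by exact_mod_cast hm.ne'
  have h := Int.Ico_filter_modEq_card (0 : ℤ) ((m * c : ℕ) : ℤ) hm' u
  have e : (((((m * c : ℕ) : ℤ) : ℚ) - u) / ((m : ℤ) : ℚ)) =
      ((((0 : ℤ) : ℚ) - u) / ((m : ℤ) : ℚ)) + (c : ℕ) := by
    push_cast
    field_simp
    ring
  rw [e, Int.ceil_add_natCast, add_sub_cancel_left, max_eq_left (Int.natCast_nonneg c)] at h
  have h2 : ((Ico (0 : ℤ) ((m * c : ℕ) : ℤ)).filter fun d => (m : ℤ) ∣ d - u).card = c := by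
    have : ((Ico (0 : ℤ) ((m * c : ℕ) : ℤ)).filter fun d => (m : ℤ) ∣ d - u) =
        (Ico (0 : ℤ) ((m * c : ℕ) : ℤ)).filter fun d => d ≡ u [ZMOD m] :=
      filter_congr fun d _ => ⟨fun h => (Int.modEq_iff_dvd.2 h).symm, fun h => h.symm.dvd⟩
    rw [this]
    exact_mod_cast h
  unfold I
  rw [← sum_filter, sum_const, h2, nsmul_eq_mul]
  push_cast
  ring

lemma I_congr {m : ℕ} {d d' : ℤ} (h : (m : ℤ) ∣ d - d') : I m d = I m d' := by
  unfold I
  simp only [(dvd_iff_dvd_of_dvd_sub h)]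

lemma I_mul {a b : ℕ} (h : a ∣ b) (d t u : ℤ) :
    I a (d - t) * I b (d - u) = I b (d - u) * I a (t - u) := by
  by_cases h1 : (b : ℤ) ∣ d - u
  · have h2 : (a : ℤ) ∣ d - u := (Int.natCast_dvd_natCast.2 h).trans h1
    have h3 : I a (d - t) = I a (t - u) := by
      rw [I_congr (d' := u - t) (by simpa using h2)]
      unfold I
      simp only [dvd_sub_comm (c := t)]
    rw [h3, mul_comm]
  · simp [I, h1]

/-- the filtration -/
noncomputable def H (p k : ℕ) (d : ℤ) : ℝ := if k = 0 then 0 else I (p ^ (k - 1)) d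

lemma H_bd {p k j : ℕ} (hp : p.Prime) (h : j ≤ k + 1) (d : ℤ) :
    0 ≤ H p j d ∧ H p j d ≤ (p : ℝ) ^ k := by
  have h1 : (1 : ℝ) ≤ p := by exact_mod_cast hp.one_le
  have h2 : (p : ℝ) ^ (j - 1) ≤ (p : ℝ) ^ k := pow_le_pow_right₀ h1 (by omega)
  unfold H I
  split_ifs
  exacts [⟨le_rfl, by positivity⟩, ⟨by positivity, by exact_mod_cast h2⟩, ⟨le_rfl, by positivity⟩]

lemma H_per {p e j : ℕ} (h : j ≤ e + 1) {d d' : ℤ} (hd : (p : ℤ) ^ e ∣ d - d') (t : ℤ) :
    H p j (d - t) = H p j (d' - t) := by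
  unfold H
  rw [I_congr (d' := d' - t)]
  push_cast
  rw [sub_sub_sub_cancel_right]
  exact (pow_dvd_pow _ (by omega)).trans hd

lemma sum_H_le {p e j k : ℕ} (hp : p.Prime) (hjk : j ≤ k) (hk : k ≤ e + 1) (t u : ℤ) :
    ∑ d ∈ Ico (0 : ℤ) ((p : ℤ) ^ e), H p j (d - t) * H p k (d - u) =
      (p : ℝ) ^ e * H p j (t - u) := by
  by_cases h0 : j = 0
  · simp [H, h0]
  · have h1 : k ≠ 0 := by omega
    have h2 : p ^ (k - 1) * p ^ (e - (k - 1)) = p ^ e := by
      rw [← pow_add]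
      congr 1
      omega
    have h3 := sum_I (c := p ^ (e - (k - 1))) (pow_pos hp.pos (k - 1)) u
    rw [h2] at h3
    push_cast at h3
    simp only [H, if_neg h0, if_neg h1, I_mul (pow_dvd_pow p (show j - 1 ≤ k - 1 by omega))]
    rw [← sum_mul, h3]

lemma H_neg (p j : ℕ) (t u : ℤ) : H p j (u - t) = H p j (t - u) := by
  unfold H I
  simp only [dvd_sub_comm (c := t)]

lemma sum_H {p e j k : ℕ} (hp : p.Prime) (hj : j ≤ e + 1) (hk : k ≤ e + 1) (t u : ℤ) :
    ∑ d ∈ Ico (0 : ℤ) ((p : ℤ) ^ e), H p j (d - t) * H p k (d - u) =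
      (p : ℝ) ^ e * H p (min j k) (t - u) := by
  rcases le_total j k with h | h
  · rw [min_eq_left h, sum_H_le hp h hk]
  · rw [min_eq_right h, ← H_neg, ← sum_H_le hp h hj]
    exact sum_congr rfl fun d _ => mul_comm _ _

/-- the local factor, also for the exponent zero -/
noncomputable def cc (p k : ℕ) (d : ℤ) : ℝ := H p (k + 1) d - H p k d

lemma cc_zero (p : ℕ) (d : ℤ) : cc p 0 d = 1 := by simp [cc, H, I]

lemma cc_eq (p : ℕ) {k : ℕ} (hk : k ≠ 0) (d : ℤ) : cc p k d = cq p k d := by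
  simp only [cc, H, I, cq, ph, if_neg hk, if_neg (Nat.succ_ne_zero k), Nat.add_sub_cancel]
  ring

lemma abs_cc {p : ℕ} (hp : p.Prime) (k : ℕ) (d : ℤ) : |cc p k d| ≤ (p : ℝ) ^ k := by
  have h1 := H_bd (k := k) hp le_rfl d
  have h2 := H_bd (k := k) hp (Nat.le_succ k) d
  unfold cc
  rw [abs_le]
  constructor <;> linarith [h1.1, h1.2, h2.1, h2.2]

lemma sum_cc {p e j k : ℕ} (hp : p.Prime) (hj : j ≤ e) (hk : k ≤ e) (t u : ℤ) :
    (∑ d ∈ Ico (0 : ℤ) ((p : ℤ) ^ e), cc p j (d - t) * cc p k (d - u)) / (p : ℝ) ^ e =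
      if j = k then cc p j (t - u) else 0 := by
  have h0 : (p : ℝ) ^ e ≠ 0 := pow_ne_zero _ (Nat.cast_ne_zero.2 hp.ne_zero)
  simp only [cc, sub_mul, mul_sub, sum_sub_distrib]
  rw [sum_H hp (by omega) (by omega), sum_H hp (by omega) (by omega),
    sum_H hp (by omega) (by omega), sum_H hp (by omega) (by omega), div_eq_iff h0]
  rcases lt_trichotomy j k with h | rfl | h
  · rw [if_neg h.ne, min_eq_left (by omega), min_eq_left (by omega), min_eq_left (by omega),
      min_eq_left (by omega)]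
    ring
  · rw [if_pos rfl, min_self, min_eq_left (by omega), min_eq_right (by omega), min_self]
    ring
  · rw [if_neg h.ne', min_eq_right (by omega), min_eq_right (by omega), min_eq_right (by omega),
      min_eq_right (by omega)]
    ring

lemma cr_eq {q : ℕ} {T : Finset ℕ} (h : q.primeFactors ⊆ T) (d : ℤ) :
    cr q d = ∏ p ∈ T, cc p (q.factorization p) d := by
  rw [cr, ← prod_subset h fun p _ hp => by
    rw [Finsupp.notMem_support_iff.1 (by rwa [Nat.support_factorization]), cc_zero]]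
  exact prod_congr rfl fun p hp =>
    (cc_eq p (Finsupp.mem_support_iff.1 (by rwa [Nat.support_factorization])) d).symm

/-- one pair of moduli -/
lemma pair (h1 : S_PerV) {Y q q' : ℕ} (hq : q ∈ Icc 1 Y) (hq' : q' ∈ Icc 1 Y) (a b t u : ℤ) :
    ∑ d ∈ Ico a b, cr q (d - t) * cr q' (d - u) ≤
      ((Ico a b).card : ℝ) * (if q = q' then cr q (t - u) else 0) + 2 * (Y : ℝ) ^ 4 := by
  obtain ⟨q1, q2⟩ := mem_Icc.1 hq
  obtain ⟨q3, q4⟩ := mem_Icc.1 hq'
  have n1 : q ≠ 0 := by omega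
  have n2 : q' ≠ 0 := by omega
  have s1 : q.primeFactors ⊆ (q * q').primeFactors :=
    Nat.primeFactors_mono (dvd_mul_right _ _) (mul_ne_zero n1 n2)
  have s2 : q'.primeFactors ⊆ (q * q').primeFactors :=
    Nat.primeFactors_mono (dvd_mul_left _ _) (mul_ne_zero n1 n2)
  have ef : ∀ p, (q * q').factorization p = q.factorization p + q'.factorization p := fun p => by
    rw [Nat.factorization_mul n1 n2, Finsupp.add_apply]
  have hp : ∀ p ∈ (q * q').primeFactors, p.Prime := fun p => Nat.prime_of_mem_primeFactors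
  have key := h1 (q * q').primeFactors (q * q').factorization
    (fun p d => cc p (q.factorization p) (d - t) * cc p (q'.factorization p) (d - u))
    (fun p => (p : ℝ) ^ (q * q').factorization p) a b hp
    (fun p _ d d' hd => by
      have := ef p
      simp only [cc]
      rw [H_per (by omega) hd, H_per (j := q.factorization p) (by omega) hd,
        H_per (j := q'.factorization p + 1) (by omega) hd,
        H_per (j := q'.factorization p) (by omega) hd])
    (fun p h d => by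
      rw [abs_mul, ef, pow_add]
      exact mul_le_mul (abs_cc (hp p h) _ _) (abs_cc (hp p h) _ _) (abs_nonneg _) (by positivity))
  have hmean : ∏ p ∈ (q * q').primeFactors, ((∑ d ∈ Ico (0 : ℤ) ((p : ℤ) ^ (q * q').factorization p),
      cc p (q.factorization p) (d - t) * cc p (q'.factorization p) (d - u)) /
        (p : ℝ) ^ (q * q').factorization p) = if q = q' then cr q (t - u) else 0 := by
    rw [prod_congr rfl fun p h => sum_cc (hp p h) (by rw [ef]; omega) (by rw [ef]; omega) t u]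
    by_cases e : q = q'
    · rw [if_pos e, cr_eq s1]
      exact prod_congr rfl fun p _ => if_pos (by rw [e])
    · rw [if_neg e]
      obtain ⟨p, h⟩ : ∃ p, q.factorization p ≠ q'.factorization p := by
        by_contra hc
        push Not at hc
        exact e (Nat.eq_of_factorization_eq n1 n2 hc)
      refine prod_eq_zero (i := p) ?_ (if_neg h)
      rw [← Nat.support_factorization, Finsupp.mem_support_iff, ef]
      omega
  have hprod : ∏ p ∈ (q * q').primeFactors, (p : ℝ) ^ (q * q').factorization p ≤ (Y : ℝ) ^ 2 := by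
    have h := Nat.prod_factorization_pow_eq_self (mul_ne_zero n1 n2)
    rw [Finsupp.prod, Nat.support_factorization] at h
    have h2 : q * q' ≤ Y ^ 2 := by rw [sq]; exact Nat.mul_le_mul q2 q4
    rw [← h] at h2
    exact_mod_cast h2
  have h0 : 0 ≤ ∏ p ∈ (q * q').primeFactors, (p : ℝ) ^ (q * q').factorization p :=
    prod_nonneg fun p _ => by positivity
  rw [hmean] at key
  simp only [prod_mul_distrib, ← cr_eq s1, ← cr_eq s2] at key
  have h3 := mul_le_mul hprod hprod h0 (by positivity)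
  have := (abs_le.1 key).2
  nlinarith

/-- the kernel reproduces itself on an interval -/
lemma conv (h1 : S_PerV) {Y r : ℕ} (hr : Y ^ 6 ≤ r) (s t u : ℤ) :
    ∑ d ∈ Ico s (s + r), KY Y (d - t) * KY Y (d - u) ≤ r * KY Y (t - u) + 2 * r := by
  have hc : (((Ico s (s + r)).card : ℕ) : ℝ) = r := by simp
  have hr' : (Y : ℝ) ^ 6 ≤ r := by exact_mod_cast hr
  unfold KY
  simp_rw [Finset.sum_mul_sum]
  rw [Finset.sum_comm]
  calc ∑ q ∈ Icc 1 Y, ∑ d ∈ Ico s (s + r), ∑ q' ∈ Icc 1 Y, cr q (d - t) * cr q' (d - u)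
      ≤ ∑ q ∈ Icc 1 Y, ∑ q' ∈ Icc 1 Y,
        ((r : ℝ) * (if q = q' then cr q (t - u) else 0) + 2 * (Y : ℝ) ^ 4) := by
        refine Finset.sum_le_sum (fun q hq => ?_)
        rw [Finset.sum_comm]
        refine Finset.sum_le_sum (fun q' hq' => ?_)
        have := pair h1 hq hq' s (s + r) t u
        rwa [hc] at this
    _ = r * ∑ q ∈ Icc 1 Y, cr q (t - u) + (Y : ℝ) * ((Y : ℝ) * (2 * (Y : ℝ) ^ 4)) := by
        simp_rw [Finset.sum_add_distrib, Finset.sum_const, nsmul_eq_mul, Nat.card_Icc,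
          Nat.add_sub_cancel]
        congr 1
        rw [Finset.mul_sum]
        refine Finset.sum_congr rfl (fun q hq => ?_)
        rw [← Finset.mul_sum, Finset.sum_ite_eq, if_pos hq]
    _ ≤ _ := by nlinarith

/-- one window -/
lemma window (h1 : S_PerV) {Y r : ℕ} (hr : Y ^ 6 ≤ r) (s : ℤ) (A : Finset ℤ) (hA : A ⊆ Ico s (s + r)) :
    ∑ d ∈ Ico s (s + r), (∑ t ∈ A, KY Y (d - t)) ^ 2 ≤ 5 * (r : ℝ) ^ 3 := by
  have hcA : (A.card : ℝ) ≤ r := by
    have := Finset.card_le_card hA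
    simp only [Int.card_Ico, add_sub_cancel_left, Int.toNat_natCast] at this
    exact_mod_cast this
  have hr0 : (0 : ℝ) ≤ r := by positivity
  have hA0 : (0 : ℝ) ≤ A.card := by positivity
  set X := ∑ d ∈ Ico s (s + r), (∑ t ∈ A, KY Y (d - t)) ^ 2 with hX
  have e1 : X ≤ ∑ t ∈ A, ((r : ℝ) * ∑ u ∈ A, KY Y (t - u) + A.card * (2 * r)) := by
    rw [hX]
    simp_rw [sq, Finset.sum_mul_sum]
    rw [Finset.sum_comm]
    refine Finset.sum_le_sum (fun t _ => ?_)
    rw [Finset.sum_comm, Finset.mul_sum, ← nsmul_eq_mul, ← Finset.sum_const,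
      ← Finset.sum_add_distrib]
    exact Finset.sum_le_sum (fun u _ => conv h1 hr s t u)
  have e2 : ∑ t ∈ A, ((r : ℝ) * ∑ u ∈ A, KY Y (t - u) + A.card * (2 * r)) ≤
      ∑ t ∈ A, ((∑ u ∈ A, KY Y (t - u)) ^ 2 / 2 + 5 / 2 * (r : ℝ) ^ 2) := by
    refine Finset.sum_le_sum (fun t _ => ?_)
    nlinarith [sq_nonneg ((∑ u ∈ A, KY Y (t - u)) - r), mul_le_mul_of_nonneg_right hcA hr0]
  have e3 : ∑ t ∈ A, (∑ u ∈ A, KY Y (t - u)) ^ 2 ≤ X :=
    Finset.sum_le_sum_of_subset_of_nonneg hA (fun _ _ _ => sq_nonneg _)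
  replace e2 := e1.trans e2
  rw [Finset.sum_add_distrib, ← Finset.sum_div, Finset.sum_const, nsmul_eq_mul] at e2
  have e4 : (A.card : ℝ) * (5 / 2 * (r : ℝ) ^ 2) ≤ r * (5 / 2 * (r : ℝ) ^ 2) := by gcongr
  nlinarith

/-- the part of `S` in a window -/
noncomputable def wn (S : Finset ℕ) (r : ℕ) (s : ℤ) : Finset ℤ :=
  (S.image (fun t : ℕ => (t : ℤ))).filter (fun t => t ∈ Ico s (s + r))

lemma gY_eq (Y r : ℕ) (S : Finset ℕ) (m : ℤ) :
    gY Y r S m = (∑ i ∈ range r, ∑ t ∈ wn S r (m - i), KY Y (m - t)) / (r : ℝ) ^ 2 := by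
  unfold gY om wn
  simp_rw [Finset.sum_filter]
  have hinj : Set.InjOn (fun t : ℕ => (t : ℤ)) S := fun a _ b _ h => Int.ofNat_inj.1 h
  simp_rw [Finset.sum_image hinj]
  rw [Finset.sum_comm, Finset.sum_div]
  refine Finset.sum_congr rfl (fun t _ => ?_)
  rw [div_mul_eq_mul_div, Finset.sum_mul]
  congr 1
  refine Finset.sum_congr rfl (fun i _ => ?_)
  by_cases h : (t : ℤ) ∈ Ico (m - i) (m - i + r)
  · rw [if_pos h]
    rw [mem_Ico] at h
    rw [Finset.sum_eq_single (t - (m - i)).toNat]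
    · rw [if_pos (by omega), one_mul]
    · intro j _ hj
      rw [if_neg (by omega)]
    · intro hj
      exact absurd (mem_range.2 (by omega)) hj
  · rw [if_neg h]
    rw [mem_Ico] at h
    rw [Finset.sum_eq_zero, zero_mul]
    intro j hj
    rw [mem_range] at hj
    rw [if_neg (by omega)]

end L2VP

open L2VP in
theorem pL2V (hPerV : S_PerV) (_hXX : S_XX) : S_L2V := by
  intro Y r N S hy hr
  have hr1 : 1 ≤ r := le_trans (Nat.one_le_pow _ _ hy) hr
  have hr0 : (0 : ℝ) < r := by exact_mod_cast hr1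
  set G : ℤ → ℤ → ℝ := fun s m => (∑ t ∈ wn S r s, KY Y (m - t)) ^ 2 with hG
  have a1 : ∀ m : ℤ, gY Y r S m ^ 2 ≤ (∑ i ∈ range r, G (m - i) m) / (r : ℝ) ^ 3 := by
    intro m
    rw [gY_eq, div_pow, div_le_div_iff₀ (by positivity) (by positivity)]
    have := sq_sum_le_card_mul_sum_sq (s := range r)
      (f := fun i : ℕ => ∑ t ∈ wn S r (m - i), KY Y (m - t))
    rw [card_range] at this
    calc _ ≤ ((r : ℝ) * ∑ i ∈ range r, G (m - i) m) * (r : ℝ) ^ 3 := by gcongr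
      _ = _ := by ring
  have a2 : ∑ m ∈ Icc 3 (7 * N), ∑ i ∈ range r, G ((m : ℕ) - (i : ℕ)) (m : ℕ) ≤
      ∑ s ∈ Ico (-(r : ℤ)) (7 * N), ∑ d ∈ Ico (s + 1) (s + 1 + r), G (s + 1) d := by
    rw [Finset.sum_sigma', Finset.sum_sigma']
    have hinj : Set.InjOn
        (fun x : (_ : ℕ) × ℕ => (⟨(x.1 : ℤ) - x.2 - 1, (x.1 : ℤ)⟩ : (_ : ℤ) × ℤ))
        ((Icc 3 (7 * N)).sigma (fun _ => range r) : Finset ((_ : ℕ) × ℕ)) := by
      rintro ⟨a, b⟩ _ ⟨c, d⟩ _ h
      simp only [Sigma.mk.injEq, heq_eq_eq] at h ⊢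
      omega
    have hs := Finset.sum_image (f := fun x : (_ : ℤ) × ℤ => G (x.1 + 1) x.2) hinj
    simp only [sub_add_cancel] at hs
    rw [← hs]
    refine Finset.sum_le_sum_of_subset_of_nonneg ?_ (fun _ _ _ => sq_nonneg _)
    intro x hx
    obtain ⟨⟨a, b⟩, hab, rfl⟩ := Finset.mem_image.1 hx
    simp only [mem_sigma, mem_Icc, mem_range, mem_Ico] at hab ⊢
    omega
  have a3 : ∑ s ∈ Ico (-(r : ℤ)) (7 * N), ∑ d ∈ Ico (s + 1) (s + 1 + r), G (s + 1) d ≤
      (7 * N + r) * (5 * (r : ℝ) ^ 3) := by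
    calc _ ≤ ∑ _s ∈ Ico (-(r : ℤ)) (7 * N), 5 * (r : ℝ) ^ 3 :=
          Finset.sum_le_sum (fun s _ => window hPerV hr (s + 1) _
            (fun t ht => (mem_filter.1 ht).2))
      _ = _ := by
          rw [Finset.sum_const, nsmul_eq_mul, Int.card_Ico]
          congr 1
          have : (7 * (N : ℤ) - -(r : ℤ)).toNat = 7 * N + r := by omega
          rw [this]; push_cast; ring
  calc _ ≤ ∑ m ∈ Icc 3 (7 * N), (∑ i ∈ range r, G ((m : ℕ) - (i : ℕ)) (m : ℕ)) / (r : ℝ) ^ 3 :=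
        Finset.sum_le_sum (fun m _ => a1 _)
    _ ≤ _ := by
        rw [← Finset.sum_div, div_le_iff₀ (by positivity)]
        calc _ ≤ _ := a2.trans a3
          _ = _ := by ring

end Pool.Agent.P.MP_0ad054_nt.PS
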