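import Pool.Agent.P.MP_0ad054_nt.PS.St

/-! The periodic Gaussian and independent linear forms on the torus. -/

namespace Pool.Agent.P.MP_0ad054_nt.PS

open Finset Pool.Agent.Lib.H9 Pool.Agent.P.MP_0ad054_nt.Sun Pool.Agent.P.MP_0ad054_nt.Sun.SphereP
  Pool.Agent.P.MP_0ad054_nt.Clu
open scoped Real ComplexConjugate

namespace VTP

open MeasureTheory Complex

lemma uni {g : ℝ → ℝ} (hi : Integrable g) (h0 : ∀ x, 0 ≤ g x)
    (hm : ∀ x y, |x| ≤ |y| → g y ≤ g x) (s : Finset ℤ) : ∑ n ∈ s, g n ≤ g 0 + ∫ x, g x := by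
  set σ : ℤ → ℤ := fun n => if 0 < n then n - 1 else n with hσ
  set I : ℤ → ℝ := fun n => ∫ x in (0 : ℝ) + n..0 + n + 1, g x with hI
  have inj : Set.InjOn σ (s.erase 0 : Finset ℤ) := fun a ha b hb e => by
    have h1 := (mem_erase.1 (mem_coe.1 ha)).1
    have h2 := (mem_erase.1 (mem_coe.1 hb)).1
    simp only [hσ] at e
    split_ifs at e <;> omega
  have h1 : ∀ n : ℤ, g n ≤ I (σ n) ∨ n = 0 := fun n => by
    refine (em (n = 0)).symm.imp_left fun hn => ?_
    have := intervalIntegral.integral_mono_on (μ := volume) (f := fun _ => g n) (g := g)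
      (a := 0 + σ n) (b := 0 + σ n + 1) (by linarith) intervalIntegrable_const
      hi.intervalIntegrable fun x hx => hm _ _ (by
        obtain ⟨a, b⟩ := hx
        simp only [hσ] at a b
        split_ifs at a b with h
        · have : (1 : ℝ) ≤ n := by exact_mod_cast h
          push_cast at a b
          rw [abs_of_nonneg (by linarith), abs_of_nonneg (by linarith)]; linarith
        · have : (n : ℝ) ≤ -1 := by exact_mod_cast (by omega : n ≤ -1)
          rw [abs_of_nonpos (by linarith), abs_of_nonpos (by linarith)]; linarith)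
    simpa [hI] using this
  have h2 : ∑ n ∈ s.erase 0, g n ≤ ∫ x, g x :=
    calc _ ≤ ∑ n ∈ s.erase 0, I (σ n) :=
          sum_le_sum fun n hn => (h1 n).resolve_right (mem_erase.1 hn).1
      _ = ∑ m ∈ (s.erase 0).image σ, I m := (sum_image inj).symm
      _ ≤ _ := sum_le_hasSum _ (fun _ _ => intervalIntegral.integral_nonneg (by linarith)
          fun x _ => h0 x) (hi.hasSum_intervalIntegral 0)
  by_cases h : (0 : ℤ) ∈ s
  · rw [← add_sum_erase _ _ h, Int.cast_zero]; linarith
  · rw [erase_eq_of_notMem h] at h2; linarith [h0 0]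

/-- the Fourier coefficients -/
noncomputable def co (r x : ℝ) : ℝ := r * Real.exp (-(π * r ^ 2) * x ^ 2)

lemma co_nonneg {r : ℝ} (hr : 0 < r) (x : ℝ) : 0 ≤ co r x := by unfold co; positivity

lemma sum_co {r : ℝ} (hr : 0 < r) (s : Finset ℤ) : ∑ n ∈ s, co r n ≤ 1 + r := by
  have hp : 0 < π * r ^ 2 := by positivity
  refine (uni ((integrable_exp_neg_mul_sq hp).const_mul r) (co_nonneg hr) (fun x y h => ?_) s).trans
    (le_of_eq ?_)
  · have := sq_le_sq.2 h
    refine mul_le_mul_of_nonneg_left (Real.exp_le_exp.2 ?_) hr.le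
    nlinarith
  · rw [integral_const_mul, integral_gaussian, div_mul_cancel_left₀ Real.pi_ne_zero,
      Real.sqrt_inv, Real.sqrt_sq hr.le, mul_inv_cancel₀ hr.ne']
    simp [add_comm]

lemma summable_co {r : ℝ} (hr : 0 < r) : Summable fun n : ℤ => co r n :=
  summable_of_sum_le (fun _ => co_nonneg hr _) (sum_co hr)

lemma tsum_co {r : ℝ} (hr : 0 < r) : ∑' n : ℤ, co r n ≤ 1 + r :=
  (summable_co hr).tsum_le_of_sum_le (sum_co hr)

/-- the additive character -/
noncomputable def ch (m : ℤ) (x : ℝ) : ℂ := cexp (2 * π * I * m * x)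

lemma norm_ch (m : ℤ) (x : ℝ) : ‖ch m x‖ = 1 := by
  rw [ch, show (2 * π * I * m * x : ℂ) = (2 * π * m * x : ℝ) * I by push_cast; ring,
    norm_exp_ofReal_mul_I]

lemma norm_term {c : ℝ} (hc : 0 ≤ c) (m : ℤ) (x : ℝ) : ‖(c : ℂ) * ch m x‖ = c := by
  rw [norm_mul, norm_ch, mul_one, norm_real, Real.norm_of_nonneg hc]

lemma cont_ch (m : ℤ) : Continuous (ch m) := by unfold ch; fun_prop

lemma int_ch (m : ℤ) : ∫ x in (0 : ℝ)..1, ch m x = if m = 0 then 1 else 0 := by
  split_ifs with h
  · simp [ch, h]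
  · have hm : (m : ℂ) ≠ 0 := by exact_mod_cast h
    have : (2 * π * I * m : ℂ) ≠ 0 := mul_ne_zero two_pi_I_ne_zero hm
    unfold ch
    rw [integral_exp_mul_complex this, ofReal_one, ofReal_zero, mul_one, mul_zero, mul_comm,
      exp_int_mul_two_pi_mul_I, exp_zero, sub_self, zero_div]

lemma fou {r : ℝ} (hr : 0 < r) (x : ℝ) :
    HasSum (fun h : ℤ => (co r h : ℂ) * ch h x) (vth r x) := by
  have hs : Summable fun h : ℤ => (co r h : ℂ) * ch h x :=
    (summable_co hr).of_norm_bounded fun h => (norm_term (co_nonneg hr _) _ _).le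
  convert hs.hasSum using 1
  have h1 := tsum_exp_neg_quadratic (a := ((r ^ 2 : ℝ) : ℂ)) (by rw [ofReal_re]; positivity) (I * x)
  have h2 : ((r ^ 2 : ℝ) : ℂ) ^ (1 / 2 : ℂ) = r := by
    rw [show (1 / 2 : ℂ) = ((1 / 2 : ℝ) : ℂ) by push_cast; rfl, ← ofReal_cpow (by positivity),
      ← Real.sqrt_eq_rpow, Real.sqrt_sq hr.le]
  have h3 : (r : ℂ) ≠ 0 := by exact_mod_cast hr.ne'
  have h4 : ∀ h : ℤ, (co r h : ℂ) * ch h x =
      r * cexp (-π * ((r ^ 2 : ℝ) : ℂ) * h ^ 2 + 2 * π * (I * x) * h) := fun h => by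
    rw [co, ch, Complex.exp_add]
    push_cast
    rw [mul_assoc]
    congr 3 <;> ring
  simp only [h4]
  rw [tsum_mul_left, h1, h2, ← mul_assoc, mul_one_div_cancel h3, one_mul, vth, ofReal_tsum]
  refine tsum_congr fun n => ?_
  rw [← mul_assoc, I_mul_I]
  push_cast
  congr 1
  ring

lemma term_int {ι : Type} [Countable ι] {c : ι → ℝ} (m : ι → ℤ) (hc : Summable c)
    (h0 : ∀ i, 0 ≤ c i) {F : ℝ → ℝ} (hF : ∀ x, HasSum (fun i => (c i : ℂ) * ch (m i) x) (F x)) :
    HasSum (fun i => if m i = 0 then c i else 0) (∫ x in (0 : ℝ)..1, F x) := by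
  have h := intervalIntegral.hasSum_integral_of_dominated_convergence (μ := volume) (a := 0)
    (b := 1) (F := fun i x => (c i : ℂ) * ch (m i) x) (f := fun x => (F x : ℂ)) (fun i _ => c i)
    (fun i => (continuous_const.mul (cont_ch _)).aestronglyMeasurable)
    (fun i => ae_of_all _ fun x _ => (norm_term (h0 i) _ _).le) (ae_of_all _ fun _ _ => hc)
    intervalIntegrable_const (ae_of_all _ fun x _ => hF x)
  rw [intervalIntegral.integral_ofReal] at h
  refine hasSum_ofReal.1 (h.congr_fun fun i => ?_)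
  rw [intervalIntegral.integral_const_mul, int_ch]
  split_ifs <;> simp

lemma pair {r : ℝ} (hr : 0 < r) {b b' : ℤ} (hb : b ≠ 0) :
    (∫ x in (0 : ℝ)..1, vth r (b * x) * vth r (b' * x)) ≤ r * (r + nu b b') := by
  have sc := summable_co hr
  have hs : Summable fun p : ℤ × ℤ => co r p.1 * co r p.2 :=
    sc.mul_of_nonneg sc (fun _ => co_nonneg hr _) fun _ => co_nonneg hr _
  have h0 : ∀ p : ℤ × ℤ, 0 ≤ co r p.1 * co r p.2 := fun _ =>
    mul_nonneg (co_nonneg hr _) (co_nonneg hr _)
  have e : ∀ (x : ℝ) (p : ℤ × ℤ), (co r p.1 : ℂ) * ch p.1 (b * x) * (co r p.2 * ch p.2 (b' * x)) =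
      (co r p.1 * co r p.2 : ℝ) * ch (p.1 * b + p.2 * b') x := fun x p => by
    rw [mul_mul_mul_comm, ch, ch, ch, ← Complex.exp_add]
    push_cast
    congr 2
    ring
  have h := term_int (fun p : ℤ × ℤ => p.1 * b + p.2 * b') hs h0
    (F := fun x => vth r (b * x) * vth r (b' * x)) fun x => by
      have := (fou hr (b * x)).mul (fou hr (b' * x)) (by
        simp only [e]
        exact hs.of_norm_bounded fun p => (norm_term (h0 p) _ _).le)
      simpa only [e, ofReal_mul (vth _ _)] using this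
  obtain ⟨u, v, hc, hu, hv⟩ := Int.exists_gcd_one (Int.gcd_pos_of_ne_zero_left b' hb)
  have g0 : (0 : ℤ) < Int.gcd b b' := by exact_mod_cast Int.gcd_pos_of_ne_zero_left b' hb
  have u0 : u ≠ 0 := by rintro rfl; exact hb (by rw [hu, zero_mul])
  set m : ℝ := ((max |u| |v| : ℤ) : ℝ) with hm
  have m0 : 0 < m := by
    rw [hm]; exact_mod_cast (abs_pos.2 u0).trans_le (le_max_left _ _)
  have hnu : nu b b' = 1 / m := by
    have : max |b| |b'| = max |u| |v| * Int.gcd b b' := by
      rw [max_mul_of_nonneg _ _ g0.le, ← abs_of_pos g0, ← abs_mul, ← abs_mul, ← hu, ← hv]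
    have g1 : (0 : ℝ) < Int.gcd b b' := by exact_mod_cast g0
    rw [nu, if_neg fun h => hb h.1, this, Int.cast_mul, ← hm, Int.cast_natCast]
    field_simp
  have m2 : m ^ 2 ≤ (u : ℝ) ^ 2 + (v : ℝ) ^ 2 := by
    rw [hm]
    rcases le_total |u| |v| with h | h
    · rw [max_eq_right h, Int.cast_abs, sq_abs]; nlinarith [sq_nonneg (u : ℝ)]
    · rw [max_eq_left h, Int.cast_abs, sq_abs]; nlinarith [sq_nonneg (v : ℝ)]
  have inj : Function.Injective fun t : ℤ => (t * v, -(t * u)) := fun s t e =>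
    mul_right_cancel₀ u0 (neg_inj.1 (congrArg Prod.snd e))
  have cop : IsCoprime u v := Int.isCoprime_iff_gcd_eq_one.2 hc
  rw [← h.tsum_eq, ← inj.tsum_eq, hnu]
  · have rm := mul_pos hr m0
    refine le_trans ((h.summable.comp_injective inj).tsum_le_tsum (fun t => ?_)
      ((summable_co rm).mul_left (r / m))) ?_
    · refine le_trans (b := co r (t * v : ℤ) * co r (-(t * u) : ℤ)) ?_ ?_
      · dsimp only
        split_ifs
        exacts [le_rfl, h0 (_, _)]
      · have : r / m * co (r * m) t = r * r * Real.exp (-(π * (r * m) ^ 2) * (t : ℝ) ^ 2) := by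
          rw [co]; field_simp
        rw [this, co, co, mul_mul_mul_comm, ← Real.exp_add]
        refine mul_le_mul_of_nonneg_left (Real.exp_le_exp.2 ?_) (by positivity)
        push_cast
        have := mul_le_mul_of_nonneg_left m2 (show 0 ≤ π * r ^ 2 * (t : ℝ) ^ 2 by positivity)
        nlinarith
    · rw [tsum_mul_left]
      refine (mul_le_mul_of_nonneg_left (tsum_co rm) (by positivity)).trans (le_of_eq ?_)
      field_simp
      ring
  · rintro ⟨p, q⟩ hp
    have h1 : p * b + q * b' = 0 := by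
      by_contra h'
      exact hp (if_neg h')
    have h2 : p * u + q * v = 0 := by
      refine mul_right_cancel₀ g0.ne' ?_
      rw [zero_mul, add_mul, mul_assoc, mul_assoc, ← hu, ← hv, h1]
    obtain ⟨t, ht⟩ : u ∣ q := cop.dvd_of_dvd_mul_right ⟨-p, by linarith⟩
    refine ⟨-t, Prod.ext (mul_right_cancel₀ u0 ?_) ?_⟩
    · rw [ht] at h2; dsimp only; linarith
    · rw [ht]; ring

lemma shift {f : ℝ → ℝ} (hf : Continuous f) (hp : ∀ (x : ℝ) (n : ℤ), f (x + n) = f x) {m : ℤ}
    (a : ℝ) (hm : m ≠ 0) : (∫ x in (0 : ℝ)..1, f (m * x + a)) = ∫ x in (0 : ℝ)..1, f x := by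
  have per : Function.Periodic f 1 := fun x => by simpa using hp x 1
  have h0 : (m : ℝ) ≠ 0 := by exact_mod_cast hm
  have h1 := per.intervalIntegral_add_zsmul_eq m a fun _ _ => hf.intervalIntegrable _ _
  rw [per.intervalIntegral_add_eq a 0, zero_add, zsmul_eq_mul, zsmul_eq_mul, add_comm] at h1
  rw [intervalIntegral.integral_comp_mul_add f h0, mul_zero, zero_add, h1, smul_eq_mul,
    inv_mul_cancel_left₀ h0]

end VTP

open VTP in
theorem pVT : S_VT := fun r hr => by
  refine ⟨?_, fun x => ⟨tsum_nonneg fun _ => (Real.exp_pos _).le, ?_⟩, fun x n => ?_, ?_,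
    fun b b' hb _ => pair hr hb⟩
  · have : vth r = fun x => (∑' h : ℤ, (co r h : ℂ) * ch h x).re := by
      funext x; rw [(fou hr x).tsum_eq, Complex.ofReal_re]
    rw [this]
    exact Complex.continuous_re.comp (continuous_tsum (fun h => continuous_const.mul (cont_ch h))
      (summable_co hr) fun h x => (norm_term (co_nonneg hr _) _ _).le)
  · have := (fou hr x).norm_le_of_bounded (summable_co hr).hasSum fun h =>
      (norm_term (co_nonneg hr _) _ _).le
    rw [Complex.norm_real] at this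
    exact (le_abs_self _).trans (this.trans (tsum_co hr))
  · rw [vth, vth, ← (Equiv.addRight n).tsum_eq]
    refine tsum_congr fun k => ?_
    simp
  · have h := term_int id (summable_co hr) (fun _ => co_nonneg hr _) (fou hr)
    refine h.unique ?_
    have := hasSum_single (f := fun i : ℤ => if id i = 0 then co r i else 0) 0
      fun i hi => if_neg hi
    simpa [co] using this

theorem pIND : S_IND := fun f g c c' hf hg pf pg hc => by
  refine ⟨fun m a hm => VTP.shift hf pf a hm, ?_⟩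
  have h1 : ∀ θ : ℝ, (∫ x in (0 : ℝ)..1, f (x + c * θ) * g (x + c' * θ)) =
      ∫ x in (0 : ℝ)..1, f x * g ((c' - c : ℤ) * θ + x) := fun θ => by
    have := VTP.shift (f := fun x => f x * g ((c' - c : ℤ) * θ + x)) (by fun_prop)
      (fun x n => by rw [pf, ← add_assoc, pg]) (m := 1) (c * θ) one_ne_zero
    rw [← this]
    refine intervalIntegral.integral_congr fun x _ => ?_
    push_cast
    congr 2 <;> ring
  simp only [h1]
  rw [MeasureTheory.intervalIntegral_intervalIntegral_swap]
  · simp only [intervalIntegral.integral_const_mul, VTP.shift hg pg _ (sub_ne_zero.2 hc.symm),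
      intervalIntegral.integral_mul_const]
  · have : Continuous (Function.uncurry fun θ x : ℝ => f x * g ((c' - c : ℤ) * θ + x)) := by
      unfold Function.uncurry; fun_prop
    exact (this.continuousOn.integrableOn_compact (isCompact_uIcc.prod isCompact_uIcc)).mono_set
      (Set.prod_mono Set.uIoc_subset_uIcc Set.uIoc_subset_uIcc)

end Pool.Agent.P.MP_0ad054_nt.PS
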