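import Pool.Agent.P.MP_0ad054_nt.PS.Base
import Pool.Agent.P.MP_0ad054_nt.PS.VT

/-! The short vectors of the lattice in five dimensions, on average over the pairs. -/

namespace Pool.Agent.P.MP_0ad054_nt.PS

open Finset Pool.Agent.Lib.H9 Pool.Agent.P.MP_0ad054_nt.Sun Pool.Agent.P.MP_0ad054_nt.Sun.SphereP
  Pool.Agent.P.MP_0ad054_nt.Clu
open scoped Real ComplexConjugate

namespace LAMP

theorem card_free {H : ℕ} (S : Finset V) (I : Finset (Fin 4)) (hS : S ⊆ bx H)
    (hI : ∀ b ∈ S, ∀ b' ∈ S, (∀ j, j ∉ I → b j = b' j) → b = b') :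
    S.card ≤ (2 * H + 1) ^ (4 - I.card) := by
  have h1 : S.card ≤ (Fintype.piFinset fun j => if j ∈ I then ({0} : Finset ℤ) else iv H).card := by
    refine card_le_card_of_injOn (fun b j => if j ∈ I then 0 else b j) (fun b hb => ?_)
      fun b hb b' hb' e => hI b hb b' hb' fun j hj => ?_
    · refine mem_coe.2 (Fintype.mem_piFinset.2 fun j => ?_)
      have := Fintype.mem_piFinset.1 (hS hb) j
      by_cases hj : j ∈ I <;> simp [hj, this]
    · simpa [hj] using congrFun e j
  refine h1.trans (le_of_eq ?_)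
  rw [Fintype.card_piFinset, ← prod_mul_prod_compl I, prod_eq_one fun j hj => by simp [hj], one_mul,
    prod_congr rfl (g := fun _ => 2 * H + 1) fun j hj => by
      simp [mem_compl.1 hj, Base.card_iv], prod_const, card_compl, Fintype.card_fin]

theorem one {H : ℕ} {h : V} (hh : h ≠ 0) :
    ((nzb H).filter fun b => dot h b = 0).card ≤ (2 * H + 1) ^ 3 := by
  obtain ⟨i, hi⟩ := Function.ne_iff.1 hh
  have hi : h i ≠ 0 := hi
  refine card_free _ {i} ((filter_subset _ _).trans (filter_subset _ _)) fun b hb b' hb' e => ?_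
  have h1 : ∑ j, h j * (b j - b' j) = 0 := by
    have e1 := (mem_filter.1 hb).2
    have e2 := (mem_filter.1 hb').2
    simp only [dot] at e1 e2
    simp only [mul_sub, sum_sub_distrib, e1, e2, sub_self]
  rw [sum_eq_single i (fun j _ hj => by rw [e j (by simpa using hj)]; simp) (by simp)] at h1
  funext j
  by_cases hj : j = i
  · rw [hj]; exact sub_eq_zero.1 ((mul_eq_zero.1 h1).resolve_left hi)
  · exact e j (by simpa using hj)

theorem cz_ne {i j : Fin 4} (h : i ≠ j) : cz i - cz j ≠ 0 := by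
  revert i j; decide

theorem two {H : ℕ} {h : V} (hh : h ≠ 0) :
    ((nzb H).filter fun b => dot h b = 0 ∧ QB b h = 0).card ≤ (2 * H + 1) ^ 2 := by
  obtain ⟨i, hi⟩ := Function.ne_iff.1 hh
  have hi : h i ≠ 0 := hi
  by_cases h2 : ∃ j, j ≠ i ∧ h j ≠ 0
  · obtain ⟨j, hj, hj'⟩ := h2
    refine (card_free _ {i, j} ((filter_subset _ _).trans (filter_subset _ _))
      fun b hb b' hb' e => ?_).trans (by rw [card_pair hj.symm])
    obtain ⟨e1, e3⟩ := (mem_filter.1 hb).2
    obtain ⟨e2, e4⟩ := (mem_filter.1 hb').2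
    simp only [dot, QB] at e1 e2 e3 e4
    have h1 : ∑ k, h k * (b k - b' k) = 0 := by
      simp only [mul_sub, sum_sub_distrib, e1, e2, sub_self]
    have h3 : ∑ k, cz k * (b k - b' k) * h k = 0 := by
      simp only [mul_sub, sub_mul, sum_sub_distrib, e3, e4, sub_self]
    have z : ∀ k, k ≠ i ∧ k ≠ j → b k - b' k = 0 := fun k hk =>
      sub_eq_zero.2 (e k (by simpa using hk))
    rw [sum_eq_add_of_mem i j (mem_univ _) (mem_univ _) hj.symm
      fun k _ hk => by rw [z k hk]; simp] at h1 h3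
    have h4 : (cz i - cz j) * (h i * (b i - b' i)) = 0 := by linear_combination h3 - cz j * h1
    have h5 := (mul_eq_zero.1 h4).resolve_left (cz_ne hj.symm)
    rw [h5, zero_add] at h1
    funext k
    by_cases hk : k = i
    · rw [hk]; exact sub_eq_zero.1 ((mul_eq_zero.1 h5).resolve_left hi)
    · by_cases hk' : k = j
      · rw [hk']; exact sub_eq_zero.1 ((mul_eq_zero.1 h1).resolve_left hj')
      · exact sub_eq_zero.1 (z k ⟨hk, hk'⟩)
  · rw [filter_eq_empty_iff.2, card_empty]
    · exact Nat.zero_le _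
    · rintro b hb ⟨e1, -⟩
      simp only [dot] at e1
      rw [sum_eq_single i (fun j _ hj => by
        rw [not_not.1 fun hj' => h2 ⟨j, hj, hj'⟩, zero_mul]) (by simp)] at e1
      exact mul_ne_zero hi ((mem_filter.1 hb).2 i) e1

theorem card_nzb (H : ℕ) : (nzb H).card ≤ (2 * H + 1) ^ 4 :=
  (card_filter_le _ _).trans (Base.card_bx H).le

/-- the condition on a short vector -/
def cond (b b' : V) (h : V × V) : Prop :=
  h ≠ 0 ∧ dot h.1 b = 0 ∧ dot h.2 b' = 0 ∧ QB b h.1 + QB b' h.2 = 0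

instance (b b' : V) (h : V × V) : Decidable (cond b b' h) := by unfold cond; infer_instance

theorem QB_zero (b : V) : QB b 0 = 0 := by simp [QB]

theorem cnt (H : ℕ) (h : V × V) :
    ((nzb H ×ˢ nzb H).filter fun p => cond p.1 p.2 h).card ≤ (2 * H + 1) ^ 6 := by
  obtain ⟨h1, h2⟩ := h
  by_cases e1 : h1 = 0
  · by_cases e2 : h2 = 0
    · rw [filter_eq_empty_iff.2, card_empty]
      · exact Nat.zero_le _
      · rintro p - ⟨e, -⟩
        exact e (by rw [e1, e2]; rfl)
    · refine (card_le_card (t := nzb H ×ˢ (nzb H).filter fun b => dot h2 b = 0 ∧ QB b h2 = 0)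
        fun p hp => ?_).trans ?_
      · obtain ⟨a1, -, -, a3, a4⟩ := mem_filter.1 hp
        simp only [e1, QB_zero, zero_add] at a4
        exact mem_product.2 ⟨(mem_product.1 a1).1, mem_filter.2 ⟨(mem_product.1 a1).2, a3, a4⟩⟩
      · rw [card_product]
        exact (Nat.mul_le_mul (card_nzb H) (two e2)).trans (le_of_eq (by ring))
  · by_cases e2 : h2 = 0
    · refine (card_le_card (t := ((nzb H).filter fun b => dot h1 b = 0 ∧ QB b h1 = 0) ×ˢ nzb H)
        fun p hp => ?_).trans ?_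
      · obtain ⟨a1, -, a2, -, a4⟩ := mem_filter.1 hp
        simp only [e2, QB_zero, add_zero] at a4
        exact mem_product.2 ⟨mem_filter.2 ⟨(mem_product.1 a1).1, a2, a4⟩, (mem_product.1 a1).2⟩
      · rw [card_product]
        exact (Nat.mul_le_mul (two e1) (card_nzb H)).trans (le_of_eq (by ring))
    · refine (card_le_card (t := ((nzb H).filter fun b => dot h1 b = 0) ×ˢ
        (nzb H).filter fun b => dot h2 b = 0) fun p hp => ?_).trans ?_
      · obtain ⟨a1, -, a2, a3, -⟩ := mem_filter.1 hp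
        exact mem_product.2 ⟨mem_filter.2 ⟨(mem_product.1 a1).1, a2⟩,
          mem_filter.2 ⟨(mem_product.1 a1).2, a3⟩⟩
      · rw [card_product]
        exact (Nat.mul_le_mul (one e1) (one e2)).trans (le_of_eq (by ring))

/-- the Gaussian weight -/
noncomputable def gw (A : ℝ) (h : V × V) : ℝ :=
  Real.exp (-(π * ((nsq h.1 + nsq h.2 : ℤ) : ℝ) / A ^ 2))

theorem gw_pos (A : ℝ) (h : V × V) : 0 < gw A h := Real.exp_pos _

theorem has_gw {A : ℝ} (hA : 0 < A) : HasSum (gw A) (vth A 0 ^ 8) := by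
  have h1 := Base.gauss4 hA 0
  have h2 := h1.mul h1 (h1.summable.mul_of_nonneg h1.summable (fun _ => (Real.exp_pos _).le)
    fun _ => (Real.exp_pos _).le)
  convert h2 using 1
  · rfl
  · funext h
    rw [← Real.exp_add, gw]
    congr 1
    simp only [nsq, Pi.zero_apply, sub_zero]
    push_cast; ring
  · simp only [Pi.zero_apply, prod_const, card_univ, Fintype.card_fin]; ring

theorem L8_eq (A : ℝ) (b b' : V) : L8 A b b' = ∑' h, if cond b b' h then gw A h else 0 := by
  unfold L8 gw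
  exact tsum_congr fun h => if_congr Iff.rfl rfl rfl

theorem sum_ite {A : ℝ} (hA : 0 < A) (b b' : V) :
    Summable fun h => if cond b b' h then gw A h else 0 :=
  (has_gw hA).summable.of_nonneg_of_le
    (fun h => by split_ifs; exacts [(gw_pos A h).le, le_rfl])
    fun h => by split_ifs; exacts [le_rfl, (gw_pos A h).le]

theorem gw_mono {A A' : ℝ} (h1 : 0 < A') (h2 : A' ≤ A) (h : V × V) : gw A' h ≤ gw A h := by
  have h3 : (0 : ℝ) ≤ ((nsq h.1 + nsq h.2 : ℤ) : ℝ) := by
    exact_mod_cast add_nonneg (nsq_nonneg _) (nsq_nonneg _)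
  unfold gw
  rw [Real.exp_le_exp, neg_le_neg_iff]
  have := Real.pi_pos
  gcongr

end LAMP

open LAMP in
theorem pLAM : S_LAM := by
  refine ⟨729, by norm_num, fun H A hH hA => ⟨fun b b' A' h1 h2 => ?_, ?_⟩⟩
  · rw [L8_eq, L8_eq]
    refine ⟨tsum_nonneg fun h => by split_ifs; exacts [(gw_pos A' h).le, le_rfl],
      (sum_ite h1 b b').tsum_le_tsum (fun h => ?_) (sum_ite hA b b')⟩
    split_ifs
    exacts [gw_mono h1 h2 h, le_rfl]
  · rw [← sum_product']
    simp only [L8_eq]
    have h1 := hasSum_sum (s := nzb H ×ˢ nzb H) fun p _ => (sum_ite hA p.1 p.2).hasSum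
    have h2 := hasSum_le (fun h => ?_) h1 ((has_gw hA).mul_left ((2 * H + 1 : ℝ) ^ 6))
    · refine h2.trans ?_
      obtain ⟨h3, h4⟩ := (pVT A hA).2.1 0
      have h5 : (1 : ℝ) ≤ H := by exact_mod_cast hH
      calc (2 * H + 1 : ℝ) ^ 6 * vth A 0 ^ 8 ≤ (3 * H) ^ 6 * (1 + A) ^ 8 := by
            gcongr; linarith
        _ = _ := by ring
    · rw [← sum_filter, sum_const, nsmul_eq_mul]
      refine mul_le_mul_of_nonneg_right ?_ (gw_pos A h).le
      exact_mod_cast cnt H h

end Pool.Agent.P.MP_0ad054_nt.PS
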