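import Pool.Agent.P.MP_0ad054_nt.PS.St

/-! The total mass of the eight-dimensional weights. -/

namespace Pool.Agent.P.MP_0ad054_nt.PS

open Finset Pool.Agent.Lib.H9 Pool.Agent.P.MP_0ad054_nt.Sun Pool.Agent.P.MP_0ad054_nt.Sun.SphereP
  Pool.Agent.P.MP_0ad054_nt.Clu
open scoped Real ComplexConjugate

namespace M1P

theorem cs_int (f g : ℝ → ℝ) (hf : Continuous f) (hg : Continuous g) :
    (∫ x in (0 : ℝ)..1, f x * g x) ^ 2 ≤
      (∫ x in (0 : ℝ)..1, f x ^ 2) * ∫ x in (0 : ℝ)..1, g x ^ 2 := by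
  have key : ∀ t : ℝ, 0 ≤ (∫ x in (0 : ℝ)..1, f x ^ 2) * (t * t) +
      (2 * ∫ x in (0 : ℝ)..1, f x * g x) * t + ∫ x in (0 : ℝ)..1, g x ^ 2 := by
    intro t
    have h0 : 0 ≤ ∫ x in (0 : ℝ)..1, (t * f x + g x) ^ 2 :=
      intervalIntegral.integral_nonneg zero_le_one (fun x _ => sq_nonneg _)
    have h1 : (∫ x in (0 : ℝ)..1, (t * f x + g x) ^ 2) =
        ∫ x in (0 : ℝ)..1, ((t * t) * f x ^ 2 + (2 * t) * (f x * g x)) + g x ^ 2 := by
      congr 1; funext x; ring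
    have i1 : IntervalIntegrable (fun x => (t * t) * f x ^ 2) MeasureTheory.volume 0 1 :=
      (continuous_const.mul (hf.pow 2)).intervalIntegrable _ _
    have i2 : IntervalIntegrable (fun x => (2 * t) * (f x * g x)) MeasureTheory.volume 0 1 :=
      (continuous_const.mul (hf.mul hg)).intervalIntegrable _ _
    have i3 : IntervalIntegrable (fun x => g x ^ 2) MeasureTheory.volume 0 1 :=
      (hg.pow 2).intervalIntegrable _ _
    rw [h1, intervalIntegral.integral_add (i1.add i2) i3, intervalIntegral.integral_add i1 i2,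
      intervalIntegral.integral_const_mul, intervalIntegral.integral_const_mul] at h0
    nlinarith [h0]
  have h := discrim_le_zero key
  unfold discrim at h
  nlinarith [h]

theorem sum_nzb_le (H : ℕ) (g : V → ℝ) (hg : ∀ b, 0 ≤ g b) :
    ∑ b ∈ nzb H, g b ≤ ∑ y1 ∈ (iv H).erase 0, ∑ y2 ∈ (iv H).erase 0, ∑ y3 ∈ (iv H).erase 0,
      ∑ x ∈ iv H, g ![x, y1, y2, y3] := by
  classical
  have e1 : ∑ y1 ∈ (iv H).erase 0, ∑ y2 ∈ (iv H).erase 0, ∑ y3 ∈ (iv H).erase 0,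
      ∑ x ∈ iv H, g ![x, y1, y2, y3] =
      ∑ p ∈ (iv H).erase 0 ×ˢ (iv H).erase 0 ×ˢ (iv H).erase 0 ×ˢ iv H,
        g ![p.2.2.2, p.1, p.2.1, p.2.2.1] := by
    simp only [Finset.sum_product]
  have hb : ∀ b : V, (![b 0, b 1, b 2, b 3] : V) = b := by
    intro b; funext j; fin_cases j <;> rfl
  have e2 : ∑ b ∈ nzb H, g b =
      ∑ p ∈ (nzb H).image (fun b : V => (b 1, b 2, b 3, b 0)),
        g ![p.2.2.2, p.1, p.2.1, p.2.2.1] := by
    rw [Finset.sum_image]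
    · exact Finset.sum_congr rfl (fun b _ => by rw [hb])
    · intro b _ b' _ h
      simp only [Prod.mk.injEq] at h
      rw [← hb b, ← hb b', h.1, h.2.1, h.2.2.1, h.2.2.2]
  rw [e1, e2]
  refine Finset.sum_le_sum_of_subset_of_nonneg ?_ (fun p _ _ => hg _)
  intro p hp
  obtain ⟨b, hb1, rfl⟩ := Finset.mem_image.1 hp
  simp only [nzb, bx, Finset.mem_filter, Fintype.mem_piFinset] at hb1
  simp only [Finset.mem_product, Finset.mem_erase]
  exact ⟨⟨hb1.2 1, hb1.1 1⟩, ⟨hb1.2 2, hb1.1 2⟩, ⟨hb1.2 3, hb1.1 3⟩, hb1.1 0⟩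

theorem psi_cont (r : ℝ) (H : ℕ) (hc : Continuous (vth r)) : Continuous (psi r H) := by
  unfold psi
  exact continuous_finsetSum _ (fun b _ => hc.comp (continuous_const.mul continuous_id))

theorem psi_per (r : ℝ) (H : ℕ) (hp : ∀ (x : ℝ) (n : ℤ), vth r (x + n) = vth r x) (x : ℝ)
    (n : ℤ) : psi r H (x + n) = psi r H x := by
  unfold psi
  refine Finset.sum_congr rfl (fun b _ => ?_)
  have : (b : ℝ) * (x + n) = b * x + ((b * n : ℤ) : ℝ) := by push_cast; ring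
  rw [this, hp]

theorem zero_mem (H : ℕ) : (0 : ℤ) ∈ iv H := by
  simp [iv]

/-- the pointwise bound -/
theorem point (r A : ℝ) (H : ℕ) (hv : ∀ x, 0 ≤ vth r x ∧ vth r x ≤ 1 + r)
    (hA : ∀ b : V, b ∈ bx H → b 1 ≠ 0 →
      ∑ x ∈ iv H, Real.sqrt (gb (Function.update b 0 x)) ≤ A) (x θ : ℝ) :
    ∑ b ∈ nzb H, Real.sqrt (gb b) * ∏ j, vth r ((x + cz j * θ) * b j) ≤
      (1 + r) * A * (psi r H (x + (3 : ℤ) * θ) *
        (psi r H (x + (5 : ℤ) * θ) * psi r H (x + (7 : ℤ) * θ))) := by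
  have hr : 0 ≤ 1 + r := le_trans (hv 0).1 (hv 0).2
  refine le_trans (sum_nzb_le H _ (fun b => mul_nonneg (Real.sqrt_nonneg _)
    (Finset.prod_nonneg (fun j _ => (hv _).1)))) ?_
  unfold psi
  rw [Finset.sum_mul, Finset.mul_sum]
  refine Finset.sum_le_sum (fun y1 h1 => ?_)
  rw [Finset.sum_mul, Finset.mul_sum, Finset.mul_sum]
  refine Finset.sum_le_sum (fun y2 h2 => ?_)
  rw [Finset.mul_sum, Finset.mul_sum, Finset.mul_sum]
  refine Finset.sum_le_sum (fun y3 h3 => ?_)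
  have hb : (![0, y1, y2, y3] : V) ∈ bx H := by
    simp only [bx, Fintype.mem_piFinset]
    intro j
    fin_cases j
    · exact zero_mem H
    · exact Finset.mem_of_mem_erase h1
    · exact Finset.mem_of_mem_erase h2
    · exact Finset.mem_of_mem_erase h3
  have hA' := hA _ hb (Finset.ne_of_mem_erase h1)
  have hu : ∀ z : ℤ, Function.update (![0, y1, y2, y3] : V) 0 z = ![z, y1, y2, y3] := by
    intro z; funext j; fin_cases j <;> rfl
  simp only [hu] at hA'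
  set v1 := vth r (y1 * (x + (3 : ℤ) * θ)) with hv1
  set v2 := vth r (y2 * (x + (5 : ℤ) * θ)) with hv2
  set v3 := vth r (y3 * (x + (7 : ℤ) * θ)) with hv3
  have hP : 0 ≤ v1 * (v2 * v3) := mul_nonneg (hv _).1 (mul_nonneg (hv _).1 (hv _).1)
  have step : ∀ z ∈ iv H, Real.sqrt (gb ![z, y1, y2, y3]) *
      ∏ j, vth r ((x + cz j * θ) * ((![z, y1, y2, y3] : V) j : ℤ)) ≤
      Real.sqrt (gb ![z, y1, y2, y3]) * ((1 + r) * (v1 * (v2 * v3))) := by
    intro z _
    refine mul_le_mul_of_nonneg_left ?_ (Real.sqrt_nonneg _)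
    rw [Fin.prod_univ_four]
    have a1 : vth r ((x + cz 1 * θ) * ((![z, y1, y2, y3] : V) 1 : ℤ)) = v1 := by
      rw [hv1, mul_comm]; rfl
    have a2 : vth r ((x + cz 2 * θ) * ((![z, y1, y2, y3] : V) 2 : ℤ)) = v2 := by
      rw [hv2, mul_comm]; rfl
    have a3 : vth r ((x + cz 3 * θ) * ((![z, y1, y2, y3] : V) 3 : ℤ)) = v3 := by
      rw [hv3, mul_comm]; rfl
    rw [a1, a2, a3, mul_assoc, mul_assoc]
    exact mul_le_mul_of_nonneg_right (hv _).2 hP
  refine le_trans (Finset.sum_le_sum step) ?_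
  rw [← Finset.sum_mul]
  calc (∑ z ∈ iv H, Real.sqrt (gb ![z, y1, y2, y3])) * ((1 + r) * (v1 * (v2 * v3)))
      ≤ A * ((1 + r) * (v1 * (v2 * v3))) := mul_le_mul_of_nonneg_right hA' (mul_nonneg hr hP)
    _ = (1 + r) * A * (v1 * (v2 * v3)) := by ring

/-- the weighted sum of the one-block weights -/
theorem block (hIND : S_IND) (r A : ℝ) (H : ℕ) (hc : Continuous (vth r))
    (hv : ∀ x, 0 ≤ vth r x ∧ vth r x ≤ 1 + r)
    (hp : ∀ (x : ℝ) (n : ℤ), vth r (x + n) = vth r x) (hJ : ∀ b θ, 0 ≤ JJ r b θ)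
    (hA : ∀ b : V, b ∈ bx H → b 1 ≠ 0 →
      ∑ x ∈ iv H, Real.sqrt (gb (Function.update b 0 x)) ≤ A) (θ : ℝ) :
    (∑ b ∈ nzb H, Real.sqrt (gb b) * JJ r b θ) ^ 2 ≤ ((1 + r) * A) ^ 2 * I2 r H *
      ∫ x in (0 : ℝ)..1, psi r H (x + (5 : ℤ) * θ) ^ 2 * psi r H (x + (7 : ℤ) * θ) ^ 2 := by
  have hψ := psi_cont r H hc
  have c3 : Continuous (fun x : ℝ => psi r H (x + (3 : ℤ) * θ)) :=
    hψ.comp (continuous_id.add continuous_const)
  have c57 : Continuous (fun x : ℝ => psi r H (x + (5 : ℤ) * θ) * psi r H (x + (7 : ℤ) * θ)) :=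
    (hψ.comp (continuous_id.add continuous_const)).mul
      (hψ.comp (continuous_id.add continuous_const))
  have cb : ∀ b : V, Continuous
      (fun x : ℝ => Real.sqrt (gb b) * ∏ j, vth r ((x + cz j * θ) * b j)) := fun b =>
    continuous_const.mul (continuous_finsetProd _ (fun j _ =>
      hc.comp ((continuous_id.add continuous_const).mul continuous_const)))
  have e1 : ∑ b ∈ nzb H, Real.sqrt (gb b) * JJ r b θ =
      ∫ x in (0 : ℝ)..1, ∑ b ∈ nzb H, Real.sqrt (gb b) * ∏ j, vth r ((x + cz j * θ) * b j) := by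
    rw [intervalIntegral.integral_finsetSum (fun b _ => (cb b).intervalIntegrable _ _)]
    refine Finset.sum_congr rfl (fun b _ => ?_)
    rw [intervalIntegral.integral_const_mul]; rfl
  have h0 : 0 ≤ ∑ b ∈ nzb H, Real.sqrt (gb b) * JJ r b θ :=
    Finset.sum_nonneg (fun b _ => mul_nonneg (Real.sqrt_nonneg _) (hJ b θ))
  have h1 : ∑ b ∈ nzb H, Real.sqrt (gb b) * JJ r b θ ≤ (1 + r) * A *
      ∫ x in (0 : ℝ)..1, psi r H (x + (3 : ℤ) * θ) *
        (psi r H (x + (5 : ℤ) * θ) * psi r H (x + (7 : ℤ) * θ)) := by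
    rw [e1, ← intervalIntegral.integral_const_mul]
    refine intervalIntegral.integral_mono_on zero_le_one
      ((continuous_finsetSum _ (fun b _ => cb b)).intervalIntegrable _ _)
      ((continuous_const.mul (c3.mul c57)).intervalIntegrable _ _) (fun x _ => ?_)
    exact point r A H hv hA x θ
  have h2 := cs_int _ _ c3 c57
  have h3 : (∫ x in (0 : ℝ)..1, psi r H (x + (3 : ℤ) * θ) ^ 2) = I2 r H := by
    have := (hIND (fun y => psi r H y ^ 2) (fun y => psi r H y ^ 2) 5 7 (hψ.pow 2) (hψ.pow 2)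
      (fun x n => by simp only [psi_per r H hp]) (fun x n => by simp only [psi_per r H hp])
      (by norm_num)).1 1 ((3 : ℤ) * θ) one_ne_zero
    simp only [Int.cast_one, one_mul] at this
    exact this
  rw [h3] at h2
  simp only [mul_pow] at h2
  calc (∑ b ∈ nzb H, Real.sqrt (gb b) * JJ r b θ) ^ 2
      ≤ ((1 + r) * A * ∫ x in (0 : ℝ)..1, psi r H (x + (3 : ℤ) * θ) *
        (psi r H (x + (5 : ℤ) * θ) * psi r H (x + (7 : ℤ) * θ))) ^ 2 :=
        pow_le_pow_left₀ h0 h1 2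
    _ = ((1 + r) * A) ^ 2 * (∫ x in (0 : ℝ)..1, psi r H (x + (3 : ℤ) * θ) *
        (psi r H (x + (5 : ℤ) * θ) * psi r H (x + (7 : ℤ) * θ))) ^ 2 := mul_pow _ _ _
    _ ≤ ((1 + r) * A) ^ 2 * (I2 r H *
        ∫ x in (0 : ℝ)..1, psi r H (x + (5 : ℤ) * θ) ^ 2 * psi r H (x + (7 : ℤ) * θ) ^ 2) :=
        mul_le_mul_of_nonneg_left h2 (sq_nonneg _)
    _ = _ := by ring

end M1P

theorem pM1 (hVT : S_VT) (hMJ : S_MJ) (hIND : S_IND) (hGA : S_GA) : S_M1 := by
  intro ε hε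
  obtain ⟨C, hC, hG⟩ := hGA (ε / 2) (by positivity)
  refine ⟨C ^ 2, by positivity, fun N H r hH hN hr => ?_⟩
  obtain ⟨hc, hv, hp, -, -⟩ := hVT r hr
  have hJc : ∀ b, Continuous (JJ r b) := fun b => (hMJ r b hr).2.1
  have hJ : ∀ b θ, 0 ≤ JJ r b θ := fun b => (hMJ r b hr).2.2.2.1
  have hψ := M1P.psi_cont r H hc
  set A : ℝ := C * (N : ℝ) ^ (ε / 2) * H with hA
  have cW : Continuous (fun θ => ∑ b ∈ nzb H, Real.sqrt (gb b) * JJ r b θ) :=
    continuous_finsetSum _ (fun b _ => continuous_const.mul (hJc b))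
  have cbb : ∀ b b' : V, Continuous
      (fun θ => Real.sqrt (gb b * gb b') * (JJ r b θ * JJ r b' θ)) := fun b b' =>
    continuous_const.mul ((hJc b).mul (hJc b'))
  have e1 : ∑ b ∈ nzb H, ∑ b' ∈ nzb H, Real.sqrt (gb b * gb b') * I8 r b b' =
      ∫ θ in (0 : ℝ)..1, (∑ b ∈ nzb H, Real.sqrt (gb b) * JJ r b θ) ^ 2 := by
    have : ∀ θ, (∑ b ∈ nzb H, Real.sqrt (gb b) * JJ r b θ) ^ 2 =
        ∑ b ∈ nzb H, ∑ b' ∈ nzb H, Real.sqrt (gb b * gb b') * (JJ r b θ * JJ r b' θ) := by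
      intro θ
      rw [sq, Finset.sum_mul_sum]
      refine Finset.sum_congr rfl (fun b _ => Finset.sum_congr rfl (fun b' _ => ?_))
      rw [Real.sqrt_mul (Nat.cast_nonneg _)]; ring
    simp only [this]
    rw [intervalIntegral.integral_finsetSum (fun b _ =>
      (continuous_finsetSum _ (fun b' _ => cbb b b')).intervalIntegrable _ _)]
    refine Finset.sum_congr rfl (fun b _ => ?_)
    rw [intervalIntegral.integral_finsetSum (fun b' _ => (cbb b b').intervalIntegrable _ _)]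
    refine Finset.sum_congr rfl (fun b' _ => ?_)
    rw [intervalIntegral.integral_const_mul]; rfl
  have cQ : Continuous (fun θ : ℝ => ∫ x in (0 : ℝ)..1,
      psi r H (x + (5 : ℤ) * θ) ^ 2 * psi r H (x + (7 : ℤ) * θ) ^ 2) := by
    refine intervalIntegral.continuous_parametric_intervalIntegral_of_continuous' ?_ 0 1
    exact ((hψ.comp (continuous_snd.add (continuous_const.mul continuous_fst))).pow 2).mul
      ((hψ.comp (continuous_snd.add (continuous_const.mul continuous_fst))).pow 2)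
  have hQ := (hIND (fun y => psi r H y ^ 2) (fun y => psi r H y ^ 2) 5 7 (hψ.pow 2) (hψ.pow 2)
    (fun x n => by simp only [M1P.psi_per r H hp]) (fun x n => by simp only [M1P.psi_per r H hp])
    (by norm_num)).2
  have hN0 : (0 : ℝ) ≤ N := Nat.cast_nonneg _
  have hNe : ((N : ℝ) ^ (ε / 2)) ^ 2 = (N : ℝ) ^ ε := by
    rw [← Real.rpow_natCast, ← Real.rpow_mul hN0]; congr 1; push_cast; ring
  calc _ = ∫ θ in (0 : ℝ)..1, (∑ b ∈ nzb H, Real.sqrt (gb b) * JJ r b θ) ^ 2 := e1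
    _ ≤ ∫ θ in (0 : ℝ)..1, ((1 + r) * A) ^ 2 * I2 r H * ∫ x in (0 : ℝ)..1,
        psi r H (x + (5 : ℤ) * θ) ^ 2 * psi r H (x + (7 : ℤ) * θ) ^ 2 :=
        intervalIntegral.integral_mono_on zero_le_one ((cW.pow 2).intervalIntegrable _ _)
          ((continuous_const.mul cQ).intervalIntegrable _ _)
          (fun θ _ => M1P.block hIND r A H hc hv hp hJ (fun b hb h1 => hG N H b hH hN hb h1) θ)
    _ = ((1 + r) * A) ^ 2 * I2 r H * (I2 r H * I2 r H) := by
        rw [intervalIntegral.integral_const_mul, hQ]; rfl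
    _ = _ := by rw [hA, ← hNe]; ring

end Pool.Agent.P.MP_0ad054_nt.PS
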