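import Pool.Agent.P.MP_0ad054_nt.PS.St

/-! Masses: the mean square of `psi`, a single pair, relations of bounded degree. -/

namespace Pool.Agent.P.MP_0ad054_nt.PS

open Finset Pool.Agent.Lib.H9 Pool.Agent.P.MP_0ad054_nt.Sun Pool.Agent.P.MP_0ad054_nt.Sun.SphereP
  Pool.Agent.P.MP_0ad054_nt.Clu
open scoped Real ComplexConjugate

namespace M3P

lemma mono1 {f g : ℝ → ℝ} (hf : Continuous f) (hg : Continuous g) (h : ∀ x, f x ≤ g x) :
    (∫ x in (0 : ℝ)..1, f x) ≤ ∫ x in (0 : ℝ)..1, g x :=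
  intervalIntegral.integral_mono_on zero_le_one (hf.intervalIntegrable 0 1)
    (hg.intervalIntegrable 0 1) fun x _ => h x

lemma sum1 {ι : Type} (s : Finset ι) {f : ι → ℝ → ℝ} (hf : ∀ i, Continuous (f i)) :
    (∫ x in (0 : ℝ)..1, ∑ i ∈ s, f i x) = ∑ i ∈ s, ∫ x in (0 : ℝ)..1, f i x :=
  intervalIntegral.integral_finsetSum fun i _ => (hf i).intervalIntegrable 0 1

lemma cont2 {F : ℝ → ℝ → ℝ} (hF : Continuous fun p : ℝ × ℝ => F p.1 p.2) :
    Continuous fun θ => ∫ x in (0 : ℝ)..1, F θ x :=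
  intervalIntegral.continuous_parametric_intervalIntegral_of_continuous' (f := F) hF 0 1

lemma sec {F : ℝ → ℝ → ℝ} (hF : Continuous fun p : ℝ × ℝ => F p.1 p.2) (θ : ℝ) :
    Continuous (F θ) := hF.comp (f := fun x : ℝ => (θ, x)) (by fun_prop)

lemma mono2 {F G : ℝ → ℝ → ℝ} (hF : Continuous fun p : ℝ × ℝ => F p.1 p.2)
    (hG : Continuous fun p : ℝ × ℝ => G p.1 p.2) (h : ∀ θ x, F θ x ≤ G θ x) :
    (∫ θ in (0 : ℝ)..1, ∫ x in (0 : ℝ)..1, F θ x) ≤ ∫ θ in (0 : ℝ)..1, ∫ x in (0 : ℝ)..1, G θ x :=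
  mono1 (cont2 hF) (cont2 hG) fun θ => mono1 (sec hF θ) (sec hG θ) (h θ)

variable {r : ℝ}

lemma contP (hv : Continuous (vth r)) (b : V) :
    Continuous fun p : ℝ × ℝ => ∏ j, vth r ((p.2 + cz j * p.1) * b j) :=
  continuous_finsetProd _ fun _ _ => hv.comp (by fun_prop)

lemma int_v (hVT : S_VT) (hIND : S_IND) (hr : 0 < r) {m : ℤ} (hm : m ≠ 0) (a : ℝ) :
    (∫ x in (0 : ℝ)..1, vth r ((x + a) * m)) = r := by
  obtain ⟨hc, -, hp, hi, -⟩ := hVT r hr
  have := (hIND _ _ 0 1 hc hc hp hp zero_ne_one).1 m (a * m) hm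
  rw [hi] at this
  rw [← this]
  exact intervalIntegral.integral_congr fun x _ => by congr 1; ring

lemma JJ_le (hVT : S_VT) (hIND : S_IND) (hr : 0 < r) {b : V} (hb : ∀ j, b j ≠ 0) (θ : ℝ) :
    JJ r b θ ≤ r * (1 + r) ^ 3 := by
  obtain ⟨hc, hv, -⟩ := hVT r hr
  have h := mono1 (g := fun x => (1 + r) ^ 3 * vth r ((x + cz 0 * θ) * b 0))
    (sec (F := fun θ x => ∏ j, vth r ((x + cz j * θ) * b j)) (contP hc b) θ)
    (continuous_const.mul (hc.comp (by fun_prop))) fun x => by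
      rw [Fin.prod_univ_four]
      calc _ ≤ vth r ((x + cz 0 * θ) * b 0) * (1 + r) * (1 + r) * (1 + r) := by
            have h0 := (hv ((x + cz 0 * θ) * b 0)).1
            have h2 := (hv ((x + cz 2 * θ) * b 2)).1
            have h3 := (hv ((x + cz 3 * θ) * b 3)).1
            gcongr <;> exact (hv _).2
        _ = _ := by ring
  rw [intervalIntegral.integral_const_mul, int_v hVT hIND hr (hb 0), mul_comm] at h
  exact h

lemma I8_le (hMJ : S_MJ) (hr : 0 < r) {K : ℝ} {b b' : V} (h : ∀ θ, JJ r b θ ≤ K)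
    (h' : ∀ θ, JJ r b' θ ≤ K) :
    I8 r b b' ≤ K / 2 * (∫ θ in (0 : ℝ)..1, JJ r b θ) + K / 2 * ∫ θ in (0 : ℝ)..1, JJ r b' θ := by
  obtain ⟨-, c, -, p, -⟩ := hMJ r b hr
  obtain ⟨-, c', -, p', -⟩ := hMJ r b' hr
  have d : Continuous fun θ => K / 2 * JJ r b θ := continuous_const.mul c
  have d' : Continuous fun θ => K / 2 * JJ r b' θ := continuous_const.mul c'
  rw [← intervalIntegral.integral_const_mul, ← intervalIntegral.integral_const_mul,
    ← intervalIntegral.integral_add (d.intervalIntegrable 0 1) (d'.intervalIntegrable 0 1)]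
  refine mono1 (f := fun θ => JJ r b θ * JJ r b' θ) (g := fun θ => K / 2 * JJ r b θ +
    K / 2 * JJ r b' θ) (c.mul c') (d.add d') fun θ => ?_
  have h1 := mul_le_mul_of_nonneg_left (h θ) (p θ)
  have h2 := mul_le_mul_of_nonneg_left (h' θ) (p' θ)
  nlinarith [sq_nonneg (JJ r b θ - JJ r b' θ)]

lemma cont_psi (hv : Continuous (vth r)) (H : ℕ) : Continuous (psi r H) :=
  continuous_finsetSum _ fun _ _ => hv.comp (by fun_prop)

lemma add2 {F G : ℝ → ℝ → ℝ} (hF : Continuous fun p : ℝ × ℝ => F p.1 p.2)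
    (hG : Continuous fun p : ℝ × ℝ => G p.1 p.2) :
    (∫ θ in (0 : ℝ)..1, ∫ x in (0 : ℝ)..1, (F θ x + G θ x)) =
      (∫ θ in (0 : ℝ)..1, ∫ x in (0 : ℝ)..1, F θ x) + ∫ θ in (0 : ℝ)..1, ∫ x in (0 : ℝ)..1, G θ x := by
  rw [← intervalIntegral.integral_add ((cont2 hF).intervalIntegrable 0 1)
    ((cont2 hG).intervalIntegrable 0 1)]
  exact intervalIntegral.integral_congr fun θ _ => intervalIntegral.integral_add
    ((sec hF θ).intervalIntegrable 0 1) ((sec hG θ).intervalIntegrable 0 1)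

lemma four (hIND : S_IND) {ψ : ℝ → ℝ} (hψ : Continuous ψ) (hp : ∀ (x : ℝ) (n : ℤ), ψ (x + n) = ψ x)
    {F : ℝ → ℝ → ℝ} (hF : Continuous fun p : ℝ × ℝ => F p.1 p.2)
    (h : ∀ θ x, F θ x ≤ ∏ j, ψ (x + cz j * θ)) :
    (∫ θ in (0 : ℝ)..1, ∫ x in (0 : ℝ)..1, F θ x) ≤ (∫ x in (0 : ℝ)..1, ψ x ^ 2) ^ 2 := by
  have h2 : Continuous fun x => ψ x ^ 2 := hψ.pow 2
  have hq : ∀ (x : ℝ) (n : ℤ), ψ (x + n) ^ 2 = ψ x ^ 2 := fun x n => by rw [hp]
  have c1 : ∀ i j : Fin 4, Continuous fun p : ℝ × ℝ =>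
      ψ (p.2 + cz i * p.1) ^ 2 * ψ (p.2 + cz j * p.1) ^ 2 := fun i j => by fun_prop
  have e1 := (hIND _ _ (cz 0) (cz 1) h2 h2 hq hq (by decide)).2
  have e2 := (hIND _ _ (cz 2) (cz 3) h2 h2 hq hq (by decide)).2
  have h3 := mono2 (F := fun θ x => F θ x + F θ x)
    (G := fun θ x => ψ (x + cz 0 * θ) ^ 2 * ψ (x + cz 1 * θ) ^ 2 +
      ψ (x + cz 2 * θ) ^ 2 * ψ (x + cz 3 * θ) ^ 2) (hF.add hF) (by fun_prop) fun θ x => by
      have h4 := h θ x
      rw [Fin.prod_univ_four] at h4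
      nlinarith [sq_nonneg (ψ (x + cz 0 * θ) * ψ (x + cz 1 * θ) -
        ψ (x + cz 2 * θ) * ψ (x + cz 3 * θ))]
  rw [add2 hF hF, add2 (F := fun θ x => ψ (x + cz 0 * θ) ^ 2 * ψ (x + cz 1 * θ) ^ 2)
    (G := fun θ x => ψ (x + cz 2 * θ) ^ 2 * ψ (x + cz 3 * θ) ^ 2) (c1 0 1) (c1 2 3), e1, e2] at h3
  linarith

lemma sum_JJ (hVT : S_VT) (hIND : S_IND) (hr : 0 < r) (H : ℕ) :
    ∑ b ∈ nzb H, (∫ θ in (0 : ℝ)..1, JJ r b θ) ≤ I2 r H ^ 2 := by
  obtain ⟨hc, hv, hp, -⟩ := hVT r hr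
  have hq : ∀ (x : ℝ) (n : ℤ), psi r H (x + n) = psi r H x := fun x n =>
    sum_congr rfl fun b _ => by rw [← hp (b * x) (b * n)]; congr 1; push_cast; ring
  have c1 : Continuous fun p : ℝ × ℝ => ∑ b ∈ nzb H, ∏ j, vth r ((p.2 + cz j * p.1) * b j) :=
    continuous_finsetSum _ fun b _ => contP hc b
  refine le_trans (le_of_eq ?_) (four hIND (cont_psi hc H) hq
    (F := fun θ x => ∑ b ∈ nzb H, ∏ j, vth r ((x + cz j * θ) * b j)) c1 fun θ x => ?_)
  · have s3 : ∀ (θ : ℝ) (b : V), Continuous fun x : ℝ => ∏ j, vth r ((x + cz j * θ) * b j) :=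
      fun θ b => continuous_finsetProd _ fun _ _ => hc.comp (by fun_prop)
    have s4 : ∀ b, Continuous (JJ r b) := fun b =>
      cont2 (F := fun θ x => ∏ j, vth r ((x + cz j * θ) * b j)) (contP hc b)
    rw [← sum1 _ s4]
    exact intervalIntegral.integral_congr fun θ _ => (sum1 (nzb H) (s3 θ)).symm
  · unfold psi
    rw [prod_univ_sum]
    refine le_trans (le_of_eq (sum_congr rfl fun b _ => prod_congr rfl fun j _ => ?_))
      (sum_le_sum_of_subset_of_nonneg (s := nzb H) (fun b hb => ?_)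
        fun b _ _ => prod_nonneg fun j _ => (hv _).1)
    · rw [mul_comm]
    · obtain ⟨h5, h6⟩ := mem_filter.1 hb
      exact Fintype.mem_piFinset.2 fun j => mem_erase.2 ⟨h6 j, Fintype.mem_piFinset.1 h5 j⟩

lemma fib {P : Finset (V × V)} {s : Finset V} {φ : V × V → V} {g : V → ℝ} {D : ℝ}
    (hs : ∀ p ∈ P, φ p ∈ s) (hg : ∀ b, 0 ≤ g b)
    (hD : ∀ b, ((P.filter (fun p => φ p = b)).card : ℝ) ≤ D) :
    ∑ p ∈ P, g (φ p) ≤ D * ∑ b ∈ s, g b := by
  rw [← sum_fiberwise_of_maps_to hs, mul_sum]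
  refine sum_le_sum fun b _ => ?_
  rw [sum_congr rfl fun p hp => congrArg g (mem_filter.1 hp).2, sum_const, nsmul_eq_mul]
  exact mul_le_mul_of_nonneg_right (hD b) (hg b)

end M3P

open M3P

theorem pI2 (hVT : S_VT) (hNU : S_NU) : S_I2 := by
  obtain ⟨h0, ⟨C, hC, h1⟩, -⟩ := hNU
  refine ⟨C + 9, by positivity, fun r H hr hH =>
    ⟨intervalIntegral.integral_nonneg zero_le_one fun _ _ => sq_nonneg _, ?_⟩⟩
  obtain ⟨hc, -, -, -, hv⟩ := hVT r hr
  have c1 : ∀ b b' : ℤ, Continuous fun x : ℝ => vth r (b * x) * vth r (b' * x) := fun b b' =>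
    (hc.comp (by fun_prop)).mul (hc.comp (by fun_prop))
  have e1 : I2 r H = ∑ b ∈ (iv H).erase 0, ∑ b' ∈ (iv H).erase 0,
      ∫ x in (0 : ℝ)..1, vth r (b * x) * vth r (b' * x) := by
    rw [sum_congr rfl fun (b : ℤ) _ => (sum1 _ (c1 b)).symm,
      ← sum1 _ fun b : ℤ => continuous_finsetSum _ fun b' _ => c1 b b']
    exact intervalIntegral.integral_congr fun x _ => by rw [psi, sq, sum_mul_sum]
  have p : ∀ b b' : ℤ, 0 ≤ r * (r + nu b b') := fun b b' =>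
    mul_nonneg hr.le (add_nonneg hr.le (h0 b b').1)
  have e2 : I2 r H ≤ ∑ b ∈ iv H, ∑ b' ∈ iv H, r * (r + nu b b') := by
    rw [e1]
    refine le_trans (sum_le_sum fun b hb => le_trans (sum_le_sum fun b' hb' =>
      hv b b' (mem_erase.1 hb).1 (mem_erase.1 hb').1) (sum_le_sum_of_subset_of_nonneg
        (erase_subset _ _) fun b' _ _ => p b b')) (sum_le_sum_of_subset_of_nonneg
        (erase_subset _ _) fun b _ _ => sum_nonneg fun b' _ => p b b')
  have e3 : (#(iv H) : ℝ) = 2 * H + 1 := by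
    have : #(iv H) = 2 * H + 1 := by rw [iv, Int.card_Icc]; omega
    exact_mod_cast this
  simp only [mul_add, sum_add_distrib, sum_const, nsmul_eq_mul, ← mul_sum, e3] at e2
  have h2 := mul_le_mul_of_nonneg_left (h1 H hH) hr.le
  have h3 : (1 : ℝ) ≤ H := by exact_mod_cast hH
  have h4 : (2 * H + 1 : ℝ) ^ 2 * r ^ 2 ≤ 9 * (H ^ 2 * r ^ 2) := by
    rw [← mul_assoc]
    exact mul_le_mul_of_nonneg_right (by nlinarith) (sq_nonneg r)
  have h5 : 0 ≤ C * ((H : ℝ) ^ 2 * r ^ 2) := by positivity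
  have h6 : 0 ≤ (H : ℝ) * r * LL H ^ 2 := by positivity
  nlinarith

theorem pMS (hVT : S_VT) (hMJ : S_MJ) (hIND : S_IND) : S_MS := by
  intro r b b' hr hb hb'
  obtain ⟨-, c, -, p, -⟩ := hMJ r b hr
  obtain ⟨-, c', -, p', -⟩ := hMJ r b' hr
  refine ⟨intervalIntegral.integral_nonneg zero_le_one fun θ _ => mul_nonneg (p θ) (p' θ), ?_⟩
  obtain ⟨hc, hv, hp, -⟩ := hVT r hr
  have c1 : ∀ m : ℤ, Continuous fun y : ℝ => vth r (y * m) := fun m => hc.comp (by fun_prop)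
  have q1 : ∀ (m : ℤ) (x : ℝ) (n : ℤ), vth r ((x + n) * m) = vth r (x * m) := fun m x n => by
    rw [← hp (x * m) (n * m)]; congr 1; push_cast; ring
  have i1 : ∀ j, (∫ x in (0 : ℝ)..1, vth r (x * b j)) = r := fun j => by
    simpa using int_v hVT hIND hr (hb j) 0
  have e1 := (hIND _ _ (cz 0) (cz 1) (c1 (b 0)) (c1 (b 1)) (q1 _) (q1 _) (by decide)).2
  rw [i1, i1] at e1
  have h1 := mono2 (F := fun θ x => ∏ j, vth r ((x + cz j * θ) * b j))
    (G := fun θ x => (1 + r) ^ 2 * (vth r ((x + cz 0 * θ) * b 0) * vth r ((x + cz 1 * θ) * b 1)))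
    (contP hc b) (continuous_const.mul ((hc.comp (by fun_prop)).mul (hc.comp (by fun_prop))))
    fun θ x => by
      rw [Fin.prod_univ_four]
      calc _ ≤ vth r ((x + cz 0 * θ) * b 0) * vth r ((x + cz 1 * θ) * b 1) * (1 + r) * (1 + r) := by
            have h0 := (hv ((x + cz 0 * θ) * b 0)).1
            have h2 := (hv ((x + cz 1 * θ) * b 1)).1
            have h3 := (hv ((x + cz 3 * θ) * b 3)).1
            gcongr <;> exact (hv _).2
        _ = _ := by ring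
  simp_rw [intervalIntegral.integral_const_mul] at h1
  rw [e1] at h1
  have h2 := mono1 (f := fun θ => JJ r b θ * JJ r b' θ) (g := fun θ => r * (1 + r) ^ 3 * JJ r b θ)
    (c.mul c') (continuous_const.mul c) fun θ => by
      rw [mul_comm _ (JJ r b θ)]
      exact mul_le_mul_of_nonneg_left (JJ_le hVT hIND hr hb' θ) (p θ)
  rw [intervalIntegral.integral_const_mul] at h2
  calc _ ≤ r * (1 + r) ^ 3 * ((1 + r) ^ 2 * (r * r)) :=
        h2.trans (mul_le_mul_of_nonneg_left h1 (by positivity))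
    _ = _ := by ring

theorem pM3 (hVT : S_VT) (hMJ : S_MJ) (hIND : S_IND) : S_M3 := by
  intro H r D P hr hD hP h1 h2
  have g0 : ∀ b, 0 ≤ ∫ θ in (0 : ℝ)..1, JJ r b θ := fun b =>
    intervalIntegral.integral_nonneg zero_le_one fun θ _ => (hMJ r b hr).2.2.2.1 θ
  have f1 := fib (φ := Prod.fst) (fun p hp => (hP p hp).1) g0 h1
  have f2 := fib (φ := Prod.snd) (fun p hp => (hP p hp).2) g0 h2
  have f3 := mul_le_mul_of_nonneg_left (sum_JJ hVT hIND hr H) hD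
  refine (sum_le_sum fun p hp => I8_le hMJ hr (JJ_le hVT hIND hr (mem_filter.1 (hP p hp).1).2)
    (JJ_le hVT hIND hr (mem_filter.1 (hP p hp).2).2)).trans ?_
  rw [sum_add_distrib, ← mul_sum, ← mul_sum, ← mul_add]
  calc _ ≤ r * (1 + r) ^ 3 / 2 * (2 * (D * I2 r H ^ 2)) :=
        mul_le_mul_of_nonneg_left (by linarith) (by positivity)
    _ = _ := by ring

end Pool.Agent.P.MP_0ad054_nt.PS
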