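import Pool.Agent.P.MP_0ad054_nt.PS.St

/-! Both blocks in dual form. -/

namespace Pool.Agent.P.MP_0ad054_nt.PS

open Finset Pool.Agent.Lib.H9 Pool.Agent.P.MP_0ad054_nt.Sun Pool.Agent.P.MP_0ad054_nt.Sun.SphereP
  Pool.Agent.P.MP_0ad054_nt.Clu
open scoped Real ComplexConjugate

namespace MASP

lemma one_le_Om (N : ℕ) (η : ℝ) : 1 ≤ Om N η :=
  Real.one_le_sqrt.2 (le_add_of_nonneg_right (sq_nonneg _))

/-- the unit interval cut into `q` parts -/
lemma cut {F : ℝ → ℂ} (hF : Continuous F) {q : ℕ} (hq : 1 ≤ q) :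
    (∫ x in (0 : ℝ)..1, F x) =
      (q : ℂ)⁻¹ * ∑ n ∈ Ico (0 : ℤ) q, ∫ θ in (0 : ℝ)..1, F ((n + θ) / q) := by
  have h0 : (q : ℝ) ≠ 0 := by positivity
  have h1 : (q : ℂ) ≠ 0 := by exact_mod_cast h0
  have e := intervalIntegral.sum_integral_adjacent_intervals (f := F) (μ := MeasureTheory.volume)
    (a := fun k => (k : ℝ) / q) (n := q) fun k _ => hF.intervalIntegrable _ _
  simp only [Nat.cast_zero, zero_div, div_self h0] at e
  rw [← e, mul_sum]
  refine sum_nbij' (fun k => (k : ℤ)) (fun n => n.toNat) (fun k hk => ?_) (fun n hn => ?_)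
    (fun k _ => by simp) (fun n hn => Int.toNat_of_nonneg (mem_Ico.1 hn).1) fun k _ => ?_
  · exact mem_Ico.2 ⟨by positivity, by exact_mod_cast mem_range.1 hk⟩
  · have := mem_Ico.1 hn
    exact mem_range.2 (by omega)
  · simp only [add_div, Int.cast_natCast]
    rw [intervalIntegral.integral_comp_add_div F h0]
    simp only [zero_div, add_zero, Nat.cast_add, Nat.cast_one, add_div, Complex.real_smul,
      Complex.ofReal_natCast]
    rw [← mul_assoc, inv_mul_cancel₀ h1, one_mul]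

/-- head and tail of a weighted series -/
lemma split {m Y : V → ℝ} {M τ : ℝ} (B : Finset V) (hm : ∀ k, 0 ≤ m k) (hs : Summable m)
    (hY : ∀ k, 0 ≤ Y k ∧ Y k ≤ M) (ht : ∑' k, (if k ∈ B then 0 else m k) ≤ τ) :
    ∑' k, m k * Y k ≤ ∑ k ∈ B, m k * Y k + M * τ := by
  have hM : 0 ≤ M := (hY 0).1.trans (hY 0).2
  have s1 : Summable fun k => if k ∈ B then 0 else m k :=
    Summable.of_nonneg_of_le (fun k => by split_ifs; exacts [le_rfl, hm k])
      (fun k => by split_ifs; exacts [hm k, le_rfl]) hs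
  refine Real.tsum_le_of_sum_le (fun k => mul_nonneg (hm k) (hY k).1) fun s => ?_
  calc ∑ k ∈ s, m k * Y k
      ≤ ∑ k ∈ s, ((if k ∈ B then m k * Y k else 0) + M * if k ∈ B then 0 else m k) := by
        refine sum_le_sum fun k _ => ?_
        split_ifs
        · simp
        · rw [zero_add, mul_comm]
          exact mul_le_mul_of_nonneg_right (hY k).2 (hm k)
    _ ≤ _ := by
        rw [sum_add_distrib, ← mul_sum, ← sum_filter]
        refine add_le_add (sum_le_sum_of_subset_of_nonneg (fun k hk => (mem_filter.1 hk).2)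
          fun k _ _ => mul_nonneg (hm k) (hY k).1) (mul_le_mul_of_nonneg_left ?_ hM)
        exact (s1.sum_le_tsum s fun k _ => by split_ifs; exacts [le_rfl, hm k]).trans ht

lemma norm_GB (q : ℕ) (b : V) (r n : ℤ) (k : V) : ‖GB q b r n k‖ ≤ (q : ℝ) ^ 5 := by
  refine (norm_sum_le_of_le _ (n := fun _ => (q : ℝ) ^ 4) fun _ _ => ?_).trans ?_
  · refine (norm_sum_le_of_le _ (n := fun _ => (1 : ℝ)) fun _ _ => (norm_e _).le).trans ?_
    simp [card_res]
  · simp [pow_succ']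

lemma norm_G11 (q : ℕ) (b b' : V) (r : ℤ) (k k' : V) : ‖G11 q b b' r k k'‖ ≤ (q : ℝ) ^ 11 := by
  refine (norm_sum_le_of_le _ (n := fun _ => (q : ℝ) ^ 5 * (q : ℝ) ^ 5) fun _ _ => ?_).trans ?_
  · rw [norm_mul, Complex.norm_conj]
    exact mul_le_mul (norm_GB ..) (norm_GB ..) (norm_nonneg _) (by positivity)
  · simp only [sum_const, Int.card_Ico, sub_zero, Int.toNat_natCast, nsmul_eq_mul]
    exact le_of_eq (by ring)

lemma card_bx {N : ℕ} (hN : 1 ≤ N) : ((bx N).card : ℝ) ≤ 81 * (N : ℝ) ^ 4 := by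
  have h1 : (1 : ℝ) ≤ N := by exact_mod_cast hN
  have e : (iv N).card = 2 * N + 1 := by rw [iv, Int.card_Icc]; omega
  simp only [bx, Fintype.card_piFinset, e, prod_const, card_univ, Fintype.card_fin]
  push_cast
  calc _ ≤ (3 * (N : ℝ)) ^ 4 := by gcongr; linarith
    _ = _ := by ring

end MASP

open MASP

theorem pMAS (hBLK : S_BLK) (hTAIL : S_TAIL) (hXI : S_XI) (hMJ : S_MJ) (_hVT : S_VT) : S_MAS := by
  obtain ⟨Cb, hCb, hB⟩ := hBLK
  obtain ⟨Ct, hCt, hT⟩ := hTAIL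
  obtain ⟨Cx, hCx, hX⟩ := hXI
  refine ⟨Cb ^ 2 + 81 * Cb ^ 2 * Ct + Cb * Cx * Ct, by positivity,
    fun N H q b b' η r S a hH hHN hq hqN hb hb' hr1 hr hr2 => ?_⟩
  have hN : 1 ≤ N := hq.trans hqN
  have hN1 : (1 : ℝ) ≤ N := by exact_mod_cast hN
  have hN0 : (0 : ℝ) < N := by linarith
  have hq1 : (1 : ℝ) ≤ q := by exact_mod_cast hq
  have hq0 : (0 : ℝ) < q := by linarith
  have hO := one_le_Om N η
  have hO0 : 0 < Om N η := by linarith
  have hO2 : 1 ≤ √(Om N η) := Real.one_le_sqrt.2 hO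
  have nz : ∀ c ∈ nzb H, c ≠ 0 := fun c hc h => (mem_filter.1 hc).2 0 (by rw [h]; rfl)
  obtain ⟨hTh, -⟩ := hX N hN
  set P : ℝ := (N : ℝ) ^ 2 / ((q : ℝ) ^ 5 * (Om N η ^ 2 * √(Om N η))) with hP
  have hP0 : 0 ≤ P := by positivity
  have hP1 : P ≤ (N : ℝ) ^ 2 / (q : ℝ) ^ 5 := by
    rw [hP]
    gcongr
    exact le_mul_of_one_le_right (by positivity)
      (one_le_mul_of_one_le_of_one_le (one_le_pow₀ hO) hO2)
  have hP2 : P ^ 2 = (N : ℝ) ^ 4 / ((q : ℝ) ^ 10 * Om N η ^ 5) := by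
    rw [hP, div_pow, mul_pow, mul_pow, Real.sq_sqrt hO0.le]
    ring
  set A : ℝ := ∑ i ∈ S, ‖a i‖ with hA
  have hA0 : 0 ≤ A := sum_nonneg fun _ _ => norm_nonneg _
  set W : V → V → ℝ := fun k k' => ‖∑ i ∈ S, a i * G11 q b b' i k k'‖ with hW
  have hW1 : ∀ k k', 0 ≤ W k k' ∧ W k k' ≤ (q : ℝ) ^ 11 * A := fun k k' => ⟨norm_nonneg _, by
    rw [hA, mul_sum]
    refine norm_sum_le_of_le _ fun i _ => ?_
    rw [norm_mul, mul_comm]
    exact mul_le_mul_of_nonneg_right (norm_G11 ..) (norm_nonneg _)⟩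
  set I : Finset (ℤ × ℤ) := S ×ˢ Ico (0 : ℤ) q with hI
  set u : V → ℝ → ℤ × ℤ → ℂ := fun c θ i => Th N c (i.1 / q + η) ((i.2 + θ) / q) with hu
  set Er : ℝ := (81 * Cb ^ 2 * Ct + Cb * Cx * Ct) / (N : ℝ) ^ 30 * A * q with hEr
  obtain ⟨m1, -, m2, -⟩ := hMJ r b hr
  obtain ⟨m3, -, m4, -⟩ := hMJ r b' hr
  have pt : ∀ θ : ℝ, 0 ≤ θ → θ ≤ 1 → ‖∑ i ∈ I, a i.1 * conj (u b' θ i) * u b θ i‖ ≤
      Cb ^ 2 * P ^ 2 * ∑ k ∈ bx N, ∑ k' ∈ bx N, mb r b k θ * mb r b' k' θ * W k k' + Er := by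
    intro θ h0 h1
    obtain ⟨s1, t1⟩ := hT N H b θ r hN hHN (mem_filter.1 hb).1 h0 h1 hr hr2
    obtain ⟨s2, t2⟩ := hT N H b' θ r hN hHN (mem_filter.1 hb').1 h0 h1 hr hr2
    set Y : V → ℝ := fun k => ‖∑ i ∈ I, a i.1 * conj (u b' θ i) * GB q b i.1 i.2 k‖ with hY
    have y1 : ∀ k, 0 ≤ Y k ∧ Y k ≤ Cx * (N : ℝ) ^ 2 * (q : ℝ) ^ 6 * A := fun k =>
      ⟨norm_nonneg _, by
        refine (norm_sum_le_of_le _
          (n := fun i => ‖a i.1‖ * (Cx * (N : ℝ) ^ 2) * (q : ℝ) ^ 5) fun i _ => ?_).trans ?_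
        · rw [norm_mul, norm_mul, Complex.norm_conj]
          gcongr
          exacts [(hTh b').2 _ _, norm_GB ..]
        · rw [hI, sum_product]
          simp only [sum_const, Int.card_Ico, sub_zero, Int.toNat_natCast, nsmul_eq_mul]
          rw [hA, mul_sum]
          exact le_of_eq (sum_congr rfl fun _ _ => by ring)⟩
    have y2 : ∀ k, Y k ≤ Cb * P * (∑ k' ∈ bx N, mb r b' k' θ * W k k' +
        (q : ℝ) ^ 11 * A * (Ct / (N : ℝ) ^ 50)) := by
      intro k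
      have e1 : Y k = ‖∑ i ∈ I, conj (a i.1 * GB q b i.1 i.2 k) * u b' θ i‖ := by
        rw [← Complex.norm_conj (∑ i ∈ I, _), map_sum]
        refine congrArg norm (sum_congr rfl fun i _ => ?_)
        simp only [map_mul, Complex.conj_conj]
        ring
      have e2 : ∀ k', ‖∑ i ∈ I, conj (a i.1 * GB q b i.1 i.2 k) * GB q b' i.1 i.2 k'‖ = W k k' := by
        intro k'
        rw [← Complex.norm_conj (∑ i ∈ I, _), map_sum, hI, sum_product]
        refine congrArg norm (sum_congr rfl fun i _ => ?_)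
        rw [G11, mul_sum]
        refine sum_congr rfl fun n _ => ?_
        simp only [map_mul, Complex.conj_conj]
        ring
      have := hB N q b' η θ r I (fun i => conj (a i.1 * GB q b i.1 i.2 k)) hN hq (nz b' hb') hr1 hr
      simp only [e2] at this
      rw [e1]
      exact this.trans (mul_le_mul_of_nonneg_left
        (split (bx N) (fun k' => (m4 k' θ).1) s2 (hW1 k) t2) (by positivity))
    have z1 := hB N q b η θ r I (fun i => a i.1 * conj (u b' θ i)) hN hq (nz b hb) hr1 hr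
    have z2 := split (bx N) (fun k => (m2 k θ).1) s1 y1 t1
    have z3 : ∑ k ∈ bx N, mb r b k θ * Y k ≤
        Cb * P * ∑ k ∈ bx N, ∑ k' ∈ bx N, mb r b k θ * mb r b' k' θ * W k k' +
          81 * (N : ℝ) ^ 4 * (Cb * P * ((q : ℝ) ^ 11 * A * (Ct / (N : ℝ) ^ 50))) := by
      calc _ ≤ ∑ k ∈ bx N, (Cb * P * ∑ k' ∈ bx N, mb r b k θ * mb r b' k' θ * W k k' +
            Cb * P * ((q : ℝ) ^ 11 * A * (Ct / (N : ℝ) ^ 50))) := by
            refine sum_le_sum fun k _ => (mul_le_mul_of_nonneg_left (y2 k) (m2 k θ).1).trans ?_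
            rw [mul_add, mul_add]
            refine add_le_add (le_of_eq ?_) (mul_le_of_le_one_left (by positivity) (m2 k θ).2)
            simp only [mul_sum]
            exact sum_congr rfl fun _ _ => by ring
        _ ≤ _ := by
            rw [sum_add_distrib, ← mul_sum, sum_const, nsmul_eq_mul]
            gcongr
            exact card_bx hN
    have w1 : Cb * P * (81 * (N : ℝ) ^ 4 * (Cb * P * ((q : ℝ) ^ 11 * A * (Ct / (N : ℝ) ^ 50)))) ≤
        81 * Cb ^ 2 * Ct / (N : ℝ) ^ 30 * A * q :=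
      calc _ ≤ Cb * ((N : ℝ) ^ 2 / (q : ℝ) ^ 5) * (81 * (N : ℝ) ^ 4 *
            (Cb * ((N : ℝ) ^ 2 / (q : ℝ) ^ 5) * ((q : ℝ) ^ 11 * A * (Ct / (N : ℝ) ^ 50)))) := by
            gcongr
        _ = 81 * Cb ^ 2 * Ct / (N : ℝ) ^ 42 * A * q := by field_simp
        _ ≤ _ := by gcongr <;> norm_num
    have w2 : Cb * P * (Cx * (N : ℝ) ^ 2 * (q : ℝ) ^ 6 * A * (Ct / (N : ℝ) ^ 50)) ≤
        Cb * Cx * Ct / (N : ℝ) ^ 30 * A * q :=
      calc _ ≤ Cb * ((N : ℝ) ^ 2 / (q : ℝ) ^ 5) *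
            (Cx * (N : ℝ) ^ 2 * (q : ℝ) ^ 6 * A * (Ct / (N : ℝ) ^ 50)) := by gcongr
        _ = Cb * Cx * Ct / (N : ℝ) ^ 46 * A * q := by field_simp
        _ ≤ _ := by gcongr <;> norm_num
    refine (z1.trans (mul_le_mul_of_nonneg_left (z2.trans (add_le_add z3 le_rfl))
      (by positivity))).trans ?_
    have w3 : Er = 81 * Cb ^ 2 * Ct / (N : ℝ) ^ 30 * A * q + Cb * Cx * Ct / (N : ℝ) ^ 30 * A * q := by
      rw [hEr]; ring
    nlinarith [w1, w2, w3]
  have cu : ∀ c i, Continuous fun θ => u c θ i := fun c i =>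
    (hTh c).1.comp (f := fun θ : ℝ => (((i.1 : ℝ) / q + η, (i.2 + θ) / q) : ℝ × ℝ)) (by fun_prop)
  have e1 : ∑ i ∈ S, a i * TH N b b' (i / q + η) =
      (q : ℂ)⁻¹ * ∫ θ in (0 : ℝ)..1, ∑ i ∈ I, a i.1 * conj (u b' θ i) * u b θ i := by
    have c0 : ∀ i : ℤ × ℤ, Continuous fun θ => a i.1 * conj (u b' θ i) * u b θ i := fun i =>
      (continuous_const.mul (Complex.continuous_conj.comp (cu b' i))).mul (cu b i)
    rw [intervalIntegral.integral_finsetSum fun i _ => (c0 i).intervalIntegrable _ _, hI,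
      sum_product, mul_sum]
    refine sum_congr rfl fun i _ => ?_
    have c1 : ∀ c, Continuous fun ν => Th N c (i / q + η) ν := fun c =>
      (hTh c).1.comp (f := fun ν : ℝ => (((i : ℝ) / q + η, ν) : ℝ × ℝ)) (by fun_prop)
    have c2 : Continuous fun ν => Th N b (i / q + η) ν * conj (Th N b' (i / q + η) ν) :=
      (c1 b).mul (Complex.continuous_conj.comp (c1 b'))
    rw [TH, cut c2 hq, mul_left_comm, mul_sum]
    congr 1
    refine sum_congr rfl fun n _ => ?_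
    rw [← intervalIntegral.integral_const_mul]
    refine intervalIntegral.integral_congr fun θ _ => ?_
    simp only [hu]
    ring
  have cw : ∀ k k', IntervalIntegrable (fun θ => mb r b k θ * mb r b' k' θ * W k k')
      MeasureTheory.volume 0 1 := fun k k' =>
    (((m1 k).mul (m3 k')).mul continuous_const).intervalIntegrable _ _
  have cr : ∀ k, Continuous fun θ => ∑ k' ∈ bx N, mb r b k θ * mb r b' k' θ * W k k' := fun k =>
    continuous_finsetSum _ fun k' _ => ((m1 k).mul (m3 k')).mul continuous_const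
  have cs : Continuous fun θ => Cb ^ 2 * P ^ 2 *
      ∑ k ∈ bx N, ∑ k' ∈ bx N, mb r b k θ * mb r b' k' θ * W k k' :=
    continuous_const.mul (continuous_finsetSum _ fun k _ => cr k)
  have ct : Continuous fun θ => Cb ^ 2 * P ^ 2 *
      ∑ k ∈ bx N, ∑ k' ∈ bx N, mb r b k θ * mb r b' k' θ * W k k' + Er := cs.add continuous_const
  have e2 : (∫ θ in (0 : ℝ)..1, (Cb ^ 2 * P ^ 2 *
      ∑ k ∈ bx N, ∑ k' ∈ bx N, mb r b k θ * mb r b' k' θ * W k k' + Er)) =
      Cb ^ 2 * P ^ 2 * ∑ k ∈ bx N, ∑ k' ∈ bx N, mm r b b' k k' * W k k' + Er := by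
    rw [intervalIntegral.integral_add (cs.intervalIntegrable _ _)
      intervalIntegrable_const, intervalIntegral.integral_const_mul,
      intervalIntegral.integral_finsetSum fun k _ => (cr k).intervalIntegrable _ _]
    simp only [intervalIntegral.integral_finsetSum fun k' _ => cw _ k',
      intervalIntegral.integral_mul_const, intervalIntegral.integral_const, sub_zero, one_smul, mm]
  have e3 := intervalIntegral.norm_integral_le_of_norm_le (μ := MeasureTheory.volume) zero_le_one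
    (.of_forall fun θ h => pt θ h.1.le h.2)
    (ct.intervalIntegrable _ _)
  rw [e2] at e3
  obtain ⟨-, -, -, -, -, -, m5⟩ := hMJ r b hr
  have hS : 0 ≤ ∑ k ∈ bx N, ∑ k' ∈ bx N, mm r b b' k k' * W k k' :=
    sum_nonneg fun k _ => sum_nonneg fun k' _ => mul_nonneg ((m5 b').1 k k') (hW1 k k').1
  rw [e1, norm_mul, norm_inv, Complex.norm_natCast]
  have k1 : 0 ≤ 81 * Cb ^ 2 * Ct := by positivity
  have k2 : 0 ≤ Cb * Cx * Ct := by positivity
  have k3 : 0 ≤ Cb ^ 2 := by positivity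
  calc _ ≤ (q : ℝ)⁻¹ * (Cb ^ 2 * P ^ 2 * ∑ k ∈ bx N, ∑ k' ∈ bx N, mm r b b' k k' * W k k' + Er) := by
        gcongr
    _ = Cb ^ 2 * ((N : ℝ) ^ 4 / ((q : ℝ) ^ 11 * Om N η ^ 5)) *
          ∑ k ∈ bx N, ∑ k' ∈ bx N, mm r b b' k k' * W k k' +
        (81 * Cb ^ 2 * Ct + Cb * Cx * Ct) / (N : ℝ) ^ 30 * A := by
        rw [hP2, hEr]
        field_simp
    _ ≤ _ := by gcongr <;> linarith

end Pool.Agent.P.MP_0ad054_nt.PS
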