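import Pool.Agent.P.MP_0ad054_nt.PS.St

/-! Basic bounds for the weights of the dual vectors and the tail of the dual sum. -/

namespace Pool.Agent.P.MP_0ad054_nt.PS

open Finset Pool.Agent.Lib.H9 Pool.Agent.P.MP_0ad054_nt.Sun Pool.Agent.P.MP_0ad054_nt.Sun.SphereP
  Pool.Agent.P.MP_0ad054_nt.Clu
open scoped Real ComplexConjugate

namespace MJP

lemma sm1 {r : ℝ} (hr : 0 < r) (x : ℝ) :
    Summable fun n : ℤ => Real.exp (-(π * (x - n) ^ 2 / r ^ 2)) := by
  have h0 : Summable fun n : ℤ => Real.exp (-|(n : ℝ)|) :=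
    Summable.of_nat_of_neg (by simpa using Real.summable_exp_neg_nat)
      (by simpa using Real.summable_exp_neg_nat)
  refine Summable.of_nonneg_of_le (fun _ => (Real.exp_pos _).le) (fun n => ?_)
    (h0.mul_left (Real.exp (|x| + r ^ 2)))
  rw [← Real.exp_add, Real.exp_le_exp]
  have h1 : |(n : ℝ)| ≤ |x| + |x - n| := by
    simpa using abs_sub (x) (x - n)
  have h2 : |x - n| - r ^ 2 ≤ π * (x - n) ^ 2 / r ^ 2 := by
    rw [le_div_iff₀ (by positivity), ← sq_abs (x - n)]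
    nlinarith [Real.pi_gt_three, sq_nonneg (|x - n| - r ^ 2), sq_nonneg |x - n|, sq_nonneg (r ^ 2)]
  linarith

lemma sum_le {r : ℝ} (hr : 0 < r) (y : Fin 4 → ℝ) (K : Finset V) :
    ∑ k ∈ K, Real.exp (-(π * (∑ j, ((k j : ℝ) - y j) ^ 2) / r ^ 2)) ≤ ∏ j, vth r (y j) := by
  have e : ∀ k : V, Real.exp (-(π * (∑ j, ((k j : ℝ) - y j) ^ 2) / r ^ 2)) =
      ∏ j, Real.exp (-(π * (y j - k j) ^ 2 / r ^ 2)) := fun k => by
    rw [← Real.exp_sum, mul_sum, sum_div, ← sum_neg_distrib]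
    exact congrArg _ (sum_congr rfl fun j _ => by ring)
  simp only [e]
  calc _ ≤ ∑ k ∈ Fintype.piFinset fun j => K.image (· j),
        ∏ j, Real.exp (-(π * (y j - k j) ^ 2 / r ^ 2)) :=
        sum_le_sum_of_subset_of_nonneg
          (fun k hk => Fintype.mem_piFinset.2 fun j => mem_image_of_mem _ hk)
          fun _ _ _ => by positivity
    _ = ∏ j, ∑ n ∈ K.image (· j), Real.exp (-(π * (y j - n) ^ 2 / r ^ 2)) :=
        (prod_univ_sum _ fun j (n : ℤ) => Real.exp (-(π * (y j - n) ^ 2 / r ^ 2))).symm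
    _ ≤ _ := prod_le_prod (fun _ _ => by positivity) fun j _ =>
        (sm1 hr (y j)).sum_le_tsum _ fun _ _ => by positivity

lemma cont1 (r : ℝ) (b k : V) (θ : ℝ) : Continuous fun x : ℝ =>
    Real.exp (-(π * (∑ j, ((k j : ℝ) - (x + cz j * θ) * b j) ^ 2) / r ^ 2)) := by fun_prop

lemma cont_mb (r : ℝ) (b k : V) : Continuous (mb r b k) :=
  intervalIntegral.continuous_parametric_intervalIntegral_of_continuous'
    (f := fun θ x : ℝ => Real.exp (-(π * (∑ j, ((k j : ℝ) - (x + cz j * θ) * b j) ^ 2) / r ^ 2)))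
    (by fun_prop) 0 1

lemma cont_JJ {r : ℝ} (h : Continuous (vth r)) (b : V) : Continuous (JJ r b) :=
  intervalIntegral.continuous_parametric_intervalIntegral_of_continuous'
    (f := fun θ x : ℝ => ∏ j, vth r ((x + cz j * θ) * b j)) (by fun_prop) 0 1

lemma mb_nonneg (r : ℝ) (b k : V) (θ : ℝ) : 0 ≤ mb r b k θ :=
  intervalIntegral.integral_nonneg zero_le_one fun _ _ => (Real.exp_pos _).le

lemma mb_le (r : ℝ) (b k : V) (θ : ℝ) : mb r b k θ ≤ 1 := by
  refine (intervalIntegral.integral_mono_on zero_le_one ((cont1 r b k θ).intervalIntegrable _ _)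
    (continuous_const (y := (1 : ℝ)).intervalIntegrable _ _) fun x _ => ?_).trans (by simp)
  rw [Real.exp_le_one_iff, neg_nonpos]; positivity

lemma mb_mono {r r' : ℝ} (hr : 0 < r) (h : r ≤ r') (b k : V) (θ : ℝ) :
    mb r b k θ ≤ mb r' b k θ := by
  refine intervalIntegral.integral_mono_on zero_le_one ((cont1 r b k θ).intervalIntegrable _ _)
    ((cont1 r' b k θ).intervalIntegrable _ _) fun x _ => ?_
  rw [Real.exp_le_exp, neg_le_neg_iff]
  gcongr

lemma sum_mb {r : ℝ} (hr : 0 < r) (h : Continuous (vth r)) (b : V) (K : Finset V) (θ : ℝ) :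
    ∑ k ∈ K, mb r b k θ ≤ JJ r b θ := by
  unfold mb JJ
  rw [← intervalIntegral.integral_finsetSum fun k _ => (cont1 r b k θ).intervalIntegrable _ _]
  exact intervalIntegral.integral_mono_on zero_le_one
    ((continuous_finsetSum _ fun k _ => cont1 r b k θ).intervalIntegrable _ _)
    (Continuous.intervalIntegrable (by fun_prop) _ _) fun x _ => sum_le hr _ K

lemma far {N H : ℕ} {b k : V} {θ r : ℝ} (hN : 1 ≤ N) (hH : 16 * H ≤ N) (hb : b ∈ bx H)
    (h0 : 0 ≤ θ) (h1 : θ ≤ 1) (hr : 0 < r) (hr2 : r ^ 2 ≤ N) (hk : k ∉ bx N) :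
    mb r b k θ ≤ Real.exp (-(N / 2)) * mb (2 * r) b k θ := by
  unfold mb
  rw [← intervalIntegral.integral_const_mul]
  refine intervalIntegral.integral_mono_on zero_le_one ((cont1 r b k θ).intervalIntegrable _ _)
    ((continuous_const.mul (cont1 _ b k θ)).intervalIntegrable _ _) fun x hx => ?_
  rw [← Real.exp_add, Real.exp_le_exp]
  obtain ⟨j, hj⟩ : ∃ j, k j ∉ iv N := by
    by_contra hc
    exact hk (Fintype.mem_piFinset.2 fun j => by_contra fun e => hc ⟨j, e⟩)
  have hN' : (1 : ℝ) ≤ N := by exact_mod_cast hN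
  have hH' : 16 * (H : ℝ) ≤ N := by exact_mod_cast hH
  have a1 : (N : ℝ) ≤ |(k j : ℝ)| := by
    rw [iv, mem_Icc, ← abs_le, not_le] at hj
    exact_mod_cast hj.le
  have a2 : |(b j : ℝ)| ≤ H := by
    have := Fintype.mem_piFinset.1 hb j
    rw [iv, mem_Icc, ← abs_le] at this
    exact_mod_cast this
  have a3 : (0 : ℝ) ≤ cz j ∧ (cz j : ℝ) ≤ 7 := by
    fin_cases j <;> simp [cz] <;> norm_num
  have a4 : |x + cz j * θ| ≤ 8 := by
    rw [abs_le]; constructor <;> nlinarith [hx.1, hx.2, a3.1, a3.2]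
  have a5 : |(x + cz j * θ) * b j| ≤ N / 2 := by
    rw [abs_mul]
    exact (mul_le_mul a4 a2 (abs_nonneg _) (by norm_num)).trans (by linarith)
  have a6 : (N : ℝ) / 2 ≤ |(k j : ℝ) - (x + cz j * θ) * b j| := by
    linarith [abs_sub_abs_le_abs_sub (k j : ℝ) ((x + cz j * θ) * b j)]
  have a7 : ((N : ℝ) / 2) ^ 2 ≤ ∑ j, ((k j : ℝ) - (x + cz j * θ) * b j) ^ 2 :=
    ((pow_le_pow_left₀ (by positivity) a6 2).trans (sq_abs _).le).trans
      (single_le_sum (f := fun j => ((k j : ℝ) - (x + cz j * θ) * b j) ^ 2)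
        (fun _ _ => sq_nonneg _) (mem_univ j))
  generalize (∑ j, ((k j : ℝ) - (x + cz j * θ) * b j) ^ 2) = S at a7
  have a8 : (N : ℝ) / 4 ≤ S / r ^ 2 := by
    rw [le_div_iff₀ (by positivity)]; nlinarith
  have e1 : π * S / r ^ 2 = π * (S / r ^ 2) := by ring
  have e2 : π * S / (2 * r) ^ 2 = π * (S / r ^ 2) / 4 := by field_simp; ring
  rw [e1, e2]
  nlinarith [Real.pi_gt_three]

end MJP

open MJP

theorem pMJ (hVT : S_VT) : S_MJ := by
  intro r b hr
  obtain ⟨hc, hv, -⟩ := hVT r hr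
  have hJ : ∀ (b : V) θ, 0 ≤ JJ r b θ := fun b θ =>
    intervalIntegral.integral_nonneg zero_le_one fun _ _ => prod_nonneg fun _ _ => (hv _).1
  have hm : ∀ (r : ℝ) (b' k k' : V), IntervalIntegrable (fun θ => mb r b k θ * mb r b' k' θ)
      MeasureTheory.volume 0 1 := fun r b' k k' =>
    ((cont_mb r b k).mul (cont_mb r b' k')).intervalIntegrable _ _
  refine ⟨cont_mb r b, cont_JJ hc b, fun k θ => ⟨mb_nonneg _ _ _ _, mb_le _ _ _ _⟩, hJ b,
    fun r' k θ h => mb_mono hr h b k θ, sum_mb hr hc b, fun b' => ⟨fun k k' =>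
      intervalIntegral.integral_nonneg zero_le_one fun _ _ =>
        mul_nonneg (mb_nonneg _ _ _ _) (mb_nonneg _ _ _ _), fun r' k k' h =>
      intervalIntegral.integral_mono_on zero_le_one (hm _ _ _ _) (hm _ _ _ _) fun θ _ =>
        mul_le_mul (mb_mono hr h _ _ _) (mb_mono hr h _ _ _) (mb_nonneg _ _ _ _)
          (mb_nonneg _ _ _ _), fun K K' => ?_⟩⟩
  unfold mm I8
  rw [← sum_product', ← intervalIntegral.integral_finsetSum fun p _ => hm r b' p.1 p.2]
  refine intervalIntegral.integral_mono_on zero_le_one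
    ((continuous_finsetSum _ fun p _ => (cont_mb r b p.1).mul
      (cont_mb r b' p.2)).intervalIntegrable _ _)
    (((cont_JJ hc b).mul (cont_JJ hc b')).intervalIntegrable _ _) fun θ _ => ?_
  rw [sum_product' (f := fun k k' => mb r b k θ * mb r b' k' θ), ← sum_mul_sum]
  exact mul_le_mul (sum_mb hr hc b K θ) (sum_mb hr hc b' K' θ)
    (sum_nonneg fun _ _ => mb_nonneg _ _ _ _) (hJ b θ)

theorem pTAIL (hVT : S_VT) (_hMJ : S_MJ) : S_TAIL := by
  refine ⟨81 * (2 ^ 54 * (Nat.factorial 54 : ℝ)), by positivity,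
    fun N H b θ r hN hH hb h0 h1 hr hr2 => ⟨summable_of_sum_le (fun _ => mb_nonneg _ _ _ _)
      fun K => sum_mb hr (hVT r hr).1 b K θ, ?_⟩⟩
  have hN' : (1 : ℝ) ≤ N := by exact_mod_cast hN
  have hr' : 0 < 2 * r := by positivity
  obtain ⟨hc, hv, -⟩ := hVT _ hr'
  have hrN : r ≤ N := by nlinarith
  have hJ : JJ (2 * r) b θ ≤ 81 * (N : ℝ) ^ 4 := by
    refine (intervalIntegral.integral_mono_on zero_le_one
      (Continuous.intervalIntegrable (by fun_prop) _ _)
      (continuous_const (y := 81 * (N : ℝ) ^ 4).intervalIntegrable _ _) fun x _ => ?_).trans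
      (by simp)
    refine (prod_le_prod (g := fun _ => 3 * (N : ℝ)) (fun _ _ => (hv _).1)
      fun _ _ => (hv _).2.trans (by linarith)).trans (le_of_eq ?_)
    rw [prod_const, card_univ, Fintype.card_fin]; ring
  have hE : Real.exp (-(N / 2)) ≤ 2 ^ 54 * (Nat.factorial 54 : ℝ) / (N : ℝ) ^ 54 := by
    have := Real.pow_div_factorial_le_exp ((N : ℝ) / 2) (by positivity) 54
    rw [Real.exp_neg, ← one_div, div_le_div_iff₀ (Real.exp_pos _) (by positivity)]
    rw [div_le_iff₀ (by positivity), div_pow, div_le_iff₀ (by positivity)] at this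
    linarith
  refine Real.tsum_le_of_sum_le (fun k => by
    dsimp only; split_ifs; exacts [le_rfl, mb_nonneg _ _ _ _]) fun K => ?_
  calc _ ≤ ∑ k ∈ K, Real.exp (-(N / 2)) * mb (2 * r) b k θ := sum_le_sum fun k _ => by
        split_ifs with hk
        · exact mul_nonneg (Real.exp_pos _).le (mb_nonneg _ _ _ _)
        · exact far hN hH hb h0 h1 hr hr2 hk
    _ ≤ 2 ^ 54 * (Nat.factorial 54 : ℝ) / (N : ℝ) ^ 54 * (81 * (N : ℝ) ^ 4) := by
        rw [← mul_sum]
        exact mul_le_mul hE ((sum_mb hr' hc b K θ).trans hJ)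
          (sum_nonneg fun _ _ => mb_nonneg _ _ _ _) (by positivity)
    _ = _ := by field_simp

end Pool.Agent.P.MP_0ad054_nt.PS
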