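import Pool.Agent.P.MP_0ad054_nt.PS.St

/-! The complete sum in twelve variables and its multiplicativity. -/

namespace Pool.Agent.P.MP_0ad054_nt.PS

open Finset Pool.Agent.Lib.H9 Pool.Agent.P.MP_0ad054_nt.Sun Pool.Agent.P.MP_0ad054_nt.Sun.SphereP
  Pool.Agent.P.MP_0ad054_nt.Clu
open scoped Real ComplexConjugate

namespace MULP

lemma ex_eq {q : ℕ} [NeZero q] (a : ℤ) : ex q a = ZMod.stdAddChar (a : ZMod q) := by
  rw [← ee_div_eq_stdAddChar, ex, e, ee]; push_cast; rfl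

/-- the quadratic part over any ring -/
def QF {R : Type} [CommRing R] (b b' : V) (x x' w : Fin 4 → R) : R :=
  ∑ j, (cz j : R) * x j ^ 2 - ∑ j, (cz j : R) * x' j ^ 2 + w 0 * ∑ j, (b j : R) * x j -
    w 1 * ∑ j, (b' j : R) * x' j +
    w 2 * (∑ j, (cz j : R) * b j * x j - ∑ j, (cz j : R) * b' j * x' j) + (ka b b' : R) * w 3 ^ 2

/-- the linear part over any ring -/
def LF {R : Type} [CommRing R] (k k' : V) (s : ℤ) (x x' w : Fin 4 → R) : R :=
  ∑ j, (k j : R) * x j - ∑ j, (k' j : R) * x' j + (s : R) * w 3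

lemma cast_eq {R : Type} [CommRing R] (b b' k k' x x' w : V) (r s : ℤ) :
    ((r * F12 b b' x x' w + (dot k x - dot k' x' + s * w 3) : ℤ) : R) =
      (r : R) * QF b b' (fun j => (x j : R)) (fun j => (x' j : R)) (fun j => (w j : R)) +
        LF k k' s (fun j => (x j : R)) (fun j => (x' j : R)) (fun j => (w j : R)) := by
  simp only [F12, QF, LF, Q2, dot, QB, Fin.sum_univ_four]
  simp [cz]

lemma map_eq {R T : Type} [CommRing R] [CommRing T] (f : R →+* T) (b b' k k' : V) (s : ℤ) (ρ : R)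
    (x x' w : Fin 4 → R) : f (ρ * QF b b' x x' w + LF k k' s x x' w) =
      f ρ * QF b b' (fun j => f (x j)) (fun j => f (x' j)) (fun j => f (w j)) +
        LF k k' s (fun j => f (x j)) (fun j => f (x' j)) (fun j => f (w j)) := by
  simp [QF, LF]

/-- the sum in twelve variables over a finite ring -/
noncomputable def J {R : Type} [CommRing R] [Fintype R] (b b' k k' : V) (s : ℤ) (ψ : R → ℂ)
    (ρ : R) : ℂ :=
  ∑ x : Fin 4 → R, ∑ x' : Fin 4 → R, ∑ w : Fin 4 → R, ψ (ρ * QF b b' x x' w + LF k k' s x x' w)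

open Classical in
/-- the sum over the units -/
noncomputable def S {R : Type} [CommRing R] [Fintype R] (b b' k k' : V) (s : ℤ) (ψ : R → ℂ) : ℂ :=
  ∑ ρ : R, if IsUnit ρ then J b b' k k' s ψ ρ else 0

lemma I12_eq (q : ℕ) [NeZero q] (b b' k k' : V) (r s : ℤ) :
    I12 q b b' r k k' s = J b b' k k' s (fun y : ZMod q => ZMod.stdAddChar y) r := by
  unfold I12 J
  rw [← sum_res_eq_sum_zmod]
  refine sum_congr rfl fun x _ => ?_
  rw [← sum_res_eq_sum_zmod]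
  refine sum_congr rfl fun x' _ => ?_
  rw [← sum_res_eq_sum_zmod]
  refine sum_congr rfl fun w _ => ?_
  rw [ex_eq, cast_eq]

lemma SS_eq (hID : S_ID) (q : ℕ) [NeZero q] (b b' k k' : V) (s : ℤ) :
    SS q b b' k k' s = S b b' k k' s (fun y : ZMod q => ZMod.stdAddChar y) := by
  unfold SS S un
  rw [← sum_Ico_eq_sum_zmod, sum_filter]
  refine sum_congr rfl fun r _ => ?_
  have h : Int.gcd r q = 1 ↔ IsUnit (r : ZMod q) := by
    rw [ZMod.coe_int_isUnit_iff_isCoprime, isCoprime_comm, Int.isCoprime_iff_gcd_eq_one]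
  by_cases hr : Int.gcd r q = 1
  · rw [if_pos hr, if_pos (h.1 hr), hID q b b' k k' r s (NeZero.pos q)
      (Int.isCoprime_iff_gcd_eq_one.2 hr), I12_eq]
  · rw [if_neg hr, if_neg fun e => hr (h.2 e)]

lemma scale {R : Type} [CommRing R] [Fintype R] (b b' k k' : V) (s : ℤ) (ψ : R → ℂ) (u : Rˣ) :
    S b b' k k' s (fun y => ψ (u * y)) = S b b' k k' s ψ := by
  let E : (Fin 4 → R) ≃ (Fin 4 → R) := Equiv.piCongrRight fun _ => u.mulLeft
  have h : ∀ ρ : R, J b b' k k' s ψ ρ = J b b' k k' s (fun y => ψ (u * y)) (ρ * u) := fun ρ => by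
    unfold J
    refine (Fintype.sum_equiv E _ _ fun x => Fintype.sum_equiv E _ _ fun x' =>
      Fintype.sum_equiv E _ _ fun w => congrArg ψ ?_).symm
    simp only [QF, LF, E, Fin.sum_univ_four, Equiv.piCongrRight_apply, Pi.map_apply,
      Units.mulLeft_apply]
    ring
  unfold S
  refine (Fintype.sum_equiv u.mulRight _ _ fun ρ => ?_).symm
  rw [Units.mulRight_apply, h ρ]
  by_cases h1 : IsUnit ρ
  · rw [if_pos h1, if_pos ((Units.isUnit_mul_units ρ u).2 h1)]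
  · rw [if_neg h1, if_neg fun e => h1 ((Units.isUnit_mul_units ρ u).1 e)]

lemma split {X X₁ X₂ : Type} [Fintype X] [Fintype X₁] [Fintype X₂] (E : X ≃ X₁ × X₂) (f : X → ℂ)
    (f₁ : X₁ → ℂ) (f₂ : X₂ → ℂ) (h : ∀ x, f x = f₁ (E x).1 * f₂ (E x).2) :
    ∑ x, f x = (∑ x, f₁ x) * ∑ x, f₂ x := by
  rw [sum_mul_sum, ← Fintype.sum_prod_type']
  exact Fintype.sum_equiv E _ _ h

lemma prod {R R₁ R₂ : Type} [CommRing R] [CommRing R₁] [CommRing R₂] [Fintype R] [Fintype R₁]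
    [Fintype R₂] (c : R ≃+* R₁ × R₂) (b b' k k' : V) (s : ℤ) (ψ : R → ℂ) (ψ₁ : R₁ → ℂ)
    (ψ₂ : R₂ → ℂ) (h : ∀ y, ψ y = ψ₁ (c y).1 * ψ₂ (c y).2) :
    S b b' k k' s ψ = S b b' k k' s ψ₁ * S b b' k k' s ψ₂ := by
  let E : (Fin 4 → R) ≃ (Fin 4 → R₁) × (Fin 4 → R₂) :=
    (Equiv.piCongrRight fun _ => c.toEquiv).trans (Equiv.arrowProdEquivProdArrow _ _ _)
  have hJ : ∀ ρ, J b b' k k' s ψ ρ = J b b' k k' s ψ₁ (c ρ).1 * J b b' k k' s ψ₂ (c ρ).2 :=
    fun ρ => split E _ _ _ fun x => split E _ _ _ fun x' => split E _ _ _ fun w => by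
      rw [h]
      exact congrArg₂ (· * ·)
        (congrArg ψ₁ (map_eq ((RingHom.fst R₁ R₂).comp c.toRingHom) b b' k k' s ρ x x' w))
        (congrArg ψ₂ (map_eq ((RingHom.snd R₁ R₂).comp c.toRingHom) b b' k k' s ρ x x' w))
  refine split c.toEquiv _ _ _ fun ρ => ?_
  have hu : IsUnit ρ ↔ IsUnit (c ρ).1 ∧ IsUnit (c ρ).2 := by
    rw [← Prod.isUnit_iff]; exact (MulEquiv.isUnit_map c).symm
  rw [show c.toEquiv ρ = c ρ from rfl]
  by_cases h1 : IsUnit (c ρ).1 <;> by_cases h2 : IsUnit (c ρ).2 <;> simp [hu, h1, h2, hJ]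

lemma inner {R : Type} [CommRing R] [Fintype R] (ψ : AddChar R ℂ) (u : Rˣ)
    (κ s c c' a a' d d' l l' : R) :
    (∑ t, ψ (u * κ * t ^ 2 + s * t)) * ∑ n, (∑ n₁, ψ (u * c + n₁ * a + n * d + l)) *
      conj (∑ n₂, ψ (u * c' + n₂ * a' + n * d' + l')) =
    ∑ w : Fin 4 → R, ψ (u * (c - c' + w 0 * a - w 1 * a' + w 2 * (d - d') + κ * w 3 ^ 2) +
      (l - l' + s * w 3)) := by
  let E : (Fin 4 → R) ≃ R × R × R × R :=
    { toFun := fun w => (w 3, u * w 2, u * w 0, u * w 1)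
      invFun := fun p => ![u⁻¹ * p.2.2.1, u⁻¹ * p.2.2.2, u⁻¹ * p.2.1, p.1]
      left_inv := fun w => by funext j; fin_cases j <;> simp
      right_inv := fun p => by simp }
  rw [Fintype.sum_equiv E _ (fun p => ψ (u * κ * p.1 ^ 2 + s * p.1) *
    (ψ (u * c + p.2.2.1 * a + p.2.1 * d + l) * conj (ψ (u * c' + p.2.2.2 * a' + p.2.1 * d' + l'))))
    fun w => ?_]
  · simp only [Fintype.sum_prod_type, map_sum, sum_mul_sum]
    simp only [mul_sum]
  · rw [← AddChar.map_neg_eq_conj, ← AddChar.map_add_eq_mul, ← AddChar.map_add_eq_mul]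
    congr 1
    simp only [E, Equiv.coe_fn_mk]
    ring

end MULP

open MULP in
theorem pID : S_ID := by
  intro q b b' k k' r s hq hr
  have : NeZero q := ⟨by omega⟩
  obtain ⟨u, hu⟩ := (ZMod.coe_int_isUnit_iff_isCoprime r q).2 hr.symm
  have e1 : ∀ (b k : V) (n : ℤ), GB q b r n k = ∑ x ∈ res q, ∑ n₁ ∈ Ico (0 : ℤ) q,
      ex q (r * Q2 x + n₁ * dot b x + n * QB b x + dot k x) := fun b k n => sum_comm
  have e2 : G11 q b b' r k k' = ∑ x ∈ res q, ∑ x' ∈ res q, ∑ n ∈ Ico (0 : ℤ) q,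
      (∑ n₁ ∈ Ico (0 : ℤ) q, ex q (r * Q2 x + n₁ * dot b x + n * QB b x + dot k x)) *
        conj (∑ n₂ ∈ Ico (0 : ℤ) q, ex q (r * Q2 x' + n₂ * dot b' x' + n * QB b' x' + dot k' x')) := by
    unfold G11
    simp only [e1]
    rw [sum_congr rfl fun n _ => by rw [map_sum, sum_mul_sum], sum_comm]
    exact sum_congr rfl fun x _ => sum_comm
  rw [e2, I12, mul_sum]
  refine sum_congr rfl fun x _ => ?_
  rw [mul_sum]
  refine sum_congr rfl fun x' _ => ?_
  have K := inner (ZMod.stdAddChar (N := q)) u (ka b b' : ℤ) s (Q2 x : ℤ) (Q2 x' : ℤ) (dot b x : ℤ)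
    (dot b' x' : ℤ) (QB b x : ℤ) (QB b' x' : ℤ) (dot k x : ℤ) (dot k' x' : ℤ)
  simp only [← sum_Ico_eq_sum_zmod] at K
  rw [← sum_res_eq_sum_zmod, hu] at K
  simp only [G1, F12, ex_eq]
  push_cast
  exact K

open MULP in
theorem pMUL (hID : S_ID) : S_MUL := by
  intro q1 q2 b b' k k' s h1 h2 hc
  have : NeZero q1 := ⟨by omega⟩
  have : NeZero q2 := ⟨by omega⟩
  obtain ⟨A, B, hAB⟩ := Nat.isCoprime_iff_coprime.2 hc
  have u1 : (B : ZMod q1) * (q2 : ℕ) = 1 := by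
    have := congrArg (Int.cast : ℤ → ZMod q1) hAB
    simpa using this
  have u2 : (A : ZMod q2) * (q1 : ℕ) = 1 := by
    have := congrArg (Int.cast : ℤ → ZMod q2) hAB
    simpa using this
  rw [SS_eq hID, SS_eq hID, SS_eq hID, ← scale b b' k k' s _ (Units.mkOfMulEqOne _ _ u1),
    ← scale b b' k k' s _ (Units.mkOfMulEqOne _ _ u2)]
  refine prod (ZMod.chineseRemainder hc) b b' k k' s _ _ _ fun y => ?_
  obtain ⟨a, rfl⟩ := ZMod.intCast_surjective y
  simp only [map_intCast, Prod.fst_intCast, Prod.snd_intCast, Units.val_mkOfMulEqOne,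
    ← Int.cast_mul, ← ex_eq]
  rw [ex, ex, ex, ← e_add]
  congr 1
  have p1 : (q1 : ℝ) ≠ 0 := by exact_mod_cast NeZero.ne q1
  have p2 : (q2 : ℝ) ≠ 0 := by exact_mod_cast NeZero.ne q2
  have h : (A : ℝ) * q1 + B * q2 = 1 := by exact_mod_cast hAB
  push_cast
  field_simp
  linear_combination (-(a : ℝ)) * h

end Pool.Agent.P.MP_0ad054_nt.PS
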