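import Pool.Agent.P.MP_0ad054_nt.PS.StT
import Pool.Agent.P.MP_0ad054_nt.Clu.Om

/-! The model of Chen's weights has a large sum in a residue class. -/

namespace Pool.Agent.P.MP_0ad054_nt.PS

open Finset Pool.Agent.Lib.H9 Pool.Agent.P.MP_0ad054_nt.Sun Pool.Agent.P.MP_0ad054_nt.Sun.SphereP
  Pool.Agent.P.MP_0ad054_nt.Clu

namespace Md0P

/-- the sieve weight along the class -/
noncomputable def F (W : ℕ) (a : ℤ) (l : ℕ) (d : ℤ) : ℝ :=
  if (l : ℤ) ∣ (a + W * d) * (a + W * d - 2) then 1 else 0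

/-- its local density -/
noncomputable def g (W : ℕ) (a : ℤ) (l : ℕ) : ℝ :=
  (∑ d ∈ Ico (0 : ℤ) ((l : ℤ) ^ 1), F W a l d) / (l : ℝ) ^ 1

theorem one_root {l W : ℕ} (hl : l.Prime) (h : ¬ l ∣ W) (c : ℤ) :
    ((Ico (0 : ℤ) l).filter fun d => (l : ℤ) ∣ c + W * d).card ≤ 1 := by
  refine card_le_one.2 fun d hd d' hd' => ?_
  obtain ⟨h1, h2⟩ := mem_filter.1 hd
  obtain ⟨h3, h4⟩ := mem_filter.1 hd'
  rw [mem_Ico] at h1 h3
  have h5 : (l : ℤ) ∣ W * (d - d') := by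
    have := dvd_sub h2 h4
    rwa [show c + W * d - (c + W * d') = W * (d - d') by ring] at this
  have h6 := ((Nat.prime_iff_prime_int.1 hl).dvd_or_dvd h5).resolve_left
    fun e => h (Int.natCast_dvd_natCast.1 e)
  exact sub_eq_zero.1 (Int.eq_zero_of_abs_lt_dvd h6 (abs_lt.2 ⟨by omega, by omega⟩))

theorem g_bd {W l : ℕ} {a : ℤ} (h2 : 2 ∣ W) (ha : IsCoprime (a * (a - 2)) W) (hl : l.Prime) :
    0 ≤ g W a l ∧ (1 - 1 / (l : ℝ)) ^ 3 ≤ 1 - g W a l := by
  have hl2 : (2 : ℝ) ≤ l := by exact_mod_cast hl.two_le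
  have hx : 0 < 1 / (l : ℝ) := by positivity
  refine ⟨div_nonneg (sum_nonneg fun d _ => by unfold F; positivity) (by positivity), ?_⟩
  by_cases h : l ∣ W
  · have : g W a l = 0 := by
      refine div_eq_zero_iff.2 (Or.inl (sum_eq_zero fun d _ => if_neg fun e => ?_))
      obtain ⟨w, hw⟩ := Int.natCast_dvd_natCast.2 h
      have h1 : (l : ℤ) ∣ a * (a - 2) := by
        have := dvd_sub e (Dvd.intro (w * d * (2 * a + W * d - 2)) rfl)
        rwa [show (a + W * d) * (a + W * d - 2) - l * (w * d * (2 * a + W * d - 2)) =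
          a * (a - 2) by rw [← mul_assoc, ← mul_assoc, ← hw]; ring] at this
      exact (Nat.prime_iff_prime_int.1 hl).not_isUnit (ha.isUnit_of_dvd' h1 ⟨w, hw⟩)
    rw [this, sub_zero]
    have : 1 / (l : ℝ) ≤ 1 := by rw [div_le_one (by linarith)]; linarith
    exact pow_le_one₀ (by linarith) (by linarith)
  · have hl3 : (3 : ℝ) ≤ l := by
      have : l ≠ 2 := fun e => h (e ▸ h2)
      exact_mod_cast (by have := hl.two_le; omega : 3 ≤ l)
    have h1 : ∑ d ∈ Ico (0 : ℤ) ((l : ℤ) ^ 1), F W a l d ≤ 2 := by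
      rw [pow_one]
      unfold F
      rw [sum_boole]
      have : ((Ico (0 : ℤ) l).filter fun d => (l : ℤ) ∣ (a + W * d) * (a + W * d - 2)).card ≤ 2 :=
        (card_le_card (t := (Ico (0 : ℤ) l).filter (fun d => (l : ℤ) ∣ a + W * d) ∪
          (Ico (0 : ℤ) l).filter fun d => (l : ℤ) ∣ a - 2 + W * d) fun d hd => by
            obtain ⟨b1, b2⟩ := mem_filter.1 hd
            rw [mem_union, mem_filter, mem_filter, show a - 2 + W * d = a + W * d - 2 by ring]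
            exact ((Nat.prime_iff_prime_int.1 hl).dvd_or_dvd b2).imp (⟨b1, ·⟩) (⟨b1, ·⟩)).trans
          ((card_union_le _ _).trans (add_le_add (one_root hl h _) (one_root hl h _)))
      exact_mod_cast this
    have h3 : g W a l ≤ 2 * (1 / (l : ℝ)) := by
      rw [g, pow_one (l : ℝ), mul_one_div]
      gcongr
    have h4 : 1 / (l : ℝ) ≤ 1 / 3 := by gcongr
    nlinarith [mul_nonneg hx.le (sub_nonneg.2 h4), mul_pos hx (mul_pos hx hx)]

theorem reix {W : ℕ} (hW : 0 < W) (N : ℕ) (a : ℤ) (T : Finset ℕ) :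
    ∑ m ∈ (Ioc (2 * N) (3 * N)).filter (fun m : ℕ => (W : ℤ) ∣ m - a), ∏ l ∈ T, w0 m l =
      ∑ d ∈ Ico ((2 * N - a) / W + 1) ((3 * N - a) / W + 1), ∏ l ∈ T, F W a l d := by
  have hW' : (0 : ℤ) < W := by exact_mod_cast hW
  have key : ∀ d : ℤ, d ∈ Ico ((2 * N - a) / W + 1) ((3 * N - a) / W + 1) ↔
      2 * N < a + W * d ∧ a + W * d ≤ 3 * N := fun d => by
    rw [mem_Ico, Int.add_one_le_iff, Int.lt_add_one_iff, Int.ediv_lt_iff_lt_mul hW',
      Int.le_ediv_iff_mul_le hW', mul_comm d]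
    omega
  symm
  refine sum_bij (fun d _ => (a + W * d).toNat) (fun d hd => ?_) (fun d hd d' hd' e => ?_)
    (fun m hm => ?_) fun d hd => ?_
  · have := (key d).1 hd
    rw [mem_filter, mem_Ioc, Int.toNat_of_nonneg (by omega), add_sub_cancel_left]
    exact ⟨by omega, dvd_mul_right _ _⟩
  · have := (key d).1 hd
    have := (key d').1 hd'
    exact mul_left_cancel₀ hW'.ne' (by omega)
  · obtain ⟨h1, d, hd⟩ := mem_filter.1 hm
    rw [mem_Ioc] at h1
    exact ⟨d, (key d).2 (by omega), by omega⟩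
  · have := (key d).1 hd
    refine prod_congr rfl fun l _ => if_congr ?_ rfl rfl
    rw [← Int.natCast_dvd_natCast, Nat.cast_mul, Nat.cast_sub (by omega),
      Int.toNat_of_nonneg (by omega), Nat.cast_ofNat]

theorem card_ge {W : ℕ} (hW : 0 < W) (N : ℕ) (a : ℤ) : (N : ℝ) / W - 1 ≤
    ((Ico ((2 * N - a) / W + 1) ((3 * N - a) / W + 1)).card : ℝ) := by
  have hW' : (0 : ℤ) < W := by exact_mod_cast hW
  have h1 := Int.ediv_mul_le (2 * N - a) hW'.ne'
  have h2 := Int.lt_ediv_add_one_mul_self (3 * N - a) hW'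
  have h3 := Int.self_le_toNat ((3 * N - a) / W + 1 - ((2 * N - a) / W + 1))
  rw [Int.card_Ico, sub_le_iff_le_add, div_le_iff₀ (by exact_mod_cast hW)]
  have : (N : ℤ) ≤ ((((3 * N - a) / W + 1 - ((2 * N - a) / W + 1)).toNat : ℤ) + 1) * W := by
    nlinarith
  exact_mod_cast this

end Md0P

open Md0P in
theorem pMd0 (hPerV : S_PerV) : S_Md0 := by
  intro W hW h2
  refine ⟨((Real.exp 16 * 2 ^ 8) ^ 2)⁻¹ / W, 16, by positivity, fun N l k a hl ha => ?_⟩
  have hW1 : (1 : ℝ) ≤ W := by exact_mod_cast hW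
  have hl1 : (1 : ℝ) ≤ l := by exact_mod_cast hl
  obtain ⟨y, hy⟩ : ∃ y : ℕ, y = 2 ^ l := ⟨_, rfl⟩
  have hy2 : 2 ≤ y := hy ▸ Nat.le_self_pow (by omega) 2
  have hyR : (2 : ℝ) ^ l = y := by rw [hy]; simp
  have hy2' : (2 : ℝ) ≤ y := by exact_mod_cast hy2
  rw [← hy, hyR]
  set I := Ico ((2 * N - a) / W + 1) ((3 * N - a) / W + 1) with hI
  have hp : ∀ p ∈ Nat.primesLE y, p ≤ y ∧ p.Prime := fun p h => Nat.mem_primesLE.1 h
  have hc1 := one_le_cW y
  have hq : ∀ p ∈ Nat.primesLE y, 0 ≤ 1 - 1 / (p : ℝ) := fun p h => by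
    have : (2 : ℝ) ≤ p := by exact_mod_cast (hp p h).2.two_le
    rw [sub_nonneg, div_le_one (by linarith)]; linarith
  have hV : ((cW y)⁻¹) ^ 3 ≤ sform (Nat.primesLE y) (cY (2 * k + 1)) (g W a) := by
    refine le_trans ?_ (prod_le_sform_cY _ _ (fun p h => ⟨(g_bd h2 ha (hp p h).2).1, by
      linarith [(g_bd h2 ha (hp p h).2).2, pow_nonneg (hq p h) 3]⟩) k)
    rw [cW, prod_inv_distrib, inv_inv, ← prod_pow]
    exact prod_le_prod (fun p h => pow_nonneg (hq p h) 3) fun p h => (g_bd h2 ha (hp p h).2).2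
  have hE : ∀ T ∈ (Nat.primesLE y).powerset,
      (I.card : ℝ) * (cY (2 * k + 1) T.card * ∏ p ∈ T, g W a p) -
        (if T.card ≤ 2 * k then 2 * (y : ℝ) ^ (2 * k) else 0) ≤
      cY (2 * k + 1) T.card * ∑ d ∈ I, ∏ p ∈ T, F W a p d := fun T hT => by
    have hT' := mem_powerset.1 hT
    have h := hPerV T (fun _ => 1) (F W a) (fun _ => 1) ((2 * N - a) / W + 1) ((3 * N - a) / W + 1)
      (fun p h => (hp p (hT' h)).2) (fun p _ d d' e => by
        obtain ⟨t, ht⟩ := e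
        rw [pow_one, sub_eq_iff_eq_add] at ht
        refine if_congr ?_ rfl rfl
        rw [ht, show (a + W * (p * t + d')) * (a + W * (p * t + d') - 2) =
          (a + W * d') * (a + W * d' - 2) + p * (W * t * (2 * a + 2 * W * d' + W * p * t - 2)) by
            ring]
        exact dvd_add_left (dvd_mul_right _ _))
      fun p _ d => by unfold F; split_ifs <;> simp
    rw [prod_const_one, mul_one] at h
    unfold cY
    by_cases hc : T.card ≤ 2 * k
    · have h3 : ∏ p ∈ T, (p : ℝ) ^ 1 ≤ (y : ℝ) ^ (2 * k) :=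
        (prod_le_prod (g := fun _ => (y : ℝ)) (fun p _ => by positivity) fun p h => by
          rw [pow_one]; exact_mod_cast (hp p (hT' h)).1).trans
          ((prod_const _).trans_le (pow_le_pow_right₀ (by linarith) hc))
      have h4 := abs_le.1 h
      rw [if_pos (Nat.lt_succ_of_le hc), if_pos hc]
      unfold g
      rcases neg_one_pow_eq_or ℝ T.card with e | e <;> rw [e] <;> linarith [h4.1, h4.2]
    · rw [if_neg fun e => hc (Nat.le_of_lt_succ e), if_neg hc]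
      simp
  have hS : (I.card : ℝ) * ((cW y)⁻¹) ^ 3 - 2 * (y : ℝ) ^ (4 * k) ≤
      ∑ m ∈ (Ioc (2 * N) (3 * N)).filter (fun m : ℕ => (W : ℤ) ∣ m - a), Yf y k (w0 m) := by
    have h1 := sum_le_sum hE
    rw [sum_sub_distrib, ← mul_sum, ← sum_filter, sum_const, nsmul_eq_mul] at h1
    have h3 : (((Nat.primesLE y).powerset.filter fun T => T.card ≤ 2 * k).card : ℝ) ≤
        (y : ℝ) ^ (2 * k) := by exact_mod_cast OmP.card_sub y (2 * k) (by omega)
    have h4 := mul_le_mul_of_nonneg_right h3 (show 0 ≤ 2 * (y : ℝ) ^ (2 * k) by positivity)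
    have h5 := mul_le_mul_of_nonneg_left hV (Nat.cast_nonneg (α := ℝ) I.card)
    unfold Yf sform at *
    rw [sum_comm]
    simp only [← mul_sum, reix hW]
    rw [show 4 * k = 2 * k + 2 * k by ring, pow_add]
    linarith
  have h1 : cW y ≤ Real.exp 16 * 2 ^ 8 * l ^ 8 := by
    refine (cW_le_log hy2).trans ?_
    have : Real.log y ≤ l := by
      rw [← hyR, Real.log_pow]
      nlinarith [Real.log_two_lt_d9]
    have h0 := Real.log_natCast_nonneg y
    rw [mul_assoc, ← mul_pow]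
    gcongr
    linarith
  have h3 : ((Real.exp 16 * 2 ^ 8) ^ 2)⁻¹ / l ^ 16 ≤ ((cW y)⁻¹) ^ 2 := by
    rw [inv_pow, div_eq_mul_inv, ← mul_inv, show (l : ℝ) ^ 16 = (l ^ 8) ^ 2 by ring, ← mul_pow]
    gcongr
  have h4 : ((cW y)⁻¹) ^ 2 ≤ 1 := pow_le_one₀ (by positivity) (inv_le_one_of_one_le₀ hc1)
  have h5 := mul_le_mul_of_nonneg_right (card_ge hW N a) (sq_nonneg (cW y)⁻¹)
  have h6 := mul_le_mul_of_nonneg_left h3 (show 0 ≤ (N : ℝ) / W by positivity)
  have h7 := mul_le_mul_of_nonneg_left hS (by linarith : 0 ≤ cW y)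
  have h8 : cW y * (2 * (y : ℝ) ^ (4 * k)) + 1 ≤ 2 * W * (y : ℝ) ^ (4 * k + 2) := by
    have a1 := cW_le_self (y := y) (by omega)
    have a2 : 1 ≤ (y : ℝ) ^ (4 * k) := one_le_pow₀ (by linarith)
    have a3 : cW y * (2 * (y : ℝ) ^ (4 * k)) ≤ y * (2 * (y : ℝ) ^ (4 * k)) := by gcongr
    have a4 : 2 * 1 * ((y : ℝ) ^ (4 * k) * (2 * y)) ≤ 2 * W * (y : ℝ) ^ (4 * k + 2) := by
      rw [pow_add, sq]
      gcongr
    nlinarith
  have e1 : cW y * ((I.card : ℝ) * ((cW y)⁻¹) ^ 3) = I.card * ((cW y)⁻¹) ^ 2 := by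
    field_simp
  have e2 : ((Real.exp 16 * 2 ^ 8) ^ 2)⁻¹ / W * N / (l : ℝ) ^ 16 =
      N / W * (((Real.exp 16 * 2 ^ 8) ^ 2)⁻¹ / l ^ 16) := by ring
  simp only [Chen.md0, ← mul_sum]
  rw [mul_sub, e1] at h7
  rw [e2]
  linarith

end Pool.Agent.P.MP_0ad054_nt.PS
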