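import Pool.Agent.P.MP_0ad054_nt.PS.StT
import Pool.Agent.P.MP_0ad054_nt.Clu.CoreA
import Pool.Agent.P.MP_0ad054_nt.Clu.Big
import Pool.Agent.P.MP_0ad054_nt.Clu.Cusp
import Pool.Agent.P.MP_0ad054_nt.Clu.Fib
import Pool.Agent.P.MP_0ad054_nt.Clu.Gauss
import Pool.Agent.P.MP_0ad054_nt.Clu.Low
import Pool.Agent.P.MP_0ad054_nt.Clu.Odd
import Pool.Agent.P.MP_0ad054_nt.Clu.Om
import Pool.Agent.P.MP_0ad054_nt.Clu.Prod
import Pool.Agent.P.MP_0ad054_nt.Clu.Sing
import Pool.Agent.P.MP_0ad054_nt.Clu.Small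
import Pool.Agent.P.MP_0ad054_nt.Clu.Sq
import Pool.Agent.P.MP_0ad054_nt.Clu.Theta
import Pool.Agent.P.MP_0ad054_nt.Clu.Two
import Pool.Agent.P.MP_0ad054_nt.Clu.Win

/-! The model on the spheres: lower bound at primitive points, transference, local means. -/

namespace Pool.Agent.P.MP_0ad054_nt.PS

open Finset Pool.Agent.Lib.H9 Pool.Agent.P.MP_0ad054_nt.Sun Pool.Agent.P.MP_0ad054_nt.Sun.SphereP
  Pool.Agent.P.MP_0ad054_nt.Clu
open Pool.Agent.P.MP_0ad054_nt.Sun.FinP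

open Classical in
theorem pLowP : S_LowP := by
  have h1 := pOm
  have h2 := pProd pCusp
  have h3 := pBig (pFib pSq) (pSing pSq) pGauss
  have h4 := pSmall (pTwo pSq) (pOdd (pFib pSq))
  obtain ⟨W, c0, hW, hW2, hc0, hc1, hS⟩ := h4 2000
  obtain ⟨l0, hl0⟩ := LowP.grow 2001 8000 (Real.exp 16000) (Real.one_le_exp (by norm_num))
  refine ⟨W, c0 ^ 2001 / Real.exp 16000, 8000, l0 + 6, hW, hW2, by positivity, fun n0 hn0 => ?_⟩
  obtain ⟨a, ha, hrho⟩ := hS n0 hn0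
  refine ⟨a, ha, fun l n t v hl hWn hWt ht hlt hv hc => ?_⟩
  have hP : ∀ p ∈ Nat.primesLE (2 ^ l), p.Prime := fun p hp => (Nat.mem_primesLE.1 hp).2
  have hbig : ∀ p ∈ Nat.primesLE (2 ^ l), ¬ p ≤ 2000 → |rho p l n t - 1| ≤ 1000 / p := by
    intro p hp h
    refine h3 p l n t (hP p hp) (by omega) (by omega) fun hpt => ?_
    have := (Nat.prime_dvd_prime_iff_eq (hP p hp) ht).1 (by exact_mod_cast hpt)
    have := (Nat.mem_primesLE.1 hp).1
    omega
  have hE := LowP.exp_sum (l := l) (by omega)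
  have hlpos : (0 : ℝ) < l := by exact_mod_cast (by omega : 0 < l)
  have hpr : ∀ p ∈ Nat.primesLE (2 ^ l), pr p v := fun p hp h =>
    (hP p hp).one_lt.ne' (Nat.dvd_one.1 (hc ▸ dvd_cont.2 h))
  have hA : c0 ^ 2001 / Real.exp 16000 / (l : ℝ) ^ 8000 ≤
      ∏ p ∈ Nat.primesLE (2 ^ l), (1 + aa p l t v) := by
    obtain ⟨m, hm, e⟩ := LowP.prod_small (Nat.primesLE (2 ^ l)) c0
    calc c0 ^ 2001 / Real.exp 16000 / (l : ℝ) ^ 8000
        = c0 ^ 2001 * (Real.exp 16000 * (l : ℝ) ^ 8000)⁻¹ := by rw [div_div, div_eq_mul_inv]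
      _ ≤ c0 ^ m * (∏ p ∈ Nat.primesLE (2 ^ l), Real.exp (2000 / p))⁻¹ :=
          mul_le_mul (pow_le_pow_of_le_one hc0.le hc1 hm)
            (inv_anti₀ (prod_pos fun _ _ => Real.exp_pos _) hE) (by positivity) (by positivity)
      _ = ∏ p ∈ Nat.primesLE (2 ^ l),
            ((if p ≤ 2000 then c0 else 1) * (Real.exp (2000 / p))⁻¹) := by
          rw [prod_mul_distrib, e, prod_inv_distrib]
      _ ≤ _ := by
          refine prod_le_prod (fun p _ => by split_ifs <;> positivity) fun p hp => ?_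
          rw [Clu.aa, if_pos (hpr p hp), hv, add_sub_cancel]
          split_ifs with h
          · refine le_trans ?_ (hrho p l n t (hP p hp) h (by omega) hWn hWt)
            exact mul_le_of_le_one_right hc0.le
              (inv_le_one_of_one_le₀ (Real.one_le_exp (by positivity)))
          · have hp' : (2000 : ℝ) ≤ p := by exact_mod_cast (not_le.1 h).le
            have b1 := LowP.exp_low (x := 1000 / p) (by positivity)
              (by rw [div_le_iff₀ (by linarith)]; linarith)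
            have b2 := (abs_le.1 (hbig p hp h)).1
            rw [show (2 * (1000 / p) : ℝ) = 2000 / p by ring] at b1
            linarith
  have hB : ∏ p ∈ Nat.primesLE (2 ^ l), (1 + 2 * |aa p l t v|) ≤
      (3 * 2000 ^ l : ℝ) ^ 2001 * (Real.exp 16000 * (l : ℝ) ^ 8000) * 3 ^ l := by
    obtain ⟨m, hm, e⟩ := LowP.prod_small (Nat.primesLE (2 ^ l)) (3 * 2000 ^ l)
    have g1 : (1 : ℝ) ≤ 2000 ^ l := one_le_pow₀ (by norm_num)
    calc ∏ p ∈ Nat.primesLE (2 ^ l), (1 + 2 * |aa p l t v|)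
        ≤ ∏ p ∈ Nat.primesLE (2 ^ l), ((if p ≤ 2000 then (3 * 2000 ^ l : ℝ) else 1) *
            Real.exp (2000 / p)) := by
          refine prod_le_prod (fun p _ => by positivity) fun p hp => ?_
          have b0 : (1 : ℝ) ≤ Real.exp (2000 / p) := Real.one_le_exp (by positivity)
          rw [Clu.aa, hv, if_pos (hpr p hp)]
          split_ifs with h
          · have b1 := h2.1 p l n t
            have b2 : (p : ℝ) ^ l ≤ 2000 ^ l := by gcongr; exact_mod_cast h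
            have b3 : |rho p l n t - 1| ≤ 2000 ^ l := abs_le.2 ⟨by linarith, by linarith⟩
            nlinarith
          · have b1 := hbig p hp h
            have b2 := Real.add_one_le_exp (2000 / p : ℝ)
            have b3 : (2000 / p : ℝ) = 2 * (1000 / p) := by ring
            linarith
      _ ≤ _ := by
          rw [prod_mul_distrib, e]
          exact (mul_le_mul (pow_le_pow_right₀ (by linarith) hm) hE
            (prod_nonneg fun _ _ => (Real.exp_pos _).le) (by positivity)).trans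
            (le_mul_of_one_le_right (by positivity) (one_le_pow₀ (by norm_num)))
  have hT := (abs_le.1 (h1.2.2.2.2 (2 ^ l) (l ^ 2) fun p => aa p l t v)).1
  have hC : (∏ p ∈ Nat.primesLE (2 ^ l), (1 + 2 * |aa p l t v|)) / 2 ^ (l ^ 2) ≤
      1 / ((2 : ℝ) ^ l) ^ 2 := by
    rw [div_le_div_iff₀ (by positivity) (by positivity), one_mul]
    exact (mul_le_mul_of_nonneg_right hB (by positivity)).trans (hl0 l (by omega))
  linarith

namespace MdP

theorem card_S {N : ℕ} (hN : 1 ≤ N) {S : Finset ℕ} (h : ∀ t ∈ S, t ≤ 9 * N) :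
    (S.card : ℝ) ≤ 10 * N := by
  have h1 : S.card ≤ (range (9 * N + 1)).card :=
    card_le_card fun t ht => mem_range.2 (by have := h t ht; omega)
  rw [card_range] at h1
  exact_mod_cast (by omega : S.card ≤ 10 * N)

theorem one_le {x : ℝ} {n : ℕ} (hx : 1 ≤ x) (h : x ≤ 2 * n) : 1 ≤ n := by
  have : (1 : ℝ) ≤ 2 * n := hx.trans h
  have : 1 ≤ 2 * n := by exact_mod_cast this
  omega

theorem sum_gam {N : ℕ} {E : Finset ℕ} (hE : ∀ n ∈ E, n ≤ N) (φ : ℤ → ℂ) :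
    ∑ n ∈ Icc (0 : ℤ) N, (gam E n : ℂ) * φ n = ∑ n ∈ E, φ n := by
  simp only [gam]
  push_cast
  simp_rw [sum_mul]
  rw [sum_comm]
  refine sum_congr rfl fun a ha => ?_
  have h1 : ∀ n : ℤ, (((if n = (a : ℤ) then (1 : ℝ) else 0 : ℝ)) : ℂ) * φ n =
      if n = a then φ n else 0 := fun n => by split_ifs <;> simp
  simp_rw [h1]
  rw [sum_ite_eq', if_pos]
  have := hE a ha
  rw [mem_Icc]; omega

theorem num1 {N y w Y r s : ℝ} (hy : 1 ≤ y) (hw : y ^ 6 ≤ w) (hN : w ^ 3 ≤ N) (hY0 : 0 ≤ Y)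
    (hY : Y ≤ y) (hr : N / w ≤ 2 * r) (hr' : r ≤ N / w) (r1 : 1 ≤ r) (hs : s ≤ 10 * N) :
    Y ^ 5 * (4 * r + 4 + s * (2 * Y ^ 4) / r) / N ≤ 48 / y := by
  have w1 : 1 ≤ w := (one_le_pow₀ hy).trans hw
  have N1 : 1 ≤ N := (one_le_pow₀ w1).trans hN
  have a1 : s * (2 * Y ^ 4) / r ≤ 40 * y ^ 4 * w := by
    rw [div_le_iff₀ (by linarith)]
    rw [div_le_iff₀ (by linarith)] at hr
    calc s * (2 * Y ^ 4) ≤ 10 * (2 * r * w) * (2 * y ^ 4) := by gcongr; linarith
      _ = _ := by ring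
  have a2 : y ^ 6 * (N / w) ≤ N := by
    rw [← mul_div_assoc, div_le_iff₀ (by linarith), mul_comm]
    gcongr
  have a3 : y ^ 10 * w ≤ N :=
    calc y ^ 10 * w ≤ y ^ 12 * w := by gcongr; norm_num
      _ = (y ^ 6) ^ 2 * w := by ring
      _ ≤ w ^ 2 * w := by gcongr
      _ = w ^ 3 := by ring
      _ ≤ N := hN
  rw [div_le_div_iff₀ (by linarith) (by linarith)]
  calc Y ^ 5 * (4 * r + 4 + s * (2 * Y ^ 4) / r) * y
      ≤ Y ^ 5 * (8 * (N / w) + 40 * y ^ 4 * w) * y := by gcongr; linarith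
    _ ≤ y ^ 5 * (8 * (N / w) + 40 * y ^ 4 * w) * y := by gcongr
    _ = 8 * (y ^ 6 * (N / w)) + 40 * (y ^ 10 * w) := by ring
    _ ≤ _ := by linarith

theorem num2 {w M r L C C' : ℝ} (hw : 1 ≤ w) (M0 : 0 ≤ M) (hM : M ≤ w ^ 2)
    (hr : w ^ 19999 ≤ 2 * r) (hL : L ≤ C' * w) (hC : 0 < C) (hC' : 0 < C') :
    C * (M ^ 8 * (w ^ 400) ^ 5 * w ^ 10000 + (w ^ 20000) ^ 3 * L / (r ^ 2 * w ^ 400)) ≤
      C * (1 + 4 * C') * w ^ 19603 := by
  have w0 : 0 < w := by linarith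
  have a1 : M ^ 8 * (w ^ 400) ^ 5 * w ^ 10000 ≤ w ^ 19603 :=
    calc _ ≤ (w ^ 2) ^ 8 * (w ^ 400) ^ 5 * w ^ 10000 := by gcongr
      _ = w ^ 12016 := by ring
      _ ≤ _ := pow_le_pow_right₀ hw (by norm_num)
  have r1 : w ^ 19999 / 2 ≤ r := by linarith
  have a2 : (w ^ 20000) ^ 3 * L / (r ^ 2 * w ^ 400) ≤ 4 * C' * w ^ 19603 :=
    calc _ ≤ (w ^ 20000) ^ 3 * (C' * w) / (r ^ 2 * w ^ 400) :=
          div_le_div_of_nonneg_right (mul_le_mul_of_nonneg_left hL (by positivity)) (by positivity)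
      _ ≤ (w ^ 20000) ^ 3 * (C' * w) / ((w ^ 19999 / 2) ^ 2 * w ^ 400) := by gcongr
      _ = _ := by field_simp; ring
  rw [mul_assoc C, add_mul 1, one_mul]
  exact mul_le_mul_of_nonneg_left (add_le_add a1 a2) hC.le

theorem rp {N : ℝ} (hN : 0 < N) (a : ℝ) (k : ℕ) : (N ^ a) ^ k = N ^ (a * k) := by
  rw [← Real.rpow_natCast, ← Real.rpow_mul hN.le]

end MdP

open MdP CoreP in
theorem pMod (hTR3 : S_TR3) (hAPV : S_APV) (hL2V : S_L2V) (_hXX : S_XX) : S_Mod := by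
  classical
  obtain ⟨c2, hc2, C, hC, hT⟩ := hTR3
  refine ⟨min (16 * c2) (1 / 120000), by positivity, fun η h0 hη => ⟨78 * C, by positivity, ?_⟩⟩
  intro N Y r S E hN y1 y2 r1 r2 hS hE
  have e1 : η ≤ 16 * c2 := hη.trans (min_le_left _ _)
  have e2 : η ≤ 1 / 120000 := hη.trans (min_le_right _ _)
  have N1 : (1 : ℝ) ≤ N := by exact_mod_cast hN
  have N0 : (0 : ℝ) < N := by linarith
  have mono : ∀ {a b : ℝ}, a ≤ b → (N : ℝ) ^ a ≤ (N : ℝ) ^ b := fun h =>
    Real.rpow_le_rpow_of_exponent_le N1 h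
  have z1 : 1 ≤ (N : ℝ) ^ η := Real.one_le_rpow N1 h0.le
  have Y1 := one_le z1 y1
  have R1 := one_le (Real.one_le_rpow N1 (by norm_num)) r1
  have Y1' : (1 : ℝ) ≤ Y := by exact_mod_cast Y1
  have R1' : (1 : ℝ) ≤ r := by exact_mod_cast R1
  have rN : (r : ℝ) ≤ N := r2.trans ((mono (by norm_num)).trans_eq (Real.rpow_one _))
  have Y6 : Y ^ 6 ≤ r := by
    rcases Y1.eq_or_lt with h | h
    · rw [← h]; simpa using R1
    have a1 : (Y : ℝ) ^ 7 ≤ 2 * r :=
      (pow_le_pow_left₀ (by positivity) y2 7).trans ((rp N0 _ _).trans_le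
        ((mono (by push_cast; linarith)).trans r1))
    have a2 : Y ^ 7 ≤ 2 * r := by exact_mod_cast a1
    have a3 : Y ^ 6 * 2 ≤ Y ^ 7 := Nat.mul_le_mul_left _ h
    omega
  have hE' : ∀ n ∈ E, 3 ≤ n ∧ n ≤ N := fun n hn => ⟨(hE n hn).1, (hE n hn).2.1⟩
  set F : ℕ → ℝ := fun m => (if m ∈ S then (1 : ℝ) else 0) - gY Y r S m with hF
  have hTT := hT N Y (100 * N) (4 * r + 4 + S.card * (2 * (Y : ℝ) ^ 4) / r)
    (fun n => gam E n) (fun m => (F m : ℂ)) hN Y1' (by positivity) (norm_gam E) (gam_supp hE')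
    (by
      simp only [Complex.norm_real, Real.norm_eq_abs, sq_abs]
      have h1 := hL2V Y r N S Y1 Y6
      calc _ ≤ ∑ m ∈ Icc 3 (7 * N), (2 + 2 * gY Y r S (m : ℕ) ^ 2) := by
            refine sum_le_sum fun m _ => ?_
            simp only [hF]
            split_ifs <;> nlinarith [sq_nonneg (1 + gY Y r S (m : ℕ)), sq_nonneg (gY Y r S (m : ℕ))]
        _ ≤ _ := by
            rw [sum_add_distrib, ← mul_sum, sum_const, nsmul_eq_mul, Nat.card_Icc]
            have h2 : ((7 * N + 1 - 3 : ℕ) : ℝ) ≤ 7 * N := by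
              exact_mod_cast (by omega : 7 * N + 1 - 3 ≤ 7 * N)
            linarith)
    (fun q X b h1 h2 _ => by
      rw [← Complex.ofReal_sum, Complex.norm_real, Real.norm_eq_abs]
      exact hAPV Y r q X S b R1 h1 (by exact_mod_cast h2))
  have ew : (N : ℝ) ^ (1 - 1 / 20000 : ℝ) = N / (N : ℝ) ^ (1 / 20000 : ℝ) := by
    rw [Real.rpow_sub N0, Real.rpow_one]
  rw [ew] at r1 r2
  have b1 := num1 z1 ((rp N0 _ _).trans_le (mono (by push_cast; linarith)))
    ((rp N0 _ _).trans_le ((mono (by norm_num)).trans_eq (Real.rpow_one _))) (by positivity) y2 r1 r2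
    R1' (card_S hN hS)
  set z := (N : ℝ) ^ (-(η / 16)) with hz
  have b2 : (N : ℝ) ^ (-c2) ≤ z := mono (by linarith)
  have b3 : 48 / (N : ℝ) ^ η ≤ 48 * z := by
    rw [div_eq_mul_inv, ← Real.rpow_neg N0.le]
    exact mul_le_mul_of_nonneg_left (mono (by linarith)) (by norm_num)
  have b4 : (Y : ℝ) ^ (-(1 / 16) : ℝ) ≤ 2 * z := by
    calc (Y : ℝ) ^ (-(1 / 16) : ℝ) ≤ ((N : ℝ) ^ η / 2) ^ (-(1 / 16) : ℝ) :=
          Real.rpow_le_rpow_of_nonpos (by positivity) (by linarith) (by norm_num)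
      _ = 2 ^ (1 / 16 : ℝ) * z := by
          rw [Real.div_rpow (by positivity) (by norm_num), ← Real.rpow_mul N0.le,
            Real.rpow_neg (by norm_num : (0 : ℝ) ≤ 2), div_inv_eq_mul, mul_comm, hz]
          congr 2
          ring
      _ ≤ 2 * z := mul_le_mul_of_nonneg_right ((Real.rpow_le_rpow_of_exponent_le one_le_two
          (by norm_num)).trans_eq (Real.rpow_one 2)) (by positivity)
  have e0 : Real.sqrt (100 * N / N) = 10 := by
    rw [mul_div_cancel_right₀ _ N0.ne', show (100 : ℝ) = 10 ^ 2 by norm_num,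
      Real.sqrt_sq (by norm_num)]
  rw [e0, TT_eq squarefree_one hE' (fun m => F m.toNat), Complex.norm_real, Real.norm_eq_abs] at hTT
  have hX : ∀ δ ∈ Del 1, ∑ n ∈ E, ∑ v ∈ La 1 δ n, F (Q2 v).toNat =
      -∑ n ∈ E, ∑ v ∈ sphere n, gY Y r S (Q2 v) := by
    intro δ _
    simp_rw [← sum_neg_distrib]
    refine sum_congr rfl fun n hn => sum_congr (by simp [La]) fun v hv => ?_
    have hv' : nsq v = n := mem_sphere.1 hv
    have h0 : 0 ≤ Q2 v := by unfold Q2; positivity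
    simp only [hF]
    rw [if_neg, Int.toNat_of_nonneg h0]
    · ring
    · intro h
      refine (hE n hn).2.2 ⟨v 0, v 1, v 2, v 3, (Q2 v).toNat, ?_, ?_, h⟩
      · rw [← hv', nsq_eq']
      · rw [Int.toNat_of_nonneg h0, Q2]
  have hd : (1 : ℝ) ≤ (Del 1).card := by
    exact_mod_cast card_pos.2 ⟨(1, 0), by simp [Del, Sun.box]⟩
  rw [sum_congr rfl hX, sum_const, nsmul_eq_mul, abs_mul, abs_neg, Nat.abs_cast] at hTT
  refine (le_abs_self _).trans ((le_mul_of_one_le_left (abs_nonneg _) hd).trans (hTT.trans ?_))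
  rw [sub_eq_add_neg, Real.rpow_add N0, Real.rpow_two, ← hz]
  calc _ ≤ C * (N : ℝ) ^ 2 * (10 * (z + 2 * z) + 48 * z) := by gcongr; exact b1.trans b3
    _ = _ := by ring

open MdP in
theorem pRep (hProdV : S_ProdV) : S_Rep := by
  obtain ⟨C, hC, hW⟩ := pWin pTheta
  obtain ⟨C', hC', hL⟩ := one_add_log_le (ε := 1 / 20000) (by norm_num)
  refine ⟨20 * (C * (1 + 4 * C')), by positivity, fun N Y r S E hN y2 r1 rN hS hE => ?_⟩
  have N1 : (1 : ℝ) ≤ N := by exact_mod_cast hN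
  have N0 : (0 : ℝ) < N := by linarith
  have R1 := one_le (Real.one_le_rpow N1 (by norm_num)) r1
  have hL' : LL N ≤ _ := hL N N1
  have w1 : 1 ≤ (N : ℝ) ^ (1 / 20000 : ℝ) := Real.one_le_rpow N1 (by norm_num)
  have k1 := rp N0 (1 / 20000) 19999
  have k2 := rp N0 (1 / 20000) 39800
  have k3 := rp N0 (1 / 20000) 20000
  have k4 := rp N0 (1 / 20000) 10000
  rw [show (1 / 20000 * (19999 : ℕ) : ℝ) = 1 - 1 / 20000 by norm_num] at k1
  rw [show (1 / 20000 * (39800 : ℕ) : ℝ) = 2 - 1 / 100 by norm_num] at k2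
  rw [show (1 / 20000 * (20000 : ℕ) : ℝ) = 1 by norm_num, Real.rpow_one] at k3
  rw [show (1 / 20000 * (10000 : ℕ) : ℝ) = 1 / 2 by norm_num, ← Real.sqrt_eq_rpow] at k4
  rw [← k1] at r1
  rw [← k2]
  generalize (N : ℝ) ^ (1 / 20000 : ℝ) = w at *
  have key : ∀ t ∈ S, ∀ q ∈ Icc 1 Y, |∑ n ∈ E, ∑ v ∈ sphere n,
      (cr q (Q2 v - t) - AV q t v) * om r (Q2 v - t)| ≤ 2 * w * (C * (1 + 4 * C') * w ^ 19603) := by
    intro t ht q hq
    obtain ⟨t1, t2, t3⟩ := hS t ht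
    obtain ⟨q1, q2⟩ := mem_Icc.1 hq
    have q0 : (0 : ℝ) < q := by exact_mod_cast q1
    have qw : (q : ℝ) ≤ w := le_trans (by exact_mod_cast q2) y2
    obtain ⟨p0, p1, p2, p3, p4⟩ := hProdV q t q1 (Nat.isCoprime_iff_coprime.2
      (t1.coprime_iff_not_dvd.2 (Nat.not_dvd_of_pos_of_lt q1 (by omega))))
    have h := hW N (lv q) r t (w ^ 400)
      (fun v => ((1 / (2 * q) : ℝ) : ℂ) * ((cr q (Q2 v - t) - AV q t v : ℝ) : ℂ))
      (fun n => gam E n) R1 rN (by positivity) (by exact_mod_cast t3) (one_le_pow₀ w1) p0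
      (fun v v' hv => congrArg _ (p3 v v' hv)) (fun v => by
        rw [← Complex.ofReal_mul, Complex.norm_real, Real.norm_eq_abs, abs_mul,
          abs_of_pos (by positivity), one_div, inv_mul_le_iff₀ (by positivity), mul_one]
        exact p2 v) (fun a b ha hb => by
        simp only [mul_assoc, ← mul_sum]
        rw [p4 a b ha hb, mul_zero]) (norm_gam E)
    rw [sum_gam hE] at h
    simp only [mul_assoc, ← mul_sum, ← Complex.ofReal_mul, ← Complex.ofReal_sum, Complex.norm_real,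
      Real.norm_eq_abs, abs_mul] at h
    rw [abs_of_pos (by positivity), one_div, inv_mul_le_iff₀ (by positivity), ← mul_assoc
      ((lv q : ℝ) ^ 8), ← k4] at h
    refine h.trans (mul_le_mul (by linarith) ?_ (by have := one_le_LL N; positivity) (by linarith))
    rw [← k3]
    exact num2 w1 (Nat.cast_nonneg _) (le_trans (by exact_mod_cast p1)
      (pow_le_pow_left₀ q0.le qw 2)) r1 hL' hC hC'
  have e : ∑ n ∈ E, ∑ v ∈ sphere n, gY Y r S (Q2 v) -
      ∑ n ∈ E, ∑ v ∈ sphere n, ∑ t ∈ S, om r (Q2 v - t) * ∑ q ∈ Icc 1 Y, AV q t v =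
      ∑ t ∈ S, ∑ q ∈ Icc 1 Y, ∑ n ∈ E, ∑ v ∈ sphere n,
        (cr q (Q2 v - t) - AV q t v) * om r (Q2 v - t) := by
    simp_rw [sum_comm (s := Icc 1 Y) (t := E), sum_comm (s := S) (t := E),
      sum_comm (s := Icc 1 Y) (t := sphere _), sum_comm (s := S) (t := sphere _), gY,
      ← sum_sub_distrib]
    refine sum_congr rfl fun n _ => sum_congr rfl fun v _ => sum_congr rfl fun t _ => ?_
    rw [← sum_mul, sum_sub_distrib, KY]; ring
  have c0 : 0 ≤ 2 * w * (C * (1 + 4 * C') * w ^ 19603) := by positivity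
  have c1 := card_S hN fun t ht => (hS t ht).2.2
  rw [e]
  calc _ ≤ ∑ t ∈ S, ∑ q ∈ Icc 1 Y, 2 * w * (C * (1 + 4 * C') * w ^ 19603) :=
        (abs_sum_le_sum_abs _ _).trans (sum_le_sum fun t ht =>
          (abs_sum_le_sum_abs _ _).trans (sum_le_sum (key t ht)))
    _ = S.card * (Y * (2 * w * (C * (1 + 4 * C') * w ^ 19603))) := by simp
    _ ≤ 10 * w ^ 20000 * (w * (2 * w * (C * (1 + 4 * C') * w ^ 19603))) :=
        mul_le_mul (k3 ▸ c1) (mul_le_mul_of_nonneg_right y2 c0) (by positivity) (by positivity)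
    _ = 20 * (C * (1 + 4 * C')) * w ^ 39605 := by ring
    _ ≤ _ := mul_le_mul_of_nonneg_left (pow_le_pow_right₀ w1 (by norm_num)) (by positivity)

end Pool.Agent.P.MP_0ad054_nt.PS
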