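import Pool.Agent.P.MP_0ad054_nt.PS.St

/-! The weight `gcd / max` and points on a hyperplane. -/

namespace Pool.Agent.P.MP_0ad054_nt.PS

open Finset Pool.Agent.Lib.H9 Pool.Agent.P.MP_0ad054_nt.Sun Pool.Agent.P.MP_0ad054_nt.Sun.SphereP
  Pool.Agent.P.MP_0ad054_nt.Clu
open scoped Real ComplexConjugate

namespace NUP

lemma mem_iv {H : ℕ} {x : ℤ} : x ∈ iv H ↔ |x| ≤ H := by rw [iv, mem_Icc, abs_le]

lemma card_iv (H : ℕ) : (iv H).card = 2 * H + 1 := by
  rw [iv, Int.card_Icc]; omega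

lemma gcd_le {x : ℤ} (hx : x ≠ 0) (y : ℤ) : (Int.gcd x y : ℤ) ≤ |x| :=
  Int.le_of_dvd (abs_pos.2 hx) ((dvd_abs _ _).2 (Int.gcd_dvd_left x y))

lemma nu01 (x y : ℤ) : 0 ≤ nu x y ∧ nu x y ≤ 1 := by
  unfold nu
  split_ifs with h
  · exact ⟨zero_le_one, le_rfl⟩
  · have h0 : (0 : ℝ) ≤ ((max |x| |y| : ℤ) : ℝ) := by
      exact_mod_cast (abs_nonneg x).trans (le_max_left _ _)
    refine ⟨by positivity, div_le_one_of_le₀ ?_ h0⟩
    have : (Int.gcd x y : ℤ) ≤ max |x| |y| := by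
      by_cases hx : x = 0
      · rw [Int.gcd_comm]; exact (gcd_le (fun hy => h ⟨hx, hy⟩) x).trans (le_max_right _ _)
      · exact (gcd_le hx y).trans (le_max_left _ _)
    exact_mod_cast this

lemma sum_iv (g : ℤ → ℝ) (M : ℕ) :
    ∑ m ∈ iv M, g m = g 0 + ∑ n ∈ Icc 1 M, (g n + g (-n)) := by
  induction M with
  | zero => simp [iv]
  | succ M ih =>
    have e : iv (M + 1) = insert ((M + 1 : ℕ) : ℤ) (insert (-((M + 1 : ℕ) : ℤ)) (iv M)) := by
      ext x; simp only [iv, mem_insert, mem_Icc]; push_cast; omega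
    rw [e, sum_insert, sum_insert, ih, sum_Icc_succ_top (by omega)]
    · ring
    · simp only [iv, mem_Icc]; push_cast; omega
    · simp only [iv, mem_insert, mem_Icc]; push_cast; omega

lemma harm {M H : ℕ} (h : M ≤ H) : ∑ n ∈ Icc 1 M, ((n : ℝ))⁻¹ ≤ LL H := by
  have h1 := harmonic_le_one_add_log H
  simp only [harmonic_eq_sum_Icc, Rat.cast_sum, Rat.cast_inv, Rat.cast_natCast] at h1
  exact (sum_le_sum_of_subset_of_nonneg (Icc_subset_Icc_right h) fun _ _ _ => by positivity).trans h1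

lemma sum_dvd (F : ℤ → ℝ) (hF : ∀ x, 0 ≤ F x) {d : ℕ} (hd : 1 ≤ d) (H : ℕ) :
    ∑ x ∈ iv H, (if (d : ℤ) ∣ x then F x else 0) ≤ ∑ m ∈ iv (H / d), F (d * m) := by
  have hd0 : (d : ℤ) ≠ 0 := by omega
  rw [← sum_filter, ← sum_image (f := F) (g := fun m : ℤ => (d : ℤ) * m)
    fun _ _ _ _ e => mul_left_cancel₀ hd0 e]
  refine sum_le_sum_of_subset_of_nonneg (fun x hx => ?_) fun _ _ _ => hF _
  obtain ⟨h1, m, rfl⟩ := mem_filter.1 hx
  refine mem_image_of_mem _ (mem_iv.2 ?_)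
  rw [mem_iv, abs_mul, Nat.abs_cast] at h1
  push_cast
  exact Int.le_ediv_of_mul_le (by omega) (by rwa [mul_comm])

lemma s1 {d : ℕ} (hd : 1 ≤ d) (H : ℕ) :
    ∑ x ∈ iv H, (if (d : ℤ) ∣ x then (d : ℝ) / |(x : ℝ)| else 0) ≤ 2 * LL H := by
  refine (sum_dvd (fun x => (d : ℝ) / |(x : ℝ)|) (fun _ => by positivity) hd H).trans ?_
  have hd0 : (0 : ℝ) < d := by exact_mod_cast hd
  rw [sum_iv]
  have h := harm (Nat.div_le_self H d)
  have e : ∀ n ∈ Icc 1 (H / d), (d : ℝ) / |(((d : ℤ) * (n : ℤ) : ℤ) : ℝ)| +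
      (d : ℝ) / |(((d : ℤ) * -(n : ℤ) : ℤ) : ℝ)| = 2 * (n : ℝ)⁻¹ := fun n hn => by
    have hn0 : (0 : ℝ) < n := by exact_mod_cast (mem_Icc.1 hn).1
    push_cast
    rw [mul_neg, abs_neg, abs_of_pos (by positivity)]
    field_simp
    norm_num
  rw [sum_congr rfl e, ← mul_sum]
  simp only [mul_zero, Int.cast_zero, abs_zero, div_zero, zero_add]
  linarith

lemma s2 {d : ℕ} (hd : 1 ≤ d) (H : ℕ) :
    ∑ y ∈ iv H, (if (d : ℤ) ∣ y then (if y = 0 then (0 : ℝ) else 1) else 0) ≤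
      2 * H * (d : ℝ)⁻¹ := by
  refine (sum_dvd (fun y => if y = 0 then (0 : ℝ) else 1) (fun _ => by positivity) hd H).trans ?_
  rw [sum_iv]
  have h : ∑ n ∈ Icc 1 (H / d), ((if (d : ℤ) * (n : ℤ) = 0 then (0 : ℝ) else 1) +
      (if (d : ℤ) * -(n : ℤ) = 0 then (0 : ℝ) else 1)) ≤ ∑ _n ∈ Icc 1 (H / d), (2 : ℝ) :=
    sum_le_sum fun n _ => by split_ifs <;> norm_num
  have h2 : ((H / d : ℕ) : ℝ) ≤ H / d := Nat.cast_div_le
  rw [sum_const, Nat.card_Icc, nsmul_eq_mul, Nat.add_sub_cancel] at h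
  rw [div_eq_mul_inv] at h2
  simp only [mul_zero, if_true, zero_add]
  linarith

lemma nu_le {H : ℕ} {x : ℤ} (hx : x ∈ iv H) (y : ℤ) :
    nu x y ≤ (if x = 0 then 1 else 0) + (if y = 0 then 1 else 0) +
      ∑ d ∈ Icc 1 H, (if (d : ℤ) ∣ x then (d : ℝ) / |(x : ℝ)| else 0) *
        (if (d : ℤ) ∣ y then (if y = 0 then (0 : ℝ) else 1) else 0) := by
  have h0 : ∀ d ∈ Icc 1 H, 0 ≤ (if (d : ℤ) ∣ x then (d : ℝ) / |(x : ℝ)| else 0) *
      (if (d : ℤ) ∣ y then (if y = 0 then (0 : ℝ) else 1) else 0) := fun d _ => by positivity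
  have h1 := sum_nonneg h0
  have h2 := (nu01 x y).2
  by_cases hx0 : x = 0
  · have : (0 : ℝ) ≤ if y = 0 then 1 else 0 := by positivity
    rw [if_pos hx0]; linarith
  by_cases hy0 : y = 0
  · rw [if_neg hx0, if_pos hy0]; linarith
  have hg : Int.gcd x y ∈ Icc 1 H := mem_Icc.2 ⟨Int.gcd_pos_of_ne_zero_left _ hx0, by
    have := (gcd_le hx0 y).trans (mem_iv.1 hx); omega⟩
  have h3 := single_le_sum h0 hg
  rw [if_pos (Int.gcd_dvd_left x y), if_pos (Int.gcd_dvd_right x y), if_neg hy0, mul_one] at h3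
  have h4 : nu x y ≤ (Int.gcd x y : ℝ) / |(x : ℝ)| := by
    rw [nu, if_neg fun h => hx0 h.1]
    refine div_le_div_of_nonneg_left (by positivity) (abs_pos.2 (by exact_mod_cast hx0)) ?_
    exact_mod_cast le_max_left |x| |y|
  rw [if_neg hx0, if_neg hy0, if_neg hy0]
  linarith

lemma part2 {H : ℕ} (hH : 1 ≤ H) : ∑ x ∈ iv H, ∑ y ∈ iv H, nu x y ≤ 10 * H * LL H ^ 2 := by
  have h0 : (0 : ℤ) ∈ iv H := mem_iv.2 (by simp)
  have hH' : (1 : ℝ) ≤ H := by exact_mod_cast hH
  have hL : 1 ≤ LL H := le_add_of_nonneg_right (Real.log_nonneg hH')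
  refine (sum_le_sum fun x hx => sum_le_sum fun y _ => nu_le hx y).trans ?_
  simp only [sum_add_distrib, sum_const, sum_ite_eq', if_pos h0, nsmul_eq_mul, ← mul_sum, card_iv,
    mul_one]
  have h1 : ∑ x ∈ iv H, ∑ y ∈ iv H, ∑ d ∈ Icc 1 H,
      (if (d : ℤ) ∣ x then (d : ℝ) / |(x : ℝ)| else 0) *
        (if (d : ℤ) ∣ y then (if y = 0 then (0 : ℝ) else 1) else 0) ≤
      ∑ d ∈ Icc 1 H, 2 * LL H * (2 * H * (d : ℝ)⁻¹) := by
    rw [sum_congr rfl fun x _ => sum_comm, sum_comm]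
    refine sum_le_sum fun d hd => ?_
    rw [← sum_mul_sum]
    exact mul_le_mul (s1 (mem_Icc.1 hd).1 H) (s2 (mem_Icc.1 hd).1 H)
      (sum_nonneg fun _ _ => by positivity) (by positivity)
  rw [← mul_sum, ← mul_sum] at h1
  have h2 := mul_le_mul_of_nonneg_left (harm (le_refl H)) (show 0 ≤ 2 * LL H * (2 * H) by positivity)
  have h3 : (H : ℝ) ≤ H * LL H ^ 2 := le_mul_of_one_le_right (by positivity) (one_le_pow₀ hL)
  push_cast
  nlinarith

lemma cnt (R : ℕ) (b : V) {k l : Fin 4} (hkl : k ≠ l) (hb : b k ≠ 0) :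
    (((bx R).filter (fun a => dot a b = 0)).card : ℝ) ≤
      (2 * R + 1) ^ 2 * (1 + 2 * R * ((Int.gcd (b k) (b l) : ℝ) / |(b k : ℝ)|)) := by
  obtain ⟨g, m, n, hg, hc, e1, e2⟩ := Int.exists_gcd_one' (Int.gcd_pos_of_ne_zero_left (b l) hb)
  have hm : m ≠ 0 := by rintro rfl; exact hb (by simpa using e1)
  have hgg : Int.gcd (b k) (b l) = g := by
    rw [e1, e2, Int.gcd_mul_right, hc]; simp
  have hM : 0 < m.natAbs := Int.natAbs_pos.2 hm
  have h1 := card_le_mul_card_image_of_maps_to (s := (bx R).filter (fun a => dot a b = 0))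
    (t := Fintype.piFinset fun t => if t = k ∨ t = l then {0} else iv R)
    (f := fun a t => if t = k ∨ t = l then 0 else a t)
    (fun a ha => Fintype.mem_piFinset.2 fun t => by
      split_ifs
      · simp
      · exact Fintype.mem_piFinset.1 (mem_filter.1 ha).1 t) (2 * R / m.natAbs + 1) (fun c _ => by
      rw [← card_range (2 * R / m.natAbs + 1)]
      have hb' : ∀ a ∈ ((bx R).filter (fun a => dot a b = 0)), |a l| ≤ R := fun a ha =>
        mem_iv.1 (Fintype.mem_piFinset.1 (mem_filter.1 ha).1 l)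
      refine card_le_card_of_injOn (fun a => (a l + R).toNat / m.natAbs) (fun a ha => ?_)
        fun a ha a' ha' e => ?_
      · have := abs_le.1 (hb' a (mem_filter.1 ha).1)
        exact mem_coe.2 (mem_range.2 (Nat.lt_succ_of_le (Nat.div_le_div_right (by omega))))
      · obtain ⟨h1, h2⟩ := mem_filter.1 ha
        obtain ⟨h1', h2'⟩ := mem_filter.1 ha'
        have ho : ∀ t, t ≠ k ∧ t ≠ l → a t = a' t := fun t ht => by
          have := congrFun (h2.trans h2'.symm) t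
          simpa [ht.1, ht.2] using this
        have hd : (a k - a' k) * b k + (a l - a' l) * b l = 0 := by
          rw [← Fintype.sum_eq_add (f := fun t => (a t - a' t) * b t) k l hkl
            fun t ht => by rw [ho t ht, sub_self, zero_mul]]
          have h3 := (mem_filter.1 h1).2
          have h4 := (mem_filter.1 h1').2
          simp only [sub_mul, sum_sub_distrib]
          unfold dot at h3 h4
          rw [h3, h4, sub_zero]
        have hd' : (a k - a' k) * m + (a l - a' l) * n = 0 := by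
          have hg0 : (g : ℤ) ≠ 0 := by omega
          refine mul_right_cancel₀ hg0 ?_
          rw [e1, e2] at hd; linear_combination hd
        have hv : m ∣ a l - a' l :=
          Int.dvd_of_dvd_mul_left_of_gcd_one ⟨-(a k - a' k), by linear_combination hd'⟩ hc
        have b1 := abs_le.1 (hb' a h1)
        have b2 := abs_le.1 (hb' a' h1')
        have hmod : (a l + R).toNat % m.natAbs = (a' l + R).toNat % m.natAbs := by
          refine (Nat.modEq_iff_dvd.2 ?_).symm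
          rw [Int.toNat_of_nonneg (by omega), Int.toNat_of_nonneg (by omega), Int.natAbs_dvd]
          simpa using hv
        have hl : a l = a' l := by
          have := Nat.div_add_mod (a l + R).toNat m.natAbs
          have := Nat.div_add_mod (a' l + R).toNat m.natAbs
          beta_reduce at e
          rw [e, hmod] at *
          omega
        rw [hl, sub_self, zero_mul, add_zero] at hd'
        have hk : a k = a' k := sub_eq_zero.1 ((mul_eq_zero.1 hd').resolve_right hm)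
        funext t
        by_cases h5 : t = k
        · rw [h5, hk]
        by_cases h6 : t = l
        · rw [h6, hl]
        exact ho t ⟨h5, h6⟩)
  have h2 : (Fintype.piFinset fun t : Fin 4 => if t = k ∨ t = l then {0} else iv R).card =
      (2 * R + 1) ^ 2 := by
    rw [Fintype.card_piFinset, Fin.prod_univ_four]
    fin_cases k <;> fin_cases l <;> simp [card_iv, sq] at hkl ⊢
  rw [h2] at h1
  have h3 : ((2 * R / m.natAbs : ℕ) : ℝ) ≤ (2 * R : ℕ) / (m.natAbs : ℕ) := Nat.cast_div_le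
  have hg' : (0 : ℝ) < g := by exact_mod_cast hg
  have hm' : (0 : ℝ) < |(m : ℝ)| := abs_pos.2 (by exact_mod_cast hm)
  have h4 : (g : ℝ) / |(b k : ℝ)| = |(m : ℝ)|⁻¹ := by
    rw [e1]; push_cast; rw [abs_mul, abs_of_pos hg']; field_simp
  rw [hgg, h4]
  rw [Nat.cast_natAbs, Int.cast_abs, div_eq_mul_inv] at h3
  have h5 : (((bx R).filter (fun a => dot a b = 0)).card : ℝ) ≤
      (((2 * R / m.natAbs : ℕ) : ℝ) + 1) * (2 * R + 1) ^ 2 := by exact_mod_cast h1
  push_cast at h3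
  nlinarith [sq_nonneg (2 * (R : ℝ) + 1)]

end NUP

open NUP in
theorem pNU : S_NU := by
  refine ⟨nu01, ⟨10, by norm_num, fun H hH => part2 hH⟩, fun R b i j hb hij => ?_⟩
  unfold nu
  split_ifs with h
  · obtain ⟨k, hk⟩ := Function.ne_iff.1 hb
    have hk' : b k ≠ 0 := hk
    have h1 := cnt R b (k := k) (l := i) (by rintro rfl; exact hk' h.1) hk'
    rwa [h.1, Int.gcd_zero_right, Nat.cast_natAbs, Int.cast_abs,
      div_self (abs_pos.2 (by exact_mod_cast hk')).ne'] at h1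
  · rcases le_total |b j| |b i| with h1 | h1
    · have h2 : b i ≠ 0 := fun e => h ⟨e, by simpa [e] using h1⟩
      rw [max_eq_left h1, Int.cast_abs]
      exact cnt R b hij h2
    · have h2 : b j ≠ 0 := fun e => h ⟨by simpa [e] using h1, e⟩
      rw [max_eq_right h1, Int.cast_abs, Int.gcd_comm]
      exact cnt R b hij.symm h2

end Pool.Agent.P.MP_0ad054_nt.PS
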