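import Pool.Agent.P.MP_0ad054_nt.PS.Base

/-! The main theorem on the counting form. -/

namespace Pool.Agent.P.MP_0ad054_nt.PS

open Finset Pool.Agent.Lib.H9 Pool.Agent.P.MP_0ad054_nt.Sun Pool.Agent.P.MP_0ad054_nt.Sun.SphereP
  Pool.Agent.P.MP_0ad054_nt.Clu Base
open scoped Real ComplexConjugate

namespace OPP

theorem triv (N : ℕ) (γ f : ℤ → ℂ) (hγ : ∀ n, ‖γ n‖ ≤ 1) {B : ℝ} (hf : ∀ m, ‖f m‖ ≤ B) :
    ‖BB N γ f‖ ≤ (N + 1) * ((2 * N + 1) ^ 4 * B) := by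
  have hB : 0 ≤ B := (norm_nonneg _).trans (hf 0)
  unfold BB
  refine (norm_sum_le _ _).trans ((sum_le_card_nsmul _ _ ((2 * N + 1) ^ 4 * B)
    fun n hn => ?_).trans (le_of_eq (by simp)))
  rw [norm_mul]
  refine (mul_le_of_le_one_left (norm_nonneg _) (hγ n)).trans ((norm_sum_le _ _).trans
    ((sum_le_card_nsmul _ _ B fun v _ => hf _).trans ?_))
  rw [nsmul_eq_mul]
  gcongr
  have h1 : sphere n ⊆ bx N := fun v hv => by
    have h2 := Fintype.mem_piFinset.1 (mem_filter.1 hv).1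
    rw [mem_Icc] at hn
    exact mem_bx.2 fun j => abs_le.2 ⟨by linarith [(mem_Icc.1 (h2 j)).1],
      by linarith [(mem_Icc.1 (h2 j)).2]⟩
  have h3 := card_le_card h1
  rw [card_bx] at h3
  exact_mod_cast h3

theorem norm_dmp {N : ℕ} {g : ℤ → ℂ} (h : ∀ m, g m ≠ 0 → 0 ≤ m ∧ m ≤ 7 * N) (m : ℤ) :
    ‖dmp N g m‖ ≤ ‖g m‖ := by
  unfold dmp
  by_cases h0 : g m = 0
  · simp [h0]
  · have h1 : (0 : ℝ) ≤ m := by exact_mod_cast (h m h0).1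
    rw [norm_mul, Complex.norm_real, Real.norm_of_nonneg (Real.exp_pos _).le]
    refine mul_le_of_le_one_left (norm_nonneg _) (Real.exp_le_one_iff.2 (neg_nonpos.2 ?_))
    have := Real.pi_pos
    positivity

theorem diag {N R : ℕ} {g : ℤ → ℂ} (h : ∀ m, g m ≠ 0 → 0 ≤ m ∧ m ≤ 7 * N) {K : ℝ}
    (hK : ∀ m : ℤ, (((bx R).filter (fun b => Q2 b = m)).card : ℝ) ≤ K) (t : ℤ) :
    ‖Pb R (dmp N g) t 0‖ ≤ K * ∑ m ∈ Icc (0 : ℤ) (7 * N), ‖g m‖ ^ 2 := by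
  unfold Pb
  simp only [smul_zero, add_zero, sub_zero]
  refine (norm_sum_le _ _).trans ((sum_le_sum_of_subset_of_nonneg (filter_subset _ _)
    fun _ _ _ => norm_nonneg _).trans ?_)
  calc _ ≤ ∑ a ∈ bx R, ∑ m ∈ Icc (0 : ℤ) (7 * N), if Q2 a = m then ‖g m‖ ^ 2 else 0 := by
        refine sum_le_sum fun a _ => ?_
        have h1 := norm_dmp h (Q2 a)
        rw [sum_ite_eq, norm_mul, Complex.norm_conj, ← sq]
        split_ifs with h2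
        · gcongr
        · have h3 : g (Q2 a) = 0 := by_contra fun h3 => h2 (mem_Icc.2 (h _ h3))
          simp [dmp, h3]
    _ ≤ _ := by
        rw [sum_comm, mul_sum]
        refine sum_le_sum fun m _ => ?_
        rw [← sum_filter, sum_const, nsmul_eq_mul]
        gcongr
        exact hK m

theorem norm_Pb (R : ℕ) {f : ℤ → ℂ} {B : ℝ} (hf : ∀ m, ‖f m‖ ≤ B) (t : ℤ) (b : V) :
    ‖Pb R f t b‖ ≤ B ^ 2 * (((bx R).filter (fun a => dot a b = 0)).card : ℝ) := by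
  have hB : 0 ≤ B := (norm_nonneg _).trans (hf 0)
  unfold Pb
  refine (norm_sum_le _ _).trans ((sum_le_card_nsmul _ _ (B ^ 2) fun a _ => ?_).trans
    (le_of_eq (by rw [nsmul_eq_mul, mul_comm])))
  rw [norm_mul, Complex.norm_conj, sq]
  gcongr <;> exact hf _

theorem split (H G : ℕ) (F : V → ℂ) : ∑ b ∈ bx H, F b =
    F 0 + ∑ b ∈ (bx H).filter (fun b => b ≠ 0 ∧ b ∉ good H G), F b + ∑ b ∈ good H G, F b := by
  have h1 : (bx H).filter (fun b => b ∈ good H G) = good H G :=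
    filter_mem_eq_inter.trans (inter_eq_right.2 ((filter_subset _ _).trans (filter_subset _ _)))
  have h0 : (0 : V) ∉ good H G := fun h => (mem_filter.1 (mem_filter.1 h).1).2 0 rfl
  have h2 : (bx H).filter (fun b => b ∉ good H G) =
      insert 0 ((bx H).filter (fun b => b ≠ 0 ∧ b ∉ good H G)) := by
    ext b
    simp only [mem_filter, mem_insert]
    constructor
    · rintro ⟨a1, a2⟩
      by_cases h : b = 0
      · exact Or.inl h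
      · exact Or.inr ⟨a1, h, a2⟩
    · rintro (rfl | ⟨a1, -, a2⟩)
      · exact ⟨mem_bx.2 fun j => by simp, h0⟩
      · exact ⟨a1, a2⟩
  rw [← sum_filter_add_sum_filter_not (bx H) (fun b => b ∈ good H G), h1, h2,
    sum_insert (by simp), add_comm]

theorem pars {u : ℝ} {N : ℕ} (hu : 100 ≤ u) (hN : u ^ 6000 = N) : ∃ T R H G : ℕ,
    u ^ 1999 ≤ 2 * T ∧ T ≤ u ^ 1999 ∧ 1 ≤ T ∧ 4 * T ≤ N ∧ 7 * N ≤ R ^ 2 ∧ R ≤ 3 * u ^ 3000 ∧
    1 ≤ R ∧ R ≤ N ∧ R ≤ T * H ∧ 1 ≤ H ∧ H ≤ 10 * u ^ 1001 ∧ H ≤ N ∧ 1 ≤ G ∧ G ≤ u ^ 100 ∧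
    u ^ 100 ≤ 4 * G := by
  have h1 : 1 ≤ u := by linarith
  have hp : ∀ k : ℕ, 1 ≤ u ^ k := fun k => one_le_pow₀ h1
  have fl : ∀ x : ℝ, 1 ≤ x → x ≤ 2 * ⌊x⌋₊ ∧ ⌊x⌋₊ ≤ x ∧ 1 ≤ ⌊x⌋₊ := fun x hx => by
    have a1 : 1 ≤ ⌊x⌋₊ := Nat.le_floor (by exact_mod_cast hx)
    have a2 : (1 : ℝ) ≤ ⌊x⌋₊ := by exact_mod_cast a1
    exact ⟨by linarith [Nat.lt_floor_add_one x], Nat.floor_le (by linarith), a1⟩
  have up : ∀ (c : ℝ) (k : ℕ), c ≤ 100 → k < 6000 → c * u ^ k ≤ N := fun c k hc hk => by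
    calc c * u ^ k ≤ u * u ^ k := by gcongr; linarith
      _ = u ^ (k + 1) := (pow_succ' _ _).symm
      _ ≤ _ := hN ▸ pow_le_pow_right₀ h1 hk
  obtain ⟨t1, t2, t3⟩ := fl _ (hp 1999)
  obtain ⟨g1, g2, g3⟩ := fl _ (hp 100)
  have r0 : 100 ≤ u ^ 3000 := hu.trans (le_self_pow₀ h1 (by norm_num))
  have r1 : (⌊3 * u ^ 3000⌋₊ : ℝ) ≤ 3 * u ^ 3000 := Nat.floor_le (by positivity)
  have r2 := Nat.lt_floor_add_one (3 * u ^ 3000)
  have s0 := hp 1001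
  have s1 : (⌊10 * u ^ 1001⌋₊ : ℝ) ≤ 10 * u ^ 1001 := Nat.floor_le (by positivity)
  have s2 := Nat.lt_floor_add_one (10 * u ^ 1001)
  refine ⟨⌊u ^ 1999⌋₊, ⌊3 * u ^ 3000⌋₊, ⌊10 * u ^ 1001⌋₊, ⌊u ^ 100⌋₊, t1, t2, t3, ?_, ?_, r1,
    Nat.le_floor (by push_cast; linarith), ?_, ?_, Nat.le_floor (by push_cast; linarith), s1, ?_,
    g3, g2, by linarith [Nat.cast_nonneg (α := ℝ) ⌊u ^ 100⌋₊]⟩
  · have := up 4 1999 (by norm_num) (by norm_num)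
    exact_mod_cast (by linarith : (4 : ℝ) * ⌊u ^ 1999⌋₊ ≤ N)
  · have e : (N : ℝ) = (u ^ 3000) ^ 2 := by rw [← hN, ← pow_mul]
    have : (7 : ℝ) * N ≤ (⌊3 * u ^ 3000⌋₊ : ℝ) ^ 2 := by
      rw [e]
      generalize u ^ 3000 = z at *
      nlinarith
    exact_mod_cast this
  · exact_mod_cast r1.trans (up 3 3000 (by norm_num) (by norm_num))
  · have : (⌊3 * u ^ 3000⌋₊ : ℝ) ≤ ⌊u ^ 1999⌋₊ * ⌊10 * u ^ 1001⌋₊ := by
      calc _ ≤ u ^ 1999 / 2 * (9 * u ^ 1001) := by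
            rw [show u ^ 1999 / 2 * (9 * u ^ 1001) = 9 / 2 * u ^ 3000 by ring]; linarith
        _ ≤ _ := by gcongr <;> linarith
    exact_mod_cast this
  · exact_mod_cast s1.trans (up 10 1001 (by norm_num) (by norm_num))

theorem alg_bad {u R H G : ℝ} (hu : 1 ≤ u) (hR0 : 0 ≤ R) (hH0 : 0 ≤ H) (hR : R ≤ 3 * u ^ 3000)
    (hH : H ≤ 10 * u ^ 1001) (hG : u ^ 100 ≤ 4 * G) :
    R ^ 3 * H ^ 3 / Real.sqrt G + R ^ 3 * H ^ 2 + R ^ 2 * H ^ 4 ≤ 150000 * u ^ 11953 := by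
  have h1 : u ^ 50 / 2 ≤ Real.sqrt G := Real.le_sqrt_of_sq_le (by
    rw [div_pow, ← pow_mul]; linarith)
  have a1 : R ^ 3 * H ^ 3 / Real.sqrt G ≤ 54000 * u ^ 11953 := by
    calc _ ≤ (3 * u ^ 3000) ^ 3 * (10 * u ^ 1001) ^ 3 / (u ^ 50 / 2) := by gcongr
      _ = _ := by field_simp; ring
  have a2 : R ^ 3 * H ^ 2 ≤ 2700 * u ^ 11953 := by
    calc _ ≤ (3 * u ^ 3000) ^ 3 * (10 * u ^ 1001) ^ 2 := by gcongr
      _ = 2700 * u ^ 11002 := by ring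
      _ ≤ _ := by gcongr; norm_num
  have a3 : R ^ 2 * H ^ 4 ≤ 90000 * u ^ 11953 := by
    calc _ ≤ (3 * u ^ 3000) ^ 2 * (10 * u ^ 1001) ^ 4 := by gcongr
      _ = 90000 * u ^ 10004 := by ring
      _ ≤ _ := by gcongr; norm_num
  have := pow_nonneg (zero_le_one.trans hu) 11953
  linarith

theorem alg_F {u x T : ℝ} (C : ℝ) (hu : 1 ≤ u) (hx : 1 ≤ x) (hxu : x ^ 100 ≤ u)
    (hT : T ≤ u ^ 1999) :
    C * x * ((u ^ 6000 / x ^ 100) ^ 2 * (u ^ 6000 * x)) + T * (u ^ 6000 * x) ^ 2 ≤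
      (C + 1) * (u ^ 18000 / x ^ 198) ∧
    C * x * (u ^ 6000 * x) ^ 2 + T * (u ^ 24) ^ 2 * (u ^ 6000 * x) ≤
      (C + 1) * (u ^ 12000 * x ^ 3) := by
  constructor
  · have a1 : T * (u ^ 6000 * x) ^ 2 ≤ u ^ 18000 / x ^ 198 := by
      rw [le_div_iff₀ (by positivity)]
      calc _ = T * u ^ 12000 * (x ^ 100) ^ 2 := by ring
        _ ≤ u ^ 1999 * u ^ 12000 * u ^ 2 := by gcongr
        _ = u ^ 14001 := by ring
        _ ≤ _ := pow_le_pow_right₀ hu (by norm_num)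
    have a2 : C * x * ((u ^ 6000 / x ^ 100) ^ 2 * (u ^ 6000 * x)) = C * (u ^ 18000 / x ^ 198) := by
      field_simp
    linarith
  · have a1 : T * (u ^ 24) ^ 2 * (u ^ 6000 * x) ≤ u ^ 12000 * x ^ 3 := by
      calc _ ≤ u ^ 1999 * (u ^ 24) ^ 2 * (u ^ 6000 * x) := by gcongr
        _ = u ^ 8047 * x ^ 1 := by ring
        _ ≤ _ := by gcongr <;> first | assumption | norm_num
    have a2 : C * x * (u ^ 6000 * x) ^ 2 = C * (u ^ 12000 * x ^ 3) := by ring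
    linarith

theorem alg_O {u x K C : ℝ} (hu : 1 ≤ u) (hx : 1 ≤ x) (hxu : x ^ 100 ≤ u) (hC : 0 ≤ C)
    (hK : 0 ≤ K) :
    Real.sqrt (K * x * u ^ 22004 / u ^ 6000) *
      (Real.sqrt (C * (u ^ 18000 / x ^ 198)) * Real.sqrt ((x ^ 30) ^ 3 / u ^ 6000) +
        Real.sqrt (C * (u ^ 12000 * x ^ 3) * (1 / u + 1 / x ^ 30))) ≤
      Real.sqrt K * (3 * Real.sqrt C) * (u ^ 14002 / x ^ 12) := by
  have sq : ∀ a y z : ℝ, 0 ≤ a → 0 ≤ z → y ≤ z ^ 2 → Real.sqrt (a * y) ≤ Real.sqrt a * z :=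
    fun a y z ha hz h => by
      rw [Real.sqrt_mul ha]; gcongr; exact Real.sqrt_le_iff.2 ⟨hz, h⟩
  have a1 : Real.sqrt (K * x * u ^ 22004 / u ^ 6000) ≤ Real.sqrt K * (x * u ^ 8002) := by
    rw [mul_assoc, mul_div_assoc]
    refine sq _ _ _ hK (by positivity) ?_
    calc _ = x ^ 1 * u ^ 16004 := by field_simp
      _ ≤ x ^ 2 * u ^ 16004 := by gcongr; norm_num
      _ = _ := by ring
  have a2 : Real.sqrt (C * (u ^ 18000 / x ^ 198)) * Real.sqrt ((x ^ 30) ^ 3 / u ^ 6000) ≤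
      Real.sqrt C * (u ^ 6000 / x ^ 13) := by
    rw [← Real.sqrt_mul (by positivity), mul_assoc]
    refine sq _ _ _ hC (by positivity) ?_
    calc _ = u ^ 12000 / x ^ 108 := by field_simp
      _ ≤ u ^ 12000 / x ^ 26 := by gcongr; norm_num
      _ = _ := by ring
  have a3 : Real.sqrt (C * (u ^ 12000 * x ^ 3) * (1 / u + 1 / x ^ 30)) ≤
      Real.sqrt C * (2 * (u ^ 6000 / x ^ 13)) := by
    rw [mul_assoc]
    refine sq _ _ _ hC (by positivity) ?_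
    have b1 : 1 / u ≤ 1 / x ^ 30 := by
      gcongr; exact (pow_le_pow_right₀ hx (by norm_num)).trans hxu
    calc _ ≤ u ^ 12000 * x ^ 3 * (1 / x ^ 30 + 1 / x ^ 30) := by gcongr
      _ = 2 * (u ^ 12000 / x ^ 27) := by field_simp; ring
      _ ≤ 4 * (u ^ 12000 / x ^ 26) := by gcongr <;> norm_num
      _ = _ := by ring
  calc _ ≤ Real.sqrt K * (x * u ^ 8002) *
        (Real.sqrt C * (u ^ 6000 / x ^ 13) + Real.sqrt C * (2 * (u ^ 6000 / x ^ 13))) := by gcongr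
    _ = _ := by field_simp; ring

theorem alg_fin {u x T b C1 C2 C3 : ℝ} (hu : 1 ≤ u) (hx : 1 ≤ x) (hxu : x ^ 100 ≤ u) (hT0 : 0 < T)
    (hT : T ≤ u ^ 1999) (h1 : 0 ≤ C1) (h2 : 0 ≤ C2) (h3 : 0 ≤ C3)
    (h : T * (b ^ 2 / (128 * u ^ 6000 * T ^ 3)) ≤
      T * (C1 * (u ^ 12000 * x ^ 2) + C2 * (u ^ 12001 * x)) + C3 * (u ^ 14002 / x ^ 11)) :
    b ≤ Real.sqrt (128 * (C1 + C2 + C3)) * (u ^ 12000 / x) := by
  have hx4 : x ^ 4 ≤ u := (pow_le_pow_right₀ hx (by norm_num)).trans hxu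
  have hx3 : x ^ 3 ≤ u := (pow_le_pow_right₀ hx (by norm_num)).trans hxu
  refine le_trans (le_abs_self b) (abs_le_of_sq_le_sq' ?_ (by positivity) |> abs_le.2)
  rw [mul_pow, Real.sq_sqrt (by positivity), div_pow, ← mul_div_assoc,
    le_div_iff₀ (by positivity)]
  calc b ^ 2 * x ^ 2 = 128 * u ^ 6000 * T ^ 2 * x ^ 2 *
        (T * (b ^ 2 / (128 * u ^ 6000 * T ^ 3))) := by field_simp
    _ ≤ 128 * u ^ 6000 * T ^ 2 * x ^ 2 * (T * (C1 * (u ^ 12000 * x ^ 2) + C2 * (u ^ 12001 * x)) +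
        C3 * (u ^ 14002 / x ^ 11)) := by gcongr
    _ = 128 * (C1 * (u ^ 18000 * T ^ 3 * x ^ 4) + C2 * (u ^ 18001 * T ^ 3 * x ^ 3) +
        C3 * (u ^ 20002 * T ^ 2 / x ^ 9)) := by field_simp
    _ ≤ 128 * (C1 * (u ^ 18000 * (u ^ 1999) ^ 3 * u) + C2 * (u ^ 18001 * (u ^ 1999) ^ 3 * u) +
        C3 * (u ^ 20002 * (u ^ 1999) ^ 2 / 1)) := by
        gcongr; exact one_le_pow₀ hx
    _ = 128 * (C1 * u ^ 23998 + C2 * u ^ 23999 + C3 * u ^ 24000) := by ring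
    _ ≤ 128 * (C1 * u ^ 24000 + C2 * u ^ 24000 + C3 * u ^ 24000) := by gcongr <;> norm_num
    _ = _ := by ring

end OPP

open OPP in
theorem pOP (hCELL : S_CELL) (hBAD : S_BAD) (hFIB : S_FIB) (hPARS : S_PARS) (hFB : S_FB)
    (hCOV : S_COV) (hKA : S_KA) (hXI : S_XI) : S_OP := by
  intro c1 hc1 _
  set c := min c1 (1 / 6000) / 100 with hc
  have hm1 := min_le_left c1 (1 / 6000)
  have hm2 := min_le_right c1 (1 / 6000)
  have hc0 : 0 < c := by have := lt_min hc1 (by norm_num : (0 : ℝ) < 1 / 6000); positivity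
  obtain ⟨CB, hCB, hBAD⟩ := hBAD c hc0
  obtain ⟨CI, hCI, hFIB⟩ := hFIB c hc0
  obtain ⟨CP, hCP, hPARS⟩ := hPARS
  obtain ⟨CF, hCF, hFB⟩ := hFB c hc0
  obtain ⟨CC, hCC, hCOV⟩ := hCOV
  obtain ⟨CK, hCK, hKA⟩ := hKA c hc0
  obtain ⟨_, -, hXI⟩ := hXI
  obtain ⟨CL, hCL, hL⟩ := one_add_log_le hc0
  obtain ⟨N0, hN0⟩ := Filter.eventually_atTop.1 (((tendsto_rpow_atTop
    (by norm_num : (0 : ℝ) < 1 / 6000)).comp tendsto_natCast_atTop_atTop).eventually_ge_atTop 100)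
  set C3 := CP * (CC * CL * (Real.sqrt CK * (3 * Real.sqrt (CF + 1)))) with hC3
  refine ⟨c, hc0, Real.sqrt (128 * (9 * CI + 150000 * CB + C3)) +
    (N0 + 1) * ((2 * N0 + 1) ^ 4 * N0) + 1, by positivity,
    fun N γ g hN hγ hs hB hE hS => ?_⟩
  have hN1 : (1 : ℝ) ≤ N := by exact_mod_cast hN
  have hNp : (0 : ℝ) < N := by linarith
  have hf := fun m => (norm_dmp hs m).trans (hB m)
  have hT0 : 1 ≤ (N : ℝ) ^ (2 - c) := Real.one_le_rpow hN1 (by linarith)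
  rcases lt_or_ge N N0 with hlt | hge
  · have a1 : (N : ℝ) ≤ N0 := by exact_mod_cast hlt.le
    have a2 : (N : ℝ) ^ (1 / 250 : ℝ) ≤ N0 := le_trans (by
      simpa using Real.rpow_le_rpow_of_exponent_le hN1 (by norm_num : (1 / 250 : ℝ) ≤ 1)) a1
    refine (triv N γ _ hγ hf).trans (le_trans ?_ (le_mul_of_one_le_right (by positivity) hT0))
    have a3 : ((N : ℝ) + 1) * ((2 * N + 1) ^ 4 * (N : ℝ) ^ (1 / 250 : ℝ)) ≤
        (N0 + 1) * ((2 * N0 + 1) ^ 4 * N0) := by gcongr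
    linarith [Real.sqrt_nonneg (128 * (9 * CI + 150000 * CB + C3))]
  have hu : 100 ≤ (N : ℝ) ^ (1 / 6000 : ℝ) := hN0 N hge
  have hpw : ∀ (a : ℝ) (k : ℕ), ((N : ℝ) ^ a) ^ k = (N : ℝ) ^ (a * k) := fun a k => by
    rw [← Real.rpow_natCast, ← Real.rpow_mul hNp.le]
  have hx : 1 ≤ (N : ℝ) ^ c := Real.one_le_rpow hN1 hc0.le
  have e1 : ((N : ℝ) ^ (1 / 6000 : ℝ)) ^ 6000 = N := by rw [hpw]; norm_num
  have e2 : (N : ℝ) ^ (1 / 250 : ℝ) = ((N : ℝ) ^ (1 / 6000 : ℝ)) ^ 24 := by rw [hpw]; norm_num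
  have e3 : ((N : ℝ) ^ c) ^ 100 ≤ (N : ℝ) ^ (1 / 6000 : ℝ) := by
    rw [hpw]; exact Real.rpow_le_rpow_of_exponent_le hN1 (by push_cast; linarith)
  have e4 : (N : ℝ) ^ (1 + c) = N * (N : ℝ) ^ c := by rw [Real.rpow_add hNp, Real.rpow_one]
  have e5 : (N : ℝ) ^ (1 - c1) ≤ N / ((N : ℝ) ^ c) ^ 100 := by
    rw [hpw, Real.rpow_sub hNp, Real.rpow_one]
    gcongr
    push_cast; linarith
  have e6 : (N : ℝ) ^ (2 - c) = N ^ 2 / (N : ℝ) ^ c := by rw [Real.rpow_sub hNp, Real.rpow_two]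
  have e7 : LL N ≤ CL * (N : ℝ) ^ c := hL N hN1
  have hS' := fun β => (hS β).trans e5
  rw [e2] at hB hf
  rw [e4] at hE
  rw [e6]
  obtain ⟨T, R, H, G, t1, t2, t3, t4, r1, r2, r3, r4, r5, h1, h2, h3, g1, g2, g3⟩ := pars hu e1
  have b1 := hBAD N R H G h1 h3 r3 g1
  have b2 := (hFIB N R r3 r4).1
  have b3 := hPARS N R T (good H G) g hN t3 r1 hs
  obtain ⟨b4, b5, b6⟩ := hFB N T g _ _ _ t3 (by omega) hs hB hE hS'
  have b7 := fun q0 η a1 a2 a3 => hKA _ N T H G q0 η ⟨hu, e1, t1, t2, h1, h2, g1, g2, a1, a2, a3⟩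
  obtain ⟨b8, b9, -⟩ := (hXI N hN).2 T (good H G) t3
  clear hBAD hFIB hPARS hFB hKA hXI hL hN0 hpw hS e2 e4 e5 e6 hT0
  generalize (N : ℝ) ^ (1 / 6000 : ℝ) = u at *
  generalize (N : ℝ) ^ c = x at *
  have hu1 : 1 ≤ u := by linarith
  obtain ⟨f1, f2⟩ := alg_F CF hu1 hx e3 t2
  rw [e1] at f1 f2
  have b10 := hCOV N (u ^ 3002) (x ^ 30) (CK * x * u ^ 22004) (1 / u) _ _ (Xi N T (good H G))
    (FF N T g) hN (one_le_pow₀ hx) (one_le_pow₀ hu1) (e1 ▸ pow_le_pow_right₀ hu1 (by norm_num))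
    (by positivity) (by positivity) ((div_le_one (by positivity)).2 hu1) b8 b4
    (fun y => (b9 y).1) (fun y => (b9 y).2.1)
    (fun y => ⟨Real.sqrt_nonneg _, Real.le_sqrt_of_sq_le ((b5 y).trans f1)⟩) (b6.trans f2)
    (fun q0 η a1 a2 a3 => (b7 q0 η a1 a2 a3).trans (le_of_eq (by unfold Tg; ring)))
  have b11 := alg_O hu1 hx e3 (by positivity : 0 ≤ CF + 1) hCK.le
  rw [e1] at b11
  have b12 : ‖∑ t ∈ Ioc (T : ℤ) (2 * T), ∑ b ∈ good H G, Pb R (dmp N g) t b‖ ≤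
      C3 * (u ^ 14002 / x ^ 11) := by
    refine b3.trans ?_
    rw [hC3, mul_assoc CP]
    refine mul_le_mul_of_nonneg_left (b10.trans ?_) hCP.le
    rw [mul_assoc (CC * LL N)]
    calc _ ≤ CC * (CL * x) * (Real.sqrt CK * (3 * Real.sqrt (CF + 1)) * (u ^ 14002 / x ^ 12)) := by
          gcongr
      _ = _ := by field_simp
  have hTp : (0 : ℝ) < T := by exact_mod_cast t3
  have b13 : ∀ t ∈ Ioc (T : ℤ) (2 * T), ‖BB N γ (dmp N g)‖ ^ 2 / (128 * u ^ 6000 * (T : ℝ) ^ 3) ≤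
      9 * CI * (u ^ 12000 * x ^ 2) + 150000 * CB * (u ^ 12001 * x) +
        (∑ b ∈ good H G, Pb R (dmp N g) t b).re := by
    intro t ht
    rw [mem_Ioc] at ht
    obtain ⟨k, rfl⟩ := Int.eq_ofNat_of_zero_le (by omega : 0 ≤ t)
    have k1 : T < k := by omega
    have k2 : (k : ℝ) ≤ 2 * T := by exact_mod_cast ht.2
    have a1 := hCELL N R H k γ (dmp N g) (by omega) (by omega) r1
      (r5.trans (Nat.mul_le_mul_right _ k1.le)) hγ
      (fun m hm => (hs m (right_ne_zero_of_mul hm)).2)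
    have a2 : ‖Pb R (dmp N g) k 0‖ ≤ 9 * CI * (u ^ 12000 * x ^ 2) := by
      refine (diag hs b2 k).trans ?_
      calc _ ≤ CI * x * (3 * u ^ 3000) ^ 2 * (u ^ 6000 * x) := by rw [e1]; gcongr
        _ = _ := by ring
    have a3 : ‖∑ b ∈ (bx H).filter (fun b => b ≠ 0 ∧ b ∉ good H G), Pb R (dmp N g) k b‖ ≤
        150000 * CB * (u ^ 12001 * x) := by
      refine (norm_sum_le _ _).trans ((sum_le_sum fun b _ => norm_Pb R hf k b).trans ?_)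
      rw [← mul_sum]
      calc _ ≤ (u ^ 24) ^ 2 * (CB * x * (150000 * u ^ 11953)) := by
            gcongr
            refine b1.trans ?_
            gcongr
            exact alg_bad hu1 (Nat.cast_nonneg _) (Nat.cast_nonneg _) r2 h2 g3
        _ = _ := by ring
    have a4 : ‖BB N γ (dmp N g)‖ ^ 2 / (128 * u ^ 6000 * (T : ℝ) ^ 3) ≤
        (∑ b ∈ bx H, Pb R (dmp N g) k b).re := by
      have k0 : (0 : ℝ) < k := by exact_mod_cast (by omega : 0 < k)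
      rw [← div_le_iff₀' (by positivity)] at a1
      refine le_trans ?_ a1
      rw [e1, show 128 * (N : ℝ) * (T : ℝ) ^ 3 = 16 * N * (2 * T) ^ 3 by ring]
      gcongr
    rw [split H G, Complex.add_re, Complex.add_re] at a4
    linarith [(Complex.re_le_norm _).trans a2, (Complex.re_le_norm _).trans a3]
  have b14 := sum_le_sum b13
  rw [sum_add_distrib, ← Complex.re_sum, sum_const, sum_const, nsmul_eq_mul, nsmul_eq_mul,
    Int.card_Ioc, show (2 * (T : ℤ) - T).toNat = T by omega] at b14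
  have b15 := alg_fin (C3 := C3) hu1 hx e3 hTp t2 (by positivity) (by positivity) (by positivity)
    (b14.trans (add_le_add le_rfl ((Complex.re_le_norm _).trans b12)))
  rw [← e1, ← pow_mul]
  refine b15.trans (mul_le_mul_of_nonneg_right ?_ (by positivity))
  have : (0 : ℝ) ≤ (N0 + 1) * ((2 * N0 + 1) ^ 4 * N0) := by positivity
  linarith

end Pool.Agent.P.MP_0ad054_nt.PS
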