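import Pool.Agent.P.MP_0ad054_nt.PS.StT
import Pool.Agent.P.MP_0ad054_nt.Clu.Per
import Pool.Agent.P.MP_0ad054_nt.Clu.Sq
import Pool.Agent.P.MP_0ad054_nt.Clu.Om

/-! Periodic products, the local factors and their orthogonality in a window. -/

namespace Pool.Agent.P.MP_0ad054_nt.PS

open Finset Pool.Agent.Lib.H9 Pool.Agent.P.MP_0ad054_nt.Sun Pool.Agent.P.MP_0ad054_nt.Sun.SphereP
  Pool.Agent.P.MP_0ad054_nt.Clu

namespace OrthP

theorem per_prod {T : Finset ℕ} {e : ℕ → ℕ} {F : ℕ → ℤ → ℝ}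
    (hF : ∀ p ∈ T, ∀ d d' : ℤ, (p : ℤ) ^ e p ∣ d - d' → F p d = F p d') (d d' : ℤ)
    (h : ∏ p ∈ T, (p : ℤ) ^ e p ∣ d - d') : ∏ p ∈ T, F p d = ∏ p ∈ T, F p d' :=
  prod_congr rfl fun p hp => hF p hp d d' ((dvd_prod_of_mem _ hp).trans h)

theorem prod_pos' {T : Finset ℕ} (e : ℕ → ℕ) (hT : ∀ p ∈ T, p.Prime) :
    0 < ∏ p ∈ T, (p : ℤ) ^ e p :=
  prod_pos fun p hp => pow_pos (by exact_mod_cast (hT p hp).pos) _

theorem sum_prod (T : Finset ℕ) (e : ℕ → ℕ) (F : ℕ → ℤ → ℝ) (hT : ∀ p ∈ T, p.Prime)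
    (hF : ∀ p ∈ T, ∀ d d' : ℤ, (p : ℤ) ^ e p ∣ d - d' → F p d = F p d') :
    ∑ d ∈ Ico 0 (∏ p ∈ T, (p : ℤ) ^ e p), ∏ p ∈ T, F p d =
      ∏ p ∈ T, ∑ d ∈ Ico (0 : ℤ) ((p : ℤ) ^ e p), F p d := by
  induction T using Finset.induction_on with
  | empty => simp
  | insert q T hq ih =>
    have h1 : ∀ p ∈ T, p.Prime := fun p hp => hT p (mem_insert_of_mem hp)
    have h2 := fun p hp => hF p (mem_insert_of_mem (a := p) (b := q) (s := T) hp)
    have h3 := hT q (mem_insert_self _ _)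
    simp only [prod_insert hq]
    rw [PerP.crt (pow_pos (by exact_mod_cast h3.pos) _) (prod_pos' e h1)
      (IsCoprime.prod_right fun p hp => IsCoprime.pow (Nat.isCoprime_iff_coprime.2
        ((Nat.coprime_primes h3 (h1 p hp)).2 fun h => hq (h ▸ hp))))
      (hF q (mem_insert_self _ _)) (per_prod h2), ih h1 h2]

theorem rk_bd (p e j : ℕ) (c t : ℤ) : 0 ≤ rk p e j c t ∧ rk p e j c t ≤ (p : ℝ) ^ j := by
  unfold rk
  refine ⟨by positivity, ?_⟩
  rw [mul_div_assoc]
  refine mul_le_of_le_one_right (by positivity) (div_le_one_of_le₀ ?_ (by positivity))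
  exact_mod_cast card_filter_le _ _

theorem rk_per (p e j : ℕ) (c t t' : ℤ) (h : (p : ℤ) ^ j ∣ t - t') :
    rk p e j c t = rk p e j c t' := by
  unfold rk
  rw [filter_congr (q := fun v => (p : ℤ) ^ j ∣ Q2 v - t')]
  intro v _
  have e1 : Q2 v - t' = Q2 v - t + (t - t') := by ring
  rw [e1]
  exact (dvd_add_left h).symm

theorem rk_sum (p e0 j e : ℕ) (c : ℤ) (h : ℤ → ℝ) (hp : p.Prime) (hj : j ≤ e)
    (hh : ∀ t t' : ℤ, (p : ℤ) ^ j ∣ t - t' → h t = h t') :
    ∑ t ∈ Ico (0 : ℤ) ((p : ℤ) ^ e), rk p e0 j c t * h t =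
      (p : ℝ) ^ e * (∑ v ∈ P0 p e0 c, h (Q2 v)) / (P0 p e0 c).card := by
  have h1 : ∀ v : V, ∑ t ∈ Ico (0 : ℤ) ((p : ℤ) ^ e),
      (if (p : ℤ) ^ j ∣ Q2 v - t then h t else 0) = (p : ℝ) ^ (e - j) * h (Q2 v) := by
    intro v
    have h2 := pSq.1 (p ^ e) (p ^ j) (Q2 v) (pow_ne_zero _ hp.ne_zero) (pow_dvd_pow _ hj)
    rw [Nat.pow_div hj hp.pos] at h2
    push_cast at h2
    rw [← sum_filter, filter_congr (q := fun x => (p : ℤ) ^ j ∣ x - Q2 v)
      (fun x _ => dvd_sub_comm), sum_congr rfl (g := fun _ => h (Q2 v))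
      (fun x hx => hh _ _ (mem_filter.1 hx).2), sum_const, h2, nsmul_eq_mul]
    push_cast
    rfl
  have h3 : ∀ t : ℤ, rk p e0 j c t * h t = (p : ℝ) ^ j *
      (∑ v ∈ P0 p e0 c, if (p : ℤ) ^ j ∣ Q2 v - t then h t else 0) / (P0 p e0 c).card := by
    intro t
    unfold rk
    rw [← sum_filter, sum_const, nsmul_eq_mul]
    ring
  simp only [h3]
  rw [← sum_div, ← mul_sum, sum_comm]
  simp only [h1]
  rw [← mul_sum, ← mul_assoc, ← pow_add, Nat.add_sub_cancel' hj]

end OrthP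

open OrthP in
theorem pPerV : S_PerV := by
  intro T e F B a b hT hF hB
  have h := PerP.cut (prod_pos' e hT) (per_prod hF) (b := ∏ p ∈ T, B p) (fun d => by
    rw [abs_prod]
    exact prod_le_prod (fun _ _ => abs_nonneg _) fun p hp => hB p hp d) (b - a).toNat a
  have h1 : Ico a (a + ((b - a).toNat : ℤ)) = Ico a b := by
    ext x
    simp only [mem_Ico]
    omega
  rw [h1, sum_prod T e F hT hF] at h
  rw [Int.card_Ico, prod_div_distrib]
  simpa only [Int.cast_prod, Int.cast_pow, Int.cast_natCast] using h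

open OrthP in
theorem pXX : S_XX := by
  intro p k c hp hk
  have hp1 : (1 : ℝ) ≤ p := by exact_mod_cast hp.one_le
  have hle : (p : ℝ) ^ (k - 1) ≤ (p : ℝ) ^ k := pow_le_pow_right₀ hp1 (by omega)
  have hd : (p : ℤ) ^ (k - 1) ∣ (p : ℤ) ^ k := pow_dvd_pow _ (by omega)
  have h0 : (0 : ℝ) ≤ (p : ℝ) ^ (k - 1) := by positivity
  refine ⟨fun t => ?_, fun d => ?_, fun t t' h => ?_, fun e h he hh => ?_⟩
  · have a1 := rk_bd p (max k 2) k c t
    have a2 := rk_bd p (max k 2) (k - 1) c t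
    unfold xx
    rw [abs_le]
    constructor <;> linarith [a1.1, a1.2, a2.1, a2.2]
  · unfold cq ph
    push_cast
    rw [abs_le]
    split_ifs <;> constructor <;> linarith
  · unfold xx
    rw [rk_per p _ k c t t' h, rk_per p _ (k - 1) c t t' (hd.trans h)]
  · unfold xx
    simp only [sub_mul]
    rw [sum_sub_distrib, rk_sum p _ k e c h hp he (fun t t' ht => hh t t' (hd.trans ht)),
      rk_sum p _ (k - 1) e c h hp (by omega) hh, sub_self]

namespace OrthP

/-- the local factor, with the empty factor at exponent zero -/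
noncomputable def x0 (p k : ℕ) (c t : ℤ) : ℝ := if k = 0 then 1 else xx p k c t

theorem x0_bd (hXX : S_XX) {p : ℕ} (hp : p.Prime) (k : ℕ) (c t : ℤ) :
    |x0 p k c t| ≤ (p : ℝ) ^ k := by
  unfold x0
  split_ifs with h
  · simp [h]
  · exact (hXX p k c hp (by omega)).1 t

theorem x0_per (hXX : S_XX) {p : ℕ} (hp : p.Prime) (k : ℕ) (c t t' : ℤ)
    (h : (p : ℤ) ^ k ∣ t - t') : x0 p k c t = x0 p k c t' := by
  unfold x0
  split_ifs with h1
  · rfl
  · exact (hXX p k c hp (by omega)).2.2.1 t t' h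

theorem x0_orth (hXX : S_XX) {p : ℕ} (hp : p.Prime) {k k' : ℕ} (h : k' < k) (c : ℤ) :
    ∑ t ∈ Ico (0 : ℤ) ((p : ℤ) ^ k), x0 p k c t * x0 p k' c t = 0 := by
  have h1 : ∀ t, x0 p k c t = xx p k c t := fun t => if_neg (by omega)
  simp only [h1]
  exact (hXX p k c hp (by omega)).2.2.2 k _ le_rfl fun t t' ht =>
    x0_per hXX hp k' c t t' ((pow_dvd_pow _ (by omega)).trans ht)

theorem A0_eq {q : ℕ} {T : Finset ℕ} (hT : q.primeFactors ⊆ T) (c t : ℤ) :
    A0 q c t = ∏ p ∈ T, x0 p (q.factorization p) c t := by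
  unfold A0
  rw [← prod_subset hT (f := fun p => x0 p (q.factorization p) c t)]
  · refine prod_congr rfl fun p hp => (if_neg ?_).symm
    rwa [← Nat.support_factorization, Finsupp.mem_support_iff] at hp
  · intro p _ hp
    rw [← Nat.support_factorization, Finsupp.notMem_support_iff] at hp
    exact if_pos hp

theorem prod_fac {n : ℕ} (hn : n ≠ 0) :
    ∏ p ∈ n.primeFactors, (p : ℝ) ^ n.factorization p = n := by
  conv_rhs => rw [← Nat.prod_factorization_pow_eq_self hn]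
  rw [Finsupp.prod, Nat.support_factorization]
  push_cast
  rfl

theorem U0_nonneg (q : ℕ) (c : ℤ) : 0 ≤ U0 q c :=
  prod_nonneg fun _ _ => div_nonneg (sum_nonneg fun _ _ => sq_nonneg _) (by positivity)

theorem pair (hPerV : S_PerV) (hXX : S_XX) {q q' : ℕ} (hq : q ≠ 0) (hq' : q' ≠ 0) (c a : ℤ)
    (r : ℕ) : |∑ t ∈ Ico a (a + r), A0 q c t * A0 q' c t -
      r * (if q = q' then U0 q c else 0)| ≤ 2 * ((q : ℝ) * q') ^ 2 := by
  set T := (q * q').primeFactors with hT
  have hTp : ∀ p ∈ T, p.Prime := fun p hp => Nat.prime_of_mem_primeFactors hp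
  have hTu : T = q.primeFactors ∪ q'.primeFactors := Nat.primeFactors_mul hq hq'
  have s1 : q.primeFactors ⊆ T := hTu ▸ subset_union_left
  have s2 : q'.primeFactors ⊆ T := hTu ▸ subset_union_right
  have hf : ∏ p ∈ T, (p : ℝ) ^ (q.factorization p + q'.factorization p) = (q : ℝ) * q' := by
    have := prod_fac (mul_ne_zero hq hq')
    rw [Nat.factorization_mul hq hq', Nat.cast_mul] at this
    exact this
  have h := hPerV T (fun p => max (q.factorization p) (q'.factorization p))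
    (fun p t => x0 p (q.factorization p) c t * x0 p (q'.factorization p) c t)
    (fun p => (p : ℝ) ^ (q.factorization p + q'.factorization p)) a (a + r) hTp
    (fun p hp d d' hd => by
      rw [x0_per hXX (hTp p hp) _ c d d' ((pow_dvd_pow _ (le_max_left _ _)).trans hd),
        x0_per hXX (hTp p hp) (q'.factorization p) c d d'
          ((pow_dvd_pow _ (le_max_right _ _)).trans hd)])
    (fun p hp d => by
      rw [abs_mul, pow_add]
      exact mul_le_mul (x0_bd hXX (hTp p hp) _ c d) (x0_bd hXX (hTp p hp) _ c d) (abs_nonneg _)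
        (by positivity))
  have e1 : ∀ t, A0 q c t * A0 q' c t =
      ∏ p ∈ T, x0 p (q.factorization p) c t * x0 p (q'.factorization p) c t := fun t => by
    rw [A0_eq s1, A0_eq s2, prod_mul_distrib]
  have e2 : ((Ico a (a + r)).card : ℝ) = r := by simp
  have e3 : ∏ p ∈ T, ((∑ d ∈ Ico (0 : ℤ) ((p : ℤ) ^ max (q.factorization p) (q'.factorization p)),
      x0 p (q.factorization p) c d * x0 p (q'.factorization p) c d) /
      (p : ℝ) ^ max (q.factorization p) (q'.factorization p)) =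
      if q = q' then U0 q c else 0 := by
    split_ifs with hqq
    · subst hqq
      rw [hTu, union_self]
      refine prod_congr rfl fun p hp => ?_
      rw [← Nat.support_factorization, Finsupp.mem_support_iff] at hp
      simp only [max_self, x0, if_neg hp, uu, sq]
    · obtain ⟨p, hp⟩ : ∃ p, q.factorization p ≠ q'.factorization p := by
        by_contra hc
        exact hqq (Nat.eq_of_factorization_eq hq hq' fun p => by
          by_contra h1
          exact hc ⟨p, h1⟩)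
      have hpT : p ∈ T := by
        by_contra hc
        have a1 : p ∉ q.primeFactors := fun h1 => hc (s1 h1)
        have a2 : p ∉ q'.primeFactors := fun h1 => hc (s2 h1)
        rw [← Nat.support_factorization, Finsupp.notMem_support_iff] at a1 a2
        exact hp (a1.trans a2.symm)
      refine prod_eq_zero hpT (div_eq_zero_iff.2 (Or.inl ?_))
      rcases lt_or_gt_of_ne hp with h1 | h1
      · rw [max_eq_right h1.le]
        simp only [mul_comm (x0 p (q.factorization p) c _)]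
        exact x0_orth hXX (hTp p hpT) h1 c
      · rw [max_eq_left h1.le]
        exact x0_orth hXX (hTp p hpT) h1 c
  have e4 : ∏ p ∈ T, (p : ℝ) ^ max (q.factorization p) (q'.factorization p) ≤ (q : ℝ) * q' := by
    rw [← hf]
    exact prod_le_prod (fun _ _ => by positivity) fun p hp =>
      pow_le_pow_right₀ (by exact_mod_cast (hTp p hp).one_le) (by omega)
  beta_reduce at h
  rw [e2, e3, hf] at h
  simp only [e1]
  refine h.trans ?_
  have : (0 : ℝ) ≤ (q : ℝ) * q' := by positivity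
  nlinarith

theorem win (hPerV : S_PerV) (hXX : S_XX) {Y : ℕ} (r : ℕ) {Q : Finset ℕ} {μ : ℕ → ℝ} {M : ℝ}
    (hQ : Q ⊆ Icc 1 Y) (hμ : ∀ q, |μ q| ≤ M) (c a : ℤ) :
    ∑ t ∈ Ico a (a + r), (∑ q ∈ Q, μ q * A0 q c t) ^ 2 ≤
      M ^ 2 * (r * ∑ q ∈ Q, U0 q c + 2 * (Y : ℝ) ^ 6) := by
  have hM : 0 ≤ M := (abs_nonneg _).trans (hμ 0)
  have hc : (Q.card : ℝ) ≤ Y := by
    have := card_le_card hQ
    rw [Nat.card_Icc, Nat.add_sub_cancel] at this
    exact_mod_cast this
  have h1 : ∀ q ∈ Q, ∀ q' ∈ Q, ∑ t ∈ Ico a (a + r), μ q * A0 q c t * (μ q' * A0 q' c t) ≤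
      M ^ 2 * (r * (if q = q' then U0 q c else 0) + 2 * (Y : ℝ) ^ 4) := by
    intro q hq q' hq'
    obtain ⟨a1, a2⟩ := mem_Icc.1 (hQ hq)
    obtain ⟨a3, a4⟩ := mem_Icc.1 (hQ hq')
    have b1 := pair hPerV hXX (q := q) (q' := q') (by omega) (by omega) c a r
    have b2 : ((q : ℝ) * q') ^ 2 ≤ (Y : ℝ) ^ 4 := by
      have a5 : (q : ℝ) ≤ Y := by exact_mod_cast a2
      have a6 : (q' : ℝ) ≤ Y := by exact_mod_cast a4
      calc ((q : ℝ) * q') ^ 2 ≤ ((Y : ℝ) * Y) ^ 2 := by gcongr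
        _ = _ := by ring
    have b3 : (0 : ℝ) ≤ r * (if q = q' then U0 q c else 0) := by
      have := U0_nonneg q c
      split_ifs <;> positivity
    have b4 : |∑ t ∈ Ico a (a + r), A0 q c t * A0 q' c t| ≤
        r * (if q = q' then U0 q c else 0) + 2 * (Y : ℝ) ^ 4 := by
      rw [abs_le] at b1 ⊢
      constructor <;> linarith [b1.1, b1.2]
    calc _ = μ q * μ q' * ∑ t ∈ Ico a (a + r), A0 q c t * A0 q' c t := by
          rw [mul_sum]
          exact sum_congr rfl fun t _ => by ring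
      _ ≤ |μ q| * |μ q'| * |∑ t ∈ Ico a (a + r), A0 q c t * A0 q' c t| := by
          rw [← abs_mul, ← abs_mul]
          exact le_abs_self _
      _ ≤ M * M * (r * (if q = q' then U0 q c else 0) + 2 * (Y : ℝ) ^ 4) := by
          gcongr
          · exact hμ q
          · exact hμ q'
      _ = _ := by ring
  calc _ = ∑ q ∈ Q, ∑ q' ∈ Q, ∑ t ∈ Ico a (a + r), μ q * A0 q c t * (μ q' * A0 q' c t) := by
        simp only [sq, sum_mul_sum]
        rw [sum_comm]
        exact sum_congr rfl fun q _ => sum_comm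
    _ ≤ ∑ q ∈ Q, ∑ q' ∈ Q, M ^ 2 * (r * (if q = q' then U0 q c else 0) + 2 * (Y : ℝ) ^ 4) :=
        sum_le_sum fun q hq => sum_le_sum fun q' hq' => h1 q hq q' hq'
    _ = M ^ 2 * (r * ∑ q ∈ Q, U0 q c + 2 * (Y : ℝ) ^ 4 * Q.card ^ 2) := by
        rw [sum_congr rfl (g := fun q => M ^ 2 * (r * U0 q c + Q.card * (2 * (Y : ℝ) ^ 4)))
          (fun q hq => by
            rw [← mul_sum, sum_add_distrib, ← mul_sum, sum_ite_eq, if_pos hq, sum_const,
              nsmul_eq_mul]), ← mul_sum, sum_add_distrib, ← mul_sum, sum_const, nsmul_eq_mul]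
        ring
    _ ≤ M ^ 2 * (r * ∑ q ∈ Q, U0 q c + 2 * (Y : ℝ) ^ 4 * (Y : ℝ) ^ 2) := by gcongr
    _ = _ := by ring

theorem om_sum (r : ℕ) (hr : 1 ≤ r) (S : Finset ℕ) (m : ℤ) (G : ℤ → ℝ) (hG : ∀ t, 0 ≤ G t)
    (B : ℝ) (hB : ∀ a : ℤ, ∑ t ∈ Ico a (a + r), G t ≤ B) :
    ∑ t ∈ S, om r (m - t) * G t ≤ B / r := by
  have r0 : (0 : ℝ) < r := by exact_mod_cast hr
  have h1 : ∑ t ∈ S, om r (m - t) * G t = (∑ i ∈ range r, ∑ t ∈ S,
      (∑ j ∈ range r, if (i : ℤ) - j = m - t then (1 : ℝ) else 0) * G t) / (r : ℝ) ^ 2 := by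
    rw [sum_comm, sum_div]
    refine sum_congr rfl fun t _ => ?_
    rw [om, ← sum_mul]
    ring
  have h2 : ∀ i : ℕ, ∑ t ∈ S, (∑ j ∈ range r, if (i : ℤ) - j = m - t then (1 : ℝ) else 0) * G t ≤
      B := by
    intro i
    refine le_trans ?_ (hB (m - i))
    calc _ ≤ ∑ t ∈ S, if (t : ℤ) ∈ Ico (m - i) (m - i + r) then G t else 0 := by
          refine sum_le_sum fun t _ => ?_
          split_ifs with ht
          · refine mul_le_of_le_one_left (hG t) ?_
            rw [sum_boole, Nat.cast_le_one]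
            exact card_le_one.2 fun a ha b hb => by
              have h1 := (mem_filter.1 ha).2
              have h2 := (mem_filter.1 hb).2
              omega
          · rw [sum_eq_zero, zero_mul]
            intro j hj
            have := mem_range.1 hj
            rw [mem_Ico] at ht
            exact if_neg (by omega)
      _ = ∑ t ∈ (S.filter (fun t : ℕ => (t : ℤ) ∈ Ico (m - i) (m - i + r))).image
            (fun t : ℕ => (t : ℤ)), G t := by
          rw [sum_image (fun a _ b _ h => Int.ofNat_inj.1 h), sum_filter]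
      _ ≤ _ := by
          refine sum_le_sum_of_subset_of_nonneg (fun t ht => ?_) fun t _ _ => hG t
          obtain ⟨u, hu, rfl⟩ := mem_image.1 ht
          exact (mem_filter.1 hu).2
  rw [h1, div_le_div_iff₀ (by positivity) r0]
  calc _ ≤ (∑ _i ∈ range r, B) * r := by
        gcongr with i _
        exact h2 i
    _ = _ := by simp; ring

end OrthP

open OrthP in
theorem pOrth (hPerV : S_PerV) (hXX : S_XX) : S_Orth := by
  intro Y r Q S μ M c m hr hQ hμ
  have r0 : (0 : ℝ) < r := by exact_mod_cast hr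
  have hM : 0 ≤ M := (abs_nonneg _).trans (hμ 0)
  have hU : 0 ≤ ∑ q ∈ Q, U0 q c := sum_nonneg fun q _ => U0_nonneg q c
  have h1 := om_sum r hr S m (fun t => (∑ q ∈ Q, μ q * A0 q c t) ^ 2) (fun _ => sq_nonneg _) _
    (win hPerV hXX r hQ hμ c)
  have h2 : (∑ t ∈ S, om r (m - t) * |∑ q ∈ Q, μ q * A0 q c t|) ^ 2 ≤
      (∑ t ∈ S, om r (m - t)) * ∑ t ∈ S, om r (m - t) * (∑ q ∈ Q, μ q * A0 q c t) ^ 2 := by
    refine sum_sq_le_sum_mul_sum_of_sq_le_mul S (fun t _ => pOm.1 _ _)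
      (fun t _ => mul_nonneg (pOm.1 _ _) (sq_nonneg _)) fun t _ => le_of_eq ?_
    rw [mul_pow, sq_abs]
    ring
  have h3 := pOm.2.1 r S m
  have h4 : 0 ≤ ∑ t ∈ S, om r (m - t) * (∑ q ∈ Q, μ q * A0 q c t) ^ 2 :=
    sum_nonneg fun t _ => mul_nonneg (pOm.1 _ _) (sq_nonneg _)
  rw [← Real.sqrt_sq hM, ← Real.sqrt_mul (sq_nonneg _)]
  refine Real.le_sqrt_of_sq_le (h2.trans ((mul_le_of_le_one_left h4 h3).trans (h1.trans ?_)))
  rw [mul_div_assoc, add_div, mul_div_cancel_left₀ _ r0.ne']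
  gcongr
  linarith

end Pool.Agent.P.MP_0ad054_nt.PS
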