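import Pool.Agent.P.MP_0ad054_nt.PS.St

/-! Poisson summation in one and in four variables, and the convolution of two Gaussians. -/

namespace Pool.Agent.P.MP_0ad054_nt.PS

open Finset Pool.Agent.Lib.H9 Pool.Agent.P.MP_0ad054_nt.Sun Pool.Agent.P.MP_0ad054_nt.Sun.SphereP
  Pool.Agent.P.MP_0ad054_nt.Clu
open scoped Real ComplexConjugate

namespace P4P

open Complex

lemma sg {a : ℂ} (ha : 0 < a.re) (b c : ℂ) :
    Summable fun n : ℤ => ‖cexp (-π * a * n ^ 2 + 2 * π * b * n + c)‖ := by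
  have h := ((summable_jacobiTheta₂_term_iff (-I * b) (I * a)).2 (by simpa using ha)).mul_right
    (cexp c)
  rw [← summable_norm_iff] at h
  refine h.congr fun x => ?_
  unfold jacobiTheta₂_term
  rw [← Complex.exp_add]
  congr 2
  linear_combination (π * x ^ 2 * a - 2 * π * x * b) * I_sq

lemma ne0 {a : ℂ} (ha : 0 < a.re) : a ≠ 0 := by rintro rfl; simp at ha

lemma re_inv {a : ℂ} (ha : 0 < a.re) : 0 < (1 / a).re := by
  rw [one_div, inv_re]; exact div_pos ha (normSq_pos.2 (ne0 ha))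

lemma half {A : ℂ} (hA : A ≠ 0) {q : ℕ} (hq : 1 ≤ q) :
    (A * q ^ 2) ^ (1 / 2 : ℂ) = q * A ^ (1 / 2 : ℂ) := by
  have h : (0 : ℝ) < q := by exact_mod_cast hq
  have h' : (q : ℂ) ≠ 0 := by exact_mod_cast h.ne'
  have e : A * q ^ 2 = ((q ^ 2 : ℝ) : ℂ) * A := by push_cast; ring
  rw [cpow_def_of_ne_zero (mul_ne_zero hA (pow_ne_zero 2 h')), cpow_def_of_ne_zero hA, e,
    log_ofReal_mul (by positivity) hA, Real.log_pow, add_mul, Complex.exp_add]
  congr 1
  rw [show ((((2 : ℕ) : ℝ) * Real.log q : ℝ) : ℂ) * (1 / 2) = (Real.log q : ℝ) by push_cast; ring,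
    ← ofReal_exp, Real.exp_log h, ofReal_natCast]

lemma norm_half (a : ℂ) : ‖a ^ (1 / 2 : ℂ)‖ = √‖a‖ := by
  rw [Real.sqrt_eq_rpow, ← norm_cpow_real]; norm_num

lemma cls {q : ℕ} (hq : 1 ≤ q) {A : ℂ} (hA : 0 < A.re) (z : ℝ) (x : ℤ) :
    ∑' n : ℤ, (if (q : ℤ) ∣ n - x then cexp (-(π * A * n ^ 2)) * e (z * n) else 0) =
      1 / (q * A ^ (1 / 2 : ℂ)) *
        ∑' k : ℤ, ex q (k * x) * cexp (-(π * ((k : ℂ) / q - z) ^ 2 / A)) := by
  have h0 : (0 : ℝ) < q := by exact_mod_cast hq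
  have h' : (q : ℂ) ≠ 0 := by exact_mod_cast h0.ne'
  have hA0 := ne0 hA
  have hinj : Function.Injective (fun j : ℤ => x + q * j) := by
    intro a b h; simpa [show q ≠ 0 by omega] using h
  rw [← hinj.tsum_eq]
  · have ha : 0 < (A * q ^ 2).re := by
      have : (A * q ^ 2).re = A.re * (q : ℝ) ^ 2 := by simp [pow_two]
      rw [this]; positivity
    have h := Complex.tsum_exp_neg_quadratic ha (I * z * q - A * x * q)
    have e1 : ∀ j : ℤ, (if (q : ℤ) ∣ x + q * j - x then
        cexp (-(π * A * ((x + q * j : ℤ) : ℂ) ^ 2)) * e (z * (x + q * j : ℤ)) else 0) =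
        cexp (-(π * A * x ^ 2) + 2 * π * I * z * x) *
          cexp (-π * (A * q ^ 2) * j ^ 2 + 2 * π * (I * z * q - A * x * q) * j) := by
      intro j
      rw [if_pos (by simp)]
      unfold e
      rw [← Complex.exp_add, ← Complex.exp_add]; congr 1; push_cast; ring
    simp_rw [e1]
    rw [tsum_mul_left, h, mul_left_comm, ← tsum_mul_left, half hA0 hq]
    congr 1
    refine tsum_congr fun k => ?_
    unfold ex e
    rw [← Complex.exp_add, ← Complex.exp_add]
    congr 1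
    push_cast
    field_simp
    ring_nf
    simp only [I_pow_four, I_sq, I_pow_three]
    ring
  · intro y hy
    simp only [Function.mem_support, ne_eq, ite_eq_right_iff, Classical.not_imp] at hy
    obtain ⟨c, hc⟩ := hy.1
    exact ⟨c, by simp only; linarith⟩

lemma norm_ex (q : ℕ) (a : ℤ) : ‖ex q a‖ = 1 := norm_e _

lemma ex_congr {q : ℕ} (hq : 1 ≤ q) {a b : ℤ} (h : (q : ℤ) ∣ a - b) : ex q a = ex q b := by
  obtain ⟨c, hc⟩ := h
  have h0 : (0 : ℝ) < q := by exact_mod_cast hq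
  rw [ex, ex, ← e_add_int (b / q) c, show a = b + q * c by linarith]
  congr 1; push_cast; field_simp

lemma e_sum (f : Fin 4 → ℝ) : ∏ j, e (f j) = e (∑ j, f j) := by
  simp only [Fin.prod_univ_four, Fin.sum_univ_four, e_add]

end P4P

open P4P Complex

theorem pP1 : S_P1 := by
  intro q φ A z hq hA hφ
  have hq0 : (0 : ℤ) < q := by exact_mod_cast hq
  have hc : (q : ℂ) ≠ 0 := by exact_mod_cast hq0.ne'
  have hA0 := ne0 hA
  have s1 : Summable fun n : ℤ => ‖cexp (-(π * A * n ^ 2)) * e (z * n)‖ :=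
    (sg hA 0 0).congr fun n => by rw [norm_mul, norm_e, mul_one]; congr 2; ring
  have s2 : Summable fun k : ℤ => ‖cexp (-(π * ((k : ℂ) / q - z) ^ 2 / A))‖ := by
    have h : 0 < (1 / (A * q ^ 2)).re := re_inv (by
      have : (A * q ^ 2).re = A.re * (q : ℝ) ^ 2 := by simp [pow_two]
      rw [this]; positivity)
    refine (sg h (z / (A * q)) (-(π * z ^ 2 / A))).congr fun k => ?_
    congr 2; field_simp; ring
  have hm : ∀ n : ℤ, n % q ∈ Ico (0 : ℤ) q := fun n =>
    mem_Ico.2 ⟨Int.emod_nonneg _ hq0.ne', Int.emod_lt_of_pos _ hq0⟩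
  have hd : ∀ n : ℤ, (q : ℤ) ∣ n - n % q := fun n => Int.dvd_self_sub_emod
  have sp : ∀ n : ℤ, φ n * cexp (-(π * A * n ^ 2)) * e (z * n) = ∑ x ∈ Ico (0 : ℤ) q,
      φ x * if (q : ℤ) ∣ n - x then cexp (-(π * A * n ^ 2)) * e (z * n) else 0 := fun n => by
    rw [sum_eq_single_of_mem _ (hm n), if_pos (hd n), ← hφ _ _ (hd n), mul_assoc]
    intro x hx hne
    rw [if_neg, mul_zero]
    intro h
    rw [mem_Ico] at hx
    exact hne ((Int.emod_eq_of_lt hx.1 hx.2).symm.trans (Int.modEq_iff_dvd.2 h))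
  refine ⟨?_, s2, ?_⟩
  · refine Summable.of_nonneg_of_le (fun _ => norm_nonneg _) (fun n => ?_)
      (s1.mul_left (∑ x ∈ Ico (0 : ℤ) q, ‖φ x‖))
    rw [mul_assoc, norm_mul, hφ _ _ (hd n)]
    exact mul_le_mul_of_nonneg_right (single_le_sum (f := fun x => ‖φ x‖)
      (fun _ _ => norm_nonneg _) (hm n)) (norm_nonneg _)
  · simp_rw [sp, sum_mul]
    rw [Summable.tsum_finsetSum, Summable.tsum_finsetSum, mul_sum]
    · refine sum_congr rfl fun x _ => ?_
      rw [tsum_mul_left, cls hq hA, mul_left_comm, ← tsum_mul_left (a := φ x)]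
      simp only [mul_assoc]
    · intro x _
      refine Summable.of_norm_bounded (s2.mul_left ‖φ x‖) fun k => ?_
      rw [norm_mul, norm_mul, norm_ex, mul_one]
    · intro x _
      refine Summable.mul_left _ (Summable.of_norm_bounded s1 fun n => ?_)
      split_ifs
      · exact le_rfl
      · simp

theorem pCONV : S_CONV := by
  intro β0 β1 x h0 h1
  have n0 := ne0 h0
  have n1 := ne0 h1
  have n2 : β0 + β1 ≠ 0 := ne0 (by rw [add_re]; linarith)
  have hπ : (π : ℂ) ≠ 0 := by exact_mod_cast Real.pi_ne_zero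
  have n3 : β0 ^ (1 / 2 : ℂ) ≠ 0 := by simp [n0]
  constructor
  · have h := integral_gaussian_complex (b := π * (1 / β0))
      (by rw [re_ofReal_mul]; exact mul_pos Real.pi_pos (re_inv h0))
    rw [MeasureTheory.integral_const_mul,
      show (fun y : ℝ => cexp (-(π * y ^ 2 / β0))) = fun y : ℝ => cexp (-(π * (1 / β0)) * y ^ 2) by
        funext y; congr 1; ring, h, show (π : ℂ) / (π * (1 / β0)) = β0 by field_simp,
      one_div_mul_cancel n3]
  · have h := integral_cexp_quadratic (b := -(π * (1 / β0 + 1 / β1))) (by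
      rw [neg_re, re_ofReal_mul, add_re, neg_lt_zero]
      exact mul_pos Real.pi_pos (add_pos (re_inv h0) (re_inv h1))) (2 * π * x / β1) (-(π * x ^ 2 / β1))
    simp_rw [mul_assoc (1 / β0 ^ (1 / 2 : ℂ)), ← Complex.exp_add]
    rw [MeasureTheory.integral_const_mul,
      show (fun y : ℝ => cexp (-(π * y ^ 2 / β0) + -(π * (x - y) ^ 2 / β1))) = fun y : ℝ =>
        cexp (-(π * (1 / β0 + 1 / β1)) * y ^ 2 + 2 * π * x / β1 * y + -(π * x ^ 2 / β1)) by
        funext y; congr 1; ring, h,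
      show (π : ℂ) / - -(π * (1 / β0 + 1 / β1)) = β0 * (β1 / (β0 + β1)) by
        have : β1 + β0 ≠ 0 := by rwa [add_comm]
        rw [neg_neg]; field_simp; ring,
      show -(π * (x : ℂ) ^ 2 / β1) - (2 * π * x / β1) ^ 2 / (4 * -(π * (1 / β0 + 1 / β1))) =
        ((-(π * x ^ 2) : ℝ) : ℂ) * (1 / (β0 + β1)) by
        have : β1 + β0 ≠ 0 := by rwa [add_comm]
        push_cast; field_simp; ring,
      norm_mul, norm_mul, norm_div, norm_half, norm_half, norm_mul, norm_div, norm_one,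
      Real.sqrt_mul (norm_nonneg _), Complex.norm_exp, re_ofReal_mul, neg_mul, ← mul_assoc,
      ← mul_assoc, one_div_mul_cancel (Real.sqrt_pos.2 (norm_pos_iff.2 n0)).ne', one_mul]

theorem pP4 (hP1 : S_P1) : S_P4 := by
  intro N q b r n n1 η θ x hN hq
  have hN0 : (0 : ℝ) < N := by exact_mod_cast hN
  have hq0 : (0 : ℝ) < q := by exact_mod_cast hq
  have hqc : (q : ℂ) ≠ 0 := by exact_mod_cast hq0.ne'
  have hcz : ∀ j, (0 : ℝ) < cz j := fun j => by fin_cases j <;> simp [cz]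
  obtain ⟨w, hw⟩ : ∃ w : ℂ, w = 1 / N - I * η := ⟨_, rfl⟩
  have hw0 : 0 < w.re := by simpa [hw] using Nat.lt_of_succ_le hN
  have hA : ∀ j, 0 < (2 * cz j * w).re := fun j => by
    have : (2 * cz j * w).re = 2 * cz j * w.re := by simp
    rw [this]; have := hcz j; positivity
  obtain ⟨φ, hφ⟩ : ∃ φ : Fin 4 → ℤ → ℂ, φ = fun j a =>
    ex q (r * (cz j * a ^ 2) + n1 * (b j * a) + n * (cz j * b j * a)) := ⟨_, rfl⟩
  have H := fun j => hP1 q (φ j) (2 * cz j * w) ((x + cz j * θ) * b j / q) hq (hA j)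
    fun s t ⟨c, hc⟩ => by
      rw [hφ]
      exact ex_congr hq ⟨c * (r * cz j * (s + t) + n1 * b j + n * cz j * b j), by
        linear_combination (r * cz j * (s + t) + n1 * b j + n * cz j * b j) * hc⟩
  have L := (pi_prod_summable _ fun j => (H j).1).2
  have R := (pi_prod_summable (fun j k => (∑ y ∈ Ico (0 : ℤ) q, φ j y * ex q (k * y)) *
      cexp (-(π * ((k : ℂ) / q - ((x + cz j * θ) * b j / q : ℝ)) ^ 2 / (2 * cz j * w))))
    fun j => Summable.of_nonneg_of_le (fun _ => norm_nonneg _) (fun k => by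
      rw [norm_mul]
      refine mul_le_mul_of_nonneg_right ((norm_sum_le _ _).trans (le_of_eq ?_)) (norm_nonneg _)
      exact sum_congr rfl fun y _ => by rw [norm_mul, norm_ex, mul_one])
      ((H j).2.1.mul_left (∑ y ∈ Ico (0 : ℤ) q, ‖φ j y‖))).2
  simp only [fun j => (H j).2.2] at L
  rw [prod_mul_distrib, ← R] at L
  rw [← hw]
  convert L using 2 with a
  · funext a
    simp only [hφ, hw, EE, ex, e, Q2, QB, dot, Fin.prod_univ_four, Fin.sum_univ_four, ofReal_exp,
      ← Complex.exp_add]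
    congr 1
    simp only [cz, Matrix.cons_val_zero, Matrix.cons_val_one, Matrix.cons_val]
    push_cast
    ring
  · simp only [Fin.prod_univ_four]; field_simp
  · refine tsum_congr fun k => ?_
    rw [prod_mul_distrib, prod_univ_sum, ← Complex.exp_sum]
    congr 1
    · refine sum_congr rfl fun v _ => ?_
      simp only [hφ, ex, ← e_add, e_sum, Q2, QB, dot, Fin.sum_univ_four]
      congr 1
      simp only [cz, Matrix.cons_val_zero, Matrix.cons_val_one, Matrix.cons_val]
      push_cast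
      ring
    · congr 1
      rw [mul_sum, sum_div, ← sum_neg_distrib]
      refine sum_congr rfl fun j _ => ?_
      have h1 : ((cz j : ℤ) : ℂ) ≠ 0 := by exact_mod_cast (hcz j).ne'
      have h2 := ne0 hw0
      push_cast
      field_simp

end Pool.Agent.P.MP_0ad054_nt.PS
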