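import Pool.Agent.P.MP_0ad054_nt.PS.St

/-! Parseval: the sum over pairs of points as a double integral. -/

namespace Pool.Agent.P.MP_0ad054_nt.PS

open Finset Pool.Agent.Lib.H9 Pool.Agent.P.MP_0ad054_nt.Sun Pool.Agent.P.MP_0ad054_nt.Sun.SphereP
  Pool.Agent.P.MP_0ad054_nt.Clu
open scoped Real ComplexConjugate

namespace PARSP

theorem cont_e : Continuous e := by
  unfold e
  fun_prop

theorem orth (n : ℤ) (S : Finset ℤ) (d : ℤ → ℂ) :
    ∫ x in (0 : ℝ)..1, e (x * n) * ∑ m ∈ S, d m * e (-(x * m)) = if n ∈ S then d n else 0 := by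
  have h1 : ∀ (x : ℝ) (m : ℤ), e (x * n) * (d m * e (-(x * m))) = d m * ee (x * (n - m : ℤ)) := by
    intro x m
    rw [mul_left_comm, ← e_add]
    unfold e ee
    congr 2
    push_cast
    ring
  simp only [mul_sum, h1]
  have := continuous_ee
  rw [intervalIntegral.integral_finsetSum fun m _ =>
    Continuous.intervalIntegrable (by fun_prop) _ _]
  simp only [intervalIntegral.integral_const_mul, integral_ee_int, sub_eq_zero, mul_ite, mul_one,
    mul_zero, sum_ite_eq]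

theorem swap {ι : Type} [Countable ι] {c : ι → ℂ} (hc : Summable fun v => ‖c v‖) {F : ι → ℝ → ℂ}
    (hF : ∀ v, Continuous (F v)) {K : ℝ} (hK : ∀ v x, ‖F v x‖ ≤ K) :
    ∫ x in (0 : ℝ)..1, ∑' v, c v * F v x = ∑' v, c v * ∫ x in (0 : ℝ)..1, F v x := by
  rw [intervalIntegral.integral_of_le zero_le_one,
    ← MeasureTheory.integral_tsum_of_summable_integral_norm]
  · refine tsum_congr fun v => ?_
    rw [← intervalIntegral.integral_of_le zero_le_one, intervalIntegral.integral_const_mul]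
  · exact fun v => (continuous_const.mul (hF v)).integrableOn_Icc.mono_set Set.Ioc_subset_Icc_self
  · refine Summable.of_nonneg_of_le (fun v => by positivity) (fun v => ?_) (hc.mul_right K)
    rw [← intervalIntegral.integral_of_le zero_le_one]
    have := intervalIntegral.integral_mono_on (μ := MeasureTheory.volume) zero_le_one
      ((continuous_const.mul (hF v)).norm.intervalIntegrable 0 1)
      (intervalIntegrable_const (c := ‖c v‖ * K)) fun x _ => by
        rw [Pi.mul_apply, norm_mul]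
        exact mul_le_mul_of_nonneg_left (hK v x) (norm_nonneg _)
    simpa using this

theorem norm_poly (S : Finset ℤ) (d : ℤ → ℂ) (x : ℝ) :
    ‖∑ m ∈ S, d m * e (-(x * m))‖ ≤ ∑ m ∈ S, ‖d m‖ :=
  norm_sum_le_of_le _ fun m _ => by rw [norm_mul, norm_e, mul_one]

theorem pars (S : Finset ℤ) (d : ℤ → ℂ) :
    ∫ x in (0 : ℝ)..1, ‖∑ m ∈ S, d m * e (-(x * m))‖ ^ 2 = ∑ m ∈ S, ‖d m‖ ^ 2 := by
  have := cont_e
  refine Complex.ofReal_injective ?_
  rw [← intervalIntegral.integral_ofReal]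
  have h1 : ∀ x : ℝ, ((‖∑ m ∈ S, d m * e (-(x * m))‖ ^ 2 : ℝ) : ℂ) =
      ∑ n ∈ S, conj (d n) * (e (x * n) * ∑ m ∈ S, d m * e (-(x * m))) := fun x => by
    rw [Complex.ofReal_pow, ← Complex.conj_mul']
    simp only [map_sum, map_mul, conj_e, neg_neg, sum_mul, mul_assoc]
  simp only [h1]
  rw [intervalIntegral.integral_finsetSum fun n _ => Continuous.intervalIntegrable (by fun_prop) _ _,
    Complex.ofReal_sum]
  refine sum_congr rfl fun n hn => ?_
  rw [intervalIntegral.integral_const_mul, orth, if_pos hn, Complex.conj_mul', Complex.ofReal_pow]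

/-- the polynomial in the second frequency -/
noncomputable def DD (N : ℕ) (g : ℤ → ℂ) (t : ℤ) (lam ν : ℝ) : ℂ :=
  ∑ τ ∈ iv (4 * N), Dh N g (2 * t * τ) lam * e (-(ν * τ))

/-- the damping weight -/
noncomputable def ww (N : ℕ) (t : ℤ) (b a : V) : ℂ :=
  if dot a b = 0 then (Real.exp (-(2 * π * (Q2 a + t ^ 2 * Q2 b : ℤ) / N)) : ℝ) else 0

theorem Q2_nonneg (a : V) : 0 ≤ Q2 a := by
  unfold Q2
  positivity

theorem summable_ww {N : ℕ} (hN : 1 ≤ N) (t : ℤ) (b : V) : Summable fun a => ‖ww N t b a‖ := by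
  have n0 : (0 : ℝ) < N := by exact_mod_cast hN
  refine Summable.of_nonneg_of_le (fun _ => norm_nonneg _) (fun a => ?_)
    (summable_norm_ee_nsq (τ := ((1 / N : ℝ) : ℂ) * Complex.I) (by simpa using n0))
  unfold ww
  split_ifs
  · rw [Complex.norm_real, Real.norm_of_nonneg (Real.exp_pos _).le, norm_ee]
    refine Real.exp_le_exp.2 (neg_le_neg ?_)
    have h1 : nsq a ≤ Q2 a + t ^ 2 * Q2 b := by
      have := mul_nonneg (sq_nonneg t) (Q2_nonneg b)
      rw [nsq_eq', Q2]
      nlinarith [sq_nonneg (a 1), sq_nonneg (a 2), sq_nonneg (a 3)]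
    have h2 : (((1 / N : ℝ) : ℂ) * Complex.I * nsq a).im = (nsq a : ℝ) / N := by
      simp only [Complex.mul_im, Complex.mul_re, Complex.ofReal_re, Complex.ofReal_im,
        Complex.I_re, Complex.I_im, Complex.intCast_re, Complex.intCast_im]
      ring
    rw [h2, mul_div_assoc]
    gcongr
  · simp

theorem cont_Dh (N : ℕ) (g : ℤ → ℂ) (k : ℤ) : Continuous (Dh N g k) := by
  have := cont_e
  unfold Dh
  fun_prop

theorem inner {N : ℕ} (hN : 1 ≤ N) (g : ℤ → ℂ) (t : ℤ) (b : V) (lam : ℝ) :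
    ∫ ν in (0 : ℝ)..1, EE N lam (t ^ 2 * Q2 b) * Th N b lam ν * DD N g t lam ν =
      ∑' a, ww N t b a * (e (lam * (Q2 a + t ^ 2 * Q2 b : ℤ)) *
        if QB b a ∈ iv (4 * N) then Dh N g (2 * t * QB b a) lam else 0) := by
  have := cont_e
  have h1 : ∀ ν : ℝ, EE N lam (t ^ 2 * Q2 b) * Th N b lam ν * DD N g t lam ν =
      ∑' a, ww N t b a * (e (lam * (Q2 a + t ^ 2 * Q2 b : ℤ)) *
        (e (ν * QB b a) * DD N g t lam ν)) := fun ν => by
    rw [Th, ← tsum_mul_left, ← tsum_mul_right]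
    refine tsum_congr fun a => ?_
    unfold ww
    split_ifs
    · rw [EE, EE, Int.cast_add, mul_add lam, e_add, mul_add, add_div, neg_add, Real.exp_add,
        Complex.ofReal_mul]
      ring
    · simp
  simp only [h1]
  rw [swap (summable_ww hN t b) (fun a => by unfold DD; fun_prop)
    (K := ∑ τ ∈ iv (4 * N), ‖Dh N g (2 * t * τ) lam‖) fun a ν => by
      rw [norm_mul, norm_mul, norm_e, norm_e, one_mul, one_mul]
      exact norm_poly _ _ _]
  refine tsum_congr fun a => ?_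
  rw [intervalIntegral.integral_const_mul]
  exact congrArg (fun z => _ * (_ * z)) (orth _ _ fun τ => Dh N g (2 * t * τ) lam)

theorem Q2_add (a b : V) (t : ℤ) :
    Q2 (a + t • b) = Q2 a + t ^ 2 * Q2 b + 2 * t * QB b a ∧
      Q2 (a - t • b) = Q2 a + t ^ 2 * Q2 b - 2 * t * QB b a := by
  simp only [Q2, QB, cz, Fin.sum_univ_four, Pi.add_apply, Pi.sub_apply, Pi.smul_apply, smul_eq_mul,
    Matrix.cons_val_zero, Matrix.cons_val_one, Matrix.cons_val]
  constructor <;> ring

theorem outer {N R : ℕ} (hN : 1 ≤ N) (hR : 7 * N ≤ R ^ 2) {g : ℤ → ℂ}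
    (hg : ∀ m, g m ≠ 0 → 0 ≤ m ∧ m ≤ 7 * N) {t : ℤ} (ht : 1 ≤ t) (b : V) :
    ∫ lam in (0 : ℝ)..1, ∫ ν in (0 : ℝ)..1,
      EE N lam (t ^ 2 * Q2 b) * Th N b lam ν * DD N g t lam ν = Pb R (dmp N g) t b := by
  have := cont_e
  simp only [inner hN]
  rw [swap (summable_ww hN t b) (fun a => by
      have := cont_Dh N g (2 * t * QB b a)
      split_ifs <;> fun_prop)
    (K := ∑ τ ∈ iv (4 * N), ∑ M ∈ Icc (0 : ℤ) (7 * N), ‖g (M + 2 * t * τ) * conj (g (M - 2 * t * τ))‖)
    fun a lam => by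
      rw [norm_mul, norm_e, one_mul]
      split_ifs with h
      · exact (norm_poly _ _ _).trans (single_le_sum (f := fun τ => ∑ M ∈ Icc (0 : ℤ) (7 * N),
          ‖g (M + 2 * t * τ) * conj (g (M - 2 * t * τ))‖) (fun _ _ => by positivity) h)
      · rw [norm_zero]
        positivity]
  have h1 : ∀ a : V, (∫ lam in (0 : ℝ)..1, e (lam * (Q2 a + t ^ 2 * Q2 b : ℤ)) *
      if QB b a ∈ iv (4 * N) then Dh N g (2 * t * QB b a) lam else 0) =
      g (Q2 (a + t • b)) * conj (g (Q2 (a - t • b))) := fun a => by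
    rw [(Q2_add a b t).1, (Q2_add a b t).2]
    generalize Q2 a + t ^ 2 * Q2 b = M
    generalize QB b a = τ
    have h2 : g (M + 2 * t * τ) * conj (g (M - 2 * t * τ)) ≠ 0 →
        τ ∈ iv (4 * N) ∧ M ∈ Icc (0 : ℤ) (7 * N) := fun h => by
      have a1 := hg _ (left_ne_zero_of_mul h)
      have a2 := hg _ fun e => right_ne_zero_of_mul h (by rw [e, map_zero])
      rw [iv, mem_Icc, mem_Icc]
      push_cast
      refine ⟨⟨?_, ?_⟩, by linarith, by linarith⟩ <;> by_contra hc <;> nlinarith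
    split_ifs with h
    · refine (orth M _ fun M => g (M + 2 * t * τ) * conj (g (M - 2 * t * τ))).trans ?_
      split_ifs with h'
      · rfl
      · by_contra e
        exact h' (h2 (Ne.symm e)).2
    · simp only [mul_zero, intervalIntegral.integral_zero]
      by_contra e
      exact h (h2 (Ne.symm e)).1
  simp only [h1]
  rw [Pb, tsum_eq_sum (s := (bx R).filter fun a => dot a b = 0)]
  · refine sum_congr rfl fun a ha => ?_
    have e1 : Real.exp (-(2 * π * (Q2 a + t ^ 2 * Q2 b : ℤ) / N)) =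
        Real.exp (-(π * (Q2 (a + t • b) : ℤ) / N)) * Real.exp (-(π * (Q2 (a - t • b) : ℤ) / N)) := by
      rw [← Real.exp_add, (Q2_add a b t).1, (Q2_add a b t).2]
      congr 1
      push_cast
      ring
    rw [ww, if_pos (mem_filter.1 ha).2, dmp, dmp, map_mul, Complex.conj_ofReal, e1,
      Complex.ofReal_mul]
    ring
  · intro a ha
    by_contra h
    have a0 : dot a b = 0 := by
      by_contra e
      exact h (by rw [ww, if_neg e, zero_mul])
    have h3 := right_ne_zero_of_mul h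
    have a1 := hg _ (left_ne_zero_of_mul h3)
    have a2 := hg _ fun e => right_ne_zero_of_mul h3 (by rw [e, map_zero])
    rw [(Q2_add a b t).1] at a1
    rw [(Q2_add a b t).2] at a2
    have a3 := mul_nonneg (sq_nonneg t) (Q2_nonneg b)
    have a4 : (7 * N : ℤ) ≤ (R : ℤ) ^ 2 := by exact_mod_cast hR
    have a5 : nsq a ≤ Q2 a := by
      rw [nsq_eq', Q2]
      nlinarith [sq_nonneg (a 1), sq_nonneg (a 2), sq_nonneg (a 3)]
    refine ha (mem_filter.2 ⟨Fintype.mem_piFinset.2 fun j => mem_Icc.2 ?_, a0⟩)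
    have a6 : a j ^ 2 ≤ nsq a := single_le_sum (f := fun j => a j ^ 2) (fun _ _ => sq_nonneg _)
      (mem_univ j)
    exact abs_le.1 (abs_le_of_sq_le_sq (by linarith) (Int.natCast_nonneg R))

theorem cs (s : Finset ℤ) (U D : ℤ → ℝ → ℂ) (hU : ∀ t, Continuous (U t))
    (hD : ∀ t, Continuous (D t)) :
    ‖∑ t ∈ s, ∫ x in (0 : ℝ)..1, U t x * D t x‖ ≤
      √(∑ t ∈ s, ∫ x in (0 : ℝ)..1, ‖D t x‖ ^ 2) * √(∑ t ∈ s, ∫ x in (0 : ℝ)..1, ‖U t x‖ ^ 2) := by
  have h0 : 0 ≤ ∑ t ∈ s, ∫ x in (0 : ℝ)..1, ‖D t x‖ ^ 2 := sum_nonneg fun t _ =>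
    intervalIntegral.integral_nonneg zero_le_one fun _ _ => by positivity
  have h1 : ‖∑ t ∈ s, ∫ x in (0 : ℝ)..1, U t x * D t x‖ ≤
      ∑ t ∈ s, ∫ x in (0 : ℝ)..1, ‖U t x‖ * ‖D t x‖ := norm_sum_le_of_le _ fun t _ => by
    simpa only [norm_mul] using intervalIntegral.norm_integral_le_integral_norm
      (f := fun x => U t x * D t x) (μ := MeasureTheory.volume) zero_le_one
  have h2 := discrim_le_zero (a := ∑ t ∈ s, ∫ x in (0 : ℝ)..1, ‖D t x‖ ^ 2)
    (b := 2 * ∑ t ∈ s, ∫ x in (0 : ℝ)..1, ‖U t x‖ * ‖D t x‖)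
    (c := ∑ t ∈ s, ∫ x in (0 : ℝ)..1, ‖U t x‖ ^ 2) fun y => by
      rw [mul_sum, sum_mul, sum_mul, ← sum_add_distrib, ← sum_add_distrib]
      refine sum_nonneg fun t _ => ?_
      have := hU t
      have := hD t
      rw [← intervalIntegral.integral_const_mul, ← intervalIntegral.integral_mul_const,
        ← intervalIntegral.integral_mul_const, ← intervalIntegral.integral_add,
        ← intervalIntegral.integral_add]
      · exact intervalIntegral.integral_nonneg zero_le_one fun x _ => by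
          nlinarith [sq_nonneg (‖D t x‖ * y + ‖U t x‖)]
      all_goals exact Continuous.intervalIntegrable (by fun_prop) _ _
  rw [← Real.sqrt_mul h0]
  refine h1.trans (Real.le_sqrt_of_sq_le ?_)
  rw [discrim] at h2
  linarith

theorem cont_DD (N : ℕ) (g : ℤ → ℂ) (t : ℤ) : Continuous fun p : ℝ × ℝ => DD N g t p.1 p.2 := by
  have ce := cont_e
  have cD := cont_Dh N g
  unfold DD
  fun_prop

theorem cont_EE (N : ℕ) (m : ℤ) : Continuous fun lam : ℝ => EE N lam m := by
  have ce := cont_e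
  unfold EE
  fun_prop

theorem cont_FF (N T : ℕ) (g : ℤ → ℂ) : Continuous (FF N T g) := by
  have cD := cont_Dh N g
  unfold FF
  fun_prop

theorem point {N T : ℕ} {B : Finset V} (g : ℤ → ℂ) {lam : ℝ} (c4 : ∀ b, Continuous (Th N b lam))
    (h : ∑ t ∈ Ioc (T : ℤ) (2 * T), ∫ ν in (0 : ℝ)..1, ‖UU N B t lam ν‖ ^ 2 ≤
      Real.exp (4 * π) * Xi N T B lam) :
    ‖∑ t ∈ Ioc (T : ℤ) (2 * T), ∑ b ∈ B, ∫ ν in (0 : ℝ)..1,
      EE N lam (t ^ 2 * Q2 b) * Th N b lam ν * DD N g t lam ν‖ ≤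
      Real.exp (2 * π) * (FF N T g lam * √(Xi N T B lam)) := by
  have c5 : ∀ t, Continuous (DD N g t lam) := fun t => by
    have := cont_e
    unfold DD
    fun_prop
  have e1 : ∀ t : ℤ, ∑ b ∈ B, ∫ ν in (0 : ℝ)..1,
      EE N lam (t ^ 2 * Q2 b) * Th N b lam ν * DD N g t lam ν =
      ∫ ν in (0 : ℝ)..1, UU N B t lam ν * DD N g t lam ν := fun t => by
    rw [← intervalIntegral.integral_finsetSum fun b _ =>
      Continuous.intervalIntegrable (by fun_prop) _ _]
    simp only [UU, sum_mul]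
  simp only [e1]
  refine (cs _ (fun t => UU N B t lam) (fun t => DD N g t lam) (fun t => by unfold UU; fun_prop)
    c5).trans ?_
  simp only [DD, pars]
  rw [mul_left_comm]
  refine mul_le_mul_of_nonneg_left ((Real.sqrt_le_sqrt h).trans (le_of_eq ?_))
    (Real.sqrt_nonneg _)
  rw [Real.sqrt_mul (Real.exp_pos _).le, ← Real.exp_half]
  congr 2
  ring

theorem cont_int {F : ℝ → ℂ} {G H : ℝ → ℝ → ℂ} (hF : Continuous F)
    (hG : Continuous fun p : ℝ × ℝ => G p.1 p.2) (hH : Continuous fun p : ℝ × ℝ => H p.1 p.2) :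
    Continuous fun x : ℝ => ∫ y in (0 : ℝ)..1, F x * G x y * H x y :=
  intervalIntegral.continuous_parametric_intervalIntegral_of_continuous'
    (f := fun x y => F x * G x y * H x y) (((hF.comp continuous_fst).mul hG).mul hH) 0 1

theorem cont_left {G : ℝ → ℝ → ℂ} (hG : Continuous fun p : ℝ × ℝ => G p.1 p.2) (x : ℝ) :
    Continuous (G x) := hG.comp (Continuous.prodMk_right x)

end PARSP

open PARSP in
theorem pPARS (hXI : S_XI) : S_PARS := by
  obtain ⟨C, -, H⟩ := hXI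
  refine ⟨Real.exp (2 * π), Real.exp_pos _, fun N R T B g hN hT hR hg => ?_⟩
  obtain ⟨H1, H2⟩ := H N hN
  obtain ⟨H2, -, H3⟩ := H2 T B hT
  have c2 : ∀ (t : ℤ) (b : V), Continuous fun lam : ℝ => ∫ ν in (0 : ℝ)..1,
      EE N lam (t ^ 2 * Q2 b) * Th N b lam ν * DD N g t lam ν := fun t b =>
    cont_int (G := Th N b) (H := DD N g t) (cont_EE N _) (H1 b).1 (cont_DD N g t)
  have e0 : ∑ t ∈ Ioc (T : ℤ) (2 * T), ∑ b ∈ B, Pb R (dmp N g) t b =
      ∫ lam in (0 : ℝ)..1, ∑ t ∈ Ioc (T : ℤ) (2 * T), ∑ b ∈ B, ∫ ν in (0 : ℝ)..1,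
        EE N lam (t ^ 2 * Q2 b) * Th N b lam ν * DD N g t lam ν := by
    rw [intervalIntegral.integral_finsetSum fun t _ =>
      (continuous_finsetSum B fun b _ => c2 t b).intervalIntegrable 0 1]
    refine sum_congr rfl fun t ht => ?_
    rw [intervalIntegral.integral_finsetSum fun b _ => (c2 t b).intervalIntegrable 0 1]
    exact sum_congr rfl fun b _ => (outer hN hR hg (by have := (mem_Ioc.1 ht).1; omega) b).symm
  rw [e0, ← intervalIntegral.integral_const_mul]
  exact intervalIntegral.norm_integral_le_of_norm_le zero_le_one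
    (Filter.Eventually.of_forall fun lam _ => point g
      (fun b => cont_left (G := Th N b) (H1 b).1 lam) (H3 lam))
    ((continuous_const.mul ((cont_FF N T g).mul H2.sqrt)).intervalIntegrable _ _)

end Pool.Agent.P.MP_0ad054_nt.PS
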