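import Pool.Agent.P.MP_0ad054_nt.PS.StT
import Pool.Agent.P.MP_0ad054_nt.Clu.Prod
import Pool.Agent.P.MP_0ad054_nt.Clu.Cusp

/-! The kernel minus its spherical means is a cusp form. -/

namespace Pool.Agent.P.MP_0ad054_nt.PS

open Finset Pool.Agent.Lib.H9 Pool.Agent.P.MP_0ad054_nt.Sun Pool.Agent.P.MP_0ad054_nt.Sun.SphereP
  Pool.Agent.P.MP_0ad054_nt.Clu Pool.Agent.P.MP_0ad054_nt.Clu.ProdP

namespace ProdVP

open Classical in
lemma avg (p e : ℕ) (g : V → ℂ) (h : ℤ → ℂ)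
    (hh : ∀ s s' : ℤ, (nm p e : ℤ) ∣ s - s' → h s = h s') :
    ∑ v ∈ (res (p ^ e)).filter (pr p), (∑ w ∈ P0 p e (nsq v), g w) / (P0 p e (nsq v)).card *
      h (nsq v) = ∑ w ∈ (res (p ^ e)).filter (pr p), g w * h (nsq w) := by
  set R := (res (p ^ e)).filter (pr p) with hR
  have e0 : ∀ c, P0 p e c = R.filter fun w => (nm p e : ℤ) ∣ nsq w - c := fun c => by
    rw [hR, filter_filter]; rfl
  have e1 : ∀ v ∈ R, (∑ w ∈ P0 p e (nsq v), g w) / (P0 p e (nsq v)).card * h (nsq v) =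
      ∑ w ∈ R, if (nm p e : ℤ) ∣ nsq v - nsq w then
        g w * h (nsq w) / (P0 p e (nsq w)).card else 0 := fun v _ => by
    rw [sum_div, sum_mul, ← sum_filter]
    refine sum_congr (by rw [e0]; simp only [dvd_sub_comm]) fun w hw => ?_
    have h1 := (mem_filter.1 hw).2
    rw [P0_cong h1, hh _ _ h1]; ring
  rw [sum_congr rfl e1, sum_comm]
  refine sum_congr rfl fun w hw => ?_
  rw [← sum_filter, ← e0, sum_const, nsmul_eq_mul]
  have h5 : (P0 p e (nsq w)).card ≠ 0 :=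
    card_ne_zero.2 ⟨w, by rw [e0]; exact mem_filter.2 ⟨hw, by simp⟩⟩
  have h6 : ((P0 p e (nsq w)).card : ℂ) ≠ 0 := by exact_mod_cast h5
  field_simp

lemma rk_eq (p e j : ℕ) (c t : ℤ) :
    rk p e j c t = (∑ w ∈ P0 p e c, (ph (p ^ j) (Q2 w - t) + 1)) / (P0 p e c).card := by
  simp only [rk, ph, sub_add_cancel]
  rw [← sum_filter, sum_const, nsmul_eq_mul, mul_comm]
  push_cast
  rfl

lemma nonprim {p k : ℕ} (hk : 1 ≤ k) {t : ℤ} (ht : ¬ (p : ℤ) ∣ t) {v : V} (hv : ¬ pr p v) :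
    cq p k (Q2 v - t) = XX p k t v := by
  have h1 : ∀ j, 1 ≤ j → ph (p ^ j) (Q2 v - t) = -1 := fun j hj => by
    rw [ph, if_neg fun h2 => hv (pr_of_dvd hj ht (by exact_mod_cast h2)), zero_sub]
  rw [XX, if_neg hv, cq, h1 k hk]
  split_ifs with h
  · subst h; simp [ph]
  · rw [h1 (k - 1) (by omega), sub_self]

lemma mean {p k : ℕ} (hk : 1 ≤ k) {t : ℤ} (ht : ¬ (p : ℤ) ∣ t) (h : ℤ → ℂ)
    (hh : ∀ s s' : ℤ, (nm p (max k 2) : ℤ) ∣ s - s' → h s = h s') :
    ∑ v ∈ res (p ^ max k 2), ((cq p k (Q2 v - t) - XX p k t v : ℝ) : ℂ) * h (nsq v) = 0 := by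
  classical
  have h1 := avg p (max k 2) (fun w => ((cq p k (Q2 w - t) : ℝ) : ℂ)) h hh
  rw [← sum_filter_of_ne (p := pr p) fun v _ h0 => by
    by_contra hv
    exact h0 (by rw [nonprim hk ht hv, sub_self, Complex.ofReal_zero, zero_mul])]
  simp only [Complex.ofReal_sub, sub_mul, sum_sub_distrib]
  rw [← h1, sub_eq_zero]
  refine sum_congr rfl fun v hv => ?_
  rw [XX, if_pos (mem_filter.1 hv).2, xx, rk_eq, rk_eq, ← sub_div, ← sum_sub_distrib]
  simp only [cq, add_sub_add_right_eq_sub]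
  push_cast
  rfl

lemma sub_cong {p k j : ℕ} (hk : j ≤ k) {v w : V} (h : ∀ i, ((p ^ k : ℕ) : ℤ) ∣ v i - w i) :
    ∀ i, ((p ^ j : ℕ) : ℤ) ∣ v i - w i := fun i =>
  (Int.natCast_dvd_natCast.2 (pow_dvd_pow p hk)).trans (h i)

lemma cq_cong {p k : ℕ} (t : ℤ) {v w : V} (h : ∀ i, ((p ^ max k 2 : ℕ) : ℤ) ∣ v i - w i) :
    cq p k (Q2 v - t) = cq p k (Q2 w - t) := by
  rw [cq, cq, ph_cong t (sub_cong (le_max_left k 2) h),
    ph_cong t (sub_cong ((Nat.sub_le k 1).trans (le_max_left k 2)) h)]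

lemma XX_cong {p k : ℕ} (t : ℤ) {v w : V} (h : ∀ i, ((p ^ max k 2 : ℕ) : ℤ) ∣ v i - w i) :
    XX p k t v = XX p k t w := by
  have he : 1 ≤ max k 2 := le_max_of_le_right one_le_two
  unfold XX xx rk
  rw [P0_cong (nsq_cong he h)]
  by_cases hv : pr p v
  · rw [if_pos hv, if_pos ((pr_cong he h).1 hv)]
  · rw [if_neg hv, if_neg (fun hw => hv ((pr_cong he h).2 hw))]

lemma cong_of {T : Finset ℕ} {e : ℕ → ℕ} {D p : ℕ} (hp : p ∈ T) {v w : V}
    (h : ∀ j, (((∏ p ∈ T, p ^ e p) * D : ℕ) : ℤ) ∣ v j - w j) :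
    ∀ j, ((p ^ e p : ℕ) : ℤ) ∣ v j - w j := fun j =>
  Dvd.dvd.trans (Int.natCast_dvd_natCast.2
    ((dvd_prod_of_mem (fun p => p ^ e p) hp).mul_right D)) (h j)

lemma cusp_prod (k : ℕ → ℕ) (t : ℤ) (T : Finset ℕ) :
    ∀ (D : ℕ) (χ : V → ℂ), (∀ p ∈ T, p.Prime ∧ ¬ p ∣ D ∧ ¬ (p : ℤ) ∣ t ∧ 1 ≤ k p) → D ≠ 0 →
      Per D χ → Cusp ((∏ p ∈ T, p ^ max (k p) 2) * D) (fun v =>
      ((∏ p ∈ T, cq p (k p) (Q2 v - t) - ∏ p ∈ T, XX p (k p) t v : ℝ) : ℂ) * χ v) := by
  induction T using Finset.induction_on with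
  | empty => intro D χ _ _ _ q a _ _; simp
  | insert p T hpT ih =>
    intro D χ hT hD hχ
    obtain ⟨hp, hpD, hpt, hk⟩ := hT p (mem_insert_self _ _)
    have hT' := fun q hq => hT q (mem_insert_of_mem hq)
    have hM0 : (∏ q ∈ T, q ^ max (k q) 2) * D ≠ 0 :=
      mul_ne_zero (prod_ne_zero_iff.2 fun q hq => pow_ne_zero _ (hT' q hq).1.ne_zero) hD
    have hpM : ¬ p ∣ (∏ q ∈ T, q ^ max (k q) 2) * D := by
      intro hd
      rcases (Nat.Prime.dvd_mul hp).1 hd with h1 | h1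
      · obtain ⟨q, hq, h2⟩ := (Prime.dvd_finsetProd_iff hp.prime _).1 h1
        have := (Nat.prime_dvd_prime_iff_eq hp (hT' q hq).1).1 (hp.dvd_of_dvd_pow h2)
        exact hpT (this ▸ hq)
      · exact hpD h1
    have c1 := pCusp p (max (k p) 2) ((∏ q ∈ T, q ^ max (k q) 2) * D)
      (fun v => ((cq p (k p) (Q2 v - t) - XX p (k p) t v : ℝ) : ℂ))
      (fun v => ((∏ q ∈ T, cq q (k q) (Q2 v - t) : ℝ) : ℂ) * χ v) hp (le_max_right _ _) hM0 hpM
      (fun v w hvw => by simp only [cq_cong t hvw, XX_cong t hvw])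
      (fun v hv => by rw [nonprim hk hpt hv, sub_self, Complex.ofReal_zero])
      (fun g hg => mean hk hpt g hg)
      (fun v w hvw => by
        simp only
        rw [hχ v w (cong_D hvw), prod_congr rfl fun q hq =>
          cq_cong t (cong_of (e := fun q => max (k q) 2) hq hvw)])
    have c2 := ih (p ^ max (k p) 2 * D) (fun v => ((XX p (k p) t v : ℝ) : ℂ) * χ v)
      (fun q hq => ⟨(hT' q hq).1, fun hd => by
        rcases (Nat.Prime.dvd_mul (hT' q hq).1).1 hd with h1 | h1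
        · have := (Nat.prime_dvd_prime_iff_eq (hT' q hq).1 hp).1 ((hT' q hq).1.dvd_of_dvd_pow h1)
          exact hpT (this ▸ hq)
        · exact (hT' q hq).2.1 h1, (hT' q hq).2.2⟩)
      (mul_ne_zero (pow_ne_zero _ hp.ne_zero) hD)
      (fun v w hvw => by
        simp only
        rw [hχ v w (cong_D hvw), XX_cong t (cong_M hvw)])
    rw [mul_left_comm] at c2
    rw [prod_insert hpT, mul_assoc]
    refine cusp_add c1 c2 fun v => ?_
    simp only [prod_insert hpT]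
    push_cast
    ring

end ProdVP

open ProdVP in
theorem pProdV (hXX : S_XX) : S_ProdV := by
  intro q t hq ht
  have h0 : q ≠ 0 := by omega
  have hT : ∀ p ∈ q.primeFactors, p.Prime ∧ ¬ p ∣ 1 ∧ ¬ (p : ℤ) ∣ t ∧ 1 ≤ q.factorization p := by
    intro p hp
    have h1 := Nat.prime_of_mem_primeFactors hp
    have h2 := Nat.dvd_of_mem_primeFactors hp
    refine ⟨h1, h1.not_dvd_one, fun h => ?_, h1.factorization_pos_of_dvd h0 h2⟩
    exact (Nat.prime_iff_prime_int.1 h1).not_isUnit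
      (ht.isUnit_of_dvd' h (Int.natCast_dvd_natCast.2 h2))
  have eq : ∏ p ∈ q.primeFactors, p ^ q.factorization p = q :=
    Nat.prod_factorization_pow_eq_self h0
  have eq' : ∏ p ∈ q.primeFactors, (p : ℝ) ^ q.factorization p = q := by exact_mod_cast eq
  refine ⟨prod_ne_zero_iff.2 fun p hp => pow_ne_zero _ (hT p hp).1.ne_zero, ?_, fun v => ?_,
    fun v w hvw => ?_, ?_⟩
  · conv_rhs => rw [← eq, ← prod_pow]
    refine prod_le_prod' fun p hp => ?_
    rw [← pow_mul]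
    have := (hT p hp).2.2.2
    exact Nat.pow_le_pow_right (hT p hp).1.pos (by omega)
  · have b1 : |cr q (Q2 v - t)| ≤ q := by
      rw [cr, abs_prod, ← eq']
      exact prod_le_prod (fun _ _ => abs_nonneg _) fun p hp =>
        (hXX p _ 0 (hT p hp).1 (hT p hp).2.2.2).2.1 _
    have b2 : |AV q t v| ≤ q := by
      rw [AV, abs_prod, ← eq']
      refine prod_le_prod (fun _ _ => abs_nonneg _) fun p hp => ?_
      have h1 : (1 : ℝ) ≤ (p : ℝ) ^ q.factorization p :=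
        one_le_pow₀ (by exact_mod_cast (hT p hp).1.one_le)
      unfold XX
      split_ifs
      · exact (hXX p _ _ (hT p hp).1 (hT p hp).2.2.2).1 _
      · simpa using h1
      · simp
    linarith [abs_sub (cr q (Q2 v - t)) (AV q t v)]
  · have hvw' : ∀ p ∈ q.primeFactors, ∀ j,
        ((p ^ max (q.factorization p) 2 : ℕ) : ℤ) ∣ v j - w j := fun p hp j =>
      (Int.natCast_dvd_natCast.2
        (dvd_prod_of_mem (fun p => p ^ max (q.factorization p) 2) hp)).trans (hvw j)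
    simp only [cr, AV]
    rw [prod_congr rfl fun p hp => cq_cong t (hvw' p hp),
      prod_congr rfl fun p hp => XX_cong t (hvw' p hp)]
  · have h := cusp_prod q.factorization t q.primeFactors 1 (fun _ => 1) hT one_ne_zero
      fun _ _ _ => rfl
    simp only [mul_one] at h
    exact h

end Pool.Agent.P.MP_0ad054_nt.PS
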