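import Pool.Agent.P.MP_0ad054_nt.PS.StT
import Pool.Agent.P.MP_0ad054_nt.Sun.RG

/-! Sums of two squares and the first moment of the content on a sphere. -/

namespace Pool.Agent.P.MP_0ad054_nt.PS

open Finset Pool.Agent.Lib.H9 Pool.Agent.P.MP_0ad054_nt.Sun Pool.Agent.P.MP_0ad054_nt.Sun.SphereP
  Pool.Agent.P.MP_0ad054_nt.Clu

namespace R4P

theorem cop {x w g : ℤ} (h : x ^ 2 + w ^ 2 = g) (hc : IsCoprime x w) : IsCoprime g w := by
  have := (hc.pow_left (m := 2)).add_mul_left_left w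
  have e : x ^ 2 + w * w = g := by linear_combination h
  rwa [e] at this

theorem not_four {x w : ℤ} (hc : IsCoprime x w) : ¬ (4 : ℤ) ∣ x ^ 2 + w ^ 2 := by
  intro h
  rcases Int.even_or_odd' x with ⟨a, rfl | rfl⟩ <;> rcases Int.even_or_odd' w with ⟨b, rfl | rfl⟩
  · obtain ⟨u, v, e⟩ := hc
    have : 2 * (u * a + v * b) = 1 := by linear_combination e
    omega
  · have : (2 * a) ^ 2 + (2 * b + 1) ^ 2 = 4 * (a ^ 2 + b ^ 2 + b) + 1 := by ring
    omega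
  · have : (2 * a + 1) ^ 2 + (2 * b) ^ 2 = 4 * (a ^ 2 + b ^ 2 + a) + 1 := by ring
    omega
  · have : (2 * a + 1) ^ 2 + (2 * b + 1) ^ 2 = 4 * (a ^ 2 + b ^ 2 + a + b) + 2 := by ring
    omega

theorem same {g x0 w0 x1 w1 x2 w2 : ℤ} (hg : 0 < g)
    (h0 : x0 ^ 2 + w0 ^ 2 = g) (c0 : IsCoprime x0 w0)
    (h1 : x1 ^ 2 + w1 ^ 2 = g) (c1 : IsCoprime x1 w1) (h2 : x2 ^ 2 + w2 ^ 2 = g)
    (e : Int.gcd g (x1 * w0 - x0 * w1) = Int.gcd g (x2 * w0 - x0 * w2)) :
    (x2 = x1 ∧ w2 = w1) ∨ (x2 = -x1 ∧ w2 = -w1) ∨ (x2 = -w1 ∧ w2 = x1) ∨ (x2 = w1 ∧ w2 = -x1) := by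
  obtain ⟨d, hd⟩ : ∃ d : ℤ, d = Int.gcd g (x1 * w0 - x0 * w1) := ⟨_, rfl⟩
  have hd2 : d = Int.gcd g (x2 * w0 - x0 * w2) := by rw [hd, e]
  have hdg : d ∣ g := by rw [hd]; exact Int.gcd_dvd_left _ _
  obtain ⟨h, hh⟩ := hdg
  have hd0 : d ≠ 0 := by rintro h'; rw [h'] at hh; omega
  have a1 : d ∣ x1 * w0 - x0 * w1 := by rw [hd]; exact Int.gcd_dvd_right _ _
  have a2 : d ∣ x2 * w0 - x0 * w2 := by rw [hd2]; exact Int.gcd_dvd_right _ _
  have b1 : h ∣ x1 * w0 + x0 * w1 := RGP.cofactor hd0 hh hd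
    ⟨w0 ^ 2 - w1 ^ 2, by linear_combination w0 ^ 2 * h1 - w1 ^ 2 * h0⟩
  have b2 : h ∣ x2 * w0 + x0 * w2 := RGP.cofactor hd0 hh hd2
    ⟨w0 ^ 2 - w2 ^ 2, by linear_combination w0 ^ 2 * h2 - w2 ^ 2 * h0⟩
  have g0 := cop h0 c0
  have g1 := cop h1 c1
  have dE : d ∣ x1 * w2 - x2 * w1 := by
    refine (g0.of_isCoprime_of_dvd_left ⟨h, hh⟩).dvd_of_dvd_mul_left ?_
    have : w0 * (x1 * w2 - x2 * w1) = (x1 * w0 - x0 * w1) * w2 - (x2 * w0 - x0 * w2) * w1 := by ring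
    rw [this]
    exact dvd_sub (a1.mul_right _) (a2.mul_right _)
  have hE : h ∣ x1 * w2 - x2 * w1 := by
    refine (g0.of_isCoprime_of_dvd_left ⟨d, by rw [hh]; ring⟩).dvd_of_dvd_mul_left ?_
    have : w0 * (x1 * w2 - x2 * w1) = (x1 * w0 + x0 * w1) * w2 - (x2 * w0 + x0 * w2) * w1 := by ring
    rw [this]
    exact dvd_sub (b1.mul_right _) (b2.mul_right _)
  obtain ⟨t, ht⟩ : ∃ t : ℕ, t = Int.gcd d h := ⟨_, rfl⟩
  have td : (t : ℤ) ∣ d := by rw [ht]; exact Int.gcd_dvd_left _ _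
  have th : (t : ℤ) ∣ h := by rw [ht]; exact Int.gcd_dvd_right _ _
  have tg : (t : ℤ) ∣ g := td.trans ⟨h, hh⟩
  have t2 : (t : ℤ) ^ 2 ∣ g := by rw [hh, sq]; exact mul_dvd_mul td th
  have t3 : (t : ℤ) ∣ 2 * x1 := by
    refine (g0.of_isCoprime_of_dvd_left tg).dvd_of_dvd_mul_left ?_
    have : w0 * (2 * x1) = (x1 * w0 - x0 * w1) + (x1 * w0 + x0 * w1) := by ring
    rw [this]
    exact dvd_add (td.trans a1) (th.trans b1)
  have t4 : (t : ℤ) ^ 2 ∣ 4 := by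
    refine ((g1.of_isCoprime_of_dvd_left tg).pow (m := 2) (n := 2)).dvd_of_dvd_mul_left ?_
    have : w1 ^ 2 * 4 = g * 4 - (2 * x1) ^ 2 := by linear_combination 4 * h1
    rw [this]
    exact dvd_sub (t2.mul_right _) (pow_dvd_pow_of_dvd t3 2)
  have t5 : t ^ 2 ∣ 4 := by exact_mod_cast t4
  have t6 : t ≤ 2 := by
    have := Nat.le_of_dvd (by norm_num) t5
    nlinarith
  have t7 : t = 1 := by
    have h4 : t ≠ 2 := by
      rintro rfl
      exact not_four c1 (by rw [h1]; simpa using t2)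
    have h5 : t ≠ 0 := by
      rintro rfl
      simp at t5
    omega
  have hc : IsCoprime d h := Int.isCoprime_iff_gcd_eq_one.2 (ht.symm.trans t7)
  obtain ⟨k, hk⟩ : g ∣ x1 * w2 - x2 * w1 := hh ▸ hc.mul_dvd dE hE
  have id1 : (x1 * x2 + w1 * w2) ^ 2 + (g * k) ^ 2 = g ^ 2 := by
    have : g ^ 2 = (x1 ^ 2 + w1 ^ 2) * (x2 ^ 2 + w2 ^ 2) := by rw [h1, h2]; ring
    rw [this, ← hk]; ring
  have s1 : g * x2 = x1 * (x1 * x2 + w1 * w2) - w1 * (g * k) := by
    linear_combination (-x2) * h1 - w1 * hk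
  have s2 : g * w2 = w1 * (x1 * x2 + w1 * w2) + x1 * (g * k) := by
    linear_combination (-w2) * h1 + x1 * hk
  generalize x1 * x2 + w1 * w2 = D at id1 s1 s2
  have hg2 : 0 < g ^ 2 := by positivity
  have k1 : k ^ 2 ≤ 1 := by
    by_contra hcon
    nlinarith [sq_nonneg D, mul_lt_mul_of_pos_left (not_le.1 hcon) hg2]
  have k2 : k = 0 ∨ k = 1 ∨ k = -1 := by
    have := abs_le.1 ((sq_le_one_iff_abs_le_one k).1 k1)
    omega
  rcases k2 with rfl | rfl | rfl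
  · have id2 : D ^ 2 = g ^ 2 := by linarith
    rcases sq_eq_sq_iff_eq_or_eq_neg.1 id2 with rfl | rfl
    · exact Or.inl ⟨mul_left_cancel₀ hg.ne' (by linarith), mul_left_cancel₀ hg.ne' (by linarith)⟩
    · exact Or.inr (Or.inl
        ⟨mul_left_cancel₀ hg.ne' (by linarith), mul_left_cancel₀ hg.ne' (by linarith)⟩)
  · obtain rfl : D = 0 := pow_eq_zero_iff two_ne_zero |>.1 (by linarith)
    exact Or.inr (Or.inr (Or.inl
      ⟨mul_left_cancel₀ hg.ne' (by linarith), mul_left_cancel₀ hg.ne' (by linarith)⟩))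
  · obtain rfl : D = 0 := pow_eq_zero_iff two_ne_zero |>.1 (by linarith)
    exact Or.inr (Or.inr (Or.inr
      ⟨mul_left_cancel₀ hg.ne' (by linarith), mul_left_cancel₀ hg.ne' (by linarith)⟩))

theorem prim (g : ℕ) (hg : 0 < g) (S : Finset (ℤ × ℤ))
    (hS : ∀ ξ ∈ S, ξ.1 ^ 2 + ξ.2 ^ 2 = g ∧ IsCoprime ξ.1 ξ.2) :
    S.card ≤ 4 * g.divisors.card := by
  rcases S.eq_empty_or_nonempty with rfl | ⟨⟨x0, w0⟩, h0⟩
  · simp
  refine card_le_mul_card_image_of_maps_to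
    (f := fun ξ => Int.gcd g (ξ.1 * w0 - x0 * ξ.2)) (fun ξ _ => ?_) 4 (fun d _ => ?_)
  · rw [Nat.mem_divisors]
    exact ⟨by exact_mod_cast Int.gcd_dvd_left (g : ℤ) (ξ.1 * w0 - x0 * ξ.2), hg.ne'⟩
  · rcases (S.filter (fun ξ => Int.gcd g (ξ.1 * w0 - x0 * ξ.2) = d)).eq_empty_or_nonempty with
      h | ⟨⟨x1, w1⟩, h1⟩
    · rw [h]; simp
    · refine le_trans (card_le_card (t := {(x1, w1), (-x1, -w1), (-w1, x1), (w1, -x1)}) ?_)
        card_le_four
      rintro ⟨x2, w2⟩ h2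
      rw [mem_filter] at h1 h2
      have := same (by exact_mod_cast hg) (hS _ h0).1 (hS _ h0).2 (hS _ h1.1).1 (hS _ h1.1).2
        (hS _ h2.1).1 (h1.2.trans h2.2.symm)
      simpa using this

theorem all (g : ℕ) (hg : 0 < g) (S : Finset (ℤ × ℤ)) (hS : ∀ ξ ∈ S, ξ.1 ^ 2 + ξ.2 ^ 2 = g) :
    S.card ≤ 4 * g.divisors.card * g.divisors.card := by
  refine card_le_mul_card_image_of_maps_to (f := fun ξ => Int.gcd ξ.1 ξ.2) (fun ξ hξ => ?_) _
    (fun t ht => ?_)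
  · rw [Nat.mem_divisors]
    refine ⟨?_, hg.ne'⟩
    have : ((Int.gcd ξ.1 ξ.2 : ℕ) : ℤ) ∣ g := by
      rw [← hS ξ hξ]
      exact dvd_add (dvd_pow (Int.gcd_dvd_left _ _) two_ne_zero)
        (dvd_pow (Int.gcd_dvd_right _ _) two_ne_zero)
    exact_mod_cast this
  · have ht0 : 0 < t := Nat.pos_of_mem_divisors ht
    have ht1 : (t : ℤ) ≠ 0 := by exact_mod_cast ht0.ne'
    rcases (S.filter (fun ξ => Int.gcd ξ.1 ξ.2 = t)).eq_empty_or_nonempty with h | ⟨ξ0, h0⟩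
    · rw [h]; simp
    have key : ∀ ξ ∈ S.filter (fun ξ => Int.gcd ξ.1 ξ.2 = t),
        ξ.1 = t * (ξ.1 / t) ∧ ξ.2 = t * (ξ.2 / t) ∧ IsCoprime (ξ.1 / t) (ξ.2 / t) := by
      intro ξ hξ
      have e := (mem_filter.1 hξ).2
      refine ⟨?_, ?_, ?_⟩
      · rw [Int.mul_ediv_cancel' (e ▸ Int.gcd_dvd_left _ _)]
      · rw [Int.mul_ediv_cancel' (e ▸ Int.gcd_dvd_right _ _)]
      · rw [Int.isCoprime_iff_gcd_eq_one, ← e]
        exact Int.gcd_div_gcd_div_gcd (e ▸ ht0)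
    have hdv : t ^ 2 ∣ g := by
      have : (t : ℤ) ^ 2 ∣ g := by
        rw [← hS ξ0 (mem_filter.1 h0).1]
        refine ⟨(ξ0.1 / t) ^ 2 + (ξ0.2 / t) ^ 2, ?_⟩
        linear_combination (ξ0.1 + t * (ξ0.1 / t)) * (key ξ0 h0).1 +
          (ξ0.2 + t * (ξ0.2 / t)) * (key ξ0 h0).2.1
      exact_mod_cast this
    obtain ⟨g', hg'⟩ := hdv
    have hg0 : 0 < g' := Nat.pos_of_ne_zero (by rintro rfl; omega)
    have hinj : Set.InjOn (fun ξ : ℤ × ℤ => (ξ.1 / t, ξ.2 / t))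
        (S.filter (fun ξ => Int.gcd ξ.1 ξ.2 = t) : Finset _) := by
      intro a ha b hb e
      simp only [Prod.mk.injEq] at e
      refine Prod.ext ?_ ?_
      · rw [(key a ha).1, (key b hb).1, e.1]
      · rw [(key a ha).2.1, (key b hb).2.1, e.2]
    rw [← card_image_of_injOn hinj]
    refine (prim g' hg0 _ ?_).trans (Nat.mul_le_mul_left 4 (card_le_card ?_))
    · intro ξ hξ
      obtain ⟨a, ha, rfl⟩ := mem_image.1 hξ
      refine ⟨mul_left_cancel₀ (pow_ne_zero 2 ht1) ?_, (key a ha).2.2⟩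
      have h1 := hS a (mem_filter.1 ha).1
      have h2 : (g : ℤ) = t ^ 2 * g' := by exact_mod_cast hg'
      simp only
      linear_combination h1 + h2 - (a.1 + t * (a.1 / t)) * (key a ha).1 -
          (a.2 + t * (a.2 / t)) * (key a ha).2.1
    · exact Nat.divisors_subset_of_dvd hg.ne' (Dvd.intro_left _ hg'.symm)

/-- the bound for two squares -/
noncomputable def bd (a : ℕ) : ℝ := if a = 0 then 1 else 4 * tau a ^ 2

theorem two (h : S_R2) (a : ℕ) (S : Finset (ℤ × ℤ)) (hS : ∀ ξ ∈ S, ξ.1 ^ 2 + ξ.2 ^ 2 = a) :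
    (S.card : ℝ) ≤ bd a := by
  unfold bd
  split_ifs with ha
  · have : S.card ≤ 1 := by
      refine le_trans (card_le_card (t := {(0, 0)}) ?_) (by simp)
      rintro ⟨x, w⟩ hx
      have h1 : x ^ 2 + w ^ 2 = 0 := by simpa [ha] using hS _ hx
      have hx : x = 0 := by nlinarith [sq_nonneg x, sq_nonneg w]
      have hw : w = 0 := by nlinarith [sq_nonneg x, sq_nonneg w]
      simp [hx, hw]
    exact_mod_cast this
  · exact h a S (Nat.pos_of_ne_zero ha) hS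

theorem four (h : S_R2) {m N : ℕ} (hm : 1 ≤ m) (hN : m ≤ N) :
    ((sphere m).card : ℝ) ≤ 17 * m * LL N ^ 16 := by
  have hs : ∀ v ∈ sphere m, v 0 ^ 2 + v 1 ^ 2 + v 2 ^ 2 + v 3 ^ 2 = (m : ℤ) := fun v hv => by
    rw [← mem_sphere.1 hv]
    simp [nsq, Fin.sum_univ_four]
  have h1 : ((sphere m).card : ℝ) ≤ ∑ a ∈ range (m + 1), bd a * bd (m - a) := by
    rw [card_eq_sum_card_fiberwise (f := fun v => (v 0 ^ 2 + v 1 ^ 2).toNat) (t := range (m + 1))
      fun v hv => mem_coe.2 (mem_range.2 (by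
        have := hs v hv
        have := sq_nonneg (v 2)
        have := sq_nonneg (v 3)
        show (v 0 ^ 2 + v 1 ^ 2).toNat < m + 1
        omega)), Nat.cast_sum]
    refine sum_le_sum fun a ha => ?_
    set F := (sphere m).filter fun v => (v 0 ^ 2 + v 1 ^ 2).toNat = a with hF
    have hf : ∀ v ∈ F, v 0 ^ 2 + v 1 ^ 2 = (a : ℤ) ∧ v 2 ^ 2 + v 3 ^ 2 = ((m - a : ℕ) : ℤ) :=
      fun v hv => by
        have := hs v (mem_filter.1 hv).1
        have := (mem_filter.1 hv).2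
        have := mem_range.1 ha
        have := sq_nonneg (v 0)
        have := sq_nonneg (v 1)
        omega
    have h2 : F.card ≤ ((F.image fun v => (v 0, v 1)) ×ˢ F.image fun v => (v 2, v 3)).card := by
      refine card_le_card_of_injOn (fun v => ((v 0, v 1), (v 2, v 3))) (fun v hv => ?_)
        fun v _ w _ e => ?_
      · exact mem_coe.2 (mem_product.2 ⟨mem_image_of_mem _ hv, mem_image_of_mem _ hv⟩)
      · simp only [Prod.mk.injEq] at e
        funext j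
        fin_cases j
        exacts [e.1.1, e.1.2, e.2.1, e.2.2]
    rw [card_product] at h2
    have h3 := two h a (F.image fun v => (v 0, v 1)) fun ξ hξ => by
      obtain ⟨v, hv, rfl⟩ := mem_image.1 hξ
      exact (hf v hv).1
    have h4 := two h (m - a) (F.image fun v => (v 2, v 3)) fun ξ hξ => by
      obtain ⟨v, hv, rfl⟩ := mem_image.1 hξ
      exact (hf v hv).2
    refine le_trans (by exact_mod_cast h2) (mul_le_mul h3 h4 (Nat.cast_nonneg _)
      ((Nat.cast_nonneg _).trans h3))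
  have h5 : ∑ a ∈ range (m + 1), bd a * bd (m - a) ≤ ∑ a ∈ range (m + 1), bd a ^ 2 := by
    have e := sum_flip (n := m) fun a => bd a ^ 2
    have h6 : ∑ a ∈ range (m + 1), bd a * bd (m - a) ≤
        ∑ a ∈ range (m + 1), (bd a ^ 2 + bd (m - a) ^ 2) / 2 :=
      sum_le_sum fun a _ => by nlinarith [sq_nonneg (bd a - bd (m - a))]
    rw [← sum_div, sum_add_distrib, e] at h6
    linarith
  have h7 : ∑ a ∈ range (m + 1), bd a ^ 2 = 1 + 16 * ∑ a ∈ Icc 1 m, tau a ^ 4 := by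
    have e : range (m + 1) = insert 0 (Icc 1 m) := by
      ext a
      simp only [mem_range, mem_insert, mem_Icc]
      omega
    rw [e, sum_insert (by simp), mul_sum, bd, if_pos rfl, one_pow]
    refine congrArg _ (sum_congr rfl fun a ha => ?_)
    rw [bd, if_neg (by have := (mem_Icc.1 ha).1; omega)]
    ring
  have h8 := sum_tau_pow_le 4 m
  have hm' : (1 : ℝ) ≤ m := by exact_mod_cast hm
  have hl := Real.log_nonneg hm'
  have h9 : 1 + Real.log m ≤ LL N := by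
    unfold LL
    linarith [Real.log_le_log (by linarith) (show (m : ℝ) ≤ N by exact_mod_cast hN)]
  have h10 : (1 + Real.log m) ^ 2 ^ 4 ≤ LL N ^ 16 := pow_le_pow_left₀ (by linarith) h9 _
  have h11 : 1 ≤ m * LL N ^ 16 :=
    one_le_mul_of_one_le_of_one_le hm' (one_le_pow₀ (by linarith))
  nlinarith [mul_le_mul_of_nonneg_left h10 (zero_le_one.trans hm')]

theorem fib (h : S_R2) {n N d : ℕ} (hn : 1 ≤ n) (hN : n ≤ N) (hd : 1 ≤ d) :
    (((sphere n).filter fun v => cont v = d).card : ℝ) * d ≤ 17 * n * LL N ^ 16 * (1 / d) := by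
  have hd' : (0 : ℝ) < d := by exact_mod_cast hd
  have hL : 0 ≤ LL N ^ 16 := by positivity
  rcases ((sphere n).filter fun v => cont v = d).eq_empty_or_nonempty with e | ⟨v0, h0⟩
  · rw [e, card_empty, Nat.cast_zero, zero_mul]
    positivity
  have hv : ∀ v ∈ (sphere n).filter fun v => cont v = d, v = fun j => d * (v j / d) :=
    fun v hv => funext fun j =>
      (Int.mul_ediv_cancel' (dvd_cont.1 (dvd_of_eq (mem_filter.1 hv).2.symm) j)).symm
  have h1 : (d : ℤ) ^ 2 ∣ n := mem_sphere.1 (mem_filter.1 h0).1 ▸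
    sq_dvd_nsq (dvd_cont.1 (dvd_of_eq (mem_filter.1 h0).2.symm))
  obtain ⟨m, hm⟩ : d ^ 2 ∣ n := by exact_mod_cast h1
  have hm1 : 1 ≤ m := Nat.pos_of_ne_zero (by rintro rfl; omega)
  have hmn : m ≤ n := Nat.le_of_dvd hn (Dvd.intro_left _ hm.symm)
  have h2 : ((sphere n).filter fun v => cont v = d).card ≤ (sphere m).card := by
    refine card_le_card_of_injOn (fun v j => v j / d) (fun v hv' => ?_) fun v a w b e => ?_
    · refine mem_coe.2 (mem_sphere.2 (mul_left_cancel₀ (a := (d : ℤ) ^ 2) (by positivity) ?_))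
      rw [← nsq_smul, ← hv v hv', mem_sphere.1 (mem_filter.1 hv').1]
      exact_mod_cast hm
    · rw [hv v a, hv w b]
      exact funext fun j => congrArg _ (congrFun e j)
  have h3 := four h hm1 (hmn.trans hN)
  have h4 : (n : ℝ) = d ^ 2 * m := by exact_mod_cast hm
  calc _ ≤ 17 * m * LL N ^ 16 * d :=
        mul_le_mul_of_nonneg_right (le_trans (by exact_mod_cast h2) h3) hd'.le
    _ = _ := by rw [h4]; field_simp

end R4P

theorem pR2 : S_R2 := fun g S hg hS => by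
  have := R4P.all g hg S hS
  unfold tau
  rw [sq, ← mul_assoc]
  exact_mod_cast this

theorem pR4 (hR2 : S_R2) : S_R4 := by
  refine ⟨17, 17, by norm_num, fun N n hn hN => ?_⟩
  have hmap : ∀ v ∈ sphere n, cont v ∈ Icc 1 n := fun v hv => by
    have h1 : ((cont v : ℤ)) ^ 2 ∣ n := mem_sphere.1 hv ▸ sq_dvd_nsq (dvd_cont.1 dvd_rfl)
    have h2 : cont v ^ 2 ∣ n := by exact_mod_cast h1
    have h3 : cont v ∣ n := (dvd_pow_self _ two_ne_zero).trans h2
    exact mem_Icc.2 ⟨Nat.pos_of_dvd_of_pos h3 hn, Nat.le_of_dvd hn h3⟩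
  rw [← sum_fiberwise_of_maps_to hmap]
  have hn' : (1 : ℝ) ≤ n := by exact_mod_cast hn
  have h9 : 1 + Real.log n ≤ LL N := by
    unfold LL
    linarith [Real.log_le_log (by linarith) (show (n : ℝ) ≤ N by exact_mod_cast hN)]
  calc _ ≤ ∑ d ∈ Icc 1 n, 17 * n * LL N ^ 16 * (1 / (d : ℝ)) := by
        refine sum_le_sum fun d hd => le_trans (le_of_eq ?_)
          (R4P.fib hR2 hn hN (mem_Icc.1 hd).1)
        rw [sum_congr rfl fun v hv => by rw [(mem_filter.1 hv).2], sum_const, nsmul_eq_mul]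
    _ ≤ 17 * n * LL N ^ 16 * LL N := by
        rw [← mul_sum]
        exact mul_le_mul_of_nonneg_left ((sum_inv_le_log n).trans h9) (by positivity)
    _ = _ := by ring

end Pool.Agent.P.MP_0ad054_nt.PS
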