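import Pool.Agent.P.MP_0ad054_nt.PS.St

/-! Square roots modulo `d` in an interval. -/

namespace Pool.Agent.P.MP_0ad054_nt.PS

open Finset Pool.Agent.Lib.H9 Pool.Agent.P.MP_0ad054_nt.Sun Pool.Agent.P.MP_0ad054_nt.Sun.SphereP
  Pool.Agent.P.MP_0ad054_nt.Clu
open scoped Real ComplexConjugate

namespace RTP

lemma space {a : ℤ} {Y : ℕ} {L : ℝ} (hL : 0 < L) {T : Finset ℤ} (h : T ⊆ Icc a (a + Y))
    (hs : ∀ x ∈ T, ∀ y ∈ T, x ≠ y → L ≤ |(x : ℝ) - y|) : (T.card : ℝ) ≤ Y / L + 1 := by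
  have b : ∀ x ∈ T, 0 ≤ ((x : ℝ) - a) / L ∧ ((x : ℝ) - a) / L ≤ Y / L := fun x hx => by
    obtain ⟨h1, h2⟩ := mem_Icc.1 (h hx)
    have h3 : (a : ℝ) ≤ x := by exact_mod_cast h1
    have h4 : (x : ℝ) ≤ a + Y := by exact_mod_cast h2
    exact ⟨div_nonneg (by linarith) hL.le, div_le_div_of_nonneg_right (by linarith) hL.le⟩
  have c : T.card ≤ (range (⌊Y / L⌋₊ + 1)).card := by
    refine card_le_card_of_injOn (fun x => ⌊((x : ℝ) - a) / L⌋₊) (fun x hx => ?_)
      fun x hx y hy e => ?_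
    · exact mem_coe.2 (mem_range.2 (Nat.lt_succ_of_le (Nat.floor_le_floor (b x hx).2)))
    · by_contra ne
      have h1 := Nat.floor_le (b x hx).1
      have h2 := Nat.floor_le (b y hy).1
      have h3 := Nat.lt_floor_add_one (((x : ℝ) - a) / L)
      have h4 := Nat.lt_floor_add_one (((y : ℝ) - a) / L)
      simp only at e
      rw [e] at h1 h3
      have h5 : |((x : ℝ) - y) / L| < 1 := by
        rw [show ((x : ℝ) - y) / L = (x - a) / L - (y - a) / L by ring, abs_lt]
        constructor <;> linarith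
      rw [abs_div, abs_of_pos hL, div_lt_one hL] at h5
      exact absurd (hs x hx y hy ne) (not_le.2 h5)
  rw [card_range] at c
  have c' : (T.card : ℝ) ≤ ⌊Y / L⌋₊ + 1 := by exact_mod_cast c
  linarith [Nat.floor_le (show 0 ≤ Y / L by positivity)]

lemma key {d : ℕ} {c x x' y : ℤ} (hy : (d : ℤ) ∣ y ^ 2 - c) (hx : (d : ℤ) ∣ x ^ 2 - c)
    (hx' : (d : ℤ) ∣ x' ^ 2 - c) (e : Int.gcd d (x - y) = Int.gcd d (x' - y)) :
    (d : ℤ) ∣ (x - x') ^ 2 ∧ (d : ℤ) ∣ 2 * Int.gcd y d * (x - x') := by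
  have a : ∀ {x : ℤ}, (d : ℤ) ∣ x ^ 2 - c → (d : ℤ) ∣ Int.gcd d (x - y) * (x + y) := fun {x} h => by
    rw [Int.gcd_eq_gcd_ab, add_mul]
    refine dvd_add (Dvd.dvd.mul_right (dvd_mul_right _ _) _) ?_
    rw [show (x - y) * Int.gcdB d (x - y) * (x + y) =
      (x ^ 2 - c - (y ^ 2 - c)) * Int.gcdB d (x - y) by ring]
    exact (h.sub hy).mul_right _
  have a1 := a hx
  have a2 := a hx'
  obtain ⟨u, hu⟩ : (Int.gcd d (x - y) : ℤ) ∣ x - y := Int.gcd_dvd_right _ _
  obtain ⟨v, hv⟩ : (Int.gcd d (x' - y) : ℤ) ∣ x' - y := Int.gcd_dvd_right _ _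
  rw [← e] at a2 hv
  generalize (Int.gcd d (x - y) : ℤ) = g at *
  have a3 : (d : ℤ) ∣ g * (x - x') := by simpa [mul_sub, mul_add] using a1.sub a2
  have a4 : (d : ℤ) ∣ 2 * y * (x - x') := by
    rw [show 2 * y * (x - x') = g * (x + y) * (u - v) - g * (x - x') * u by
      linear_combination (x + y) * hu - (x + y) * hv - (x - x') * hu]
    exact (a1.mul_right _).sub (a3.mul_right _)
  constructor
  · rw [show (x - x') ^ 2 = g * (x - x') * (u - v) by
      linear_combination (x - x') * hu - (x - x') * hv]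
    exact a3.mul_right _
  · rw [Int.gcd_eq_gcd_ab, show 2 * (y * Int.gcdA y d + d * Int.gcdB y d) * (x - x') =
      2 * y * (x - x') * Int.gcdA y d + d * (2 * Int.gcdB y d * (x - x')) by ring]
    exact (a4.mul_right _).add (dvd_mul_right _ _)

lemma main {d Y : ℕ} (hd : 1 ≤ d) {a : ℤ} {L : ℝ} (hL : 0 < L) {S : Finset ℤ}
    (h : S ⊆ Icc a (a + Y)) (hs : ∀ y ∈ S, ∀ x ∈ S, ∀ x' ∈ S, x ≠ x' →
      Int.gcd d (x - y) = Int.gcd d (x' - y) → L ≤ |(x : ℝ) - x'|) :
    (S.card : ℝ) ≤ tau d * (Y / L + 1) := by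
  rcases S.eq_empty_or_nonempty with rfl | ⟨y, hy⟩
  · have := tau_nonneg d
    rw [card_empty, Nat.cast_zero]
    positivity
  rw [card_eq_sum_card_fiberwise (f := fun x => Int.gcd d (x - y)) (t := d.divisors)
    fun x _ => mem_coe.2 (Nat.mem_divisors.2 ⟨Int.natCast_dvd_natCast.1 (Int.gcd_dvd_left _ _),
      by omega⟩), Nat.cast_sum, tau, ← nsmul_eq_mul]
  refine sum_le_card_nsmul _ _ _ fun g _ => space hL ((filter_subset _ _).trans h)
    fun x hx x' hx' ne => ?_
  obtain ⟨h1, h2⟩ := mem_filter.1 hx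
  obtain ⟨h3, h4⟩ := mem_filter.1 hx'
  exact hs y hy x h1 x' h3 ne (h2.trans h4.symm)

lemma al_eq (b : V) : al b = 105 * b 0 ^ 2 + 35 * b 1 ^ 2 + 21 * b 2 ^ 2 + 15 * b 3 ^ 2 := by
  simp [al, QS, cs, Fin.sum_univ_four]; ring

end RTP

theorem pRT : S_RT := by
  intro d Y G c a hd
  have d0 : (0 : ℝ) < d := by exact_mod_cast hd
  constructor
  · refine RTP.main hd (Real.sqrt_pos.2 d0) (filter_subset _ _) fun y hy x hx x' hx' ne e => ?_
    have h := (RTP.key (mem_filter.1 hy).2 (mem_filter.1 hx).2 (mem_filter.1 hx').2 e).1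
    have h1 := Int.le_of_dvd (sq_pos_of_ne_zero (sub_ne_zero.2 ne)) h
    refine Real.sqrt_le_iff.2 ⟨abs_nonneg _, ?_⟩
    rw [sq_abs]
    exact_mod_cast h1
  · rcases Nat.eq_zero_or_pos G with rfl | hG
    · rw [filter_false_of_mem fun x _ h => ?_]
      · simpa using tau_nonneg d
      · have := Int.gcd_pos_of_ne_zero_right x (show (d : ℤ) ≠ 0 by omega)
        omega
    have G0 : (0 : ℝ) < G := by exact_mod_cast hG
    rw [show 2 * G * Y / d = Y / (d / (2 * G) : ℝ) by field_simp]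
    refine RTP.main hd (by positivity) (filter_subset _ _) fun y hy x hx x' hx' ne e => ?_
    have h := (RTP.key (mem_filter.1 hy).2.1 (mem_filter.1 hx).2.1 (mem_filter.1 hx').2.1 e).2
    have g0 := Int.gcd_pos_of_ne_zero_right y (show (d : ℤ) ≠ 0 by omega)
    have h1 := Int.le_of_dvd (abs_pos.2 (mul_ne_zero (by positivity) (sub_ne_zero.2 ne)))
      ((dvd_abs _ _).2 h)
    have h2 : (d : ℤ) ≤ |x - x'| * (2 * G) := by
      rw [abs_mul, abs_of_nonneg (by positivity), mul_comm] at h1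
      have := (mem_filter.1 hy).2.2
      exact h1.trans (by gcongr)
    rw [div_le_iff₀ (by positivity)]
    exact_mod_cast h2

theorem pGA (hRT : S_RT) : S_GA := by
  intro ε hε
  obtain ⟨C, hC, hτ⟩ := tau_le (show 0 < ε / 4 by positivity)
  refine ⟨226 * (C * (244 : ℝ) ^ (ε / 4)) ^ 2, by positivity, fun N H b hH hN hb h1 => ?_⟩
  have HN : (H : ℝ) ≤ N := by exact_mod_cast hN
  set K := C * (244 * (N : ℝ) ^ 2) ^ (ε / 4) with hK
  have eK : K ^ 2 = (C * (244 : ℝ) ^ (ε / 4)) ^ 2 * (N : ℝ) ^ ε := by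
    rw [hK, Real.mul_rpow (by positivity) (by positivity), ← mul_assoc, mul_pow,
      ← Real.rpow_natCast (N : ℝ), ← Real.rpow_mul (by positivity), ← Real.rpow_natCast (_ ^ (_ * _)),
      ← Real.rpow_mul (by positivity)]
    congr 2
    push_cast
    ring
  have tK : ∀ n ≤ 244 * H ^ 2, tau n ≤ K := fun n hn => (hτ n).trans (by
    have : (n : ℝ) ≤ 244 * (H : ℝ) ^ 2 := by exact_mod_cast hn
    rw [hK]
    gcongr
    exact this.trans (by gcongr))
  set R := 70 * b 1 ^ 2 + 84 * b 2 ^ 2 + 90 * b 3 ^ 2 with hR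
  have R0 : 0 < R := by positivity
  have m0 : R.natAbs ≠ 0 := by omega
  have m1 : R.natAbs ≤ 244 * H ^ 2 := by
    have h' : ∀ j, b j ^ 2 ≤ (H : ℤ) ^ 2 := fun j =>
      have := mem_Icc.1 (Fintype.mem_piFinset.1 hb j)
      sq_le_sq' this.1 this.2
    have : (R.natAbs : ℤ) ≤ 244 * (H : ℤ) ^ 2 := by
      rw [Int.natAbs_of_nonneg R0.le]
      linarith [h' 1, h' 2, h' 3]
    exact_mod_cast this
  have K0 : 0 ≤ K := by positivity
  set c := -(105 * (35 * b 1 ^ 2 + 21 * b 2 ^ 2 + 15 * b 3 ^ 2)) with hc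
  calc _ ≤ ∑ x ∈ iv H, ∑ d ∈ R.natAbs.divisors,
        if (d : ℤ) ∣ (105 * x) ^ 2 - c then Real.sqrt d else 0 := by
        refine sum_le_sum fun x _ => ?_
        have g1 : (gb (Function.update b 0 x) : ℤ) ∣ al (Function.update b 0 x) :=
          Int.gcd_dvd_left _ _
        have g2 : (gb (Function.update b 0 x) : ℤ) ∣ 105 * nsq (Function.update b 0 x) :=
          Int.gcd_dvd_right _ _
        have e1 : R = 105 * nsq (Function.update b 0 x) - al (Function.update b 0 x) := by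
          rw [RTP.al_eq, nsq_eq', hR]; simp; ring
        have e2 : (105 * x) ^ 2 - c = 105 * al (Function.update b 0 x) := by
          rw [RTP.al_eq, hc]; simp; ring
        refine le_trans (le_of_eq ?_) (single_le_sum (a := gb (Function.update b 0 x))
          (fun d _ => by positivity) (Nat.mem_divisors.2
            ⟨Int.natCast_dvd.1 (e1 ▸ g2.sub g1), m0⟩))
        rw [if_pos (e2 ▸ g1.mul_left _)]
    _ ≤ ∑ _d ∈ R.natAbs.divisors, K * (226 * H) := by
        rw [sum_comm]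
        refine sum_le_sum fun d hd => ?_
        have d1 : 1 ≤ d := Nat.pos_of_mem_divisors hd
        have d2 := (Nat.divisor_le hd).trans m1
        have r := (hRT d (210 * H) 0 c (-(105 * H)) d1).1
        have r' : ((iv H).filter fun x => (d : ℤ) ∣ (105 * x) ^ 2 - c).card ≤
            ((Icc (-(105 * H : ℤ)) (-(105 * H) + (210 * H : ℕ))).filter
              fun x => (d : ℤ) ∣ x ^ 2 - c).card := by
          refine card_le_card_of_injOn (fun x => 105 * x) (fun x hx => ?_) fun x _ y _ e => ?_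
          · obtain ⟨h2, h3⟩ := mem_filter.1 hx
            have := mem_Icc.1 h2
            exact mem_filter.2 ⟨mem_Icc.2 ⟨by beta_reduce; omega, by beta_reduce; omega⟩, h3⟩
          · simpa using e
        have s0 : 0 < Real.sqrt d := Real.sqrt_pos.2 (by exact_mod_cast d1)
        have s1 : Real.sqrt d ≤ 16 * H := Real.sqrt_le_iff.2 ⟨by positivity, by
          exact_mod_cast (by nlinarith : d ≤ (16 * H) ^ 2)⟩
        rw [← sum_filter, sum_const, nsmul_eq_mul]
        calc _ ≤ tau d * ((210 * H : ℕ) / Real.sqrt d + 1) * Real.sqrt d :=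
              mul_le_mul_of_nonneg_right ((Nat.cast_le.2 r').trans r) s0.le
          _ = tau d * (210 * H + Real.sqrt d) := by push_cast; field_simp
          _ ≤ _ := mul_le_mul (tK d d2) (by linarith) (by positivity) K0
    _ ≤ K * (K * (226 * H)) := by
        rw [sum_const, nsmul_eq_mul]
        exact mul_le_mul_of_nonneg_right (tK _ m1) (by positivity)
    _ = 226 * K ^ 2 * H := by ring
    _ = _ := by rw [eK]; ring

end Pool.Agent.P.MP_0ad054_nt.PS
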