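import Pool.Agent.P.MP_0ad054_nt.PS.St
import Pool.Agent.P.MP_0ad054_nt.Clu.Cusp

/-! Completing the square in the complete sums, and cancellation in the numerators. -/

namespace Pool.Agent.P.MP_0ad054_nt.PS

open Finset Pool.Agent.Lib.H9 Pool.Agent.P.MP_0ad054_nt.Sun Pool.Agent.P.MP_0ad054_nt.Sun.SphereP
  Pool.Agent.P.MP_0ad054_nt.Clu
open scoped Real ComplexConjugate

namespace SQP

theorem ex_add (q : ℕ) (a b : ℤ) : ex q (a + b) = ex q a * ex q b := by
  rw [ex, ex, ex, ← e_add]; congr 1; push_cast; ring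

theorem ex_congr {q : ℕ} (hq : 1 ≤ q) {a b : ℤ} (h : (q : ℤ) ∣ a - b) : ex q a = ex q b := by
  obtain ⟨c, hc⟩ := h
  have h0 : (q : ℝ) ≠ 0 := by positivity
  rw [ex, ex, ← e_add_int (b / q) c, show a = b + q * c by linarith]
  congr 1; push_cast; field_simp

/-- the summand -/
noncomputable def tm (q : ℕ) (b b' : V) (r : ℤ) (k k' : V) (s : ℤ) (x x' w : V) : ℂ :=
  ex q (r * F12 b b' x x' w + (dot k x - dot k' x' + s * w 3))

theorem tm_per {q : ℕ} (hq : 1 ≤ q) (b b' : V) (r : ℤ) (k k' : V) (s : ℤ) {x x' w y y' z : V}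
    (h1 : ∀ j, (q : ℤ) ∣ x j - y j) (h2 : ∀ j, (q : ℤ) ∣ x' j - y' j)
    (h3 : ∀ j, (q : ℤ) ∣ w j - z j) : tm q b b' r k k' s x x' w = tm q b b' r k k' s y y' z := by
  simp only [← ZMod.intCast_zmod_eq_zero_iff_dvd, Int.cast_sub, sub_eq_zero] at h1 h2 h3
  refine ex_congr hq ?_
  rw [← ZMod.intCast_zmod_eq_zero_iff_dvd, Int.cast_sub, sub_eq_zero]
  simp only [F12, Q2, dot, QB]
  push_cast
  simp only [h1, h2, h3]

/-- an affine change of the twelve variables -/
theorem aff {q : ℕ} (hq : 1 ≤ q) (b b' : V) (r : ℤ) (k k' : V) (s : ℤ) {c : ℤ}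
    (hc : IsCoprime c q) (v v' u : V) : I12 q b b' r k k' s =
      ∑ x ∈ res q, ∑ x' ∈ res q, ∑ w ∈ res q, tm q b b' r k k' s (v + fun j => c * x j)
        (v' + fun j => c * x' j) (u + fun j => c * w j) := by
  have h0 : q ≠ 0 := by omega
  have z : ∀ x : V, ∀ j, (q : ℤ) ∣ x j - x j := fun x j => by simp
  rw [← show ∑ x ∈ res q, ∑ x' ∈ res q, ∑ w ∈ res q, tm q b b' r k k' s x x' w =
    I12 q b b' r k k' s from rfl,
    ← CuspP.sum_res_affine h0 (G := fun x => ∑ x' ∈ res q, ∑ w ∈ res q, tm q b b' r k k' s x x' w)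
      (fun x y h => sum_congr rfl fun _ _ => sum_congr rfl fun _ _ =>
        tm_per hq _ _ _ _ _ _ h (z _) (z _)) hc v]
  refine sum_congr rfl fun x _ => ?_
  rw [← CuspP.sum_res_affine h0 (G := fun x' => ∑ w ∈ res q, tm q b b' r k k' s _ x' w)
      (fun x y h => sum_congr rfl fun _ _ => tm_per hq _ _ _ _ _ _ (z _) h (z _)) hc v']
  refine sum_congr rfl fun x' _ => ?_
  exact (CuspP.sum_res_affine h0 (G := fun w => tm q b b' r k k' s _ _ w)
      (fun x y h => tm_per hq _ _ _ _ _ _ (z _) (z _) h) hc u).symm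

/-- the centre of the square -/
def Y (κ D a c : ℤ) (b k : V) : V := fun j => κ * cs j * (D * k j - a * b j - c * (cz j * b j))

variable (κ D a c : ℤ) (b k x : V)

theorem Y1 : QB (Y κ D a c b k) x = 105 * κ * (D * dot k x - a * dot b x - c * QB b x) := by
  simp [Y, QB, dot, cs, cz, Fin.sum_univ_four]; ring

theorem Y2 : dot b (Y κ D a c b k) = κ * (D * QS b k - a * al b - 105 * c * nsq b) := by
  simp [Y, QS, al, nsq, dot, cs, cz, Fin.sum_univ_four]; ring

theorem Y3 : QB b (Y κ D a c b k) = 105 * κ * (D * dot b k - a * nsq b - c * Q2 b) := by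
  simp [Y, QB, Q2, nsq, dot, cs, cz, Fin.sum_univ_four]; ring

theorem Y4 : dot k (Y κ D a c b k) = κ * (D * QS k k - a * QS b k - 105 * c * dot b k) := by
  simp [Y, QS, dot, cs, cz, Fin.sum_univ_four]; ring

theorem Q2_add : Q2 (b + x) = QB b b + 2 * QB b x + Q2 x := by
  simp [QB, Q2, cz, Fin.sum_univ_four]; ring

theorem QB_add : QB b (k + x) = QB b k + QB b x := by
  simp [QB, mul_add, sum_add_distrib]

theorem dot_add : dot b (k + x) = dot b k + dot b x := by
  simp [dot, mul_add, sum_add_distrib]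

theorem scale (b' x' w : V) :
    F12 b b' (0 + fun j => c * x j) (0 + fun j => c * x' j) (0 + fun j => c * w j) =
      c ^ 2 * F12 b b' x x' w := by
  simp [F12, QB, Q2, dot, cz, Fin.sum_univ_four]; ring

/-- the form at a shifted point -/
theorem shift (b' k' : V) (r s t : ℤ) : ∃ v v' u : V, ∀ x x' w : V,
    r * F12 b b' (v + x) (v' + x') (u + w) + (dot k (v + x) - dot k' (v' + x') + s * (u + w) 3) =
      r * F12 b b' x x' w + (1 - r * t * (210 * ka b b' * De b b')) *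
        (dot k x - dot k' x' + s * w 3) +
        (r * t ^ 2 * (105 * ka b b' * De b b') - t) * Phi b b' k k' s := by
  have A : De b b' * QS b k - m1 b b' k k' * al b - 105 * m3 b b' k k' * nsq b = 0 := by
    simp only [De, m1, m3, ep, ka]; ring
  have B : De b b' * QS b' k' - m2 b b' k k' * al b' - 105 * m3 b b' k k' * nsq b' = 0 := by
    simp only [De, m2, m3, ep, ka]; ring
  have C : De b b' * dot b k - m1 b b' k k' * nsq b - m3 b b' k k' * Q2 b =
      De b b' * dot b' k' - m2 b b' k k' * nsq b' - m3 b b' k k' * Q2 b' := by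
    simp only [De, m1, m2, m3, ep, ka, y3]; ring
  refine ⟨Y (-(t * ka b b')) (De b b') (m1 b b' k k') (m3 b b' k k') b k,
    Y (-(t * ka b b')) (De b b') (m2 b b' k k') (m3 b b' k k') b' k',
    ![-(t * 210 * ka b b' * m1 b b' k k'), -(t * 210 * ka b b' * m2 b b' k k'),
      -(t * 210 * ka b b' * m3 b b' k k'), -(t * 105 * De b b' * s)], fun x x' w => ?_⟩
  simp only [F12, Q2_add, QB_add, dot_add, Y1, Y2, Y3, Y4, A, B, C, Phi, Psi, y3, Pi.add_apply,
    Matrix.cons_val_zero, Matrix.cons_val_one, Matrix.cons_val]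
  ring

theorem mem_un {q : ℕ} {r : ℤ} : r ∈ un q ↔ (0 ≤ r ∧ r < q) ∧ IsCoprime r q := by
  rw [un, mem_filter, mem_Ico, Int.isCoprime_iff_gcd_eq_one]

theorem emod_mem {q : ℕ} (hq : 1 ≤ q) {r : ℤ} (h : IsCoprime r q) : r % q ∈ un q := by
  have h0 : (0 : ℤ) < q := by exact_mod_cast hq
  refine mem_un.2 ⟨⟨Int.emod_nonneg _ h0.ne', Int.emod_lt_of_pos _ h0⟩, ?_⟩
  rw [Int.emod_def, sub_eq_add_neg, ← mul_neg]
  exact h.add_mul_left_left _

theorem cop_of {q c c' : ℤ} (h : q ∣ c * c' - 1) : IsCoprime c q := by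
  obtain ⟨m, hm⟩ := h
  exact ⟨c', -m, by linear_combination hm⟩

theorem sum_un {q : ℕ} (hq : 1 ≤ q) (f : ℤ → ℂ) (hf : ∀ x y, (q : ℤ) ∣ x - y → f x = f y)
    {c c' : ℤ} (h : (q : ℤ) ∣ c * c' - 1) : ∑ r ∈ un q, f (r * c) = ∑ r ∈ un q, f r := by
  have key : ∀ c c' : ℤ, (q : ℤ) ∣ c * c' - 1 → ∀ r ∈ un q, r * c % q * c' % q = r := by
    intro c c' ⟨m, hm⟩ r hr
    obtain ⟨⟨h1, h2⟩, -⟩ := mem_un.1 hr
    rw [Int.emod_def (r * c), show (r * c - q * (r * c / q)) * c' = r + q * (r * m - r * c / q * c')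
      by linear_combination r * hm, Int.add_mul_emod_self_left, Int.emod_eq_of_lt h1 h2]
  have h' : (q : ℤ) ∣ c' * c - 1 := by rwa [mul_comm]
  refine sum_nbij' (fun r => r * c % q) (fun r => r * c' % q)
    (fun r hr => emod_mem hq ((mem_un.1 hr).2.mul_left (cop_of h)))
    (fun r hr => emod_mem hq ((mem_un.1 hr).2.mul_left (cop_of h')))
    (key c c' h) (key c' c h') fun r _ => hf _ _ ⟨r * c / q, ?_⟩
  rw [Int.emod_def]; ring

theorem ex_inv {q r : ℤ} (h : IsCoprime r q) : ∃ r', q ∣ r * r' - 1 := by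
  obtain ⟨u, v, h⟩ := h
  exact ⟨u, -v, by linear_combination h⟩

theorem sq_inv {q : ℕ} (hq : 1 ≤ q) (b b' : V) (r : ℤ) {u : ℤ} (hu : IsCoprime u q) :
    I12 q b b' (r * u ^ 2) 0 0 0 = I12 q b b' r 0 0 0 := by
  rw [aff hq b b' r 0 0 0 hu 0 0 0, I12]
  refine sum_congr rfl fun x _ => sum_congr rfl fun x' _ => sum_congr rfl fun w _ => ?_
  rw [tm, scale]
  simp only [dot, Pi.zero_apply, zero_mul, sum_const_zero, mul_assoc]

theorem gb_dvd (b : V) : (gb b : ℤ) ∣ al b ∧ (gb b : ℤ) ∣ ep b := by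
  have h1 : (gb b : ℤ) ∣ al b := Int.gcd_dvd_left _ _
  have h2 : (gb b : ℤ) ∣ 105 * nsq b := Int.gcd_dvd_right _ _
  refine ⟨h1, (h1.mul_right _).sub ?_⟩
  rw [sq, ← mul_assoc]
  exact h2.mul_right _

theorem gcd_one {q : ℕ} {a : ℤ} (h : IsCoprime a q) : Int.gcd q a = 1 :=
  Int.isCoprime_iff_gcd_eq_one.1 h.symm

theorem gcd_one' {q a : ℕ} (h : IsCoprime (a : ℤ) q) : Nat.gcd q a = 1 := by
  rw [← Int.gcd_natCast_natCast]; exact gcd_one h

end SQP

open SQP

theorem pCSQ : S_CSQ := by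
  intro q b b' k k' r s r' d' hq ⟨m, hm⟩ ⟨n, hn⟩
  obtain ⟨v, v', u, h⟩ := shift b k b' k' r s (r' * d')
  rw [aff hq b b' r k k' s isCoprime_one_left v v' u, I12]
  simp only [sum_mul, one_mul]
  refine sum_congr rfl fun x _ => sum_congr rfl fun x' _ => sum_congr rfl fun w _ => ?_
  rw [← ex_add, tm, h]
  refine ex_congr hq ⟨-((m + n + q * m * n) * (dot k x - dot k' x' + s * w 3)) +
    (m * r' * d' ^ 2 * (105 * ka b b' * De b b') + n * r' * d') * Phi b b' k k' s, ?_⟩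
  simp only [dot, Pi.zero_apply, zero_mul, sum_const_zero]
  linear_combination (-(210 * ka b b' * De b b' * d') * (∑ j, k j * x j - ∑ j, k' j * x' j + s * w 3) +
    r' * d' ^ 2 * (105 * ka b b' * De b b') * Phi b b' k k' s) * hm +
    (-(1 + q * m) * (∑ j, k j * x j - ∑ j, k' j * x' j + s * w 3) +
      r' * d' * Phi b b' k k' s) * hn

theorem pSQ (hID : S_ID) (hK11 : S_K11) (hG1 : S_G1) (hCSQ : S_CSQ) : S_SQ := by
  intro q b b' k k' s hq hb hb' hc
  have cD := hc.of_mul_left_right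
  have cK := hc.of_mul_left_left.of_mul_left_right
  have c210 := hc.of_mul_left_left.of_mul_left_left
  have c2 : IsCoprime (2 : ℤ) q := c210.of_isCoprime_of_dvd_left (by norm_num)
  have c105 : IsCoprime (105 : ℤ) q := c210.of_isCoprime_of_dvd_left (by norm_num)
  have hodd : Odd q := by
    rw [← Nat.coprime_two_left, ← Nat.isCoprime_iff_coprime]; exact c2
  obtain ⟨d', hd⟩ := ex_inv hc
  have cd : IsCoprime d' q := cop_of (by rwa [mul_comm] at hd)
  have hJ : ∀ r, IsCoprime r (q : ℤ) → ‖I12 q b b' r 0 0 0‖ ≤ (q : ℝ) ^ 6 := fun r hr => by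
    have h1 := hG1.1 q (r * ka b b') 0 hq
    have h2 := hK11 q b b' 0 0 r hq hb hb' hr
    rw [gcd_one (c2.mul_left (hr.mul_left cK))] at h1
    rw [gcd_one cD, gcd_one' (a := 210) c210, gcd_one' (cD.of_isCoprime_of_dvd_left
      (((gb_dvd b).2.mul_left _).sub ((gb_dvd b).1.mul_right _))),
      gcd_one' (cD.of_isCoprime_of_dvd_left
      (((gb_dvd b').1.mul_right _).sub ((gb_dvd b').2.mul_left _)))] at h2
    refine (abs_le_of_sq_le_sq' ?_ (by positivity)).2
    rw [← hID q b b' 0 0 r 0 hq hr, norm_mul, mul_pow]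
    refine (mul_le_mul h1 h2 (by positivity) (by positivity)).trans (le_of_eq ?_)
    push_cast; ring
  choose! iw hiv using fun (r : ℤ) (h : IsCoprime r (q : ℤ)) => ex_inv h
  have civ : ∀ r, IsCoprime r (q : ℤ) → IsCoprime (iw r) (q : ℤ) := fun r h =>
    cop_of (c' := r) (by rw [mul_comm]; exact hiv r h)
  have e1 : ∀ u ∈ un q, SS q b b' k k' s = ∑ r ∈ un q, I12 q b b' r 0 0 0 *
      ex q (-(iw r * d' ^ 2 * (105 * ka b b' * De b b') * Phi b b' k k' s) * u ^ 2) := by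
    intro u hu
    have hu' := (mem_un.1 hu).2
    obtain ⟨m, hm⟩ := hiv u hu'
    rw [SS, sum_congr rfl fun r hr => hID q b b' k k' r s hq (mem_un.1 hr).2,
      ← sum_un hq (fun r => I12 q b b' r k k' s) (fun x y h => ?_) (c := iw u ^ 2) (c' := u ^ 2)
        ⟨m * (u * iw u + 1), by linear_combination (u * iw u + 1) * hm⟩]
    · refine sum_congr rfl fun r hr => ?_
      obtain ⟨n, hn⟩ := hiv r (mem_un.1 hr).2
      rw [hCSQ q b b' k k' (r * iw u ^ 2) s (iw r * u ^ 2) d' hq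
        ⟨n * (u * iw u) ^ 2 + m * (u * iw u + 1), by
          linear_combination (u * iw u) ^ 2 * hn + (u * iw u + 1) * hm⟩ hd,
        sq_inv hq b b' r (civ u hu')]
      congr 2
      ring
    · refine sum_congr rfl fun _ _ => sum_congr rfl fun _ _ => sum_congr rfl fun _ _ =>
        ex_congr hq ?_
      rw [add_sub_add_right_eq_sub, ← sub_mul]
      exact h.mul_right _
  have hpos : (0 : ℝ) < (un q).card :=
    Nat.cast_pos.2 (card_pos.2 ⟨_, emod_mem hq isCoprime_one_left⟩)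
  refine le_of_mul_le_mul_left ?_ hpos
  rw [← Complex.norm_natCast, ← norm_mul, ← nsmul_eq_mul, ← sum_const, sum_congr rfl e1, sum_comm,
    Complex.norm_natCast, ← nsmul_eq_mul, ← sum_const]
  refine norm_sum_le_of_le _ fun r hr => ?_
  have hr' := (mem_un.1 hr).2
  have h3 := hG1.2 q (-(iw r * d' ^ 2 * (105 * ka b b' * De b b') * Phi b b' k k' s)) hodd
  rw [Int.gcd_neg, Int.gcd_mul_right_right_of_gcd_eq_one (gcd_one
    (((civ r hr').mul_left cd.pow_left).mul_left ((c105.mul_left cK).mul_left cD)))] at h3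
  rw [← mul_sum, norm_mul, mul_comm (tau q), mul_assoc ((q : ℝ) ^ 6)]
  exact mul_le_mul (hJ r hr') h3 (norm_nonneg _) (by positivity)

end Pool.Agent.P.MP_0ad054_nt.PS
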