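import Pool.Agent.P.MP_0ad054_nt.PS.StT

/-! The truncated product and the rest. -/

namespace Pool.Agent.P.MP_0ad054_nt.PS

open Finset Pool.Agent.Lib.H9 Pool.Agent.P.MP_0ad054_nt.Sun Pool.Agent.P.MP_0ad054_nt.Sun.SphereP
  Pool.Agent.P.MP_0ad054_nt.Clu

namespace SplitP

theorem fac {T : Finset ℕ} (hT : ∀ p ∈ T, p.Prime) (g : ℕ → ℕ) (r : ℕ) :
    (∏ p ∈ T, p ^ g p).factorization r = if r ∈ T then g r else 0 := by
  rw [Nat.factorization_prod fun p hp => pow_ne_zero _ (hT p hp).ne_zero, Finsupp.finsetSum_apply,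
    sum_congr rfl fun p hp => by rw [(hT p hp).factorization_pow, Finsupp.single_apply]]
  exact sum_ite_eq' T r g

theorem fac1 {T : Finset ℕ} (hT : ∀ p ∈ T, p.Prime) {q : ℕ} (hq : q ≠ 0) (r : ℕ) :
    ((∏ p ∈ T, p) * q).factorization r = (if r ∈ T then 1 else 0) + q.factorization r := by
  have := fac hT (fun _ => 1) r
  simp only [pow_one] at this
  rw [Nat.factorization_mul (prod_ne_zero_iff.2 fun p hp => (hT p hp).ne_zero) hq, Finsupp.add_apply,
    this]

theorem mem_sub {y k : ℕ} {T : Finset ℕ} :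
    T ∈ sub y k ↔ (∀ p ∈ T, p ≤ y ∧ p.Prime) ∧ T.card ≤ k := by
  simp [sub, subset_iff, Nat.mem_primesLE]

theorem pw_le {l : ℕ} {T : Finset ℕ} {g : ℕ → ℕ} (h : ∀ p ∈ T, p ≤ 2 ^ l ∧ g p ≤ l)
    (hc : T.card ≤ l ^ 2) : ∏ p ∈ T, p ^ g p ≤ (2 ^ l) ^ (l * l ^ 2) := by
  refine (prod_le_pow_card T _ ((2 ^ l) ^ l) fun p hp => ?_).trans ?_
  · exact (Nat.pow_le_pow_left (h p hp).1 _).trans (Nat.pow_le_pow_right (by positivity) (h p hp).2)
  · rw [pow_mul (2 ^ l)]
    exact Nat.pow_le_pow_right (by positivity) hc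

theorem old_le {l q : ℕ} (hq : q ≠ 0) (h : old l q) : q ≤ (2 ^ l) ^ (l * l ^ 2) := by
  conv_lhs => rw [← Nat.prod_factorization_pow_eq_self hq]
  exact pw_le h.1 h.2

theorem rk_lift (hHen : S_Hen) {p e e' k : ℕ} (hp : p.Prime) (h2 : 2 ≤ e) (hk : k ≤ e) (h : e ≤ e')
    (c t : ℤ) : rk p e' k c t = rk p e k c t := by
  induction e', h using Nat.le_induction with
  | base => rfl
  | succ n hn ih => rw [(hHen p n c hp (h2.trans hn)).2 k t (hk.trans hn), ih]

theorem P0_ne {p e : ℕ} (hp : p.Prime) (he : 1 ≤ e) {v : V} (hv : pr p v) :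
    (P0 p e (nsq v)).Nonempty := by
  classical
  have h0 : (0 : ℤ) < (p : ℤ) ^ e := pow_pos (by exact_mod_cast hp.pos) e
  have hd : ∀ j, v j % (p : ℤ) ^ e - v j = (p : ℤ) ^ e * -(v j / (p : ℤ) ^ e) := fun j => by
    rw [Int.emod_def]; ring
  refine ⟨fun j => v j % (p : ℤ) ^ e, mem_filter.2 ⟨?_, fun h => hv fun j => ?_, ?_⟩⟩
  · refine Fintype.mem_piFinset.2 fun j => mem_Ico.2 ⟨Int.emod_nonneg _ h0.ne', ?_⟩
    push_cast
    exact Int.emod_lt_of_pos _ h0
  · exact (dvd_iff_dvd_of_dvd_sub ((dvd_pow_self _ (by omega)).trans ⟨_, hd j⟩)).1 (h j)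
  · rw [nsq, nsq, ← sum_sub_distrib]
    refine dvd_sum fun j _ => ?_
    rw [sq_sub_sq, hd j, nm]
    split_ifs with h2
    · subst h2
      obtain ⟨e, rfl⟩ := Nat.exists_eq_add_of_le' he
      rw [eq_add_of_sub_eq (hd j)]
      push_cast
      exact ⟨(2 ^ e * -(v j / 2 ^ (e + 1)) + v j) * -(v j / 2 ^ (e + 1)), by ring⟩
    · push_cast
      exact (dvd_mul_right _ _).mul_left _

theorem tele (hHen : S_Hen) {p l : ℕ} (hp : p.Prime) (hl : 2 ≤ l) {v : V} (hv : pr p v) (t : ℤ) :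
    ∑ j ∈ Icc 1 l, xx p j (nsq v) t = aa p l t v := by
  have h1 : ∀ m, m ≤ l → ∑ j ∈ Icc 1 m, xx p j (nsq v) t =
      rk p l m (nsq v) t - rk p l 0 (nsq v) t := fun m hm => by
    induction m with
    | zero => simp
    | succ m ih =>
      have h2 : max (m + 1) 2 ≤ l := max_le hm hl
      rw [sum_Icc_succ_top (by omega), ih (by omega), xx,
        ← rk_lift hHen hp (le_max_right _ _) (le_max_left _ _) h2,
        ← rk_lift hHen hp (le_max_right _ _) ((Nat.sub_le _ _).trans (le_max_left _ _)) h2,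
        Nat.add_sub_cancel]
      ring
  have h2 : ((P0 p l (nsq v)).card : ℝ) ≠ 0 := by
    exact_mod_cast (P0_ne hp (by omega) hv).card_pos.ne'
  rw [h1 l le_rfl, Clu.aa, if_pos hv]
  congr 1
  simp [rk, h2]

theorem pr_iff {p : ℕ} {v : V} : pr p v ↔ ¬ p ∣ cont v := by rw [pr, dvd_cont]

open Classical in
/-- the coefficient -/
noncomputable def mu (Y c q : ℕ) : ℝ :=
  ∑ U ∈ c.primeFactors.powerset, if q.Coprime c ∧ (∏ p ∈ U, p) * q ≤ Y then (-1) ^ U.card else 0

theorem mu_le (Y : ℕ) {c : ℕ} (hc : c ≠ 0) (q : ℕ) : |mu Y c q| ≤ c := by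
  refine (abs_sum_le_sum_abs _ _).trans ((sum_le_card_nsmul _ _ 1 fun U _ => ?_).trans ?_)
  · split_ifs <;> simp
  · rw [nsmul_eq_mul, mul_one, card_powerset]
    exact_mod_cast (pow_card_le_prod _ _ 2 fun p hp => (Nat.prime_of_mem_primeFactors hp).two_le).trans
      (Nat.le_of_dvd (Nat.pos_of_ne_zero hc) (Nat.prod_primeFactors_dvd c))

theorem mu_small {Y c q : ℕ} (hc : c ≠ 0) (h : c * q ≤ Y) : mu Y c q = if c = 1 then 1 else 0 := by
  have h1 : ∀ U ∈ c.primeFactors.powerset, (∏ p ∈ U, p) * q ≤ Y := fun U hU =>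
    (Nat.mul_le_mul_right q (Nat.le_of_dvd (Nat.pos_of_ne_zero hc)
      ((prod_dvd_prod_of_subset _ _ _ (mem_powerset.1 hU)).trans (Nat.prod_primeFactors_dvd c)))).trans h
  by_cases h2 : q.Coprime c
  · rw [mu, sum_congr rfl fun U hU => if_pos ⟨h2, h1 U hU⟩]
    have := congrArg (Int.cast : ℤ → ℝ) (sum_powerset_neg_one_pow_card (x := c.primeFactors))
    push_cast at this
    rw [this]
    simp [hc]
  · rw [mu, sum_eq_zero fun U _ => if_neg fun h => h2 h.1, if_neg]
    rintro rfl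
    exact h2 (Nat.coprime_one_right q)

theorem expand (Y : ℕ) {v : V} (hc : cont v ≠ 0) (t : ℤ) :
    ∑ q ∈ Icc 1 Y, mu Y (cont v) q * A0 q (nsq v) t = ∑ q ∈ Icc 1 Y, AV q t v := by
  classical
  have hP : ∀ {U : Finset ℕ}, U ⊆ (cont v).primeFactors → ∀ p ∈ U, p.Prime := fun h p hp =>
    Nat.prime_of_mem_primeFactors (h hp)
  have hz : ∀ {q r : ℕ}, q.Coprime (cont v) → r ∈ (cont v).primeFactors → q.factorization r = 0 :=
    fun {q r} h hr => Nat.factorization_eq_zero_of_not_dvd fun hd =>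
      (Nat.prime_of_mem_primeFactors hr).ne_one
        (Nat.eq_one_of_dvd_coprimes h hd (Nat.dvd_of_mem_primeFactors hr))
  simp only [mu, sum_mul, ite_mul, zero_mul]
  rw [← sum_product', ← sum_filter]
  refine sum_of_injOn (fun z => (∏ p ∈ z.2, p) * z.1) ?_ ?_ ?_ ?_
  · rintro ⟨q, U⟩ h ⟨q', U'⟩ h' e
    simp only [coe_filter, mem_product, mem_Icc, mem_powerset, Set.mem_ofPred_eq] at h h' e
    have e1 : U = U' := by
      ext r
      have := fac1 (hP h.1.2) (q := q) (by omega) r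
      rw [e, fac1 (hP h'.1.2) (by omega)] at this
      by_cases hr : r ∈ (cont v).primeFactors
      · rw [hz h.2.1 hr, hz h'.2.1 hr] at this
        by_cases a : r ∈ U <;> by_cases b : r ∈ U' <;> simp_all
      · exact iff_of_false (fun a => hr (h.1.2 a)) fun a => hr (h'.1.2 a)
    subst e1
    rw [Nat.eq_of_mul_eq_mul_left (prod_pos fun p hp => (hP h.1.2 p hp).pos) e]
  · rintro ⟨q, U⟩ h
    simp only [coe_filter, mem_product, mem_Icc, mem_powerset, Set.mem_ofPred_eq] at h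
    exact mem_coe.2 (mem_Icc.2 ⟨Nat.mul_pos (prod_pos fun p hp => (hP h.1.2 p hp).pos) h.1.1.1, h.2.2⟩)
  · intro q hq hn
    by_contra h0
    rw [mem_Icc] at hq
    obtain ⟨q', e⟩ : ∏ p ∈ q.primeFactors ∩ (cont v).primeFactors, p ∣ q :=
      (prod_dvd_prod_of_subset _ _ _ inter_subset_left).trans (Nat.prod_primeFactors_dvd q)
    have q0 : q' ≠ 0 := by rintro rfl; omega
    refine hn ⟨(q', q.primeFactors ∩ (cont v).primeFactors), ?_, e.symm⟩
    simp only [coe_filter, mem_product, mem_Icc, mem_powerset, Set.mem_ofPred_eq]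
    refine ⟨⟨⟨by omega, (Nat.le_of_dvd hq.1 (Dvd.intro_left _ e.symm)).trans hq.2⟩,
      inter_subset_right⟩, Nat.coprime_of_dvd fun r hr h1 h2 => ?_, e ▸ hq.2⟩
    have h3 : r ∈ q.primeFactors :=
      Nat.mem_primeFactors.2 ⟨hr, h1.trans (Dvd.intro_left _ e.symm), by omega⟩
    have h4 := fac1 (hP (inter_subset_right (s₁ := q.primeFactors))) q0 r
    rw [← e, if_pos (mem_inter.2 ⟨h3, Nat.mem_primeFactors.2 ⟨hr, h2, hc⟩⟩)] at h4
    have h5 := hr.factorization_pos_of_dvd q0 h1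
    refine h0 (prod_eq_zero h3 ?_)
    rw [XX, if_neg fun h => pr_iff.1 h h2, if_neg (by omega)]
  · rintro ⟨q, U⟩ h
    simp only [mem_filter, mem_product, mem_Icc, mem_powerset] at h
    have q0 : q ≠ 0 := by omega
    have hd : Disjoint U q.primeFactors := disjoint_left.2 fun r a b =>
      (Nat.prime_of_mem_primeFactors b).factorization_pos_of_dvd q0 (Nat.dvd_of_mem_primeFactors b)
        |>.ne' (hz h.2.1 (h.1.2 a))
    simp only [AV, A0]
    rw [Nat.primeFactors_mul (prod_ne_zero_iff.2 fun p hp => (hP h.1.2 p hp).ne_zero) q0,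
      Nat.primeFactors_prod (hP h.1.2), prod_union hd, ← prod_const]
    congr 1 <;> refine prod_congr rfl fun r hr => ?_
    · rw [fac1 (hP h.1.2) q0, if_pos hr, hz h.2.1 (h.1.2 hr), XX,
        if_neg fun a => pr_iff.1 a (Nat.dvd_of_mem_primeFactors (h.1.2 hr)), if_pos rfl]
    · rw [fac1 (hP h.1.2) q0, if_neg (disjoint_right.1 hd hr), zero_add, XX, if_pos]
      exact pr_iff.2 fun a => (Nat.prime_of_mem_primeFactors hr).ne_one
        (Nat.eq_one_of_dvd_coprimes h.2.1 (Nat.dvd_of_mem_primeFactors hr) a)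

end SplitP

open SplitP

theorem pOld : S_Old := by
  classical
  intro l Y x hY
  rw [← sum_fiberwise_of_maps_to (g := Nat.primeFactors) (t := sub (2 ^ l) (l ^ 2)) fun q hq =>
    mem_sub.2 ⟨fun p hp => ⟨((mem_filter.1 hq).2.1 p hp).1, Nat.prime_of_mem_primeFactors hp⟩,
      (mem_filter.1 hq).2.2⟩]
  refine sum_congr rfl fun T hT => ?_
  rw [mem_sub] at hT
  have hp : ∀ p ∈ T, p.Prime := fun p h => (hT.1 p h).2
  rw [prod_sum]
  refine sum_nbij' (fun q p _ => q.factorization p)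
    (fun f => ∏ p ∈ T, p ^ (if h : p ∈ T then f p h else 0)) ?_ ?_ ?_ ?_ ?_
  · intro q hq
    simp only [mem_filter, mem_Icc] at hq
    refine mem_pi.2 fun p h => mem_Icc.2 ?_
    rw [← hq.2] at h
    exact ⟨(Nat.prime_of_mem_primeFactors h).factorization_pos_of_dvd (by omega)
      (Nat.dvd_of_mem_primeFactors h), (hq.1.2.1 p h).2⟩
  · intro f hf
    have h1 : ∀ p (h : p ∈ T), 1 ≤ f p h ∧ f p h ≤ l := fun p h => mem_Icc.1 (mem_pi.1 hf p h)
    have h2 : (∏ p ∈ T, p ^ (if h : p ∈ T then f p h else 0)).primeFactors = T := by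
      ext r
      rw [← Nat.support_factorization, Finsupp.mem_support_iff, fac hp]
      by_cases h : r ∈ T
      · have := h1 r h
        simp only [h, if_true, dif_pos, iff_true]
        omega
      · simp [h]
    refine mem_filter.2 ⟨mem_filter.2 ⟨mem_Icc.2 ⟨prod_pos fun p h => pow_pos (hp p h).pos _,
      (pw_le (fun p h => ⟨(hT.1 p h).1, ?_⟩) hT.2).trans hY⟩, ?_⟩, h2⟩
    · rw [dif_pos h]; exact (h1 p h).2
    · rw [old, h2]
      refine ⟨fun p h => ⟨(hT.1 p h).1, ?_⟩, hT.2⟩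
      rw [fac hp, if_pos h, dif_pos h]; exact (h1 p h).2
  · intro q hq
    simp only [mem_filter, mem_Icc] at hq
    conv_rhs => rw [← Nat.prod_factorization_pow_eq_self (n := q) (by omega)]
    rw [Finsupp.prod, Nat.support_factorization, hq.2]
    exact prod_congr rfl fun p h => by rw [dif_pos h]
  · intro f _
    funext p h
    rw [fac hp, if_pos h, dif_pos h]
  · intro q hq
    rw [(mem_filter.1 hq).2]
    exact (prod_attach T fun p => x p (q.factorization p)).symm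

theorem pSplit (hOld : S_Old) (hHen : S_Hen) : S_Split := by
  classical
  intro l Y v hl hv hY
  have hc : cont v ≠ 0 := fun h => hv (funext fun j => by
    have := (dvd_cont (k := 0) (v := v)).1 (by rw [h]) j
    simpa using this)
  refine ⟨mu Y (cont v), mu_le Y hc, fun t => ?_⟩
  rw [← expand Y hc t, ← sum_filter_add_sum_filter_not _ (old l)]
  congr 1
  rw [sum_congr rfl fun q hq => by
    rw [mu_small hc ((Nat.mul_le_mul_left _ (old_le (by have := mem_Icc.1 (mem_filter.1 hq).1; omega)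
      (mem_filter.1 hq).2)).trans hY)]]
  split_ifs with h1
  · simp only [one_mul, A0]
    rw [hOld l Y (fun p k => xx p k (nsq v) t) (by rwa [h1, one_mul] at hY)]
    refine sum_congr rfl fun T hT => prod_congr rfl fun p hp => ?_
    have h2 := ((mem_sub.1 hT).1 p hp).2
    exact tele hHen h2 hl (pr_iff.2 (by rw [h1]; exact h2.not_dvd_one)) t
  · simp

end Pool.Agent.P.MP_0ad054_nt.PS
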