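import Pool.Agent.P.MP_0ad054_nt.BG.Defs

/-! Power saving for two diagonal quadratic forms in four variables: definitions and the
statements of the parts of the proof. -/

namespace Pool.Agent.P.MP_0ad054_nt.PS

open Finset Pool.Agent.Lib.H9 Pool.Agent.P.MP_0ad054_nt.Sun Pool.Agent.P.MP_0ad054_nt.Sun.SphereP
  Pool.Agent.P.MP_0ad054_nt.Clu
open scoped Real ComplexConjugate

abbrev V : Type := Fin 4 → ℤ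

/-! ### algebra -/

/-- the numbers `105 / c j` -/
def cs : V := ![105, 35, 21, 15]

/-- the bilinear form of `Q2` -/
def QB (a b : V) : ℤ := ∑ j, cz j * a j * b j

/-- the bilinear form of the adjoint form -/
def QS (a b : V) : ℤ := ∑ j, cs j * a j * b j

def al (b : V) : ℤ := QS b b

def gb (b : V) : ℕ := Int.gcd (al b) (105 * nsq b)

def ka (b b' : V) : ℤ := Q2 b - Q2 b'

def ep (b : V) : ℤ := al b * Q2 b - 105 * nsq b ^ 2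

def De (b b' : V) : ℤ := al b' * ep b - al b * ep b'

def Ga (b b' : V) : ℕ := Int.gcd (De b b') (ka b b')

def y3 (b b' k k' : V) : ℤ := dot b k - dot b' k'

def m1 (b b' k k' : V) : ℤ :=
  (al b' * ka b b' + 105 * nsq b' ^ 2) * QS b k - 105 * nsq b * nsq b' * QS b' k' -
    105 * al b' * nsq b * y3 b b' k k'

def m2 (b b' k k' : V) : ℤ :=
  105 * nsq b * nsq b' * QS b k + (al b * ka b b' - 105 * nsq b ^ 2) * QS b' k' -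
    105 * al b * nsq b' * y3 b b' k k'

def m3 (b b' k k' : V) : ℤ :=
  -(al b' * nsq b) * QS b k + al b * nsq b' * QS b' k' + al b * al b' * y3 b b' k k'

/-- the dual form in five variables -/
def Psi (b b' k k' : V) : ℤ :=
  De b b' * (QS k k - QS k' k') -
    (m1 b b' k k' * QS b k - m2 b b' k k' * QS b' k' + 105 * m3 b b' k k' * y3 b b' k k')

/-- the dual form in six variables -/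
def Phi (b b' k k' : V) (s : ℤ) : ℤ := ka b b' * Psi b b' k k' + 105 * De b b' * s ^ 2

/-- the vector `C b` -/
def Cm (b : V) : V := fun j => cz j * b j

/-- a vector orthogonal to `b` and to `C b` -/
def h0 (b : V) : V := ![0, b 2 * b 3, -2 * (b 1 * b 3), b 1 * b 2]

noncomputable def iv (H : ℕ) : Finset ℤ := Icc (-(H : ℤ)) H

noncomputable def bx (H : ℕ) : Finset V := Fintype.piFinset (fun _ => iv H)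

/-- vectors of the box without a zero coordinate -/
noncomputable def nzb (H : ℕ) : Finset V := (bx H).filter (fun b => ∀ j, b j ≠ 0)

noncomputable def good (H G : ℕ) : Finset V := (nzb H).filter (fun b => gb b ≤ G)

/-- `gcd / max` -/
noncomputable def nu (x y : ℤ) : ℝ :=
  if x = 0 ∧ y = 0 then 1 else (Int.gcd x y : ℝ) / ((max |x| |y| : ℤ) : ℝ)

/-! ### counting lemmas -/

/-- square roots modulo `d` in an interval -/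
def S_RT : Prop :=
  ∀ (d Y G : ℕ) (c a : ℤ), 1 ≤ d →
    (((Icc a (a + Y)).filter (fun x => (d : ℤ) ∣ x ^ 2 - c)).card : ℝ) ≤
      tau d * (Y / Real.sqrt d + 1) ∧
    (((Icc a (a + Y)).filter (fun x => (d : ℤ) ∣ x ^ 2 - c ∧ Int.gcd x d ≤ G)).card : ℝ) ≤
      tau d * (2 * G * Y / d + 1)

/-- the mean of the square root of `gb` over the first coordinate -/
def S_GA : Prop :=
  ∀ ε : ℝ, 0 < ε → ∃ C : ℝ, 0 < C ∧ ∀ (N H : ℕ) (b : V), 1 ≤ H → H ≤ N → b ∈ bx H → b 1 ≠ 0 →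
    ∑ x ∈ iv H, Real.sqrt (gb (Function.update b 0 x)) ≤ C * (N : ℝ) ^ ε * H

def S_NU : Prop :=
  (∀ x y : ℤ, 0 ≤ nu x y ∧ nu x y ≤ 1) ∧
  (∃ C : ℝ, 0 < C ∧ ∀ H : ℕ, 1 ≤ H → ∑ x ∈ iv H, ∑ y ∈ iv H, nu x y ≤ C * H * LL H ^ 2) ∧
  ∀ (R : ℕ) (b : V) (i j : Fin 4), b ≠ 0 → i ≠ j →
    (((bx R).filter (fun a => dot a b = 0)).card : ℝ) ≤
      (2 * R + 1) ^ 2 * (1 + 2 * R * nu (b i) (b j))

/-- the vectors that are left out -/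
def S_BAD : Prop :=
  ∀ ε : ℝ, 0 < ε → ∃ C : ℝ, 0 < C ∧ ∀ N R H G : ℕ, 1 ≤ H → H ≤ N → 1 ≤ R → 1 ≤ G →
    ∑ b ∈ (bx H).filter (fun b => b ≠ 0 ∧ b ∉ good H G),
      (((bx R).filter (fun a => dot a b = 0)).card : ℝ) ≤
      C * (N : ℝ) ^ ε * ((R : ℝ) ^ 3 * H ^ 3 / Real.sqrt G + (R : ℝ) ^ 3 * H ^ 2 +
        (R : ℝ) ^ 2 * H ^ 4)

/-- fibres -/
def S_FIB : Prop :=
  ∀ ε : ℝ, 0 < ε → ∃ C : ℝ, 0 < C ∧ ∀ N H : ℕ, 1 ≤ H → H ≤ N →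
    (∀ m : ℤ, (((bx H).filter (fun b => Q2 b = m)).card : ℝ) ≤ C * (N : ℝ) ^ ε * H ^ 2) ∧
    ∀ x y z : ℤ, (((bx H).filter (fun b => al b = x ∧ nsq b = y ∧ Q2 b = z)).card : ℝ) ≤
      C * (N : ℝ) ^ ε

/-- pairs with vanishing determinant -/
def S_DEG : Prop :=
  ∀ ε : ℝ, 0 < ε → ∃ C : ℝ, 0 < C ∧ ∀ (N H G : ℕ) (b : V), 1 ≤ H → H ≤ N → 1 ≤ G → b ≠ 0 →
    (((good H G).filter (fun b' => De b b' = 0)).card : ℝ) ≤ C * (N : ℝ) ^ ε * G ^ 3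

def S_GG : Prop :=
  ∀ ε : ℝ, 0 < ε → ∃ C : ℝ, 0 < C ∧ ∀ N H : ℕ, 1 ≤ H → H ≤ N →
    ∑ b ∈ nzb H, ∑ b' ∈ (nzb H).filter (fun b' => ka b b' ≠ 0), Real.sqrt (Ga b b') ≤
      C * (N : ℝ) ^ ε * H ^ 8

/-- pairs that admit an isotropic dual vector with small non-zero last coordinate -/
def bad (S : ℕ) (b b' : V) : Prop :=
  ka b b' ≠ 0 ∧ ∃ s : ℤ, s ≠ 0 ∧ |s| ≤ S ∧ ka b b' ∣ 105 * De b b' * s ^ 2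

open Classical in
def S_BADP : Prop :=
  ∀ ε : ℝ, 0 < ε → ∃ C : ℝ, 0 < C ∧ ∀ N H S J : ℕ, 1 ≤ H → H ≤ N → S ≤ N → 1 ≤ J →
    ∑ b ∈ nzb H, (((nzb H).filter (fun b' => bad S b b')).card : ℝ) ≤
      C * (N : ℝ) ^ ε * ((H : ℝ) ^ 8 / Real.sqrt J + (S : ℝ) * J * H ^ 6)

/-! ### complete sums -/

noncomputable def ex (q : ℕ) (a : ℤ) : ℂ := e (a / q)

noncomputable def un (q : ℕ) : Finset ℤ := (Ico (0 : ℤ) q).filter (fun r => Int.gcd r q = 1)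

noncomputable def GB (q : ℕ) (b : V) (r n : ℤ) (k : V) : ℂ :=
  ∑ n1 ∈ Ico (0 : ℤ) q, ∑ x ∈ res q, ex q (r * Q2 x + n1 * dot b x + n * QB b x + dot k x)

noncomputable def G11 (q : ℕ) (b b' : V) (r : ℤ) (k k' : V) : ℂ :=
  ∑ n ∈ Ico (0 : ℤ) q, GB q b r n k * conj (GB q b' r n k')

noncomputable def G1 (q : ℕ) (a s : ℤ) : ℂ := ∑ t ∈ Ico (0 : ℤ) q, ex q (a * t ^ 2 + s * t)

noncomputable def SS (q : ℕ) (b b' k k' : V) (s : ℤ) : ℂ :=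
  ∑ r ∈ un q, G1 q (r * ka b b') s * G11 q b b' r k k'

/-- the form in twelve variables -/
def F12 (b b' x x' w : V) : ℤ :=
  Q2 x - Q2 x' + w 0 * dot b x - w 1 * dot b' x' + w 2 * (QB b x - QB b' x') + ka b b' * w 3 ^ 2

noncomputable def I12 (q : ℕ) (b b' : V) (r : ℤ) (k k' : V) (s : ℤ) : ℂ :=
  ∑ x ∈ res q, ∑ x' ∈ res q, ∑ w ∈ res q,
    ex q (r * F12 b b' x x' w + (dot k x - dot k' x' + s * w 3))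

def S_ID : Prop :=
  ∀ (q : ℕ) (b b' k k' : V) (r s : ℤ), 1 ≤ q → IsCoprime r q →
    G1 q (r * ka b b') s * G11 q b b' r k k' = I12 q b b' r k k' s

/-- the kernel of the three by three matrix -/
def S_KE : Prop :=
  ∀ (q : ℕ) (b b' : V), 1 ≤ q → b ≠ 0 → b' ≠ 0 →
    ((Ico (0 : ℤ) q ×ˢ Ico (0 : ℤ) q ×ˢ Ico (0 : ℤ) q).filter (fun n =>
      (q : ℤ) ∣ al b * n.1 + 105 * nsq b * n.2.2 ∧ (q : ℤ) ∣ al b' * n.2.1 + 105 * nsq b' * n.2.2 ∧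
      (q : ℤ) ∣ nsq b * n.1 - nsq b' * n.2.1 + ka b b' * n.2.2)).card ≤
      Nat.gcd q (gb b) * Nat.gcd q (gb b') * Int.gcd q (De b b')

def S_K11 : Prop :=
  ∀ (q : ℕ) (b b' k k' : V) (r : ℤ), 1 ≤ q → b ≠ 0 → b' ≠ 0 → IsCoprime r q →
    ‖G11 q b b' r k k'‖ ^ 2 ≤ (q : ℝ) ^ 11 * ((Nat.gcd q 210 : ℝ) ^ 8 *
      ((Nat.gcd q (gb b) * Nat.gcd q (gb b') * Int.gcd q (De b b') : ℕ) : ℝ))

/-- sums in one variable -/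
def S_G1 : Prop :=
  (∀ (q : ℕ) (a s : ℤ), 1 ≤ q → ‖G1 q a s‖ ^ 2 ≤ q * (Int.gcd q (2 * a) : ℝ)) ∧
  ∀ (q : ℕ) (a : ℤ), Odd q →
    ‖∑ u ∈ un q, ex q (a * u ^ 2)‖ ≤ tau q * Real.sqrt (q * (Int.gcd q a : ℝ))

def S_MUL : Prop :=
  ∀ (q1 q2 : ℕ) (b b' k k' : V) (s : ℤ), 1 ≤ q1 → 1 ≤ q2 → q1.Coprime q2 →
    SS (q1 * q2) b b' k k' s = SS q1 b b' k k' s * SS q2 b b' k k' s

/-- completing the square -/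
def S_CSQ : Prop :=
  ∀ (q : ℕ) (b b' k k' : V) (r s r' d' : ℤ), 1 ≤ q → (q : ℤ) ∣ r * r' - 1 →
    (q : ℤ) ∣ 210 * ka b b' * De b b' * d' - 1 →
    I12 q b b' r k k' s = I12 q b b' r 0 0 0 *
      ex q (-(r' * d' ^ 2 * (105 * ka b b' * De b b' * Phi b b' k k' s)))

def S_SQ : Prop :=
  ∀ (q : ℕ) (b b' k k' : V) (s : ℤ), 1 ≤ q → b ≠ 0 → b' ≠ 0 →
    IsCoprime (210 * ka b b' * De b b') q →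
    ‖SS q b b' k k' s‖ ≤ tau q * (q : ℝ) ^ 6 * Real.sqrt (q * (Int.gcd q (Phi b b' k k' s) : ℝ))

/-- dyadic sums, trivial bound -/
def S_DT : Prop :=
  (∀ (X : ℕ) (a : ℤ), a ≠ 0 → ∑ q ∈ Icc 1 X, (Int.gcd q a : ℝ) ≤ X * tau a.natAbs) ∧
  ∀ ε : ℝ, 0 < ε → ∃ C : ℝ, 0 < C ∧ ∀ (N H q0 : ℕ) (b b' k k' : V) (s : ℤ), H ≤ N → 1 ≤ q0 →
    b ∈ nzb H → b' ∈ nzb H → ka b b' ≠ 0 → De b b' ≠ 0 →
    ∑ q ∈ Ico q0 (2 * q0), ‖SS q b b' k k' s‖ ≤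
      C * (N : ℝ) ^ ε * (q0 : ℝ) ^ 8 * Real.sqrt (gb b * gb b')

/-- dyadic sums, with cancellation in the numerators -/
def S_DR : Prop :=
  ∀ ε : ℝ, 0 < ε → ∃ C : ℝ, 0 < C ∧ ∀ (N H q0 : ℕ) (b b' k k' : V) (s : ℤ), H ≤ N → 1 ≤ q0 →
    q0 ≤ N → b ∈ nzb H → b' ∈ nzb H → k ∈ bx N → k' ∈ bx N → s ∈ iv N → ka b b' ≠ 0 →
    De b b' ≠ 0 → Phi b b' k k' s ≠ 0 →
    ∑ q ∈ Ico q0 (2 * q0), ‖SS q b b' k k' s‖ ≤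
      C * (N : ℝ) ^ ε * ((q0 : ℝ) ^ 7 * Real.sqrt q0) * Real.sqrt (gb b * gb b' * Ga b b')

/-! ### theta series -/

noncomputable def Om (N : ℕ) (η : ℝ) : ℝ := Real.sqrt (1 + (N * η) ^ 2)

noncomputable def EE (N : ℕ) (lam : ℝ) (m : ℤ) : ℂ :=
  e (lam * m) * (Real.exp (-(2 * π * m / N)) : ℝ)

noncomputable def Th (N : ℕ) (b : V) (lam ν : ℝ) : ℂ :=
  ∑' a : V, if dot a b = 0 then EE N lam (Q2 a) * e (ν * QB b a) else 0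

noncomputable def TH (N : ℕ) (b b' : V) (lam : ℝ) : ℂ :=
  ∫ ν in (0 : ℝ)..1, Th N b lam ν * conj (Th N b' lam ν)

noncomputable def th (N T : ℕ) (b b' : V) (lam : ℝ) : ℂ :=
  ∑' t : ℤ, (Real.exp (-(π * t ^ 2 / T ^ 2)) : ℝ) *
    (EE N lam (t ^ 2 * Q2 b) * conj (EE N lam (t ^ 2 * Q2 b')))

noncomputable def UU (N : ℕ) (B : Finset V) (t : ℤ) (lam ν : ℝ) : ℂ :=
  ∑ b ∈ B, EE N lam (t ^ 2 * Q2 b) * Th N b lam ν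

noncomputable def Xi (N T : ℕ) (B : Finset V) (lam : ℝ) : ℝ :=
  ∑' t : ℤ, Real.exp (-(π * t ^ 2 / T ^ 2)) * ∫ ν in (0 : ℝ)..1, ‖UU N B t lam ν‖ ^ 2

/-- the periodic Gaussian -/
noncomputable def vth (r x : ℝ) : ℝ := ∑' n : ℤ, Real.exp (-(π * (x - n) ^ 2 / r ^ 2))

/-- the weight of a dual vector -/
noncomputable def mb (r : ℝ) (b k : V) (θ : ℝ) : ℝ :=
  ∫ x in (0 : ℝ)..1, Real.exp (-(π * (∑ j, ((k j : ℝ) - (x + cz j * θ) * b j) ^ 2) / r ^ 2))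

noncomputable def mm (r : ℝ) (b b' k k' : V) : ℝ := ∫ θ in (0 : ℝ)..1, mb r b k θ * mb r b' k' θ

noncomputable def JJ (r : ℝ) (b : V) (θ : ℝ) : ℝ :=
  ∫ x in (0 : ℝ)..1, ∏ j, vth r ((x + cz j * θ) * b j)

noncomputable def I8 (r : ℝ) (b b' : V) : ℝ := ∫ θ in (0 : ℝ)..1, JJ r b θ * JJ r b' θ

noncomputable def psi (r : ℝ) (H : ℕ) (x : ℝ) : ℝ := ∑ b ∈ (iv H).erase 0, vth r (b * x)

noncomputable def I2 (r : ℝ) (H : ℕ) : ℝ := ∫ x in (0 : ℝ)..1, psi r H x ^ 2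

/-- Poisson summation in one variable with a periodic factor and a linear term -/
def S_P1 : Prop :=
  ∀ (q : ℕ) (φ : ℤ → ℂ) (A : ℂ) (z : ℝ), 1 ≤ q → 0 < A.re →
    (∀ x y : ℤ, (q : ℤ) ∣ x - y → φ x = φ y) →
    Summable (fun n : ℤ => ‖φ n * Complex.exp (-(π * A * n ^ 2)) * e (z * n)‖) ∧
    Summable (fun k : ℤ => ‖Complex.exp (-(π * ((k : ℂ) / q - z) ^ 2 / A))‖) ∧
    ∑' n : ℤ, φ n * Complex.exp (-(π * A * n ^ 2)) * e (z * n) =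
      1 / (q * A ^ (1 / 2 : ℂ)) * ∑' k : ℤ, (∑ x ∈ Ico (0 : ℤ) q, φ x * ex q (k * x)) *
        Complex.exp (-(π * ((k : ℂ) / q - z) ^ 2 / A))

/-- convolution of two complex Gaussians -/
def S_CONV : Prop :=
  ∀ (β0 β1 : ℂ) (x : ℝ), 0 < β0.re → 0 < β1.re →
    (∫ y : ℝ, 1 / β0 ^ (1 / 2 : ℂ) * Complex.exp (-(π * y ^ 2 / β0))) = 1 ∧
    ‖∫ y : ℝ, 1 / β0 ^ (1 / 2 : ℂ) * Complex.exp (-(π * y ^ 2 / β0)) *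
        Complex.exp (-(π * (x - y) ^ 2 / β1))‖ =
      Real.sqrt (‖β1‖ / ‖β0 + β1‖) * Real.exp (-(π * x ^ 2 * (1 / (β0 + β1)).re))

/-- Poisson summation for the full lattice -/
def S_P4 : Prop :=
  ∀ (N q : ℕ) (b : V) (r n n1 : ℤ) (η θ x : ℝ), 1 ≤ N → 1 ≤ q →
    ∑' a : V, EE N (r / q + η) (Q2 a) * e ((n + θ) / q * QB b a) * e ((n1 + x) / q * dot a b) =
      1 / (q : ℂ) ^ 4 * (∏ j, 1 / (2 * cz j * (1 / N - Complex.I * η)) ^ (1 / 2 : ℂ)) *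
        ∑' k : V, (∑ v ∈ res q, ex q (r * Q2 v + n1 * dot b v + n * QB b v + dot k v)) *
          Complex.exp (-(π * (∑ j, (((k j : ℝ) - (x + cz j * θ) * b j : ℝ) : ℂ) ^ 2 /
            (2 * cz j)) / (q ^ 2 * (1 / N - Complex.I * η))))

/-- the basic bounds for the weights -/
def S_VT : Prop :=
  ∀ r : ℝ, 0 < r → Continuous (vth r) ∧ (∀ x, 0 ≤ vth r x ∧ vth r x ≤ 1 + r) ∧
    (∀ (x : ℝ) (n : ℤ), vth r (x + n) = vth r x) ∧ (∫ x in (0 : ℝ)..1, vth r x) = r ∧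
    ∀ b b' : ℤ, b ≠ 0 → b' ≠ 0 →
      (∫ x in (0 : ℝ)..1, vth r (b * x) * vth r (b' * x)) ≤ r * (r + nu b b')

def S_MJ : Prop :=
  ∀ (r : ℝ) (b : V), 0 < r →
    (∀ k, Continuous (mb r b k)) ∧ Continuous (JJ r b) ∧
    (∀ k θ, 0 ≤ mb r b k θ ∧ mb r b k θ ≤ 1) ∧ (∀ θ, 0 ≤ JJ r b θ) ∧
    (∀ (r' : ℝ) (k : V) (θ : ℝ), r ≤ r' → mb r b k θ ≤ mb r' b k θ) ∧
    (∀ (K : Finset V) (θ : ℝ), ∑ k ∈ K, mb r b k θ ≤ JJ r b θ) ∧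
    ∀ b' : V, (∀ k k', 0 ≤ mm r b b' k k') ∧
      (∀ (r' : ℝ) (k k' : V), r ≤ r' → mm r b b' k k' ≤ mm r' b b' k k') ∧
      ∀ K K' : Finset V, ∑ k ∈ K, ∑ k' ∈ K', mm r b b' k k' ≤ I8 r b b'

/-- one block, dual form -/
def S_BLK : Prop :=
  ∃ C : ℝ, 0 < C ∧ ∀ (N q : ℕ) (b : V) (η θ r : ℝ) (S : Finset (ℤ × ℤ)) (c : ℤ × ℤ → ℂ),
    1 ≤ N → 1 ≤ q → b ≠ 0 → 28 * (q * Om N η) ^ 2 ≤ r ^ 2 * N → 0 < r →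
    ‖∑ i ∈ S, c i * Th N b (i.1 / q + η) ((i.2 + θ) / q)‖ ≤
      C * ((N : ℝ) ^ 2 / ((q : ℝ) ^ 5 * (Om N η ^ 2 * Real.sqrt (Om N η)))) *
        ∑' k : V, mb r b k θ * ‖∑ i ∈ S, c i * GB q b i.1 i.2 k‖

/-- the tail of the dual sum -/
def S_TAIL : Prop :=
  ∃ C : ℝ, 0 < C ∧ ∀ (N H : ℕ) (b : V) (θ r : ℝ), 1 ≤ N → 16 * H ≤ N → b ∈ bx H → 0 ≤ θ → θ ≤ 1 →
    0 < r → r ^ 2 ≤ N → Summable (fun k => mb r b k θ) ∧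
    ∑' k : V, (if k ∈ bx N then 0 else mb r b k θ) ≤ C / (N : ℝ) ^ 50

/-- the sum over `t`, dual form -/
def S_TB : Prop :=
  ∃ C : ℝ, 0 < C ∧ ∀ (N T H q0 : ℕ) (b b' : V) (η : ℝ), 1 ≤ T → T ≤ N →
    (T * H : ℝ) ^ 2 ≤ 100 * N → 1 ≤ q0 → (q0 * Om N η) ^ 4 ≤ (N : ℝ) ^ 3 → b ∈ bx H → b' ∈ bx H →
    (∀ lam : ℝ, ‖th N T b b' lam‖ ≤ C * T) ∧
    ∃ w : ℤ → ℝ, (∀ s, 0 ≤ w s ∧ w s ≤ T ∧ w s * (T * s) ^ 2 ≤ C * T * (q0 * Om N η) ^ 2) ∧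
      ∑ s ∈ iv N, w s ≤ C * (T + q0 * Real.sqrt (Om N η)) ∧
      ∀ (q : ℕ) (S : Finset ℤ) (c : ℤ → ℂ), q0 ≤ q → q < 2 * q0 →
        ‖∑ r ∈ S, c r * th N T b b' (r / q + η)‖ ≤
          1 / q * ∑ s ∈ iv N, w s * ‖∑ r ∈ S, c r * G1 q (r * ka b b') s‖ +
            C / (N : ℝ) ^ 50 * ∑ r ∈ S, ‖c r‖

/-- continuity and the expansion of `Xi` -/
def S_XI : Prop :=
  ∃ C : ℝ, 0 < C ∧ ∀ N : ℕ, 1 ≤ N →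
    (∀ b : V, Continuous (fun p : ℝ × ℝ => Th N b p.1 p.2) ∧
      ∀ lam ν : ℝ, ‖Th N b lam ν‖ ≤ C * (N : ℝ) ^ 2) ∧
    ∀ (T : ℕ) (B : Finset V), 1 ≤ T → Continuous (Xi N T B) ∧
      (∀ lam, 0 ≤ Xi N T B lam ∧ Xi N T B (lam + 1) = Xi N T B lam ∧
        ((Xi N T B lam : ℝ) : ℂ) = ∑ b ∈ B, ∑ b' ∈ B, th N T b b' lam * TH N b b' lam) ∧
      ∀ lam, ∑ t ∈ Ioc (T : ℤ) (2 * T), ∫ ν in (0 : ℝ)..1, ‖UU N B t lam ν‖ ^ 2 ≤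
        Real.exp (4 * π) * Xi N T B lam

/-- both blocks -/
def S_MAS : Prop :=
  ∃ C : ℝ, 0 < C ∧ ∀ (N H q : ℕ) (b b' : V) (η r : ℝ) (S : Finset ℤ) (a : ℤ → ℂ),
    1 ≤ H → 16 * H ≤ N → 1 ≤ q → q ≤ N → b ∈ nzb H → b' ∈ nzb H →
    28 * (q * Om N η) ^ 2 ≤ r ^ 2 * N → 0 < r → r ^ 2 ≤ N →
    ‖∑ i ∈ S, a i * TH N b b' (i / q + η)‖ ≤
      C * ((N : ℝ) ^ 4 / ((q : ℝ) ^ 11 * Om N η ^ 5)) *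
        ∑ k ∈ bx N, ∑ k' ∈ bx N, mm r b b' k k' * ‖∑ i ∈ S, a i * G11 q b b' i k k'‖ +
      C / (N : ℝ) ^ 30 * ∑ i ∈ S, ‖a i‖

/-! ### masses -/

def S_I2 : Prop :=
  ∃ C : ℝ, 0 < C ∧ ∀ (r : ℝ) (H : ℕ), 0 < r → 1 ≤ H →
    0 ≤ I2 r H ∧ I2 r H ≤ C * ((H : ℝ) ^ 2 * r ^ 2 + H * r * LL H ^ 2)

/-- independent linear forms on the torus -/
def S_IND : Prop :=
  ∀ (f g : ℝ → ℝ) (c c' : ℤ), Continuous f → Continuous g → (∀ (x : ℝ) (n : ℤ), f (x + n) = f x) →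
    (∀ (x : ℝ) (n : ℤ), g (x + n) = g x) → c ≠ c' →
    (∀ (m : ℤ) (a : ℝ), m ≠ 0 → (∫ x in (0 : ℝ)..1, f (m * x + a)) = ∫ x in (0 : ℝ)..1, f x) ∧
    (∫ θ in (0 : ℝ)..1, ∫ x in (0 : ℝ)..1, f (x + c * θ) * g (x + c' * θ)) =
      (∫ x in (0 : ℝ)..1, f x) * ∫ x in (0 : ℝ)..1, g x

def S_MS : Prop :=
  ∀ (r : ℝ) (b b' : V), 0 < r → (∀ j, b j ≠ 0) → (∀ j, b' j ≠ 0) →
    0 ≤ I8 r b b' ∧ I8 r b b' ≤ r ^ 3 * (1 + r) ^ 5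

def S_M1 : Prop :=
  ∀ ε : ℝ, 0 < ε → ∃ C : ℝ, 0 < C ∧ ∀ (N H : ℕ) (r : ℝ), 1 ≤ H → H ≤ N → 0 < r →
    ∑ b ∈ nzb H, ∑ b' ∈ nzb H, Real.sqrt (gb b * gb b') * I8 r b b' ≤
      C * (N : ℝ) ^ ε * ((1 + r) ^ 2 * H ^ 2 * I2 r H ^ 3)

def S_M3 : Prop :=
  ∀ (H : ℕ) (r D : ℝ) (P : Finset (V × V)), 0 < r → 0 ≤ D →
    (∀ p ∈ P, p.1 ∈ nzb H ∧ p.2 ∈ nzb H) →
    (∀ b, ((P.filter (fun p => p.1 = b)).card : ℝ) ≤ D) →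
    (∀ b, ((P.filter (fun p => p.2 = b)).card : ℝ) ≤ D) →
    ∑ p ∈ P, I8 r p.1 p.2 ≤ D * (r * (1 + r) ^ 3 * I2 r H ^ 2)

/-- the short vectors of the lattice in five dimensions -/
noncomputable def L8 (A : ℝ) (b b' : V) : ℝ :=
  ∑' h : V × V, if h ≠ 0 ∧ dot h.1 b = 0 ∧ dot h.2 b' = 0 ∧ QB b h.1 + QB b' h.2 = 0 then
    Real.exp (-(π * ((nsq h.1 + nsq h.2 : ℤ) : ℝ) / A ^ 2)) else 0

/-- the Fourier expansion on the torus -/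
def S_EQ1 : Prop :=
  ∀ (r : ℝ) (b b' : V) (a a' : Fin 4 → ℝ), 0 < r →
    (∫ θ in (0 : ℝ)..1, (∫ x in (0 : ℝ)..1, ∏ j, vth r ((x + cz j * θ) * b j + a j)) *
      ∫ x in (0 : ℝ)..1, ∏ j, vth r ((x + cz j * θ) * b' j + a' j)) ≤
      r ^ 8 * (1 + L8 (1 / r) b b')

open Classical in
/-- equidistribution of the dual vectors modulo `p` -/
def S_EQ : Prop :=
  ∀ (p : ℕ) (R : ℝ) (b b' : V) (φ : V → V → Prop) (K K' : Finset V), 1 ≤ p → 0 < R →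
    (∀ k k' l l' : V, (∀ j, (p : ℤ) ∣ k j - l j) → (∀ j, (p : ℤ) ∣ k' j - l' j) →
      φ k k' → φ l l') →
    (∀ k k', (φ (k + b) k' ↔ φ k k') ∧ (φ k (k' + b') ↔ φ k k') ∧
      (φ (k + Cm b) (k' + Cm b') ↔ φ k k')) →
    ∑ k ∈ K, ∑ k' ∈ K', (if φ k k' then mm R b b' k k' else 0) ≤
      ((res p ×ˢ res p).filter (fun c => φ c.1 c.2)).card * (R / p) ^ 8 * (1 + L8 (p / R) b b')

def S_LAM : Prop :=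
  ∃ C : ℝ, 0 < C ∧ ∀ (H : ℕ) (A : ℝ), 1 ≤ H → 0 < A →
    (∀ (b b' : V) (A' : ℝ), 0 < A' → A' ≤ A → 0 ≤ L8 A' b b' ∧ L8 A' b b' ≤ L8 A b b') ∧
    ∑ b ∈ nzb H, ∑ b' ∈ nzb H, L8 A b b' ≤ C * (1 + A) ^ 8 * H ^ 6

/-- the dual form: invariance and zeros modulo a prime -/
def S_ZER : Prop :=
  ∀ b b' : V,
    (∀ k k', Psi b b' (k + b) k' = Psi b b' k k' ∧ Psi b b' k (k' + b') = Psi b b' k k' ∧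
      Psi b b' (k + Cm b) (k' + Cm b') = Psi b b' k k') ∧
    (∀ (m : ℤ) (k k' l l' : V), (∀ j, m ∣ k j - l j) → (∀ j, m ∣ k' j - l' j) →
      m ∣ Psi b b' k k' - Psi b b' l l') ∧
    ∀ p : ℕ, p.Prime → ¬ (p : ℤ) ∣ 105 * De b b' * Q2 (h0 b) →
      ((res p ×ˢ res p).filter (fun c => (p : ℤ) ∣ Psi b b' c.1 c.2)).card ≤ 2 * p ^ 7

def S_PRM : Prop :=
  ∀ (P : ℕ) (m : ℤ), 2 ≤ P → m ≠ 0 → |m| ≤ (P : ℤ) ^ 59 →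
    ∃ p : ℕ, p.Prime ∧ P ≤ p ∧ p ≤ 2 ^ 60 * P ∧ ¬ (p : ℤ) ∣ m

/-- the mass of the zeros of the dual form -/
def S_ISO : Prop :=
  ∃ C : ℝ, 0 < C ∧ ∀ (H P : ℕ) (R : ℝ) (K : Finset V), 1 ≤ H → 2 ≤ P → 1 ≤ R →
    10 ^ 12 * H ^ 10 ≤ P ^ 59 →
    ∑ b ∈ nzb H, ∑ b' ∈ (nzb H).filter (fun b' => De b b' ≠ 0), ∑ k ∈ K, ∑ k' ∈ K,
      (if Psi b b' k k' = 0 then mm R b b' k k' else 0) ≤
      C * R ^ 8 * ((H : ℝ) ^ 8 / P + (P : ℝ) ^ 7 * H ^ 6)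

/-! ### the key estimate -/

/-- the contribution of a pair to a dyadic block -/
noncomputable def XP (N T q0 : ℕ) (η : ℝ) (b b' : V) : ℝ :=
  ∑ q ∈ Ico q0 (2 * q0), ‖∑ r ∈ un q, th N T b b' (r / q + η) * TH N b b' (r / q + η)‖

/-- the common range of the parameters for one pair -/
def Rng (N T H q0 : ℕ) (η r : ℝ) : Prop :=
  1 ≤ T ∧ T ≤ N ∧ 1 ≤ H ∧ 16 * H ≤ N ∧ (T * H : ℝ) ^ 2 ≤ 100 * N ∧ 1 ≤ q0 ∧ 2 * q0 ≤ N ∧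
    (q0 * Om N η) ^ 4 ≤ (N : ℝ) ^ 3 ∧ 112 * (q0 * Om N η) ^ 2 ≤ r ^ 2 * N ∧ 0 < r ∧ r ^ 2 ≤ N

/-- the master inequality -/
def S_KPM : Prop :=
  ∃ C : ℝ, 0 < C ∧ ∀ (N T H q0 : ℕ) (η r : ℝ) (b b' : V), Rng N T H q0 η r →
    b ∈ nzb H → b' ∈ nzb H →
    ∃ w : ℤ → ℝ, (∀ s, 0 ≤ w s ∧ w s ≤ T ∧ w s * (T * s) ^ 2 ≤ C * T * (q0 * Om N η) ^ 2) ∧
      ∑ s ∈ iv N, w s ≤ C * (T + q0 * Real.sqrt (Om N η)) ∧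
      XP N T q0 η b b' ≤ C * ((N : ℝ) ^ 4 / ((q0 : ℝ) ^ 12 * Om N η ^ 5)) *
        ∑ k ∈ bx N, ∑ k' ∈ bx N, mm r b b' k k' *
          ∑ s ∈ iv N, w s * ∑ q ∈ Ico q0 (2 * q0), ‖SS q b b' k k' s‖ + C

open Classical in
/-- a non-degenerate pair -/
def S_KP0 : Prop :=
  ∀ ε : ℝ, 0 < ε → ∃ C : ℝ, 0 < C ∧ ∀ (N T H q0 S : ℕ) (η r : ℝ) (b b' : V), Rng N T H q0 η r →
    1 ≤ S → b ∈ nzb H → b' ∈ nzb H → ka b b' ≠ 0 → De b b' ≠ 0 →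
    XP N T q0 η b b' ≤ C * (N : ℝ) ^ ε * ((N : ℝ) ^ 4 / ((q0 : ℝ) ^ 4 * Om N η ^ 5)) *
        ((T + q0 * Real.sqrt (Om N η)) * (Real.sqrt (gb b * gb b') * I8 r b b')) + C ∧
    XP N T q0 η b b' ≤ C * (N : ℝ) ^ ε * ((N : ℝ) ^ 4 / ((q0 : ℝ) ^ 4 * Om N η ^ 5)) *
        ((T + q0 * Real.sqrt (Om N η)) / Real.sqrt q0 *
          (Real.sqrt (gb b * gb b' * Ga b b') * I8 r b b') +
        T * (Real.sqrt (gb b * gb b') * I8 r b b')) + C ∧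
    XP N T q0 η b b' ≤ C * (N : ℝ) ^ ε * ((N : ℝ) ^ 4 / ((q0 : ℝ) ^ 4 * Om N η ^ 5)) *
        ((T + q0 * Real.sqrt (Om N η)) / Real.sqrt q0 *
          (Real.sqrt (gb b * gb b' * Ga b b') * I8 r b b') +
        T * Real.sqrt (gb b * gb b') *
          ((∑ k ∈ bx N, ∑ k' ∈ bx N, if Psi b b' k k' = 0 then mm r b b' k k' else 0) +
            ((if bad S b b' then 1 else 0) + (q0 * Om N η / (T * S)) ^ 2) * I8 r b b')) + C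

/-- a degenerate pair -/
def S_KP1 : Prop :=
  ∀ ε : ℝ, 0 < ε → ∃ C : ℝ, 0 < C ∧ ∀ (N T H q0 : ℕ) (η r : ℝ) (b b' : V), Rng N T H q0 η r →
    b ∈ nzb H → b' ∈ nzb H →
    XP N T q0 η b b' ≤ C * (N : ℝ) ^ ε * ((N : ℝ) ^ 4 / ((q0 : ℝ) ^ 4 * Om N η ^ 5)) *
        (T * (if De b b' = 0 then (q0 : ℝ) else Real.sqrt q0) *
          (Real.sqrt (gb b * gb b') * I8 r b b')) + C

/-- the choice of the parameters -/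
def Par (u : ℝ) (N T H G q0 : ℕ) (η : ℝ) : Prop :=
  100 ≤ u ∧ u ^ 6000 = N ∧ u ^ 1999 ≤ 2 * T ∧ T ≤ u ^ 1999 ∧ 1 ≤ H ∧ H ≤ 10 * u ^ 1001 ∧
    1 ≤ G ∧ G ≤ u ^ 100 ∧ 1 ≤ q0 ∧ q0 ≤ u ^ 3002 ∧ |η| * (q0 * u ^ 3002) ≤ 1

/-- the bound for a block -/
noncomputable def Tg (u : ℝ) (N q0 : ℕ) (η : ℝ) : ℝ :=
  u ^ 22004 / Om N η * (1 / u + 1 / (q0 * Om N η))

/-- elementary consequences of the choice of the parameters -/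
def S_PAR : Prop :=
  ∀ (u : ℝ) (N T H G q0 : ℕ) (η : ℝ), Par u N T H G q0 η →
    Rng N T H q0 η (11 * (q0 * Om N η) / u ^ 3000) ∧ 1 ≤ Om N η ∧
    q0 * Om N η ≤ q0 + u ^ 2998 ∧ H ≤ N ∧ (((good H G).card : ℝ)) ^ 2 ≤ Tg u N q0 η ∧
    u ^ 22003 / Om N η ≤ Tg u N q0 η ∧ ∀ b ∈ good H G, b ∈ nzb H ∧ (gb b : ℝ) ≤ u ^ 100

/-- non-degenerate pairs, small blocks -/
def S_KA0 : Prop :=
  ∀ ε : ℝ, 0 < ε → ∃ C : ℝ, 0 < C ∧ ∀ (u : ℝ) (N T H G q0 : ℕ) (η : ℝ), Par u N T H G q0 η →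
    (q0 * Om N η ≤ u ^ 2250 ∨ q0 * Real.sqrt (Om N η) ≤ T) →
    ∑ b ∈ good H G, ∑ b' ∈ (good H G).filter (fun b' => ka b b' ≠ 0 ∧ De b b' ≠ 0),
      XP N T q0 η b b' ≤ C * (N : ℝ) ^ ε * Tg u N q0 η

/-- non-degenerate pairs, middle blocks -/
def S_KA1 : Prop :=
  ∀ ε : ℝ, 0 < ε → ∃ C : ℝ, 0 < C ∧ ∀ (u : ℝ) (N T H G q0 : ℕ) (η : ℝ), Par u N T H G q0 η →
    u ^ 2250 ≤ q0 * Om N η → T ≤ q0 * Real.sqrt (Om N η) → q0 ≤ u ^ 2998 →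
    ∑ b ∈ good H G, ∑ b' ∈ (good H G).filter (fun b' => ka b b' ≠ 0 ∧ De b b' ≠ 0),
      XP N T q0 η b b' ≤ C * (N : ℝ) ^ ε * Tg u N q0 η

/-- non-degenerate pairs, large blocks -/
def S_KA2 : Prop :=
  ∀ ε : ℝ, 0 < ε → ∃ C : ℝ, 0 < C ∧ ∀ (u : ℝ) (N T H G q0 : ℕ) (η : ℝ), Par u N T H G q0 η →
    u ^ 2998 ≤ q0 →
    ∑ b ∈ good H G, ∑ b' ∈ (good H G).filter (fun b' => ka b b' ≠ 0 ∧ De b b' ≠ 0),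
      XP N T q0 η b b' ≤ C * (N : ℝ) ^ ε * Tg u N q0 η

/-- degenerate pairs -/
def S_KA3 : Prop :=
  ∀ ε : ℝ, 0 < ε → ∃ C : ℝ, 0 < C ∧ ∀ (u : ℝ) (N T H G q0 : ℕ) (η : ℝ), Par u N T H G q0 η →
    ∑ b ∈ good H G, ∑ b' ∈ (good H G).filter (fun b' => ¬ (ka b b' ≠ 0 ∧ De b b' ≠ 0)),
      XP N T q0 η b b' ≤ C * (N : ℝ) ^ ε * Tg u N q0 η

def S_KA : Prop :=
  ∀ ε : ℝ, 0 < ε → ∃ C : ℝ, 0 < C ∧ ∀ (u : ℝ) (N T H G q0 : ℕ) (η : ℝ), Par u N T H G q0 η →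
    ∑ q ∈ Ico q0 (2 * q0), ∑ r ∈ un q, Xi N T (good H G) (r / q + η) ≤
      C * (N : ℝ) ^ ε * Tg u N q0 η

/-! ### from the key estimate to the counting form -/

/-- covering a set by arcs -/
def S_COV1 : Prop :=
  ∃ C : ℝ, 0 < C ∧ ∀ (N : ℕ) (Q0 Y A s : ℝ) (X : ℝ → ℝ) (U : Set ℝ), 1 ≤ N → 1 ≤ Y → 1 ≤ Q0 →
    Q0 ≤ N → 0 ≤ A → 0 ≤ s → Continuous X → (∀ x, 0 ≤ X x) → (∀ x, X (x + 1) = X x) →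
    MeasurableSet U → U ⊆ Set.Ioc 0 1 →
    (∀ x ∈ U, ∀ (a : ℤ) (q : ℕ), 1 ≤ q → Y ≤ q * Om N (x - a / q)) →
    (∀ (q0 : ℕ) (η : ℝ), 1 ≤ q0 → q0 ≤ Q0 → |η| * (q0 * Q0) ≤ 1 →
      ∑ q ∈ Ico q0 (2 * q0), ∑ r ∈ un q, X (r / q + η) ≤
        A / Om N η * (s + 1 / (q0 * Om N η))) →
    (∫ x in U, X x) ≤ C * LL N ^ 2 * (A / N) * (s + 1 / Y)

/-- major and minor arcs -/
def S_COV : Prop :=
  ∃ C : ℝ, 0 < C ∧ ∀ (N : ℕ) (Q0 Q1 A s F0 F2 : ℝ) (X F : ℝ → ℝ), 1 ≤ N → 1 ≤ Q1 → 1 ≤ Q0 →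
    Q0 ≤ N → 0 ≤ A → 0 ≤ s → s ≤ 1 → Continuous X → Continuous F → (∀ x, 0 ≤ X x) →
    (∀ x, X (x + 1) = X x) → (∀ x, 0 ≤ F x ∧ F x ≤ F0) → (∫ x in (0 : ℝ)..1, F x ^ 2) ≤ F2 →
    (∀ (q0 : ℕ) (η : ℝ), 1 ≤ q0 → q0 ≤ Q0 → |η| * (q0 * Q0) ≤ 1 →
      ∑ q ∈ Ico q0 (2 * q0), ∑ r ∈ un q, X (r / q + η) ≤
        A / Om N η * (s + 1 / (q0 * Om N η))) →
    (∫ x in (0 : ℝ)..1, F x * Real.sqrt (X x)) ≤ C * LL N * Real.sqrt (A / N) *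
      (F0 * Real.sqrt (Q1 ^ 3 / N) + Real.sqrt (F2 * (s + 1 / Q1)))

/-- pairs of points with a given difference -/
noncomputable def Pb (R : ℕ) (f : ℤ → ℂ) (t : ℤ) (b : V) : ℂ :=
  ∑ a ∈ (bx R).filter (fun a => dot a b = 0), f (Q2 (a + t • b)) * conj (f (Q2 (a - t • b)))

/-- the counting form -/
noncomputable def BB (N : ℕ) (γ f : ℤ → ℂ) : ℂ :=
  ∑ n ∈ Icc (0 : ℤ) N, γ n * ∑ v ∈ sphere n, f (Q2 v)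

/-- Cauchy-Schwarz over cells -/
def S_CELL : Prop :=
  ∀ (N R H t : ℕ) (γ f : ℤ → ℂ), 1 ≤ t → 2 * t ≤ N → 7 * N ≤ R ^ 2 → R ≤ t * H →
    (∀ n, ‖γ n‖ ≤ 1) → (∀ m, f m ≠ 0 → m ≤ 7 * N) →
    ‖BB N γ f‖ ^ 2 ≤ 16 * N * (t : ℝ) ^ 3 * (∑ b ∈ bx H, Pb R f t b).re

noncomputable def Dh (N : ℕ) (g : ℤ → ℂ) (k : ℤ) (lam : ℝ) : ℂ :=
  ∑ M ∈ Icc (0 : ℤ) (7 * N), g (M + k) * conj (g (M - k)) * e (-(lam * M))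

noncomputable def FF (N T : ℕ) (g : ℤ → ℂ) (lam : ℝ) : ℝ :=
  Real.sqrt (∑ t ∈ Ioc (T : ℤ) (2 * T), ∑ τ ∈ iv (4 * N), ‖Dh N g (2 * t * τ) lam‖ ^ 2)

/-- the damped function -/
noncomputable def dmp (N : ℕ) (g : ℤ → ℂ) (m : ℤ) : ℂ := (Real.exp (-(π * m / N)) : ℝ) * g m

/-- Parseval -/
def S_PARS : Prop :=
  ∃ C : ℝ, 0 < C ∧ ∀ (N R T : ℕ) (B : Finset V) (g : ℤ → ℂ), 1 ≤ N → 1 ≤ T → 7 * N ≤ R ^ 2 →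
    (∀ m, g m ≠ 0 → 0 ≤ m ∧ m ≤ 7 * N) →
    ‖∑ t ∈ Ioc (T : ℤ) (2 * T), ∑ b ∈ B, Pb R (dmp N g) t b‖ ≤
      C * ∫ x in (0 : ℝ)..1, FF N T g x * Real.sqrt (Xi N T B x)

def S_FB : Prop :=
  ∀ ε : ℝ, 0 < ε → ∃ C : ℝ, 0 < C ∧ ∀ (N T : ℕ) (g : ℤ → ℂ) (S E B : ℝ), 1 ≤ T → T ≤ N →
    (∀ m, g m ≠ 0 → 0 ≤ m ∧ m ≤ 7 * N) → (∀ m, ‖g m‖ ≤ B) →
    ∑ m ∈ Icc (0 : ℤ) (7 * N), ‖g m‖ ^ 2 ≤ E →
    (∀ β : ℝ, ‖∑ m ∈ Icc (0 : ℤ) (7 * N), g m * e (β * m)‖ ≤ S) →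
    Continuous (FF N T g) ∧ (∀ x, FF N T g x ^ 2 ≤ C * (N : ℝ) ^ ε * (S ^ 2 * E) + T * E ^ 2) ∧
    (∫ x in (0 : ℝ)..1, FF N T g x ^ 2) ≤ C * (N : ℝ) ^ ε * E ^ 2 + T * B ^ 2 * E

/-- the main theorem on the counting form -/
def S_OP : Prop :=
  ∀ c1 : ℝ, 0 < c1 → c1 ≤ 1 / 10 → ∃ c2 : ℝ, 0 < c2 ∧ ∃ C : ℝ, 0 < C ∧
    ∀ (N : ℕ) (γ g : ℤ → ℂ), 1 ≤ N → (∀ n, ‖γ n‖ ≤ 1) → (∀ m, g m ≠ 0 → 0 ≤ m ∧ m ≤ 7 * N) →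
    (∀ m, ‖g m‖ ≤ (N : ℝ) ^ (1 / 250 : ℝ)) →
    ∑ m ∈ Icc (0 : ℤ) (7 * N), ‖g m‖ ^ 2 ≤ (N : ℝ) ^ (1 + c2) →
    (∀ β : ℝ, ‖∑ m ∈ Icc (0 : ℤ) (7 * N), g m * e (β * m)‖ ≤ (N : ℝ) ^ (1 - c1)) →
    ‖BB N γ (dmp N g)‖ ≤ C * (N : ℝ) ^ (2 - c2)

/-- from the discrete Fourier transform to real frequencies -/
def S_FOU : Prop :=
  ∃ C : ℝ, 0 < C ∧ ∀ (N M : ℕ) [NeZero M] (f : ZMod M → ℂ) (S β : ℝ), 1 ≤ N → N ≤ M →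
    M ≤ 40 * N → (∀ r, ‖ZMod.dft f r‖ ≤ S) →
    ‖∑ m ∈ Icc (0 : ℤ) (7 * N), (Real.exp (π * m / N) : ℝ) * f m * e (β * m)‖ ≤ C * LL N * S

def S_U3 : Prop :=
  ∀ c1 : ℝ, 0 < c1 → c1 ≤ 1 / 10 → ∃ c2 : ℝ, 0 < c2 ∧ ∃ C : ℝ, 0 < C ∧
    ∀ (N M : ℕ) [NeZero M] (γ : ℤ → ℂ) (f : ZMod M → ℂ), 1 ≤ N → 20 * N < M → M ≤ 40 * N →
    (∀ n, ‖γ n‖ ≤ 1) → (∀ n, γ n ≠ 0 → n ≤ N) → (∀ g, ‖f g‖ ≤ (N : ℝ) ^ (1 / 250 : ℝ)) →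
    ∑ g, ‖f g‖ ^ 2 ≤ (N : ℝ) ^ (1 + c2) → (∀ r, ‖ZMod.dft f r‖ ≤ (N : ℝ) ^ (1 - c1)) →
    ‖TT N 1 γ (fun _ => 1) (fun m => f m)‖ ≤ C * (N : ℝ) ^ (2 - c2)

/-- transference with a power saving -/
def S_TR3 : Prop :=
  ∃ c2 : ℝ, 0 < c2 ∧ ∃ C : ℝ, 0 < C ∧ ∀ (N : ℕ) (y1 E2 S : ℝ) (γ : ℤ → ℂ) (f : ℕ → ℂ), 1 ≤ N →
    1 ≤ y1 → 0 ≤ S → (∀ n, ‖γ n‖ ≤ 1) → (∀ n, γ n ≠ 0 → 3 ≤ n ∧ n ≤ N) →
    ∑ m ∈ Icc 3 (7 * N), ‖f m‖ ^ 2 ≤ E2 →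
    (∀ (q X : ℕ) (b : ℤ), 1 ≤ q → (q : ℝ) ≤ y1 → X ≤ 7 * N →
      ‖∑ m ∈ (Icc 3 X).filter (fun m : ℕ => (q : ℤ) ∣ m - b), f m‖ ≤ S) →
    ‖TT N 1 γ (fun _ => 1) (fun m => f m.toNat)‖ ≤ C * (N : ℝ) ^ 2 *
      (Real.sqrt (E2 / N) * ((N : ℝ) ^ (-c2) + y1 ^ (-(1 / 16) : ℝ)) + y1 ^ 5 * S / N)

end Pool.Agent.P.MP_0ad054_nt.PS
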