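import Pool.Agent.P.MP_0ad054_nt.PS.St

/-! Dense sets of primes are hit outside a set with a power saving: definitions and the statements
of the parts of the proof. -/

namespace Pool.Agent.P.MP_0ad054_nt.PS

open Finset Pool.Agent.Lib.H9 Pool.Agent.P.MP_0ad054_nt.Sun Pool.Agent.P.MP_0ad054_nt.Sun.SphereP
  Pool.Agent.P.MP_0ad054_nt.Clu

/-! ### the kernel -/

/-- the sum of the primitive characters modulo a prime power -/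
noncomputable def cq (p k : ℕ) (d : ℤ) : ℝ := ph (p ^ k) d - ph (p ^ (k - 1)) d

noncomputable def cr (q : ℕ) (d : ℤ) : ℝ := ∏ p ∈ q.primeFactors, cq p (q.factorization p) d

noncomputable def KY (Y : ℕ) (d : ℤ) : ℝ := ∑ q ∈ Icc 1 Y, cr q d

/-- the model of the set `S` -/
noncomputable def gY (Y r : ℕ) (S : Finset ℕ) (m : ℤ) : ℝ :=
  ∑ t ∈ S, om r (m - t) * KY Y (m - t)

/-- products of periodic functions on an interval -/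
def S_PerV : Prop :=
  ∀ (T : Finset ℕ) (e : ℕ → ℕ) (F : ℕ → ℤ → ℝ) (B : ℕ → ℝ) (a b : ℤ), (∀ p ∈ T, p.Prime) →
    (∀ p ∈ T, ∀ d d' : ℤ, (p : ℤ) ^ e p ∣ d - d' → F p d = F p d') →
    (∀ p ∈ T, ∀ d, |F p d| ≤ B p) →
    |∑ d ∈ Ico a b, ∏ p ∈ T, F p d - ((Ico a b).card : ℝ) *
        ∏ p ∈ T, ((∑ d ∈ Ico (0 : ℤ) ((p : ℤ) ^ e p), F p d) / (p : ℝ) ^ e p)| ≤
      2 * (∏ p ∈ T, (p : ℝ) ^ e p) * ∏ p ∈ T, B p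

def S_APV : Prop :=
  ∀ (Y r q X : ℕ) (S : Finset ℕ) (b : ℤ), 1 ≤ r → 1 ≤ q → q ≤ Y →
    |∑ m ∈ (Icc 3 X).filter (fun m : ℕ => (q : ℤ) ∣ m - b),
      ((if m ∈ S then (1 : ℝ) else 0) - gY Y r S m)| ≤
      4 * r + 4 + S.card * (2 * (Y : ℝ) ^ 4) / r

def S_L2V : Prop :=
  ∀ (Y r N : ℕ) (S : Finset ℕ), 1 ≤ Y → Y ^ 6 ≤ r →
    ∑ m ∈ Icc 3 (7 * N), gY Y r S (m : ℕ) ^ 2 ≤ 5 * (7 * N + r)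

/-! ### local densities -/

/-- the density of a class modulo `p ^ k` on the sphere modulo `p ^ e` -/
noncomputable def rk (p e k : ℕ) (c t : ℤ) : ℝ :=
  (p : ℝ) ^ k * ((P0 p e c).filter (fun v => (p : ℤ) ^ k ∣ Q2 v - t)).card / (P0 p e c).card

noncomputable def xx (p k : ℕ) (c t : ℤ) : ℝ := rk p (max k 2) k c t - rk p (max k 2) (k - 1) c t

open Classical in
noncomputable def XX (p k : ℕ) (t : ℤ) (v : V) : ℝ :=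
  if pr p v then xx p k (nsq v) t else if k = 1 then -1 else 0

noncomputable def A0 (q : ℕ) (c t : ℤ) : ℝ := ∏ p ∈ q.primeFactors, xx p (q.factorization p) c t

noncomputable def AV (q : ℕ) (t : ℤ) (v : V) : ℝ :=
  ∏ p ∈ q.primeFactors, XX p (q.factorization p) t v

/-- the level -/
def lv (q : ℕ) : ℕ := ∏ p ∈ q.primeFactors, p ^ max (q.factorization p) 2

/-- the mean square of a local factor -/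
noncomputable def uu (p k : ℕ) (c : ℤ) : ℝ :=
  (∑ t ∈ Ico (0 : ℤ) ((p : ℤ) ^ k), xx p k c t ^ 2) / (p : ℝ) ^ k

noncomputable def U0 (q : ℕ) (c : ℤ) : ℝ := ∏ p ∈ q.primeFactors, uu p (q.factorization p) c

/-- the moduli of the truncated product -/
def old (l q : ℕ) : Prop :=
  (∀ p ∈ q.primeFactors, p ≤ 2 ^ l ∧ q.factorization p ≤ l) ∧ q.primeFactors.card ≤ l ^ 2

/-- elementary properties of the local factors -/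
def S_XX : Prop :=
  ∀ (p k : ℕ) (c : ℤ), p.Prime → 1 ≤ k →
    (∀ t, |xx p k c t| ≤ (p : ℝ) ^ k) ∧ (∀ d, |cq p k d| ≤ (p : ℝ) ^ k) ∧
    (∀ t t' : ℤ, (p : ℤ) ^ k ∣ t - t' → xx p k c t = xx p k c t') ∧
    ∀ (e : ℕ) (h : ℤ → ℝ), k ≤ e → (∀ t t' : ℤ, (p : ℤ) ^ (k - 1) ∣ t - t' → h t = h t') →
      ∑ t ∈ Ico (0 : ℤ) ((p : ℤ) ^ e), xx p k c t * h t = 0

def S_ProdV : Prop :=
  ∀ (q : ℕ) (t : ℤ), 1 ≤ q → IsCoprime t q → lv q ≠ 0 ∧ lv q ≤ q ^ 2 ∧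
    (∀ v, |cr q (Q2 v - t) - AV q t v| ≤ 2 * q) ∧
    Per (lv q) (fun v => ((cr q (Q2 v - t) - AV q t v : ℝ) : ℂ)) ∧
    Cusp (lv q) (fun v => ((cr q (Q2 v - t) - AV q t v : ℝ) : ℂ))

/-- lifting points of the sphere -/
def S_Hen : Prop :=
  ∀ (p e : ℕ) (c : ℤ), p.Prime → 2 ≤ e → (P0 p (e + 1) c).card = p ^ 3 * (P0 p e c).card ∧
    ∀ (k : ℕ) (t : ℤ), k ≤ e → rk p (e + 1) k c t = rk p e k c t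

/-- the sphere modulo a prime power is empty or large -/
def S_P0 : Prop :=
  ∃ c0 : ℝ, 0 < c0 ∧ ∀ (p e : ℕ) (c : ℤ), p.Prime → 2 ≤ e → (P0 p e c).Nonempty →
    c0 * (p : ℝ) ^ (3 * e) ≤ (P0 p e c).card

/-- three coordinates are divisible by `p ^ m` -/
def sg (p m : ℕ) (v : V) : Prop := ∃ j, ∀ i, i ≠ j → (p : ℤ) ^ m ∣ v i

open Classical in
/-- only the singular points distinguish the lifts of a class -/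
def S_Inv : Prop :=
  ∀ (p k m : ℕ) (c t t' : ℤ), p.Prime → 2 ≤ k →
    (if p ≤ 3 then 2 * m + 8 ≤ k else 2 * m ≤ k) → (p : ℤ) ^ (k - 1) ∣ t - t' →
    ((P0 p k c).filter (fun v => ¬ sg p m v ∧ (p : ℤ) ^ k ∣ Q2 v - t)).card =
      ((P0 p k c).filter (fun v => ¬ sg p m v ∧ (p : ℤ) ^ k ∣ Q2 v - t')).card

open Classical in
def S_Sg : Prop :=
  ∀ (p k m : ℕ) (c : ℤ), p.Prime → 1 ≤ m → m ≤ k →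
    ((P0 p k c).filter (sg p m)).card ≤ 8 * p ^ (3 * (k - m))

def S_Dec : Prop :=
  ∃ C : ℝ, 0 < C ∧ ∀ (p k : ℕ) (c : ℤ), p.Prime → 2 ≤ k → uu p k c ≤ C / (p : ℝ) ^ k

def S_U1 : Prop :=
  ∃ C : ℝ, 0 < C ∧ ∀ (p : ℕ) (c : ℤ), p.Prime →
    uu p 1 c ≤ C / (p : ℝ) ^ 2 + if (p : ℤ) ∣ c then C / p else 0

open Classical in
def S_Tail : Prop :=
  ∃ (C : ℝ) (j : ℕ), 0 < C ∧ ∀ N l Y n : ℕ, 4 ≤ l → 1 ≤ n → n ≤ N → LL N ≤ 2 ^ l →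
    ∑ q ∈ (Icc 1 Y).filter (fun q => ¬ old l q), U0 q n ≤ C * (l : ℝ) ^ j * LL N / 2 ^ l

/-- orthogonality in a window -/
def S_Orth : Prop :=
  ∀ (Y r : ℕ) (Q S : Finset ℕ) (μ : ℕ → ℝ) (M : ℝ) (c m : ℤ), 1 ≤ r → Q ⊆ Icc 1 Y →
    (∀ q, |μ q| ≤ M) →
    ∑ t ∈ S, om r (m - t) * |∑ q ∈ Q, μ q * A0 q c t| ≤
      M * Real.sqrt (2 * ∑ q ∈ Q, U0 q c + 2 * (Y : ℝ) ^ 6 / r)

open Classical in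
def S_Old : Prop :=
  ∀ (l Y : ℕ) (x : ℕ → ℕ → ℝ), (2 ^ l) ^ (l * l ^ 2) ≤ Y →
    ∑ q ∈ (Icc 1 Y).filter (old l), ∏ p ∈ q.primeFactors, x p (q.factorization p) =
      ∑ T ∈ sub (2 ^ l) (l ^ 2), ∏ p ∈ T, ∑ j ∈ Icc 1 l, x p j

open Classical in
/-- the truncated product and the rest -/
def S_Split : Prop :=
  ∀ (l Y : ℕ) (v : V), 2 ≤ l → v ≠ 0 → cont v * (2 ^ l) ^ (l * l ^ 2) ≤ Y →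
    ∃ μ : ℕ → ℝ, (∀ q, |μ q| ≤ cont v) ∧ ∀ t : ℤ, ∑ q ∈ Icc 1 Y, AV q t v =
      (if cont v = 1 then ∑ T ∈ sub (2 ^ l) (l ^ 2), ∏ p ∈ T, aa p l t v else 0) +
        ∑ q ∈ (Icc 1 Y).filter (fun q => ¬ old l q), μ q * A0 q (nsq v) t

def S_R2 : Prop :=
  ∀ (g : ℕ) (S : Finset (ℤ × ℤ)), 0 < g → (∀ ξ ∈ S, ξ.1 ^ 2 + ξ.2 ^ 2 = g) →
    (S.card : ℝ) ≤ 4 * tau g ^ 2

def S_R4 : Prop :=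
  ∃ (C : ℝ) (k : ℕ), 0 < C ∧ ∀ N n : ℕ, 1 ≤ n → n ≤ N →
    ∑ v ∈ sphere n, (cont v : ℝ) ≤ C * n * LL N ^ k

/-- the truncated product is bounded below at primitive points -/
def S_LowP : Prop :=
  ∃ (W : ℕ) (c : ℝ) (κ l0 : ℕ), 0 < W ∧ 2 ∣ W ∧ 0 < c ∧ ∀ n0 : ℤ, Odd n0 →
    ∃ a : ℤ, IsCoprime (a * (a - 2)) W ∧ ∀ (l n t : ℕ) (v : V), l0 ≤ l →
      (W : ℤ) ∣ n - n0 → (W : ℤ) ∣ t - a → t.Prime → 2 ^ l < t → nsq v = n → cont v = 1 →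
      c / (l : ℝ) ^ κ - 1 / (2 ^ l) ^ 2 ≤ ∑ T ∈ sub (2 ^ l) (l ^ 2), ∏ p ∈ T, aa p l t v

/-- the model is small on the spheres that miss `S` -/
def S_Mod : Prop :=
  ∃ η0 : ℝ, 0 < η0 ∧ ∀ η : ℝ, 0 < η → η ≤ η0 → ∃ C : ℝ, 0 < C ∧ ∀ (N Y r : ℕ) (S E : Finset ℕ),
    1 ≤ N → (N : ℝ) ^ η ≤ 2 * Y → (Y : ℝ) ≤ (N : ℝ) ^ η →
    (N : ℝ) ^ (1 - 1 / 20000 : ℝ) ≤ 2 * r → (r : ℝ) ≤ (N : ℝ) ^ (1 - 1 / 20000 : ℝ) →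
    (∀ t ∈ S, t ≤ 9 * N) → (∀ n ∈ E, 3 ≤ n ∧ n ≤ N ∧ ¬ RepS S n) →
    ∑ n ∈ E, ∑ v ∈ sphere n, gY Y r S (Q2 v) ≤ C * (N : ℝ) ^ (2 - η / 16)

/-- the kernel is replaced by its means on spheres -/
def S_Rep : Prop :=
  ∃ C : ℝ, 0 < C ∧ ∀ (N Y r : ℕ) (S E : Finset ℕ), 1 ≤ N →
    (Y : ℝ) ≤ (N : ℝ) ^ (1 / 20000 : ℝ) → (N : ℝ) ^ (1 - 1 / 20000 : ℝ) ≤ 2 * r → r ≤ N →
    (∀ t ∈ S, t.Prime ∧ Y < t ∧ t ≤ 9 * N) → (∀ n ∈ E, n ≤ N) →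
    |∑ n ∈ E, ∑ v ∈ sphere n, gY Y r S (Q2 v) -
      ∑ n ∈ E, ∑ v ∈ sphere n, ∑ t ∈ S, om r (Q2 v - t) * ∑ q ∈ Icc 1 Y, AV q t v| ≤
      C * (N : ℝ) ^ (2 - 1 / 100 : ℝ)

/-- the engine -/
def S_CoreP : Prop :=
  ∃ (W : ℕ) (cl : ℤ → ℤ) (δ : ℝ), 0 < W ∧ 2 ∣ W ∧ 0 < δ ∧ δ ≤ 1 / 20000 ∧
    (∀ n0, Odd n0 → IsCoprime (cl n0 * (cl n0 - 2)) W) ∧
    ∀ j : ℕ, ∃ (C : ℝ) (N0 : ℕ), 0 < C ∧ ∀ (N r : ℕ) (n0 : ℤ) (S E : Finset ℕ), N0 ≤ N → Odd n0 →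
      (N : ℝ) ^ (1 - 1 / 20000 : ℝ) ≤ 2 * r → (r : ℝ) ≤ (N : ℝ) ^ (1 - 1 / 20000 : ℝ) →
      (∀ t ∈ S, t.Prime ∧ N ≤ t ∧ t ≤ 9 * N ∧ (W : ℤ) ∣ t - cl n0) →
      (∀ n ∈ E, 3 ≤ n ∧ n ≤ N ∧ (W : ℤ) ∣ n - n0 ∧ (∀ d : ℕ, (N : ℝ) ^ δ < d → ¬ d ^ 2 ∣ n) ∧
        ¬ RepS S n) →
      ∑ n ∈ E, ∑ v ∈ psphere n, ∑ t ∈ S, om r (Q2 v - t) ≤
        C * ((N : ℝ) ^ (2 - δ) + E.card * N / LL N ^ j)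

/-- every dense set of primes in the right class is hit outside a set with a power saving -/
def S_TP : Prop :=
  ∃ (W : ℕ) (cl : ℤ → ℤ) (δ : ℝ), 0 < W ∧ 2 ∣ W ∧ 0 < δ ∧
    (∀ n0, Odd n0 → IsCoprime (cl n0 * (cl n0 - 2)) W) ∧
    ∀ k0 : ℕ, ∃ (C : ℝ) (N0 : ℕ), 0 < C ∧ ∀ N : ℕ, N0 ≤ N → ∀ (n0 : ℤ) (S E : Finset ℕ),
    Odd n0 → (∀ t ∈ S, t.Prime ∧ 2 * N ≤ t ∧ t ≤ 3 * N ∧ (W : ℤ) ∣ t - cl n0) →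
    N / LL N ^ k0 ≤ S.card →
    (∀ n ∈ E, N ≤ 2 * n ∧ n ≤ N ∧ (W : ℤ) ∣ n - n0 ∧ ¬ RepS S n) →
    (E.card : ℝ) ≤ C * (N : ℝ) ^ (1 - δ)

/-! ### the final steps -/

/-- the model of Chen's weights has a large sum in a class -/
def S_Md0 : Prop :=
  ∀ W : ℕ, 0 < W → 2 ∣ W → ∃ (c : ℝ) (j : ℕ), 0 < c ∧ ∀ (N l k : ℕ) (a : ℤ), 1 ≤ l →
    IsCoprime (a * (a - 2)) W →
    c * N / (l : ℝ) ^ j - 2 * W * ((2 : ℝ) ^ l) ^ (4 * k + 2) ≤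
      ∑ m ∈ (Ioc (2 * N) (3 * N)).filter (fun m : ℕ => (W : ℤ) ∣ m - a), Chen.md0 (2 ^ l) k m

open Classical in
/-- primes `p` of the range and the class such that `p - 2` has at most two prime factors -/
noncomputable def chen (W N : ℕ) (a : ℤ) : Finset ℕ :=
  (Icc (2 * N) (3 * N)).filter (fun p => p.Prime ∧ (W : ℤ) ∣ p - a ∧
    (p - 2).primeFactorsList.length ≤ 2 ∧ ∀ q ∈ (p - 2).primeFactors, Chen.zz N < q)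

def S_Cnt : Prop :=
  ∀ W : ℕ, 0 < W → 2 ∣ W → ∃ k N0 : ℕ, ∀ (N : ℕ) (a : ℤ), N0 ≤ N → IsCoprime (a * (a - 2)) W →
    N / LL N ^ k ≤ (chen W N a).card

/-- from dyadic blocks and classes to all odd numbers -/
def S_Dy : Prop :=
  ∀ (W N0 : ℕ) (C δ : ℝ) (P : ℕ → Prop), 0 < W → 2 ∣ W → 0 < C → 0 < δ →
    (∀ N : ℕ, N0 ≤ N → ∀ (n0 : ℤ) (E : Finset ℕ), Odd n0 →
      (∀ n ∈ E, N ≤ 2 * n ∧ n ≤ N ∧ (W : ℤ) ∣ n - n0 ∧ P n) →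
      (E.card : ℝ) ≤ C * (N : ℝ) ^ (1 - δ)) →
    ∃ C' : ℝ, ∀ N : ℕ, 1 ≤ N →
      (({n : ℕ | n ≤ N ∧ Odd n ∧ P n}.ncard : ℕ) : ℝ) ≤ C' * (N : ℝ) ^ (1 - δ / (1 + δ))

def S_ChenP : Prop :=
  ∃ δ : ℝ, 0 < δ ∧ ∃ C : ℝ, ∀ N : ℕ, 1 ≤ N →
    (({n : ℕ | n ≤ N ∧ Odd n ∧ ¬ ∃ x y z w : ℤ, ∃ p : ℕ,
      x ^ 2 + y ^ 2 + z ^ 2 + w ^ 2 = (n : ℤ) ∧
      (p : ℤ) = x ^ 2 + 3 * y ^ 2 + 5 * z ^ 2 + 7 * w ^ 2 ∧ p.Prime ∧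
      (p - 2).primeFactorsList.length ≤ 2 ∧
      ∀ q : ℕ, q.Prime → q ∣ p - 2 → (n : ℝ) ^ (1 / 9 : ℝ) ≤ q}.ncard : ℕ) : ℝ) ≤
      C * (N : ℝ) ^ (1 - δ)

def S_TupP : Prop :=
  ∃ δ : ℝ, 0 < δ ∧ ∀ m : ℕ, ∃ k : ℕ, ∀ H : Finset ℕ, k ≤ H.card →
    (∀ q : ℕ, q.Prime → ∃ t : ℕ, ∀ h ∈ H, ¬ q ∣ t + h) → ∃ C : ℝ, ∀ N : ℕ, 1 ≤ N →
    (({n : ℕ | n ≤ N ∧ Odd n ∧ ¬ ∃ x y z w : ℤ, ∃ p : ℕ,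
      x ^ 2 + y ^ 2 + z ^ 2 + w ^ 2 = (n : ℤ) ∧
      (p : ℤ) = x ^ 2 + 3 * y ^ 2 + 5 * z ^ 2 + 7 * w ^ 2 ∧
      ∃ u : ℕ, ∃ h ∈ H, p = u + h ∧ p.Prime ∧
        m ≤ (H.filter fun g => g < h ∧ (u + g).Prime).card}.ncard : ℕ) : ℝ) ≤
      C * (N : ℝ) ^ (1 - δ)

def S_GapP : Prop :=
  ∃ δ : ℝ, 0 < δ ∧ ∀ ε : ℝ, 0 < ε → ∃ k : ℕ, ∀ H : Finset ℕ, k ≤ H.card →
    (∀ p : ℕ, p.Prime → ∃ t : ℕ, ∀ h ∈ H, ¬ p ∣ t + h) → ∃ C : ℝ, ∀ N : ℕ, 1 ≤ N →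
    ∃ a ∈ H, ∃ b ∈ H, a < b ∧
      (Set.ncard {n : ℕ | ε * N ≤ n ∧ n ≤ N ∧ Odd n ∧ ¬ ∃ x y z w : ℤ, ∃ p : ℕ,
        x ^ 2 + y ^ 2 + z ^ 2 + w ^ 2 = (n : ℤ) ∧
        (p : ℤ) = x ^ 2 + 3 * y ^ 2 + 5 * z ^ 2 + 7 * w ^ 2 ∧ p.Prime ∧
        (p - (b - a)).Prime} : ℝ) ≤ C * (N : ℝ) ^ (1 - δ)

end Pool.Agent.P.MP_0ad054_nt.PS
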