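import Pool.Agent.P.MP_0ad054_nt.PS.St

/-! The theta series in the dilation variable, dual form. -/

namespace Pool.Agent.P.MP_0ad054_nt.PS

open Finset Pool.Agent.Lib.H9 Pool.Agent.P.MP_0ad054_nt.Sun Pool.Agent.P.MP_0ad054_nt.Sun.SphereP
  Pool.Agent.P.MP_0ad054_nt.Clu
open scoped Real ComplexConjugate

namespace TBP

theorem gs (hP1 : S_P1) (hVT : S_VT) {ρ : ℝ} (h : 0 < ρ) :
    Summable (fun n : ℤ => Real.exp (-(π * n ^ 2 / ρ ^ 2))) ∧
      ∑' n : ℤ, Real.exp (-(π * n ^ 2 / ρ ^ 2)) ≤ 1 + ρ := by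
  constructor
  · refine (hP1 1 (fun _ => 1) ((1 / ρ ^ 2 : ℝ) : ℂ) 0 le_rfl
      (by rw [Complex.ofReal_re]; positivity) fun _ _ _ => rfl).1.congr fun n => ?_
    rw [norm_mul, norm_e, mul_one, one_mul, Complex.norm_exp,
      show -((π : ℂ) * ((1 / ρ ^ 2 : ℝ) : ℂ) * (n : ℂ) ^ 2) = ((-(π * n ^ 2 / ρ ^ 2) : ℝ) : ℂ) by
        push_cast; ring, Complex.ofReal_re]
  · simpa [vth] using ((hVT ρ h).2.1 0).2

/-- the real part of the exponent -/
noncomputable def uu (N T : ℕ) (b b' : V) : ℝ := 1 / T ^ 2 + 2 * (Q2 b + Q2 b') / N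

theorem term (N T : ℕ) (b b' : V) (lam : ℝ) (t : ℤ) :
    ((Real.exp (-(π * t ^ 2 / T ^ 2)) : ℝ) : ℂ) *
      (EE N lam (t ^ 2 * Q2 b) * conj (EE N lam (t ^ 2 * Q2 b'))) =
      e (lam * ka b b' * t ^ 2) * (Real.exp (-(π * uu N T b b' * t ^ 2)) : ℝ) := by
  unfold EE
  rw [map_mul, conj_e, Complex.conj_ofReal]
  simp only [e, Complex.ofReal_exp, ← Complex.exp_add]
  congr 1
  unfold ka uu
  push_cast
  ring

theorem Q2_bd {H : ℕ} {b : V} (h : b ∈ bx H) : (0 : ℝ) ≤ Q2 b ∧ (Q2 b : ℝ) ≤ 16 * H ^ 2 := by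
  have k : ∀ j, (b j : ℝ) ^ 2 ≤ H ^ 2 := fun j => by
    have := mem_Icc.1 (Fintype.mem_piFinset.1 h j)
    exact sq_le_sq' (by exact_mod_cast this.1) (by exact_mod_cast this.2)
  unfold Q2
  push_cast
  exact ⟨by positivity, by linarith [k 0, k 1, k 2, k 3]⟩

theorem norm_G1 (q : ℕ) (a s : ℤ) : ‖G1 q a s‖ ≤ q := by
  refine (norm_sum_le_of_le (n := fun _ => 1) _ fun t _ => (norm_e _).le).trans ?_
  simp

theorem tail : ∃ D : ℝ, 0 < D ∧ ∀ N ρ : ℝ, 0 < N → 0 < ρ → ρ ^ 4 ≤ 161 ^ 4 * N ^ 3 →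
    Real.exp (-(N ^ 2 / ρ ^ 2)) ≤ D / N ^ 52 := by
  obtain ⟨F, F0, hF⟩ : ∃ F : ℝ, 0 < F ∧ ∀ y : ℝ, 0 ≤ y → y ^ 104 / F ≤ Real.exp y :=
    ⟨_, Nat.cast_pos.2 (Nat.factorial_pos 104), fun y hy => Real.pow_div_factorial_le_exp y hy 104⟩
  obtain ⟨K, hK⟩ : ∃ K : ℝ, K = 161 ^ 4 := ⟨_, rfl⟩
  have K0 : 0 < K := by rw [hK]; positivity
  rw [← hK]
  refine ⟨F * K ^ 52, by positivity, fun N ρ hN h0 h => ?_⟩
  have h1 : N / K ≤ (N ^ 2 / ρ ^ 2) ^ 2 := by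
    rw [div_pow, div_le_div_iff₀ K0 (by positivity)]
    nlinarith
  have h2 : (N / K) ^ 52 / F ≤ Real.exp (N ^ 2 / ρ ^ 2) := by
    refine le_trans ?_ (hF _ (by positivity))
    rw [show 104 = 2 * 52 by norm_num, pow_mul]
    gcongr
  rw [Real.exp_neg]
  refine (inv_anti₀ (by positivity) h2).trans (le_of_eq ?_)
  rw [div_pow]
  field_simp

/-- the dual form for one modulus -/
theorem dual (hP1 : S_P1) (hVT : S_VT) {A : ℂ} {ρ δ : ℝ} {N q : ℕ} (κ : ℤ) (hA : 0 < A.re)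
    (hρ : 0 < ρ) (hq : 1 ≤ q) (h1 : (q : ℝ) ^ 2 * ‖A‖ ^ 2 ≤ ρ ^ 2 * A.re)
    (hδ : Real.exp (-(N ^ 2 / ρ ^ 2)) ≤ δ) (S : Finset ℤ) (c : ℤ → ℂ) :
    ‖∑ r ∈ S, c r * ∑' t : ℤ, ex q (r * κ * t ^ 2) * Complex.exp (-(π * A * t ^ 2)) *
        e ((0 : ℝ) * t)‖ ≤
      1 / q * ∑ s ∈ iv N, (√‖A‖)⁻¹ * Real.exp (-(π * s ^ 2 / ρ ^ 2)) *
        ‖∑ r ∈ S, c r * G1 q (r * κ) s‖ + (√‖A‖)⁻¹ * (1 + 2 * ρ) * δ * ∑ r ∈ S, ‖c r‖ := by
  have q0 : (0 : ℝ) < q := by exact_mod_cast hq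
  have a0 : 0 < ‖A‖ := hA.trans_le (Complex.re_le_norm A)
  have δ0 : 0 ≤ δ := (Real.exp_pos _).le.trans hδ
  set E : ℤ → ℂ := fun k => Complex.exp (-(π * ((k : ℂ) / q - (0 : ℝ)) ^ 2 / A)) with hE
  have P := fun r : ℤ => hP1 q (fun t => ex q (r * κ * t ^ 2)) A 0 hq hA fun x y ⟨z, hz⟩ => by
    rw [ex, ex, ← e_add_int _ (-(r * κ * z * (x + y)))]
    congr 1
    have : (x : ℝ) = y + q * z := by exact_mod_cast (by linarith : x = y + q * z)
    push_cast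
    rw [this]
    field_simp
    ring
  have g : ∀ r k : ℤ, ∑ x ∈ Ico (0 : ℤ) q, ex q (r * κ * x ^ 2) * ex q (k * x) =
      G1 q (r * κ) k := fun r k => sum_congr rfl fun x _ => by
    rw [ex, ex, ex, ← e_add]
    congr 1
    push_cast
    ring
  have nE : ∀ k, ‖E k‖ ≤ Real.exp (-(π * k ^ 2 / ρ ^ 2)) := fun k => by
    rw [hE, Complex.norm_exp, show -((π : ℂ) * ((k : ℂ) / q - (0 : ℝ)) ^ 2 / A) =
      ((-(π * k ^ 2 / q ^ 2) : ℝ) : ℂ) * A⁻¹ by push_cast; ring, Complex.re_ofReal_mul,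
      Complex.inv_re, Complex.normSq_eq_norm_sq, Real.exp_le_exp, neg_mul, neg_le_neg_iff,
      div_mul_div_comm, div_le_div_iff₀ (by positivity) (by positivity)]
    nlinarith [mul_le_mul_of_nonneg_left h1 (show 0 ≤ π * (k : ℝ) ^ 2 by positivity)]
  have sE : Summable fun k => (q : ℝ) * ‖E k‖ := (P 0).2.1.mul_left _
  have sG : ∀ r : ℤ, Summable fun k => G1 q (r * κ) k * E k := fun r =>
    Summable.of_norm_bounded sE fun k => by
      rw [norm_mul]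
      exact mul_le_mul_of_nonneg_right (norm_G1 _ _ _) (norm_nonneg _)
  have H1 : HasSum (fun k => ∑ r ∈ S, c r * (G1 q (r * κ) k * E k))
      (∑ r ∈ S, c r * ∑' k, G1 q (r * κ) k * E k) :=
    hasSum_sum fun r _ => (sG r).hasSum.mul_left _
  obtain ⟨s1, s2⟩ := gs hP1 hVT (show 0 < 2 * ρ by positivity)
  have H2 := H1.norm_le_of_bounded ((hasSum_sum_of_ne_finset_zero (s := iv N)
    (f := fun k => if k ∈ iv N then Real.exp (-(π * k ^ 2 / ρ ^ 2)) *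
      ‖∑ r ∈ S, c r * G1 q (r * κ) k‖ else 0) fun k hk => if_neg hk).add
        (s1.hasSum.mul_left (q * (∑ r ∈ S, ‖c r‖) * δ))) fun k => by
    simp only [← mul_assoc]
    rw [← sum_mul, norm_mul]
    split_ifs with hk
    · rw [mul_comm]
      exact le_add_of_le_of_nonneg (mul_le_mul_of_nonneg_right (nE k) (norm_nonneg _))
        (by positivity)
    · rw [zero_add, mul_assoc _ δ]
      refine mul_le_mul ?_ ((nE k).trans (le_trans ?_
        (mul_le_mul_of_nonneg_right hδ (Real.exp_pos _).le))) (norm_nonneg _) (by positivity)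
      · rw [mul_sum]
        refine norm_sum_le_of_le _ fun r _ => ?_
        rw [norm_mul, mul_comm]
        exact mul_le_mul_of_nonneg_right (norm_G1 _ _ _) (norm_nonneg _)
      · have k1 : (N : ℝ) ^ 2 ≤ (k : ℝ) ^ 2 := by
          rw [iv, mem_Icc] at hk
          have k2 : (N : ℤ) ^ 2 ≤ |k| ^ 2 :=
            pow_le_pow_left₀ (by positivity) (le_abs.2 (by omega)) 2
          rw [sq_abs] at k2
          exact_mod_cast k2
        rw [← Real.exp_add, Real.exp_le_exp, ← neg_add, neg_le_neg_iff,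
          show (N : ℝ) ^ 2 / ρ ^ 2 + π * k ^ 2 / (2 * ρ) ^ 2 = (N ^ 2 + π * k ^ 2 / 4) / ρ ^ 2 by
            field_simp; ring]
        refine div_le_div_of_nonneg_right ?_ (by positivity)
        nlinarith [Real.pi_gt_three, sq_nonneg (k : ℝ)]
  rw [sum_congr rfl fun k hk => if_pos hk] at H2
  have nA : ‖1 / ((q : ℂ) * A ^ (1 / 2 : ℂ))‖ = 1 / q * (√‖A‖)⁻¹ := by
    rw [norm_div, norm_one, norm_mul, Complex.norm_natCast,
      show (1 / 2 : ℂ) = ((1 / 2 : ℝ) : ℂ) by push_cast; rfl, Complex.norm_cpow_real,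
      ← Real.sqrt_eq_rpow, one_div, one_div, mul_inv]
  rw [sum_congr rfl fun r _ => by rw [(P r).2.2, mul_left_comm], ← mul_sum, norm_mul, nA]
  simp only [g]
  refine (mul_le_mul_of_nonneg_left (H2.trans (add_le_add_right
    (mul_le_mul_of_nonneg_left s2 (by positivity)) _)) (by positivity)).trans (le_of_eq ?_)
  simp only [mul_assoc (√‖A‖)⁻¹]
  rw [← mul_sum]
  field_simp

end TBP

open TBP in
theorem pTB (hP1 : S_P1) (hVT : S_VT) : S_TB := by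
  obtain ⟨D, D0, hD⟩ := tail
  refine ⟨161 ^ 2 + 323 * D, by positivity, fun N T H q0 b b' η hT hN hH hq0 hO hb hb' => ?_⟩
  have T1 : (1 : ℝ) ≤ T := by exact_mod_cast hT
  have TN : (T : ℝ) ≤ N := by exact_mod_cast hN
  have Q1 : (1 : ℝ) ≤ q0 := by exact_mod_cast hq0
  have N0 : (0 : ℝ) < N := by linarith
  obtain ⟨m1, m2⟩ := Q2_bd hb
  obtain ⟨m3, m4⟩ := Q2_bd hb'
  set u := uu N T b b' with hu
  have u1 : 1 / (T : ℝ) ^ 2 ≤ u := le_add_of_nonneg_right (by positivity)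
  have u0 : 0 < u := lt_of_lt_of_le (by positivity) u1
  have u2 : (T : ℝ) ^ 2 * u ≤ 6401 := by
    have : (T : ℝ) ^ 2 * (2 * (Q2 b + Q2 b') / N) ≤ 6400 := by
      rw [← mul_div_assoc, div_le_iff₀ N0]
      nlinarith [mul_le_mul_of_nonneg_left (add_le_add m2 m4) (sq_nonneg (T : ℝ))]
    rw [hu, uu, mul_add, mul_one_div_cancel (by positivity)]
    linarith
  have u3 : (2 * (ka b b' : ℝ)) ^ 2 ≤ (u * N) ^ 2 := by
    have : 2 * ((Q2 b : ℝ) + Q2 b') ≤ u * N := by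
      rw [← div_le_iff₀ N0]
      exact le_add_of_nonneg_left (by positivity)
    unfold ka
    push_cast
    exact sq_le_sq' (by linarith) (by linarith)
  refine ⟨fun lam => ?_, ?_⟩
  · obtain ⟨s1, s2⟩ := gs hP1 hVT (show (0 : ℝ) < T by linarith)
    refine (tsum_of_norm_bounded s1.hasSum fun t => ?_).trans (s2.trans
      ((by linarith : _ ≤ 2 * (T : ℝ)).trans (mul_le_mul_of_nonneg_right (by linarith)
        (by linarith))))
    rw [term, norm_mul, norm_e, one_mul, Complex.norm_real, Real.norm_of_nonneg (Real.exp_pos _).le,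
      Real.exp_le_exp, neg_le_neg_iff, div_eq_mul_one_div, mul_right_comm]
    gcongr
  set A : ℂ := ⟨u, -(2 * η * ka b b')⟩ with hA
  set Ω := Om N η with hΩ
  have O2 : Ω ^ 2 = 1 + (N * η) ^ 2 := Real.sq_sqrt (by positivity)
  have O0 : 0 ≤ Ω := Real.sqrt_nonneg _
  have a1 : u ≤ ‖A‖ := Complex.re_le_norm A
  have a0 : 0 < ‖A‖ := u0.trans_le a1
  have a2 : ‖A‖ ≤ u * Ω := by
    refine le_of_sq_le_sq ?_ (by positivity)
    rw [← Complex.normSq_eq_norm_sq, Complex.normSq_mk, mul_pow, O2]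
    nlinarith [mul_le_mul_of_nonneg_left u3 (sq_nonneg η)]
  have a3 : (√‖A‖)⁻¹ ≤ T := by
    rw [inv_le_comm₀ (by positivity) (by positivity)]
    refine Real.le_sqrt_of_sq_le ?_
    rw [inv_pow, ← one_div]
    linarith
  set ρ := 2 * q0 * ‖A‖ / √u with hρ
  have r0 : 0 < ρ := by positivity
  have r1 : ρ ^ 2 * u = 4 * q0 ^ 2 * ‖A‖ ^ 2 := by
    rw [hρ, div_pow, Real.sq_sqrt u0.le]
    field_simp
    norm_num
  have r2 : ρ ^ 2 ≤ 4 * (q0 * Ω) ^ 2 * u := by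
    refine le_of_mul_le_mul_right ?_ u0
    rw [r1]
    calc _ ≤ 4 * (q0 : ℝ) ^ 2 * (u * Ω) ^ 2 := by gcongr
      _ = _ := by ring
  have r3 : (T : ℝ) ^ 2 * ρ ^ 2 ≤ 161 ^ 2 * (q0 * Ω) ^ 2 := by
    calc _ ≤ (T : ℝ) ^ 2 * (4 * (q0 * Ω) ^ 2 * u) := mul_le_mul_of_nonneg_left r2 (sq_nonneg _)
      _ = 4 * ((T : ℝ) ^ 2 * u) * (q0 * Ω) ^ 2 := by ring
      _ ≤ _ := mul_le_mul_of_nonneg_right (by linarith) (sq_nonneg _)
  have r4 : ρ ^ 4 ≤ 161 ^ 4 * (N : ℝ) ^ 3 := by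
    have : ρ ^ 2 ≤ 161 ^ 2 * (q0 * Ω) ^ 2 :=
      (le_mul_of_one_le_left (sq_nonneg ρ) (one_le_pow₀ T1)).trans r3
    calc ρ ^ 4 = (ρ ^ 2) ^ 2 := by ring
      _ ≤ (161 ^ 2 * (q0 * Ω) ^ 2) ^ 2 := by gcongr
      _ = 161 ^ 4 * (q0 * Ω) ^ 4 := by ring
      _ ≤ _ := by gcongr
  have r5 : ρ ≤ 161 * N := by
    refine le_of_pow_le_pow_left₀ four_ne_zero (by positivity) (r4.trans ?_)
    rw [mul_pow]
    exact mul_le_mul_of_nonneg_left (pow_le_pow_right₀ (by linarith) (by norm_num)) (by positivity)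
  refine ⟨fun s => (√‖A‖)⁻¹ * Real.exp (-(π * s ^ 2 / ρ ^ 2)), fun s => ⟨by positivity, ?_, ?_⟩,
    ?_, fun q S c h1 h2 => ?_⟩
  · exact (mul_le_of_le_one_right (by positivity)
      (Real.exp_le_one_iff.2 (neg_nonpos.2 (by positivity)))).trans a3
  · have x1 : Real.exp (-(π * s ^ 2 / ρ ^ 2)) * s ^ 2 ≤ ρ ^ 2 := by
      rw [Real.exp_neg, inv_mul_le_iff₀ (Real.exp_pos _), ← div_le_iff₀ (by positivity)]
      refine le_trans ?_ ((le_add_of_nonneg_right one_pos.le).trans (Real.add_one_le_exp _))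
      refine div_le_div_of_nonneg_right ?_ (by positivity)
      nlinarith [Real.pi_gt_three, sq_nonneg (s : ℝ)]
    calc _ = (√‖A‖)⁻¹ * (T ^ 2 * (Real.exp (-(π * s ^ 2 / ρ ^ 2)) * s ^ 2)) := by ring
      _ ≤ T * (T ^ 2 * ρ ^ 2) := by gcongr
      _ ≤ T * ((161 ^ 2 + 323 * D) * (q0 * Ω) ^ 2) := by
          refine mul_le_mul_of_nonneg_left (r3.trans ?_) (by positivity)
          gcongr
          linarith
      _ = _ := by ring
  · obtain ⟨s1, s2⟩ := gs hP1 hVT r0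
    have x1 : (√‖A‖)⁻¹ * ρ ≤ 2 * (q0 * √Ω) := by
      refine le_of_sq_le_sq (le_of_mul_le_mul_right ?_ u0) (by positivity)
      rw [mul_pow, mul_assoc, r1, inv_pow, Real.sq_sqrt a0.le, mul_pow, mul_pow, Real.sq_sqrt O0,
        inv_mul_le_iff₀ a0]
      calc _ = 4 * (q0 : ℝ) ^ 2 * ‖A‖ * ‖A‖ := by ring
        _ ≤ 4 * (q0 : ℝ) ^ 2 * ‖A‖ * (u * Ω) := mul_le_mul_of_nonneg_left a2 (by positivity)
        _ = _ := by ring
    have x2 : 0 ≤ q0 * √Ω := by positivity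
    rw [← mul_sum]
    refine (mul_le_mul_of_nonneg_left ((s1.sum_le_tsum _ fun _ _ => (Real.exp_pos _).le).trans s2)
      (by positivity)).trans ?_
    rw [mul_add, mul_one]
    exact (by linarith : _ ≤ 2 * (T + q0 * √Ω)).trans
      (mul_le_mul_of_nonneg_right (by linarith) (by positivity))
  · have q1 : (q : ℝ) ≤ 2 * q0 := by exact_mod_cast h2.le
    have k := dual hP1 hVT (A := A) (N := N) (q := q) (ka b b') u0 r0 (hq0.trans h1) (by
      change _ ≤ ρ ^ 2 * u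
      rw [r1, show 4 * (q0 : ℝ) ^ 2 = (2 * q0) ^ 2 by ring]
      gcongr) (hD N ρ N0 r0 r4) S c
    have e1 : ∀ r : ℤ, th N T b b' (r / q + η) = ∑' t : ℤ, ex q (r * ka b b' * t ^ 2) *
        Complex.exp (-(π * A * t ^ 2)) * e ((0 : ℝ) * t) := fun r => tsum_congr fun t => by
      rw [term, hA, Complex.mk_eq_add_mul_I]
      simp only [ex, e, Complex.ofReal_exp, ← Complex.exp_add]
      congr 1
      push_cast
      ring
    simp only [e1]
    refine k.trans (add_le_add_right (mul_le_mul_of_nonneg_right ?_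
      (sum_nonneg fun _ _ => norm_nonneg _)) _)
    calc _ ≤ N * (323 * N) * (D / (N : ℝ) ^ 52) := by
          gcongr
          · exact a3.trans TN
          · linarith
      _ = 323 * D / (N : ℝ) ^ 50 := by field_simp
      _ ≤ _ := by gcongr; linarith

end Pool.Agent.P.MP_0ad054_nt.PS
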