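import Pool.Agent.P.MP_0ad054_nt.PS.StT
import Pool.Agent.P.MP_0ad054_nt.BG.Feyn
import Pool.Agent.P.MP_0ad054_nt.BG.Pois
import Pool.Agent.P.MP_0ad054_nt.BG.Pt
import Pool.Agent.P.MP_0ad054_nt.BG.Sup
import Pool.Agent.P.MP_0ad054_nt.BG.Ang
import Pool.Agent.P.MP_0ad054_nt.BG.AngP
import Pool.Agent.P.MP_0ad054_nt.BG.Fej
import Pool.Agent.P.MP_0ad054_nt.BG.Kb
import Pool.Agent.P.MP_0ad054_nt.BG.Lip
import Pool.Agent.P.MP_0ad054_nt.Clu.Prim
import Pool.Agent.P.MP_0ad054_nt.Clu.Om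
import Pool.Agent.P.MP_0ad054_nt.Sun.FinA

/-! Dense sets of primes are hit outside a set with a power saving. -/

namespace Pool.Agent.P.MP_0ad054_nt.PS

open Finset Pool.Agent.Lib.H9 Pool.Agent.P.MP_0ad054_nt.Sun Pool.Agent.P.MP_0ad054_nt.Sun.SphereP
  Pool.Agent.P.MP_0ad054_nt.Clu

namespace TPP

theorem large (J : ℕ) (K : ℝ) {a : ℝ} (ha : 0 < a) : ∃ N0 : ℕ, ∀ N : ℕ, N0 ≤ N → 10 ≤ N ∧
    K ≤ LL N ∧ LL N ^ J ≤ (N : ℝ) ^ a := by
  have h0 : Filter.Tendsto (fun N : ℕ => (N : ℝ)) Filter.atTop Filter.atTop :=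
    tendsto_natCast_atTop_atTop
  have h1 : ∀ᶠ N : ℕ in Filter.atTop, max K 1 ≤ Real.log N :=
    (Real.tendsto_log_atTop.comp h0).eventually_ge_atTop _
  have h3 := h0.eventually ((isLittleO_log_rpow_rpow_atTop (J : ℝ) ha).bound
    (c := 1 / 2 ^ J) (by positivity))
  obtain ⟨N0, h⟩ := Filter.eventually_atTop.1 (h1.and (h3.and (Filter.eventually_ge_atTop 10)))
  refine ⟨N0, fun N hN => ?_⟩
  obtain ⟨a1, a3, a4⟩ := h N hN
  obtain ⟨a0, a2⟩ := max_le_iff.1 a1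
  refine ⟨a4, by unfold LL; linarith, ?_⟩
  rw [Real.rpow_natCast, Real.norm_of_nonneg (by positivity),
    Real.norm_of_nonneg (by positivity)] at a3
  calc LL N ^ J ≤ (2 * Real.log N) ^ J := by unfold LL; gcongr; linarith
    _ = 2 ^ J * Real.log N ^ J := mul_pow _ _ _
    _ ≤ 2 ^ J * (1 / 2 ^ J * (N : ℝ) ^ a) := by gcongr
    _ = _ := by field_simp

theorem err {P N u y R r : ℝ} (hP : 100 ≤ P) (hN : 0 < N) (hu0 : 0 < u) (hu : u ≤ P ^ 2)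
    (hy : y ≤ u) (hR1 : P ^ 10 / 4 ≤ R) (hR2 : R ≤ P ^ 10) (hr : N / P ^ 2 ≤ 2 * r) :
    y * R * (N ^ 2 / P ^ 20) + (1 / r * N + 1) * N ^ 2 / Real.sqrt R ≤ 7 * (N ^ 2 / u) := by
  have hP1 : 1 ≤ P := by linarith
  have hr0 : 0 < r := by have : 0 < N / P ^ 2 := by positivity
                         linarith
  have hR0 : 0 < R := lt_of_lt_of_le (by positivity) hR1
  have h1 : 1 / r * N + 1 ≤ 3 * P ^ 2 := by
    rw [div_le_iff₀ (by positivity)] at hr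
    have : 1 / r * N ≤ 2 * P ^ 2 := by rw [one_div_mul_eq_div, div_le_iff₀ hr0]; linarith
    linarith [one_le_pow₀ (n := 2) hP1]
  have h2 : P ^ 5 / 2 ≤ Real.sqrt R := Real.le_sqrt_of_sq_le (by linarith)
  have h3 : y * R * (N ^ 2 / P ^ 20) ≤ N ^ 2 / u := by
    rw [le_div_iff₀ hu0]
    calc _ ≤ P ^ 2 * P ^ 10 * (N ^ 2 / P ^ 20) * P ^ 2 := by gcongr; exact hy.trans hu
      _ = N ^ 2 / P ^ 6 := by field_simp
      _ ≤ _ := div_le_self (by positivity) (one_le_pow₀ hP1)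
  have h4 : (1 / r * N + 1) * N ^ 2 / Real.sqrt R ≤ 6 * (N ^ 2 / u) := by
    rw [← mul_div_assoc, le_div_iff₀ hu0]
    calc _ ≤ 3 * P ^ 2 * N ^ 2 / (P ^ 5 / 2) * P ^ 2 := by gcongr
      _ = 6 * N ^ 2 / P := by field_simp; ring
      _ ≤ _ := div_le_self (by positivity) hP1
  linarith

theorem fin {N X L g e s Z C1 C3 : ℝ} (hN : 0 < N) (hX : 0 < X) (hg : X ≤ g) (he0 : 0 ≤ e)
    (hC1 : 0 < C1) (hC3 : 0 ≤ C3) (hL : 160000 * C1 ≤ L) (hs : N / X ≤ s) (h1 : e * (N / 8) ≤ Z)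
    (h2 : s / (10000 * N) * Z - C3 * (7 * (N ^ 2 / g ^ 2)) ≤
      C1 * (N ^ 2 / g ^ 2 + e * N / (X * L))) :
    e ≤ 160000 * (C1 + 7 * C3) * (N / g) := by
  have g0 : 0 < g := hX.trans_le hg
  have h3 : C1 * (e * N / (X * L)) ≤ e * N / X / 160000 :=
    calc _ ≤ C1 * (e * N / (X * (160000 * C1))) := by gcongr
      _ = _ := by field_simp
  have h4 : e * N / X / 80000 ≤ s / (10000 * N) * Z :=
    calc _ = N / X / (10000 * N) * (e * (N / 8)) := by field_simp; ring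
      _ ≤ _ := by
        have : 0 ≤ s := le_trans (by positivity) hs
        gcongr
  have h5 : e * N / X ≤ 160000 * (C1 + 7 * C3) * (N ^ 2 / g ^ 2) := by linarith
  rw [div_le_iff₀ hX] at h5
  refine le_of_mul_le_mul_right (h5.trans ?_) hN
  calc _ ≤ 160000 * (C1 + 7 * C3) * (N ^ 2 / g ^ 2) * g := by gcongr
    _ = _ := by field_simp

end TPP

open TPP in
theorem pTP (hCoreP : S_CoreP) : S_TP := by
  classical
  obtain ⟨W, cl, δ, hW, h2W, δ0, δ1, hcl, hcore⟩ := hCoreP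
  obtain ⟨C2, hC2, h2⟩ := pPrim
  have h3 := pOm
  obtain ⟨C3, hC3, h4⟩ := BG.pLip BG.pFeyn (BG.pAngP (BG.pAng (BG.pSup BG.pPois BG.pPt))) BG.pFej
    (BG.pKb BG.pFej)
  refine ⟨W, cl, δ / 2, hW, h2W, by positivity, hcl, fun k0 => ?_⟩
  obtain ⟨C1, N1, hC1, hc⟩ := hcore (k0 + 1)
  obtain ⟨N2, hN2⟩ := large 1 (100 + 8 * C2 + 160000 * C1) (a := 1 / 40000) (by norm_num)
  obtain ⟨N3, hN3⟩ := large k0 0 (a := δ / 2) (by positivity)
  refine ⟨160000 * (C1 + 7 * C3) + 2, max N1 (max N2 N3), by positivity,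
    fun N hN n0 S E hn0 hS hcard hE => ?_⟩
  simp only [max_le_iff] at hN
  have hc := hc N
  obtain ⟨hN10, hL, hLP⟩ := hN2 N hN.2.1
  obtain ⟨-, -, hX⟩ := hN3 N hN.2.2
  have hN1 : (10 : ℝ) ≤ N := by exact_mod_cast hN10
  have hN0 : (0 : ℝ) < N := by linarith
  have hpow : ∀ (k : ℕ) (a c : ℝ), a * (k : ℝ) = c → (N : ℝ) ^ c = ((N : ℝ) ^ a) ^ k :=
    fun k a c h => by rw [← Real.rpow_natCast, ← Real.rpow_mul hN0.le, h]
  have e40 := hpow 40 (1 / 40000) (1 / 1000) (by norm_num)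
  have eN := hpow 40000 (1 / 40000) 1 (by norm_num)
  have eu := hpow 2 (δ / 2) δ (by norm_num)
  have e20 : (N : ℝ) ^ (2 - 1 / 2000 : ℝ) = N ^ 2 / ((N : ℝ) ^ (1 / 40000 : ℝ)) ^ 20 := by
    rw [Real.rpow_sub hN0, hpow 20 (1 / 40000) (1 / 2000) (by norm_num), Real.rpow_two]
  have e39 : (N : ℝ) ^ (39 / 40 : ℝ) = N / ((N : ℝ) ^ (1 / 40000 : ℝ)) ^ 1000 := by
    rw [← hpow 1000 (1 / 40000) (1 / 40) (by norm_num),
      show (39 / 40 : ℝ) = 1 - 1 / 40 by norm_num, Real.rpow_sub hN0, Real.rpow_one]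
  have e2 : (N : ℝ) ^ (1 - 1 / 20000 : ℝ) = N / ((N : ℝ) ^ (1 / 40000 : ℝ)) ^ 2 := by
    rw [← hpow 2 (1 / 40000) (1 / 20000) (by norm_num), Real.rpow_sub hN0, Real.rpow_one]
  have hg : ((N : ℝ) ^ (δ / 2)) ^ 2 ≤ ((N : ℝ) ^ (1 / 40000 : ℝ)) ^ 2 :=
    pow_le_pow_left₀ (by positivity)
      (Real.rpow_le_rpow_of_exponent_le (by linarith) (by linarith)) 2
  have g1 : 1 ≤ (N : ℝ) ^ (δ / 2) := Real.one_le_rpow (by linarith) (by positivity)
  rw [Real.rpow_one] at eN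
  rw [e2, Real.rpow_sub hN0 2, Real.rpow_two, eu] at hc
  rw [Real.rpow_sub hN0, Real.rpow_one]
  rw [pow_one] at hLP
  clear hcore hN2 hN3 hpow eu e2
  generalize (N : ℝ) ^ (1 / 40000 : ℝ) = P at *
  generalize (N : ℝ) ^ (δ / 2) = g at *
  set L := LL N
  have hP : 100 ≤ P := by linarith
  have hP1 : 1 ≤ P := by linarith
  have hL1 : 1 ≤ L := by linarith
  have hq : 100 ≤ N / P ^ 2 := by
    rw [le_div_iff₀ (by positivity)]
    calc _ ≤ P * P ^ 2 := by gcongr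
      _ = P ^ 3 := by ring
      _ ≤ N := eN ▸ pow_le_pow_right₀ hP1 (by norm_num)
  clear eN
  set r := ⌊N / P ^ 2⌋₊
  have hr2 : (r : ℝ) ≤ N / P ^ 2 := Nat.floor_le (by positivity)
  have hr1 : N / P ^ 2 ≤ 2 * r := by linarith [Nat.lt_floor_add_one (N / P ^ 2)]
  have hr0 : 1 ≤ r := Nat.le_floor (by push_cast; linarith)
  have hr5 : 5 * r ≤ N := by
    have a2 : (N : ℝ) / P ^ 2 ≤ N / 5 := by gcongr; nlinarith
    have : (5 * r : ℝ) ≤ N := by linarith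
    exact_mod_cast this
  set R := ⌊P ^ 10⌋₊
  have hR2 : (R : ℝ) ≤ P ^ 10 := Nat.floor_le (by positivity)
  have hP10 : 100 ≤ P ^ 10 := hP.trans (le_self_pow₀ hP1 (by norm_num))
  have hR1 : P ^ 10 / 4 ≤ R := by linarith [Nat.lt_floor_add_one (P ^ 10)]
  have hR0 : 50 ≤ R := Nat.le_floor (by push_cast; linarith)
  have g2 : 1 ≤ g ^ 2 := one_le_pow₀ g1
  set y := ⌊g ^ 2⌋₊
  have hy2 : (y : ℝ) ≤ g ^ 2 := Nat.floor_le (by positivity)
  have hy0 : 1 ≤ y := Nat.le_floor (by exact_mod_cast g2)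
  have hy1 : g ≤ 2 * y := by
    have : (1 : ℝ) ≤ y := by exact_mod_cast hy0
    nlinarith [Nat.lt_floor_add_one (g ^ 2)]
  set E1 := E.filter (fun n => ∀ d : ℕ, y < d → ¬ d ^ 2 ∣ n)
  have hE2 : ((E.filter (fun n => ¬ ∀ d : ℕ, y < d → ¬ d ^ 2 ∣ n)).card : ℝ) ≤ N / y := by
    refine FinP.card_sq_dvd N y hy0 _ fun n hn => ?_
    obtain ⟨a1, a2⟩ := mem_filter.1 hn
    push Not at a2
    obtain ⟨d, b1, b2⟩ := a2
    obtain ⟨a3, a4, -⟩ := hE n a1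
    have := Nat.le_of_dvd (by omega) b2
    exact ⟨by omega, a4, d, mem_Ioc.2 ⟨b1, by nlinarith⟩, b2⟩
  have hc := hc r n0 S E1 hN.1 hn0 hr1 hr2
    (fun t ht => by obtain ⟨a1, a2, a3, a4⟩ := hS t ht; exact ⟨a1, by omega, by omega, a4⟩)
    (fun n hn => by
      obtain ⟨a0, a5⟩ := mem_filter.1 hn
      obtain ⟨a1, a2, a3, a4⟩ := hE n a0
      exact ⟨by omega, a2, a3, fun d hd => a5 d ((Nat.floor_lt (by positivity)).2 hd), a4⟩)
  obtain ⟨w1, w2, w3⟩ := BG.pWt r hr0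
  have h6 := h4 N 1 y R (1, 0) E1 (fun m => ∑ t ∈ S, om r (m - t)) (1 / r) one_ne_zero
    (by rw [e40, one_mul]; exact (hy2.trans hg).trans (pow_le_pow_right₀ hP1 (by norm_num))) hR0
    (by rw [e40]; exact hR2.trans (pow_le_pow_right₀ hP1 (by norm_num)))
    (fun n hn => by
      obtain ⟨a0, a5⟩ := mem_filter.1 hn
      exact ⟨(hE n a0).1, (hE n a0).2.1, a5⟩)
    (fun m => ⟨sum_nonneg fun t _ => h3.1 _ _, h3.2.1 r S m, w1 S m⟩)
    (fun m hm => by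
      obtain ⟨t, ht, h⟩ := exists_ne_zero_of_sum_ne_zero hm
      have a1 := abs_lt.1 (w2 _ h)
      obtain ⟨-, a2, a3, -⟩ := hS t ht
      omega)
  have h7 : ∑ m ∈ Icc (0 : ℤ) (4 * N), ∑ t ∈ S, om r (m - t) = S.card := by
    rw [sum_comm, sum_congr rfl fun (t : ℕ) ht => w3 0 (4 * N) t
      (by obtain ⟨-, a2, -⟩ := hS t ht; omega) (by obtain ⟨-, -, a3, -⟩ := hS t ht; omega)]
    simp
  have hpl : ∀ n, BG.pl 1 (1, 0) n = psphere n := fun n => filter_true_of_mem fun _ _ => by simp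
  rw [h7, e20] at h6
  have h8 := err hP hN0 (by positivity) hg hy2 hR1 hR2 hr1
  have h9 : (E1.card : ℝ) * (N / 8) ≤ ∑ n ∈ E1, ((BG.pl 1 (1, 0) n).card : ℝ) := by
    rw [← nsmul_eq_mul]
    refine card_nsmul_le_sum _ _ _ fun n hn => ?_
    obtain ⟨a1, a2, a3, -⟩ := hE n (mem_filter.1 hn).1
    have a4 : Odd n := by
      have b1 : (2 : ℤ) ∣ n - n0 := (Int.natCast_dvd_natCast.2 h2W).trans a3
      obtain ⟨c, rfl⟩ := hn0
      exact ⟨n / 2, by omega⟩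
    refine le_trans ?_ (h2 1 n (1, 0) ⟨squarefree_one, odd_one, by simp⟩
      (by simp [Del, Sun.box]) a4)
    have b1 : (N : ℝ) ≤ 2 * n := by exact_mod_cast a1
    have b2 : (n : ℝ) ^ (39 / 40 : ℝ) ≤ N / P ^ 1000 := by
      rw [← e39]; gcongr
    have b3 : C2 * (n : ℝ) ^ (39 / 40 : ℝ) ≤ N / 8 :=
      calc _ ≤ C2 * (N / (8 * C2)) := by
            gcongr
            refine b2.trans ?_
            gcongr
            exact le_trans (by linarith) (le_self_pow₀ hP1 (by norm_num))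
        _ = _ := by field_simp
    push_cast
    linarith
  have h10 := fin (C1 := C1) (C3 := C3) (L := L) hN0 (by positivity) hX (Nat.cast_nonneg _) hC1
    hC3.le (by linarith) hcard h9 (le_trans (by gcongr) (h6.trans (by
      simp only [hpl]; rwa [← pow_succ])))
  have h12 : (N : ℝ) / y ≤ 2 * (N / g) := by
    rw [← mul_div_assoc, div_le_div_iff₀ (by positivity) (by positivity)]
    nlinarith
  have h13 := card_filter_add_card_filter_not (s := E) (fun n => ∀ d : ℕ, y < d → ¬ d ^ 2 ∣ n)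
  have h14 : (E.card : ℝ) = E1.card +
      ((E.filter (fun n => ¬ ∀ d : ℕ, y < d → ¬ d ^ 2 ∣ n)).card : ℝ) := by
    exact_mod_cast h13.symm
  rw [h14]
  linarith

end Pool.Agent.P.MP_0ad054_nt.PS
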