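import Pool.Agent.P.MP_0ad054_nt.PS.St
import Pool.Agent.P.MP_0ad054_nt.Chen.Trans2
import Pool.Agent.P.MP_0ad054_nt.Sun.Gamma
import Pool.Agent.P.MP_0ad054_nt.Sun.Rad
import Pool.Agent.P.MP_0ad054_nt.Sun.Arith

/-! Transference with a power saving. -/

namespace Pool.Agent.P.MP_0ad054_nt.PS

open Finset ZMod Pool.Agent.P.MP_0ad054_nt.Sun Pool.Agent.P.MP_0ad054_nt.Sun.TransP
  Pool.Agent.P.MP_0ad054_nt.Chen Pool.Agent.P.MP_0ad054_nt.Chen.Trans2P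
open scoped ComplexConjugate

namespace TR3P

theorem card_Del : ((Del 1).card : ℝ) = 4 := by
  have : (Del 1).card = 4 := by decide
  exact_mod_cast this

theorem dual (hU : S_U3) : ∃ c : ℝ, 0 < c ∧ ∃ C : ℝ, 0 < C ∧
    ∀ (M N : ℕ) [NeZero M] (γ : ℤ → ℂ) (R : Finset (ZMod M)),
    1 ≤ N → 20 * N < M → M ≤ 40 * N → (∀ n, ‖γ n‖ ≤ 1) → (∀ n, γ n ≠ 0 → n ≤ N) →
    (∀ r ∉ R, Minor N ((N : ℝ) ^ (1 / 1000 : ℝ)) ((r.val : ℝ) / M)) →
    (R.card : ℝ) ≤ 324 * ((N : ℝ) ^ (1 / 1000 : ℝ)) ^ 3 →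
    ∑ r ∈ Rᶜ, ‖Gm M N 1 γ r‖ ^ 2 ≤ (M : ℝ) / N * (C * (N : ℝ) ^ 2 * (N : ℝ) ^ (-c)) ^ 2 := by
  obtain ⟨c, hc, C1, hC1, H1⟩ := hU (1 / 20000) (by norm_num) (by norm_num)
  obtain ⟨C3, hC3, H3⟩ := gamMin
  set ε := min (c / 2) (1 / 250) with hε
  have hε0 : 0 < ε := lt_min (by linarith) (by norm_num)
  have hεa : ε ≤ c / 2 := min_le_left _ _
  have hεb : ε ≤ 1 / 250 := min_le_right _ _
  obtain ⟨C4, hC4, H4⟩ := rG_bd hε0 (by linarith)
  obtain ⟨A, hA⟩ : ∃ A : ℝ, A = 324 * 324 + 4 * C3 + 252 * C4 := ⟨_, rfl⟩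
  have hA0 : 0 < A := by rw [hA]; positivity
  refine ⟨c / 2, by positivity, Real.sqrt (A * C1), by positivity,
    fun M N _ γ R hN hM1 hM2 hγ hγ' hmin hRc => ?_⟩
  have hN0 : (0 : ℝ) < N := by exact_mod_cast hN
  have hN1 : (1 : ℝ) ≤ N := by exact_mod_cast hN
  have mono : ∀ a b : ℝ, a ≤ b → (N : ℝ) ^ a ≤ (N : ℝ) ^ b := fun a b h =>
    Real.rpow_le_rpow_of_exponent_le hN1 h
  have hNM : (N : ℝ) ≤ M := by exact_mod_cast (by omega : N ≤ M)
  have hM40 : (M : ℝ) ≤ 40 * N := by exact_mod_cast hM2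
  have hM0 : (0 : ℝ) < M := by linarith
  set B := ∑ r ∈ Rᶜ, ‖Gm M N 1 γ r‖ ^ 2 with hBd
  have hB0 : 0 ≤ B := sum_nonneg fun _ _ => by positivity
  set ν : ℝ := A * N with hν
  have hν0 : 0 < ν := by positivity
  set Φ : ZMod M → ℂ := fun g => conj (cf M N 1 γ g) with hΦ
  set φ : ZMod M → ℂ := ((ν : ℂ))⁻¹ • proj Rᶜ Φ with hφ
  have hφn : ∀ g, ‖φ g‖ = ν⁻¹ * ‖proj Rᶜ Φ g‖ := by
    intro g
    rw [hφ, Pi.smul_apply, norm_smul, norm_inv, Complex.norm_real, Real.norm_of_nonneg hν0.le]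
  have a0 : ∑ g, ‖proj Rᶜ Φ g‖ ^ 2 = B / M := by
    rw [eq_div_iff hM0.ne', mul_comm, ← parseval, hBd, ← sum_filter_add_sum_filter_not univ
      (fun r => r ∈ Rᶜ)]
    rw [sum_eq_zero (s := univ.filter (fun r => ¬ r ∈ Rᶜ)) fun r hr => by
      rw [dft_proj, if_neg (mem_filter.1 hr).2]; simp]
    rw [add_zero, filter_mem_eq_inter, univ_inter]
    exact sum_congr rfl fun r hr => by rw [dft_proj, if_pos hr, dft_cf, Complex.norm_conj]
  have a1 : ∑ g, ‖φ g‖ ^ 2 = ν⁻¹ ^ 2 * (B / M) := by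
    simp only [hφn, mul_pow, ← mul_sum, a0]
  have a2 : ‖TT N 1 γ (fun _ => 1) (fun m => φ m)‖ = ν⁻¹ * (B / M) := by
    have b1 : TT N 1 γ (fun _ => 1) (fun m => φ m) =
        (ν : ℂ)⁻¹ * TT N 1 γ (fun _ => 1) (fun m => proj Rᶜ Φ m) := by
      rw [← TT_mul]; rfl
    have b2 : TT N 1 γ (fun _ => 1) (fun m => proj Rᶜ Φ m) = ((B / M : ℝ) : ℂ) := by
      rw [TT_proj, hBd, Complex.ofReal_div, Complex.ofReal_sum, sum_div]
      refine sum_congr rfl fun r _ => ?_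
      rw [dft_cf, normSq_eq]
      push_cast
      ring
    rw [b1, b2, norm_mul, norm_inv, Complex.norm_real, Complex.norm_real,
      Real.norm_of_nonneg hν0.le, Real.norm_of_nonneg (by positivity)]
  have a3 : ∀ g, ‖Φ g‖ ≤ 36 * C4 * (N : ℝ) ^ ε * N := by
    intro g
    rw [hΦ, Complex.norm_conj]
    refine (cf_le (by omega) le_rfl hN hγ (fun g hg => H4 N g hN (by omega)) g).trans (le_of_eq ?_)
    rw [card_Del]
    push_cast
    ring
  have a4 : ∀ g, ‖proj R Φ g‖ ≤ 324 * 324 * (N : ℝ) ^ (1 / 250 : ℝ) * N := by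
    intro g
    rw [proj_apply]
    refine (norm_sum_le _ _).trans ((sum_le_card_nsmul _ _ (324 * (N : ℝ)) fun r _ => ?_).trans ?_)
    · rw [norm_mul, U2P.norm_ch, mul_one, norm_mul, norm_inv, Complex.norm_natCast, dft_cf,
        Complex.norm_conj]
      have := TT_triv le_rfl hN hγ (φ := fun m => e ((r.val : ℝ) / M * m)) fun n => (norm_e _).le
      rw [card_Del] at this
      calc _ ≤ (N : ℝ)⁻¹ * (4 * (81 * ((N : ℝ) ^ 2 / (1 : ℕ)))) := by gcongr; exact this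
        _ = _ := by push_cast; field_simp; norm_num
    · have b4 : ((N : ℝ) ^ (1 / 1000 : ℝ)) ^ 3 ≤ (N : ℝ) ^ (1 / 250 : ℝ) := by
        rw [← Real.rpow_natCast, ← Real.rpow_mul hN0.le]
        exact mono _ _ (by norm_num)
      rw [nsmul_eq_mul]
      calc _ ≤ 324 * (N : ℝ) ^ (1 / 250 : ℝ) * (324 * N) := by
            gcongr; exact hRc.trans (by gcongr)
        _ = _ := by ring
  have a5 : ∀ g, ‖φ g‖ ≤ (N : ℝ) ^ (1 / 250 : ℝ) := by
    intro g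
    have b1 : proj Rᶜ Φ g = Φ g - proj R Φ g := by rw [proj_add R Φ g]; ring
    rw [hφn, inv_mul_le_iff₀ hν0, b1]
    refine (norm_sub_le _ _).trans ((add_le_add (a3 g) (a4 g)).trans ?_)
    have b2 := mono ε (1 / 250) hεb
    rw [← add_mul, hν, mul_right_comm A]
    refine mul_le_mul_of_nonneg_right ?_ hN0.le
    calc _ ≤ 36 * C4 * (N : ℝ) ^ (1 / 250 : ℝ) + 324 * 324 * (N : ℝ) ^ (1 / 250 : ℝ) := by gcongr
      _ = (36 * C4 + 324 * 324) * (N : ℝ) ^ (1 / 250 : ℝ) := by ring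
      _ ≤ _ := mul_le_mul_of_nonneg_right (by linarith) (by positivity)
  have a6 : ν⁻¹ ^ 2 * (B / M) ≤ (N : ℝ) ^ (1 + c) := by
    have b1 : B / M ≤ 40 * N * (36 * C4 * (N : ℝ) ^ ε * N) ^ 2 := by
      rw [← a0]
      refine (proj_sq_le _ _).trans ((sum_le_card_nsmul _ _
        ((36 * C4 * (N : ℝ) ^ ε * N) ^ 2) fun g _ => ?_).trans ?_)
      · gcongr; exact a3 g
      · rw [nsmul_eq_mul, card_univ, ZMod.card]; gcongr
    have b2 : ((N : ℝ) ^ ε) ^ 2 ≤ (N : ℝ) ^ c := by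
      rw [← Real.rpow_natCast, ← Real.rpow_mul hN0.le]
      exact mono _ _ (by push_cast; linarith)
    have b3 : 40 * (36 * C4) ^ 2 ≤ A ^ 2 :=
      (by nlinarith : _ ≤ (252 * C4) ^ 2).trans (pow_le_pow_left₀ (by positivity) (by linarith) 2)
    calc _ ≤ ν⁻¹ ^ 2 * (40 * N * (36 * C4 * (N : ℝ) ^ ε * N) ^ 2) := by gcongr
      _ = 40 * (36 * C4) ^ 2 / A ^ 2 * (N * ((N : ℝ) ^ ε) ^ 2) := by rw [hν]; field_simp
      _ ≤ 1 * (N * (N : ℝ) ^ c) := by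
          gcongr
          exact (div_le_one (by positivity)).2 b3
      _ = _ := by rw [Real.rpow_add hN0, Real.rpow_one, one_mul]
  have a7 : ∀ r, ‖dft φ r‖ ≤ (N : ℝ) ^ (1 - 1 / 20000 : ℝ) := by
    intro r
    rw [hφ, _root_.map_smul, Pi.smul_apply, dft_proj, norm_smul, norm_inv, Complex.norm_real,
      Real.norm_of_nonneg hν0.le]
    split_ifs with hr
    · rw [dft_cf, Complex.norm_conj, inv_mul_le_iff₀ hν0]
      have b1 : ‖Gm M N 1 γ r‖ ≤ 4 * (C3 * (N : ℝ) ^ (2 - 1 / 10000 : ℝ)) := by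
        unfold Gm TT
        exact (norm_sum_le _ _).trans ((sum_le_card_nsmul _ _ _ fun δ _ =>
          H3 N 1 δ _ γ le_rfl hN (hmin r (mem_compl.1 hr)) hγ).trans
            (by rw [nsmul_eq_mul, card_Del]))
      have b2 : (N : ℝ) ^ (2 - 1 / 10000 : ℝ) ≤ N * (N : ℝ) ^ (1 - 1 / 20000 : ℝ) :=
        (mono _ (1 + (1 - 1 / 20000)) (by norm_num)).trans
          (by rw [Real.rpow_add hN0, Real.rpow_one])
      rw [hν, mul_assoc]
      exact b1.trans ((mul_assoc _ _ _).ge.trans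
        (mul_le_mul (by linarith) b2 (by positivity) hA0.le))
    · rw [norm_zero, mul_zero]; positivity
  have a8 := H1 N M γ φ hN hM1 hM2 hγ hγ' a5 (a1.le.trans a6) a7
  rw [a2, inv_mul_le_iff₀ hν0, div_le_iff₀ hM0] at a8
  refine a8.trans (le_of_eq ?_)
  rw [mul_pow, mul_pow, Real.sq_sqrt (by positivity), ← Real.rpow_natCast ((N : ℝ) ^ (-(c / 2))),
    ← Real.rpow_mul hN0.le, sub_eq_add_neg, Real.rpow_add hN0, Real.rpow_two, hν,
    show -(c / 2) * (2 : ℕ) = -c by push_cast; ring]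
  field_simp

end TR3P

open TR3P in
theorem pTR3 (hU3 : S_U3) : S_TR3 := by
  obtain ⟨c, hc, C1, hC1, H1⟩ := dual hU3
  obtain ⟨C3, hC3, H3⟩ := part_major (gamma rad arith) kapb
  refine ⟨min c (1 / 100), lt_min hc (by norm_num), C1 + 4 * C3, by positivity, ?_⟩
  intro N y E2 S γ f hN hy hS hγ hγ' hE hAP
  set c2 := min c (1 / 100) with hc2
  have hca : c2 ≤ c := min_le_left _ _
  have hcb : c2 ≤ 1 / 100 := min_le_right _ _
  have hN0 : (0 : ℝ) < N := by exact_mod_cast hN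
  have hN1 : (1 : ℝ) ≤ N := by exact_mod_cast hN
  have mono : ∀ a b : ℝ, a ≤ b → (N : ℝ) ^ a ≤ (N : ℝ) ^ b := fun a b h =>
    Real.rpow_le_rpow_of_exponent_le hN1 h
  have hQN : (N : ℝ) ^ (1 / 1000 : ℝ) ≤ N := by simpa using mono (1 / 1000) 1 (by norm_num)
  have hQ1 : 1 ≤ (N : ℝ) ^ (1 / 1000 : ℝ) := Real.one_le_rpow hN1 (by norm_num)
  obtain ⟨M, hM, hM40⟩ : ∃ M, 20 * N < M ∧ M ≤ 40 * N := ⟨40 * N, by omega, le_rfl⟩
  have : NeZero M := ⟨by omega⟩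
  have hM7 : 7 * N < M := by omega
  have hM0 : (0 : ℝ) < M := by exact_mod_cast (by omega : 0 < M)
  classical
  set R : Finset (ZMod M) :=
    univ.filter (fun r => ¬ Minor N ((N : ℝ) ^ (1 / 1000 : ℝ)) ((r.val : ℝ) / M)) with hRd
  have hex : ∀ r : ZMod M, ∃ β : ℚ, r ∈ R → -1 ≤ β ∧ β ≤ 2 ∧
      (β.den : ℝ) ≤ (N : ℝ) ^ (1 / 1000 : ℝ) ∧
      N * |(r.val : ℝ) / M - β| ≤ (N : ℝ) ^ (1 / 1000 : ℝ) := by
    intro r
    by_cases hr : r ∈ R
    · obtain ⟨β, hβ⟩ := approx hN hQN r (mem_filter.1 hr).2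
      exact ⟨β, fun _ => hβ⟩
    · exact ⟨0, fun h => absurd h hr⟩
  choose β hβ using hex
  set F := ext M N f with hF
  have hE0 : 0 ≤ E2 := le_trans (sum_nonneg fun _ _ => by positivity) hE
  have b1 := H1 M N γ R hN hM hM40 hγ (fun n hn => (hγ' n hn).2)
    (fun r hr => by
      by_contra hh
      exact hr (mem_filter.2 ⟨mem_univ _, hh⟩))
    (count hM40 R β hQ1 hβ)
  have b3 := H3 M N 1 y E2 S γ f R β hN hM7 hM40 ⟨squarefree_one, odd_one, by simp⟩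
    (by simpa using hQ1) hN hy hS hγ (fun n hn => (hγ' n hn).2) hE hAP hβ
  have b2 : ‖TT N 1 γ (fun _ => 1) (fun m => proj Rᶜ F m)‖ ≤ Real.sqrt (E2 / N) *
      (C1 * (N : ℝ) ^ 2 * (N : ℝ) ^ (-c)) := by
    have c2 : ∑ r ∈ Rᶜ, ‖(M : ℂ)⁻¹ * dft F r‖ ^ 2 ≤ E2 / M := by
      refine (sum_le_sum_of_subset_of_nonneg (subset_univ _) fun _ _ _ => by positivity).trans ?_
      simp only [norm_mul, norm_inv, Complex.norm_natCast, mul_pow, ← mul_sum]
      rw [parseval, hF, sq_ext hM7]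
      calc _ ≤ (M : ℝ)⁻¹ ^ 2 * (M * E2) := by gcongr
        _ = E2 / M := by field_simp
    refine (sq_le_sq₀ (norm_nonneg _) (by positivity)).1 ?_
    rw [TT_proj]
    refine (cs_norm _ _ _).trans ((mul_le_mul c2 b1 (sum_nonneg fun _ _ => by positivity)
      (by positivity)).trans (le_of_eq ?_))
    rw [mul_pow (Real.sqrt _), Real.sq_sqrt (by positivity)]
    field_simp
  have e0 : TT N 1 γ (fun _ => 1) (fun m => f m.toNat) =
      TT N 1 γ (fun _ => 1) (fun m => proj R F m) +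
        TT N 1 γ (fun _ => 1) (fun m => proj Rᶜ F m) := by
    rw [← TT_add]
    refine TT_congr hγ' fun m m1 m2 => ?_
    rw [← proj_add, hF, ext_cast hM7 f m m1 m2]
  rw [e0]
  refine (norm_add_le _ _).trans ((add_le_add b3 b2).trans ?_)
  have d1 : (N : ℝ) ^ (-c) ≤ (N : ℝ) ^ (-c2) := mono _ _ (by linarith)
  have d2 : (N : ℝ) ^ (-(1 / 100) : ℝ) ≤ (N : ℝ) ^ (-c2) := mono _ _ (by linarith)
  have p0 := Real.sqrt_nonneg (E2 / N)
  have p2 : 0 ≤ y ^ (-(1 / 16) : ℝ) := by positivity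
  have p4 : 0 ≤ y ^ 5 * S / N := by positivity
  rw [add_mul C1, add_mul (C1 * _), add_comm, card_Del, Nat.cast_one, div_one, ← mul_assoc C3,
    mul_comm C3]
  refine add_le_add ?_ ?_
  · rw [mul_left_comm]
    refine mul_le_mul_of_nonneg_left (le_trans ?_ (le_add_of_nonneg_right p4)) (by positivity)
    exact mul_le_mul_of_nonneg_left (by linarith) p0
  · refine mul_le_mul_of_nonneg_left (add_le_add ?_ le_rfl) (by positivity)
    exact mul_le_mul_of_nonneg_left (by linarith) p0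

end Pool.Agent.P.MP_0ad054_nt.PS
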