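import Pool.Agent.P.MP_0ad054_nt.PS.StT

/-! The moduli outside the truncated product carry a small part of the mean square. -/

namespace Pool.Agent.P.MP_0ad054_nt.PS

open Finset Pool.Agent.Lib.H9 Pool.Agent.P.MP_0ad054_nt.Sun Pool.Agent.P.MP_0ad054_nt.Sun.SphereP
  Pool.Agent.P.MP_0ad054_nt.Clu

namespace TailP

/-- a sum over moduli is at most the product over primes -/
theorem expand (Y : ℕ) (x : ℕ → ℕ → ℝ) (hx : ∀ p k, 0 ≤ x p k) :
    ∑ q ∈ Icc 1 Y, ∏ p ∈ q.primeFactors, x p (q.factorization p) ≤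
      ∏ p ∈ Nat.primesLE Y, (1 + ∑ k ∈ Icc 1 Y, x p k) := by
  classical
  set y : ℕ → ℕ → ℝ := fun p k => if k = 0 then 1 else x p k with hy
  have hy0 : ∀ p k, 0 ≤ y p k := fun p k => by
    simp only [hy]; split_ifs
    · exact zero_le_one
    · exact hx p k
  have e1 : ∀ p, 1 + ∑ k ∈ Icc 1 Y, x p k = ∑ k ∈ Icc 0 Y, y p k := by
    intro p
    rw [← Finset.insert_Icc_add_one_left_eq_Icc (Nat.zero_le Y), Finset.sum_insert (by simp)]
    simp only [hy, if_true, zero_add]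
    congr 1
    refine Finset.sum_congr rfl (fun k hk => ?_)
    rw [if_neg (by have := (Finset.mem_Icc.1 hk).1; omega)]
  simp only [e1]
  rw [Finset.prod_sum]
  set φ : ℕ → (∀ p ∈ Nat.primesLE Y, ℕ) := fun q p _ => q.factorization p with hφ
  have hsub : ∀ q ∈ Icc 1 Y, q.primeFactors ⊆ Nat.primesLE Y := by
    intro q hq p hp
    exact Nat.mem_primesLE.2 ⟨(Nat.le_of_mem_primeFactors hp).trans (Finset.mem_Icc.1 hq).2,
      Nat.prime_of_mem_primeFactors hp⟩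
  have hz : ∀ q p : ℕ, p ∉ q.primeFactors → q.factorization p = 0 := by
    intro q p hp
    rw [← Nat.support_factorization] at hp
    exact Finsupp.notMem_support_iff.1 hp
  have e2 : ∑ q ∈ Icc 1 Y, ∏ p ∈ q.primeFactors, x p (q.factorization p) =
      ∑ f ∈ (Icc 1 Y).image φ, ∏ p ∈ (Nat.primesLE Y).attach, y p.1 (f p.1 p.2) := by
    rw [Finset.sum_image]
    · refine Finset.sum_congr rfl (fun q hq => ?_)
      simp only [hφ]
      rw [Finset.prod_attach (Nat.primesLE Y) (fun p => y p (q.factorization p)),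
        ← Finset.prod_subset (hsub q hq) (fun p _ hp => by simp only [hy, hz q p hp, if_true])]
      refine Finset.prod_congr rfl (fun p hp => ?_)
      simp only [hy]
      rw [if_neg]
      rw [← Nat.support_factorization] at hp
      exact Finsupp.mem_support_iff.1 hp
    · intro q hq q' hq' h
      have hq1 := Finset.mem_Icc.1 (Finset.mem_coe.1 hq)
      have hq2 := Finset.mem_Icc.1 (Finset.mem_coe.1 hq')
      refine Nat.eq_of_factorization_eq (by omega) (by omega) (fun p => ?_)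
      by_cases hp : p ∈ Nat.primesLE Y
      · exact congrFun (congrFun h p) hp
      · rw [hz q p (fun h' => hp (hsub q hq h')), hz q' p (fun h' => hp (hsub q' hq' h'))]
  rw [e2]
  refine Finset.sum_le_sum_of_subset_of_nonneg ?_
    (fun f _ _ => Finset.prod_nonneg (fun p _ => hy0 _ _))
  intro f hf
  obtain ⟨q, hq, rfl⟩ := Finset.mem_image.1 hf
  refine Finset.mem_pi.2 (fun p _ => Finset.mem_Icc.2 ⟨Nat.zero_le _, ?_⟩)
  have hq1 := Finset.mem_Icc.1 hq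
  exact (Nat.factorization_lt p (by omega)).le.trans hq1.2

theorem geo (a Y : ℕ) : ∑ k ∈ Icc a Y, (1 / 2 : ℝ) ^ k ≤ 2 / 2 ^ a := by
  have h := geom_sum_Ico_le_of_lt_one (m := a) (n := Y + 1) (x := (1 / 2 : ℝ)) (by norm_num)
    (by norm_num)
  rw [Finset.Ico_add_one_right_eq_Icc] at h
  refine h.trans (le_of_eq ?_)
  rw [one_div, inv_pow]; field_simp; norm_num

theorem pw {C : ℝ} (hC : 0 ≤ C) {p k : ℕ} (hp : 2 ≤ p) (hk : 2 ≤ k) :
    C / (p : ℝ) ^ k ≤ 4 * C / (p : ℝ) ^ 2 * (1 / 2 : ℝ) ^ k := by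
  obtain ⟨j, rfl⟩ := Nat.exists_eq_add_of_le hk
  have hp' : (2 : ℝ) ≤ p := by exact_mod_cast hp
  have h1 : (2 : ℝ) ^ j ≤ (p : ℝ) ^ j := pow_le_pow_left₀ (by norm_num) hp' j
  have e : 4 * C / (p : ℝ) ^ 2 * (1 / 2 : ℝ) ^ (2 + j) = C / ((p : ℝ) ^ 2 * 2 ^ j) := by
    rw [one_div, inv_pow, pow_add]; field_simp; ring
  rw [e, pow_add]
  gcongr

theorem tail {C : ℝ} (hC : 0 ≤ C) (u : ℕ → ℝ) {p : ℕ} (hp : 2 ≤ p)
    (h2 : ∀ k, 2 ≤ k → u k ≤ C / (p : ℝ) ^ k) (a Y : ℕ) (ha : 2 ≤ a) :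
    ∑ k ∈ Icc a Y, u k ≤ 4 * C / (p : ℝ) ^ 2 * (2 / 2 ^ a) := by
  calc ∑ k ∈ Icc a Y, u k ≤ ∑ k ∈ Icc a Y, 4 * C / (p : ℝ) ^ 2 * (1 / 2 : ℝ) ^ k :=
        Finset.sum_le_sum (fun k hk => by
          have := (Finset.mem_Icc.1 hk).1
          exact (h2 k (by omega)).trans (pw hC hp (by omega)))
    _ = 4 * C / (p : ℝ) ^ 2 * ∑ k ∈ Icc a Y, (1 / 2 : ℝ) ^ k := by rw [Finset.mul_sum]
    _ ≤ _ := mul_le_mul_of_nonneg_left (geo a Y) (by positivity)

/-- the weight of a prime power -/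
noncomputable def wt (l : ℕ) (lam : ℝ) (p k : ℕ) : ℝ :=
  2 * ((if p ≤ 2 ^ l then 1 else lam) + if l < k then lam else 0)

theorem two_le_wt {l : ℕ} {lam : ℝ} (h : 1 ≤ lam) (p k : ℕ) : 2 ≤ wt l lam p k := by
  unfold wt; split_ifs <;> linarith

theorem le_wt {l : ℕ} {lam : ℝ} (h : 1 ≤ lam) {p k : ℕ} (hb : ¬ (p ≤ 2 ^ l ∧ k ≤ l)) :
    lam ≤ wt l lam p k := by
  unfold wt
  split_ifs with h1 h2 h2
  · linarith
  · exact absurd ⟨h1, not_lt.1 h2⟩ hb
  · linarith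
  · linarith

theorem le_prod {l q : ℕ} {lam : ℝ} (h : 1 ≤ lam) (h' : lam ≤ 2 ^ l) (hq : ¬ old l q) :
    lam ≤ ∏ p ∈ q.primeFactors, wt l lam p (q.factorization p) := by
  by_cases hc : q.primeFactors.card ≤ l ^ 2
  · have : ∃ p ∈ q.primeFactors, ¬ (p ≤ 2 ^ l ∧ q.factorization p ≤ l) := by
      by_contra hn
      exact hq ⟨fun p hp => by_contra (fun h0 => hn ⟨p, hp, h0⟩), hc⟩
    obtain ⟨p, hp, hb⟩ := this
    rw [← Finset.mul_prod_erase _ _ hp]
    have h1 : (1 : ℝ) ≤ ∏ p' ∈ q.primeFactors.erase p, wt l lam p' (q.factorization p') :=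
      (Finset.prod_le_prod (f := fun _ => (1 : ℝ)) (fun _ _ => zero_le_one)
        (fun p' _ => le_trans (by norm_num) (two_le_wt h p' _))).trans' (by simp)
    have h2 := le_wt h hb
    nlinarith
  · have h1 : (2 : ℝ) ^ q.primeFactors.card ≤
        ∏ p ∈ q.primeFactors, wt l lam p (q.factorization p) :=
      (Finset.prod_le_prod (f := fun _ => (2 : ℝ)) (fun _ _ => by norm_num)
        (fun p' _ => two_le_wt h p' _)).trans' (by simp)
    have h2 : l ≤ q.primeFactors.card := by nlinarith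
    exact h'.trans ((pow_le_pow_right₀ (by norm_num) h2).trans h1)

/-- the bound at one prime -/
theorem one {C lam : ℝ} (hC : 0 ≤ C) {l : ℕ} (hl : 1 ≤ l) (h : 1 ≤ lam) (h' : lam ≤ 2 ^ l)
    (u : ℕ → ℝ) (hu : ∀ k, 0 ≤ u k) {p : ℕ} (hp : 2 ≤ p) (n Y : ℕ)
    (h1 : u 1 ≤ C / (p : ℝ) ^ 2 + if p ∣ n then C / p else 0)
    (h2 : ∀ k, 2 ≤ k → u k ≤ C / (p : ℝ) ^ k) :
    ∑ k ∈ Icc 1 Y, wt l lam p k * u k ≤
      8 * C * (if p ≤ 2 ^ l then 1 / (p : ℝ) else 0) +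
      6 * C * lam * (if 2 ^ l < p then ((p : ℝ) ^ 2)⁻¹ else 0) +
      2 * C * lam / 2 ^ l * (if p ∣ n then 1 else 0) + 8 * C * ((p : ℝ) ^ 2)⁻¹ := by
  have hp' : (2 : ℝ) ≤ p := by exact_mod_cast hp
  have hL : (0 : ℝ) < 2 ^ l := by positivity
  have s1 : ∑ k ∈ Icc 1 Y, u k ≤ 3 * C * ((p : ℝ) ^ 2)⁻¹ + if p ∣ n then C / p else 0 := by
    have a1 : ∑ k ∈ Icc 1 Y, u k ≤ ∑ k ∈ insert 1 (Icc 2 Y), u k :=
      Finset.sum_le_sum_of_subset_of_nonneg (fun k hk => by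
        simp only [Finset.mem_insert, Finset.mem_Icc] at hk ⊢; omega) (fun k _ _ => hu k)
    rw [Finset.sum_insert (by simp)] at a1
    have a2 := tail hC u hp h2 2 Y le_rfl
    have e : C / (p : ℝ) ^ 2 + 4 * C / (p : ℝ) ^ 2 * (2 / 2 ^ 2) = 3 * C * ((p : ℝ) ^ 2)⁻¹ := by
      field_simp; ring
    linarith
  have s2 : lam * ∑ k ∈ Icc 1 Y, (if l < k then u k else 0) ≤ 4 * C * ((p : ℝ) ^ 2)⁻¹ := by
    have a1 : ∑ k ∈ Icc 1 Y, (if l < k then u k else 0) ≤ ∑ k ∈ Icc (l + 1) Y, u k := by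
      rw [← Finset.sum_filter]
      exact Finset.sum_le_sum_of_subset_of_nonneg (fun k hk => by
        simp only [Finset.mem_filter, Finset.mem_Icc] at hk ⊢; omega) (fun k _ _ => hu k)
    have a2 := tail hC u hp h2 (l + 1) Y (by omega)
    have a0 : 0 ≤ ∑ k ∈ Icc 1 Y, (if l < k then u k else 0) :=
      Finset.sum_nonneg (fun k _ => by split_ifs; exacts [hu k, le_rfl])
    calc lam * ∑ k ∈ Icc 1 Y, (if l < k then u k else 0)
        ≤ 2 ^ l * (4 * C / (p : ℝ) ^ 2 * (2 / 2 ^ (l + 1))) :=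
          mul_le_mul h' (a1.trans a2) a0 hL.le
      _ = 4 * C * ((p : ℝ) ^ 2)⁻¹ := by rw [pow_succ 2 l]; field_simp
  have e : ∑ k ∈ Icc 1 Y, wt l lam p k * u k =
      2 * (if p ≤ 2 ^ l then 1 else lam) * ∑ k ∈ Icc 1 Y, u k +
        2 * (lam * ∑ k ∈ Icc 1 Y, (if l < k then u k else 0)) := by
    rw [Finset.mul_sum, Finset.mul_sum, Finset.mul_sum, ← Finset.sum_add_distrib]
    refine Finset.sum_congr rfl (fun k _ => ?_)
    unfold wt
    by_cases hk : l < k <;> simp only [hk, if_true, if_false] <;> ring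
  rw [e]
  have q0 : 0 ≤ ((p : ℝ) ^ 2)⁻¹ := by positivity
  have q1 : ((p : ℝ) ^ 2)⁻¹ ≤ 1 / (p : ℝ) := by
    rw [one_div]; exact inv_anti₀ (by positivity) (by nlinarith)
  have q2 : 0 ≤ 2 * C * lam / 2 ^ l := by positivity
  have q3 : C / (p : ℝ) = C * (1 / (p : ℝ)) := by ring
  have q4 : 0 ≤ C * (1 / (p : ℝ)) := by positivity
  have q5 := mul_le_mul_of_nonneg_left q1 hC
  by_cases hpl : p ≤ 2 ^ l
  · simp only [hpl, if_true, not_lt.2 hpl, if_false]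
    split_ifs at s1 ⊢ <;> linarith
  · simp only [hpl, if_false, not_le.1 hpl, if_true]
    have s3 := mul_le_mul_of_nonneg_left s1 (by linarith : 0 ≤ 2 * lam)
    have q6 : C / (p : ℝ) ≤ C / 2 ^ l := by
      have : (2 : ℝ) ^ l ≤ p := by exact_mod_cast (not_le.1 hpl).le
      gcongr
    have q7 := mul_le_mul_of_nonneg_left q6 (by linarith : 0 ≤ 2 * lam)
    have q8 : 2 * lam * (C / 2 ^ l) = 2 * C * lam / 2 ^ l := by ring
    split_ifs at s3 ⊢ <;> linarith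

theorem omega_le {n N : ℕ} (hn : 1 ≤ n) (hN : n ≤ N) : (n.primeFactors.card : ℝ) ≤ 2 * LL N := by
  have h1 : 2 ^ n.primeFactors.card ≤ ∏ p ∈ n.primeFactors, p :=
    Finset.pow_card_le_prod _ _ _ (fun p hp => (Nat.prime_of_mem_primeFactors hp).two_le)
  have h2 : ∏ p ∈ n.primeFactors, p ≤ n := Nat.le_of_dvd hn (Nat.prod_primeFactors_dvd n)
  have h3 : (2 : ℝ) ^ n.primeFactors.card ≤ N := by exact_mod_cast h1.trans (h2.trans hN)
  have h4 := Real.log_le_log (by positivity) h3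
  rw [Real.log_pow] at h4
  have := Real.log_two_gt_d9
  have h0 : (0 : ℝ) ≤ n.primeFactors.card := Nat.cast_nonneg _
  unfold LL
  nlinarith

/-- the sum over all primes -/
theorem all {C lam : ℝ} (hC : 0 ≤ C) {l : ℕ} (hl : 4 ≤ l) (h : 1 ≤ lam) (h' : lam ≤ 2 ^ l)
    (u : ℕ → ℕ → ℝ) (hu : ∀ p k, 0 ≤ u p k) (n Y : ℕ) (hn : 1 ≤ n)
    (hω : lam / 2 ^ l * (n.primeFactors.card : ℝ) ≤ 2)
    (h1 : ∀ p : ℕ, p.Prime → u p 1 ≤ C / (p : ℝ) ^ 2 + if p ∣ n then C / p else 0)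
    (h2 : ∀ p k : ℕ, p.Prime → 2 ≤ k → u p k ≤ C / (p : ℝ) ^ k) :
    ∑ p ∈ Nat.primesLE Y, ∑ k ∈ Icc 1 Y, wt l lam p k * u p k ≤
      96 * C + 32 * C * Real.log l := by
  have hL : (0 : ℝ) < 2 ^ l := by positivity
  have hl' : (4 : ℝ) ≤ l := by exact_mod_cast hl
  refine (Finset.sum_le_sum (fun p hp => one hC (by omega) h h' (u p) (hu p)
    (Nat.mem_primesLE.1 hp).2.two_le n Y (h1 p (Nat.mem_primesLE.1 hp).2)
    (fun k hk => h2 p k (Nat.mem_primesLE.1 hp).2 hk))).trans ?_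
  simp only [Finset.sum_add_distrib, ← Finset.mul_sum, ← Finset.sum_filter]
  have a : ∑ p ∈ (Nat.primesLE Y).filter (fun p => p ≤ 2 ^ l), 1 / (p : ℝ) ≤
      8 + 4 * Real.log l := by
    have b1 := sum_inv_primes_le (y := 2 ^ l) (le_self_pow₀ (by norm_num) (by omega))
    have b2 : Real.log (Real.log ((2 ^ l : ℕ) : ℝ) + 1) ≤ Real.log l := by
      have := Real.log_two_lt_d9
      have := Real.log_two_gt_d9
      push_cast
      rw [Real.log_pow]
      exact Real.log_le_log (by positivity) (by nlinarith)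
    have b3 : ∑ p ∈ (Nat.primesLE Y).filter (fun p => p ≤ 2 ^ l), 1 / (p : ℝ) ≤
        ∑ p ∈ Nat.primesLE (2 ^ l), 1 / (p : ℝ) :=
      Finset.sum_le_sum_of_subset_of_nonneg (fun p hp => Nat.mem_primesLE.2
        ⟨(Finset.mem_filter.1 hp).2, (Nat.mem_primesLE.1 (Finset.mem_filter.1 hp).1).2⟩)
        (fun p _ _ => by positivity)
    linarith
  have b : ∑ p ∈ (Nat.primesLE Y).filter (fun p => 2 ^ l < p), ((p : ℝ) ^ 2)⁻¹ ≤ 2 / 2 ^ l := by
    have b1 := sum_Ioo_inv_sq_le (α := ℝ) (2 ^ l) (Y + 1)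
    have b2 : ∑ p ∈ (Nat.primesLE Y).filter (fun p => 2 ^ l < p), ((p : ℝ) ^ 2)⁻¹ ≤
        ∑ p ∈ Ioo (2 ^ l) (Y + 1), ((p : ℝ) ^ 2)⁻¹ :=
      Finset.sum_le_sum_of_subset_of_nonneg (fun p hp => Finset.mem_Ioo.2
        ⟨(Finset.mem_filter.1 hp).2,
          Nat.lt_succ_of_le (Nat.mem_primesLE.1 (Finset.mem_filter.1 hp).1).1⟩)
        (fun p _ _ => by positivity)
    refine b2.trans (b1.trans ?_)
    push_cast
    gcongr
    linarith
  have c : ∑ p ∈ (Nat.primesLE Y).filter (fun p => p ∣ n), (1 : ℝ) ≤ n.primeFactors.card := by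
    rw [Finset.sum_const, nsmul_eq_mul, mul_one]
    exact_mod_cast Finset.card_le_card (fun p hp => Nat.mem_primeFactors.2
      ⟨(Nat.mem_primesLE.1 (Finset.mem_filter.1 hp).1).2, (Finset.mem_filter.1 hp).2, by omega⟩)
  have d : ∑ p ∈ Nat.primesLE Y, ((p : ℝ) ^ 2)⁻¹ ≤ 2 := by
    have b1 := sum_Ioo_inv_sq_le (α := ℝ) 0 (Y + 1)
    have b2 : ∑ p ∈ Nat.primesLE Y, ((p : ℝ) ^ 2)⁻¹ ≤ ∑ p ∈ Ioo 0 (Y + 1), ((p : ℝ) ^ 2)⁻¹ :=
      Finset.sum_le_sum_of_subset_of_nonneg (fun p hp => Finset.mem_Ioo.2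
        ⟨(Nat.mem_primesLE.1 hp).2.pos, Nat.lt_succ_of_le (Nat.mem_primesLE.1 hp).1⟩)
        (fun p _ _ => by positivity)
    simpa using b2.trans b1
  have a' := mul_le_mul_of_nonneg_left a (by positivity : 0 ≤ 8 * C)
  have b' : 6 * C * lam * ∑ p ∈ (Nat.primesLE Y).filter (fun p => 2 ^ l < p),
      ((p : ℝ) ^ 2)⁻¹ ≤ 12 * C :=
    calc _ ≤ 6 * C * 2 ^ l * (2 / 2 ^ l) := by gcongr
      _ = 12 * C := by field_simp; ring
  have c' : 2 * C * lam / 2 ^ l * ∑ p ∈ (Nat.primesLE Y).filter (fun p => p ∣ n), (1 : ℝ) ≤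
      4 * C :=
    calc _ ≤ 2 * C * lam / 2 ^ l * (n.primeFactors.card : ℝ) := by gcongr
      _ = 2 * C * (lam / 2 ^ l * (n.primeFactors.card : ℝ)) := by ring
      _ ≤ 2 * C * 2 := by gcongr
      _ = 4 * C := by ring
  have d' := mul_le_mul_of_nonneg_left d (by positivity : 0 ≤ 8 * C)
  linarith

end TailP

theorem pTail (hDec : S_Dec) (hU1 : S_U1) : S_Tail := by
  classical
  obtain ⟨C1, hC1, h2⟩ := hDec
  obtain ⟨C2, hC2, h1⟩ := hU1
  set C : ℝ := C1 + C2 with hCd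
  have hC : 0 < C := by positivity
  refine ⟨Real.exp (96 * C), ⌈32 * C⌉₊, Real.exp_pos _, fun N l Y n hl hn hN hLL => ?_⟩
  have hL : (0 : ℝ) < 2 ^ l := by positivity
  have hl' : (4 : ℝ) ≤ l := by exact_mod_cast hl
  have hL1 : 1 ≤ LL N := by
    unfold LL; linarith [Real.log_natCast_nonneg N]
  set lam : ℝ := 2 ^ l / LL N with hlam
  have g1 : 1 ≤ lam := (one_le_div (by linarith)).2 hLL
  have g2 : lam ≤ 2 ^ l := div_le_self hL.le hL1
  have g3 : lam / 2 ^ l * (n.primeFactors.card : ℝ) ≤ 2 := by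
    have := TailP.omega_le hn hN
    calc lam / 2 ^ l * (n.primeFactors.card : ℝ) ≤ lam / 2 ^ l * (2 * LL N) := by gcongr
      _ = 2 := by rw [hlam]; field_simp
  have hu : ∀ p k : ℕ, 0 ≤ uu p k n := fun p k => by
    unfold uu
    exact div_nonneg (Finset.sum_nonneg (fun _ _ => sq_nonneg _)) (by positivity)
  have hall := TailP.all hC.le hl g1 g2 (fun p k => uu p k n) hu n Y hn g3
    (fun p hp => by
      refine (h1 p n hp).trans (add_le_add (by gcongr; linarith) ?_)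
      by_cases hd : p ∣ n
      · rw [if_pos hd, if_pos (Int.natCast_dvd_natCast.2 hd)]; gcongr; linarith
      · rw [if_neg hd, if_neg (fun h => hd (Int.natCast_dvd_natCast.1 h))])
    (fun p k hp hk => (h2 p k n hp hk).trans (by gcongr; linarith))
  have hx : ∀ p k : ℕ, 0 ≤ TailP.wt l lam p k * uu p k n := fun p k =>
    mul_nonneg (le_trans (by norm_num) (TailP.two_le_wt g1 p k)) (hu p k)
  have hexp := TailP.expand Y (fun p k => TailP.wt l lam p k * uu p k n) hx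
  have k1 : lam * ∑ q ∈ (Icc 1 Y).filter (fun q => ¬ old l q), U0 q n ≤
      ∑ q ∈ Icc 1 Y, ∏ p ∈ q.primeFactors,
        TailP.wt l lam p (q.factorization p) * uu p (q.factorization p) n := by
    rw [Finset.mul_sum]
    refine le_trans (Finset.sum_le_sum (fun q hq => ?_))
      (Finset.sum_le_sum_of_subset_of_nonneg (Finset.filter_subset (fun q => ¬ old l q) _)
        (fun q _ _ => Finset.prod_nonneg (fun p _ => hx _ _)))
    rw [Finset.prod_mul_distrib]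
    exact mul_le_mul_of_nonneg_right (TailP.le_prod g1 g2 (Finset.mem_filter.1 hq).2)
      (Finset.prod_nonneg (fun p _ => hu _ _))
  have k2 : ∏ p ∈ Nat.primesLE Y, (1 + ∑ k ∈ Icc 1 Y, TailP.wt l lam p k * uu p k n) ≤
      Real.exp (∑ p ∈ Nat.primesLE Y, ∑ k ∈ Icc 1 Y, TailP.wt l lam p k * uu p k n) := by
    rw [Real.exp_sum]
    refine Finset.prod_le_prod (fun p _ => ?_) (fun p _ => ?_)
    · exact add_nonneg zero_le_one (Finset.sum_nonneg (fun k _ => hx p k))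
    · rw [add_comm]; exact Real.add_one_le_exp _
  have k3 : Real.exp (96 * C + 32 * C * Real.log l) ≤
      Real.exp (96 * C) * (l : ℝ) ^ ⌈32 * C⌉₊ := by
    rw [Real.exp_add]
    refine mul_le_mul_of_nonneg_left ?_ (Real.exp_pos _).le
    have e : (l : ℝ) ^ ⌈32 * C⌉₊ = Real.exp (⌈32 * C⌉₊ * Real.log l) := by
      rw [Real.exp_nat_mul, Real.exp_log (by linarith)]
    rw [e, Real.exp_le_exp]
    exact mul_le_mul_of_nonneg_right (Nat.le_ceil _) (Real.log_natCast_nonneg l)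
  have k4 : lam * ∑ q ∈ (Icc 1 Y).filter (fun q => ¬ old l q), U0 q n ≤
      Real.exp (96 * C) * (l : ℝ) ^ ⌈32 * C⌉₊ :=
    k1.trans (hexp.trans (k2.trans ((Real.exp_le_exp.2 hall).trans k3)))
  rw [le_div_iff₀ hL]
  rw [hlam, div_mul_eq_mul_div, div_le_iff₀ (by linarith), mul_comm] at k4
  convert k4

end Pool.Agent.P.MP_0ad054_nt.PS
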