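import Pool.Agent.P.MP_0ad054_nt.PS.StT
import Pool.Agent.P.MP_0ad054_nt.Clu.Big
import Pool.Agent.P.MP_0ad054_nt.Clu.Gauss
import Pool.Agent.P.MP_0ad054_nt.Clu.Fib
import Pool.Agent.P.MP_0ad054_nt.Clu.Sq

/-! The mean square of the local factor modulo a prime. -/

namespace Pool.Agent.P.MP_0ad054_nt.PS

open Finset Pool.Agent.Lib.H9 Pool.Agent.P.MP_0ad054_nt.Sun Pool.Agent.P.MP_0ad054_nt.Sun.SphereP
  Pool.Agent.P.MP_0ad054_nt.Clu

namespace U1P

open GaussP BigP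

theorem cnt {F : Type*} [Field F] [Fintype F] [DecidableEq F] (hF : ringChar F ≠ 2)
    (ψ : AddChar F ℂ) (hψ : ψ.IsPrimitive) (μ : Fin 4 → F) (hμ : Function.Injective μ) (c t : F)
    (h : c ≠ 0 ∨ t ≠ 0) :
    ((Fintype.card F : ℝ) - 1) * (Fintype.card F : ℝ) ^ 2 *
      |((univ.filter (fun w : Fin 4 → F =>
        ∑ j, w j ^ 2 = c ∧ ∑ j, μ j * w j ^ 2 = t)).card : ℝ) - (Fintype.card F : ℝ) ^ 2| ≤
      6 * (Fintype.card F : ℝ) ^ 4 := by
  by_cases ht : t = 0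
  · have h1 := count_bound hF ψ hψ (fun j => μ j + 1) (fun i j e => hμ (add_right_cancel e)) c c
      (h.resolve_right (not_not.2 ht))
    rwa [filter_congr (q := fun w : Fin 4 → F => ∑ j, w j ^ 2 = c ∧ ∑ j, μ j * w j ^ 2 = t)
      fun w _ => and_congr_right fun e => by
        simp only [add_mul, one_mul, sum_add_distrib, e, ht, add_eq_right]] at h1
  · exact count_bound hF ψ hψ μ hμ c t ht

theorem gauss {p : ℕ} (hp : p.Prime) (h5 : 5 ≤ p) (c t : ℤ) (h : ¬ (p : ℤ) ∣ c ∨ ¬ (p : ℤ) ∣ t) :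
    |(((res p).filter (fun v => (p : ℤ) ∣ nsq v - c ∧ (p : ℤ) ∣ Q2 v - t)).card : ℝ) -
      (p : ℝ) ^ 2| ≤ 10 * p := by
  have : Fact p.Prime := ⟨hp⟩
  have hF : ringChar (ZMod p) ≠ 2 := by rw [ZMod.ringChar_zmod_n]; omega
  have h2 : (2 : ZMod p) ≠ 0 := Ring.two_ne_zero hF
  have h3 : (3 : ZMod p) ≠ 0 := by
    intro h
    have : p ∣ 3 := (ZMod.natCast_eq_zero_iff 3 p).1 (by exact_mod_cast h)
    have := Nat.le_of_dvd (by norm_num) this
    omega
  have h4 : (4 : ZMod p) ≠ 0 := by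
    rw [show (4 : ZMod p) = 2 * 2 by norm_num]; exact mul_ne_zero h2 h2
  have h6 : (6 : ZMod p) ≠ 0 := by
    rw [show (6 : ZMod p) = 2 * 3 by norm_num]; exact mul_ne_zero h2 h3
  have hμ : Function.Injective (![1, 3, 5, 7] : Fin 4 → ZMod p) := by
    intro i j h
    fin_cases i <;> fin_cases j <;> simp at h ⊢ <;>
      first
      | exact h2 (by linear_combination h)
      | exact h2 (by linear_combination -h)
      | exact h4 (by linear_combination h)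
      | exact h4 (by linear_combination -h)
      | exact h6 (by linear_combination h)
      | exact h6 (by linear_combination -h)
  have hb := cnt hF ZMod.stdAddChar (ZMod.isPrimitive_stdAddChar p) _ hμ (c : ZMod p)
    (t : ZMod p) (by simpa only [Ne, ZMod.intCast_zmod_eq_zero_iff_dvd] using h)
  rw [ZMod.card] at hb
  have hN : ((res p).filter (fun v => (p : ℤ) ∣ nsq v - c ∧ (p : ℤ) ∣ Q2 v - t)).card =
      (univ.filter (fun w : Fin 4 → ZMod p => ∑ j, w j ^ 2 = c ∧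
        ∑ j, (![1, 3, 5, 7] : Fin 4 → ZMod p) j * w j ^ 2 = t)).card := by
    have h := sum_res_eq_sum_zmod (l := p) (fun w => if ∑ j, w j ^ 2 = c ∧
      ∑ j, (![1, 3, 5, 7] : Fin 4 → ZMod p) j * w j ^ 2 = t then 1 else 0)
    rw [sum_boole, sum_boole] at h
    rw [← Nat.cast_inj (R := ℂ), ← h]
    congr 2
    refine filter_congr fun v _ => ?_
    rw [← ZMod.intCast_zmod_eq_zero_iff_dvd, ← ZMod.intCast_zmod_eq_zero_iff_dvd]
    unfold nsq Q2
    simp only [Fin.sum_univ_four]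
    push_cast
    simp [sub_eq_zero]
  rw [hN]
  set A := |((univ.filter (fun w : Fin 4 → ZMod p => ∑ j, w j ^ 2 = c ∧
        ∑ j, (![1, 3, 5, 7] : Fin 4 → ZMod p) j * w j ^ 2 = t)).card : ℝ) - (p : ℝ) ^ 2|
  have hp5 : (5 : ℝ) ≤ p := by exact_mod_cast h5
  have hpos : 0 < ((p : ℝ) - 1) * (p : ℝ) ^ 2 := mul_pos (by linarith) (by positivity)
  refine le_of_mul_le_mul_left (hb.trans ?_) hpos
  have : (0 : ℝ) < (p : ℝ) ^ 3 := by positivity
  nlinarith

theorem card_f {p : ℕ} (hp : p.Prime) (h5 : 5 ≤ p) (c t : ℤ) (h : ¬ (p : ℤ) ∣ c ∨ ¬ (p : ℤ) ∣ t) :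
    ((P0 p 2 c).filter (fun v => (p : ℤ) ∣ Q2 v - t)).card =
      p ^ 3 * ((res p).filter (fun v => (p : ℤ) ∣ nsq v - c ∧ (p : ℤ) ∣ Q2 v - t)).card := by
  have hp2 : p ≠ 2 := by omega
  have hn : (nm p 2 : ℤ) = (p : ℤ) ^ 2 := by simp [nm, hp2]
  have hd : (p : ℤ) ∣ (p : ℤ) ^ 2 := dvd_pow_self _ (by omega)
  refine fib p _ _ _ ?_ ?_
  · intro v hv
    simp only [P0, mem_filter, hn] at hv ⊢
    exact ⟨emod_mem_res hp.ne_zero v, nsq_congr (dvd_rd p v) (hd.trans hv.1.2.2),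
      Q2_congr (dvd_rd p v) hv.2⟩
  · intro v0 h0
    simp only [mem_filter] at h0
    obtain ⟨h2, h4, h6⟩ := h0
    have h3 : pr p v0 := h.elim (fun hc h1 => hc (by
      simpa [nsq] using nsq_congr (w := 0) (fun i => by simpa using h1 i) h4)) fun ht => pr_of ht h6
    have h3' := h3
    unfold pr at h3'
    push Not at h3'
    obtain ⟨j, hj⟩ := h3'
    refine ⟨_, (pFib pSq).1 p 2 c v0 j hp hp2 one_le_two hj h4, fun v => ?_⟩
    simp only [P0, mem_filter, hn, rd_eq_iff hp.ne_zero h2]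
    constructor
    · rintro ⟨a1, a2, a3⟩
      refine ⟨⟨⟨a1, ?_, a3⟩, Q2_congr (fun i => dvd_sub_comm.1 (a2 i)) h6⟩, a2⟩
      unfold pr at h3 ⊢
      simpa only [dvd_congr a2] using h3
    · rintro ⟨⟨⟨a1, _, a3⟩, _⟩, a2⟩
      exact ⟨a1, a2, a3⟩

theorem xx_le {p : ℕ} (hp : p.Prime) (h5 : 5 ≤ p) (c t : ℤ) (h : ¬ (p : ℤ) ∣ c ∨ ¬ (p : ℤ) ∣ t) :
    |xx p 1 c t| ≤ 1000 / p := by
  have : Fact p.Prime := ⟨hp⟩
  have hp2 : p ≠ 2 := by omega
  have hp5 : (5 : ℝ) ≤ p := by exact_mod_cast h5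
  have l1 := card_lev_ge p hp2 c
  have l0 : (0 : ℝ) < (lev p c).card := by nlinarith [mul_pos (by linarith : (0 : ℝ) < p - 2) (by
    positivity : (0 : ℝ) < (p : ℝ) ^ 2)]
  have key := num (u := 1) (a := 0) (b1 := 0) hp5 one_pos l1 (card_lev_le p hp2 c) le_rfl
    (by positivity) le_rfl (by positivity) (by simpa only [zero_add] using gauss hp h5 c t h)
  have e := card_P0 (pFib pSq) (p := p) h5 one_le_two c
  rw [xx, rk, rk, show max 1 2 = 2 from rfl]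
  simp only [pow_one, Nat.sub_self, pow_zero, one_dvd, filter_true]
  rw [card_f hp h5 c t h, e]
  convert key using 3
  · push_cast
    field_simp
    ring
  · push_cast
    field_simp

end U1P

open U1P in
theorem pU1 (hXX : S_XX) (_hHen : S_Hen) (_hP0 : S_P0) : S_U1 := by
  refine ⟨1000 ^ 2, by norm_num, fun p c hp => ?_⟩
  obtain ⟨x1, -, -, x4⟩ := hXX p 1 c hp le_rfl
  have p0 : (0 : ℝ) < p := by exact_mod_cast hp.pos
  have hc : ((Ico (0 : ℤ) p).card : ℝ) = p := by simp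
  have bd : ∀ (s : Finset ℤ) (f : ℤ → ℝ) (B : ℝ), s ⊆ Ico (0 : ℤ) p → 0 ≤ B → (∀ t ∈ s, f t ≤ B) →
      ∑ t ∈ s, f t ≤ p * B := fun s f B hs hB h => (sum_le_card_nsmul _ _ _ h).trans (by
    rw [nsmul_eq_mul, ← hc]
    exact mul_le_mul_of_nonneg_right (by exact_mod_cast card_le_card hs) hB)
  have sq : ∀ {x B : ℝ}, |x| ≤ B → x ^ 2 ≤ B ^ 2 := fun h => by
    rw [← sq_abs]; exact pow_le_pow_left₀ (abs_nonneg _) h 2
  rw [uu]
  simp only [pow_one] at x1 ⊢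
  rcases lt_or_ge p 5 with h5 | h5
  · refine le_add_of_le_of_nonneg ?_ (by split_ifs <;> positivity)
    have h4 : (p : ℝ) ≤ 4 := by exact_mod_cast Nat.lt_succ_iff.1 h5
    rw [div_le_div_iff₀ p0 (by positivity)]
    refine (mul_le_mul_of_nonneg_right (bd _ _ (4 ^ 2) Subset.rfl (by norm_num) fun t _ =>
      sq ((x1 t).trans h4)) (by positivity)).trans ?_
    have : (p : ℝ) ^ 2 ≤ 4 ^ 2 := by gcongr
    nlinarith
  have e : (p : ℝ) * (1000 / p) ^ 2 / p = 1000 ^ 2 / p ^ 2 := by field_simp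
  split_ifs with h
  · have m0 : (0 : ℤ) ∈ Ico (0 : ℤ) p := mem_Ico.2 ⟨le_rfl, by exact_mod_cast hp.pos⟩
    have nz : ∀ t ∈ (Ico (0 : ℤ) p).erase 0, |xx p 1 c t| ≤ 1000 / p := fun t ht =>
      xx_le hp h5 c t (Or.inr fun d => (mem_erase.1 ht).1 (Int.eq_zero_of_dvd_of_nonneg_of_lt
        (mem_Ico.1 (mem_erase.1 ht).2).1 (mem_Ico.1 (mem_erase.1 ht).2).2 d))
    have s0 := x4 1 (fun _ => 1) le_rfl fun _ _ _ => rfl
    simp only [pow_one, mul_one] at s0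
    rw [← add_sum_erase _ _ m0] at s0 ⊢
    have z : |xx p 1 c 0| ≤ 1000 := by
      rw [eq_neg_of_add_eq_zero_left s0, abs_neg]
      refine (abs_sum_le_sum_abs _ _).trans ((bd _ _ _ (erase_subset _ _) (by positivity) nz).trans
        (le_of_eq ?_))
      field_simp
    rw [add_div, add_comm, ← e]
    exact add_le_add (div_le_div_of_nonneg_right (bd _ _ _ (erase_subset _ _) (by positivity)
      fun t ht => sq (nz t ht)) p0.le) (div_le_div_of_nonneg_right (sq z) p0.le)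
  · rw [add_zero, ← e]
    gcongr
    exact bd _ _ _ Subset.rfl (by positivity) fun t _ => sq (xx_le hp h5 c t (Or.inl h))

end Pool.Agent.P.MP_0ad054_nt.PS
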