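import Pool.Agent.P.MP_0ad054_nt.PS.St
import Pool.Agent.P.MP_0ad054_nt.Sun.Gamma

/-! From the discrete Fourier transform to real frequencies, and the counting form. -/

namespace Pool.Agent.P.MP_0ad054_nt.PS

open Finset Pool.Agent.Lib.H9 Pool.Agent.P.MP_0ad054_nt.Sun Pool.Agent.P.MP_0ad054_nt.Sun.SphereP
  Pool.Agent.P.MP_0ad054_nt.Clu
open scoped Real ComplexConjugate

namespace U3P

theorem sum_val {M : ℕ} [NeZero M] (F : ℕ → ℝ) :
    ∑ r : ZMod M, F r.val = ∑ i ∈ range M, F i :=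
  sum_nbij' ZMod.val (fun i => (i : ZMod M)) (fun r _ => mem_range.2 (ZMod.val_lt r))
    (fun _ _ => mem_univ _) (fun r _ => ZMod.natCast_zmod_val r)
    (fun _ hi => ZMod.val_cast_of_lt (mem_range.1 hi)) (fun _ _ => rfl)

theorem inv {M : ℕ} [NeZero M] (f : ZMod M → ℂ) (m : ℤ) :
    f m = ∑ r : ZMod M, (M : ℂ)⁻¹ * ZMod.dft f r * e ((r.val : ℝ) / M * m) := by
  have h := congrFun (ZMod.dft.symm_apply_apply f) (m : ZMod M)
  rw [ZMod.invDFT_apply] at h
  rw [← h, smul_eq_mul, mul_sum]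
  refine sum_congr rfl fun r _ => ?_
  have : r * (m : ZMod M) = ((r.val * m : ℤ) : ZMod M) := by simp
  rw [this, ZMod.stdAddChar_coe, smul_eq_mul, e]
  push_cast
  ring_nf

theorem dil {ρ : ℝ} (hρ : 1 ≤ ρ) {z : ℂ} (hz : ‖z‖ = 1) : ‖z - 1‖ ≤ ‖ρ * z - 1‖ := by
  have h : z.re ^ 2 + z.im ^ 2 = 1 := by
    have := Complex.sq_norm z
    rw [hz, Complex.normSq_apply] at this
    nlinarith
  have h1 : z.re ≤ 1 := by nlinarith [sq_nonneg z.im]
  rw [← sq_le_sq₀ (norm_nonneg _) (norm_nonneg _), Complex.sq_norm, Complex.sq_norm,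
    Complex.normSq_apply, Complex.normSq_apply]
  simp only [Complex.sub_re, Complex.sub_im, Complex.mul_re, Complex.mul_im, Complex.ofReal_re,
    Complex.ofReal_im, Complex.one_re, Complex.one_im, zero_mul, sub_zero, add_zero]
  have : (ρ * z.re - 1) * (ρ * z.re - 1) + ρ * z.im * (ρ * z.im) =
      ρ ^ 2 * (z.re ^ 2 + z.im ^ 2) - 2 * ρ * z.re + 1 := by ring
  rw [this, h]
  nlinarith [mul_nonneg (sub_nonneg.2 hρ) (sub_nonneg.2 h1), sq_nonneg (ρ - 1)]

theorem geom {N : ℕ} (hN : 1 ≤ N) (θ : ℝ) :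
    ‖∑ m ∈ Icc (0 : ℤ) (7 * N), ((Real.exp (π * m / N) : ℝ) : ℂ) * e (θ * m)‖ ≤
      8 * Real.exp (8 * π) * mn N θ := by
  have N1 : (1 : ℝ) ≤ N := by exact_mod_cast hN
  have N0 : (0 : ℝ) < N := by linarith
  have p0 := Real.pi_pos
  have E1 : 1 ≤ Real.exp (8 * π) := Real.one_le_exp (by positivity)
  set K := ∑ m ∈ Icc (0 : ℤ) (7 * N), ((Real.exp (π * m / N) : ℝ) : ℂ) * e (θ * m) with hK
  have a1 : ‖K‖ ≤ 8 * Real.exp (8 * π) * N := by
    refine (norm_sum_le _ _).trans ((sum_le_card_nsmul _ _ (Real.exp (8 * π)) fun m hm => ?_).trans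
      ?_)
    · rw [norm_mul, norm_e, mul_one, Complex.norm_real, Real.norm_of_nonneg (Real.exp_pos _).le]
      refine Real.exp_le_exp.2 ?_
      have : (m : ℝ) ≤ 7 * N := by exact_mod_cast (mem_Icc.1 hm).2
      rw [div_le_iff₀ N0]
      nlinarith
    · have : (7 * (N : ℤ) + 1 - 0).toNat = 7 * N + 1 := by omega
      rw [Int.card_Icc, this, nsmul_eq_mul]
      push_cast
      nlinarith
  set z : ℂ := (Real.exp (π / N) : ℝ) * e θ with hz
  have hp : ∀ i : ℕ, z ^ i = ((Real.exp (π * i / N) : ℝ) : ℂ) * e (θ * i) := fun i => by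
    rw [hz, mul_pow, ← Complex.ofReal_pow, ← Real.exp_nat_mul, e, e, ← Complex.exp_nat_mul]
    congr 2
    · congr 1
      ring
    · push_cast
      ring
  have a2 : K = ∑ i ∈ range (7 * N + 1), z ^ i := by
    rw [hK, Int.Icc_eq_finset_map, sum_map,
      show (7 * (N : ℤ) + 1 - 0).toNat = 7 * N + 1 by omega]
    refine sum_congr rfl fun i _ => ?_
    rw [hp]
    simp
  have a3 : ‖K‖ * (4 * dn θ) ≤ 2 * Real.exp (8 * π) := by
    have b1 : 4 * dn θ ≤ ‖z - 1‖ :=
      (four_dn_le θ).trans (dil (Real.one_le_exp (by positivity)) (norm_e θ))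
    refine (mul_le_mul_of_nonneg_left b1 (norm_nonneg _)).trans ?_
    rw [← norm_mul, a2, geom_sum_mul]
    refine (norm_sub_le _ _).trans ?_
    rw [hp, norm_mul, norm_e, mul_one, Complex.norm_real, Real.norm_of_nonneg (Real.exp_pos _).le,
      norm_one]
    have : Real.exp (π * ((7 * N + 1 : ℕ) : ℝ) / N) ≤ Real.exp (8 * π) := by
      refine Real.exp_le_exp.2 ?_
      rw [div_le_iff₀ N0]
      push_cast
      nlinarith
    linarith
  rw [mn, ← mul_div_assoc, le_div_iff₀ (by positivity), mul_max_of_nonneg _ _ (norm_nonneg _)]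
  refine max_le (by linarith) ?_
  nlinarith

theorem mn_shift {Y y δ : ℝ} (hY : 0 ≤ Y) (hδ : 2 * Y * |δ| ≤ 1) : mn Y (y + δ) ≤ 2 * mn Y y := by
  have h := dn_add_le (y + δ) (-δ)
  rw [add_neg_cancel_right, abs_neg] at h
  have h1 := le_max_left 1 (2 * Y * dn (y + δ))
  have h2 := le_max_right 1 (2 * Y * dn (y + δ))
  rw [mn, mn, ← mul_div_assoc, div_le_div_iff₀ (by positivity) (by positivity)]
  have : max 1 (2 * Y * dn y) ≤ 2 * max 1 (2 * Y * dn (y + δ)) :=
    max_le (by linarith) (by nlinarith)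
  nlinarith

theorem sum_mn {N M : ℕ} (hN : 1 ≤ N) (hM : N ≤ M) (hM' : M ≤ 40 * N) (β : ℝ) :
    ∑ i ∈ range M, mn N ((i : ℝ) / M + β) ≤ 172 * M * LL N := by
  have N1 : (1 : ℝ) ≤ N := by exact_mod_cast hN
  have NM : (N : ℝ) ≤ M := by exact_mod_cast hM
  have M0 : (0 : ℝ) < M := by linarith
  have h := minsum_block (x := 1 / M) (Y := N) (a := 1) (q := M) (by positivity) (by omega)
    isCoprime_one_left (by simp) (round (β * M))
  have h2 : ∀ i ∈ range M, mn N ((i : ℝ) / M + β) ≤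
      2 * mn N (1 / M * (round (β * M) + i)) := fun i _ => by
    have : (i : ℝ) / M + β = 1 / M * (round (β * M) + i) + (β * M - round (β * M)) / M := by
      field_simp
      ring
    rw [this]
    refine mn_shift (by positivity) ?_
    rw [abs_div, abs_of_pos M0, ← mul_div_assoc, div_le_one M0]
    have := abs_sub_round (β * M)
    nlinarith
  refine (sum_le_sum h2).trans ?_
  rw [← mul_sum]
  have l1 : Real.log M ≤ 39 + Real.log N := by
    have : (M : ℝ) ≤ 40 * N := by exact_mod_cast hM'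
    refine (Real.log_le_log M0 this).trans ?_
    rw [Real.log_mul (by norm_num) (by positivity)]
    have := Real.log_le_sub_one_of_pos (show (0 : ℝ) < 40 by norm_num)
    linarith
  have l0 := Real.log_nonneg N1
  rw [LL]
  nlinarith [mul_le_mul_of_nonneg_left l1 M0.le, mul_nonneg M0.le l0]

end U3P

theorem pFOU : S_FOU := by
  refine ⟨8 * Real.exp (8 * π) * 172, by positivity, fun N M _ f S β hN hM hM' hf => ?_⟩
  have M0 : (0 : ℝ) < M := by exact_mod_cast (show 0 < M by omega)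
  have S0 : 0 ≤ S := (norm_nonneg _).trans (hf 0)
  have h : ∑ m ∈ Icc (0 : ℤ) (7 * N), (Real.exp (π * m / N) : ℝ) * f m * e (β * m) =
      ∑ r : ZMod M, (M : ℂ)⁻¹ * ZMod.dft f r * ∑ m ∈ Icc (0 : ℤ) (7 * N),
        ((Real.exp (π * m / N) : ℝ) : ℂ) * e (((r.val : ℝ) / M + β) * m) := by
    simp only [mul_sum]
    rw [sum_comm]
    refine sum_congr rfl fun m _ => ?_
    rw [U3P.inv f m, mul_sum, sum_mul]
    refine sum_congr rfl fun r _ => ?_
    rw [add_mul, e_add]
    ring
  rw [h]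
  refine (norm_sum_le _ _).trans ((sum_le_sum (g := fun r : ZMod M =>
    (M : ℝ)⁻¹ * S * (8 * Real.exp (8 * π) * mn N ((r.val : ℝ) / M + β))) fun r _ => ?_).trans ?_)
  · rw [norm_mul, norm_mul, norm_inv, Complex.norm_natCast]
    exact mul_le_mul (mul_le_mul_of_nonneg_left (hf r) (by positivity)) (U3P.geom hN _)
      (norm_nonneg _) (by positivity)
  · rw [← mul_sum, ← mul_sum, U3P.sum_val fun i => mn N ((i : ℝ) / M + β)]
    refine (mul_le_mul_of_nonneg_left (mul_le_mul_of_nonneg_left (U3P.sum_mn hN hM hM' β)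
      (by positivity)) (by positivity)).trans_eq ?_
    field_simp

theorem pU3 (hOP : S_OP) (hFOU : S_FOU) : S_U3 := by
  intro c1 h0 h1
  obtain ⟨c2, k2, C, hC, hO⟩ := hOP c1 h0 h1
  obtain ⟨D, hD, hF⟩ := hFOU
  refine ⟨c2 / 2, by positivity, 9 * (Real.exp (7 * π) * (D + 1) * (1 + 2 / c2)) * C,
    by positivity, fun N M _ γ f hN hM hM' g1 g2 f1 f2 f3 => ?_⟩
  have N1 : (1 : ℝ) ≤ N := by exact_mod_cast hN
  have N0 : (0 : ℝ) < N := by linarith
  have p0 := Real.pi_pos
  have L1 : 1 ≤ LL N := le_add_of_nonneg_right (Real.log_nonneg N1)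
  have E1 : 1 ≤ Real.exp (7 * π) := Real.one_le_exp (by positivity)
  set c : ℝ := Real.exp (7 * π) * (D + 1) * LL N with hc
  have c0 : 0 < c := by positivity
  have cE : Real.exp (7 * π) ≤ c := by
    rw [hc, mul_assoc]
    exact le_mul_of_one_le_right (by positivity)
      (one_le_mul_of_one_le_of_one_le (by linarith) L1)
  set g : ℤ → ℂ := fun m => if m ∈ Icc (0 : ℤ) (7 * N) then
    (c⁻¹ : ℝ) * ((Real.exp (π * m / N) : ℝ) * f m) else 0 with hg
  have gf : ∀ m, ‖g m‖ ≤ ‖f m‖ := fun m => by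
    simp only [hg]
    split_ifs with hm
    · rw [← mul_assoc, norm_mul, ← Complex.ofReal_mul, Complex.norm_real,
        Real.norm_of_nonneg (by positivity)]
      refine mul_le_of_le_one_left (norm_nonneg _) ?_
      rw [inv_mul_le_iff₀ c0, mul_one]
      refine (Real.exp_le_exp.2 ?_).trans cE
      have : (m : ℝ) ≤ 7 * N := by exact_mod_cast (mem_Icc.1 hm).2
      rw [div_le_iff₀ N0]
      nlinarith
    · simp
  have key := hO N γ g hN g1
    (fun m hm => by
      by_contra h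
      exact hm (if_neg fun h' => h (mem_Icc.1 h')))
    (fun m => (gf m).trans (f1 _))
    (by
      refine le_trans ?_ (f2.trans (Real.rpow_le_rpow_of_exponent_le N1 (by linarith)))
      refine (sum_le_sum (g := fun m : ℤ => ‖f m‖ ^ 2) fun m _ =>
        pow_le_pow_left₀ (norm_nonneg _) (gf m) 2).trans ?_
      rw [← sum_image (s := Icc (0 : ℤ) (7 * N)) (g := fun m : ℤ => (m : ZMod M))
        (f := fun x => ‖f x‖ ^ 2)]
      · exact sum_le_sum_of_subset_of_nonneg (subset_univ _) fun _ _ _ => sq_nonneg _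
      · intro x hx y hy h
        have hx' := mem_Icc.1 (mem_coe.1 hx)
        have hy' := mem_Icc.1 (mem_coe.1 hy)
        have := Int.eq_zero_of_abs_lt_dvd ((ZMod.intCast_eq_intCast_iff_dvd_sub x y M).1 h)
          (by rw [abs_lt]; omega)
        omega)
    (fun β => by
      rw [sum_congr rfl (g := fun m : ℤ => ((c⁻¹ : ℝ) : ℂ) *
        ((Real.exp (π * m / N) : ℝ) * f m * e (β * m))) fun m hm => by
          simp only [hg, if_pos hm]
          ring]
      rw [← mul_sum, norm_mul, Complex.norm_real, Real.norm_of_nonneg (by positivity),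
        inv_mul_le_iff₀ c0]
      refine (hF N M f _ β hN (by omega) hM' f3).trans
        (mul_le_mul_of_nonneg_right ?_ (by positivity))
      rw [hc]
      exact mul_le_mul_of_nonneg_right (by nlinarith) (by linarith))
  have hB : BB N γ (fun m => f m) = c * BB N γ (dmp N g) := by
    simp only [BB, mul_sum]
    refine sum_congr rfl fun n hn => sum_congr rfl fun v hv => ?_
    have h1 := mem_sphere.1 hv
    have h2 := (mem_Icc.1 hn).2
    rw [nsq_eq'] at h1
    have h3 : Q2 v ∈ Icc (0 : ℤ) (7 * N) := by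
      rw [Q2, mem_Icc]
      constructor
      · positivity
      · nlinarith [sq_nonneg (v 0), sq_nonneg (v 1), sq_nonneg (v 2)]
    have h4 : c * (Real.exp (-(π * Q2 v / N)) * (c⁻¹ * Real.exp (π * Q2 v / N))) = 1 := by
      rw [Real.exp_neg]
      field_simp
    have h5 := congrArg (fun x : ℝ => (x : ℂ)) h4
    simp only [Complex.ofReal_mul, Complex.ofReal_one] at h5
    simp only [dmp, hg, if_pos h3]
    linear_combination (-(γ n * f (Q2 v))) * h5
  have hT : TT N 1 γ (fun _ => 1) (fun m => f m) = (Del 1).card * BB N γ (fun m => f m) := by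
    rw [TT, sum_congr rfl fun δ hδ => GammaP.T1_eq squarefree_one hδ g2 _]
    simp [BB]
  have hd : ((Del 1).card : ℝ) ≤ 9 := by
    have : (Del 1).card ≤ 9 := (card_filter_le _ _).trans (by simp [Sun.box])
    exact_mod_cast this
  have hL : LL N ≤ (1 + 2 / c2) * (N : ℝ) ^ (c2 / 2) := by
    have a := Real.log_le_rpow_div N0.le (show 0 < c2 / 2 by positivity)
    have b : 1 ≤ (N : ℝ) ^ (c2 / 2) := Real.one_le_rpow N1 (by positivity)
    rw [LL, add_mul, one_mul]
    refine add_le_add b (a.trans_eq ?_)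
    field_simp
  rw [hT, hB, norm_mul, norm_mul, Complex.norm_natCast, Complex.norm_real,
    Real.norm_of_nonneg c0.le]
  calc _ ≤ 9 * (Real.exp (7 * π) * (D + 1) * ((1 + 2 / c2) * (N : ℝ) ^ (c2 / 2)) *
        (C * (N : ℝ) ^ (2 - c2))) := by
        rw [hc]
        gcongr
    _ = 9 * (Real.exp (7 * π) * (D + 1) * (1 + 2 / c2)) * C *
        ((N : ℝ) ^ (c2 / 2) * (N : ℝ) ^ (2 - c2)) := by ring
    _ = _ := by
        rw [← Real.rpow_add N0]
        congr 2
        ring

end Pool.Agent.P.MP_0ad054_nt.PS
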