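import Pool.Agent.P.MP_0ad054_nt.PS.St

/-! Continuity, size and expansion of the theta series. -/

namespace Pool.Agent.P.MP_0ad054_nt.PS

open Finset Pool.Agent.Lib.H9 Pool.Agent.P.MP_0ad054_nt.Sun Pool.Agent.P.MP_0ad054_nt.Sun.SphereP
  Pool.Agent.P.MP_0ad054_nt.Clu
open scoped Real ComplexConjugate

namespace XIP

lemma norm_EE (N : ℕ) (lam : ℝ) (m : ℤ) : ‖EE N lam m‖ = Real.exp (-(2 * π * m / N)) := by
  rw [EE, norm_mul, norm_e, one_mul, Complex.norm_real, Real.norm_of_nonneg (Real.exp_pos _).le]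

lemma nsq_le (a : V) : nsq a ≤ Q2 a := by
  rw [nsq, Fin.sum_univ_four, Q2]
  nlinarith [sq_nonneg (a 1), sq_nonneg (a 2), sq_nonneg (a 3)]

lemma EE_le (N : ℕ) (lam : ℝ) (t : ℤ) (b : V) : ‖EE N lam (t ^ 2 * Q2 b)‖ ≤ 1 := by
  rw [norm_EE, Real.exp_le_one_iff, neg_nonpos]
  have : (0 : ℝ) ≤ ((t ^ 2 * Q2 b : ℤ) : ℝ) := by
    exact_mod_cast mul_nonneg (sq_nonneg t) ((nsq_nonneg b).trans (nsq_le b))
  positivity

lemma EE_per (N : ℕ) (lam : ℝ) (m : ℤ) : EE N (lam + 1) m = EE N lam m := by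
  rw [EE, EE, add_mul, one_mul, e_add_int]

lemma cont_e : Continuous e := by unfold e; fun_prop

lemma cont_EE (N : ℕ) (m : ℤ) : Continuous fun lam => EE N lam m :=
  (cont_e.comp (by fun_prop)).mul continuous_const

lemma term_le (N : ℕ) (b : V) (lam ν : ℝ) (a : V) :
    ‖if dot a b = 0 then EE N lam (Q2 a) * e (ν * QB b a) else 0‖ ≤
      Real.exp (-π * (2 / N) * (nsq a : ℝ)) := by
  split_ifs
  · rw [norm_mul, norm_e, mul_one, norm_EE, Real.exp_le_exp]
    have h : (nsq a : ℝ) ≤ Q2 a := by exact_mod_cast nsq_le a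
    have := mul_le_mul_of_nonneg_left h (show (0 : ℝ) ≤ π * (2 / N) by positivity)
    calc _ = -(π * (2 / N) * (Q2 a : ℝ)) := by ring
      _ ≤ _ := by linarith
  · rw [norm_zero]; positivity

lemma cont_Th {N : ℕ} (hN : 1 ≤ N) (b : V) : Continuous fun p : ℝ × ℝ => Th N b p.1 p.2 := by
  refine continuous_tsum (fun a => ?_) (summable_gauss4 (t := 2 / N) (by positivity))
    fun a p => term_le N b p.1 p.2 a
  split_ifs
  · exact ((cont_EE N _).comp continuous_fst).mul (cont_e.comp (by fun_prop))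
  · exact continuous_const

lemma Th_le : ∃ C : ℝ, 0 < C ∧ ∀ N : ℕ, 1 ≤ N → ∀ (b : V) (lam ν : ℝ),
    ‖Th N b lam ν‖ ≤ C * (N : ℝ) ^ 2 := by
  obtain ⟨C, hC, h⟩ := gauss4_le
  refine ⟨2 * C, by positivity, fun N hN b lam ν => ?_⟩
  have h2 : (0 : ℝ) < 2 / N := by positivity
  have h1 : (1 : ℝ) ≤ N := by exact_mod_cast hN
  refine ((tsum_of_norm_bounded (summable_gauss4 h2).hasSum (term_le N b lam ν)).trans
    (h _ h2)).trans ?_
  have e1 : 1 / (2 / N : ℝ) ^ 2 = (N : ℝ) ^ 2 / 4 := by field_simp; norm_num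
  have : (1 : ℝ) ≤ (N : ℝ) ^ 2 := one_le_pow₀ h1
  rw [e1]
  nlinarith

lemma cont_UU {N : ℕ} (hN : 1 ≤ N) (B : Finset V) (t : ℤ) :
    Continuous fun p : ℝ × ℝ => UU N B t p.1 p.2 :=
  continuous_finsetSum _ fun b _ => ((cont_EE N _).comp continuous_fst).mul (cont_Th hN b)

/-- the mean square at one value of `t` -/
noncomputable def II (N : ℕ) (B : Finset V) (t : ℤ) (lam : ℝ) : ℝ :=
  ∫ ν in (0 : ℝ)..1, ‖UU N B t lam ν‖ ^ 2

lemma II_nonneg (N : ℕ) (B : Finset V) (t : ℤ) (lam : ℝ) : 0 ≤ II N B t lam :=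
  intervalIntegral.integral_nonneg zero_le_one fun _ _ => by positivity

lemma cont_II {N : ℕ} (hN : 1 ≤ N) (B : Finset V) (t : ℤ) : Continuous (II N B t) := by
  have h : Continuous fun p : ℝ × ℝ => ‖UU N B t p.1 p.2‖ ^ 2 := (cont_UU hN B t).norm.pow 2
  exact intervalIntegral.continuous_parametric_intervalIntegral_of_continuous'
    (f := fun lam ν => ‖UU N B t lam ν‖ ^ 2) h 0 1

lemma II_le {N : ℕ} {K : ℝ} (hK : ∀ (b : V) (lam ν : ℝ), ‖Th N b lam ν‖ ≤ K) (B : Finset V)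
    (t : ℤ) (lam : ℝ) : II N B t lam ≤ (#B * K) ^ 2 := by
  have h : ∀ ν, ‖UU N B t lam ν‖ ≤ #B * K := fun ν => by
    refine (norm_sum_le _ _).trans ((sum_le_card_nsmul _ _ K fun b _ => ?_).trans (by simp))
    rw [norm_mul]
    exact (mul_le_of_le_one_left (norm_nonneg _) (EE_le N lam t b)).trans (hK b lam ν)
  have := intervalIntegral.norm_integral_le_of_norm_le_const (a := 0) (b := 1)
    (f := fun ν => ‖UU N B t lam ν‖ ^ 2) (C := (#B * K) ^ 2) fun ν _ => by
      rw [norm_pow, norm_norm]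
      exact pow_le_pow_left₀ (norm_nonneg _) (h ν) 2
  rw [sub_zero, abs_one, mul_one] at this
  exact (le_abs_self _).trans this

lemma II_eq {N : ℕ} (hN : 1 ≤ N) (B : Finset V) (t : ℤ) (lam : ℝ) :
    (II N B t lam : ℂ) = ∑ b ∈ B, ∑ b' ∈ B,
      EE N lam (t ^ 2 * Q2 b) * conj (EE N lam (t ^ 2 * Q2 b')) * TH N b b' lam := by
  have hc : ∀ b, Continuous fun ν => Th N b lam ν := fun b =>
    (cont_Th hN b).comp (f := fun ν : ℝ => (lam, ν)) (by fun_prop)
  have h1 : ∀ b b', Continuous fun ν => EE N lam (t ^ 2 * Q2 b) * conj (EE N lam (t ^ 2 * Q2 b')) *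
      (Th N b lam ν * conj (Th N b' lam ν)) := fun b b' =>
    continuous_const.mul ((hc b).mul (Complex.continuous_conj.comp (hc b')))
  rw [II, ← intervalIntegral.integral_ofReal]
  simp_rw [TH, ← intervalIntegral.integral_const_mul]
  rw [sum_congr rfl fun b _ => (intervalIntegral.integral_finsetSum fun b' _ =>
    (h1 b b').intervalIntegrable 0 1).symm, ← intervalIntegral.integral_finsetSum fun b _ =>
    (continuous_finsetSum _ fun b' _ => h1 b b').intervalIntegrable 0 1]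
  refine intervalIntegral.integral_congr fun ν _ => ?_
  rw [← Complex.normSq_eq_norm_sq, ← Complex.mul_conj, UU, map_sum, sum_mul_sum]
  refine sum_congr rfl fun b _ => sum_congr rfl fun b' _ => ?_
  rw [map_mul]; ring

lemma summ {T : ℕ} (hT : 1 ≤ T) : Summable fun t : ℤ => Real.exp (-(π * t ^ 2 / T ^ 2)) :=
  (summable_gauss (t := 1 / (T : ℝ) ^ 2) (by positivity)).congr fun t => by congr 1; ring

end XIP

open XIP in
theorem pXI : S_XI := by
  obtain ⟨C, hC, hT⟩ := Th_le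
  refine ⟨C, hC, fun N hN => ⟨fun b => ⟨cont_Th hN b, hT N hN b⟩, fun T B h1 => ?_⟩⟩
  have hb : ∀ (t : ℤ) (lam : ℝ), ‖Real.exp (-(π * t ^ 2 / T ^ 2)) * II N B t lam‖ ≤
      Real.exp (-(π * t ^ 2 / T ^ 2)) * (#B * (C * (N : ℝ) ^ 2)) ^ 2 := fun t lam => by
    rw [Real.norm_of_nonneg (mul_nonneg (Real.exp_pos _).le (II_nonneg N B t lam))]
    exact mul_le_mul_of_nonneg_left (II_le (hT N hN) B t lam) (Real.exp_pos _).le
  have hX : ∀ lam, Xi N T B lam = ∑' t : ℤ, Real.exp (-(π * t ^ 2 / T ^ 2)) * II N B t lam :=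
    fun _ => rfl
  have h0 : ∀ (lam : ℝ) (t : ℤ), 0 ≤ Real.exp (-(π * t ^ 2 / T ^ 2)) * II N B t lam :=
    fun lam t => mul_nonneg (Real.exp_pos _).le (II_nonneg N B t lam)
  refine ⟨continuous_tsum (fun t => continuous_const.mul (cont_II hN B t))
    ((summ h1).mul_right _) hb, fun lam => ⟨tsum_nonneg (h0 lam), ?_, ?_⟩, fun lam => ?_⟩
  · simp only [Xi, UU, Th, EE_per]
  · have hs : ∀ b b', Summable fun t : ℤ => ((Real.exp (-(π * t ^ 2 / T ^ 2)) : ℝ) : ℂ) *
        (EE N lam (t ^ 2 * Q2 b) * conj (EE N lam (t ^ 2 * Q2 b'))) * TH N b b' lam := by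
      refine fun b b' => Summable.mul_right _ (Summable.of_norm_bounded (summ h1) fun t => ?_)
      rw [norm_mul, Complex.norm_real, Real.norm_of_nonneg (Real.exp_pos _).le, norm_mul,
        Complex.norm_conj]
      exact mul_le_of_le_one_right (Real.exp_pos _).le
        (mul_le_one₀ (EE_le N lam t b) (norm_nonneg _) (EE_le N lam t b'))
    simp_rw [th, ← tsum_mul_right]
    rw [sum_congr rfl fun b _ => (Summable.tsum_finsetSum fun b' _ => hs b b').symm,
      ← Summable.tsum_finsetSum fun b _ => summable_sum fun b' _ => hs b b', hX,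
      Complex.ofReal_tsum]
    refine tsum_congr fun t => ?_
    rw [Complex.ofReal_mul, II_eq hN, mul_sum]
    refine sum_congr rfl fun b _ => ?_
    rw [mul_sum]
    exact sum_congr rfl fun b' _ => by ring
  · rw [hX]
    refine le_trans ?_ (mul_le_mul_of_nonneg_left
      ((Summable.of_norm_bounded ((summ h1).mul_right _) fun t => hb t lam).sum_le_tsum
        (Ioc (T : ℤ) (2 * T)) fun t _ => h0 lam t) (Real.exp_pos _).le)
    rw [mul_sum]
    refine sum_le_sum fun t ht => ?_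
    rw [← mul_assoc, ← Real.exp_add]
    refine le_mul_of_one_le_left (II_nonneg N B t lam) (Real.one_le_exp ?_)
    obtain ⟨h2, h3⟩ := mem_Ioc.1 ht
    have h4 : (T : ℝ) < t := by exact_mod_cast h2
    have h5 : (t : ℝ) ≤ 2 * T := by exact_mod_cast h3
    have h6 : (1 : ℝ) ≤ T := by exact_mod_cast h1
    have h7 : π * (t : ℝ) ^ 2 / T ^ 2 ≤ 4 * π := by
      rw [div_le_iff₀ (by positivity)]
      have : (t : ℝ) ^ 2 ≤ 4 * T ^ 2 := by nlinarith
      nlinarith [Real.pi_pos]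
    linarith

end Pool.Agent.P.MP_0ad054_nt.PS
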