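import Pool.Agent.P.MP_0ad054_nt.PS.St

/-! The dual form: invariance, zeros modulo a prime, and the choice of the prime. -/

namespace Pool.Agent.P.MP_0ad054_nt.PS

open Finset Pool.Agent.Lib.H9 Pool.Agent.P.MP_0ad054_nt.Sun Pool.Agent.P.MP_0ad054_nt.Sun.SphereP
  Pool.Agent.P.MP_0ad054_nt.Clu
open scoped Real ComplexConjugate

namespace ZERP

theorem QS_eq (a b : V) :
    QS a b = 105 * a 0 * b 0 + 35 * a 1 * b 1 + 21 * a 2 * b 2 + 15 * a 3 * b 3 := by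
  simp [QS, cs, Fin.sum_univ_four]

theorem dot_eq (a b : V) : dot a b = a 0 * b 0 + a 1 * b 1 + a 2 * b 2 + a 3 * b 3 := by
  simp [dot, Fin.sum_univ_four]

theorem Cm_eq (b : V) : Cm b 0 = b 0 ∧ Cm b 1 = 3 * b 1 ∧ Cm b 2 = 5 * b 2 ∧ Cm b 3 = 7 * b 3 := by
  simp [Cm, cz]

theorem h0_eq (b : V) :
    h0 b 0 = 0 ∧ h0 b 1 = b 2 * b 3 ∧ h0 b 2 = -2 * (b 1 * b 3) ∧ h0 b 3 = b 1 * b 2 := by
  simp [h0]

theorem self (b k : V) : QS b (k + b) = QS b k + al b ∧ dot b (k + b) = dot b k + nsq b ∧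
    QS (k + b) (k + b) = QS k k + 2 * QS b k + al b := by
  simp only [al, QS_eq, dot_eq, nsq_eq', Pi.add_apply]
  exact ⟨by ring, by ring, by ring⟩

theorem tw (b k : V) : QS b (k + Cm b) = QS b k + 105 * nsq b ∧
    dot b (k + Cm b) = dot b k + Q2 b ∧
    QS (k + Cm b) (k + Cm b) = QS k k + 210 * dot b k + 105 * Q2 b := by
  obtain ⟨e0, e1, e2, e3⟩ := Cm_eq b
  simp only [QS_eq, dot_eq, nsq_eq', Q2, Pi.add_apply, e0, e1, e2, e3]
  exact ⟨by ring, by ring, by ring⟩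

theorem line (b b' d k' : V) (l : ℤ) : Psi b b' (fun j => d j + l * Cm (h0 b) j) k' =
    Psi b b' d k' + l * (210 * De b b' * dot d (h0 b)) + 105 * De b b' * Q2 (h0 b) * l ^ 2 := by
  obtain ⟨e0, e1, e2, e3⟩ := Cm_eq (h0 b)
  obtain ⟨f0, f1, f2, f3⟩ := h0_eq b
  have h1 : QS b (fun j => d j + l * Cm (h0 b) j) = QS b d := by
    simp only [QS_eq, e0, e1, e2, e3, f0, f1, f2, f3]; ring
  have h2 : dot b (fun j => d j + l * Cm (h0 b) j) = dot b d := by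
    simp only [dot_eq, e0, e1, e2, e3, f0, f1, f2, f3]; ring
  have h3 : QS (fun j => d j + l * Cm (h0 b) j) (fun j => d j + l * Cm (h0 b) j) =
      QS d d + l * (210 * dot d (h0 b)) + 105 * Q2 (h0 b) * l ^ 2 := by
    simp only [QS_eq, dot_eq, Q2, e0, e1, e2, e3]; ring
  simp only [Psi, m1, m2, m3, y3, h1, h2, h3]
  ring

theorem congr (b b' : V) (m : ℤ) (k k' l l' : V) (h : ∀ j, m ∣ k j - l j)
    (h' : ∀ j, m ∣ k' j - l' j) : m ∣ Psi b b' k k' - Psi b b' l l' := by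
  have e : ∀ x y : ℤ, m ∣ x - y ↔ ((y : ℤ) : ZMod m.natAbs) = (x : ℤ) := fun x y => by
    rw [ZMod.intCast_eq_intCast_iff_dvd_sub, Int.natAbs_dvd]
  simp only [e] at h h' ⊢
  simp only [Psi, m1, m2, m3, y3, QS, dot]
  push_cast
  simp only [h, h']

theorem eq_of_dvd {p : ℕ} {x y : ℤ} (hx : x ∈ Ico (0 : ℤ) p) (hy : y ∈ Ico (0 : ℤ) p)
    (h : (p : ℤ) ∣ x - y) : x = y := by
  rw [mem_Ico] at hx hy
  exact sub_eq_zero.1 (Int.eq_zero_of_abs_lt_dvd h (abs_lt.2 ⟨by omega, by omega⟩))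

theorem two {p : ℕ} (hp : p.Prime) {c B A x y : ℤ} (hx : x ∈ Ico (0 : ℤ) p)
    (hy : y ∈ Ico (0 : ℤ) p) (hxy : x ≠ y) (h1 : (p : ℤ) ∣ c + x * B + A * x ^ 2)
    (h2 : (p : ℤ) ∣ c + y * B + A * y ^ 2) : (p : ℤ) ∣ B + A * (x + y) := by
  have h3 : (p : ℤ) ∣ (x - y) * (B + A * (x + y)) :=
    (dvd_sub h1 h2).trans (dvd_of_eq (by ring))
  exact ((Nat.prime_iff_prime_int.1 hp).dvd_or_dvd h3).resolve_left fun h => hxy (eq_of_dvd hx hy h)

theorem count (b b' : V) {p : ℕ} (hp : p.Prime) (hA : ¬ (p : ℤ) ∣ 105 * De b b' * Q2 (h0 b)) :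
    ((res p ×ˢ res p).filter (fun c => (p : ℤ) ∣ Psi b b' c.1 c.2)).card ≤ 2 * p ^ 7 := by
  classical
  have p0 : (0 : ℤ) < p := by exact_mod_cast hp.pos
  set Z := (res p ×ˢ res p).filter (fun c => (p : ℤ) ∣ Psi b b' c.1 c.2) with hZ
  have key := card_le_mul_card_image_of_maps_to (s := Z ×ˢ Ico (0 : ℤ) p) (t := res p ×ˢ res p)
    (f := fun x => (fun j => (x.1.1 j - x.2 * Cm (h0 b) j) % p, x.1.2)) (fun x hx => ?_) 2
    (fun d _ => ?_)
  · have e : (res p).card = p ^ 4 := by simp [res]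
    rw [card_product, card_product, e, Int.card_Ico, sub_zero, Int.toNat_natCast] at key
    refine Nat.le_of_mul_le_mul_right (key.trans_eq ?_) hp.pos
    ring
  · refine mem_product.2 ⟨Fintype.mem_piFinset.2 fun j => mem_Ico.2
      ⟨Int.emod_nonneg _ p0.ne', Int.emod_lt_of_pos _ p0⟩, ?_⟩
    exact (mem_product.1 (mem_filter.1 (mem_product.1 hx).1).1).2
  · set W := (Z ×ˢ Ico (0 : ℤ) p).filter fun x =>
      ((fun j => (x.1.1 j - x.2 * Cm (h0 b) j) % p, x.1.2) : V × V) = d with hW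
    have info : ∀ x ∈ W,
        x.2 ∈ Ico (0 : ℤ) p ∧ (∀ j, x.1.1 j ∈ Ico (0 : ℤ) p) ∧ x.1.2 = d.2 ∧
          (∀ j, (p : ℤ) ∣ x.1.1 j - (d.1 j + x.2 * Cm (h0 b) j)) ∧
          (p : ℤ) ∣ Psi b b' d.1 d.2 + x.2 * (210 * De b b' * dot d.1 (h0 b)) +
            105 * De b b' * Q2 (h0 b) * x.2 ^ 2 := by
      intro x hx
      obtain ⟨h1, rfl⟩ := mem_filter.1 hx
      obtain ⟨h2, h3⟩ := mem_product.1 h1
      obtain ⟨h4, h5⟩ := mem_filter.1 h2
      have h6 : ∀ j, (p : ℤ) ∣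
          x.1.1 j - ((x.1.1 j - x.2 * Cm (h0 b) j) % p + x.2 * Cm (h0 b) j) := fun j =>
        ⟨(x.1.1 j - x.2 * Cm (h0 b) j) / p, by
          linarith [Int.emod_add_mul_ediv (x.1.1 j - x.2 * Cm (h0 b) j) p]⟩
      refine ⟨h3, Fintype.mem_piFinset.1 (mem_product.1 h4).1, rfl, h6, ?_⟩
      rw [← line]
      exact (dvd_iff_dvd_of_dvd_sub (congr b b' p _ x.1.2 _ x.1.2 h6 fun j => by simp)).1 h5
    by_contra hc
    obtain ⟨x, hx, y, hy, z, hz, hxy, hxz, hyz⟩ := two_lt_card.1 (not_le.1 hc)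
    have inj : ∀ u ∈ W, ∀ v ∈ W, u ≠ v → u.2 ≠ v.2 := fun u hu v hv huv e => huv <| by
      obtain ⟨-, a2, a3, a4, -⟩ := info u hu
      obtain ⟨-, b2, b3, b4, -⟩ := info v hv
      refine Prod.ext (Prod.ext (funext fun j => eq_of_dvd (a2 j) (b2 j) ?_) (a3.trans b3.symm)) e
      exact (dvd_sub (a4 j) (b4 j)).trans (dvd_of_eq (by rw [e]; ring))
    have g1 := two hp (info x hx).1 (info y hy).1 (inj x hx y hy hxy) (info x hx).2.2.2.2
      (info y hy).2.2.2.2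
    have g2 := two hp (info x hx).1 (info z hz).1 (inj x hx z hz hxz) (info x hx).2.2.2.2
      (info z hz).2.2.2.2
    have g3 : (p : ℤ) ∣ 105 * De b b' * Q2 (h0 b) * (y.2 - z.2) :=
      (dvd_sub g1 g2).trans (dvd_of_eq (by ring))
    exact inj y hy z hz hyz (eq_of_dvd (info y hy).1 (info z hz).1
      (((Nat.prime_iff_prime_int.1 hp).dvd_or_dvd g3).resolve_left hA))

end ZERP

open ZERP in
theorem pZER : S_ZER := by
  refine fun b b' => ⟨fun k k' => ⟨?_, ?_, ?_⟩, congr b b', fun p hp hA => count b b' hp hA⟩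
  · obtain ⟨e1, e2, e3⟩ := self b k
    simp only [Psi, m1, m2, m3, y3, De, ep, ka, e1, e2, e3]
    ring
  · obtain ⟨e1, e2, e3⟩ := self b' k'
    simp only [Psi, m1, m2, m3, y3, De, ep, ka, e1, e2, e3]
    ring
  · obtain ⟨e1, e2, e3⟩ := tw b k
    obtain ⟨f1, f2, f3⟩ := tw b' k'
    simp only [Psi, m1, m2, m3, y3, De, ep, ka, e1, e2, e3, f1, f2, f3]
    ring

theorem pPRM : S_PRM := by
  intro P m hP hm hle
  have h : ∀ i : ℕ, ∃ p : ℕ, p.Prime ∧ 2 ^ i * P < p ∧ p ≤ 2 * (2 ^ i * P) := fun i =>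
    Nat.exists_prime_lt_and_le_two_mul _ (by positivity)
  choose f f1 f2 f3 using h
  have mono : StrictMono f := strictMono_nat_of_lt_succ fun i =>
    lt_of_le_of_lt ((f3 i).trans_eq (by ring)) (f2 (i + 1))
  have low : ∀ i, P ≤ f i := fun i =>
    (Nat.le_mul_of_pos_left P (by positivity)).trans (f2 i).le
  by_contra hc
  have hd : ∀ i ∈ range 60, f i ∣ m.natAbs := fun i hi => by
    by_contra hn
    refine hc ⟨f i, f1 i, low i, (f3 i).trans ?_, fun h => hn (Int.natCast_dvd.1 h)⟩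
    rw [← mul_assoc, ← pow_succ']
    exact Nat.mul_le_mul_right _ (Nat.pow_le_pow_right two_pos (mem_range.1 hi))
  have h1 : ∏ q ∈ (range 60).image f, q ∣ m.natAbs :=
    prod_primes_dvd _ (fun q hq => by obtain ⟨i, -, rfl⟩ := mem_image.1 hq; exact (f1 i).prime)
      fun q hq => by obtain ⟨i, hi, rfl⟩ := mem_image.1 hq; exact hd i hi
  have h2 := pow_card_le_prod ((range 60).image f) (fun q => q) P
    fun q hq => by obtain ⟨i, -, rfl⟩ := mem_image.1 hq; exact low i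
  rw [card_image_of_injective _ mono.injective, card_range] at h2
  have h3 := h2.trans (Nat.le_of_dvd (Int.natAbs_pos.2 hm) h1)
  have h4 : m.natAbs ≤ P ^ 59 := by
    rw [← Int.natCast_natAbs] at hle
    exact_mod_cast hle
  exact absurd (h3.trans h4) (not_le.2 (Nat.pow_lt_pow_right hP (by norm_num)))

end Pool.Agent.P.MP_0ad054_nt.PS
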